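import Pool.Agent.MP_9181f8_al.S.SBasic
import Pool.Agent.MP_9181f8_al.N.Count

namespace Pool.Agent.N9181

open scoped commutatorElement

theorem xscnta_fib {α β : Type} [Finite α] [Finite β] (s : Set α) (t : Set β) (f : α → β)
    (hf : ∀ a ∈ s, f a ∈ t) (n : ℕ) (h : ∀ a ∈ s, {x ∈ s | f x = f a}.ncard ≤ n) :
    s.ncard ≤ n * t.ncard := by
  classical
  rw [Set.ncard_eq_toFinset_card s, Set.ncard_eq_toFinset_card t]
  refine Finset.card_le_mul_card_image_of_maps_to (f := f) (fun a ha => by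
    simpa using hf a (by simpa using ha)) n fun b _ => ?_
  rcases ((Set.toFinite s).toFinset.filter fun a => f a = b).eq_empty_or_nonempty with e | ⟨a, ha⟩
  · simp [e]
  obtain ⟨h1, rfl⟩ := Finset.mem_filter.1 ha
  refine le_trans (le_of_eq ?_) (h a (by simpa using h1))
  rw [← Set.ncard_coe_finset]
  congr 1
  ext x
  simp

theorem iso_nine {U Z : Type} [CommGroup U] [Finite U] [CommGroup Z] [Finite Z] [IsCyclic Z]
    (B : U →* U →* Z) (hB : Symp B) (h9 : Nat.card U = 9) (s : Iso B) (hs : s ≠ 1) (p : ℕ)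
    (hp : p.Prime) (h3 : p ≠ 3) (h : s ^ p = 1) : ∀ u, (s : MulAut U) u = u⁻¹ := by
  have := Fact.mk hp
  let X : Subgroup U := MonoidHom.eqLocus (s : MulAut U).toMonoidHom (MonoidHom.id U)
  have hX : ∀ u, u ∈ X ↔ (s : MulAut U) u = u := fun _ => Iff.rfl
  have hd : Nat.card X ∣ 3 ^ 2 := (Subgroup.card_subgroup_dvd_card X).trans h9.dvd
  have hne : Nat.card X ≠ 9 := fun e => hs (Subtype.ext (MulEquiv.ext fun u =>
    (hX u).1 ((Subgroup.card_eq_iff_eq_top X).1 (e.trans h9.symm) ▸ Subgroup.mem_top u)))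
  have h13 : Nat.card X = 1 ∨ Nat.card X = 3 := by
    obtain ⟨i, hi, e⟩ := (Nat.dvd_prime_pow Nat.prime_three).1 hd
    interval_cases i
    · exact .inl e
    · exact .inr e
    · exact absurd e hne
  have hP : IsPGroup p (Subgroup.zpowers (s : MulAut U)) := by
    rintro ⟨_, k, rfl⟩
    refine ⟨1, Subtype.ext ?_⟩
    have e : (s : MulAut U) ^ p = 1 := congrArg Subtype.val h
    change ((s : MulAut U) ^ k) ^ p ^ 1 = 1
    rw [pow_one, ← zpow_natCast, ← zpow_mul, mul_comm, zpow_mul, zpow_natCast, e, one_zpow]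
  have hm := hP.card_modEq_card_fixedPoints U
  have hfp : MulAction.fixedPoints (Subgroup.zpowers (s : MulAut U)) U = (X : Set U) := by
    ext u
    refine ⟨fun hu => hu ⟨s, Subgroup.mem_zpowers _⟩, fun hu g => ?_⟩
    exact (Subgroup.zpowers_le_of_mem (H := MulAction.stabilizer (MulAut U) u) hu) g.2
  rw [hfp, h9] at hm
  have hm' : 9 ≡ Nat.card X [MOD p] := hm
  have h2 : p = 2 := by
    rcases h13 with e | e <;> rw [e] at hm'
    · have : p ∣ 2 ^ 3 := (Nat.modEq_iff_dvd' (by norm_num)).1 hm'.symm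
      exact (Nat.prime_dvd_prime_iff_eq hp Nat.prime_two).1 (hp.dvd_of_dvd_pow this)
    · have : p ∣ 2 * 3 := (Nat.modEq_iff_dvd' (by norm_num)).1 hm'.symm
      rcases (Nat.Prime.dvd_mul hp).1 this with e | e
      · exact (Nat.prime_dvd_prime_iff_eq hp Nat.prime_two).1 e
      · exact absurd ((Nat.prime_dvd_prime_iff_eq hp Nat.prime_three).1 e) h3
  subst h2
  have hss : ∀ u, (s : MulAut U) ((s : MulAut U) u) = u := fun u => by
    have e : (s : MulAut U) * s = 1 := by rw [← sq]; exact congrArg Subtype.val h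
    exact DFunLike.congr_fun e u
  have hmem : ∀ u, u * (s : MulAut U) u ∈ X := fun u => by rw [hX, map_mul, hss, mul_comm]
  intro u
  rw [eq_inv_iff_mul_eq_one, mul_comm]
  by_contra hu
  have hu' : (⟨_, hmem u⟩ : X) ≠ 1 := fun e => hu (congrArg Subtype.val e)
  rcases h13 with e | e
  · have := (Nat.card_eq_one_iff_unique.1 e).1
    exact hu' (Subsingleton.elim _ _)
  have := Fact.mk Nat.prime_three
  refine hu (hB.2 _ fun y => xisob_one (m := 2) (n := 9) (by norm_num) ?_ ?_)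
  · obtain ⟨k, hk⟩ := mem_powers_of_prime_card e hu' (g' := ⟨_, hmem y⟩)
    have hk' : (u * (s : MulAut U) u) ^ k = y * (s : MulAut U) y := congrArg Subtype.val hk
    have e1 := s.2 (u * (s : MulAut U) u) y
    rw [(hX _).1 (hmem u)] at e1
    rw [sq]
    nth_rewrite 2 [← e1]
    rw [← map_mul, ← hk', map_pow, hB.1, one_pow]
  · rw [← map_pow, ← h9, pow_card_eq_one', map_one]

theorem cntA {H : Type} [Group H] [Finite H] (A F : Subgroup H) (hS : SD A F) (e : ℕ) (he : A.relIndex F = e ^ 2) (ho : Odd e) :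
    ∃ I M : ℕ, I ≤ ch 3 (e ^ 2) ∧ M < I ∧ (e = 3 → M ≤ 1) ∧
      Nat.card (Subgroup.centralizer (A : Set H)) ≤ Nat.card A * e ^ 2 * I ∧
      ∀ (T : Set H) (μ : ℕ), (∀ c ∈ T, c ∈ Subgroup.centralizer (A : Set H) ∧ c ∉ F ∧
          ∃ p : ℕ, p.Prime ∧ p ≠ 3 ∧ c ^ p ∈ A) →
        (∀ c ∈ T, {c' ∈ T | c⁻¹ * c' ∈ A}.ncard ≤ μ) → T.ncard ≤ μ * e ^ 2 * M := by
  classical
  obtain ⟨U, Z, _, _, _, _, _, π, ζ, B, κ, -, hπ, -, -, hB, -, hU, -, -, hκ⟩ := sd_pair A F hS
  have : Finite (MulAut U) := inferInstance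
  rw [he] at hU
  let S : Set (Iso B) := {s | s ≠ 1 ∧ ∃ p : ℕ, p.Prime ∧ p ≠ 3 ∧ s ^ p = 1}
  refine ⟨Nat.card (Iso B), S.ncard, ?_, ?_, ?_, ?_, fun T μ hT hμ => ?_⟩
  · rw [← hU]
    refine iso_chain B hB 3 (by norm_num) fun q hq hd => ?_
    rw [hU] at hd
    have h1 := hq.two_le
    have h2 : q ≠ 2 := by
      rintro rfl
      exact (Nat.not_even_iff_odd.2 ho) (even_iff_two_dvd.2 (hq.dvd_of_dvd_pow hd))
    omega
  · refine Set.ncard_lt_card fun h => ?_
    have h1 : (1 : Iso B) ∈ S := h ▸ Set.mem_univ _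
    exact h1.1 rfl
  · rintro rfl
    refine (Set.ncard_le_one_iff (Set.toFinite _)).2 ?_
    rintro s t ⟨h1, p, h2, h3, h4⟩ ⟨h5, q, h6, h7, h8⟩
    exact Subtype.ext (MulEquiv.ext fun u => (iso_nine B hB hU s h1 p h2 h3 h4 u).trans
      (iso_nine B hB hU t h5 q h6 h7 h8 u).symm)
  · have h1 : Nat.card κ.ker ≤ Nat.card F :=
      Nat.card_le_card_of_injective (fun c => ⟨c.1.1, (hκ c.1).1 c.2⟩) fun c d h =>
        Subtype.ext (Subtype.ext (congrArg (fun x : F => (x : H)) h))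
    have h2 : Nat.card F = Nat.card A * e ^ 2 := by
      rw [← he, ← Subgroup.card_mul_index (A.subgroupOf F),
        Nat.card_congr (Subgroup.subgroupOfEquivOfLe hS.le).toEquiv]
      rfl
    have h3 : κ.ker.index ≤ Nat.card (Iso B) := by
      rw [Subgroup.index_ker]; exact Finite.card_subtype_le _
    rw [← Subgroup.card_mul_index κ.ker, ← h2]
    gcongr
  · refine xscnta_fib T S (fun c => if h : c ∈ Subgroup.centralizer (A : Set H) then κ ⟨c, h⟩ else 1)
      (fun c hc => ?_) _ fun c hc => ?_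
    · obtain ⟨h1, h2, p, h3, h4, h5⟩ := hT c hc
      rw [dif_pos h1]
      refine ⟨fun h => h2 ((hκ _).1 h), p, h3, h4, ?_⟩
      rw [← map_pow]
      exact (hκ _).2 (hS.le h5)
    have hF : ∀ d ∈ T, (if h : d ∈ Subgroup.centralizer (A : Set H) then κ ⟨d, h⟩ else 1) =
        (if h : c ∈ Subgroup.centralizer (A : Set H) then κ ⟨c, h⟩ else 1) → c⁻¹ * d ∈ F := by
      intro d hd h
      rw [dif_pos (hT d hd).1, dif_pos (hT c hc).1] at h
      exact (hκ ((⟨c, (hT c hc).1⟩ : Subgroup.centralizer (A : Set H))⁻¹ * ⟨d, (hT d hd).1⟩)).1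
        (by rw [map_mul, map_inv, h, inv_mul_cancel])
    rw [← hU, ← Set.ncard_univ]
    refine xscnta_fib _ Set.univ (fun d => if h : c⁻¹ * d ∈ F then π ⟨c⁻¹ * d, h⟩ else 1)
      (fun _ _ => Set.mem_univ _) _ ?_
    rintro d ⟨h1, h2⟩
    refine le_trans (Set.ncard_le_ncard ?_ (Set.toFinite _)) (hμ d h1)
    rintro d' ⟨⟨h3, h4⟩, h5⟩
    refine ⟨h3, ?_⟩
    rw [dif_pos (hF d h1 h2), dif_pos (hF d' h3 h4)] at h5
    have := (hπ ((⟨c⁻¹ * d, hF d h1 h2⟩ : F)⁻¹ * ⟨c⁻¹ * d', hF d' h3 h4⟩)).1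
      (by rw [map_mul, map_inv, h5, inv_mul_cancel])
    simpa [mul_assoc] using this

end Pool.Agent.N9181
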