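import Pool.Agent.MP_9181f8_al.S.P9a

namespace Pool.Agent.N9181

open scoped commutatorElement

theorem xsp9b_gen {H : Type} [Group H] [Finite H] (L : Subgroup H) (hL : Nat.card L = 3) :
    ∃ l ∈ L, l ≠ 1 ∧ ∀ x ∈ L, x = 1 ∨ x = l ∨ x = l * l := by
  have : Fact (Nat.Prime 3) := ⟨Nat.prime_three⟩
  have : Nontrivial L := Finite.one_lt_card_iff_nontrivial.1 (by omega)
  obtain ⟨l, hl⟩ := exists_ne (1 : L)
  have ho : orderOf l = 3 := orderOf_eq_prime (by rw [← hL]; exact pow_card_eq_one') hl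
  refine ⟨l, l.2, fun h => hl (Subtype.ext h), fun x hx => ?_⟩
  have h1 : (⟨x, hx⟩ : L) ∈ Submonoid.powers l := mem_powers_of_prime_card hL hl
  obtain ⟨n, hn⟩ := h1
  have h2 : l ^ (n % 3) = ⟨x, hx⟩ := by
    rw [← ho, pow_mod_orderOf]
    exact hn
  have h3 : (l : H) ^ (n % 3) = x := by
    have := congrArg Subtype.val h2
    simpa using this
  have h4 : n % 3 = 0 ∨ n % 3 = 1 ∨ n % 3 = 2 := by omega
  rcases h4 with h | h | h
  · left
    rw [← h3, h, pow_zero]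
  · right; left
    rw [← h3, h, pow_one]
  · right; right
    rw [← h3, h, pow_two]

theorem xsp9b_Y {V : Type} [AddCommGroup V] [Module K V] [Module.Finite K V]
    {H : Type} [Group H] [Finite H] (ρ : Representation K H V) (E : Subgroup H)
    (hE : EH ρ 3 3 E) (l : H) (hl : l ∈ E) (h1 : l ≠ 1) (m : V) (h0 : m ≠ 0) (hm : ρ l m = m) :
    ∃ Y ∈ E, ∀ v, ρ l (ρ Y v) = (3 : K) • ρ Y (ρ l v) := by
  have hns : l ∉ scal ρ := by
    rintro ⟨c, -, hc⟩
    have h2 : (c - 1) • m = 0 := by rw [sub_smul, one_smul, ← hc, hm, sub_self]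
    have h3 : c = 1 := sub_eq_zero.1 ((smul_eq_zero.1 h2).resolve_right h0)
    apply h1
    apply hE.inj
    ext v
    rw [hc, h3, one_smul, map_one]
    rfl
  have hex : ∃ Y ∈ E, l * Y ≠ Y * l := by
    by_contra hn
    push Not at hn
    exact hns ((eh_pd ρ 3 3 E hE).nd l hl hn).2
  obtain ⟨Y, hY, hne⟩ := hex
  obtain ⟨k, hk, hr⟩ := eh_rel ρ 3 3 3 (Or.inr ⟨rfl, rfl, rfl⟩) E hE l Y hl hY
  have hk' : k = 0 ∨ k = 1 ∨ k = 2 := by omega
  rcases hk' with rfl | rfl | rfl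
  · exfalso
    apply hne
    apply hE.inj
    ext v
    rw [rho_mul, rho_mul, hr, pow_zero, one_smul]
  · exact ⟨Y, hY, fun v => by rw [hr, pow_one]⟩
  · refine ⟨Y * Y, E.mul_mem hY hY, fun v => ?_⟩
    rw [rho_mul, rho_mul, hr, hr, map_smul, smul_smul]
    congr 1

theorem xsp9b_zero {V : Type} [AddCommGroup V] [Module K V] (v : V) (h : v = (3 : K) • v) :
    v = 0 := by
  have h2 : ((1 : K) - 3) • v = 0 := by rw [sub_smul, one_smul, ← h, sub_self]
  exact (smul_eq_zero.1 h2).resolve_left (by decide)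

theorem xsp9b_cube {V : Type} [AddCommGroup V] [Module K V] [Module.Finite K V]
    {H : Type} [Group H] [Finite H] (ρ : Representation K H V) (f : H) (hf : f ^ 3 = 1)
    (a : V) (h0 : a ≠ 0) : ρ f a ≠ (8 : K) • a := by
  intro h
  have h1 := rho_pow_eig ρ f a 8 h 3
  rw [hf, map_one] at h1
  have h2 : ((8 : K) ^ 3 - 1) • a = 0 := by
    rw [sub_smul, one_smul, ← h1]
    exact sub_self _
  exact h0 ((smul_eq_zero.1 h2).resolve_left (by decide))

theorem xsp9b_inv {V : Type} [AddCommGroup V] [Module K V]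
    {H : Type} [Group H] (ρ : Representation K H V) (k : H) (a b : V)
    (h : ρ k a = (3 : K) • b) : ρ k⁻¹ b = (9 : K) • a := by
  have h1 := rho_inv ρ k a
  rw [h, map_smul] at h1
  rw [← h1, smul_smul, show (9 : K) * 3 = 1 by decide, one_smul]

theorem xsp9b_five {V : Type} [AddCommGroup V] [Module K V] (a b : V)
    (h : (5 : K) • a = (3 : K) • b) : a = (11 : K) • b := by
  have h1 := congrArg (fun v => (8 : K) • v) h
  simp only [smul_smul] at h1
  rw [show (8 : K) * 5 = 1 by decide, show (8 : K) * 3 = 11 by decide, one_smul] at h1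
  exact h1

theorem xsp9b_pos {V : Type} [AddCommGroup V] [Module K V] [Module.Finite K V]
    {H : Type} [Group H] [Finite H] (ρ : Representation K H V) (E : Subgroup H)
    (hE : EH ρ 3 3 E) (L : Subgroup H) (X Z : H) (hH : HS ρ 3 3 1 E L X Z)
    (hL9 : Module.finrank K V = 9) (h3 : Module.finrank K (fixS ρ L) = 3)
    (l Y : H) (hl : l ∈ L) (hL : ∀ x ∈ L, x = 1 ∨ x = l ∨ x = l * l) (hY : Y ∈ E)
    (hlY : ∀ v, ρ l (ρ Y v) = (3 : K) • ρ Y (ρ l v)) (m : V) (hm : m ∈ fixS ρ L) (h0 : m ≠ 0)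
    (hZ : ρ Z m = m) (x : K) (hx : x ≠ 0) (hx3 : x ^ 3 ≠ -1) :
    Pos ρ (r9 ρ Y (av ρ X m) x) 1 := by
  intro s n hs hr
  obtain ⟨ha1, ha0, -⟩ := hs_sla ρ E hE L X Z hH m hm h0 hZ
  have hth := ql_th ρ E hE L X Z hH m hm h0 hZ
  rw [(hs_t3 ρ E hE L X Z hH m hm h0 hZ).2 h3] at hth
  have hact := p9_act ρ E hE L X Z hH l Y hl hL hY hlY m hm h0 hZ x x hx hx hx3 s 3 hr
  generalize av ρ X m = a at ha1 ha0 hth hact
  rcases hact with ⟨h1, h2⟩ | ⟨h1, h2⟩
  · have h2' : ρ s (ρ Y a) = (3 : K) • ρ Y a := by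
      rw [mul_comm, ← smul_smul] at h2
      exact smul_right_injective V hx h2
    have hs' : (Y⁻¹ * s * Y) ^ (3 ^ n) = 1 := by
      have := @conj_pow H _ (3 ^ n) Y⁻¹ s
      rw [inv_inv] at this
      rw [this, hs, mul_one, inv_mul_cancel]
    have h4 : ρ (Y⁻¹ * s * Y) a = (3 : K) • a := by
      rw [rho_mul, rho_mul, h2', map_smul, rho_inv]
    have h5 := hth _ n hs' h4
    have h6 := hth s n hs h1
    have hle : fixS ρ L ⊔ (fixS ρ L).map (ρ Y) ≤ Module.End.eigenspace (ρ s) 3 := by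
      apply sup_le
      · intro w hw
        exact Module.End.mem_eigenspace_iff.2 (h6 w hw)
      · rintro _ ⟨w, hw, rfl⟩
        have h7 := congrArg (ρ Y) (h5 w hw)
        rw [rho_mul, rho_mul, rho_inv', map_smul] at h7
        exact Module.End.mem_eigenspace_iff.2 h7
    have hinf : fixS ρ L ⊓ (fixS ρ L).map (ρ Y) = ⊥ := by
      rw [eq_bot_iff]
      rintro _ ⟨hv, w, hw, rfl⟩
      have h7 := hlY w
      rw [hv l hl, hw l hl] at h7
      exact xsp9b_zero _ h7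
    have hinj : Function.Injective (ρ Y) := fun u v h => by
      rw [← rho_inv ρ Y u, h, rho_inv]
    have hmap : Module.finrank K ((fixS ρ L).map (ρ Y)) = 3 := by
      rw [← h3]
      exact (Submodule.equivMapOfInjective _ hinj _).finrank_eq.symm
    have h8 := Submodule.finrank_sup_add_finrank_inf_eq (fixS ρ L) ((fixS ρ L).map (ρ Y))
    rw [hinf, finrank_bot, h3, hmap] at h8
    have h9 : 6 ≤ ed (ρ s) 3 := by
      have := Submodule.finrank_mono hle
      unfold ed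
      omega
    have h10 := ed_two ⊤ (ρ s) 3 9 (by decide)
    rw [edOn_top, edOn_top, finrank_top, hL9] at h10
    omega
  · exfalso
    have h4 : ρ (s * s) a = (9 : K) • a := by
      rw [rho_mul, h1, map_smul, ← smul_smul, h2, smul_smul]
      congr 1
    obtain ⟨j, hj⟩ : Odd (3 ^ n) := Odd.pow (by decide)
    have h5 : s * (s * s) ^ j = 1 := by
      rw [← hs, hj, ← pow_two, ← pow_mul, pow_succ']
    have h6 := rho_pow_eig ρ (s * s) a 9 h4 j
    have h7 : a = (9 ^ j * (3 * x)) • ρ Y a := by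
      have := rho_mul ρ s ((s * s) ^ j) a
      rw [h5, h6, map_smul, h1, smul_smul, map_one] at this
      exact this
    have h8 := congrArg (ρ l) h7
    rw [map_smul, hlY, ha1 l hl, smul_comm, ← h7] at h8
    exact ha0 (xsp9b_zero _ h8)

theorem p9 {V : Type} [AddCommGroup V] [Module K V] [Module.Finite K V]
    {H : Type} [Group H] [Finite H] (ρ : Representation K H V) (E : Subgroup H) (hE : EH ρ 3 3 E) (L : Subgroup H) (X Z : H)
    (hH : HS ρ 3 3 1 E L X Z) (hL : Nat.card L = 3) (h3 : Module.finrank K (fixS ρ L) = 3) : PP2 ρ := by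
  obtain ⟨l, hl, hl1, hLl⟩ := xsp9b_gen L hL
  obtain ⟨m, h0, hm, hZ⟩ := hH.ex
  rw [one_smul] at hZ
  obtain ⟨Y, hY, hlY⟩ := xsp9b_Y ρ E hE l (hH.le hl) hl1 m h0 (hm l hl)
  have h9 : Module.finrank K V = 9 := by rw [hH.dim, hL, h3]
  obtain ⟨ha1, ha0, -⟩ := hs_sla ρ E hE L X Z hH m hm h0 hZ
  have hne : ∀ x : K, r9 ρ Y (av ρ X m) x ≠ 0 := fun x h => by
    unfold r9 at h
    have h1 : av ρ X m = (-x) • ρ Y (av ρ X m) := by
      rw [neg_smul]
      exact eq_neg_of_add_eq_zero_left h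
    have h2 := congrArg (ρ l) h1
    rw [map_smul, hlY, ha1 l hl, smul_comm, ← h1] at h2
    exact ha0 (xsp9b_zero _ h2)
  refine ⟨r9 ρ Y (av ρ X m) 1, r9 ρ Y (av ρ X m) 5, hne 1, hne 5, fun k hk => ?_,
    xsp9b_pos ρ E hE L X Z hH h9 h3 l Y hl hLl hY hlY m hm h0 hZ 1 (by decide) (by decide),
    xsp9b_pos ρ E hE L X Z hH h9 h3 l Y hl hLl hY hlY m hm h0 hZ 5 (by decide) (by decide)⟩
  have hact := p9_act ρ E hE L X Z hH l Y hl hLl hY hlY m hm h0 hZ 5 1 (by decide) (by decide)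
    (by decide) k 3 hk
  have hc : k * Y * k⁻¹ ∈ E := hE.nE.conj_mem Y hY k
  generalize av ρ X m = a at ha0 hact
  rw [mul_one] at hact
  rcases hact with ⟨h1, h2⟩ | ⟨h1, h2⟩
  · refine xsp9b_cube ρ (Y⁻¹ * (k * Y * k⁻¹)) (hE.pw _ (E.mul_mem (E.inv_mem hY) hc)) a ha0 ?_
    rw [rho_mul, rho_mul, rho_mul, xsp9b_inv ρ k a a h1, map_smul, map_smul,
      xsp9b_five _ _ h2, map_smul, map_smul, rho_inv, smul_smul]
    congr 1
  · refine xsp9b_cube ρ (k * Y * k⁻¹ * Y) (hE.pw _ (E.mul_mem hc hY)) a ha0 ?_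
    rw [rho_mul, rho_mul, rho_mul, xsp9b_inv ρ k a _ h1, map_smul, map_smul,
      xsp9b_five _ _ h2, smul_smul]
    congr 1

end Pool.Agent.N9181
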