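import Pool.Agent.MP_9181f8_al.S.SBasic
import Pool.Agent.MP_9181f8_al.N.Count

namespace Pool.Agent.N9181

open scoped commutatorElement

theorem xscntb_fib {X T : Type} [Finite X] [Finite T] (S : Set X) (Q : Set T) (f : X → T) (k : ℕ)
    (h1 : ∀ c ∈ S, f c ∈ Q) (h2 : ∀ c ∈ S, {d | d ∈ S ∧ f d = f c}.ncard ≤ k) :
    S.ncard ≤ k * Q.ncard := by
  classical
  rw [Set.ncard_eq_toFinset_card S, Set.ncard_eq_toFinset_card Q]
  refine Finset.card_le_mul_card_image_of_maps_to (f := f) (fun c hc => ?_) _ fun s _ => ?_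
  · simpa using h1 c (by simpa using hc)
  rcases ((Set.toFinite S).toFinset.filter fun a => f a = s).eq_empty_or_nonempty with h | ⟨c, hc⟩
  · simp [h]
  obtain ⟨h3, h4⟩ := Finset.mem_filter.1 hc
  refine le_trans (le_of_eq ?_) (h2 c (by simpa using h3))
  rw [← Set.ncard_coe_finset, h4]
  congr 1
  ext d
  simp

theorem xscntb_m3 {U Z : Type} [CommGroup U] [Finite U] [CommGroup Z] [Finite Z] [IsCyclic Z]
    (B : U →* U →* Z) (hB : Symp B) (v n : ℕ) (hc : ((3 ^ v) ^ 2).Coprime n)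
    (hU : Nat.card U = (3 ^ v) ^ 2 * n) :
    2 * {s : Iso B | s ≠ 1 ∧ s ^ 3 = 1 ∧ ∀ u, u ^ n = 1 → s.1 u = u}.ncard ≤ ch 3 ((3 ^ v) ^ 2) ∧
      (v = 0 → {s : Iso B | s ≠ 1 ∧ s ^ 3 = 1 ∧ ∀ u, u ^ n = 1 → s.1 u = u}.ncard = 0) := by
  have : Finite (MulAut U) := inferInstance
  have h0 : v = 0 →
      {s : Iso B | s ≠ 1 ∧ s ^ 3 = 1 ∧ ∀ u, u ^ n = 1 → s.1 u = u}.ncard = 0 := fun hv => by
    rw [Set.ncard_eq_zero, Set.eq_empty_iff_forall_notMem]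
    rintro s ⟨h1, -, h2⟩
    refine h1 (Subtype.ext (MulEquiv.ext fun u => h2 u ?_))
    rw [hv, pow_zero, one_pow, one_mul] at hU
    rw [← hU, pow_card_eq_one']
  refine ⟨?_, h0⟩
  rcases Nat.eq_zero_or_pos v with hv | hv
  · rw [h0 hv]
    exact Nat.zero_le _
  obtain ⟨h1, -, h3⟩ := xisob_split (U := U) hc hU
  have h4 : Nat.card (Iso (xisobB B ((3 ^ v) ^ 2))) ≤ ch 3 ((3 ^ v) ^ 2) := by
    refine (iso_chain _ (xisob_symp B hB hc h3) 3 (by norm_num) fun q hq hd => ?_).trans_eq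
      (by rw [h1])
    rw [h1] at hd
    exact ((Nat.prime_dvd_prime_iff_eq hq Nat.prime_three).mp
      (hq.dvd_of_dvd_pow (hq.dvd_of_dvd_pow hd))).ge
  have h5 := xisob_half (xisobB B ((3 ^ v) ^ 2))
    (by rw [h1]; exact (dvd_pow_self 3 hv.ne').trans (dvd_pow_self _ two_ne_zero))
  refine le_trans (Nat.mul_le_mul_left 2 ?_) (h5.trans h4)
  have : Finite (MulAut (xisobK U ((3 ^ v) ^ 2))) := inferInstance
  refine (Set.ncard_le_ncard_of_injOn (t := {s | s ^ 3 = 1}) (xisobR B ((3 ^ v) ^ 2)) ?_ ?_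
    (Set.toFinite _)).trans (le_of_eq (Nat.card_coe_set_eq _).symm)
  · rintro s ⟨-, h6, -⟩
    refine Subtype.ext (MulEquiv.ext fun x => Subtype.ext ?_)
    have h7 : (s ^ 3).1 x = x := by rw [h6]; rfl
    rw [pow_three'] at h7
    show ((xisobR B ((3 ^ v) ^ 2) s ^ 3).1 x : U) = x
    rw [pow_three']
    exact h7
  · rintro s ⟨-, -, hs⟩ t ⟨-, -, ht⟩ e
    refine Subtype.ext (MulEquiv.ext fun x => ?_)
    obtain ⟨y, hy, z, hz, rfl⟩ := h3 x
    have e1 : s.1 y = t.1 y := congrArg (fun r => (r.1 ⟨y, hy⟩ : U)) e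
    rw [map_mul, map_mul, e1, hs z hz, ht z hz]

theorem xscntb_u {U : Type} [CommGroup U] (s : MulAut U) (m n : ℕ) (hn : Nat.Coprime 3 n)
    (hs : ∀ u, u ^ n = 1 → s u = u) (u : U) (hu : u ^ (m * n) = 1)
    (h : s u * s (s u) * u = 1) : u ^ m = 1 := by
  have h1 : (u ^ m) ^ n = 1 := by rw [← pow_mul, hu]
  have h2 := hs _ h1
  refine xisob_one hn ?_ h1
  have h3 := congrArg (· ^ m) h
  simp only [mul_pow, ← map_pow, h2, one_pow] at h3
  rw [pow_three', h3]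

theorem cntB {H : Type} [Group H] [Finite H] (A F : Subgroup H) (hS : SD A F) (e : ℕ) (he : A.relIndex F = e ^ 2) :
    ∃ I M M3 : ℕ, IB e I ∧ M ≤ I ∧ (3 ∣ e → 2 * M ≤ I) ∧
      2 * M3 ≤ ch 3 ((3 ^ e.factorization 3) ^ 2) ∧ (¬ 3 ∣ e → M3 = 0) ∧
      Nat.card (Subgroup.centralizer (A : Set H)) ≤ Nat.card A * e ^ 2 * I ∧
      {c : H | c ∈ Subgroup.centralizer (A : Set H) ∧ c ^ 3 = 1}.ncard ≤ Nat.gcd (Nat.card A) 3 * e ^ 2 * M ∧
      ∀ T : Set H, (∀ c ∈ T, c ∈ Subgroup.centralizer (A : Set H) ∧ c ∉ F ∧ c ^ 3 = 1 ∧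
          ∀ f ∈ F, ∀ n : ℕ, ¬ 3 ∣ n → f ^ n ∈ A → ⁅c, f⁆ ∈ A) →
        (∀ c ∈ T, ∀ c' ∈ T, c⁻¹ * c' ∈ A → c = c') →
        T.ncard ≤ (3 ^ e.factorization 3) ^ 2 * M3 := by
  classical
  obtain ⟨U, Z, _, _, _, _, _, π, ζ, B, κ, hs, hπ, hζ, hA, hB, -, hU, hZ, hc, hκ⟩ :=
    sd_pair A F hS
  have : Finite (MulAut U) := inferInstance
  rw [he] at hU
  obtain ⟨hI, hM⟩ := iso_bound B hB e hU
  have h0 : e ≠ 0 := by
    rintro rfl
    exact Nat.card_pos.ne' hU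
  have hn : Nat.Coprime 3 ((e / 3 ^ e.factorization 3) ^ 2) :=
    (Nat.coprime_ordCompl Nat.prime_three h0).pow_right 2
  have hmn : ((3 ^ e.factorization 3) ^ 2).Coprime ((e / 3 ^ e.factorization 3) ^ 2) :=
    (hn.pow_left _).pow_left 2
  have hU' : Nat.card U = (3 ^ e.factorization 3) ^ 2 * (e / 3 ^ e.factorization 3) ^ 2 := by
    rw [hU, ← mul_pow, Nat.ordProj_mul_ordCompl_eq_self]
  obtain ⟨h31, h32⟩ := xscntb_m3 B hB _ _ hmn hU'
  let κ' : H → Iso B := fun c =>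
    if h : c ∈ Subgroup.centralizer (A : Set H) then κ ⟨c, h⟩ else 1
  let π' : H → U := fun c => if h : c ∈ F then π ⟨c, h⟩ else 1
  have hF : ∀ c ∈ Subgroup.centralizer (A : Set H), ∀ d ∈ Subgroup.centralizer (A : Set H),
      κ' d = κ' c → c⁻¹ * d ∈ F := fun c h1 d h2 h3 => by
    simp only [κ', dif_pos h1, dif_pos h2] at h3
    exact (hκ ((⟨c, h1⟩ : Subgroup.centralizer (A : Set H))⁻¹ * ⟨d, h2⟩)).1
      (by rw [map_mul, map_inv, h3, inv_mul_cancel])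
  have hA' : ∀ c d d' : H, c⁻¹ * d ∈ F → c⁻¹ * d' ∈ F → π' (c⁻¹ * d') = π' (c⁻¹ * d) →
      d⁻¹ * d' ∈ A := fun c d d' h1 h2 h3 => by
    simp only [π', dif_pos h1, dif_pos h2] at h3
    have := (hπ ((⟨c⁻¹ * d, h1⟩ : F)⁻¹ * ⟨c⁻¹ * d', h2⟩)).1
      (by rw [map_mul, map_inv, h3, inv_mul_cancel])
    simpa [mul_assoc] using this
  have h3 : ∀ c ∈ Subgroup.centralizer (A : Set H), c ^ 3 = 1 → κ' c ^ 3 = 1 := fun c h1 h2 => by
    simp only [κ', dif_pos h1]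
    rw [← map_pow, show (⟨c, h1⟩ : Subgroup.centralizer (A : Set H)) ^ 3 = 1 from Subtype.ext h2,
      map_one]
  refine ⟨Nat.card (Iso B), Nat.card {s : Iso B // s ^ 3 = 1}, _, hI, Finite.card_subtype_le _,
    hM, h31, fun h => h32 (Nat.factorization_eq_zero_of_not_dvd h), ?_, ?_, fun T hT hT' => ?_⟩
  · have h1 : Nat.card κ.ker ≤ Nat.card F :=
      Nat.card_le_card_of_injective (fun c => ⟨c.1.1, (hκ c.1).1 c.2⟩) fun c d h =>
        Subtype.ext (Subtype.ext (congrArg (fun x : F => (x : H)) h))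
    have h2 : Nat.card F = Nat.card A * e ^ 2 := by
      rw [← he, ← Subgroup.card_mul_index (A.subgroupOf F),
        Nat.card_congr (Subgroup.subgroupOfEquivOfLe hS.le).toEquiv]
      rfl
    have h3 : κ.ker.index ≤ Nat.card (Iso B) := by
      rw [Subgroup.index_ker]; exact Finite.card_subtype_le _
    rw [← Subgroup.card_mul_index κ.ker, ← h2]
    exact Nat.mul_le_mul h1 h3
  · refine (xscntb_fib _ {s | s ^ 3 = 1} κ' _ (fun c h => h3 c h.1 h.2) fun c h => ?_).trans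
      (le_of_eq (by rw [← Nat.card_coe_set_eq]; rfl))
    refine (xscntb_fib _ Set.univ (fun d => π' (c⁻¹ * d)) (Nat.gcd (Nat.card A) 3)
      (fun _ _ => Set.mem_univ _) fun d hd => ?_).trans (le_of_eq (by rw [Set.ncard_univ, hU]))
    rw [← hZ, ← IsCyclic.card_powMonoidHom_ker Z 3]
    refine le_trans (Set.ncard_le_ncard (t := (fun z => d * ζ z) ''
      ((powMonoidHom 3 : Z →* Z).ker : Set Z)) ?_ (Set.toFinite _))
      ((Set.ncard_image_le (Set.toFinite _)).trans (le_of_eq (Nat.card_coe_set_eq _).symm))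
    rintro d' ⟨hd', h4⟩
    have h5 := hA' c d d' (hF c h.1 d hd.1.1 hd.2) (hF c h.1 d' hd'.1.1 hd'.2) h4
    obtain ⟨z, hz⟩ := (hA _).1 h5
    refine ⟨z, hζ ?_, by simp [hz]⟩
    have h6 : Commute d (d⁻¹ * d') := (Subgroup.mem_centralizer_iff.1 hd.1.1 _ h5).symm
    have h7 := h6.mul_pow 3
    rw [mul_inv_cancel_left, hd'.1.2, hd.1.2, one_mul] at h7
    rw [powMonoidHom_apply, map_pow, hz, map_one, ← h7]
  · have hQ : ∀ c ∈ T, ∀ u, u ^ ((e / 3 ^ e.factorization 3) ^ 2) = 1 → (κ' c).1 u = u :=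
      fun c h u hu => by
        obtain ⟨h1, -, -, h2⟩ := hT c h
        obtain ⟨f, rfl⟩ := hs u
        have h4 := h2 f f.2 _ ((Nat.Prime.coprime_iff_not_dvd Nat.prime_three).1 hn)
          ((hπ (f ^ _)).1 (by rw [map_pow, hu]))
        simp only [κ', dif_pos h1]
        rw [hc ⟨c, h1⟩ f ⟨c * f * c⁻¹, hS.nF.conj_mem _ f.2 c⟩ rfl, ← mul_inv_eq_one, ← map_inv,
          ← map_mul, hπ]
        exact h4
    refine xscntb_fib _ _ κ' _ (fun c h => ⟨fun h1 => (hT c h).2.1 ?_,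
      h3 c (hT c h).1 (hT c h).2.2.1, hQ c h⟩) fun c h => ?_
    · simp only [κ', dif_pos (hT c h).1] at h1
      exact (hκ _).1 h1
    refine (Set.ncard_le_ncard_of_injOn
      (t := (xisobK U ((3 ^ e.factorization 3) ^ 2) : Set U)) (fun d => π' (c⁻¹ * d)) ?_ ?_
      (Set.toFinite _)).trans
      (le_of_eq ((Nat.card_coe_set_eq _).symm.trans (xisob_split hmn hU').1))
    · rintro d ⟨hd, h1⟩
      have h2 := hF c (hT c h).1 d (hT d hd).1 h1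
      refine xscntb_u (κ' c).1 _ _ hn (hQ c h) _ (by rw [← hU', pow_card_eq_one']) ?_
      have h4 := hS.nF.conj_mem _ h2 c
      simp only [κ', π', dif_pos (hT c h).1, dif_pos h2]
      rw [hc ⟨c, (hT c h).1⟩ ⟨_, h2⟩ ⟨_, h4⟩ rfl,
        hc ⟨c, (hT c h).1⟩ ⟨_, h4⟩ ⟨_, hS.nF.conj_mem _ h4 c⟩ rfl, ← map_mul, ← map_mul, hπ]
      have h5 : c * (c⁻¹ * d) * c⁻¹ * (c * (c * (c⁻¹ * d) * c⁻¹) * c⁻¹) * (c⁻¹ * d) =
          d * d * (c ^ 3)⁻¹ * d := by group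
      show c * (c⁻¹ * d) * c⁻¹ * (c * (c * (c⁻¹ * d) * c⁻¹) * c⁻¹) * (c⁻¹ * d) ∈ A
      rw [h5, (hT c h).2.2.1, inv_one, mul_one, ← pow_three', (hT d hd).2.2.1]
      exact A.one_mem
    · rintro d ⟨hd, h1⟩ d' ⟨hd', h2⟩ h4
      exact hT' d hd d' hd' (hA' c d d' (hF c (hT c h).1 d (hT d hd).1 h1)
        (hF c (hT c h).1 d' (hT d' hd').1 h2) h4.symm)

end Pool.Agent.N9181
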