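import Pool.Agent.MP_9181f8_al.S.SBasic

namespace Pool.Agent.N9181

open scoped commutatorElement

theorem xscover_card {V : Type} [AddCommGroup V] [Module K V] [Module.Finite K V] :
    {v : V | v ≠ 0}.ncard = 13 ^ Module.finrank K V - 1 := by
  have : Finite V := Module.finite_of_finite K
  have h1 : Nat.card V = 13 ^ Module.finrank K V := by
    rw [Module.natCard_eq_pow_finrank (K := K), Nat.card_zmod]
  have h2 : {v : V | v ≠ 0} = Set.univ \ {0} := by
    ext v
    simp
  rw [h2, Set.ncard_sdiff_singleton_of_mem (Set.mem_univ _), Set.ncard_univ, h1]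

theorem cover {V : Type} [AddCommGroup V] [Module K V] [Module.Finite K V] {β : Type} (T : Finset β) (S : β → Set V) (μ : ℕ)
    (h : ∀ v : V, v ≠ 0 → μ ≤ {t | t ∈ T ∧ v ∈ S t}.ncard) :
    μ * (13 ^ Module.finrank K V - 1) ≤ ∑ t ∈ T, (S t).ncard := by
  classical
  have : Finite V := Module.finite_of_finite K
  have : Fintype V := Fintype.ofFinite V
  have h1 : (Finset.univ.filter (fun v : V => v ≠ 0)).card = 13 ^ Module.finrank K V - 1 := by
    rw [← xscover_card, ← Set.ncard_coe_finset]
    congr 1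
    ext v
    simp
  have h2 := Finset.sum_card_bipartiteAbove_eq_sum_card_bipartiteBelow
    (s := Finset.univ.filter (fun v : V => v ≠ 0)) (t := T) (fun v t => v ∈ S t)
  rw [← h1, mul_comm, ← smul_eq_mul, ← Finset.sum_const]
  refine le_trans (Finset.sum_le_sum ?_) (le_trans h2.le (Finset.sum_le_sum ?_))
  · intro v hv
    refine le_trans (h v (Finset.mem_filter.1 hv).2) (le_of_eq ?_)
    rw [← Set.ncard_coe_finset]
    congr 1
    ext t
    simp
  · intro t _
    rw [← Set.ncard_coe_finset]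
    refine Set.ncard_le_ncard ?_ (Set.toFinite _)
    intro v hv
    exact ((Finset.mem_bipartiteBelow _).1 hv).2

theorem ev_ncard {V : Type} [AddCommGroup V] [Module K V] [Module.Finite K V] (a : Module.End K V) (c : K) (k : ℕ) (h : ed a c ≤ k) :
    {v : V | v ≠ 0 ∧ a v = c • v}.ncard ≤ 13 ^ k - 1 := by
  have : Finite V := Module.finite_of_finite K
  have h1 : ((a.eigenspace c : Submodule K V) : Set V).ncard = 13 ^ ed a c := by
    rw [← Nat.card_coe_set_eq]
    exact (card_sub (a.eigenspace c)).2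
  have h2 : {v : V | v ≠ 0 ∧ a v = c • v} = ((a.eigenspace c : Submodule K V) : Set V) \ {0} := by
    ext v
    simp only [Set.mem_ofPred_eq, Set.mem_sdiff, SetLike.mem_coe, Set.mem_singleton_iff,
      Module.End.mem_eigenspace_iff]
    exact and_comm
  rw [h2, Set.ncard_sdiff_singleton_of_mem (Submodule.zero_mem _), h1]
  exact Nat.sub_le_sub_right (Nat.pow_le_pow_right (by norm_num) h) 1

theorem xscover_union {V H : Type} [Finite V] [Finite H] (B : H → Set V) (k : ℕ)
    (h : ∀ s, (B s).ncard ≤ k) : (⋃ s, B s).ncard ≤ Nat.card H * k := by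
  have : Fintype H := Fintype.ofFinite H
  refine le_trans (Set.ncard_iUnion_le_of_fintype B) ?_
  refine le_trans (Finset.sum_le_sum (fun s _ => h s)) ?_
  rw [Finset.sum_const, smul_eq_mul, Finset.card_univ, Nat.card_eq_fintype_card]

theorem pos_cnt {V : Type} [AddCommGroup V] [Module K V] [Module.Finite K V]
    {H : Type} [Group H] [Finite H] (ρ : Representation K H V) (h : Nat.card H * 13 ^ (Module.finrank K V / 2) < 13 ^ Module.finrank K V - 1) : PP2 ρ := by
  have : Finite V := Module.finite_of_finite K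
  let B : H → Set V := fun s => {v | (v ≠ 0 ∧ ρ s v = (3 : K) • v) ∧ ed (ρ s) 3 ≤ ed (ρ s) 9}
  have hB : ∀ s, (B s).ncard ≤ 13 ^ (Module.finrank K V / 2) - 1 := by
    intro s
    by_cases hs : ed (ρ s) 3 ≤ ed (ρ s) 9
    · have h1 := ed_two ⊤ (ρ s) 3 9 (by decide)
      rw [edOn_top, edOn_top, finrank_top] at h1
      refine le_trans (Set.ncard_le_ncard ?_ (Set.toFinite _))
        (ev_ncard (ρ s) 3 (Module.finrank K V / 2) (by omega))
      intro v hv
      exact hv.1
    · have : B s = ∅ := by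
        ext v
        exact ⟨fun hv => hs hv.2, fun hv => hv.elim⟩
      rw [this, Set.ncard_empty]
      exact Nat.zero_le _
  have hU := xscover_union B _ hB
  have hpos : 1 ≤ 13 ^ (Module.finrank K V / 2) := Nat.one_le_pow _ _ (by norm_num)
  have hmul : Nat.card H * (13 ^ (Module.finrank K V / 2) - 1) + Nat.card H =
      Nat.card H * 13 ^ (Module.finrank K V / 2) := by
    rw [← Nat.mul_succ]
    congr 1
    omega
  have hG : Nat.card H < ({v : V | v ≠ 0} \ ⋃ s, B s).ncard := by
    have h1 := Set.le_ncard_sdiff (⋃ s, B s) {v : V | v ≠ 0} (Set.toFinite _)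
    rw [xscover_card] at h1
    omega
  have good : ∀ r ∈ ({v : V | v ≠ 0} \ ⋃ s, B s), r ≠ 0 ∧ Pos ρ r 1 := by
    intro r hr
    refine ⟨hr.1, fun s n _ hs => ?_⟩
    by_contra hc
    exact hr.2 (Set.mem_iUnion.2 ⟨s, ⟨hr.1, hs⟩, by omega⟩)
  obtain ⟨r, hr⟩ := Set.nonempty_of_ncard_ne_zero (s := {v : V | v ≠ 0} \ ⋃ s, B s) (by omega)
  have hO : (Set.range (fun k : H => ρ k⁻¹ ((3 : K) • r))).ncard ≤ Nat.card H := by
    rw [← Set.image_univ, ← Set.ncard_univ]
    exact Set.ncard_image_le (Set.toFinite _)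
  obtain ⟨r', hr', hn⟩ := Set.exists_mem_notMem_of_ncard_lt_ncard (lt_of_le_of_lt hO hG)
    (Set.toFinite _)
  refine ⟨r, r', (good r hr).1, (good r' hr').1, ?_, (good r hr).2, (good r' hr').2⟩
  intro k hk
  exact hn ⟨k, by rw [← hk]; exact rho_inv ρ k r'⟩

end Pool.Agent.N9181
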