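import Pool.Agent.MP_9181f8_al.S.EigA

namespace Pool.Agent.N9181

open scoped commutatorElement

theorem xseigb_anti {U Z : Type} [CommGroup U] [CommGroup Z] (B : U →* U →* Z) (hB : Symp B)
    (x y : U) : B y x = (B x y)⁻¹ := by
  have h := hB.1 (x * y)
  rw [map_mul, map_mul, MonoidHom.mul_apply, MonoidHom.mul_apply, hB.1 x, hB.1 y, one_mul,
    mul_one] at h
  exact eq_inv_of_mul_eq_one_left h

theorem xseigb_fix {V : Type} [AddCommGroup V] [Module K V] {H : Type} [Group H]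
    (ρ : Representation K H V) (s x : H) (v : V) (c : K) (h0 : v ≠ 0) (hs : ρ s v = c • v)
    (hx : ρ (x * s) v = c • v) : x ∈ stabV ρ v := by
  have hc : c ≠ 0 := by
    rintro rfl
    apply h0
    have := rho_inv ρ s v
    rw [hs, zero_smul, map_zero] at this
    exact this.symm
  rw [rho_mul, hs, map_smul] at hx
  exact smul_right_injective V hc hx

theorem symp_key {U Z : Type} [CommGroup U] [CommGroup Z] (B : U →* U →* Z) (hB : Symp B)
    (σ : MulAut U) (hσ : σ ∈ Iso B) (h3 : σ ^ 3 = 1) (u : U) (n : ℕ) (hn : ¬ 3 ∣ n)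
    (hu : u ^ n = 1) (hne : σ u ≠ u) : ∃ y : U, B (y * (σ y)⁻¹) (σ (y * (σ y)⁻¹)) ≠ 1 := by
  by_contra hcon
  simp only [not_exists, not_not] at hcon
  have hI : ∀ x y, B (σ x) (σ y) = B x y := hσ
  have h3' : ∀ x, σ (σ (σ x)) = x := fun x => by
    have := DFunLike.congr_fun h3 x
    rwa [pow_succ, pow_two] at this
  have s1 : ∀ y, B y (σ y) ^ 3 = 1 := fun y => by
    have h := hcon y
    have e1 : B y (σ (σ y)) = (B y (σ y))⁻¹ := by
      rw [← hI y (σ (σ y)), h3', xseigb_anti B hB y (σ y)]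
    simp only [map_mul, map_inv, MonoidHom.mul_apply, MonoidHom.inv_apply, hI, e1, hB.1 y,
      inv_inv, inv_one, mul_one, mul_inv] at h
    rw [← h, pow_succ, pow_two, mul_assoc]
  have s2 : ∀ x y, (B x (σ y) * B y (σ x)) ^ 3 = 1 := fun x y => by
    have h := s1 (x * y)
    simp only [map_mul, MonoidHom.mul_apply, mul_pow, s1 x, s1 y, one_mul, mul_one] at h
    rw [mul_pow, mul_comm]
    exact h
  have hw : σ (σ u) * (σ u)⁻¹ = 1 := by
    refine hB.2 _ fun y => ?_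
    have e1 : B (σ (σ u) * (σ u)⁻¹) y = B u (σ y) * B y (σ u) := by
      rw [map_mul, map_inv, MonoidHom.mul_apply, MonoidHom.inv_apply, ← xseigb_anti B hB,
        ← hI u (σ y), ← hI (σ u) (σ (σ y)), h3']
    have e2 : B (σ (σ u) * (σ u)⁻¹) y ^ n = 1 := by
      rw [← MonoidHom.pow_apply, ← map_pow, mul_pow, inv_pow, ← map_pow, ← map_pow, hu,
        map_one, map_one, inv_one, mul_one, map_one, MonoidHom.one_apply]
    have e3 : B (σ (σ u) * (σ u)⁻¹) y ^ 3 = 1 := by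
      rw [e1, s2]
    have hc : Nat.gcd 3 n = 1 := (Nat.Prime.coprime_iff_not_dvd Nat.prime_three).2 hn
    have := pow_gcd_eq_one.2 ⟨e3, e2⟩
    rwa [hc, pow_one] at this
  exact hne (σ.injective (mul_inv_eq_one.1 hw))

theorem eb_3 {V : Type} [AddCommGroup V] [Module K V] [Module.Finite K V]
    {H : Type} [Group H] [Finite H] (ρ : Representation K H V) (A F : Subgroup H) (hS : SD A F) (hA : FreeOn ρ A) (s : H) (hs : s ^ 3 = 1) (hC : s ∈ Subgroup.centralizer (A : Set H)) (f : H) (hf : f ∈ F)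
    (n : ℕ) (hn : ¬ 3 ∣ n) (hfn : f ^ n ∈ A) (hx : ⁅s, f⁆ ∉ A) (c : K) :
    2 * ed (ρ s) c ≤ Module.finrank K V := by
  obtain ⟨U, Z, _, _, _, _, _, π, ζ, B, κ, hπ, hk, hζ, -, hB, hc, -, -, hκ, -⟩ := sd_pair A F hS
  have hcj : ∀ x : F, (κ ⟨s, hC⟩ : MulAut U) (π x) = π ⟨s * x * s⁻¹, hS.nF.conj_mem _ x.2 s⟩ :=
    fun x => hκ ⟨s, hC⟩ x _ rfl
  have h3 : (κ ⟨s, hC⟩ : MulAut U) ^ 3 = 1 := by
    have e : (⟨s, hC⟩ : Subgroup.centralizer (A : Set H)) ^ 3 = 1 := Subtype.ext hs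
    rw [← Subgroup.coe_pow, ← map_pow, e, map_one, Subgroup.coe_one]
  have hu : π ⟨f, hf⟩ ^ n = 1 := by
    rw [← map_pow, hk]
    exact hfn
  have hne : (κ ⟨s, hC⟩ : MulAut U) (π ⟨f, hf⟩) ≠ π ⟨f, hf⟩ := by
    intro e
    rw [hcj, ← mul_inv_eq_one, ← map_inv, ← map_mul, hk] at e
    exact hx e
  obtain ⟨y0, hy⟩ := symp_key B hB _ (κ ⟨s, hC⟩).2 h3 _ n hn hu hne
  obtain ⟨y, rfl⟩ := hπ y0
  rw [hcj, ← map_inv, ← map_mul, hcj] at hy
  have h1 := eb_gen ρ s y c ⊥ fun v h1 h2 => by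
    by_contra h0
    rw [Submodule.mem_bot] at h0
    have m1 : (y : H) * (s * y * s⁻¹)⁻¹ ∈ stabV ρ v :=
      xseigb_fix ρ s _ v c h0 h1 (by rw [← h2]; congr 2; group)
    have m2 : s * ((y : H) * (s * y * s⁻¹)⁻¹) * s⁻¹ ∈ stabV ρ v :=
      xseigb_fix ρ s _ v c h0 h1 (by rw [inv_mul_cancel_right, rho_mul, m1, h1])
    have m3 : ⁅(y : H) * (s * y * s⁻¹)⁻¹, s * ((y : H) * (s * y * s⁻¹)⁻¹) * s⁻¹⁆ ∈ stabV ρ v :=
      mul_mem (mul_mem (mul_mem m1 m2) (inv_mem m1)) (inv_mem m2)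
    have hyF : (y : H) * (s * y * s⁻¹)⁻¹ ∈ F := mul_mem y.2 (inv_mem (hS.nF.conj_mem _ y.2 s))
    have m4 := hA _ (hS.comm _ hyF _ (hS.nF.conj_mem _ hyF s)) v h0 m3
    apply hy
    apply hζ
    rw [hc, map_one]
    exact m4
  rwa [finrank_bot, add_zero] at h1

end Pool.Agent.N9181
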