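import Pool.Agent.MP_9181f8_al.S.SBasic
import Pool.Agent.MP_9181f8_al.N.Dim

namespace Pool.Agent.N9181

open scoped commutatorElement

theorem xsgbasic_twelve {V : Type} [AddCommGroup V] [Module K V] [Module.Finite K V]
    {H : Type} [Group H] [Finite H] (ρ : Representation K H V) (hinj : Function.Injective ρ)
    (z : H) (hz : z ∈ scal ρ) : z ^ 12 = 1 := by
  obtain ⟨c, hc, h⟩ := hz
  apply hinj
  ext v
  rw [rho_pow_eig ρ z v c (h v) 12, k_twelve c hc, one_smul, map_one]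
  rfl

theorem xsgbasic_le {V : Type} [AddCommGroup V] [Module K V] [Module.Finite K V]
    {H : Type} [Group H] [Finite H] (ρ : Representation K H V) (N : ℕ) (A F : Subgroup H)
    (hG : GB ρ N A F) : scal ρ ≤ A := by
  have hA := hG.sd.nA
  have hS := scal_normal ρ
  have hB : A ⊔ scal ρ = A := by
    refine hG.mx _ inferInstance ?_ le_sup_left
    intro x hx y hy
    obtain ⟨a, ha, z, hz, rfl⟩ := Subgroup.mem_sup_of_normal_right.1 hx
    obtain ⟨b, hb, w, hw, rfl⟩ := Subgroup.mem_sup_of_normal_right.1 hy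
    have h1 : Commute a b := hG.sd.cen a ha b (hG.sd.le hb)
    have h2 : Commute a w := (scal_central ρ hG.inj w hw a).symm
    have h3 : Commute z (b * w) := scal_central ρ hG.inj z hz _
    exact ((h1.mul_right h2).mul_left h3).eq
  exact hB ▸ le_sup_right

theorem xsgbasic_cube (c : K) (h : c ^ 3 = 1) (h1 : c ≠ 1) : c = 3 ∨ c ^ 2 = 3 := by
  revert c
  decide

theorem gb_scal {V : Type} [AddCommGroup V] [Module K V] [Module.Finite K V]
    {H : Type} [Group H] [Finite H] (ρ : Representation K H V) (N : ℕ) (A F : Subgroup H) (hG : GB ρ N A F) :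
    scal ρ ≤ A ∧ Nat.card (scal ρ) = Nat.gcd (Nat.card A) 12 ∧
      (3 ∣ Nat.card A → ∃ z : H, z ^ 3 = 1 ∧ ∀ v, ρ z v = (3 : K) • v) := by
  have hle := xsgbasic_le ρ N A F hG
  refine ⟨hle, ?_, ?_⟩
  · have hc := hG.sd.cyc
    let _ : CommGroup A := IsCyclic.commGroup
    rw [← IsCyclic.card_powMonoidHom_ker A 12]
    refine Nat.card_congr ⟨fun z => ⟨⟨z, hle z.2⟩, ?_⟩, fun a => ⟨a.1, ?_⟩, fun _ => rfl,
      fun _ => rfl⟩
    · exact Subtype.ext (xsgbasic_twelve ρ hG.inj z z.2)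
    · exact hG.sc _ a.1.2 (congrArg Subtype.val a.2)
  · intro h3
    have : Fact (Nat.Prime 3) := ⟨Nat.prime_three⟩
    obtain ⟨x, hx⟩ := exists_prime_orderOf_dvd_card' 3 h3
    have hx3 : (x : H) ^ 3 = 1 := by
      have := pow_orderOf_eq_one x
      rw [hx] at this
      exact congrArg Subtype.val this
    have hx1 : (x : H) ≠ 1 := by
      intro h
      have : x = 1 := Subtype.ext h
      rw [this, orderOf_one] at hx
      norm_num at hx
    have h12 : (x : H) ^ 12 = 1 := by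
      rw [show 12 = 3 * 4 by rfl, pow_mul, hx3, one_pow]
    obtain ⟨c, -, h⟩ := hG.sc _ x.2 h12
    obtain ⟨v, hv⟩ := hG.ne
    have hc3 : c ^ 3 = 1 := by
      have h1 := rho_pow_eig ρ x v c (h v) 3
      rw [hx3, map_one] at h1
      have h2 : (c ^ 3 - 1) • v = 0 := by
        rw [sub_smul, one_smul, ← h1]
        exact sub_self v
      exact sub_eq_zero.1 ((smul_eq_zero.1 h2).resolve_right hv)
    have hc1 : c ≠ 1 := by
      rintro rfl
      exact hx1 (hG.free _ x.2 v hv (by rw [h v, one_smul]))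
    rcases xsgbasic_cube c hc3 hc1 with rfl | h9
    · exact ⟨x, hx3, h⟩
    · refine ⟨(x : H) ^ 2, by rw [← pow_mul, mul_comm, pow_mul, hx3, one_pow], fun w => ?_⟩
      rw [rho_pow_eig ρ x w c (h w) 2, h9]

theorem gb_e {V : Type} [AddCommGroup V] [Module K V] [Module.Finite K V]
    {H : Type} [Group H] [Finite H] (ρ : Representation K H V) (N : ℕ) (A F : Subgroup H) (hG : GB ρ N A F) :
    ∃ e : ℕ, 0 < e ∧ A.relIndex F = e ^ 2 ∧ e ∣ Module.finrank K V ∧
      ∀ p : ℕ, p.Prime → p ∣ e → p ∣ Nat.card A := by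
  obtain ⟨e, h0, h1, h2⟩ := pd_sq A F hG.sd.toPD
  refine ⟨e, h0, h1, ?_, h2⟩
  have := dim1 hG.cop ρ A F hG.sd.toPD hG.free ⊤ (fun _ _ _ _ => Submodule.mem_top) e h1
  rwa [finrank_top] at this

theorem eb_A {V : Type} [AddCommGroup V] [Module K V] [Module.Finite K V]
    {H : Type} [Group H] [Finite H] (ρ : Representation K H V) (N : ℕ) (A F : Subgroup H) (hG : GB ρ N A F) (a : H) (ha : a ∈ A) (v : V) (h0 : v ≠ 0) (c : K)
    (h : ρ a v = c • v) : a ∈ scal ρ := by
  have hc : c ≠ 0 := by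
    rintro rfl
    have h1 := rho_inv ρ a v
    rw [h, zero_smul, map_zero] at h1
    exact h0 h1.symm
  refine hG.sc a ha (hG.free _ (A.pow_mem ha 12) v h0 ?_)
  rw [rho_pow_eig ρ a v c h 12, k_twelve c hc, one_smul]

theorem gb_one {V : Type} [AddCommGroup V] [Module K V] [Module.Finite K V]
    {H : Type} [Group H] [Finite H] (ρ : Representation K H V) (N : ℕ) (A F : Subgroup H) (hG : GB ρ N A F) (e g : ℕ) (he : 0 < e) (hL : LamD A e e g) :
    Nat.card A ∣ 12 ∧ A = scal ρ ∧ Subgroup.centralizer (A : Set H) = ⊤ := by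
  obtain ⟨h1, h2, h3, -, h5, -⟩ := hL
  have hg : g = 1 := by
    have : g ≤ 1 := Nat.le_of_mul_le_mul_right (by rwa [one_mul]) he
    omega
  subst hg
  have h12 : Nat.card A ∣ 12 := by simpa using h5
  refine ⟨h12, le_antisymm (fun a ha => hG.sc a ha ?_) (xsgbasic_le ρ N A F hG),
    Subgroup.index_eq_one.1 (Nat.dvd_one.1 h3)⟩
  obtain ⟨k, hk⟩ := h12
  have h6 : (⟨a, ha⟩ : A) ^ Nat.card A = 1 := pow_card_eq_one'
  have h7 : a ^ Nat.card A = 1 := congrArg Subtype.val h6
  rw [hk, pow_mul, h7, one_pow]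

theorem pow_e {H : Type} [Group H] [Finite H] (A F : Subgroup H) (hS : SD A F) (e : ℕ) (he : A.relIndex F = e ^ 2) (f : H) (hf : f ∈ F) :
    f ^ (e ^ 2) ∈ A := by
  have := hS.nA
  rw [← he]
  exact Subgroup.pow_relIndex_mem A hf

end Pool.Agent.N9181
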