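import Pool.Agent.MP_9181f8_al.S.Defs
import Pool.Agent.MP_9181f8_al.N.NumB

namespace Pool.Agent.N9181

open scoped commutatorElement

theorem xsnumm_term (a b X m n d : ℕ) (h : a * X ≤ b * 13 ^ m) (hd : m + n ≤ d) :
    a * (X * (13 ^ n - 1)) ≤ b * 13 ^ d :=
  calc a * (X * (13 ^ n - 1)) ≤ a * (X * 13 ^ n) := by gcongr; exact Nat.sub_le _ _
    _ = a * X * 13 ^ n := by ring
    _ ≤ b * 13 ^ m * 13 ^ n := by gcongr
    _ = b * 13 ^ (m + n) := by ring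
    _ ≤ b * 13 ^ d := by gcongr; norm_num

theorem xsnumm_step (l : ℕ) : ch 3 (3 ^ (l + 1)) = 3 ^ (l + 1) * ch 3 (3 ^ l) := by
  have h : 1 < 3 ^ (l + 1) := Nat.one_lt_pow (by omega) (by norm_num)
  rw [ch_eq 3 (by norm_num), if_neg (by omega), pow_succ 3 l, Nat.mul_div_cancel _ (by norm_num)]

theorem xsnumm_ch3 (k : ℕ) : (3 ^ k) ^ 2 * ch 3 ((3 ^ k) ^ 2) = 3 ^ (k * (2 * k + 3)) := by
  induction k with
  | zero => rfl
  | succ k ih =>
    rw [← pow_mul] at ih ⊢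
    rw [show (k + 1) * 2 = k * 2 + 1 + 1 by ring, xsnumm_step, xsnumm_step,
      show (k + 1) * (2 * (k + 1) + 3) = k * (2 * k + 3) + (4 * k + 5) by ring,
      pow_add 3 (k * (2 * k + 3)), ← ih]
    ring

theorem xsnumm_e3 (j : ℕ) (hj : 2 ≤ j) : (j + 1) * (2 * (j + 1) + 3) ≤ 4 * 3 ^ j := by
  induction j, hj using Nat.le_induction with
  | base => norm_num
  | succ k hk ih =>
    rw [pow_succ]
    nlinarith

theorem xsnumm_three (j : ℕ) :
    2 * ((3 ^ (j + 1)) ^ 2 * ch 3 ((3 ^ (j + 1)) ^ 2)) ≤ 3 * 13 ^ (2 * 3 ^ j) := by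
  rw [xsnumm_ch3]
  rcases lt_or_ge j 2 with h | h
  · interval_cases j <;> norm_num
  · refine Nat.mul_le_mul (by norm_num) ?_
    calc _ ≤ 3 ^ (2 * (2 * 3 ^ j)) :=
          Nat.pow_le_pow_right (by norm_num) (by have := xsnumm_e3 j h; omega)
      _ ≤ _ := by
          rw [pow_mul]
          exact Nat.pow_le_pow_left (by norm_num) _

theorem xsnumm_two (e : ℕ) (he : 0 < e) : 12 * (e ^ 2 * ch 2 (e ^ 2)) ≤ 7 * 13 ^ e := by
  rcases lt_or_ge e 64 with h | h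
  · revert he
    revert e
    decide +kernel
  · have h1 := xnumb_big e h
    have h2 : 4 ^ e ≤ 13 ^ e := Nat.pow_le_pow_left (by norm_num) e
    omega

theorem xsnumm_one (e : ℕ) (he : 0 < e) : 2160 * (e ^ 2 * ch 2 (e ^ 2)) ≤ 13 * 13 ^ (2 * e) := by
  rcases Nat.lt_or_ge e 2 with h | h
  · obtain rfl : e = 1 := by omega
    decide +kernel
  · have h1 := xsnumm_two e he
    have h2 : 13 ^ 2 ≤ 13 ^ e := Nat.pow_le_pow_right (by norm_num) h
    have h3 := Nat.mul_le_mul_right (13 ^ e) h2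
    rw [two_mul, pow_add]
    omega

theorem xsnumm_g (g : ℕ) (hg : 3 ≤ g) : g ^ 2 * (g - 1) ≤ 18 * 13 ^ (g - g / 3 - 2) := by
  rcases hg.eq_or_lt with rfl | h
  · norm_num
  · obtain ⟨j, hj⟩ : ∃ j, g - g / 3 = j + 2 := ⟨g - g / 3 - 2, by omega⟩
    have h1 := xnuma_four (j + 2) (by omega)
    have h2 : (2 * g) ^ 3 ≤ (3 * (j + 2)) ^ 3 := Nat.pow_le_pow_left (by omega) 3
    have h3 : g ^ 2 * (g - 1) ≤ g ^ 2 * g := Nat.mul_le_mul_left _ (by omega)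
    have h4 : (j + 2) ^ 3 * 3 ≤ (j + 2) ^ 3 * (j + 2) := Nat.mul_le_mul_left _ (by omega)
    rw [← pow_succ] at h3 h4
    rw [mul_pow, mul_pow] at h2
    rw [pow_add] at h1
    rw [hj, Nat.add_sub_cancel]
    norm_num at h1 h2 h3 h4
    omega

theorem xsnumm_exp (k : ℕ) (hk : 6 ≤ k) : (k + 2) * (2 * k + 7) + 2 ≤ 3 * 2 ^ k := by
  induction k, hk using Nat.le_induction with
  | base => norm_num
  | succ k hk ih =>
    rw [pow_succ]
    nlinarith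

theorem xsnumm_big (a : ℕ) (ha : 64 ≤ a) : 3 * ((2 * a) ^ 2 * ch 2 ((2 * a) ^ 2)) ≤ 13 ^ a := by
  obtain ⟨k, h1, h2⟩ : ∃ k, 2 ^ k ≤ a ∧ a < 2 ^ (k + 1) :=
    ⟨Nat.log 2 a, Nat.pow_log_le_self 2 (by omega), Nat.lt_pow_succ_log_self (by norm_num) a⟩
  have hk : 6 ≤ k := by
    have h : 2 ^ 6 < 2 ^ (k + 1) := lt_of_le_of_lt ha h2
    have := (Nat.pow_lt_pow_iff_right (by norm_num)).1 h
    omega
  have h3 : (2 * a) ^ 2 ≤ 2 ^ (2 * (k + 2)) := by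
    rw [mul_comm 2 (k + 2), pow_mul]
    exact Nat.pow_le_pow_left (by rw [pow_succ]; omega) 2
  have h4 := ch_le _ _ h3
  rw [mul_assoc, Nat.mul_div_cancel_left _ two_pos] at h4
  have h5 := xsnumm_exp k hk
  calc 3 * ((2 * a) ^ 2 * ch 2 ((2 * a) ^ 2))
      ≤ 2 ^ 2 * (2 ^ (2 * (k + 2)) * 2 ^ ((k + 2) * (2 * (k + 2) + 1))) := by gcongr; norm_num
    _ = 2 ^ ((k + 2) * (2 * k + 7) + 2) := by
      rw [← pow_add, ← pow_add]
      congr 1
      ring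
    _ ≤ 2 ^ (3 * a) := Nat.pow_le_pow_right two_pos (by omega)
    _ ≤ 13 ^ a := by
      rw [pow_mul]
      exact Nat.pow_le_pow_left (by norm_num) a

theorem xsnumm_half (b I : ℕ) (hb : 0 < b) (hI : IB (18 * b) I) :
    3 * ((18 * b) ^ 2 * I) ≤ 13 ^ (9 * b) := by
  rcases lt_or_ge b 3 with h | h
  · have h1 := hI.2
    rw [← Nat.primeFactorsList_count_eq] at h1
    refine le_trans (Nat.mul_le_mul_left _ (Nat.mul_le_mul_left _ h1)) ?_
    clear h1 hI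
    interval_cases b <;> simp only [Nat.reduceMul, Nat.primeFactorsList_ofNat] <;> decide +kernel
  · refine le_trans (Nat.mul_le_mul_left _ (Nat.mul_le_mul_left _ hI.1)) ?_
    clear hI
    rcases lt_or_ge b 8 with h8 | h8
    · interval_cases b <;> decide +kernel
    · rw [show 18 * b = 2 * (9 * b) by ring]
      exact xsnumm_big _ (by omega)

theorem numM (d e g I M M3 NI : ℕ) (he : 0 < e) (hge : g * e ≤ d)
    (h2 : 2 * e ≤ d ∨ (d = e ∧ 18 ∣ e)) (hI : IB e I) (hM : M ≤ I) (hM' : 3 ∣ e → 2 * M ≤ I)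
    (hM3 : 2 * M3 ≤ ch 3 ((3 ^ e.factorization 3) ^ 2)) (hM0 : ¬ 3 ∣ e → M3 = 0)
    (hN0 : g < 3 → NI = 0) (hN : NI ≤ 12 * g ^ 2 * (g - 1) * e ^ 2 * I) :
    NI * (13 ^ (d / 3) - 1) + 3 * e ^ 2 * M * (13 ^ (d / 2) - 1) +
      (3 ^ e.factorization 3) ^ 2 * M3 * (13 ^ (2 * d / 3) - 1) < 2 * (13 ^ d - 1) := by
  have hP : 13 ^ 1 ≤ 13 ^ d := Nat.pow_le_pow_right (by norm_num) (by omega)
  have a2 := xsnumm_two e he
  have b2 := Nat.mul_le_mul_left (e ^ 2) hI.1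
  have b3 := Nat.mul_le_mul_left (e ^ 2) hM
  have t3 : 3 ∣ e → ∃ s, 0 < s ∧ 3 * s ∣ e ∧ Odd s ∧
      4 * ((3 ^ e.factorization 3) ^ 2 * M3) ≤ 3 * 13 ^ (2 * s) := fun h3 => by
    have h4 := Nat.ordProj_dvd e 3
    have h5 := Nat.prime_three.factorization_pos_of_dvd he.ne' h3
    obtain ⟨j, hj⟩ : ∃ j, e.factorization 3 = j + 1 := ⟨e.factorization 3 - 1, by omega⟩
    rw [hj] at h4 hM3 ⊢
    refine ⟨3 ^ j, by positivity, by rwa [← pow_succ'], Odd.pow (by decide), ?_⟩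
    have h6 := xsnumm_three j
    have h7 := Nat.mul_le_mul_left ((3 ^ (j + 1)) ^ 2) hM3
    rw [mul_left_comm] at h7
    omega
  by_cases hg : g < 3
  · rw [hN0 hg, zero_mul, zero_add]
    by_cases h3 : 3 ∣ e
    · obtain ⟨s, s0, s1, s2, s3⟩ := t3 h3
      have b4 := Nat.mul_le_mul_left (e ^ 2) (hM' h3)
      rw [mul_left_comm] at b4
      rcases h2 with h2 | ⟨rfl, b, rfl⟩
      · have s4 := Nat.le_of_dvd he s1
        have c2 := xsnumm_term 8 7 (3 * e ^ 2 * M) e (d / 2) d (by rw [mul_assoc]; omega) (by omega)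
        have c3 := xsnumm_term 4 3 _ _ (2 * d / 3) d s3 (by omega)
        omega
      · have s4 : 2 * (3 * s) ≤ 18 * b := Nat.le_of_dvd he (Nat.Coprime.mul_dvd_of_dvd_of_dvd
          (Nat.coprime_two_left.2 (Odd.mul (by decide) s2)) ⟨9 * b, by ring⟩ s1)
        have a3 := xsnumm_half b I (by omega) hI
        have c2 := xsnumm_term 2 1 (3 * (18 * b) ^ 2 * M) (9 * b) (18 * b / 2) (18 * b)
          (by rw [mul_assoc]; omega) (by omega)
        have c3 := xsnumm_term 4 3 _ _ (2 * (18 * b) / 3) (18 * b) s3 (by omega)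
        omega
    · have c2 := xsnumm_term 4 7 (3 * e ^ 2 * M) e (d / 2) d (by rw [mul_assoc]; omega) (by omega)
      rw [hM0 h3, mul_zero, zero_mul]
      omega
  · obtain ⟨f, rfl⟩ : ∃ f, g = f + 3 := ⟨g - 3, by omega⟩
    have hd : f + 3 * e ≤ d := by
      have := Nat.le_mul_of_pos_right f he
      rw [add_mul] at hge
      omega
    have c1 : 10 * (NI * (13 ^ (d / 3) - 1)) ≤ 13 * 13 ^ d := by
      refine xsnumm_term 10 13 NI (f + 3 - (f + 3) / 3 - 2 + 2 * e) _ d ?_ (by omega)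
      calc 10 * NI ≤ 10 * (12 * (f + 3) ^ 2 * (f + 3 - 1) * e ^ 2 * ch 2 (e ^ 2)) :=
            Nat.mul_le_mul_left _ (hN.trans (Nat.mul_le_mul_left _ hI.1))
        _ = 120 * ((f + 3) ^ 2 * (f + 3 - 1)) * (e ^ 2 * ch 2 (e ^ 2)) := by ring
        _ ≤ 120 * (18 * 13 ^ (f + 3 - (f + 3) / 3 - 2)) * (e ^ 2 * ch 2 (e ^ 2)) :=
            Nat.mul_le_mul_right _ (Nat.mul_le_mul_left _ (xsnumm_g (f + 3) (by omega)))
        _ = 13 ^ (f + 3 - (f + 3) / 3 - 2) * (2160 * (e ^ 2 * ch 2 (e ^ 2))) := by ring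
        _ ≤ 13 ^ (f + 3 - (f + 3) / 3 - 2) * (13 * 13 ^ (2 * e)) :=
            Nat.mul_le_mul_left _ (xsnumm_one e he)
        _ = _ := by ring
    have c2 := xsnumm_term 52 7 (3 * e ^ 2 * M) (e + 1) (d / 2) d
      (by rw [mul_assoc, pow_succ 13]; omega) (by omega)
    by_cases h3 : 3 ∣ e
    · obtain ⟨s, s0, s1, -, s3⟩ := t3 h3
      have s4 := Nat.le_of_dvd he s1
      have c3 := xsnumm_term 52 3 ((3 ^ e.factorization 3) ^ 2 * M3) (2 * s + 1) (2 * d / 3) d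
        (by rw [pow_succ 13]; omega) (by omega)
      omega
    · rw [hM0 h3, mul_zero, zero_mul]
      omega

theorem xsnumm_e4 (k : ℕ) (hk : 4 ≤ k) : k * (2 * k + 3) + 3 ≤ 3 ^ k := by
  induction k, hk using Nat.le_induction with
  | base => norm_num
  | succ k hk ih =>
    rw [pow_succ]
    nlinarith

theorem num27 (k : ℕ) (hk : 3 ≤ k) :
    12 * (3 ^ k) ^ 2 * ch 3 ((3 ^ k) ^ 2) * 13 ^ (3 ^ k / 2) < 13 ^ (3 ^ k) - 1 := by
  rw [mul_assoc 12, xsnumm_ch3]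
  rcases hk.eq_or_lt with rfl | h
  · norm_num
  · have h1 := xsnumm_e4 k h
    have h2 : 3 ^ (k * (2 * k + 3) + 3) * 13 ^ (3 ^ k / 2) ≤ 13 ^ (3 ^ k) :=
      calc _ ≤ 3 ^ (2 * (3 ^ k - 3 ^ k / 2)) * 13 ^ (3 ^ k / 2) :=
            Nat.mul_le_mul_right _ (Nat.pow_le_pow_right (by norm_num) (by omega))
        _ ≤ 13 ^ (3 ^ k - 3 ^ k / 2) * 13 ^ (3 ^ k / 2) := by
            rw [pow_mul]
            exact Nat.mul_le_mul_right _ (Nat.pow_le_pow_left (by norm_num) _)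
        _ = _ := by
            rw [← pow_add]
            congr 1
            omega
    have h3 : 0 < 3 ^ (k * (2 * k + 3)) * 13 ^ (3 ^ k / 2) := by positivity
    rw [pow_add, mul_right_comm] at h2
    rw [mul_assoc]
    omega

end Pool.Agent.N9181
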