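import Pool.Agent.MP_9181f8_al.S.Lam
import Pool.Agent.MP_9181f8_al.S.GBasic
import Pool.Agent.MP_9181f8_al.S.EigB
import Pool.Agent.MP_9181f8_al.S.CntB
import Pool.Agent.MP_9181f8_al.S.NumM
import Pool.Agent.MP_9181f8_al.S.Cover

namespace Pool.Agent.N9181

open scoped commutatorElement

section Aux

variable {V : Type} [AddCommGroup V] [Module K V] [Module.Finite K V] {H : Type} [Group H]
  [Finite H] {ρ : Representation K H V} {N : ℕ} {A F : Subgroup H}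

omit [Group H] in
theorem xsregm_sum (T1 T2 T3 : Set H) (S : H → Set V) (k1 k2 k3 : ℕ)
    (h1 : ∀ s ∈ T1, (S s).ncard ≤ k1) (h2 : ∀ s ∈ T2, (S s).ncard ≤ k2)
    (h3 : ∀ s ∈ T3, (S s).ncard ≤ k3)
    (h : ∀ v : V, v ≠ 0 → ∃ s s', s ≠ s' ∧ (s ∈ T1 ∪ T2 ∪ T3 ∧ v ∈ S s) ∧
      s' ∈ T1 ∪ T2 ∪ T3 ∧ v ∈ S s') :
    2 * (13 ^ Module.finrank K V - 1) ≤ T1.ncard * k1 + T2.ncard * k2 + T3.ncard * k3 := by
  classical
  have key : ∀ (T : Set H) (k : ℕ), (∀ s ∈ T, (S s).ncard ≤ k) →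
      ∑ t ∈ (Set.toFinite T).toFinset, (S t).ncard ≤ T.ncard * k := fun T k hT => by
    rw [Set.ncard_eq_toFinset_card T (Set.toFinite T), ← smul_eq_mul]
    exact Finset.sum_le_card_nsmul _ _ _ fun s hs => hT s ((Set.Finite.mem_toFinset _).1 hs)
  have hc := cover ((Set.toFinite T1).toFinset ∪ (Set.toFinite T2).toFinset ∪
    (Set.toFinite T3).toFinset) S 2 fun v hv => by
      obtain ⟨s, s', e, a, b⟩ := h v hv
      rw [← Set.ncard_pair e]
      refine Set.ncard_le_ncard ?_ (Set.toFinite _)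
      rintro t (rfl | rfl)
      · exact ⟨by simpa only [Finset.mem_union, Set.Finite.mem_toFinset, Set.mem_union] using a.1, a.2⟩
      · exact ⟨by simpa only [Finset.mem_union, Set.Finite.mem_toFinset, Set.mem_union] using b.1, b.2⟩
  have a1 := Finset.sum_union_inter (s₁ := (Set.toFinite T1).toFinset ∪
    (Set.toFinite T2).toFinset) (s₂ := (Set.toFinite T3).toFinset) (f := fun t => (S t).ncard)
  have a2 := Finset.sum_union_inter (s₁ := (Set.toFinite T1).toFinset)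
    (s₂ := (Set.toFinite T2).toFinset) (f := fun t => (S t).ncard)
  have b1 := key T1 k1 h1
  have b2 := key T2 k2 h2
  have b3 := key T3 k3 h3
  omega

theorem xsregm_ev (a : Module.End K V) (Cs : Finset K) (k : ℕ) (h : ∀ c ∈ Cs, ed a c ≤ k) :
    {v : V | ∃ c ∈ Cs, v ≠ 0 ∧ a v = c • v}.ncard ≤ Cs.card * (13 ^ k - 1) := by
  classical
  have : Finite V := Module.finite_of_finite K
  induction Cs using Finset.induction_on with
  | empty => simp
  | insert c Cs hc ih =>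
    have e : {v : V | ∃ c' ∈ insert c Cs, v ≠ 0 ∧ a v = c' • v} =
        {v : V | v ≠ 0 ∧ a v = c • v} ∪ {v : V | ∃ c ∈ Cs, v ≠ 0 ∧ a v = c • v} := by
      ext v
      simp only [Finset.exists_mem_insert, Set.mem_union, Set.mem_ofPred_eq]
    rw [e, Finset.card_insert_of_notMem hc, add_mul, one_mul, add_comm]
    exact (Set.ncard_union_le _ _).trans (add_le_add
      (ev_ncard a c k (h c (Finset.mem_insert_self _ _)))
      (ih fun c' hc' => h c' (Finset.mem_insert_of_mem hc')))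

theorem xsregm_elt (hG : GB ρ N A F) {r : V} (hr : r ≠ 0) (n : ℕ) :
    ∀ (s : H) (c : K), s ^ 3 ^ n = 1 → s ∉ scal ρ → c ^ 3 = 1 → ρ s r = c • r →
      ∃ (s : H) (c : K), s ^ 3 = 1 ∧ s ∉ A ∧ c ^ 3 = 1 ∧ ρ s r = c • r := by
  induction n with
  | zero =>
    intro s c h1 h2
    rw [pow_zero, pow_one] at h1
    exact absurd (h1 ▸ one_mem _) h2
  | succ n ih =>
    intro s c h1 h2 h3 h4
    have h5 := rho_pow_eig ρ s r c h4 3
    by_cases h : s ^ 3 ∈ scal ρ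
    · obtain ⟨c', -, h6⟩ := h
      have h7 : c' = 1 := smul_left_injective K hr (by
        beta_reduce
        rw [← h6, h5, h3])
      refine ⟨s, c, hG.inj (LinearMap.ext fun v => ?_),
        fun hA => h2 (eb_A ρ N A F hG s hA r hr c h4), h3, h4⟩
      rw [h6, h7, one_smul, map_one, Module.End.one_apply]
    · exact ih (s ^ 3) (c ^ 3) (by rw [← pow_mul, ← pow_succ', h1]) h (by rw [h3, one_pow]) h5

theorem xsregm_big (hS : SD A F) (hA : FreeOn ρ A) {s : H} (h3 : s ^ 3 = 1)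
    (hC : s ∈ Subgroup.centralizer (A : Set H)) (hs : s ∉ A) {c : K}
    (hc : Module.finrank K V < 2 * ed (ρ s) c) :
    s ∉ F ∧ (∀ f ∈ F, ∀ n : ℕ, ¬ 3 ∣ n → f ^ n ∈ A → ⁅s, f⁆ ∈ A) ∧
      ∀ c', 3 * ed (ρ s) c' ≤ 2 * Module.finrank K V := by
  have := hS.nA
  have h1 : s ∉ F := fun h => hc.not_ge (eb_half ρ A F hS hA s hs (.inr h) c)
  have h2 : ∀ f ∈ F, ∀ n : ℕ, ¬ 3 ∣ n → f ^ n ∈ A → ⁅s, f⁆ ∈ A := fun f hf n hn h => by
    by_contra h'
    exact hc.not_ge (eb_3 ρ A F hS hA s h3 hC f hf n hn h h' c)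
  refine ⟨h1, h2, ?_⟩
  obtain ⟨f, hf, h4⟩ : ∃ f ∈ F, ⁅s, f⁆ ∉ A := by
    by_contra h
    push Not at h
    exact h1 (hS.ff s hC h)
  obtain ⟨e, h5, -, -, u, ⟨a, h6⟩, h7, k, h8⟩ := q_part 3 (by norm_num) f
  have hu : u ∈ F := h8 ▸ pow_mem hf k
  have h9 := h2 (f ^ e) (pow_mem hf e) _ h5 (by rw [pow_orderOf_eq_one]; exact one_mem _)
  refine eb_23 ρ A F hS hA s u hu (fun h => h4 ?_) (3 ^ a) (Odd.pow (by decide)) ?_
  · have e1 : ⁅s, f ^ e * u⁆ = ⁅s, f ^ e⁆ * (f ^ e * ⁅u, s⁆⁻¹ * (f ^ e)⁻¹) := by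
      simp only [commutatorElement_def]
      group
    rw [h7, e1]
    exact mul_mem h9 (hS.nA.conj_mem _ (inv_mem h) _)
  · have hy : s * u⁻¹ * s⁻¹ ∈ F := hS.nF.conj_mem _ (inv_mem hu) s
    have hcm : Commute (QuotientGroup.mk' A u) (QuotientGroup.mk' A (s * u⁻¹ * s⁻¹)) := by
      rw [← commutatorElement_eq_one_iff_commute, ← map_commutatorElement,
        QuotientGroup.mk'_apply, QuotientGroup.eq_one_iff]
      exact hS.comm _ hu _ hy
    rw [← QuotientGroup.eq_one_iff, ← QuotientGroup.mk'_apply, map_pow,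
      show ⁅u, s⁆ = u * (s * u⁻¹ * s⁻¹) by simp only [commutatorElement_def, mul_assoc],
      map_mul, hcm.mul_pow, ← map_pow, ← map_pow, conj_pow, inv_pow, h6]
    simp

omit [Finite H] in
theorem xsregm_eq (hA : FreeOn ρ A) {s t : H} (hs : Module.finrank K V < 2 * ed (ρ s) 1)
    (ht : Module.finrank K V < 2 * ed (ρ t) 1) (h : s⁻¹ * t ∈ A) : s = t := by
  have h1 := Submodule.finrank_sup_add_finrank_inf_eq (Module.End.eigenspace (ρ s) 1)
    (Module.End.eigenspace (ρ t) 1)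
  have h2 := Submodule.finrank_le (Module.End.eigenspace (ρ s) 1 ⊔ Module.End.eigenspace (ρ t) 1)
  obtain ⟨v, ⟨a, b⟩, hv⟩ := Submodule.exists_mem_ne_zero_of_ne_bot
    (p := Module.End.eigenspace (ρ s) 1 ⊓ Module.End.eigenspace (ρ t) 1) fun e => by
      rw [e, finrank_bot] at h1
      unfold ed at hs ht
      omega
  have a' : ρ s v = v := (Module.End.mem_eigenspace_iff.1 a).trans (one_smul _ _)
  have b' : ρ t v = v := (Module.End.mem_eigenspace_iff.1 b).trans (one_smul _ _)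
  refine inv_mul_eq_one.1 (hA _ h v hv ?_)
  rw [rho_mul, b']
  conv_lhs => rw [← a', rho_inv]

theorem xsregm_out (C : Subgroup H) [C.Normal] {g : ℕ} (hg : 0 < g) (h : C.index ∣ g) :
    {s : H | s ^ 3 = 1 ∧ s ∉ C}.ncard ≤ (g - 1) * Nat.card C ∧
      (g < 3 → {s : H | s ^ 3 = 1 ∧ s ∉ C}.ncard = 0) := by
  constructor
  · have h1 : {s : H | s ^ 3 = 1 ∧ s ∉ C}.ncard ≤ (C : Set H)ᶜ.ncard :=
      Set.ncard_le_ncard (fun s hs => hs.2) (Set.toFinite _)
    have h2 := Set.ncard_add_ncard_compl (C : Set H)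
    have h3 : (C : Set H).ncard = Nat.card C := (Nat.card_coe_set_eq _).symm
    have h4 := C.index_mul_card
    have h5 := Nat.mul_le_mul_right (Nat.card C) (Nat.le_of_dvd hg h)
    rw [Nat.sub_mul, one_mul]
    omega
  · intro h3
    rw [Set.ncard_eq_zero, Set.eq_empty_iff_forall_notMem]
    rintro s ⟨h1, h2⟩
    obtain ⟨k, hk⟩ : C.index ∣ 4 := h.trans (by interval_cases g <;> decide)
    refine h2 ?_
    have h4 := pow_mem (C.pow_index_mem s) k
    rwa [← pow_mul, ← hk, pow_succ, h1, one_mul] at h4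

end Aux

theorem regM {V : Type} [AddCommGroup V] [Module K V] [Module.Finite K V]
    {H : Type} [Group H] [Finite H] (ρ : Representation K H V) (N : ℕ) (A F : Subgroup H) (hG : GB ρ N A F) (e : ℕ) (he : A.relIndex F = e ^ 2)
    (h2 : 2 * e ≤ Module.finrank K V ∨ (Module.finrank K V = e ∧ 18 ∣ e)) : ∃ r : V, r ≠ 0 ∧ Th ρ ⊤ r := by
  by_contra hn
  have := hG.sd.nA
  obtain ⟨g, hg, hge, hidx, hAg, -⟩ := lam ρ N A F hG e he
  obtain ⟨e', he0, he', -, hp⟩ := gb_e ρ N A F hG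
  obtain rfl : e' = e := Nat.pow_left_injective two_ne_zero (he'.symm.trans he)
  obtain ⟨I, M, M3, hI, hM, hM', hM3, hM0, hC, hT, hB⟩ := cntB A F hG.sd e' he
  obtain ⟨o1, o2⟩ := xsregm_out (Subgroup.centralizer (A : Set H)) hg hidx
  have helt : ∀ r : V, r ≠ 0 →
      ∃ (s : H) (c : K), s ^ 3 = 1 ∧ s ∉ A ∧ c ^ 3 = 1 ∧ ρ s r = c • r := fun r hr => by
    by_contra h
    refine hn ⟨r, hr, fun s n h1 h2 w _ => ?_⟩
    by_contra h3
    refine h (xsregm_elt hG hr n s 3 h1 (fun ⟨c, _, hc⟩ => h3 ?_) (by decide) h2)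
    rw [hc, smul_left_injective K hr ((hc r).symm.trans h2)]
  have key : ∀ Cs : Finset K, (∀ c ∈ Cs, c ^ 2 ∈ Cs) →
      (∀ r : V, r ≠ 0 → ∃ s : H, ∃ c ∈ Cs, s ^ 3 = 1 ∧ s ∉ A ∧ ρ s r = c • r) →
      Cs.card * Nat.card A ≤ 12 * g ^ 2 → Cs.card * Nat.gcd (Nat.card A) 3 ≤ 3 →
      Cs.card * {s : H | (s ∈ Subgroup.centralizer (A : Set H) ∧ s ^ 3 = 1 ∧ s ∉ A) ∧
        ∃ c ∈ Cs, Module.finrank K V < 2 * ed (ρ s) c}.ncard ≤
          (3 ^ e'.factorization 3) ^ 2 * M3 → False := by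
    intro Cs c1 c2 c3 c4 c5
    have hmem : ∀ s : H, s ^ 3 = 1 → s ∉ A → s ∈
        {s : H | s ^ 3 = 1 ∧ s ∉ Subgroup.centralizer (A : Set H)} ∪
        {s : H | (s ∈ Subgroup.centralizer (A : Set H) ∧ s ^ 3 = 1) ∧
          ∀ c ∈ Cs, 2 * ed (ρ s) c ≤ Module.finrank K V} ∪
        {s : H | (s ∈ Subgroup.centralizer (A : Set H) ∧ s ^ 3 = 1 ∧ s ∉ A) ∧
          ∃ c ∈ Cs, Module.finrank K V < 2 * ed (ρ s) c} := fun s h1 h3 => by
      by_cases h4 : s ∈ Subgroup.centralizer (A : Set H)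
      · by_cases h5 : ∀ c ∈ Cs, 2 * ed (ρ s) c ≤ Module.finrank K V
        · exact .inl (.inr ⟨⟨h4, h1⟩, h5⟩)
        · push Not at h5
          exact .inr ⟨⟨h4, h1, h3⟩, h5⟩
      · exact .inl (.inl ⟨h1, h4⟩)
    have hs := xsregm_sum {s : H | s ^ 3 = 1 ∧ s ∉ Subgroup.centralizer (A : Set H)}
      {s : H | (s ∈ Subgroup.centralizer (A : Set H) ∧ s ^ 3 = 1) ∧
        ∀ c ∈ Cs, 2 * ed (ρ s) c ≤ Module.finrank K V}
      {s : H | (s ∈ Subgroup.centralizer (A : Set H) ∧ s ^ 3 = 1 ∧ s ∉ A) ∧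
        ∃ c ∈ Cs, Module.finrank K V < 2 * ed (ρ s) c}
      (fun s => {v : V | ∃ c ∈ Cs, v ≠ 0 ∧ ρ s v = c • v}) _ _ _
      (fun s hs => xsregm_ev (ρ s) Cs (Module.finrank K V / 3) fun c _ => by
        have := eb_out3 ρ A F hG.sd hG.free s hs.1 hs.2 c
        omega)
      (fun s hs => xsregm_ev (ρ s) Cs (Module.finrank K V / 2) fun c hc => by
        have := hs.2 c hc
        omega)
      (fun s hs => xsregm_ev (ρ s) Cs (2 * Module.finrank K V / 3) fun c _ => by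
        obtain ⟨⟨h1, h3, h4⟩, c', -, h5⟩ := hs
        have := (xsregm_big hG.sd hG.free h3 h1 h4 h5).2.2 c
        omega) fun v hv => by
      obtain ⟨s, c, h1, h3, h4, h5⟩ := c2 v hv
      refine ⟨s, s ^ 2, fun h => h4 ?_, ⟨hmem s h3 h4, c, h1, hv, h5⟩,
        hmem _ (by rw [← pow_mul, mul_comm, pow_mul, h3, one_pow]) fun h => h4 ?_,
        c ^ 2, c1 c h1, hv, rho_pow_eig ρ s v c h5 2⟩
      · rw [sq, left_eq_mul] at h
        exact h ▸ one_mem _
      · have h6 := pow_mem h 2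
        rwa [← pow_mul, pow_succ, h3, one_mul] at h6
    have h6 := (Set.ncard_le_ncard (fun s hs => hs.1 : {s : H |
      (s ∈ Subgroup.centralizer (A : Set H) ∧ s ^ 3 = 1) ∧
        ∀ c ∈ Cs, 2 * ed (ρ s) c ≤ Module.finrank K V} ⊆ _) (Set.toFinite _)).trans hT
    refine (numM _ e' g I M M3
      (Cs.card * {s : H | s ^ 3 = 1 ∧ s ∉ Subgroup.centralizer (A : Set H)}.ncard) he0 hge h2 hI
      hM hM' hM3 hM0 (fun h => by rw [o2 h, mul_zero]) ?_).not_ge (hs.trans ?_)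
    · calc _ ≤ Cs.card * ((g - 1) * (Nat.card A * e' ^ 2 * I)) :=
            Nat.mul_le_mul_left _ (o1.trans (Nat.mul_le_mul_left _ hC))
        _ = Cs.card * Nat.card A * ((g - 1) * e' ^ 2 * I) := by ring
        _ ≤ 12 * g ^ 2 * ((g - 1) * e' ^ 2 * I) := Nat.mul_le_mul_right _ c3
        _ = _ := by ring
    · rw [← mul_assoc, ← mul_assoc, ← mul_assoc, mul_comm _ Cs.card, mul_comm _ Cs.card,
        mul_comm _ Cs.card]
      refine add_le_add (add_le_add le_rfl (Nat.mul_le_mul_right _ ?_)) (Nat.mul_le_mul_right _ c5)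
      calc _ ≤ Cs.card * (Nat.gcd (Nat.card A) 3 * e' ^ 2 * M) := Nat.mul_le_mul_left _ h6
        _ = Cs.card * Nat.gcd (Nat.card A) 3 * (e' ^ 2 * M) := by ring
        _ ≤ 3 * (e' ^ 2 * M) := Nat.mul_le_mul_right _ c4
        _ = _ := by ring
  by_cases h3 : 3 ∣ Nat.card A
  · obtain ⟨hsc, -, hz⟩ := gb_scal ρ N A F hG
    obtain ⟨z, z1, z2⟩ := hz h3
    have z3 : z ∈ scal ρ := ⟨3, by decide, z2⟩
    refine key {1} (by simp) (fun r hr => ?_) ?_ ?_ ?_
    · obtain ⟨s, c, a1, a2, a3, a4⟩ := helt r hr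
      obtain ⟨j, hj⟩ : ∃ j : ℕ, (3 : K) ^ j * c = 1 := by
        have : ∀ c : K, c ^ 3 = 1 → ∃ j : Fin 3, (3 : K) ^ (j : ℕ) * c = 1 := by decide
        exact (this c a3).elim fun j hj => ⟨j, hj⟩
      refine ⟨s * z ^ j, 1, Finset.mem_singleton_self 1, ?_,
        fun h => a2 ((Subgroup.mul_mem_cancel_right A (pow_mem (hsc z3) j)).1 h), ?_⟩
      · rw [(Commute.pow_right (scal_central ρ hG.inj z z3 s).symm j).mul_pow, a1, ← pow_mul,
          mul_comm j, pow_mul, z1, one_pow, one_mul]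
      · rw [rho_mul, rho_pow_eig ρ z r 3 (z2 r), map_smul, a4, smul_smul, hj]
    · rw [Finset.card_singleton, one_mul]
      exact hAg.trans (Nat.mul_le_mul_right _ (Nat.gcd_le_right _ (by norm_num)))
    · rw [Finset.card_singleton, one_mul]
      exact Nat.gcd_le_right _ (by norm_num)
    · rw [Finset.card_singleton, one_mul]
      refine hB _ ?_ ?_
      · rintro s ⟨⟨a1, a2, a3⟩, c, -, a4⟩
        obtain ⟨b1, b2, -⟩ := xsregm_big hG.sd hG.free a2 a1 a3 a4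
        exact ⟨a1, b1, a2, b2⟩
      · rintro s ⟨-, c, a1, a2⟩ t ⟨-, c', b1, b2⟩
        rw [Finset.mem_singleton.1 a1] at a2
        rw [Finset.mem_singleton.1 b1] at b2
        exact xsregm_eq hG.free a2 b2
  · have hcop : Nat.Coprime (Nat.card A) 3 :=
      ((Nat.Prime.coprime_iff_not_dvd Nat.prime_three).2 h3).symm
    have hc : ({1, 3, 9} : Finset K).card = 3 := by decide
    refine key {1, 3, 9} (by decide) (fun r hr => ?_) ?_ ?_ ?_
    · obtain ⟨s, c, a1, a2, a3, a4⟩ := helt r hr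
      have : ∀ c : K, c ^ 3 = 1 → c ∈ ({1, 3, 9} : Finset K) := by decide
      exact ⟨s, c, this c a3, a1, a2, a4⟩
    · have h4 : Nat.gcd (Nat.card A) 12 ≤ 4 := by
        rw [show 12 = 3 * 4 from rfl, hcop.symm.gcd_mul_left_cancel_right]
        exact Nat.gcd_le_right _ (by norm_num)
      have := hAg.trans (Nat.mul_le_mul_right _ h4)
      rw [hc]
      omega
    · rw [hc, hcop.gcd_eq_one]
    · refine (Nat.mul_eq_zero.2 (.inr ?_)).trans_le (Nat.zero_le _)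
      rw [Set.ncard_eq_zero, Set.eq_empty_iff_forall_notMem]
      rintro s ⟨⟨a1, a2, a3⟩, c, -, a4⟩
      obtain ⟨b1, b2, -⟩ := xsregm_big hG.sd hG.free a2 a1 a3 a4
      exact b1 (hG.sd.ff s a1 fun f hf => b2 f hf (e' ^ 2) (fun h => h3
        (hp 3 Nat.prime_three (Nat.prime_three.dvd_of_dvd_pow h))) (pow_e A F hG.sd e' he f hf))

end Pool.Agent.N9181
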