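import Pool.Agent.MP_9181f8_al.S.BaseMb
import Pool.Agent.MP_9181f8_al.S.RegM
import Pool.Agent.MP_9181f8_al.S.P9b
import Pool.Agent.MP_9181f8_al.S.CntA

namespace Pool.Agent.N9181

open scoped commutatorElement

theorem baseM_c {V : Type} [AddCommGroup V] [Module K V] [Module.Finite K V]
    {H : Type} [Group H] [Finite H] (ρ : Representation K H V) (N : ℕ) (A F : Subgroup H) (hG : GB ρ N A F) (k : ℕ) (hk : 2 ≤ k) (he : A.relIndex F = (3 ^ k) ^ 2)
    (hd : Module.finrank K V = 3 ^ k) : PB2 ρ := by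
  obtain ⟨g, hg⟩ := lam ρ N A F hG _ he
  rw [hd] at hg
  obtain ⟨h12, hA, hC⟩ := gb_one ρ N A F hG _ g (by positivity) hg
  obtain ⟨E, hEm, hE, hi⟩ := exists_EH ρ N A F hG _ he 3 3 (Or.inr ⟨rfl, rfl⟩)
  refine ⟨?_, E, hE, eh_ffe ρ N A F hG k he hA E hEm⟩
  rw [Nat.Prime.factorization_pow Nat.prime_three, Finsupp.single_eq_same] at hi
  rcases hk.eq_or_lt with rfl | hk3
  · obtain ⟨ζ, L, X, Z, hH, hζ⟩ := hs_rep ρ 3 3 3 (Or.inr ⟨rfl, rfl, rfl⟩) E hE (by
      rw [hi]; norm_num)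
    obtain rfl := hζ rfl
    have h5 : Nat.card L = 3 := by
      have h6 := hH.sz
      rw [hi] at h6
      exact Nat.pow_left_injective two_ne_zero (by
        show Nat.card L ^ 2 = 3 ^ 2
        omega)
    have h7 := hH.dim
    rw [hd, h5] at h7
    exact p9 ρ E hE L X Z hH h5 (by omega)
  · obtain ⟨I, M, h1, -, -, h2, -⟩ := cntA A F hG.sd _ he (Odd.pow (by decide))
    rw [hC, Subgroup.card_top] at h2
    refine pos_cnt ρ ?_
    rw [hd]
    refine lt_of_le_of_lt (Nat.mul_le_mul_right _ (h2.trans ?_)) (num27 k hk3)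
    exact Nat.mul_le_mul (Nat.mul_le_mul_right _ (Nat.le_of_dvd (by norm_num) h12)) h1

theorem baseM {V : Type} [AddCommGroup V] [Module K V] [Module.Finite K V]
    {H : Type} [Group H] [Finite H] (ρ : Representation K H V) (N : ℕ) (A F : Subgroup H) (hG : GB ρ N A F) : PB1 ρ ∨ PB2 ρ := by
  obtain ⟨e, he0, he, hed, hp⟩ := gb_e ρ N A F hG
  by_cases h2 : 2 * e ≤ Module.finrank K V ∨ (Module.finrank K V = e ∧ 18 ∣ e)
  · obtain ⟨r, r0, hr⟩ := regM ρ N A F hG e he h2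
    exact Or.inl (pb_of_reg ρ r r0 hr)
  have hd0 : 0 < Module.finrank K V := Module.finrank_pos_iff_exists_ne_zero.2 hG.ne
  have hde : Module.finrank K V = e := by
    obtain ⟨c, hc⟩ := hed
    have h1 : c = 1 := by
      rcases c with _ | _ | c
      · omega
      · rfl
      · exact absurd (Or.inl (by rw [hc]; nlinarith)) h2
    rw [hc, h1, mul_one]
  by_cases h9 : 9 ∣ e
  swap
  · exact Or.inl (baseM_b ρ N A F hG e he hde h9)
  have ho : ¬ 2 ∣ e := fun h => h2 (Or.inr ⟨hde, by omega⟩)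
  obtain ⟨g, hg⟩ := lam ρ N A F hG e he
  rw [hde] at hg
  obtain ⟨h12, -, -⟩ := gb_one ρ N A F hG e g he0 hg
  have h3 : e = 3 ^ e.primeFactorsList.length := by
    refine Nat.eq_prime_pow_of_unique_prime_dvd he0.ne' fun {p} pp hpe => ?_
    have h4 : p ∣ 2 ^ 2 * 3 := (hp p pp hpe).trans h12
    rcases (Nat.Prime.dvd_mul pp).1 h4 with h | h
    · have := (Nat.prime_dvd_prime_iff_eq pp Nat.prime_two).1 (pp.dvd_of_dvd_pow h)
      exact absurd (this ▸ hpe) ho
    · exact (Nat.prime_dvd_prime_iff_eq pp Nat.prime_three).1 h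
  generalize e.primeFactorsList.length = k at h3
  subst h3
  refine Or.inr (baseM_c ρ N A F hG k ?_ he hde)
  rcases k with _ | _ | k
  · omega
  · omega
  · omega

end Pool.Agent.N9181
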