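import Pool.Agent.MP_9181f8_al.S.EHa
import Pool.Agent.MP_9181f8_al.S.GBasic

namespace Pool.Agent.N9181

open scoped commutatorElement

theorem xsehb_pow {H : Type} [Group H] {f g c : H} (hf : Commute c f) (hg : Commute c g)
    (h : g * f = c * f * g) (n : ℕ) :
    g ^ n * f = c ^ n * f * g ^ n ∧ (f * g) ^ n = c ^ n.choose 2 * f ^ n * g ^ n := by
  induction n with
  | zero => simp
  | succ n ih =>
    constructor
    · calc g ^ (n + 1) * f = g * (g ^ n * f) := by rw [pow_succ', mul_assoc]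
        _ = c ^ n * (g * f) * g ^ n := by
          rw [ih.1, ← mul_assoc, ← mul_assoc, ← (hg.pow_left n).eq, mul_assoc _ g f]
        _ = _ := by rw [h, pow_succ c, pow_succ' g]; simp only [mul_assoc]
    · calc (f * g) ^ (n + 1) = c ^ n.choose 2 * f ^ n * (g ^ n * f) * g := by
            rw [pow_succ, ih.2]; simp only [mul_assoc]
        _ = c ^ n.choose 2 * (f ^ n * c ^ n) * f * g ^ n * g := by
          rw [ih.1]; simp only [mul_assoc]
        _ = _ := by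
          rw [← (hf.pow_pow n n).eq, Nat.choose_succ_succ' n 1, Nat.choose_one_right, add_comm n,
            pow_add c, pow_succ f, pow_succ g]
          simp only [mul_assoc]

theorem xsehb_cm {H : Type} [Group H] [Finite H] {A F : Subgroup H} (hP : PD A F) {p : ℕ} {f g : H}
    (hf : f ∈ F) (hg : g ∈ F) (h : f ^ p ∈ A) : ⁅f, g⁆ ^ p = 1 := by
  obtain ⟨U, Z, _, _, _, _, _, π, ζ, B, -, h2, -, -, -, h6, -⟩ := pd_pair A F hP
  have h1 : π ⟨f, hf⟩ ^ p = 1 := by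
    rw [← map_pow]
    exact (h2 _).2 h
  rw [← h6 ⟨f, hf⟩ ⟨g, hg⟩, ← map_pow, ← MonoidHom.pow_apply, ← map_pow, h1, map_one,
    MonoidHom.one_apply, map_one]

theorem xsehb_desc {H : Type} [Group H] [Finite H] {A F : Subgroup H} (hS : SD A F) (hM : MxA A)
    (p k : ℕ) : ∀ f ∈ F, f ^ (p ^ k) ∈ A → f ^ p ∈ A := by
  induction k with
  | zero => exact fun f _ h => A.pow_mem (by simpa using h) p
  | succ k ih =>
    intro f hf h
    rw [pow_succ', pow_mul] at h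
    exact u_elem A F hS hM p f hf (by rw [pow_mul]; exact ih _ (F.pow_mem hf p) h)

theorem exists_EH {V : Type} [AddCommGroup V] [Module K V] [Module.Finite K V]
    {H : Type} [Group H] [Finite H] (ρ : Representation K H V) (N : ℕ) (A F : Subgroup H) (hG : GB ρ N A F) (e : ℕ) (he : A.relIndex F = e ^ 2) (p q : ℕ) (hpq : (p = 2 ∧ q = 4) ∨ (p = 3 ∧ q = 3)) :
    ∃ E : Subgroup H, (∀ f, f ∈ E ↔ f ∈ F ∧ f ^ q = 1) ∧ EH ρ p q E ∧
      (scal ρ).relIndex E = (p ^ e.factorization p) ^ 2 := by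
  have hS := hG.sd
  have hM : MxA A := hG.mx
  have hp : p.Prime := by rcases hpq with ⟨rfl, -⟩ | ⟨rfl, -⟩ <;> norm_num
  obtain ⟨d1, d2, d3, d4⟩ : q ∣ p ^ 2 ∧ q ∣ 12 ∧ p ∣ 12 ∧ p ∣ q.choose 2 := by
    rcases hpq with ⟨rfl, rfl⟩ | ⟨rfl, rfl⟩ <;> decide
  have pd : ∀ {x : H} {a b : ℕ}, x ^ a = 1 → a ∣ b → x ^ b = 1 := fun {x a b} h ⟨c, hc⟩ => by
    rw [hc, pow_mul, h, one_pow]
  have hA : ∀ f ∈ F, f ^ q = 1 → f ^ p ∈ A := fun f hf h =>
    xsehb_desc hS hM p 2 f hf (by rw [pd h d1]; exact A.one_mem)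
  let E : Subgroup H :=
    { carrier := {f | f ∈ F ∧ f ^ q = 1}
      one_mem' := ⟨F.one_mem, one_pow _⟩
      mul_mem' := fun {f g} hf hg => by
        refine ⟨F.mul_mem hf.1 hg.1, ?_⟩
        have hc := hS.comm g hg.1 f hf.1
        rw [(xsehb_pow (c := ⁅g, f⁆) (hS.cen _ hc f hf.1) (hS.cen _ hc g hg.1)
          (by rw [commutatorElement_def]; group) q).2, hf.2, hg.2,
          pd (xsehb_cm hS.toPD hg.1 hf.1 (hA g hg.1 hg.2)) d4, one_mul, one_mul]
      inv_mem' := fun {f} hf => ⟨F.inv_mem hf.1, by rw [inv_pow, hf.2, inv_one]⟩ }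
  have hE : ∀ f, f ∈ E ↔ f ∈ F ∧ f ^ q = 1 := fun _ => Iff.rfl
  refine ⟨E, hE, ⟨hG.inj, hG.ne, ⟨fun f hf g => ⟨hS.nF.conj_mem f hf.1 g, ?_⟩⟩, fun f hf => hf.2,
    fun f hf => hG.sc _ (hA f hf.1 hf.2) ?_, fun f hf g hg => hG.sc _ (hS.comm f hf.1 g hg.1)
      (pd (xsehb_cm hS.toPD hf.1 hg.1 (hA f hf.1 hf.2)) d3), fun B hB hle hab b hb => ?_⟩, ?_⟩
  · rw [conj_pow, hf.2, mul_one, mul_inv_cancel]
  · rw [← pow_mul]
    exact pd hf.2 (d2.mul_left p)
  · have := hS.nA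
    have h1 : B ⊔ A = A := hM _ inferInstance (fun x hx y hy => by
      obtain ⟨b, hb, a, ha, rfl⟩ := Subgroup.mem_sup_of_normal_right.1 hx
      obtain ⟨b', hb', a', ha', rfl⟩ := Subgroup.mem_sup_of_normal_right.1 hy
      have c1 : Commute b b' := hab b hb b' hb'
      have c2 : Commute a' b := hS.cen a' ha' b (hle hb).1
      have c3 : Commute a b' := hS.cen a ha b' (hle hb').1
      have c4 : Commute a a' := hS.cen a ha a' (hS.le ha')
      exact ((c1.mul_right c2.symm).mul_left (c3.mul_right c4)).eq) le_sup_right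
    exact hG.sc b (h1 ▸ Subgroup.mem_sup_left hb) (pd (hle hb).2 d2)
  · obtain ⟨U, Z, _, _, _, _, _, π, ζ, B, h1, h2, -, -, -, -, h7, -⟩ := pd_pair A F hS.toPD
    have := Fact.mk hp
    let φ : E →* U := π.comp (Subgroup.inclusion fun f hf => hf.1)
    have hk : (scal ρ).subgroupOf E = φ.ker := by
      ext f
      rw [Subgroup.mem_subgroupOf, MonoidHom.mem_ker]
      exact ⟨fun h => (h2 _).2 ((gb_scal ρ N A F hG).1 h),
        fun h => hG.sc _ ((h2 _).1 h) (pd f.2.2 d2)⟩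
    have hP : IsPGroup p φ.range := by
      rintro ⟨_, f, rfl⟩
      refine ⟨1, Subtype.ext ?_⟩
      change φ f ^ p ^ 1 = 1
      rw [pow_one, ← map_pow]
      exact (h2 _).2 (hA f f.2.1 f.2.2)
    obtain ⟨P, hle⟩ := hP.exists_le_sylow
    have hge : (P : Subgroup U) ≤ φ.range := fun u hu => by
      obtain ⟨k, hk⟩ := P.isPGroup' ⟨u, hu⟩
      obtain ⟨f, rfl⟩ := h1 u
      have h3 : π (f ^ p ^ k) = 1 := by
        rw [map_pow]
        exact congrArg Subtype.val hk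
      obtain ⟨a, ha, h4⟩ := u_lift A F hS hM p q hpq f f.2
        (xsehb_desc hS hM p k f f.2 ((h2 _).1 h3))
      refine ⟨⟨f * a, F.mul_mem f.2 (hS.le ha), h4⟩, ?_⟩
      change π (f * ⟨a, hS.le ha⟩) = π f
      rw [map_mul, (h2 ⟨a, hS.le ha⟩).2 ha, mul_one]
    rw [Subgroup.relIndex, hk, Subgroup.index_ker, le_antisymm hle hge, P.card_eq_multiplicity, h7,
      he, Nat.factorization_pow, ← pow_mul, mul_comm]
    rfl

theorem eh_comm {V : Type} [AddCommGroup V] [Module K V] [Module.Finite K V]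
    {H : Type} [Group H] [Finite H] (ρ : Representation K H V) (E E' : Subgroup H) (hE : EH ρ 2 4 E) (hE' : EH ρ 3 3 E') :
    ∀ f ∈ E, ∀ g ∈ E', f * g = g * f := by
  intro f hf g hg
  refine Subgroup.commute_of_normal_of_disjoint E E' hE.nE hE'.nE
    (Subgroup.disjoint_def.2 fun {x} h h' => ?_) f g hf hg
  have h1 := hE.pw x h
  rwa [pow_succ, hE'.pw x h', one_mul] at h1

theorem eh_ffe {V : Type} [AddCommGroup V] [Module K V] [Module.Finite K V]
    {H : Type} [Group H] [Finite H] (ρ : Representation K H V) (N : ℕ) (A F : Subgroup H) (hG : GB ρ N A F) (k : ℕ) (he : A.relIndex F = (3 ^ k) ^ 2) (hA : A = scal ρ)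
    (E : Subgroup H) (hE : ∀ f, f ∈ E ↔ f ∈ F ∧ f ^ 3 = 1) : FFE ρ E := by
  have hS := hG.sd
  have hM : MxA A := hG.mx
  have hc : ∀ a ∈ A, ∀ h : H, a * h = h * a := fun a ha => scal_central ρ hG.inj a (hA ▸ ha)
  have h1 : ∀ y ∈ F, ∃ a ∈ A, y * a ∈ E := fun y hy => by
    have h2 := pow_e A F hS _ he y hy
    rw [← pow_mul] at h2
    obtain ⟨a, ha, h3⟩ := u_lift A F hS hM 3 3 (.inr ⟨rfl, rfl⟩) y hy
      (xsehb_desc hS hM 3 _ y hy h2)
    exact ⟨a, ha, (hE _).2 ⟨F.mul_mem hy (hS.le ha), h3⟩⟩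
  intro x hx
  have h4 : x ∈ F := hS.ff x (fun a ha => hc a ha x) fun y hy => by
    obtain ⟨a, ha, h5⟩ := h1 y hy
    have h6 : ⁅x, y * a⁆ = ⁅x, y⁆ := by
      rw [commutatorElement_def, commutatorElement_def, mul_inv_rev, ← mul_assoc x, mul_assoc _ a,
        hc a ha]
      group
    rw [← h6, hA]
    exact hx _ h5
  obtain ⟨a, ha, h5⟩ := h1 x h4
  obtain ⟨c, hc0, h6⟩ : a ∈ scal ρ := hA ▸ ha
  exact ⟨_, h5, c⁻¹, fun v => by rw [rho_mul, h6, map_smul, inv_smul_smul₀ hc0]⟩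

end Pool.Agent.N9181
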