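import Pool.Agent.MP_9181f8_al.S.SBasic
import Pool.Agent.MP_9181f8_al.N.BtIdem

namespace Pool.Agent.N9181

open scoped commutatorElement

theorem xsbts_key (M : ℕ) (x y : RM M) (h : red M x = red M y) :
    x ^ (13 ^ M) = y ^ (13 ^ M) := by
  obtain ⟨z, hz⟩ := xbtbasic_ker M (x - y) (by rw [map_sub, h, sub_self])
  have h1 := dvd_sub_pow_of_dvd_sub (R := RM M) (p := 13) (a := x) (b := y)
    ⟨z, by rw [hz]; norm_num⟩ M
  have hz0 : (((13 : ℕ) : RM M) ^ (M + 1)) = 0 := by
    have := ZMod.natCast_self (13 ^ (M + 1))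
    exact_mod_cast this
  rw [hz0, zero_dvd_iff] at h1
  exact sub_eq_zero.1 h1

theorem xsbts_eq {V : Type} [AddCommGroup V] [Module K V] [Module.Finite K V]
    (a : Module.End K V) (M : ℕ) (x : RM M) (hx : IsBt a M x) : bt a M = x :=
  isBt_unique _ M _ _ (Classical.epsilon_spec ⟨_, hx⟩) hx

theorem xsbts_gen {V : Type} [AddCommGroup V] [Module K V] [Module.Finite K V]
    (a : Module.End K V) (M : ℕ) {ι : Type} [Fintype ι] [DecidableEq ι] (b : Module.Basis ι K V)
    (A : Matrix ι ι (RM M)) (N : ℕ) (hN : ¬ 13 ∣ N) (hA : A ^ N = 1)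
    (hm : A.map (red M) = LinearMap.toMatrix b b a) : bt a M = A.trace := by
  let e := Fintype.equivFin ι
  refine xsbts_eq a M _ ⟨_, b.reindex e, Matrix.reindexAlgEquiv (RM M) (RM M) e A, N, hN, ?_, ?_,
    ?_⟩
  · rw [← map_pow, hA, map_one]
  · ext i j
    have := congrFun (congrFun hm (e.symm i)) (e.symm j)
    rw [LinearMap.toMatrix_apply, Matrix.map_apply] at this
    rw [LinearMap.toMatrix_apply, Module.Basis.reindex_apply, Module.Basis.repr_reindex_apply,
      ← this]
    rfl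
  · exact Equiv.sum_comp e.symm (fun i => A i i)

theorem xsbts_pow {V : Type} [AddCommGroup V] [Module K V] (a : Module.End K V) (n : ℕ)
    (ha : a ^ n = 1) (U : Submodule K V) (s : Module.End K U) (hs : Rs U a s) : s ^ n = 1 := by
  have h : ∀ (k : ℕ) (w : U), ((s ^ k) w : V) = (a ^ k) w := by
    intro k
    induction k with
    | zero => intro w; rfl
    | succ k ih => intro w; rw [pow_succ, pow_succ, Module.End.mul_apply, ih, hs w]; rfl
  ext w
  rw [h, ha]
  rfl

theorem bt_smul (M : ℕ) : ∃ tc : K → RM M, (∀ c, red M (tc c) = c) ∧ tc 1 = 1 ∧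
    (∀ c c', tc (c * c') = tc c * tc c') ∧
    ∀ (V : Type) [AddCommGroup V] [Module K V] [Module.Finite K V] (a : Module.End K V) (n : ℕ),
      ¬ 13 ∣ n → a ^ n = 1 → ∀ c : K, c ≠ 0 → bt (c • a) M = tc c * bt a M := by
  choose l hl using red_surj M
  have h1 : ∀ c, red M (l c ^ (13 ^ M)) = c := fun c => by
    rw [map_pow, hl, ZMod.pow_card_pow]
  refine ⟨fun c => l c ^ (13 ^ M), h1, ?_, fun c c' => ?_, ?_⟩
  · beta_reduce
    rw [xsbts_key M (l 1) 1 (by rw [hl, map_one]), one_pow]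
  · beta_reduce
    rw [xsbts_key M (l (c * c')) (l c * l c') (by rw [map_mul, hl, hl, hl]), mul_pow]
  · intro V _ _ _ a n hn ha c hc
    obtain ⟨d, b, A, N, hN, hA, hm, ht⟩ := isBt_bt a n hn ha M
    have h12 : (l c ^ (13 ^ M)) ^ 12 = 1 := by
      rw [← pow_mul, mul_comm, pow_mul, xsbts_key M (l c ^ 12) 1 (by
        rw [map_pow, hl, map_one]
        exact ZMod.pow_card_sub_one_eq_one hc), one_pow]
    refine xsbts_eq _ M _ ⟨d, b, (l c ^ (13 ^ M)) • A, 12 * N, ?_, ?_, ?_, ?_⟩
    · intro h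
      rcases (Nat.Prime.dvd_mul fact13.out).1 h with h | h
      · exact absurd h (by norm_num)
      · exact hN h
    · rw [smul_pow, pow_mul, h12, one_pow, one_smul, mul_comm, pow_mul, hA, one_pow]
    · rw [map_smul, ← hm]
      ext i j
      rw [Matrix.map_apply, Matrix.smul_apply, Matrix.smul_apply, Matrix.map_apply, smul_eq_mul,
        smul_eq_mul, map_mul, h1]
    · rw [Matrix.trace_smul, ht, smul_eq_mul]

theorem bt_add {V : Type} [AddCommGroup V] [Module K V] [Module.Finite K V] (a : Module.End K V) (n : ℕ) (hn : ¬ 13 ∣ n) (ha : a ^ n = 1)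
    (U U' : Submodule K V) (hc : IsCompl U U') (s : Module.End K U) (s' : Module.End K U')
    (hs : Rs U a s) (hs' : Rs U' a s') (M : ℕ) : bt a M = bt s M + bt s' M := by
  obtain ⟨d, b, A, N, hN, hA, hm, ht⟩ := isBt_bt s n hn (xsbts_pow a n ha U s hs) M
  obtain ⟨d', b', A', N', hN', hA', hm', ht'⟩ := isBt_bt s' n hn (xsbts_pow a n ha U' s' hs') M
  have e1 : bt (s.prodMap s') M = bt a M := by
    refine bt_conj (Submodule.prodEquivOfIsCompl U U' hc) _ _ (fun v => ?_) M
    rw [Submodule.coe_prodEquivOfIsCompl', Submodule.coe_prodEquivOfIsCompl', map_add, ← hs v.1,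
      ← hs' v.2]
    rfl
  rw [← e1, xsbts_gen (s.prodMap s') M (b.prod b') (Matrix.fromBlocks A 0 0 A') (N * N') ?_ ?_ ?_,
    ← ht, ← ht']
  · simp [Matrix.trace, Fintype.sum_sum_type]
  · intro h
    rcases (Nat.Prime.dvd_mul fact13.out).1 h with h | h
    · exact hN h
    · exact hN' h
  · rw [Matrix.fromBlocks_diagonal_pow, pow_mul, hA, mul_comm, pow_mul, hA', one_pow, one_pow,
      Matrix.fromBlocks_one]
  · rw [LinearMap.toMatrix_prodMap, Matrix.fromBlocks_map, hm, hm', Matrix.map_zero _ (map_zero _),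
      Matrix.map_zero _ (map_zero _)]

theorem bt_one {V : Type} [AddCommGroup V] [Module K V] [Module.Finite K V] (M : ℕ) : bt (1 : Module.End K V) M = (Module.finrank K V : RM M) := by
  rw [xsbts_gen 1 M (Module.finBasis K V) 1 1 (by norm_num) (one_pow _) ?_, Matrix.trace_one,
    Fintype.card_fin]
  rw [LinearMap.toMatrix_one, Matrix.map_one _ (map_zero _) (map_one _)]

end Pool.Agent.N9181
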