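import Pool.Agent.MP_9181f8_al.S.SBasic
import Pool.Agent.MP_9181f8_al.N.Ind

namespace Pool.Agent.N9181

open scoped commutatorElement

theorem xssbd_poly : ∏ c : K, (Polynomial.X - Polynomial.C c) =
    (Polynomial.X ^ 13 - Polynomial.X : Polynomial K) := by
  have hm : (Polynomial.X ^ 13 - Polynomial.X : Polynomial K).Monic :=
    Polynomial.monic_X_pow_sub (by rw [Polynomial.degree_X]; norm_num)
  have hr := FiniteField.roots_X_pow_card_sub_X K
  rw [ZMod.card] at hr
  have := Polynomial.prod_multiset_X_sub_C_of_monic_of_roots_card_eq hm (by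
    rw [hr, FiniteField.X_pow_card_sub_X_natDegree_eq K (by norm_num : 1 < 13), ← Finset.card_def,
      Finset.card_univ, ZMod.card])
  rw [hr] at this
  exact this

theorem xssbd_eig {V : Type} [AddCommGroup V] [Module K V] (a : Module.End K V) (ha : a ^ 12 = 1)
    (U : Submodule K V) (hU : U ≠ ⊥) (hi : ∀ u ∈ U, a u ∈ U) :
    ∃ (c : K) (u : V), u ∈ U ∧ u ≠ 0 ∧ a u = c • u := by
  by_contra hn
  push Not at hn
  obtain ⟨u, hu, h0⟩ := (Submodule.ne_bot_iff U).1 hU
  have key : ∀ s : Finset K,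
      Polynomial.aeval a (∏ c ∈ s, (Polynomial.X - Polynomial.C c)) u ∈ U ∧
      Polynomial.aeval a (∏ c ∈ s, (Polynomial.X - Polynomial.C c)) u ≠ 0 := by
    intro s
    induction s using Finset.induction_on with
    | empty => simpa using ⟨hu, h0⟩
    | insert c s hc ih =>
      rw [Finset.prod_insert hc, map_mul, Module.End.mul_apply]
      set w := Polynomial.aeval a (∏ c ∈ s, (Polynomial.X - Polynomial.C c)) u
      have e : Polynomial.aeval a (Polynomial.X - Polynomial.C c) w = a w - c • w := by simp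
      rw [e]
      exact ⟨U.sub_mem (hi _ ih.1) (U.smul_mem _ ih.1), sub_ne_zero.2 (hn c w ih.1 ih.2)⟩
  apply (key Finset.univ).2
  rw [xssbd_poly, map_sub, map_pow, Polynomial.aeval_X, pow_succ, ha, one_mul, sub_self,
    LinearMap.zero_apply]

/-- the simultaneous eigenspace of a function -/
def xssbdE {V : Type} [AddCommGroup V] [Module K V] {H : Type} [Group H]
    (ρ : Representation K H V) (B : Subgroup H) (χ : H → K) : Submodule K V where
  carrier := {v | ∀ b ∈ B, ρ b v = χ b • v}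
  zero_mem' := fun b _ => by rw [map_zero, smul_zero]
  add_mem' := fun {x y} hx hy b hb => by rw [map_add, hx b hb, hy b hb, smul_add]
  smul_mem' := fun c x hx b hb => by rw [map_smul, hx b hb, smul_comm]

theorem sbd_bd {V : Type} [AddCommGroup V] [Module K V] [Module.Finite K V]
    {H : Type} [Group H] [Finite H] (ρ : Representation K H V) (S : Set (Submodule K V)) (hS : SBD ρ S) :
    ∃ (_ : Fintype S) (_ : MulAction H S),
      (∀ (h : H) (U : S), ((h • U : S) : Submodule K V) = (U : Submodule K V).map (ρ h)) ∧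
      BD ρ S (fun U => (U : Submodule K V)) := by
  have hV : Finite V := Module.finite_of_finite K
  have hF : Finite (Submodule K V) :=
    Finite.of_injective (fun U : Submodule K V => (U : Set V)) SetLike.coe_injective
  let act : MulAction H S :=
    { smul := fun h U => ⟨(U : Submodule K V).map (ρ h), hS.map h U U.2⟩
      one_smul := fun U => Subtype.ext (by
        show (U : Submodule K V).map (ρ 1) = U
        rw [map_one]
        exact Submodule.map_id _)
      mul_smul := fun g h U => Subtype.ext (by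
        show (U : Submodule K V).map (ρ (g * h)) = ((U : Submodule K V).map (ρ h)).map (ρ g)
        rw [map_mul, ← Submodule.map_comp]
        rfl) }
  refine ⟨Fintype.ofFinite S, act, fun _ _ => rfl, fun h U w hw => Submodule.mem_map_of_mem hw,
    (sSupIndep_iff S).1 hS.ind, ?_, fun U hU => hS.ne (hU ▸ U.2)⟩
  rw [← hS.top, sSup_eq_iSup']

theorem eig_ex {V : Type} [AddCommGroup V] [Module K V] [Module.Finite K V]
    {H : Type} [Group H] [Finite H] (ρ : Representation K H V) (B : Subgroup H) (hc : ∀ a ∈ B, ∀ b ∈ B, a * b = b * a)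
    (h12 : ∀ b ∈ B, b ^ 12 = 1) (U : Submodule K V) (hU : U ≠ ⊥)
    (hi : ∀ b ∈ B, ∀ u ∈ U, ρ b u ∈ U) :
    ∃ v ∈ U, v ≠ 0 ∧ ∀ b ∈ B, ∃ c : K, ρ b v = c • v := by
  obtain ⟨U0, ⟨h1, h2, h3⟩, hmin⟩ := (wellFounded_lt (α := Submodule K V)).has_min
    {W | W ≤ U ∧ W ≠ ⊥ ∧ ∀ b ∈ B, ∀ u ∈ W, ρ b u ∈ W} ⟨U, le_rfl, hU, hi⟩
  obtain ⟨v, hv, h0⟩ := (Submodule.ne_bot_iff U0).1 h2
  refine ⟨v, h1 hv, h0, fun b hb => ?_⟩
  obtain ⟨c, u, hu, hu0, hu1⟩ := xssbd_eig (ρ b) (by rw [← map_pow, h12 b hb, map_one]) U0 h2 (h3 b hb)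
  refine ⟨c, ?_⟩
  by_contra hn
  refine hmin (U0 ⊓ Module.End.eigenspace (ρ b) c) ⟨inf_le_left.trans h1, ?_, ?_⟩ ?_
  · exact (Submodule.ne_bot_iff _).2 ⟨u, ⟨hu, Module.End.mem_eigenspace_iff.2 hu1⟩, hu0⟩
  · rintro b' hb' w ⟨hw, hw'⟩
    refine ⟨h3 b' hb' w hw, Module.End.mem_eigenspace_iff.2 ?_⟩
    rw [← rho_mul, hc b hb b' hb', rho_mul, Module.End.mem_eigenspace_iff.1 hw', map_smul]
  · refine lt_of_le_of_ne inf_le_left fun he => hn ?_
    rw [← he] at hv
    exact Module.End.mem_eigenspace_iff.1 hv.2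

theorem eig_of {V : Type} [AddCommGroup V] [Module K V] [Module.Finite K V]
    {H : Type} [Group H] [Finite H] (ρ : Representation K H V) (B : Subgroup H) (v : V) (h0 : v ≠ 0)
    (h : ∀ b ∈ B, ∃ c : K, ρ b v = c • v) : ∃ U ∈ eigS ρ B, v ∈ U := by
  classical
  choose! χ hχ using h
  exact ⟨xssbdE ρ B χ, ⟨(Submodule.ne_bot_iff _).2 ⟨v, hχ, h0⟩, χ, fun _ => Iff.rfl⟩, hχ⟩

theorem eig_uniq {V : Type} [AddCommGroup V] [Module K V] [Module.Finite K V]
    {H : Type} [Group H] [Finite H] (ρ : Representation K H V) (B : Subgroup H) (U U' : Submodule K V) (hU : U ∈ eigS ρ B)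
    (hU' : U' ∈ eigS ρ B) (v : V) (h0 : v ≠ 0) (h : v ∈ U) (h' : v ∈ U') : U = U' := by
  obtain ⟨-, χ, hχ⟩ := hU
  obtain ⟨-, χ', hχ'⟩ := hU'
  have e : ∀ b ∈ B, χ b = χ' b := fun b hb =>
    smul_left_injective K h0 (((hχ v).1 h b hb).symm.trans ((hχ' v).1 h' b hb))
  ext w
  rw [hχ, hχ']
  exact forall₂_congr fun b hb => by rw [e b hb]

theorem fix_eigS {V : Type} [AddCommGroup V] [Module K V] [Module.Finite K V]
    {H : Type} [Group H] [Finite H] (ρ : Representation K H V) (B : Subgroup H) (h : fixS ρ B ≠ ⊥) : fixS ρ B ∈ eigS ρ B := by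
  refine ⟨h, fun _ => 1, fun v => ?_⟩
  simp only [one_smul]
  exact mem_fixS ρ B v

theorem eb {V : Type} [AddCommGroup V] [Module K V] [Module.Finite K V]
    {H : Type} [Group H] [Finite H] (ρ : Representation K H V) (B H1 : Subgroup H) (hc : ∀ a ∈ B, ∀ b ∈ B, a * b = b * a)
    (h12 : ∀ b ∈ B, b ^ 12 = 1) (hn : H1 ≤ Subgroup.normalizer (B : Set H)) :
    SBD (V := V) (H := H1) (ρ.comp H1.subtype) (eigS ρ B) := by
  refine ⟨?_, ?_, ?_, fun h => h.1 rfl⟩
  · rintro ⟨h, hh⟩ W ⟨hW, χ, hχ⟩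
    have hN := Subgroup.mem_set_normalizer_iff.1 (hn hh)
    show W.map (ρ h) ∈ eigS ρ B
    refine ⟨?_, fun b => χ (h⁻¹ * b * h), fun v => ⟨?_, fun hv => ?_⟩⟩
    · obtain ⟨w, hw, h0⟩ := (Submodule.ne_bot_iff W).1 hW
      refine (Submodule.ne_bot_iff _).2 ⟨ρ h w, Submodule.mem_map_of_mem hw, fun h1 => h0 ?_⟩
      rw [← rho_inv ρ h w, h1, map_zero]
    · rintro ⟨w, hw, rfl⟩ b hb
      have hb' : h⁻¹ * b * h ∈ B := (hN _).2 (by
        rw [show h * (h⁻¹ * b * h) * h⁻¹ = b by group]; exact hb)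
      rw [← map_smul, ← (hχ w).1 hw _ hb', ← rho_mul, ← rho_mul]
      congr 2
      group
    · refine ⟨ρ h⁻¹ v, (hχ _).2 fun b hb => ?_, rho_inv' ρ h v⟩
      have h1 : ρ (h * b * h⁻¹) v = χ (h⁻¹ * (h * b * h⁻¹) * h) • v := hv _ ((hN b).1 hb)
      rw [show h⁻¹ * (h * b * h⁻¹) * h = b by group] at h1
      rw [← map_smul, ← h1, ← rho_mul, ← rho_mul]
      congr 2
      group
  · have h1 := Module.End.independent_iInf_maxGenEigenspace_of_forall_mapsTo
      (fun b : B => (ρ b : Module.End K V)) fun i j φ =>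
        Module.End.mapsTo_maxGenEigenspace_of_comm (by
          show ρ j * ρ i = ρ i * ρ j
          rw [← map_mul, ← map_mul, hc _ j.2 _ i.2]) φ
    have h2 : iSupIndep fun χ : B → K => ⨅ b : B, Module.End.eigenspace (ρ b) (χ b) :=
      h1.mono fun χ => iInf_mono fun b => Module.End.genEigenspace_le_maximal _ _ _
    refine h2.sSupIndep_range.mono ?_
    rintro W ⟨-, χ, hχ⟩
    refine ⟨fun b => χ b, ?_⟩
    ext v
    simp only [Submodule.mem_iInf, Module.End.mem_eigenspace_iff, hχ, Subtype.forall]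
  · have hcard : (Nat.card B : K) ≠ 0 := by
      intro h0
      obtain ⟨x, hx⟩ := exists_prime_orderOf_dvd_card' 13 ((ZMod.natCast_eq_zero_iff _ 13).1 h0)
      have h1 : x ^ 12 = 1 := Subtype.ext (h12 x x.2)
      have h2 := orderOf_dvd_of_pow_eq_one h1
      rw [hx] at h2
      omega
    have hT : ∀ b : B, ∀ w ∈ sSup (eigS ρ B), ρ b w ∈ sSup (eigS ρ B) := by
      intro b
      refine (sSup_le fun W hW w hw => ?_ : sSup (eigS ρ B) ≤ (sSup (eigS ρ B)).comap (ρ b))
      obtain ⟨χ, hχ⟩ := hW.2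
      rw [Submodule.mem_comap, (hχ w).1 hw b b.2]
      exact Submodule.smul_mem _ _ (le_sSup hW hw)
    obtain ⟨W', hW', hcm⟩ := exists_compl hcard (ρ.comp B.subtype) (sSup (eigS ρ B)) hT
    by_contra hne
    have h1 : W' ≠ ⊥ := fun h => hne (by simpa [h] using hcm.sup_eq_top)
    obtain ⟨v, hv, h0, h2⟩ := eig_ex ρ B hc h12 W' h1 fun b hb => hW' ⟨b, hb⟩
    obtain ⟨U, hU, hvU⟩ := eig_of ρ B v h0 h2
    exact h0 (Submodule.disjoint_def.1 hcm.disjoint v (le_sSup hU hvU) hv)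

end Pool.Agent.N9181
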