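import Pool.Agent.MP_9181f8_al.S.HSc
import Pool.Agent.MP_9181f8_al.S.Sbd
import Pool.Agent.MP_9181f8_al.S.BtS
import Pool.Agent.MP_9181f8_al.N.BtTL

namespace Pool.Agent.N9181

open scoped commutatorElement

section

variable {V : Type} [AddCommGroup V] [Module K V] [Module.Finite K V] {H : Type} [Group H]
  [Finite H]

theorem xshsb_ne (ρ : Representation K H V) (f : H) {v : V} (hv : v ≠ 0) : ρ f v ≠ 0 := by
  intro h
  have := rho_inv ρ f v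
  rw [h, map_zero] at this
  exact hv this.symm

theorem xshsb_root (ρ : Representation K H V) {h : H} {v : V} {c : K} {n : ℕ} (hn : h ^ n = 1)
    (hv : v ≠ 0) (hc : ρ h v = c • v) : c ^ n = 1 := by
  have := rho_pow_eig ρ h v c hc n
  rw [hn, map_one, Module.End.one_apply] at this
  exact smul_left_injective K hv (this.symm.trans (one_smul K v).symm)

theorem xshsb_fix (ρ : Representation K H V) (L : Subgroup H) {x : H}
    (hx : ∀ l ∈ L, l * x = x * l) {v : V} (hv : v ∈ fixS ρ L) : ρ x v ∈ fixS ρ L := by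
  intro l hl
  rw [← rho_mul, hx l hl, rho_mul, hv l hl]

theorem xshsb_tr (ρ : Representation K H V) {p q : ℕ} {ν : K} (hpq : PQ p q ν) {E : Subgroup H}
    (hE : EH ρ p q E) {L : Subgroup H} (hle : L ≤ E) (hd : ∀ l ∈ L, l ∈ scal ρ → l = 1)
    (hc : ∀ l ∈ L, ∀ l' ∈ L, l * l' = l' * l) (hp : ∀ l ∈ L, l ^ p = 1) (v : V)
    (hv : ∀ l ∈ L, ∃ c : K, ρ l v = c • v) : ∃ f ∈ E, ρ f v ∈ fixS ρ L := by
  by_cases h0 : v = 0
  · exact ⟨1, E.one_mem, by rw [h0, map_zero]; exact Submodule.zero_mem _⟩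
  choose! χ hχ using hv
  have hp0 : p ≠ 0 := by rcases hpq with h | h <;> omega
  have h1 : ∀ l ∈ L, χ l ^ p = 1 := fun l hl => xshsb_root ρ (hp l hl) h0 (hχ l hl)
  obtain ⟨f, hf, h⟩ := hs_char ρ p q ν hpq E hE L hle hd (fun l => (χ l)⁻¹)
    (fun l hl => by rw [inv_pow, h1 l hl, inv_one])
    (fun l hl l' hl' => by
      rw [← mul_inv]
      refine congrArg _ (smul_left_injective K h0 ?_)
      show χ (l * l') • v = (χ l * χ l') • v
      rw [← hχ _ (L.mul_mem hl hl'), rho_mul, hχ l' hl', map_smul, hχ l hl, smul_smul, mul_comm])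
    hc
  refine ⟨f, hf, fun l hl => ?_⟩
  have h2 : χ l ≠ 0 := fun e => by
    have := h1 l hl
    rw [e, zero_pow hp0] at this
    exact zero_ne_one this
  rw [h l hl, hχ l hl, map_smul, smul_smul, inv_mul_cancel₀ h2, one_smul]

theorem xshsb_bt (ρ : Representation K H V) {p q : ℕ} {ν : K} (hpq : PQ p q ν) {E : Subgroup H}
    (hE : EH ρ p q E) {l : H} (hl : l ∈ E) (hs : l ∉ scal ρ) (hp : l ^ p = 1) (M : ℕ) :
    bt (ρ l) M = 0 := by
  obtain ⟨y, hy, hne⟩ : ∃ y ∈ E, l * y ≠ y * l := by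
    by_contra h
    push Not at h
    exact hs ((eh_pd ρ p q E hE).nd l hl h).2
  obtain ⟨k, -, hk⟩ := eh_rel ρ p q ν hpq E hE l y hl hy
  obtain ⟨tc, h1, -, -, h2⟩ := bt_smul M
  have hν : ν ≠ 0 := by rcases hpq with ⟨-, -, rfl⟩ | ⟨-, -, rfl⟩ <;> decide
  have h13 : ¬ 13 ∣ p := by rcases hpq with h | h <;> omega
  have e1 : ρ (y⁻¹ * l * y⁻¹⁻¹) = ν ^ k • ρ l := by
    ext v
    rw [inv_inv, rho_mul, rho_mul, hk, map_smul, rho_inv, LinearMap.smul_apply]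
  have e2 := bt_isConj ρ l _ (isConj_iff.2 ⟨y⁻¹, rfl⟩) M
  rw [e1, h2 V (ρ l) p h13 (by rw [← map_pow, hp, map_one]) _ (pow_ne_zero k hν)] at e2
  have e3 : IsUnit (tc (ν ^ k) - 1) := red_unit M _ (by
    rw [map_sub, map_one, h1, sub_ne_zero]
    intro e
    refine hne (hE.inj (LinearMap.ext fun v => ?_))
    rw [rho_mul, rho_mul, hk, e, one_smul])
  exact e3.mul_right_eq_zero.1 (by rw [sub_mul, ← e2, one_mul, sub_self])

theorem xshsb_dim (ρ : Representation K H V) {p q : ℕ} {ν : K} (hpq : PQ p q ν) {E : Subgroup H}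
    (hE : EH ρ p q E) {L : Subgroup H} (hle : L ≤ E) (hd : ∀ l ∈ L, l ∈ scal ρ → l = 1)
    (hp : ∀ l ∈ L, l ^ p = 1) :
    Module.finrank K V = Nat.card L * Module.finrank K (fixS ρ L) := by
  have h13 : ¬ 13 ∣ Nat.card L := by
    intro h
    obtain ⟨x, hx⟩ := exists_prime_orderOf_dvd_card' 13 h
    have : 13 ∣ p := hx ▸ orderOf_dvd_of_pow_eq_one (Subtype.ext (hp x x.2))
    rcases hpq with h | h <;> omega
  refine eq_of_cast _ _ fun M => ?_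
  have hi : ∀ v ∈ fixS ρ L, (ρ.comp L.subtype) 1 v ∈ fixS ρ L := fun v hv => by
    rw [map_one]
    exact hv
  have h := bt_TL h13 (ρ.comp L.subtype) ⊤ 1 (Subgroup.one_mem _) (fixS ρ L)
    (fun v => ⟨fun hv y _ => hv y y.2, fun hv y hy => hv ⟨y, hy⟩ (Subgroup.mem_top _)⟩) hi M
  have e : ((ρ.comp L.subtype) 1).restrict hi = 1 := by
    ext v
    simp
  rw [e, bt_one, Subgroup.card_top, finsum_eq_single _ (1 : (⊤ : Subgroup L))] at h
  · rw [Nat.cast_mul, h, ← bt_one]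
    simp
  · intro y hy
    rw [one_mul]
    exact xshsb_bt ρ hpq hE (hle y.1.2) (fun hs => hy (Subtype.ext (Subtype.ext (hd _ y.1.2 hs))))
      (hp _ y.1.2) M

end

theorem hs_rep {V : Type} [AddCommGroup V] [Module K V] [Module.Finite K V]
    {H : Type} [Group H] [Finite H] (ρ : Representation K H V) (p q : ℕ) (ν : K) (hpq : PQ p q ν) (E : Subgroup H) (hE : EH ρ p q E) (hne : (scal ρ).relIndex E ≠ 1) :
    ∃ (ζ : K) (L : Subgroup H) (X Z : H), HS ρ p ν ζ E L X Z ∧ (p = 3 → ζ = 1) := by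
  obtain ⟨L, X, Z, hle, mX, mZ, cL, cX, cZ, hd, zx, cen, sz⟩ := hs_grp ρ p q ν hpq E hE hne
  have pL : ∀ l ∈ L, l ^ p = 1 := fun l hl => hd _ (L.pow_mem hl p) (hE.pp l (hle hl))
  have tr := xshsb_tr ρ hpq hE hle hd cL pL
  have h12 : ∀ f ∈ E, f ^ 12 = 1 := fun f hf => by
    obtain ⟨k, hk⟩ : q ∣ 12 := by rcases hpq with ⟨-, rfl, -⟩ | ⟨-, rfl, -⟩ <;> norm_num
    rw [hk, pow_mul, hE.pw f hf, one_pow]
  obtain ⟨v₀, hv₀⟩ := hE.ne
  obtain ⟨v, -, hv, hv'⟩ := eig_ex ρ L cL (fun l hl => h12 l (hle hl)) ⊤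
    ((Submodule.ne_bot_iff _).2 ⟨v₀, Submodule.mem_top, hv₀⟩) fun _ _ _ _ => Submodule.mem_top
  obtain ⟨f, -, hf⟩ := tr v hv'
  obtain ⟨m, hm, hm0, hm'⟩ := eig_ex ρ (Subgroup.zpowers Z)
    (by
      rintro _ ⟨a, rfl⟩ _ ⟨b, rfl⟩
      exact (Commute.refl Z).zpow_zpow a b)
    (fun b hb => h12 b (Subgroup.zpowers_le.2 mZ hb)) (fixS ρ L)
    ((Submodule.ne_bot_iff _).2 ⟨_, hf, xshsb_ne ρ f hv⟩)
    (by
      rintro _ ⟨a, rfl⟩ u hu
      exact xshsb_fix ρ L (fun l hl => Commute.zpow_right (cZ l hl) a) hu)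
  obtain ⟨c, hc⟩ := hm' Z (Subgroup.mem_zpowers Z)
  have step : ∀ (m : V) (c : K), (m ≠ 0 ∧ m ∈ fixS ρ L ∧ ρ Z m = c • m) →
      (ρ X m ≠ 0 ∧ ρ X m ∈ fixS ρ L ∧ ρ Z (ρ X m) = (ν * c) • ρ X m) := fun m c h =>
    ⟨xshsb_ne ρ X h.1, xshsb_fix ρ L cX h.2.1, by rw [zx, h.2.2, map_smul, smul_smul]⟩
  obtain ⟨ζ, ex, hζ⟩ : ∃ ζ : K, (∃ m, m ≠ 0 ∧ m ∈ fixS ρ L ∧ ρ Z m = ζ • m) ∧
      (p = 3 → ζ = 1) := by
    rcases hpq with ⟨rfl, -, -⟩ | ⟨-, rfl, rfl⟩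
    · exact ⟨c, ⟨m, hm0, hm, hc⟩, fun h => absurd h (by norm_num)⟩
    · have h3 : c = 1 ∨ 3 * c = 1 ∨ 3 * (3 * c) = 1 := by
        have := xshsb_root ρ (hE.pw Z mZ) hm0 hc
        revert this
        generalize c = c
        revert c
        decide
      rcases h3 with h | h | h
      · exact ⟨_, ⟨m, hm0, hm, hc⟩, fun _ => h⟩
      · exact ⟨_, ⟨_, step m c ⟨hm0, hm, hc⟩⟩, fun _ => h⟩
      · exact ⟨_, ⟨_, step _ _ (step m c ⟨hm0, hm, hc⟩)⟩, fun _ => h⟩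
  exact ⟨ζ, L, X, Z, ⟨hle, mX, mZ, cL, cX, cZ, pL, zx, cen, tr, ex, sz,
    xshsb_dim ρ hpq hE hle hd pL⟩, hζ⟩

end Pool.Agent.N9181
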