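import Pool.Agent.MP_9181f8_al.S.BtS
import Pool.Agent.MP_9181f8_al.N.BtTL
import Pool.Agent.MP_9181f8_al.N.BtEig
import Pool.Agent.MP_9181f8_al.N.BtUse

namespace Pool.Agent.N9181

open scoped commutatorElement

theorem xshsqi_sq (d j : ℕ) (hd : d ∣ 12) (hj : j.Coprime d) : j * j ≡ 1 [MOD d] := by
  have key : ∀ d ∈ Finset.range 13, ∀ r ∈ Finset.range 12, d ∣ 12 → r.Coprime d →
      r * r % d = 1 % d := by decide
  have h1 : j % 12 ≡ j [MOD d] := (Nat.mod_modEq j 12).of_dvd hd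
  have h2 : (j % 12).Coprime d := by
    rw [Nat.Coprime, h1.gcd_eq]
    exact hj
  have h3 := key d (Finset.mem_range.2 (Nat.lt_succ_of_le (Nat.le_of_dvd (by norm_num) hd)))
    (j % 12) (Finset.mem_range.2 (Nat.mod_lt _ (by norm_num))) hd h2
  exact (h1.mul h1).symm.trans h3

theorem xshsqi_card : Nat.card Kˣ = 12 := by
  rw [Nat.card_eq_fintype_card, ZMod.card_units 13]

/-- the representation twisted by scalars -/
def xshsqiTw {V : Type} [AddCommGroup V] [Module K V] {H : Type} [Group H]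
    (ρ : Representation K H V) : Representation K (H × Kˣ) V where
  toFun x := (x.2 : K) • ρ x.1
  map_one' := by simp
  map_mul' x y := by
    simp only [Prod.snd_mul, Prod.fst_mul, Units.val_mul, map_mul, smul_mul_smul_comm]

theorem xshsqiTw_apply {V : Type} [AddCommGroup V] [Module K V] {H : Type} [Group H]
    (ρ : Representation K H V) (x : H × Kˣ) : xshsqiTw ρ x = (x.2 : K) • ρ x.1 := rfl

theorem hsq_tw {V : Type} [AddCommGroup V] [Module K V] [Module.Finite K V]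
    {H : Type} [Group H] [Finite H] (ρ : Representation K H V) (h13 : ¬ 13 ∣ Nat.card H) (N : ℕ) (hd : Nat.card H ∣ N)
    (hS : HSq ρ N) (P : Subgroup H) (χ : H → K) (U : Submodule K V)
    (hU : ∀ v, v ∈ U ↔ ∀ y ∈ P, ρ y v = χ y • v) (h : H) (hh : h ∈ Subgroup.normalizer (P : Set H)) (j : ℕ)
    (hj : j.Coprime N) (s s' : Module.End K U) (hs : Rs U (ρ h) s)
    (hs' : Rs U (ρ (h ^ (j * j))) s') (M : ℕ) : bt s' M = bt s M := by
  by_cases hb : U = ⊥
  · subst hb
    have e : s' = s := LinearMap.ext fun w => Subsingleton.elim _ _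
    rw [e]
  obtain ⟨u, hu, hu0⟩ := (Submodule.ne_bot_iff U).1 hb
  obtain ⟨tc, -, -, -, htc⟩ := bt_smul M
  have h13' : ¬ 13 ∣ Nat.card (H × Kˣ) := by
    rw [Nat.card_prod, xshsqi_card]
    intro e
    rcases (Nat.Prime.dvd_mul fact13.out).1 e with e | e
    · exact h13 e
    · omega
  let P' : Subgroup (H × Kˣ) := P.comap (MonoidHom.fst H Kˣ) ⊓ stabU (xshsqiTw ρ) U
  have hP' : ∀ x : H × Kˣ, x ∈ P' ↔ x.1 ∈ P ∧ ∀ w ∈ U, (x.2 : K) • ρ x.1 w = w := fun x => Iff.rfl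
  have hfix : IsFix (xshsqiTw ρ) P' U := fun v => by
    refine ⟨fun hv x hx => ((hP' x).1 hx).2 v hv, fun hv => (hU v).2 fun y hy => ?_⟩
    have hc : χ y ≠ 0 := fun e => hu0 (by
      have h1 := (hU u).1 hu y hy
      rw [e, zero_smul] at h1
      rw [← rho_inv ρ y u, h1, map_zero])
    have h2 : ((y, (Units.mk0 (χ y) hc)⁻¹) : H × Kˣ) ∈ P' := (hP' _).2 ⟨hy, fun w hw => by
      show (((Units.mk0 (χ y) hc)⁻¹ : Kˣ) : K) • ρ y w = w
      rw [(hU w).1 hw y hy, smul_smul, Units.val_inv_eq_inv_val, Units.val_mk0,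
        inv_mul_cancel₀ hc, one_smul]⟩
    have h3 : (((Units.mk0 (χ y) hc)⁻¹ : Kˣ) : K) • ρ y v = v := hv _ h2
    rw [Units.val_inv_eq_inv_val, Units.val_mk0, inv_smul_eq_iff₀ hc] at h3
    exact h3
  have hhU : ∀ w ∈ U, ρ h w ∈ U := fun w hw => hs ⟨w, hw⟩ ▸ (s ⟨w, hw⟩).2
  have hn : ((h, 1) : H × Kˣ) ∈ Subgroup.normalizer (P' : Set (H × Kˣ)) := by
    rw [← inv_mem_iff]
    refine Subgroup.mem_normalizer_fintype fun x hx => ?_
    obtain ⟨hx1, hx2⟩ := (hP' x).1 hx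
    refine (hP' _).2 ⟨?_, fun w hw => ?_⟩
    · simpa using (Subgroup.mem_normalizer_iff''.1 hh x.1).1 hx1
    · have h1 := hx2 _ (hhU w hw)
      simp only [Prod.inv_mk, Prod.snd_mul, Prod.fst_mul, inv_inv, inv_one, one_mul, mul_one]
      rw [rho_mul, rho_mul, ← map_smul, h1, rho_inv]
  have hq2 : ∀ x ∈ P', x.2 ^ Nat.card H = 1 := fun x hx => by
    have h1 := ((hP' _).1 (pow_mem hx (Nat.card H))).2 u hu
    rw [Prod.pow_fst, Prod.pow_snd, pow_card_eq_one', map_one, Module.End.one_apply] at h1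
    have h2 : (((x.2 ^ Nat.card H : Kˣ) : K) - 1) • u = 0 := by rw [sub_smul, h1, one_smul, sub_self]
    exact Units.ext (sub_eq_zero.1 ((smul_eq_zero.1 h2).resolve_right hu0))
  have hq : ∀ x ∈ P', (((h, 1) : H × Kˣ) * x) ^ Nat.card H = 1 := fun x hx => by
    refine Prod.ext ?_ ?_
    · rw [Prod.pow_fst]
      exact pow_card_eq_one'
    · rw [Prod.pow_snd, Prod.snd_mul, one_mul]
      exact hq2 x hx
  have := Fintype.ofFinite P'
  have hjj : (j * j).Coprime (Nat.card H) := ((hj.mul_left hj).coprime_dvd_right hd)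
  refine (xbtuse_unit M fun e => h13' (e.trans (Subgroup.card_subgroup_dvd_card P'))).mul_left_cancel ?_
  rw [xbtuse_TL h13' (xshsqiTw ρ) hn hfix s (fun w => by
      rw [hs w, xshsqiTw_apply]; simp) M,
    xbtuse_pow h13' (xshsqiTw ρ) hn hfix (j * j) s' (fun w => by
      rw [hs' w, xshsqiTw_apply]; simp) hq hjj Nat.card_pos.ne' M]
  refine Finset.sum_congr rfl fun x _ => ?_
  have h1 : ∀ y : H, (ρ y) ^ Nat.card H = 1 := fun y => by
    rw [← map_pow, pow_card_eq_one', map_one]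
  have h2 : x.1.2 ^ (j * j) = x.1.2 := by
    have d1 : orderOf x.1.2 ∣ 12 := xshsqi_card ▸ orderOf_dvd_natCard _
    have d2 : orderOf x.1.2 ∣ Nat.card H := orderOf_dvd_of_pow_eq_one (hq2 _ x.2)
    have d3 := xshsqi_sq _ j d1 (hj.coprime_dvd_right (d2.trans hd))
    conv_rhs => rw [← pow_one x.1.2]
    exact pow_eq_pow_iff_modEq.2 d3
  rw [xshsqiTw_apply, xshsqiTw_apply, htc V _ _ h13 (h1 _) _ (Units.ne_zero _),
    htc V _ _ h13 (h1 _) _ (Units.ne_zero _), Prod.pow_fst, Prod.pow_snd, Prod.snd_mul, one_mul, h2,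
    hS _ j hj M]

theorem hsq_top {V : Type} [AddCommGroup V] [Module K V] [Module.Finite K V]
    {H : Type} [Group H] [Finite H] (ρ : Representation K H V) (N : ℕ) (hS : HSq ρ N) : HSqOn ρ N ⊤ := by
  intro h j hj s s' hs hs' M
  rw [bt_conj Submodule.topEquiv s' (ρ (h ^ (j * j))) (fun v => hs' v) M,
    bt_conj Submodule.topEquiv s (ρ h) (fun v => hs v) M, hS h j hj M]

theorem hsq_map {V : Type} [AddCommGroup V] [Module K V] [Module.Finite K V]
    {H : Type} [Group H] [Finite H] (ρ : Representation K H V) (N : ℕ) (U : Submodule K V) (hU : HSqOn ρ N U) (g : H) :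
    HSqOn ρ N (U.map (ρ g)) := by
  intro h j hj s s' hs hs' M
  have hinj : Function.Injective (ρ g) := Function.LeftInverse.injective (rho_inv ρ g)
  let e : U ≃ₗ[K] U.map (ρ g) := Submodule.equivMapOfInjective (ρ g) hinj U
  have he : ∀ w : U, (e w : V) = ρ g w := fun _ => rfl
  have key : ∀ (x : H) (t : Module.End K (U.map (ρ g))), Rs (U.map (ρ g)) (ρ x) t →
      Rs U (ρ (g⁻¹ * x * g)) (e.symm.conj t) ∧ bt (e.symm.conj t) M = bt t M := fun x t ht => by
    have h1 : ∀ w : U, e (e.symm.conj t w) = t (e w) := fun w => by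
      simp [LinearEquiv.conj_apply]
    refine ⟨fun w => hinj ?_, bt_conj e _ _ h1 M⟩
    rw [← he, h1, ht, he, rho_mul, rho_mul, rho_inv']
  obtain ⟨a1, a2⟩ := key h s hs
  obtain ⟨b1, b2⟩ := key _ s' hs'
  rw [← a2, ← b2]
  refine hU (g⁻¹ * h * g) j hj _ _ a1 ?_ M
  have e2 : (g⁻¹ * h * g) ^ (j * j) = g⁻¹ * h ^ (j * j) * g := by
    have := conj_pow (a := g⁻¹) (b := h) (i := j * j)
    rwa [inv_inv] at this
  rwa [e2]

theorem ker_of_sq {V : Type} [AddCommGroup V] [Module K V] [Module.Finite K V]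
    {H : Type} [Group H] [Finite H] (ρ : Representation K H V) (h13 : ¬ 13 ∣ Nat.card H) (N : ℕ) (hS : HSq ρ N) (h : H) (j : ℕ)
    (hj : j.Coprime N) (g : Polynomial K) :
    Module.finrank K (LinearMap.ker (Polynomial.aeval (ρ (h ^ (j * j))) g)) =
      Module.finrank K (LinearMap.ker (Polynomial.aeval (ρ h) g)) := by
  refine eq_of_cast _ _ fun M => ?_
  obtain ⟨c, hc⟩ := bt_ker g (Nat.card H) h13 M
  have h1 : ∀ x : H, (ρ x) ^ Nat.card H = 1 := fun x => by
    rw [← map_pow, pow_card_eq_one', map_one]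
  rw [hc V _ (h1 _), hc V _ (h1 _)]
  refine Finset.sum_congr rfl fun k _ => ?_
  rw [← map_pow, ← map_pow, pow_right_comm h (j * j) k, hS (h ^ k) j hj M]

end Pool.Agent.N9181
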