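import Pool.Agent.MP_9181f8_al.S.RBound
import Pool.Agent.MP_9181f8_al.S.HSqI
import Pool.Agent.MP_9181f8_al.N.Dim

namespace Pool.Agent.N9181

open scoped commutatorElement

theorem xslam_grp {L : Type} [Field L] (r : ℕ) (hr : 0 < r) (P : L → Prop)
    (hP : ∀ x, P x → x ^ r = 1) :
    ∃ G : Subgroup (ZMod r)ˣ, ∀ u, u ∈ G ↔ ∀ x, P x → P (x ^ (u : ZMod r).val) := by
  have : NeZero r := ⟨hr.ne'⟩
  let S : Submonoid (ZMod r)ˣ :=
    { carrier := {u | ∀ x, P x → P (x ^ (u : ZMod r).val)}
      one_mem' := fun x hx => by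
        rw [Units.val_one, ZMod.val_one_eq_one_mod, ← pow_eq_pow_mod 1 (hP x hx), pow_one]
        exact hx
      mul_mem' := fun {u w} hu hw x hx => by
        rw [Units.val_mul, ZMod.val_mul, ← pow_eq_pow_mod _ (hP x hx), pow_mul]
        exact hw _ (hu x hx) }
  refine ⟨{ S with inv_mem' := fun {u} hu => ?_ }, fun u => Iff.rfl⟩
  have h1 : u⁻¹ = u ^ (orderOf u - 1) := by
    rw [inv_eq_iff_mul_eq_one, ← pow_succ', Nat.sub_add_cancel (orderOf_pos u),
      pow_orderOf_eq_one]
  show u⁻¹ ∈ S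
  rw [h1]
  exact S.pow_mem hu _

theorem xslam_conj {H : Type} [Group H] [Finite H] (A : Subgroup H) (hA : A.Normal) (a : H)
    (ha : a ∈ A) (hgen : ∀ x ∈ A, ∃ k : ℕ, a ^ k = x) (r : ℕ) (hr : orderOf a = r) :
    ∃ φ : H →* (ZMod r)ˣ, φ.ker = Subgroup.centralizer (A : Set H) ∧
      ∀ h, h * a * h⁻¹ = a ^ (φ h : ZMod r).val := by
  subst hr
  have : NeZero (orderOf a) := ⟨(orderOf_pos a).ne'⟩
  choose k hk using fun h => hgen (h * a * h⁻¹) (hA.conj_mem a ha h)
  have hf : ∀ h, h * a * h⁻¹ = a ^ ((k h : ℕ) : ZMod (orderOf a)).val := by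
    intro h
    rw [ZMod.val_natCast, pow_mod_orderOf, hk]
  have hinj : ∀ s t : ZMod (orderOf a), a ^ s.val = a ^ t.val → s = t := by
    intro s t hst
    rw [pow_eq_pow_iff_modEq, ← ZMod.natCast_eq_natCast_iff, ZMod.natCast_zmod_val,
      ZMod.natCast_zmod_val] at hst
    exact hst
  have h1 : a ^ (1 : ZMod (orderOf a)).val = a := by
    rw [ZMod.val_one_eq_one_mod, pow_mod_orderOf, pow_one]
  let f : H →* ZMod (orderOf a) :=
    { toFun := fun h => ((k h : ℕ) : ZMod (orderOf a))
      map_one' := by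
        apply hinj
        rw [← hf, h1, one_mul, inv_one, mul_one]
      map_mul' := fun h h' => by
        apply hinj
        rw [← hf, ZMod.val_mul, pow_mod_orderOf, pow_mul, ← hf, conj_pow, ← hf]
        group }
  refine ⟨f.toHomUnits, ?_, fun h => hf h⟩
  ext h
  rw [MonoidHom.mem_ker, Subgroup.mem_centralizer_iff, ← Units.val_inj, Units.val_one]
  show ((k h : ℕ) : ZMod (orderOf a)) = 1 ↔ _
  constructor
  · intro hh x hx
    obtain ⟨n, rfl⟩ := hgen x hx
    have h2 := hf h
    rw [hh, h1, mul_inv_eq_iff_eq_mul] at h2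
    exact ((show Commute h a from h2).pow_right n).symm
  · intro hh
    apply hinj
    rw [← hf, h1, ← hh a ha, mul_inv_cancel_right]

theorem xslam_card {L : Type} [Field L] (r : ℕ) (hr : 0 < r) (z : L) (hz : IsPrimitiveRoot z r)
    (E : Finset L) (G : Subgroup (ZMod r)ˣ) (hG : ∀ u ∈ G, z ^ (u : ZMod r).val ∈ E) :
    Nat.card G ≤ E.card := by
  have : NeZero r := ⟨hr.ne'⟩
  rw [← Nat.card_eq_finsetCard]
  refine Nat.card_le_card_of_injective (fun u : G => (⟨_, hG u u.2⟩ : E)) ?_
  intro u w h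
  have h1 := hz.pow_inj (ZMod.val_lt _) (ZMod.val_lt _) (congrArg Subtype.val h)
  exact Subtype.ext (Units.ext (ZMod.val_injective r h1))

theorem xslam_frob {L : Type} [Field L] [Algebra K L] (p : Polynomial K) (x : L)
    (hx : (p.map (algebraMap K L)).IsRoot x) : (p.map (algebraMap K L)).IsRoot (x ^ 13) := by
  rw [Polynomial.IsRoot.def, Polynomial.eval_map_algebraMap] at hx ⊢
  have h1 := Polynomial.aeval_algHom_apply (FiniteField.frobeniusAlgHom K L) x p
  rw [hx, map_zero, FiniteField.coe_frobeniusAlgHom, ZMod.card] at h1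
  exact h1

theorem lam {V : Type} [AddCommGroup V] [Module K V] [Module.Finite K V]
    {H : Type} [Group H] [Finite H] (ρ : Representation K H V) (N : ℕ) (A F : Subgroup H) (hG : GB ρ N A F) (e : ℕ) (he : A.relIndex F = e ^ 2) : ∃ g : ℕ, LamD A (Module.finrank K V) e g := by
  classical
  have h13 := hG.cop
  have hP := hG.sd.toPD
  obtain ⟨M, _, _, _, τ, hd, hk, h1, hc⟩ := exists_bc ρ (AlgebraicClosure K)
  have hfree := xdim_free ρ A hG.free τ h1
  have hcy := hP.cyc
  obtain ⟨a0, ha0⟩ := IsCyclic.exists_monoid_generator (α := A)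
  have hord : orderOf (a0 : H) = Nat.card A := by
    rw [Subgroup.orderOf_coe]
    exact orderOf_eq_card_of_forall_mem_powers ha0
  have hgen : ∀ x ∈ A, ∃ k : ℕ, (a0 : H) ^ k = x := by
    intro x hx
    obtain ⟨k, hk⟩ := ha0 ⟨x, hx⟩
    exact ⟨k, congrArg Subtype.val hk⟩
  obtain ⟨a, haA⟩ := a0
  replace hord : orderOf a = Nat.card A := hord
  replace hgen : ∀ x ∈ A, ∃ k : ℕ, a ^ k = x := hgen
  clear ha0
  unfold LamD
  have hrH : Nat.card A ∣ Nat.card H := Subgroup.card_subgroup_dvd_card A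
  have hr0 : 0 < Nat.card A := Nat.card_pos
  generalize Nat.card A = r at hord hrH hr0 ⊢
  have : NeZero r := ⟨hr0.ne'⟩
  have hrN : r ∣ N := hrH.trans hG.dvd
  have hpow : ∀ (y : AlgebraicClosure K) (v : M), τ a v = y • v → ∀ k : ℕ,
      τ (a ^ k) v = y ^ k • v := by
    intro y v hv k
    induction k with
    | zero => simp
    | succ k ih =>
      rw [pow_succ, map_mul, Module.End.mul_apply, hv, map_smul, ih, smul_smul, pow_succ']
  have hcount := xdim_count (τ a) e (by
    intro y hy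
    have hinv : ∀ f ∈ F, ∀ w ∈ Module.End.eigenspace (τ a) y,
        τ f w ∈ Module.End.eigenspace (τ a) y := by
      intro f hf w hw
      rw [Module.End.mem_eigenspace_iff] at hw ⊢
      rw [← Module.End.mul_apply, ← map_mul, hP.cen a haA f hf, map_mul, Module.End.mul_apply,
        hw, map_smul]
    refine Nat.le_of_dvd ?_ (dimK h13 τ A F hP hfree _ hinv e he)
    rw [Nat.pos_iff_ne_zero]
    intro h0
    rw [Submodule.finrank_eq_zero] at h0
    exact hy h0)
  have hMpos : 0 < Module.finrank (AlgebraicClosure K) M := by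
    rw [hd]
    obtain ⟨v, hv⟩ := hG.ne
    exact Module.finrank_pos_iff_exists_ne_zero.2 ⟨v, hv⟩
  have : Nontrivial M := Module.finrank_pos_iff.1 hMpos
  have hprim : ∀ z, Module.End.HasEigenvalue (τ a) z → IsPrimitiveRoot z r := by
    intro z hz
    obtain ⟨v, hv⟩ := hz.exists_hasEigenvector
    have hv0 : v ≠ 0 := hv.2
    have hv1 : τ a v = z • v := hv.apply_eq_smul
    refine ⟨?_, fun l hl => ?_⟩
    · have h2 := hpow z v hv1 r
      rw [← hord, pow_orderOf_eq_one, map_one, Module.End.one_apply, hord] at h2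
      have h3 : (z ^ r - 1) • v = 0 := by rw [sub_smul, one_smul, ← h2, sub_self]
      exact sub_eq_zero.1 ((smul_eq_zero.1 h3).resolve_right hv0)
    · have h2 := hpow z v hv1 l
      rw [hl, one_smul] at h2
      rw [← hord]
      exact orderOf_dvd_of_pow_eq_one (hfree _ (A.pow_mem haA l) v hv0 h2)
  obtain ⟨G, hGm⟩ := xslam_grp r hr0 (fun x => Module.End.HasEigenvalue (τ a) x)
    fun x hx => (hprim x hx).pow_eq_one
  have hGj : ∀ (u : (ZMod r)ˣ) (j : ℕ), (j : ZMod r) = u →
      (∀ x, Module.End.HasEigenvalue (τ a) x → Module.End.HasEigenvalue (τ a) (x ^ j)) →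
      u ∈ G := by
    intro u j hj hx
    rw [hGm]
    intro x hx'
    rw [← hj, ZMod.val_natCast, ← pow_eq_pow_mod j (hprim x hx').pow_eq_one]
    exact hx x hx'
  -- squares
  have hsq : ∀ u : (ZMod r)ˣ, u * u ∈ G := by
    intro u
    obtain ⟨j, hj, hji⟩ := exists_j r N _ hrN hG.pos (ZMod.val_coe_unit_coprime u)
    have hju : (j : ZMod r) = u := by
      rw [(ZMod.natCast_eq_natCast_iff _ _ _).2 hji, ZMod.natCast_zmod_val]
    refine hGj _ (j * j) (by rw [Nat.cast_mul, hju, Units.val_mul]) ?_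
    intro z hz
    obtain ⟨v, hv⟩ := hz.exists_hasEigenvector
    have hv0 : v ≠ 0 := hv.2
    have hv1 : τ a v = z • v := hv.apply_eq_smul
    generalize hx : z ^ (j * j) = x
    have hint : IsIntegral K x := Algebra.IsIntegral.isIntegral x
    have hirr := minpoly.irreducible hint
    have hpos : 0 < Module.finrank K
        (LinearMap.ker (Polynomial.aeval (ρ (a ^ (j * j))) (minpoly K x))) := by
      rw [← hk]
      refine Module.finrank_pos_iff_exists_ne_zero.2
        ⟨⟨v, ?_⟩, fun h => hv0 (congrArg Subtype.val h)⟩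
      have hev : Module.End.HasEigenvector (τ (a ^ (j * j))) x v := by
        refine ⟨?_, hv0⟩
        rw [Module.End.mem_eigenspace_iff, hpow z v hv1 (j * j), hx]
      rw [LinearMap.mem_ker, Module.End.aeval_apply_of_hasEigenvector hev,
        Polynomial.eval_map_algebraMap, minpoly.aeval, zero_smul]
    rw [ker_of_sq ρ h13 N hG.sq a j hj] at hpos
    obtain ⟨w, hw⟩ := xdim_dvd (ρ a) _ hirr hpos
    rw [Module.End.hasEigenvalue_iff_isRoot_charpoly, hc, hw, Polynomial.IsRoot.def,
      Polynomial.eval_map_algebraMap, map_mul, minpoly.aeval, zero_mul]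
  -- the Frobenius
  have hc13 : Nat.Coprime 13 r :=
    (Nat.Prime.coprime_iff_not_dvd (by norm_num)).2 fun h => h13 (h.trans hrH)
  have hfr : ZMod.unitOfCoprime 13 hc13 ∈ G := by
    refine hGj _ 13 (ZMod.coe_unitOfCoprime 13 hc13).symm ?_
    intro z hz
    rw [Module.End.hasEigenvalue_iff_isRoot_charpoly, hc] at hz ⊢
    exact xslam_frob _ z hz
  -- conjugation
  obtain ⟨φ, hφ1, hφ2⟩ := xslam_conj A hG.sd.nA a haA hgen r hord
  have hran : φ.range ≤ G := by
    rintro _ ⟨h, rfl⟩
    rw [hGm]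
    intro z hz
    obtain ⟨v, hv⟩ := hz.exists_hasEigenvector
    have hv0 : v ≠ 0 := hv.2
    have h2 := hpow z v hv.apply_eq_smul (φ h : ZMod r).val
    rw [← hφ2] at h2
    refine Module.End.hasEigenvalue_of_hasEigenvector (x := τ h⁻¹ v) ⟨?_, fun h0 => hv0 ?_⟩
    · rw [Module.End.mem_eigenspace_iff, ← map_smul, ← h2, ← Module.End.mul_apply,
        ← Module.End.mul_apply, ← map_mul, ← map_mul]
      congr 2
      group
    · have h3 := congrArg (τ h) h0
      rwa [← Module.End.mul_apply, ← map_mul, mul_inv_cancel, map_one, map_zero] at h3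
  -- counting
  obtain ⟨z, hz⟩ := Module.End.exists_eigenvalue (τ a)
  have hcard := xslam_card r hr0 z (hprim z hz) (LinearMap.charpoly (τ a)).roots.toFinset G (by
    intro u hu
    rw [Multiset.mem_toFinset, Polynomial.mem_roots (LinearMap.charpoly_monic _).ne_zero,
      ← Module.End.hasEigenvalue_iff_isRoot_charpoly]
    exact (hGm u).1 hu z hz)
  rw [hd] at hcount
  refine ⟨Nat.card G, Nat.card_pos, (Nat.mul_le_mul_right _ hcard).trans hcount, ?_,
    rbound r hr0 hc13 G hsq hfr⟩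
  rw [← hφ1, Subgroup.index_ker]
  exact Subgroup.card_dvd_of_le hran

end Pool.Agent.N9181
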