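import Pool.Agent.MP_9181f8_al.S.BbB
import Pool.Agent.MP_9181f8_al.S.EHb
import Pool.Agent.MP_9181f8_al.S.HSb
import Pool.Agent.MP_9181f8_al.S.Lam

namespace Pool.Agent.N9181

open scoped commutatorElement

theorem xsbasemb_fac (e : ℕ) (he : 0 < e) (hp : ∀ p : ℕ, p.Prime → p ∣ e → p ∣ 12)
    (h9 : ¬ 9 ∣ e) : ∃ a b : ℕ, b ≤ 1 ∧ e = 2 ^ a * 3 ^ b ∧ e.factorization 2 = a ∧
      e.factorization 3 = b := by
  obtain ⟨a, m, hm2, hm⟩ := Nat.exists_eq_pow_mul_and_not_dvd he.ne' 2 (by norm_num)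
  have hm0 : m ≠ 0 := by
    rintro rfl
    exact hm2 (dvd_zero 2)
  obtain ⟨b, k, hk3, hk⟩ := Nat.exists_eq_pow_mul_and_not_dvd hm0 3 (by norm_num)
  have hk1 : k = 1 := by
    by_contra hne
    obtain ⟨p, hpp, hpk⟩ := Nat.exists_prime_and_dvd hne
    have hpm : p ∣ m := hk ▸ Dvd.dvd.mul_left hpk _
    have h12 : p ∣ 12 := hp p hpp (hm ▸ Dvd.dvd.mul_left hpm _)
    have h' : p ∣ 2 ^ 2 * 3 := by simpa using h12
    rcases (Nat.Prime.dvd_mul hpp).1 h' with h | h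
    · have := (Nat.prime_dvd_prime_iff_eq hpp Nat.prime_two).1 (hpp.dvd_of_dvd_pow h)
      subst this
      exact hm2 hpm
    · have := (Nat.prime_dvd_prime_iff_eq hpp Nat.prime_three).1 h
      subst this
      exact hk3 hpk
  subst hk1
  rw [mul_one] at hk
  subst hk
  have hb : b ≤ 1 := by
    by_contra hb
    apply h9
    rw [hm]
    have : 3 ^ 2 ∣ 3 ^ b := pow_dvd_pow 3 (by omega)
    exact Dvd.dvd.mul_left this _
  refine ⟨a, b, hb, hm, ?_, ?_⟩
  · rw [hm, Nat.factorization_mul (by positivity) (by positivity),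
      Nat.Prime.factorization_pow Nat.prime_two, Nat.Prime.factorization_pow Nat.prime_three]
    simp
  · rw [hm, Nat.factorization_mul (by positivity) (by positivity),
      Nat.Prime.factorization_pow Nat.prime_two, Nat.Prime.factorization_pow Nat.prime_three]
    simp

theorem xsbasemb_k3 : ∀ c : K, c ^ 3 = 1 → c = 1 ∨ (3 : K) * c = 1 ∨ (3 : K) * (3 * c) = 1 := by
  decide

/-- data for the prime three when the index is nine -/
theorem xsbasemb_e3 {V : Type} [AddCommGroup V] [Module K V] [Module.Finite K V]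
    {H : Type} [Group H] [Finite H] (ρ : Representation K H V) (E : Subgroup H)
    (hE : EH ρ 3 3 E) (h9 : (scal ρ).relIndex E = (3 ^ 1) ^ 2) :
    ∃ (L : Subgroup H) (X Z : H), HS ρ 3 3 1 E L X Z ∧ fixS ρ L = ⊤ := by
  obtain ⟨ζ, L, X, Z, hH, hζ⟩ := hs_rep ρ 3 3 3 (Or.inr ⟨rfl, rfl, rfl⟩) E hE
    (by rw [h9]; norm_num)
  obtain rfl := hζ rfl
  refine ⟨L, X, Z, hH, ?_⟩
  have h1 := hH.sz
  rw [h9] at h1
  have h2 : Nat.card L ^ 2 = 1 := by omega
  have h3 : Nat.card L = 1 := (Nat.pow_eq_one.1 h2).resolve_right (by norm_num)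
  have h4 : L = ⊥ := Subgroup.card_eq_one.1 h3
  rw [eq_top_iff]
  intro v _ y hy
  rw [h4, Subgroup.mem_bot] at hy
  rw [hy, map_one]
  rfl

theorem xsbasemb_comm {V : Type} [AddCommGroup V] [Module K V]
    {H : Type} [Group H] (ρ : Representation K H V) (f g : H) (h : f * g = g * f) (v : V) :
    ρ f (ρ g v) = ρ g (ρ f v) := by
  rw [← rho_mul, h, rho_mul]

/-- a vector of an invariant subspace fixed by `Z` -/
theorem xsbasemb_fixv {V : Type} [AddCommGroup V] [Module K V] [Module.Finite K V]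
    {H : Type} [Group H] [Finite H] (ρ : Representation K H V) (E : Subgroup H)
    (hE : EH ρ 3 3 E) (L : Subgroup H) (X Z : H) (hH : HS ρ 3 3 1 E L X Z)
    (T : Submodule K V) (hT : T ≠ ⊥) (hi : ∀ g ∈ E, ∀ v ∈ T, ρ g v ∈ T) :
    ∃ m ∈ T, m ≠ 0 ∧ ρ Z m = m := by
  have hle : Subgroup.zpowers Z ≤ E := by
    rw [Subgroup.zpowers_le]
    exact hH.mZ
  obtain ⟨v, hv, h0, hev⟩ := eig_ex ρ (Subgroup.zpowers Z)
    (by
      rintro a ⟨i, rfl⟩ b ⟨j, rfl⟩
      show Z ^ i * Z ^ j = Z ^ j * Z ^ i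
      rw [← zpow_add, ← zpow_add, add_comm])
    (fun b hb => by
      have := hE.pw b (hle hb)
      rw [show 12 = 3 * 4 by norm_num, pow_mul, this, one_pow])
    T hT (fun b hb u hu => hi b (hle hb) u hu)
  obtain ⟨c, hc⟩ := hev Z (Subgroup.mem_zpowers Z)
  have hne : ∀ w : V, w ≠ 0 → ρ X w ≠ 0 := fun w hw h => hw (by
    have := rho_inv ρ X w
    rw [h, map_zero] at this
    exact this.symm)
  have hc3 : c ^ 3 = 1 := by
    have h1 := rho_pow_eig ρ Z v c hc 3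
    rw [hE.pw Z hH.mZ, map_one] at h1
    have h2 : (c ^ 3 - 1) • v = 0 := by
      rw [sub_smul, one_smul, ← h1]
      exact sub_self _
    exact sub_eq_zero.1 ((smul_eq_zero.1 h2).resolve_right h0)
  have hx : ∀ (w : V) (d : K), ρ Z w = d • w → ρ Z (ρ X w) = (3 * d) • ρ X w := fun w d hw => by
    rw [hH.zx, hw, map_smul, smul_smul]
  rcases xsbasemb_k3 c hc3 with h | h | h
  · exact ⟨v, hv, h0, by rw [hc, h, one_smul]⟩
  · exact ⟨ρ X v, hi X hH.mX v hv, hne v h0, by rw [hx v c hc, h, one_smul]⟩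
  · exact ⟨ρ X (ρ X v), hi X hH.mX _ (hi X hH.mX v hv), hne _ (hne v h0),
      by rw [hx _ _ (hx v c hc), h, one_smul]⟩

theorem xsbasemb_t3le {V : Type} [AddCommGroup V] [Module K V]
    (X : Module.End K V) (m : V) (T : Submodule K V) (hm : m ∈ T) (hX : ∀ v ∈ T, X v ∈ T) :
    T3 X m ≤ T := by
  unfold T3
  rw [Submodule.span_le]
  rintro v (rfl | rfl | rfl)
  · exact hm
  · exact hX _ hm
  · exact hX _ (hX _ hm)

/-- the mixed case -/
theorem xsbasemb_mix {V : Type} [AddCommGroup V] [Module K V] [Module.Finite K V]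
    {H : Type} [Group H] [Finite H] (ρ : Representation K H V) (E : Subgroup H)
    (hE : EH ρ 2 4 E) (ζ : K) (L : Subgroup H) (X Z : H) (hH : HS ρ 2 (-1) ζ E L X Z)
    (T : Submodule K V) (hT : ∀ v, v ∈ T ↔ v ∈ fixS ρ L ∧ ρ Z v = ζ • v)
    (h3 : Module.finrank K T = 3) (E' : Subgroup H) (hE' : EH ρ 3 3 E')
    (h9 : (scal ρ).relIndex E' = (3 ^ 1) ^ 2) : PB1 ρ := by
  obtain ⟨L', X', Z', hH', htop⟩ := xsbasemb_e3 ρ E' hE' h9
  have hc : ∀ f ∈ E, ∀ g ∈ E', ∀ v, ρ f (ρ g v) = ρ g (ρ f v) := fun f hf g hg v =>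
    xsbasemb_comm ρ f g (eh_comm ρ E E' hE hE' f hf g hg) v
  have hfix : ∀ g ∈ E', ∀ v ∈ fixS ρ L, ρ g v ∈ fixS ρ L := fun g hg v hv y hy => by
    rw [hc y (hH.le hy) g hg, hv y hy]
  have hi : ∀ g ∈ E', ∀ v ∈ T, ρ g v ∈ T := fun g hg v hv => by
    obtain ⟨h1, h2⟩ := (hT v).1 hv
    exact (hT _).2 ⟨hfix g hg v h1, by rw [hc Z hH.mZ g hg, h2, map_smul]⟩
  have hTne : T ≠ ⊥ := by
    rintro rfl
    simp at h3
  obtain ⟨m, hm, h0, hZ⟩ := xsbasemb_fixv ρ E' hE' L' X' Z' hH' T hTne hi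
  have hall : ∀ v, v ∈ fixS ρ L' := fun v => by
    rw [htop]
    exact Submodule.mem_top
  have hle : T3 (ρ X') m ≤ T := xsbasemb_t3le _ m T hm (hi X' hH'.mX)
  have hP := hs_p3 ρ E' hE' L' X' Z' hH' m h0 hZ
  have heq : T3 (ρ X') m = T :=
    Submodule.eq_of_le_of_finrank_eq hle (by rw [p3_rank _ _ m hP, h3])
  obtain ⟨hm1, hm2⟩ := (hT m).1 hm
  obtain ⟨hw1, hw0, -⟩ := hs_sl2 ρ E hE ζ L X Z hH m hm1 h0 hm2
  have hwZ : ρ Z' (wv ρ X m) = wv ρ X m := by
    unfold wv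
    rw [map_add, map_smul, ← hc X hH.mX Z' hH'.mZ, hZ]
  have hP' := hs_p3 ρ E' hE' L' X' Z' hH' _ hw0 hwZ
  have hr : av ρ X' m ∈ T := by
    unfold av
    exact T.add_mem (T.add_mem hm (hi X' hH'.mX m hm))
      (T.smul_mem _ (hi X' hH'.mX _ (hi X' hH'.mX m hm)))
  have hr0 : av ρ X' m ≠ 0 := (hs_sla ρ E' hE' L' X' Z' hH' m (hall m) h0 hZ).2.1
  have hsw : wv ρ X (av ρ X' m) = av ρ X' (wv ρ X m) := by
    unfold wv av
    simp only [map_add, map_smul, hc X hH.mX X' hH'.mX, smul_add, smul_smul]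
    rw [mul_comm (3 : K) 2]
    abel
  refine bb_main ρ E hE ζ L X Z hH T hT (av ρ X' m) hr hr0 ?_ (T3 (ρ X') (wv ρ X m))
    (xsbasemb_t3le _ _ _ hw1 (hfix X' hH'.mX)) (by rw [p3_rank _ _ _ hP', h3]) ?_
  · rw [← heq]
    exact ql_th ρ E' hE' L' X' Z' hH' m (hall m) h0 hZ
  · rw [hsw]
    exact ql_th ρ E' hE' L' X' Z' hH' _ (hall _) hw0 hwZ

theorem pb_of_reg {V : Type} [AddCommGroup V] [Module K V] [Module.Finite K V]
    {H : Type} [Group H] [Finite H] (ρ : Representation K H V) (r : V) (h0 : r ≠ 0) (h : Th ρ ⊤ r) : PB1 ρ := by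
  have hp : 0 < Module.finrank K V := Module.finrank_pos_iff_exists_ne_zero.2 ⟨r, h0⟩
  refine ⟨r, 0, Module.finrank K V, h0, hp, fun k hk => ?_, fun s n hs hr => ?_,
    fun s n _ _ => ?_, fun s n hs hr _ v => h s n hs hr v Submodule.mem_top⟩
  · rw [map_zero] at hk
    exact (smul_ne_zero (by decide) h0) hk.symm
  · have hv : ∀ v, ρ s v = (3 : K) • v := fun v => h s n hs hr v Submodule.mem_top
    have h3 : Module.End.eigenspace (ρ s) 3 = ⊤ := by
      rw [eq_top_iff]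
      intro v _
      exact Module.End.mem_eigenspace_iff.2 (hv v)
    have h9 : Module.End.eigenspace (ρ s) 9 = ⊥ := by
      rw [eq_bot_iff]
      intro v hv9
      have h1 := Module.End.mem_eigenspace_iff.1 hv9
      rw [hv v] at h1
      have h2 : ((3 : K) - 9) • v = 0 := by rw [sub_smul, h1, sub_self]
      exact (smul_eq_zero.1 h2).resolve_left (by decide)
    unfold ed
    rw [h3, h9]
    simp
  · have : ed (ρ s) 9 ≤ Module.finrank K V := Submodule.finrank_le _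
    omega

theorem th_line {V : Type} [AddCommGroup V] [Module K V] [Module.Finite K V]
    {H : Type} [Group H] [Finite H] (ρ : Representation K H V) (r : V) : Th ρ (Submodule.span K {r}) r := by
  intro s n _ hr w hw
  obtain ⟨c, rfl⟩ := Submodule.mem_span_singleton.1 hw
  rw [map_smul, hr, smul_comm]

theorem baseM_b {V : Type} [AddCommGroup V] [Module K V] [Module.Finite K V]
    {H : Type} [Group H] [Finite H] (ρ : Representation K H V) (N : ℕ) (A F : Subgroup H) (hG : GB ρ N A F) (e : ℕ) (he : A.relIndex F = e ^ 2) (hd : Module.finrank K V = e) (h9 : ¬ 9 ∣ e) : PB1 ρ := by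
  obtain ⟨g, hg⟩ := lam ρ N A F hG e he
  rw [hd] at hg
  obtain ⟨e', he0, he1, -, hpr⟩ := gb_e ρ N A F hG
  have hee : e' = e := Nat.pow_left_injective (by norm_num : (2 : ℕ) ≠ 0) (he1.symm.trans he)
  subst hee
  obtain ⟨h12, -, -⟩ := gb_one ρ N A F hG e' g he0 hg
  obtain ⟨a, b, hb, hab, hfa, hfb⟩ := xsbasemb_fac e' he0
    (fun p hp hpe => (hpr p hp hpe).trans h12) h9
  obtain ⟨E, -, hE, hEi⟩ := exists_EH ρ N A F hG e' he 2 4 (Or.inl ⟨rfl, rfl⟩)
  obtain ⟨E', -, hE', hEi'⟩ := exists_EH ρ N A F hG e' he 3 3 (Or.inr ⟨rfl, rfl⟩)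
  rw [hfa] at hEi
  rw [hfb] at hEi'
  rcases a with _ | a
  · rcases Nat.le_one_iff_eq_zero_or_eq_one.1 hb with rfl | rfl
    · obtain ⟨v, hv⟩ := hG.ne
      have h1 : Module.finrank K V = 1 := by rw [hd, hab]; norm_num
      have h2 : Submodule.span K {v} = ⊤ := (finrank_eq_one_iff_of_nonzero v hv).1 h1
      exact pb_of_reg ρ v hv (h2 ▸ th_line ρ v)
    · obtain ⟨L, X, Z, hH, htop⟩ := xsbasemb_e3 ρ E' hE' hEi'
      obtain ⟨m, h0, hm, hZ⟩ := hH.ex
      rw [one_smul] at hZ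
      have h3 : Module.finrank K (fixS ρ L) = 3 := by
        rw [htop, finrank_top, hd, hab]; norm_num
      have h4 := (hs_t3 ρ E' hE' L X Z hH m hm h0 hZ).2 h3
      have h5 := ql_th ρ E' hE' L X Z hH m hm h0 hZ
      rw [h4, htop] at h5
      exact pb_of_reg ρ _ (hs_sla ρ E' hE' L X Z hH m hm h0 hZ).2.1 h5
  · have hpq : PQ 2 4 (-1) := Or.inl ⟨rfl, rfl, rfl⟩
    obtain ⟨ζ, L, X, Z, hH, -⟩ := hs_rep ρ 2 4 (-1) hpq E hE (by
      rw [hEi]
      intro h
      have h1 := (Nat.pow_eq_one.1 h).resolve_right (by norm_num)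
      have h2 := (Nat.pow_eq_one.1 h1).resolve_left (by norm_num)
      omega)
    have hL : Nat.card L = 2 ^ a := by
      have h1 := hH.sz
      rw [hEi, ← mul_pow] at h1
      have h2 := Nat.pow_left_injective (by norm_num : (2 : ℕ) ≠ 0) h1
      rw [pow_succ] at h2
      omega
    have hF : Module.finrank K (fixS ρ L) = 2 * 3 ^ b := by
      have h1 := hH.dim
      rw [hd, hab, hL, pow_succ, mul_assoc] at h1
      exact (Nat.eq_of_mul_eq_mul_left (by positivity) h1).symm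
    have hT : ∀ v, v ∈ fixS ρ L ⊓ Module.End.eigenspace (ρ Z) ζ ↔
        v ∈ fixS ρ L ∧ ρ Z v = ζ • v := fun v => by
      rw [Submodule.mem_inf, Module.End.mem_eigenspace_iff]
    generalize fixS ρ L ⊓ Module.End.eigenspace (ρ Z) ζ = T at hT
    have hTd : Module.finrank K T = 3 ^ b := by
      have h1 := (hs_dbl ρ E hE ζ L X Z hH (fixS ρ L) T
        (fun v hv => (hs_fix ρ 2 4 (-1) hpq E hE ζ L X Z hH v hv).1)
        (fun v hv => (hs_fix ρ 2 4 (-1) hpq E hE ζ L X Z hH v hv).2) hT).2.2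
      omega
    rcases Nat.le_one_iff_eq_zero_or_eq_one.1 hb with rfl | rfl
    · obtain ⟨m, h0, hm, hZ⟩ := hH.ex
      have hmT : m ∈ T := (hT m).2 ⟨hm, hZ⟩
      have h1 : Submodule.span K {m} = T :=
        Submodule.eq_of_le_of_finrank_eq ((Submodule.span_singleton_le_iff_mem m T).2 hmT)
          (by rw [finrank_span_singleton h0, hTd, pow_zero])
      obtain ⟨hw1, hw0, -⟩ := hs_sl2 ρ E hE ζ L X Z hH m hm h0 hZ
      exact bb_main ρ E hE ζ L X Z hH T hT m hmT h0 (h1 ▸ th_line ρ m)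
        (Submodule.span K {wv ρ X m}) ((Submodule.span_singleton_le_iff_mem _ _).2 hw1)
        (by rw [finrank_span_singleton hw0, hTd, pow_zero]) (th_line ρ _)
    · exact xsbasemb_mix ρ E hE ζ L X Z hH T hT (by rw [hTd, pow_one]) E' hE' hEi'

end Pool.Agent.N9181
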