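import Pool.Agent.MP_9181f8_al.S.SBasic
import Pool.Agent.MP_9181f8_al.N.Comp

namespace Pool.Agent.N9181

open scoped commutatorElement

theorem exists_proj {V : Type} [AddCommGroup V] [Module K V] [Module.Finite K V]
    {H : Type} [Group H] [Finite H] (ρ : Representation K H V) {I : Type} [Fintype I] [MulAction H I] (W : I → Submodule K V) (hB : BD ρ I W) :
    ∃ P : I → V →ₗ[K] V, (∀ i v, P i v ∈ W i) ∧ (∀ v, ∑ i, P i v = v) ∧
      (∀ i, ∀ w ∈ W i, P i w = w) ∧ (∀ i j, i ≠ j → ∀ w ∈ W j, P i w = 0) ∧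
      ∀ (h : H) (i : I) (v : V), P (h • i) (ρ h v) = ρ h (P i v) := by
  classical
  have hc : ∀ i, IsCompl (W i) (⨆ (j : I) (_ : j ≠ i), W j) := by
    intro i
    refine ⟨hB.ind i, ?_⟩
    rw [codisjoint_iff, eq_top_iff, ← hB.top]
    refine iSup_le fun j => ?_
    by_cases hj : j = i
    · subst hj
      exact le_sup_left
    · exact le_sup_of_le_right (le_iSup₂_of_le (f := fun (j : I) (_ : j ≠ i) => W j) j hj le_rfl)
  have h1 : ∀ i, ∀ w ∈ W i, (W i).projection _ (hc i) w = w := fun i w hw =>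
    Submodule.projection_apply_of_mem_left (hc i) hw
  have h2 : ∀ i j, i ≠ j → ∀ w ∈ W j, (W i).projection _ (hc i) w = 0 := fun i j hij w hw =>
    Submodule.projection_apply_of_mem_right (hc i)
      (le_iSup₂_of_le (f := fun (j : I) (_ : j ≠ i) => W j) j hij.symm le_rfl hw)
  refine ⟨fun i => (W i).projection _ (hc i), fun i v => Submodule.projection_apply_mem (hc i) v,
    fun v => ?_, h1, h2, fun h i v => ?_⟩
  · have e := ext_blocks ρ W hB (∑ i, (W i).projection _ (hc i)) 1 (fun j w hw => by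
      rw [LinearMap.sum_apply, Finset.sum_eq_single j (fun i _ hij => h2 i j hij w hw)
        (fun hj => absurd (Finset.mem_univ j) hj), h1 j w hw, Module.End.one_apply])
    have := LinearMap.congr_fun e v
    rwa [LinearMap.sum_apply, Module.End.one_apply] at this
  · have e := ext_blocks ρ W hB ((W (h • i)).projection _ (hc (h • i)) * ρ h)
      (ρ h * (W i).projection _ (hc i)) (fun j w hw => by
        rw [Module.End.mul_apply, Module.End.mul_apply]
        by_cases hij : i = j
        · subst hij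
          rw [h1 _ _ (hB.map h i w hw), h1 _ _ hw]
        · rw [h2 i j hij w hw, map_zero]
          exact h2 _ _ (fun e => hij (MulAction.injective h e)) _ (hB.map h j w hw))
    exact LinearMap.congr_fun e v

theorem comp0 {V : Type} [AddCommGroup V] [Module K V] [Module.Finite K V]
    {H : Type} [Group H] [Finite H] (ρ : Representation K H V) {I : Type} [Fintype I] [MulAction H I] (W : I → Submodule K V) (hB : BD ρ I W) (r r' : I → V) (hr : ∀ i, r i ∈ W i) (hr' : ∀ i, r' i ∈ W i)
    (t : H) (ν : K) (h : ρ t (∑ i, r i) = ν • ∑ i, r' i) : ∀ i, ρ t (r i) = ν • r' (t • i) := by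
  intro i
  obtain ⟨P, -, -, h1, h2, h3⟩ := exists_proj ρ W hB
  have key : ∀ (s : I → V), (∀ i, s i ∈ W i) → ∀ j, P j (∑ i, s i) = s j := by
    intro s hs j
    rw [map_sum, Finset.sum_eq_single j (fun i _ hij => h2 j i hij.symm _ (hs i))
      (fun hj => absurd (Finset.mem_univ j) hj), h1 j _ (hs j)]
  have e := h3 t i (∑ i, r i)
  rw [h, map_smul, key r hr, key r' hr'] at e
  exact e.symm

theorem blk_eq {V : Type} [AddCommGroup V] [Module K V] [Module.Finite K V]
    {H : Type} [Group H] [Finite H] (ρ : Representation K H V) {I : Type} [Fintype I] [MulAction H I] (W : I → Submodule K V) (hB : BD ρ I W) (i j : I) (h : H) (w : V) (hw : w ∈ W i) (h0 : w ≠ 0)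
    (hj : ρ h w ∈ W j) : h • i = j := by
  obtain ⟨P, -, -, h1, h2, -⟩ := exists_proj ρ W hB
  by_contra hne
  have e1 := h1 _ _ (hB.map h i w hw)
  rw [h2 _ _ hne _ hj] at e1
  exact xcomp_ne ρ h w h0 e1.symm

theorem pair_act {V : Type} [AddCommGroup V] [Module K V] [Module.Finite K V]
    {H : Type} [Group H] [Finite H] (ρ : Representation K H V) {I : Type} [Fintype I] [MulAction H I] (W : I → Submodule K V) (hB : BD ρ I W) (i k : I) (hik : i ≠ k) (w u w' u' : V) (hw : w ∈ W i)
    (hu : u ∈ W k) (hw' : w' ∈ W i) (hu' : u' ∈ W k) (h0 : w ≠ 0) (h0' : u ≠ 0) (g : H)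
    (h : ρ g (w + u) = w' + u') :
    (g • i = i ∧ g • k = k ∧ ρ g w = w' ∧ ρ g u = u') ∨
      (g • i = k ∧ g • k = i ∧ ρ g w = u' ∧ ρ g u = w') := by
  obtain ⟨P, -, -, h1, h2, h3⟩ := exists_proj ρ W hB
  have e1 : ρ g w = P (g • i) w' + P (g • i) u' := by
    have := h3 g i (w + u)
    rw [h, map_add, map_add, h1 i w hw, h2 i k hik u hu, add_zero] at this
    exact this.symm
  have e2 : ρ g u = P (g • k) w' + P (g • k) u' := by
    have := h3 g k (w + u)
    rw [h, map_add, map_add, h1 k u hu, h2 k i hik.symm w hw, zero_add] at this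
    exact this.symm
  have hne : g • i ≠ g • k := fun e => hik (MulAction.injective g e)
  have n1 := xcomp_ne ρ g w h0
  have n2 := xcomp_ne ρ g u h0'
  have c1 : g • i = i ∨ g • i = k := by
    by_contra hcon
    rw [not_or] at hcon
    rw [h2 _ _ hcon.1 _ hw', h2 _ _ hcon.2 _ hu', add_zero] at e1
    exact n1 e1
  have c2 : g • k = i ∨ g • k = k := by
    by_contra hcon
    rw [not_or] at hcon
    rw [h2 _ _ hcon.1 _ hw', h2 _ _ hcon.2 _ hu', add_zero] at e2
    exact n2 e2
  rcases c1 with c1 | c1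
  · rcases c2 with c2 | c2
    · exact absurd (c1.trans c2.symm) hne
    · left
      rw [c1, h1 i _ hw', h2 i k hik _ hu', add_zero] at e1
      rw [c2, h1 k _ hu', h2 k i hik.symm _ hw', zero_add] at e2
      exact ⟨c1, c2, e1, e2⟩
  · rcases c2 with c2 | c2
    · right
      rw [c1, h1 k _ hu', h2 k i hik.symm _ hw', zero_add] at e1
      rw [c2, h1 i _ hw', h2 i k hik _ hu', add_zero] at e2
      exact ⟨c1, c2, e1, e2⟩
    · exact absurd (c1.trans c2.symm) hne

theorem trans_of_irr {V : Type} [AddCommGroup V] [Module K V] [Module.Finite K V]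
    {H : Type} [Group H] [Finite H] (ρ : Representation K H V) {I : Type} [Fintype I] [MulAction H I] (W : I → Submodule K V) (hB : BD ρ I W) (hirr : Irr ρ) : MulAction.IsPretransitive H I := by
  refine ⟨fun i j => ?_⟩
  by_contra hcon
  have hinv : ∀ h : H, ∀ v ∈ (⨆ g : H, W (g • i)), ρ h v ∈ (⨆ g : H, W (g • i)) := by
    intro h
    have : (⨆ g : H, W (g • i)) ≤ (⨆ g : H, W (g • i)).comap (ρ h) := by
      refine iSup_le fun g w hw => ?_
      have := hB.map h _ w hw
      rw [← mul_smul] at this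
      exact le_iSup (fun g : H => W (g • i)) (h * g) this
    exact fun v hv => this hv
  rcases hirr.2 _ hinv with e | e
  · apply hB.ne i
    rw [eq_bot_iff, ← e]
    have := le_iSup (fun g : H => W (g • i)) 1
    rwa [one_smul] at this
  · apply hB.ne j
    have hle : (⨆ g : H, W (g • i)) ≤ ⨆ (l : I) (_ : l ≠ j), W l :=
      iSup_le fun g => le_iSup₂_of_le (f := fun (l : I) (_ : l ≠ j) => W l) (g • i)
        (fun e => hcon ⟨g, e⟩) le_rfl
    rw [e] at hle
    have hd := hB.ind j
    rw [top_le_iff.1 hle] at hd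
    exact disjoint_top.1 hd

theorem blk_map {V : Type} [AddCommGroup V] [Module K V] [Module.Finite K V]
    {H : Type} [Group H] [Finite H] (ρ : Representation K H V) {I : Type} [Fintype I] [MulAction H I] (W : I → Submodule K V) (hB : BD ρ I W) (h : H) (i : I) : (W i).map (ρ h) = W (h • i) := by
  refine le_antisymm ?_ fun w hw => ?_
  · rintro _ ⟨w, hw, rfl⟩
    exact hB.map h i w hw
  · refine ⟨ρ h⁻¹ w, ?_, rho_inv' ρ h w⟩
    have := hB.map h⁻¹ _ w hw
    rwa [inv_smul_smul] at this

end Pool.Agent.N9181
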