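import Pool.Agent.MP_9181f8_al.S.Sbd
import Pool.Agent.MP_9181f8_al.S.Proj
import Pool.Agent.MP_9181f8_al.N.Cyc

namespace Pool.Agent.N9181

open scoped commutatorElement

theorem xsbba_mul {V : Type} [AddCommGroup V] [Module K V]
    {H : Type} [Group H] (ρ : Representation K H V) (T : Submodule K V) (a b : H) :
    T.map (ρ (a * b)) = (T.map (ρ b)).map (ρ a) := by
  rw [map_mul, Module.End.mul_eq_comp, Submodule.map_comp]

theorem xsbba_one {V : Type} [AddCommGroup V] [Module K V]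
    {H : Type} [Group H] (ρ : Representation K H V) (T : Submodule K V) :
    T.map (ρ 1) = T := by
  rw [map_one, Module.End.one_eq_id, Submodule.map_id]

theorem xsbba_inv {V : Type} [AddCommGroup V] [Module K V]
    {H : Type} [Group H] (ρ : Representation K H V) (T : Submodule K V) (a : H)
    (h : T.map (ρ a) = T) : T.map (ρ a⁻¹) = T := by
  conv_lhs => rw [← h]
  rw [← xsbba_mul, inv_mul_cancel, xsbba_one]

theorem xsbba_pow {V : Type} [AddCommGroup V] [Module K V]
    {H : Type} [Group H] (ρ : Representation K H V) (T : Submodule K V) (a : H)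
    (h : T.map (ρ a) = T) (k : ℕ) : T.map (ρ (a ^ k)) = T := by
  induction k with
  | zero => rw [pow_zero, xsbba_one]
  | succ k ih => rw [pow_succ, xsbba_mul, h, ih]

/-- the stabiliser of a subspace -/
def xsbbaSt {V : Type} [AddCommGroup V] [Module K V]
    {H : Type} [Group H] (ρ : Representation K H V) (T : Submodule K V) : Subgroup H where
  carrier := {g | T.map (ρ g) = T}
  one_mem' := xsbba_one ρ T
  mul_mem' := fun {a b} (ha : T.map (ρ a) = T) (hb : T.map (ρ b) = T) => by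
    show T.map (ρ (a * b)) = T
    rw [xsbba_mul, hb, ha]
  inv_mem' := fun {a} ha => xsbba_inv ρ T a ha

theorem bb_key {V : Type} [AddCommGroup V] [Module K V] [Module.Finite K V]
    {H : Type} [Group H] [Finite H] (ρ : Representation K H V) (E : Subgroup H) (hE : E.Normal) (h2 : IsPGroup 2 E) (s : H) (n : ℕ)
    (hs : s ^ (3 ^ n) = 1) (T : Submodule K V) (hT : T.map (ρ s) = T) (f : H) (hf : f ∈ E)
    (hT' : (T.map (ρ f)).map (ρ s) = T.map (ρ f)) :
    ∃ g ∈ E, g * s = s * g ∧ T.map (ρ g) = T.map (ρ f) := by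
  classical
  have : Fact (Nat.Prime 2) := ⟨Nat.prime_two⟩
  have : Fact (Nat.Prime 3) := ⟨Nat.prime_three⟩
  let D : Type := {g : H // g ∈ E ∧ T.map (ρ g) = T.map (ρ f)}
  let e : (E ⊓ xsbbaSt ρ T : Subgroup H) ≃ D :=
    { toFun := fun x => ⟨f * x.1, E.mul_mem hf x.2.1, by
        have hx : T.map (ρ x.1) = T := x.2.2
        rw [xsbba_mul, hx]⟩
      invFun := fun g => ⟨f⁻¹ * g.1, E.mul_mem (E.inv_mem hf) g.2.1, by
        show T.map (ρ (f⁻¹ * g.1)) = T
        rw [xsbba_mul, g.2.2, ← xsbba_mul, inv_mul_cancel, xsbba_one]⟩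
      left_inv := fun x => Subtype.ext (inv_mul_cancel_left _ _)
      right_inv := fun g => Subtype.ext (mul_inv_cancel_left _ _) }
  obtain ⟨k, hk⟩ := IsPGroup.iff_card.1 (h2.to_inf_left (K := xsbbaSt ρ T))
  have hfin : Fintype D := Fintype.ofFinite D
  have hcard : Fintype.card D = 2 ^ k := by
    rw [← hk, Nat.card_congr e, Nat.card_eq_fintype_card]
  let φ : Function.End D := fun g => ⟨s * g.1 * s⁻¹, hE.conj_mem _ g.2.1 s, by
    rw [xsbba_mul, xsbba_inv ρ T s hT, xsbba_mul, g.2.2, hT']⟩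
  have hφ : ∀ (j : ℕ) (g : D), ((φ ^ j) g).1 = s ^ j * g.1 * (s ^ j)⁻¹ := by
    intro j
    induction j with
    | zero =>
      intro g
      rw [pow_zero, pow_zero, one_mul, inv_one, mul_one]
      rfl
    | succ j ih =>
      intro g
      have h1 : (φ ^ (j + 1)) g = φ ((φ ^ j) g) := by rw [pow_succ']; rfl
      rw [h1]
      show s * ((φ ^ j) g).1 * s⁻¹ = _
      rw [ih, pow_succ']
      group
  have h1 : φ ^ 3 ^ n = 1 := by
    funext g
    refine Subtype.ext ?_
    rw [hφ, hs, one_mul, inv_one, mul_one]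
    rfl
  have hm := Equiv.Perm.card_fixedPoints_modEq (f := φ) (p := 3) (n := n) h1
  have hne : Fintype.card (Function.fixedPoints φ) ≠ 0 := by
    intro h0
    rw [h0, hcard] at hm
    have h3 : 3 ∣ 2 ^ k := (Nat.modEq_zero_iff_dvd).1 hm
    have := Nat.prime_three.dvd_of_dvd_pow h3
    omega
  obtain ⟨⟨g, hg⟩⟩ := Fintype.card_pos_iff.1 (Nat.pos_of_ne_zero hne)
  have hg' : s * g.1 * s⁻¹ = g.1 := congrArg Subtype.val hg
  refine ⟨g.1, g.2.1, ?_, g.2.2⟩
  conv_lhs => rw [← hg']
  rw [inv_mul_cancel_right]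

theorem xsbba_act {V : Type} [AddCommGroup V] [Module K V] [Module.Finite K V]
    {H : Type} [Group H] [Finite H] (ρ : Representation K H V) (E : Subgroup H) (hE : E.Normal)
    (h2 : IsPGroup 2 E) (s : H) (n : ℕ)
    (hs : s ^ (3 ^ n) = 1) (T : Submodule K V) (hT : T.map (ρ s) = T) (f : H) (hf : f ∈ E)
    (hT' : (T.map (ρ f)).map (ρ s) = T.map (ρ f)) (c : K) (hc : ∀ w ∈ T, ρ s w = c • w) :
    ∀ w ∈ T.map (ρ f), ρ s w = c • w := by
  obtain ⟨g, -, hg, hgT⟩ := bb_key ρ E hE h2 s n hs T hT f hf hT'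
  rw [← hgT]
  rintro _ ⟨w, hw, rfl⟩
  rw [← rho_mul, ← hg, rho_mul, hc w hw, map_smul]

theorem bb_cyc {V : Type} [AddCommGroup V] [Module K V] [Module.Finite K V]
    {H : Type} [Group H] [Finite H] (ρ : Representation K H V) (E : Subgroup H) (hE : E.Normal) (h2 : IsPGroup 2 E) (H1 : Subgroup H)
    (s : H) (hs1 : s ∈ H1) (n : ℕ) (hs : s ^ (3 ^ n) = 1) (S : Set (Submodule K V))
    (hS : SBD (V := V) (H := H1) (ρ.comp H1.subtype) S) (T : Submodule K V) (hT : T ∈ S)
    (hsT : T.map (ρ s) = T) (htr : ∀ U ∈ S, ∃ f ∈ E, U = T.map (ρ f)) :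
    (∃ c k : ℕ, 0 < k ∧ ∀ ν : K, ν ^ 3 = 1 → ed (ρ s) ν = c + k * edOn T (ρ s) ν) ∧
      ((∀ w ∈ T, ρ s w = (3 : K) • w) → (∀ v, ρ s v = v → v = 0) → ∀ v, ρ s v = (3 : K) • v) := by
  classical
  obtain ⟨hF, hA, hsm, hB⟩ := sbd_bd (V := V) (H := H1) (ρ.comp H1.subtype) S hS
  let t : H1 := ⟨s, hs1⟩
  have ht : t ^ (3 ^ n) = 1 := Subtype.ext (by simpa using hs)
  have hsm' : ∀ (j : ℕ) (U : S), ((t ^ j • U : S) : Submodule K V) =
      (U : Submodule K V).map (ρ (s ^ j)) := fun j U => hsm (t ^ j) U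
  have hsm1 : ∀ U : S, ((t • U : S) : Submodule K V) = (U : Submodule K V).map (ρ s) :=
    fun U => hsm t U
  constructor
  · obtain ⟨c, hc, -⟩ := cyc (V := V) (H := H1) (ρ.comp H1.subtype)
      (fun U : S => (U : Submodule K V)) hB t n ht
    refine ⟨c, (Finset.univ.filter (fun i : S => t • i = i)).card, ?_, fun ν hν => ?_⟩
    · refine Finset.card_pos.2 ⟨⟨T, hT⟩, Finset.mem_filter.2 ⟨Finset.mem_univ _, ?_⟩⟩
      exact Subtype.ext ((hsm1 ⟨T, hT⟩).trans hsT)
    · have h1 : ed (ρ s) ν = c + ∑ i ∈ Finset.univ.filter (fun i : S => t • i = i),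
          edOn (i : Submodule K V) (ρ s) ν := hc ν hν
      rw [h1, ← smul_eq_mul, ← Finset.sum_const]
      congr 1
      refine Finset.sum_congr rfl fun U hU => ?_
      have hU' : (U : Submodule K V).map (ρ s) = U := by
        rw [← hsm1, (Finset.mem_filter.1 hU).2]
      obtain ⟨f, hf, hUf⟩ := htr U U.2
      rw [hUf] at hU' ⊢
      obtain ⟨g, -, hg, hgT⟩ := bb_key ρ E hE h2 s n hs T hsT f hf hU'
      have h3 := edOn_conj ρ T g s ν
      rwa [hg, mul_inv_cancel_right, hgT] at h3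
  · intro h3 h0
    obtain ⟨P, -, -, hP3, hP4, -⟩ := exists_proj (V := V) (H := H1) (ρ.comp H1.subtype)
      (fun U : S => (U : Submodule K V)) hB
    have hfix : ∀ U : S, t • U = U := by
      intro U
      by_contra hU
      have hd : MulAction.period t U ∣ 3 ^ n :=
        MulAction.pow_smul_eq_iff_period_dvd.1 (by rw [ht, one_smul])
      obtain ⟨c, -, hc⟩ := (Nat.dvd_prime_pow Nat.prime_three).1 hd
      have hc0 : c ≠ 0 := by
        rintro rfl
        apply hU
        have := (MulAction.pow_smul_eq_iff_period_dvd (n := 1) (m := t) (a := U)).2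
          (by rw [hc]; simp)
        rwa [pow_one] at this
      obtain ⟨c, rfl⟩ := Nat.exists_eq_succ_of_ne_zero hc0
      have hUm : (U : Submodule K V).map (ρ (s ^ 3 ^ (c + 1))) = U := by
        rw [← hsm', (MulAction.pow_smul_eq_iff_period_dvd (m := t) (a := U)).2 (by rw [hc])]
      obtain ⟨f, hf, hUf⟩ := htr U U.2
      have hact : ∀ w ∈ (U : Submodule K V), ρ (s ^ 3 ^ (c + 1)) w = (1 : K) • w := by
        rw [hUf] at hUm ⊢
        refine xsbba_act ρ E hE h2 (s ^ 3 ^ (c + 1)) n ?_ T (xsbba_pow ρ T s hsT _) f hf hUm 1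
          fun w hw => ?_
        · rw [← pow_mul, mul_comm, pow_mul, hs, one_pow]
        · rw [rho_pow_eig ρ s w 3 (h3 w hw), pow_succ', pow_mul,
            show (3 : K) ^ 3 = 1 by decide, one_pow]
      obtain ⟨w, hw, hw0⟩ := (Submodule.ne_bot_iff _).1 (hB.ne U)
      have hv : ρ s (∑ i ∈ Finset.range (3 ^ (c + 1)), ρ (s ^ i) w) =
          ∑ i ∈ Finset.range (3 ^ (c + 1)), ρ (s ^ i) w := by
        have e1 := Finset.sum_range_succ (fun i => ρ (s ^ i) w) (3 ^ (c + 1))
        have e2 := Finset.sum_range_succ' (fun i => ρ (s ^ i) w) (3 ^ (c + 1))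
        rw [e1, hact w hw, one_smul, pow_zero, map_one, Module.End.one_apply] at e2
        rw [map_sum, add_right_cancel e2]
        refine Finset.sum_congr rfl fun i _ => ?_
        rw [pow_succ', rho_mul]
      have hz := congrArg (P U) (h0 _ hv)
      rw [map_zero, map_sum, Finset.sum_eq_single 0] at hz
      · rw [pow_zero, map_one, Module.End.one_apply, hP3 U w hw] at hz
        exact hw0 hz
      · intro i hi hi0
        refine hP4 U (t ^ i • U) (fun h => ?_) _ (hB.map (t ^ i) U w hw)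
        have h4 := MulAction.pow_smul_eq_iff_period_dvd.1 h.symm
        rw [hc] at h4
        exact absurd (Nat.le_of_dvd (Nat.pos_of_ne_zero hi0) h4)
          (not_le.2 (Finset.mem_range.1 hi))
      · intro h
        exact absurd (Finset.mem_range.2 (by positivity)) h
    have key := ext_blocks (V := V) (H := H1) (ρ.comp H1.subtype)
      (fun U : S => (U : Submodule K V)) hB (ρ s) ((3 : K) • LinearMap.id) fun U w hw => by
        have hU' : (U : Submodule K V).map (ρ s) = U := by rw [← hsm1, hfix U]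
        obtain ⟨f, hf, hUf⟩ := htr U U.2
        have hw' : w ∈ T.map (ρ f) := hUf ▸ hw
        rw [hUf] at hU'
        exact xsbba_act ρ E hE h2 s n hs T hsT f hf hU' 3 h3 w hw'
    intro v
    rw [key]
    rfl

end Pool.Agent.N9181
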