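import Pool.Agent.MP_9181f8_al.S.SBasic

namespace Pool.Agent.N9181

open scoped commutatorElement

theorem p2_ind {V : Type} [AddCommGroup V] [Module K V] [Module.Finite K V] (X Z : Module.End K V) (ζ : K) (m : V) (h : P2 X Z ζ m) (a b : K)
    (hab : a • m + b • X m = 0) : a = 0 ∧ b = 0 := by
  have hz : ζ ≠ 0 := by
    intro h0
    have := h.z4
    rw [h0] at this
    revert this
    decide
  have h1 := congrArg Z hab
  rw [map_add, map_smul, map_smul, h.zm, h.zx, map_zero] at h1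
  have h2 : (2 * ζ * a) • m = 0 := by
    have e : (2 * ζ * a) • m = ζ • (a • m + b • X m) + (a • ζ • m + b • (-ζ) • X m) := by module
    rw [e, hab, h1, smul_zero, add_zero]
  have ha : a = 0 := by
    rcases smul_eq_zero.1 h2 with h3 | h3
    · rcases mul_eq_zero.1 h3 with h4 | h4
      · rcases mul_eq_zero.1 h4 with h5 | h5
        · exact absurd h5 (by decide)
        · exact absurd h5 hz
      · exact h4
    · exact absurd h3 h.ne
  refine ⟨ha, ?_⟩
  rw [ha, zero_smul, zero_add] at hab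
  rcases smul_eq_zero.1 hab with h3 | h3
  · exact h3
  · exfalso
    rcases h.xx with h4 | h4
    · rw [h3, map_zero] at h4
      exact h.ne h4.symm
    · rw [h3, map_zero] at h4
      exact h.ne (neg_eq_zero.1 h4.symm)

/-- first coordinate of `X ^ a * D ^ b` applied to `(x, y)` -/
def xsqmaF (e : K) (a b : ℕ) (x y : K) : K :=
  if a = 0 then x else if b = 0 then e * y else -(e * y)

/-- second coordinate of `X ^ a * D ^ b` applied to `(x, y)` -/
def xsqmaG (a b : ℕ) (x y : K) : K :=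
  if a = 0 then (if b = 0 then y else -y) else x

section

variable {V : Type} [AddCommGroup V] [Module K V] [Module.Finite K V]

theorem xsqma_inj (X Z : Module.End K V) (ζ : K) (m : V) (h : P2 X Z ζ m) (x y x' y' : K)
    (e : x • m + y • X m = x' • m + y' • X m) : x = x' ∧ y = y' := by
  have := p2_ind X Z ζ m h (x - x') (y - y') (by
    have e2 : (x - x') • m + (y - y') • X m = (x • m + y • X m) - (x' • m + y' • X m) := by module
    rw [e2, e, sub_self])
  exact ⟨sub_eq_zero.1 this.1, sub_eq_zero.1 this.2⟩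

omit [Module.Finite K V] in
theorem xsqma_eps (X Z : Module.End K V) (ζ : K) (m : V) (h : P2 X Z ζ m) :
    ∃ e : K, (e = 1 ∨ e = -1) ∧ X (X m) = e • m := by
  rcases h.xx with h1 | h1
  · exact ⟨1, Or.inl rfl, by rw [h1, one_smul]⟩
  · exact ⟨-1, Or.inr rfl, by rw [h1, neg_smul, one_smul]⟩

omit [Module.Finite K V] in
theorem xsqma_app (X Z : Module.End K V) (ζ : K) (m : V) (h : P2 X Z ζ m) (e : K)
    (he : X (X m) = e • m) (a b : ℕ) (ha : a < 2) (hb : b < 2) (x y : K) :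
    (X ^ a * Z ^ b) (x • m + y • X m) =
      (ζ ^ b * xsqmaF e a b x y) • m + (ζ ^ b * xsqmaG a b x y) • X m := by
  have hm := h.zm
  have hx := h.zx
  interval_cases a <;> interval_cases b <;>
    simp only [xsqmaF, xsqmaG, pow_zero, pow_one, one_mul, mul_one, Module.End.one_apply,
      Module.End.mul_apply, map_add, map_smul, hm, hx, he, if_true, one_ne_zero, if_false] <;>
    module

omit [Module.Finite K V] in
theorem xsqma_mem (X : Module.End K V) (m : V) (x y : K) : x • m + y • X m ∈ T2 X m :=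
  Submodule.mem_span_pair.2 ⟨x, y, rfl⟩

end

theorem xsqma_z (ζ : K) (h : ζ ^ 4 = 1) : ζ ≠ 0 := by
  intro h0
  rw [h0] at h
  revert h
  decide

theorem xsqma_fin1 : ∀ e : K, (e = 1 ∨ e = -1) → ∀ a : Fin 2, ∀ b : Fin 2, ∀ c : K,
    xsqmaF e a b 1 3 = c → xsqmaG a b 1 3 = c * 3 → (a : ℕ) = 0 ∧ (b : ℕ) = 0 := by
  decide +kernel

theorem qb_eig {V : Type} [AddCommGroup V] [Module K V] [Module.Finite K V] (X Z : Module.End K V) (ζ : K) (m : V) (h : P2 X Z ζ m) (a b : ℕ)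
    (ha : a < 2) (hb : b < 2) (c : K)
    (hc : (X ^ a * Z ^ b) (m + (3 : K) • X m) = c • (m + (3 : K) • X m)) : a = 0 ∧ b = 0 := by
  obtain ⟨e, he, hx⟩ := xsqma_eps X Z ζ m h
  have hz := pow_ne_zero b (xsqma_z ζ h.z4)
  have h1 := xsqma_app X Z ζ m h e hx a b ha hb 1 3
  rw [one_smul, hc] at h1
  have h2 : c • (m + (3 : K) • X m) = c • m + (c * 3) • X m := by module
  rw [h2] at h1
  obtain ⟨h3, h4⟩ := xsqma_inj X Z ζ m h _ _ _ _ h1
  refine xsqma_fin1 e he ⟨a, ha⟩ ⟨b, hb⟩ ((ζ ^ b)⁻¹ * c) ?_ ?_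
  · show xsqmaF e a b 1 3 = _
    rw [h3]; field_simp
  · show xsqmaG a b 1 3 = _
    rw [mul_assoc, h4]; field_simp

/-- the cube of the matrix with rows `(r, p)`, `(s, q)` is a scalar -/
def xsqmaC (r p s q : K) : Prop :=
  (r * r + p * s) * p + (r * p + p * q) * q = 0 ∧ (s * r + q * s) * r + (s * p + q * q) * s = 0 ∧
    (r * r + p * s) * r + (r * p + p * q) * s = (s * r + q * s) * p + (s * p + q * q) * q

instance (r p s q : K) : Decidable (xsqmaC r p s q) := by unfold xsqmaC; infer_instance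

set_option synthInstance.maxSize 4000 in
theorem xsqma_fin2 : ∀ e : K, (e = 1 ∨ e = -1) → ∀ p q : K, ∀ a : Fin 2, ∀ b : Fin 2, ∀ c : K,
    p = c * xsqmaF e a b (1 - 3 * p) (3 - 3 * q) → q = c * xsqmaG a b (1 - 3 * p) (3 - 3 * q) →
    e * (1 - 3 * p) = c * xsqmaF e a b p q → e * (3 - 3 * q) = c * xsqmaG a b p q →
    ∀ a' : Fin 2, ∀ b' : Fin 2, ∀ c' : K,
    1 - 3 * p = c' * xsqmaF e a' b' (1 - 3 * p) (3 - 3 * q) →
    3 - 3 * q = c' * xsqmaG a' b' (1 - 3 * p) (3 - 3 * q) →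
    -p = c' * xsqmaF e a' b' p q → -q = c' * xsqmaG a' b' p q →
    xsqmaC (1 - 3 * p) p (3 - 3 * q) q := by
  decide +kernel

theorem qb {V : Type} [AddCommGroup V] [Module K V] [Module.Finite K V] (X Z S : Module.End K V) (ζ : K) (m : V) (h : P2 X Z ζ m)
    (hP : PN 2 (T2 X m) X Z S) (n : ℕ) (hn : ¬ 3 ∣ n) (hS : S ^ n = 1) (c : K)
    (hc : S (m + (3 : K) • X m) = c • (m + (3 : K) • X m)) : S m = c • m ∧ S (X m) = c • X m := by
  obtain ⟨e, he, hx⟩ := xsqma_eps X Z ζ m h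
  have hz := xsqma_z ζ h.z4
  obtain ⟨⟨c1, a, b, ha, hb, r1⟩, c2, a', b', ha', hb', r2⟩ := hP
  have hw : m + (3 : K) • X m ≠ 0 := fun h0 =>
    one_ne_zero (p2_ind X Z ζ m h 1 3 (by rw [one_smul]; exact h0)).1
  obtain ⟨k, hk⟩ : ∃ k, S ^ (3 * k + 1) = 1 := by
    have h3 : n % 3 = 1 ∨ n % 3 = 2 := by omega
    rcases h3 with h3 | h3
    · exact ⟨n / 3, by rw [show 3 * (n / 3) + 1 = n by omega, hS]⟩
    · exact ⟨2 * (n / 3) + 1, by
        rw [show 3 * (2 * (n / 3) + 1) + 1 = n * 2 by omega, pow_mul, hS, one_pow]⟩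
  have hc0 : c ≠ 0 := by
    intro h0
    rw [h0, zero_smul] at hc
    apply hw
    have : (S ^ (3 * k + 1)) (m + (3 : K) • X m) = 0 := by
      rw [pow_succ, Module.End.mul_apply, hc, map_zero]
    rwa [hk, Module.End.one_apply] at this
  have h9 : (9 * e - 1 : K) ≠ 0 := by
    rcases he with he | he <;> rw [he] <;> decide
  obtain ⟨p, q, hq⟩ : ∃ p q : K, S (X m) = (c * p) • m + (c * q) • X m := by
    have h1 := r1 _ (xsqma_mem X m 1 3)
    rw [one_smul, hc, map_smul] at h1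
    have h2 := xsqma_app X Z ζ m h e hx a b ha hb 1 3
    rw [one_smul] at h2
    rw [h2] at h1
    have h3 : (9 * e - 1 : K) • X m = (3 * e) • (m + (3 : K) • X m) - X (m + (3 : K) • X m) := by
      rw [map_add, map_smul, hx]; module
    have h4 := congrArg S h3
    rw [map_smul, map_sub, map_smul, hc, h1] at h4
    refine ⟨(9 * e - 1)⁻¹ * (3 * e - c1 * (ζ ^ b * xsqmaF e a b 1 3)),
      (9 * e - 1)⁻¹ * (9 * e - c1 * (ζ ^ b * xsqmaG a b 1 3)), ?_⟩
    rw [← inv_smul_smul₀ h9 (S (X m)), h4]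
    module
  have hp : S m = (c * (1 - 3 * p)) • m + (c * (3 - 3 * q)) • X m := by
    have h1 : S m = S (m + (3 : K) • X m) - (3 : K) • S (X m) := by
      rw [map_add, map_smul]; abel
    rw [h1, hc, hq]; module
  have hm : m ∈ T2 X m := by simpa using xsqma_mem X m 1 0
  have hm' : X m ∈ T2 X m := by simpa using xsqma_mem X m 0 1
  have sc : ∀ (a b : ℕ), a < 2 → b < 2 → ∀ (d x y : K),
      d • (X ^ a * Z ^ b) ((c * x) • m + (c * y) • X m) =
        (c * (d * ζ ^ b * xsqmaF e a b x y)) • m + (c * (d * ζ ^ b * xsqmaG a b x y)) • X m := by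
    intro a b ha hb d x y
    have h1 : (c * x) • m + (c * y) • X m = c • (x • m + y • X m) := by module
    rw [h1, map_smul, xsqma_app X Z ζ m h e hx a b ha hb]
    module
  have e1 := r1 m hm
  rw [hp, hq, sc a b ha hb] at e1
  have e2 := r1 _ hm'
  rw [hx, map_smul, hp, hq, sc a b ha hb, smul_add, smul_smul, smul_smul] at e2
  have e3 := r2 m hm
  rw [h.zm, map_smul, hp, sc a' b' ha' hb', smul_add, smul_smul, smul_smul] at e3
  have e4 := r2 _ hm'
  rw [h.zx, map_smul, hq, sc a' b' ha' hb', smul_add, smul_smul, smul_smul] at e4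
  obtain ⟨f1, g1⟩ := xsqma_inj X Z ζ m h _ _ _ _ e1
  obtain ⟨f2, g2⟩ := xsqma_inj X Z ζ m h _ _ _ _ e2
  obtain ⟨f3, g3⟩ := xsqma_inj X Z ζ m h _ _ _ _ e3
  obtain ⟨f4, g4⟩ := xsqma_inj X Z ζ m h _ _ _ _ e4
  have hcz := mul_ne_zero hc0 hz
  have iz : ζ * ζ⁻¹ = 1 := mul_inv_cancel₀ hz
  obtain ⟨u1, u2, u3⟩ := xsqma_fin2 e he p q ⟨a, ha⟩ ⟨b, hb⟩ (c1 * ζ ^ b)
    (mul_left_cancel₀ hc0 f1) (mul_left_cancel₀ hc0 g1)
    (mul_left_cancel₀ hc0 (by linear_combination f2))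
    (mul_left_cancel₀ hc0 (by linear_combination g2)) ⟨a', ha'⟩ ⟨b', hb'⟩ (ζ⁻¹ * (c2 * ζ ^ b'))
    (mul_left_cancel₀ hcz (by
      linear_combination f3 - (c * (c2 * ζ ^ b' * xsqmaF e a' b' (1 - 3 * p) (3 - 3 * q))) * iz))
    (mul_left_cancel₀ hcz (by
      linear_combination g3 - (c * (c2 * ζ ^ b' * xsqmaG a' b' (1 - 3 * p) (3 - 3 * q))) * iz))
    (mul_left_cancel₀ hcz (by
      linear_combination f4 - (c * (c2 * ζ ^ b' * xsqmaF e a' b' p q)) * iz))
    (mul_left_cancel₀ hcz (by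
      linear_combination g4 - (c * (c2 * ζ ^ b' * xsqmaG a' b' p q)) * iz))
  obtain ⟨l, hl⟩ : ∃ l : K, l = c ^ 3 * (((1 - 3 * p) * (1 - 3 * p) + p * (3 - 3 * q)) * (1 - 3 * p) +
      ((1 - 3 * p) * p + p * q) * (3 - 3 * q)) := ⟨_, rfl⟩
  have c1m : S (S (S m)) = l • m := by
    have : S (S (S m)) = l • m + (c ^ 3 * (((3 - 3 * q) * (1 - 3 * p) + q * (3 - 3 * q)) * (1 - 3 * p) +
        ((3 - 3 * q) * p + q * q) * (3 - 3 * q))) • X m := by
      simp only [hp, hq, map_add, map_smul, hl]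
      module
    rw [this, u2, mul_zero, zero_smul, add_zero]
  have c2m : S (S (S (X m))) = l • X m := by
    have : S (S (S (X m))) = (c ^ 3 * (((1 - 3 * p) * (1 - 3 * p) + p * (3 - 3 * q)) * p +
        ((1 - 3 * p) * p + p * q) * q)) • m + (c ^ 3 * (((3 - 3 * q) * (1 - 3 * p) +
        q * (3 - 3 * q)) * p + ((3 - 3 * q) * p + q * q) * q)) • X m := by
      simp only [hp, hq, map_add, map_smul]
      module
    rw [this, u1, mul_zero, zero_smul, zero_add, ← u3, ← hl]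
  have pw : ∀ v : V, S (S (S v)) = l • v → v = l ^ k • S v := by
    intro v hv
    have h1 : ∀ j : ℕ, (S ^ (3 * j)) v = l ^ j • v := by
      intro j
      induction j with
      | zero => simp
      | succ j ih =>
        rw [show 3 * (j + 1) = 3 * j + 1 + 1 + 1 by ring, pow_succ, pow_succ, pow_succ,
          Module.End.mul_apply, Module.End.mul_apply, Module.End.mul_apply, hv, map_smul, ih,
          smul_smul, pow_succ']
    have h2 : (S ^ (3 * k + 1)) v = l ^ k • S v := by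
      rw [pow_succ', Module.End.mul_apply, h1, map_smul]
    rwa [hk, Module.End.one_apply] at h2
  have hlc : l ^ k * c = 1 := by
    have h1 := pw (m + (3 : K) • X m) (by
      rw [map_add, map_add, map_add, map_smul, map_smul, map_smul, c1m, c2m]; module)
    rw [hc, smul_smul] at h1
    have h2 : (l ^ k * c - 1) • (m + (3 : K) • X m) = 0 := by
      rw [sub_smul, ← h1, one_smul, sub_self]
    exact sub_eq_zero.1 ((smul_eq_zero.1 h2).resolve_right hw)
  have fin : ∀ v : V, S (S (S v)) = l • v → S v = c • v := by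
    intro v hv
    have h1 := congrArg (fun u => c • u) (pw v hv)
    simp only [smul_smul] at h1
    rw [h1, mul_comm, hlc, one_smul]
  exact ⟨fin m c1m, fin _ c2m⟩

set_option synthInstance.maxSize 4000 in
theorem xsqma_fin3 : ∀ e : K, (e = 1 ∨ e = -1) → ∀ a : Fin 2, ∀ b : Fin 2, ∀ c : K,
    (0 = c * xsqmaF e a b 1 0 → 1 = c * xsqmaG a b 1 0 → e = c * xsqmaF e a b 0 1 →
      (a : ℕ) = 1 ∧ (b : ℕ) = 0 ∧ c = 1) ∧
    (1 = c * xsqmaF e a b 1 0 → -1 = c * xsqmaG a b 0 1 → (a : ℕ) = 0 ∧ (b : ℕ) = 1 ∧ c = 1) := by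
  decide +kernel

theorem qb_uniq {V : Type} [AddCommGroup V] [Module K V] [Module.Finite K V] (X Z : Module.End K V) (ζ : K) (m : V) (h : P2 X Z ζ m) (a b : ℕ)
    (ha : a < 2) (hb : b < 2) (c : K) :
    ((∀ v ∈ T2 X m, X v = c • (X ^ a * Z ^ b) v) → a = 1 ∧ b = 0 ∧ c = 1) ∧
      ((∀ v ∈ T2 X m, Z v = c • (X ^ a * Z ^ b) v) → a = 0 ∧ b = 1 ∧ c = 1) := by
  obtain ⟨e, he, hx⟩ := xsqma_eps X Z ζ m h
  have hz := xsqma_z ζ h.z4
  have sc : ∀ x y : K, c • (X ^ a * Z ^ b) (x • m + y • X m) =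
      (c * ζ ^ b * xsqmaF e a b x y) • m + (c * ζ ^ b * xsqmaG a b x y) • X m := by
    intro x y
    rw [xsqma_app X Z ζ m h e hx a b ha hb]
    module
  constructor
  · intro r
    have e1 := r _ (xsqma_mem X m 1 0)
    have e2 := r _ (xsqma_mem X m 0 1)
    rw [sc] at e1 e2
    have t1 : X ((1 : K) • m + (0 : K) • X m) = (0 : K) • m + (1 : K) • X m := by simp
    have t2 : X ((0 : K) • m + (1 : K) • X m) = e • m + (0 : K) • X m := by simp [hx]
    rw [t1] at e1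
    rw [t2] at e2
    obtain ⟨f1, g1⟩ := xsqma_inj X Z ζ m h _ _ _ _ e1
    obtain ⟨f2, -⟩ := xsqma_inj X Z ζ m h _ _ _ _ e2
    obtain ⟨u1, u2, u3⟩ := (xsqma_fin3 e he ⟨a, ha⟩ ⟨b, hb⟩ (c * ζ ^ b)).1 f1 g1 f2
    have u2' : b = 0 := u2
    refine ⟨u1, u2', ?_⟩
    rwa [u2', pow_zero, mul_one] at u3
  · intro r
    have e1 := r _ (xsqma_mem X m 1 0)
    have e2 := r _ (xsqma_mem X m 0 1)
    rw [sc] at e1 e2
    have t1 : Z ((1 : K) • m + (0 : K) • X m) = ζ • m + (0 : K) • X m := by simp [h.zm]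
    have t2 : Z ((0 : K) • m + (1 : K) • X m) = (0 : K) • m + (-ζ) • X m := by simp [h.zx]
    rw [t1] at e1
    rw [t2] at e2
    obtain ⟨f1, -⟩ := xsqma_inj X Z ζ m h _ _ _ _ e1
    obtain ⟨-, g2⟩ := xsqma_inj X Z ζ m h _ _ _ _ e2
    have iz : ζ * ζ⁻¹ = 1 := mul_inv_cancel₀ hz
    obtain ⟨u1, u2, u3⟩ := (xsqma_fin3 e he ⟨a, ha⟩ ⟨b, hb⟩ (ζ⁻¹ * (c * ζ ^ b))).2
      (mul_left_cancel₀ hz (by
        linear_combination f1 - (c * ζ ^ b * xsqmaF e a b 1 0) * iz))
      (mul_left_cancel₀ hz (by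
        linear_combination g2 - (c * ζ ^ b * xsqmaG a b 0 1) * iz))
    have u2' : b = 1 := u2
    refine ⟨u1, u2', ?_⟩
    rw [u2', pow_one] at u3
    linear_combination u3 - c * iz

end Pool.Agent.N9181
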