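import Pool.Agent.MP_9181f8_al.S.QMb

namespace Pool.Agent.N9181

open scoped commutatorElement

abbrev xsqmcT : Type := K × K × K

def xsqmcX (t : xsqmcT) : xsqmcT := (t.2.2, t.1, t.2.1)

def xsqmcZ (t : xsqmcT) : xsqmcT := (t.1, 3 * t.2.1, 9 * t.2.2)

def xsqmcU (a b : ℕ) (t : xsqmcT) : xsqmcT := xsqmcX^[a] (xsqmcZ^[b] t)

def xsqmcM (c : K) (t : xsqmcT) : xsqmcT := (c * t.1, c * t.2.1, c * t.2.2)

def xsqmcA (s t : xsqmcT) : xsqmcT := (s.1 + t.1, s.2.1 + t.2.1, s.2.2 + t.2.2)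

def xsqmcW : xsqmcT := (1, 1, 2)

def xsqmcS (c : K) (a b : ℕ) (t : xsqmcT) : xsqmcT :=
  xsqmcA (xsqmcA (xsqmcM (t.2.2 - 10 * (t.1 + t.2.1 + t.2.2)) xsqmcW)
    (xsqmcM ((t.1 - 10 * (t.1 + t.2.1 + t.2.2)) * c) (xsqmcU a b xsqmcW)))
    (xsqmcM ((t.2.1 - 10 * (t.1 + t.2.1 + t.2.2)) * (c * c)) (xsqmcU a b (xsqmcU a b xsqmcW)))

def xsqmcE (i : Fin 3) : xsqmcT := (if i = 0 then 1 else 0, if i = 1 then 1 else 0,
  if i = 2 then 1 else 0)

theorem xsqmc_dne : ∀ (a b : Fin 3) (ν : K), xsqmcA (xsqmcA xsqmcW (xsqmcM ν (xsqmcU a b xsqmcW)))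
    (xsqmcM (ν ^ 2) (xsqmcU a b (xsqmcU a b xsqmcW))) = (0, 0, 0) → a = 0 ∧ b = 0 := by
  decide +kernel

theorem xsqmc_deig : ∀ (a b : Fin 3) (c : K), xsqmcU a b xsqmcW = xsqmcM c xsqmcW →
    a = 0 ∧ b = 0 := by
  decide +kernel

theorem xsqmc_dmain : ∀ (c : K) (a b : Fin 3),
    (∀ i : Fin 3, xsqmcS c a b (xsqmcX (xsqmcE i)) =
      xsqmcM c (xsqmcU a b (xsqmcS c a b (xsqmcE i)))) →
    ∀ (c' : K) (a' b' : Fin 3),
    (∀ i : Fin 3, xsqmcS c a b (xsqmcZ (xsqmcE i)) =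
      xsqmcM c' (xsqmcU a' b' (xsqmcS c a b (xsqmcE i)))) →
    ∀ i : Fin 3, xsqmcS c a b (xsqmcS c a b (xsqmcS c a b (xsqmcS c a b (xsqmcE i)))) =
      xsqmcE i := by
  decide +kernel

section

variable {V : Type} [AddCommGroup V] [Module K V]

def xsqmcL (X : Module.End K V) (m : V) (t : xsqmcT) : V :=
  t.1 • m + t.2.1 • X m + t.2.2 • X (X m)

theorem xsqmc_LA (X : Module.End K V) (m : V) (s t : xsqmcT) :
    xsqmcL X m (xsqmcA s t) = xsqmcL X m s + xsqmcL X m t := by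
  simp only [xsqmcL, xsqmcA, add_smul]
  abel

theorem xsqmc_LM (X : Module.End K V) (m : V) (c : K) (t : xsqmcT) :
    xsqmcL X m (xsqmcM c t) = c • xsqmcL X m t := by
  simp only [xsqmcL, xsqmcM, smul_add, smul_smul]

theorem xsqmc_LX {X Z : Module.End K V} {m : V} (h : P3 X Z m) (t : xsqmcT) :
    X (xsqmcL X m t) = xsqmcL X m (xsqmcX t) := by
  simp only [xsqmcL, xsqmcX, map_add, map_smul, h.xx]
  abel

theorem xsqmc_LZ {X Z : Module.End K V} {m : V} (h : P3 X Z m) (t : xsqmcT) :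
    Z (xsqmcL X m t) = xsqmcL X m (xsqmcZ t) := by
  simp only [xsqmcL, xsqmcZ, map_add, map_smul, h.zm, h.z1, h.z2, smul_smul, mul_comm]

theorem xsqmc_LXp {X Z : Module.End K V} {m : V} (h : P3 X Z m) (a : ℕ) (t : xsqmcT) :
    (X ^ a) (xsqmcL X m t) = xsqmcL X m (xsqmcX^[a] t) := by
  induction a generalizing t with
  | zero => simp
  | succ a ih =>
    rw [pow_succ, Module.End.mul_apply, xsqmc_LX h, ih, Function.iterate_succ_apply]

theorem xsqmc_LZp {X Z : Module.End K V} {m : V} (h : P3 X Z m) (a : ℕ) (t : xsqmcT) :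
    (Z ^ a) (xsqmcL X m t) = xsqmcL X m (xsqmcZ^[a] t) := by
  induction a generalizing t with
  | zero => simp
  | succ a ih =>
    rw [pow_succ, Module.End.mul_apply, xsqmc_LZ h, ih, Function.iterate_succ_apply]

theorem xsqmc_LU {X Z : Module.End K V} {m : V} (h : P3 X Z m) (a b : ℕ) (t : xsqmcT) :
    (X ^ a * Z ^ b) (xsqmcL X m t) = xsqmcL X m (xsqmcU a b t) := by
  rw [Module.End.mul_apply, xsqmc_LZp h, xsqmc_LXp h, xsqmcU]

theorem xsqmc_LW (X : Module.End K V) (m : V) :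
    xsqmcL X m xsqmcW = m + X m + (2 : K) • X (X m) := by
  simp only [xsqmcL, xsqmcW, one_smul]

theorem xsqmc_mem (X : Module.End K V) (m : V) (t : xsqmcT) : xsqmcL X m t ∈ T3 X m := by
  unfold xsqmcL T3
  refine Submodule.add_mem _ (Submodule.add_mem _ ?_ ?_) ?_ <;>
    exact Submodule.smul_mem _ _ (Submodule.subset_span (by simp))

theorem xsqmc_inj [Module.Finite K V] {X Z : Module.End K V} {m : V} (h : P3 X Z m)
    {s t : xsqmcT} (e : xsqmcL X m s = xsqmcL X m t) : s = t := by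
  have h0 : (s.1 - t.1) • m + (s.2.1 - t.2.1) • X m + (s.2.2 - t.2.2) • X (X m) = 0 := by
    have : xsqmcL X m s - xsqmcL X m t = 0 := sub_eq_zero.2 e
    rw [← this]
    simp only [xsqmcL, sub_smul]
    abel
  obtain ⟨h1, h2, h3⟩ := p3_ind X Z m h _ _ _ h0
  exact Prod.ext (sub_eq_zero.1 h1) (Prod.ext (sub_eq_zero.1 h2) (sub_eq_zero.1 h3))

theorem xsqmc_dec (t : xsqmcT) : t =
    xsqmcA (xsqmcA (xsqmcM (t.2.2 - 10 * (t.1 + t.2.1 + t.2.2)) xsqmcW)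
      (xsqmcM (t.1 - 10 * (t.1 + t.2.1 + t.2.2)) (xsqmcX xsqmcW)))
      (xsqmcM (t.2.1 - 10 * (t.1 + t.2.1 + t.2.2)) (xsqmcX (xsqmcX xsqmcW))) := by
  obtain ⟨x, y, z⟩ := t
  have h13 : (13 : K) = 0 := by decide
  simp only [xsqmcA, xsqmcM, xsqmcX, xsqmcW, Prod.mk.injEq]
  refine ⟨?_, ?_, ?_⟩
  · linear_combination (3 * (x + y + z)) * h13
  · linear_combination (3 * (x + y + z)) * h13
  · linear_combination (3 * (x + y + z)) * h13

theorem xsqmc_LS {X Z S : Module.End K V} {m : V} (h : P3 X Z m) (c1 : K) (a b : ℕ)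
    (h1 : ∀ v ∈ T3 X m, S (X v) = c1 • (X ^ a * Z ^ b) (S v)) (c : K)
    (hc : S (xsqmcL X m xsqmcW) = c • xsqmcL X m xsqmcW) (t : xsqmcT) :
    S (xsqmcL X m t) = c • xsqmcL X m (xsqmcS c1 a b t) := by
  have e1 : S (xsqmcL X m (xsqmcX xsqmcW)) = (c * c1) • xsqmcL X m (xsqmcU a b xsqmcW) := by
    rw [← xsqmc_LX h, h1 _ (xsqmc_mem X m _), hc, map_smul, xsqmc_LU h, smul_smul, mul_comm]
  have e2 : S (xsqmcL X m (xsqmcX (xsqmcX xsqmcW))) =
      (c * (c1 * c1)) • xsqmcL X m (xsqmcU a b (xsqmcU a b xsqmcW)) := by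
    rw [← xsqmc_LX h, h1 _ (xsqmc_mem X m _), e1, map_smul, xsqmc_LU h, smul_smul]
    congr 1
    ring
  conv_lhs => rw [xsqmc_dec t]
  simp only [xsqmcS, xsqmc_LA, xsqmc_LM, map_add, map_smul, hc, e1, e2, smul_add, smul_smul]
  congr 1
  · congr 1
    · rw [mul_comm]
    · congr 1
      ring
  · congr 1
    ring

end

theorem ql_ne {V : Type} [AddCommGroup V] [Module K V] [Module.Finite K V] (X Z : Module.End K V) (m : V) (h : P3 X Z m) (a b : ℕ) (ha : a < 3)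
    (hb : b < 3) (ν : K) (w : V) (hw : w = m + X m + (2 : K) • X (X m))
    (hc : w + ν • (X ^ a * Z ^ b) w + ν ^ 2 • (X ^ a * Z ^ b) ((X ^ a * Z ^ b) w) = 0) :
    a = 0 ∧ b = 0 := by
  rw [← xsqmc_LW] at hw
  subst hw
  rw [xsqmc_LU h, xsqmc_LU h, ← xsqmc_LM, ← xsqmc_LM, ← xsqmc_LA, ← xsqmc_LA] at hc
  have h0 : (0 : V) = xsqmcL X m (0, 0, 0) := by simp [xsqmcL]
  rw [h0] at hc
  obtain ⟨e1, e2⟩ := xsqmc_dne ⟨a, ha⟩ ⟨b, hb⟩ ν (xsqmc_inj h hc)
  exact ⟨congrArg Fin.val e1, congrArg Fin.val e2⟩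

theorem ql_eig {V : Type} [AddCommGroup V] [Module K V] [Module.Finite K V] (X Z : Module.End K V) (m : V) (h : P3 X Z m) (a b : ℕ) (ha : a < 3)
    (hb : b < 3) (c : K) (w : V) (hw : w = m + X m + (2 : K) • X (X m))
    (hc : (X ^ a * Z ^ b) w = c • w) : a = 0 ∧ b = 0 := by
  rw [← xsqmc_LW] at hw
  subst hw
  rw [xsqmc_LU h, ← xsqmc_LM] at hc
  obtain ⟨e1, e2⟩ := xsqmc_deig ⟨a, ha⟩ ⟨b, hb⟩ c (xsqmc_inj h hc)
  exact ⟨congrArg Fin.val e1, congrArg Fin.val e2⟩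

theorem ql {V : Type} [AddCommGroup V] [Module K V] [Module.Finite K V] (X Z S : Module.End K V) (m : V) (h : P3 X Z m)
    (hP : PN 3 (T3 X m) X Z S) (n : ℕ) (hS : S ^ (3 ^ n) = 1) (c : K) (w : V)
    (hw : w = m + X m + (2 : K) • X (X m)) (hc : S w = c • w) : ∀ v ∈ T3 X m, S v = c • v := by
  rw [← xsqmc_LW] at hw
  subst hw
  obtain ⟨⟨c1, a, b, ha, hb, h1⟩, ⟨c2, a', b', ha', hb', h2⟩⟩ := hP
  have hw0 : xsqmcL X m xsqmcW ≠ 0 := by
    intro e
    have h0 : (0 : V) = xsqmcL X m (0, 0, 0) := by simp [xsqmcL]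
    rw [h0] at e
    exact absurd (xsqmc_inj h e) (by decide)
  have hpw : ∀ k : ℕ, (S ^ k) (xsqmcL X m xsqmcW) = c ^ k • xsqmcL X m xsqmcW := by
    intro k
    induction k with
    | zero => simp
    | succ k ih => rw [pow_succ, Module.End.mul_apply, hc, map_smul, ih, smul_smul, pow_succ']
  have hcN : c ^ (3 ^ n) = 1 := by
    have e := hpw (3 ^ n)
    rw [hS, Module.End.one_apply] at e
    have e' : (c ^ (3 ^ n) - 1) • xsqmcL X m xsqmcW = 0 := by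
      rw [sub_smul, one_smul, ← e, sub_self]
    rcases smul_eq_zero.1 e' with e1 | e1
    · exact sub_eq_zero.1 e1
    · exact absurd e1 hw0
  have hc0 : c ≠ 0 := by
    rintro rfl
    rw [zero_pow (pow_ne_zero n (by norm_num))] at hcN
    exact zero_ne_one hcN
  have hL := xsqmc_LS h c1 a b h1 c hc
  have hinj : ∀ s t : xsqmcT, c • xsqmcL X m s = c • xsqmcL X m t → s = t := fun s t e =>
    xsqmc_inj h (smul_right_injective V hc0 e)
  have k4 := xsqmc_dmain c1 ⟨a, ha⟩ ⟨b, hb⟩ (fun i => by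
      apply hinj
      rw [← hL, ← xsqmc_LX h, h1 _ (xsqmc_mem X m _), hL, map_smul, xsqmc_LU h, xsqmc_LM,
        smul_comm]) c2 ⟨a', ha'⟩ ⟨b', hb'⟩ (fun i => by
      apply hinj
      rw [← hL, ← xsqmc_LZ h, h2 _ (xsqmc_mem X m _), hL, map_smul, xsqmc_LU h, xsqmc_LM,
        smul_comm])
  have s4e : ∀ i : Fin 3, (S ^ 4) (xsqmcL X m (xsqmcE i)) = c ^ 4 • xsqmcL X m (xsqmcE i) := by
    intro i
    have e : (S ^ 4) (xsqmcL X m (xsqmcE i)) = S (S (S (S (xsqmcL X m (xsqmcE i))))) := rfl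
    rw [e, hL, map_smul, map_smul, map_smul, hL, map_smul, map_smul, hL, map_smul, hL]
    have := k4 i
    simp only at this
    rw [this, smul_smul, smul_smul, smul_smul]
    congr 1
    ring
  have s4 : ∀ v ∈ T3 X m, (S ^ 4) v = c ^ 4 • v := by
    intro v hv
    have f0 := s4e 0
    have f1 := s4e 1
    have f2 := s4e 2
    have g0 : xsqmcL X m (xsqmcE 0) = m := by simp [xsqmcL, xsqmcE]
    have g1 : xsqmcL X m (xsqmcE 1) = X m := by simp [xsqmcL, xsqmcE]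
    have g2 : xsqmcL X m (xsqmcE 2) = X (X m) := by simp [xsqmcL, xsqmcE]
    rw [g0] at f0
    rw [g1] at f1
    rw [g2] at f2
    refine Submodule.span_induction (p := fun v _ => (S ^ 4) v = c ^ 4 • v) ?_ ?_ ?_ ?_ hv
    · intro x hx
      simp only [Set.mem_insert_iff, Set.mem_singleton_iff] at hx
      rcases hx with rfl | rfl | rfl
      · exact f0
      · exact f1
      · exact f2
    · simp
    · intro x y _ _ hx hy
      rw [map_add, hx, hy, smul_add]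
    · intro r x _ hx
      rw [map_smul, hx, smul_comm]
  have s4k : ∀ (k : ℕ), ∀ v ∈ T3 X m, (S ^ (4 * k)) v = c ^ (4 * k) • v := by
    intro k
    induction k with
    | zero => intro v _; simp
    | succ k ih =>
      intro v hv
      rw [Nat.mul_succ, pow_add, Module.End.mul_apply, s4 v hv, map_smul, ih v hv, smul_smul,
        ← pow_add, add_comm]
  have hmod : ∃ k : ℕ, 3 ^ n * 3 ^ n = 4 * k + 1 := by
    refine ⟨(3 ^ n * 3 ^ n) / 4, ?_⟩
    have : (3 ^ n * 3 ^ n) % 4 = 1 := by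
      rw [← mul_pow, Nat.pow_mod]
      norm_num
    omega
  obtain ⟨k, hk⟩ := hmod
  intro v hv
  have e1 : S ^ (4 * k + 1) = 1 := by rw [← hk, pow_mul, hS, one_pow]
  have e2 : c ^ (4 * k + 1) = 1 := by rw [← hk, pow_mul, hcN, one_pow]
  have e3 : v = c ^ (4 * k) • S v := by
    have : (S ^ (4 * k + 1)) v = v := by rw [e1, Module.End.one_apply]
    rw [pow_succ', Module.End.mul_apply, s4k k v hv, map_smul] at this
    exact this.symm
  calc S v = c ^ (4 * k + 1) • S v := by rw [e2, one_smul]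
    _ = c • c ^ (4 * k) • S v := by rw [smul_smul, pow_succ']
    _ = c • v := by rw [← e3]

end Pool.Agent.N9181
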