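import Pool.Agent.MP_9181f8_al.S.HSu
import Pool.Agent.MP_9181f8_al.S.QMa
import Pool.Agent.MP_9181f8_al.S.QMc

namespace Pool.Agent.N9181

open scoped commutatorElement

theorem xshsv_sl {V : Type} [AddCommGroup V] [Module K V] [Module.Finite K V]
    {H : Type} [Group H] [Finite H] (ρ : Representation K H V) (p q : ℕ) (ν : K) (hpq : PQ p q ν)
    (E : Subgroup H) (hE : EH ρ p q E) (ζ : K) (L : Subgroup H) (X Z : H)
    (hH : HS ρ p ν ζ E L X Z) (w : V) (hw : w ∈ fixS ρ L) (h0 : w ≠ 0)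
    (heig : ∀ (a b : ℕ) (c : K), a < p → b < p → (ρ X ^ a * ρ Z ^ b) w = c • w → a = 0 ∧ b = 0) :
    SL ρ E L w := by
  intro f hf c hc
  have h1 : ρ f w ∈ fixS ρ L := by
    rw [hc]
    exact Submodule.smul_mem _ _ hw
  have h2 := hs_comm ρ p q ν hpq E hE ζ L X Z hH f hf w hw h0 h1
  obtain ⟨c1, a, b, hc1, ha, hb, h3, h4⟩ := hs_cen ρ p q ν hpq E hE ζ L X Z hH f hf h2
  have h5 : (ρ X ^ a * ρ Z ^ b) w = (c1⁻¹ * c) • w := by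
    rw [mul_smul, eq_inv_smul_iff₀ hc1, ← h3 w hw, hc]
  obtain ⟨rfl, rfl⟩ := heig a b _ ha hb h5
  obtain ⟨l, hl, h6⟩ := h4 rfl rfl
  exact ⟨l, hl, c1, h6⟩

theorem xshsv_pq2 : PQ 2 4 (-1) := Or.inl ⟨rfl, rfl, rfl⟩

theorem xshsv_pq3 : PQ 3 3 3 := Or.inr ⟨rfl, rfl, rfl⟩

theorem xshsv_pow {V : Type} [AddCommGroup V] [Module K V] {H : Type} [Group H]
    (ρ : Representation K H V) (h : H) (n : ℕ) (hn : h ^ n = 1) : ρ h ^ n = 1 := by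
  rw [← map_pow, hn, map_one]

theorem xshsv_t2 {V : Type} [AddCommGroup V] [Module K V] (X S : Module.End K V) (m : V)
    (U : Submodule K V) (h1 : S m ∈ U) (h2 : S (X m) ∈ U) : ∀ v ∈ T2 X m, S v ∈ U := by
  intro v hv
  have : T2 X m ≤ U.comap S := by
    rw [T2, Submodule.span_le]
    rintro x (rfl | rfl)
    · exact h1
    · exact h2
  exact this hv

theorem xshsv_t2s {V : Type} [AddCommGroup V] [Module K V] (X S : Module.End K V) (m : V)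
    (c : K) (h1 : S m = c • m) (h2 : S (X m) = c • X m) : ∀ v ∈ T2 X m, S v = c • v := by
  intro v hv
  rw [T2, Submodule.mem_span_pair] at hv
  obtain ⟨a, b, rfl⟩ := hv
  rw [map_add, map_smul, map_smul, h1, h2, smul_add, smul_comm a c, smul_comm b c]

theorem hs_sl2 {V : Type} [AddCommGroup V] [Module K V] [Module.Finite K V]
    {H : Type} [Group H] [Finite H] (ρ : Representation K H V) (E : Subgroup H) (hE : EH ρ 2 4 E) (ζ : K) (L : Subgroup H) (X Z : H)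
    (hH : HS ρ 2 (-1) ζ E L X Z) (m : V) (hm : m ∈ fixS ρ L) (h0 : m ≠ 0) (hZ : ρ Z m = ζ • m) :
    wv ρ X m ∈ fixS ρ L ∧ wv ρ X m ≠ 0 ∧ SL ρ E L (wv ρ X m) := by
  have hP := hs_p2 ρ E hE ζ L X Z hH m h0 hZ
  have hX := (hs_fix ρ 2 4 (-1) xshsv_pq2 E hE ζ L X Z hH m hm).1
  have h1 : wv ρ X m ∈ fixS ρ L := Submodule.add_mem _ hm (Submodule.smul_mem _ _ hX)
  have h2 : wv ρ X m ≠ 0 := by
    intro h
    have := p2_ind (ρ X) (ρ Z) ζ m hP 1 3 (by rw [one_smul]; exact h)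
    exact one_ne_zero this.1
  exact ⟨h1, h2, xshsv_sl ρ 2 4 (-1) xshsv_pq2 E hE ζ L X Z hH _ h1 h2
    fun a b c ha hb hc => qb_eig (ρ X) (ρ Z) ζ m hP a b ha hb c hc⟩

theorem hs_sl3 {V : Type} [AddCommGroup V] [Module K V] [Module.Finite K V]
    {H : Type} [Group H] [Finite H] (ρ : Representation K H V) (E : Subgroup H) (hE : EH ρ 3 3 E) (L : Subgroup H) (X Z : H)
    (hH : HS ρ 3 3 1 E L X Z) (m : V) (hm : m ∈ fixS ρ L) (h0 : m ≠ 0) (hZ : ρ Z m = m) :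
    w3 ρ X m ∈ fixS ρ L ∧ w3 ρ X m ≠ 0 ∧ SL ρ E L (w3 ρ X m) := by
  have hP := hs_p3 ρ E hE L X Z hH m h0 hZ
  have hX := (hs_fix ρ 3 3 3 xshsv_pq3 E hE 1 L X Z hH m hm).1
  have h1 : w3 ρ X m ∈ fixS ρ L := Submodule.add_mem _ hm (Submodule.smul_mem _ _ hX)
  have h2 : w3 ρ X m ≠ 0 := by
    intro h
    have := p3_ind (ρ X) (ρ Z) m hP 1 2 0 (by rw [one_smul, zero_smul, add_zero]; exact h)
    exact one_ne_zero this.1
  exact ⟨h1, h2, xshsv_sl ρ 3 3 3 xshsv_pq3 E hE 1 L X Z hH _ h1 h2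
    fun a b c ha hb hc => q3_eig (ρ X) (ρ Z) m hP a b ha hb c hc⟩

theorem hs_sla {V : Type} [AddCommGroup V] [Module K V] [Module.Finite K V]
    {H : Type} [Group H] [Finite H] (ρ : Representation K H V) (E : Subgroup H) (hE : EH ρ 3 3 E) (L : Subgroup H) (X Z : H)
    (hH : HS ρ 3 3 1 E L X Z) (m : V) (hm : m ∈ fixS ρ L) (h0 : m ≠ 0) (hZ : ρ Z m = m) :
    av ρ X m ∈ fixS ρ L ∧ av ρ X m ≠ 0 ∧ SL ρ E L (av ρ X m) := by
  have hP := hs_p3 ρ E hE L X Z hH m h0 hZ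
  have hX := (hs_fix ρ 3 3 3 xshsv_pq3 E hE 1 L X Z hH m hm).1
  have hX2 := (hs_fix ρ 3 3 3 xshsv_pq3 E hE 1 L X Z hH _ hX).1
  have h1 : av ρ X m ∈ fixS ρ L :=
    Submodule.add_mem _ (Submodule.add_mem _ hm hX) (Submodule.smul_mem _ _ hX2)
  have h2 : av ρ X m ≠ 0 := by
    intro h
    have := p3_ind (ρ X) (ρ Z) m hP 1 1 2 (by rw [one_smul, one_smul]; exact h)
    exact one_ne_zero this.1
  exact ⟨h1, h2, xshsv_sl ρ 3 3 3 xshsv_pq3 E hE 1 L X Z hH _ h1 h2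
    fun a b c ha hb hc => ql_eig (ρ X) (ρ Z) m hP a b ha hb c _ rfl hc⟩

theorem hs_t3 {V : Type} [AddCommGroup V] [Module K V] [Module.Finite K V]
    {H : Type} [Group H] [Finite H] (ρ : Representation K H V) (E : Subgroup H) (hE : EH ρ 3 3 E) (L : Subgroup H) (X Z : H)
    (hH : HS ρ 3 3 1 E L X Z) (m : V) (hm : m ∈ fixS ρ L) (h0 : m ≠ 0) (hZ : ρ Z m = m) :
    T3 (ρ X) m ≤ fixS ρ L ∧ (Module.finrank K (fixS ρ L) = 3 → T3 (ρ X) m = fixS ρ L) := by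
  have hP := hs_p3 ρ E hE L X Z hH m h0 hZ
  have hX := (hs_fix ρ 3 3 3 xshsv_pq3 E hE 1 L X Z hH m hm).1
  have hX2 := (hs_fix ρ 3 3 3 xshsv_pq3 E hE 1 L X Z hH _ hX).1
  have h1 : T3 (ρ X) m ≤ fixS ρ L := by
    rw [T3, Submodule.span_le]
    rintro x (rfl | rfl | rfl)
    · exact hm
    · exact hX
    · exact hX2
  refine ⟨h1, fun h3 => Submodule.eq_of_le_of_finrank_eq h1 ?_⟩
  rw [h3, p3_rank (ρ X) (ρ Z) m hP]

theorem ql_th {V : Type} [AddCommGroup V] [Module K V] [Module.Finite K V]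
    {H : Type} [Group H] [Finite H] (ρ : Representation K H V) (E : Subgroup H) (hE : EH ρ 3 3 E) (L : Subgroup H) (X Z : H)
    (hH : HS ρ 3 3 1 E L X Z) (m : V) (hm : m ∈ fixS ρ L) (h0 : m ≠ 0) (hZ : ρ Z m = m) : Th ρ (T3 (ρ X) m) (av ρ X m) := by
  intro s n hs hsa
  have hP := hs_p3 ρ E hE L X Z hH m h0 hZ
  obtain ⟨h1, h2, h3⟩ := hs_sla ρ E hE L X Z hH m hm h0 hZ
  have h4 := hs_norm ρ 3 3 3 xshsv_pq3 E hE 1 L X Z hH _ h1 h2 h3 s 3 hsa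
  have h5 := pn_mono 3 _ _ (hs_t3 ρ E hE L X Z hH m hm h0 hZ).1 _ _ _
    (hs_conj ρ 3 3 3 xshsv_pq3 E hE 1 L X Z hH s h4)
  exact ql (ρ X) (ρ Z) (ρ s) m hP h5 n (xshsv_pow ρ s _ hs) 3 _ rfl hsa

theorem h3_cen {V : Type} [AddCommGroup V] [Module K V] [Module.Finite K V]
    {H : Type} [Group H] [Finite H] (ρ : Representation K H V) (E : Subgroup H) (hE : EH ρ 3 3 E) (L : Subgroup H) (X Z : H)
    (hH : HS ρ 3 3 1 E L X Z) (m : V) (hm : m ∈ fixS ρ L) (h0 : m ≠ 0) (hZ : ρ Z m = m) (h : H) (h3 : ¬ 3 ∣ orderOf h) (c : K)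
    (hh : ρ h (w3 ρ X m) = c • w3 ρ X m) :
    h ∈ Subgroup.normalizer (L : Set H) ∧ ∀ v ∈ T3 (ρ X) m, ρ h v = c • v := by
  have hP := hs_p3 ρ E hE L X Z hH m h0 hZ
  obtain ⟨h1, h2, h3'⟩ := hs_sl3 ρ E hE L X Z hH m hm h0 hZ
  have h4 := hs_norm ρ 3 3 3 xshsv_pq3 E hE 1 L X Z hH _ h1 h2 h3' h c hh
  have h5 := pn_mono 3 _ _ (hs_t3 ρ E hE L X Z hH m hm h0 hZ).1 _ _ _
    (hs_conj ρ 3 3 3 xshsv_pq3 E hE 1 L X Z hH h h4)
  exact ⟨h4, q3 (ρ X) (ρ Z) (ρ h) m hP h5 (orderOf h) h3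
    (xshsv_pow ρ h _ (pow_orderOf_eq_one h)) c hh⟩

theorem h2_cen {V : Type} [AddCommGroup V] [Module K V] [Module.Finite K V]
    {H : Type} [Group H] [Finite H] (ρ : Representation K H V) (E : Subgroup H) (hE : EH ρ 2 4 E) (ζ : K) (L : Subgroup H) (X Z : H)
    (hH : HS ρ 2 (-1) ζ E L X Z) (m : V) (hm : m ∈ fixS ρ L) (h0 : m ≠ 0) (hZ : ρ Z m = ζ • m) (h : H) (h3 : ¬ 3 ∣ orderOf h) (c : K)
    (hh : ρ h (wv ρ X m) = c • wv ρ X m) :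
    h ∈ Subgroup.normalizer (L : Set H) ∧ ρ h m = c • m ∧
      ∀ v ∈ fixS ρ L, ρ h (ρ X v) = ρ X (ρ h v) ∧ ρ h (ρ Z v) = ρ Z (ρ h v) := by
  have hP := hs_p2 ρ E hE ζ L X Z hH m h0 hZ
  have hX := (hs_fix ρ 2 4 (-1) xshsv_pq2 E hE ζ L X Z hH m hm).1
  obtain ⟨h1, h2, h3'⟩ := hs_sl2 ρ E hE ζ L X Z hH m hm h0 hZ
  have h4 := hs_norm ρ 2 4 (-1) xshsv_pq2 E hE ζ L X Z hH _ h1 h2 h3' h c hh
  have hle : T2 (ρ X) m ≤ fixS ρ L := by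
    rw [T2, Submodule.span_le]
    rintro x (rfl | rfl)
    · exact hm
    · exact hX
  have hN := hs_conj ρ 2 4 (-1) xshsv_pq2 E hE ζ L X Z hH h h4
  obtain ⟨e1, e2⟩ := qb (ρ X) (ρ Z) (ρ h) ζ m hP (pn_mono 2 _ _ hle _ _ _ hN) (orderOf h) h3
    (xshsv_pow ρ h _ (pow_orderOf_eq_one h)) c hh
  have hc : c ≠ 0 := by
    rintro rfl
    apply h0
    have := rho_inv ρ h m
    rw [e1, zero_smul, map_zero] at this
    exact this.symm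
  have hs := xshsv_t2s (ρ X) (ρ h) m c e1 e2
  have m1 : m ∈ T2 (ρ X) m := Submodule.subset_span (Or.inl rfl)
  have m2 : ρ X m ∈ T2 (ρ X) m := Submodule.subset_span (Or.inr rfl)
  have tX : ∀ v ∈ T2 (ρ X) m, ρ X v ∈ T2 (ρ X) m := by
    refine xshsv_t2 (ρ X) (ρ X) m _ m2 ?_
    rcases hP.xx with e | e
    · rw [e]; exact m1
    · rw [e]; exact Submodule.neg_mem _ m1
  have tZ : ∀ v ∈ T2 (ρ X) m, ρ Z v ∈ T2 (ρ X) m := by
    refine xshsv_t2 (ρ X) (ρ Z) m _ ?_ ?_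
    · rw [hP.zm]; exact Submodule.smul_mem _ _ m1
    · rw [hP.zx]; exact Submodule.smul_mem _ _ m2
  obtain ⟨⟨c1, a1, b1, ha1, hb1, r1⟩, ⟨c2, a2, b2, ha2, hb2, r2⟩⟩ := hN
  have u1 : ∀ v ∈ T2 (ρ X) m, ρ X v = c1 • (ρ X ^ a1 * ρ Z ^ b1) v := by
    intro v hv
    have := r1 v (hle hv)
    rw [hs _ (tX v hv), hs v hv, map_smul, smul_comm c1 c] at this
    exact smul_right_injective V hc this
  have u2 : ∀ v ∈ T2 (ρ X) m, ρ Z v = c2 • (ρ X ^ a2 * ρ Z ^ b2) v := by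
    intro v hv
    have := r2 v (hle hv)
    rw [hs _ (tZ v hv), hs v hv, map_smul, smul_comm c2 c] at this
    exact smul_right_injective V hc this
  obtain ⟨rfl, rfl, rfl⟩ := (qb_uniq (ρ X) (ρ Z) ζ m hP a1 b1 ha1 hb1 c1).1 u1
  obtain ⟨rfl, rfl, rfl⟩ := (qb_uniq (ρ X) (ρ Z) ζ m hP a2 b2 ha2 hb2 c2).2 u2
  refine ⟨h4, e1, fun v hv => ⟨?_, ?_⟩⟩
  · have := r1 v hv
    rwa [one_smul, pow_one, pow_zero, mul_one] at this
  · have := r2 v hv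
    rwa [one_smul, pow_one, pow_zero, one_mul] at this

end Pool.Agent.N9181
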