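import Pool.Agent.MP_9181f8_al.S.BbA
import Pool.Agent.MP_9181f8_al.S.HSv

namespace Pool.Agent.N9181

open scoped commutatorElement

theorem xsbbb_ne {V : Type} [AddCommGroup V] [Module K V] {H : Type} [Group H]
    (ρ : Representation K H V) (f : H) {v : V} (h : v ≠ 0) : ρ f v ≠ 0 := fun e =>
  h (by rw [← rho_inv ρ f v, e, map_zero])

/-- the elements having `r` as an eigenvector -/
def xsbbbR {V : Type} [AddCommGroup V] [Module K V] {H : Type} [Group H]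
    (ρ : Representation K H V) (r : V) (h0 : r ≠ 0) : Subgroup H where
  carrier := {f | ∃ c : K, ρ f r = c • r}
  one_mem' := ⟨1, by rw [map_one, one_smul]; rfl⟩
  mul_mem' := by
    rintro a b ⟨c, ha⟩ ⟨d, hb⟩
    exact ⟨d * c, by rw [rho_mul, hb, map_smul, ha, smul_smul]⟩
  inv_mem' := by
    rintro a ⟨c, ha⟩
    have hc : c ≠ 0 := fun e => xsbbb_ne ρ a h0 (by rw [ha, e, zero_smul])
    exact ⟨c⁻¹, by rw [eq_inv_smul_iff₀ hc, ← map_smul, ← ha, rho_inv]⟩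

theorem xsbbb_map {V : Type} [AddCommGroup V] [Module K V] [Module.Finite K V]
    {H : Type} [Group H] [Finite H] {ρ : Representation K H V} {p q : ℕ} {ν : K} (hpq : PQ p q ν)
    {E : Subgroup H} (hE : EH ρ p q E) {B : Subgroup H} (hB : B ≤ E) {f : H} (hf : f ∈ E)
    {U : Submodule K V} (hU : U ∈ eigS ρ B) : U.map (ρ f) ∈ eigS ρ B := by
  obtain ⟨hU, χ, hχ⟩ := hU
  have hν : ν ≠ 0 := by rcases hpq with ⟨-, -, rfl⟩ | ⟨-, -, rfl⟩ <;> decide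
  choose! k hk using fun b (hb : b ∈ B) => eh_rel ρ p q ν hpq E hE b f (hB hb) hf
  obtain ⟨u, hu, hu0⟩ := (Submodule.ne_bot_iff U).1 hU
  refine ⟨(Submodule.ne_bot_iff _).2 ⟨_, ⟨u, hu, rfl⟩, xsbbb_ne ρ f hu0⟩,
    fun b => ν ^ k b * χ b, fun v => ⟨?_, fun h => ⟨ρ f⁻¹ v, (hχ _).2 fun b hb => ?_, rho_inv' ρ f v⟩⟩⟩
  · rintro ⟨w, hw, rfl⟩ b hb
    rw [(hk b hb).2, (hχ w).1 hw b hb, map_smul, smul_smul]
  · have h1 := (hk b hb).2 (ρ f⁻¹ v)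
    rw [rho_inv', h b hb, mul_smul] at h1
    rw [← map_smul, smul_right_injective V (pow_ne_zero _ hν) h1, rho_inv]

theorem xsbbb_tr {V : Type} [AddCommGroup V] [Module K V] [Module.Finite K V]
    {H : Type} [Group H] [Finite H] {ρ : Representation K H V} {p q : ℕ} {ν : K} (hpq : PQ p q ν)
    {E : Subgroup H} (hE : EH ρ p q E) {B : Subgroup H} (hB : B ≤ E) {f : H} (hf : f ∈ E)
    {T U : Submodule K V} (hT : T ∈ eigS ρ B) (hU : U ∈ eigS ρ B) {v : V} (hv : v ∈ U)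
    (h0 : v ≠ 0) (h : ρ f v ∈ T) : ∃ g ∈ E, U = T.map (ρ g) :=
  ⟨f⁻¹, E.inv_mem hf, eig_uniq ρ B _ _ hU (xsbbb_map hpq hE hB (E.inv_mem hf) hT) v h0 hv
    ⟨_, h, rho_inv ρ f v⟩⟩

theorem xsbbb_cyc {V : Type} [AddCommGroup V] [Module K V] [Module.Finite K V]
    {H : Type} [Group H] [Finite H] {ρ : Representation K H V} {E : Subgroup H} (hE : EH ρ 2 4 E)
    {B : Subgroup H} (hc : ∀ a ∈ B, ∀ b ∈ B, a * b = b * a) (h12 : ∀ b ∈ B, b ^ 12 = 1)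
    {T : Submodule K V} (hT : T ∈ eigS ρ B) (htr : ∀ U ∈ eigS ρ B, ∃ f ∈ E, U = T.map (ρ f))
    {s : H} (hs : s ∈ Subgroup.normalizer (B : Set H)) {n : ℕ} (hn : s ^ (3 ^ n) = 1) {w : V}
    (hw : w ∈ T) (h0 : w ≠ 0) (h : ρ s w = (3 : K) • w) :
    (∃ c k : ℕ, 0 < k ∧ ed (ρ s) 3 = c + k * edOn T (ρ s) 3 ∧
      ed (ρ s) 9 = c + k * edOn T (ρ s) 9) ∧
      ((∀ w ∈ T, ρ s w = (3 : K) • w) → (∀ v, ρ s v = v → v = 0) → ∀ v, ρ s v = (3 : K) • v) := by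
  have hS := eb ρ B _ hc h12 le_rfl
  obtain ⟨⟨c, k, hk, h1⟩, h2⟩ := bb_cyc ρ E hE.nE (fun g => ⟨2, Subtype.ext (hE.pw g g.2)⟩) _ s hs
    n hn _ hS T hT (eig_uniq ρ B _ _ (hS.map ⟨s, hs⟩ T hT) hT (ρ s w) (xsbbb_ne ρ s h0)
      ⟨w, hw, rfl⟩ (h ▸ T.smul_mem _ hw)) htr
  exact ⟨⟨c, k, hk, h1 3 (by decide), h1 9 (by decide)⟩, h2⟩

theorem xsbbb_le {V : Type} [AddCommGroup V] [Module K V] [Module.Finite K V]
    {T U : Submodule K V} (hle : T ≤ U) {a : Module.End K V} {c : K} (h : ∀ w ∈ T, a w = c • w) :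
    Module.finrank K T ≤ edOn U a c :=
  Submodule.finrank_mono (le_inf hle fun w hw => Module.End.mem_eigenspace_iff.2 (h w hw))

theorem bb_hat {V : Type} [AddCommGroup V] [Module K V] [Module.Finite K V]
    {H : Type} [Group H] [Finite H] (ρ : Representation K H V) (E : Subgroup H) (hE : EH ρ 2 4 E) (ζ : K) (L : Subgroup H) (X Z : H)
    (hH : HS ρ 2 (-1) ζ E L X Z) (T : Submodule K V)
    (hT : ∀ v, v ∈ T ↔ v ∈ fixS ρ L ∧ ρ Z v = ζ • v) (r : V) (hr : r ∈ T) (h0 : r ≠ 0) :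
    ∃ D : Subgroup H, (∀ a ∈ D, ∀ b ∈ D, a * b = b * a) ∧ (∀ b ∈ D, b ^ 12 = 1) ∧
      T ∈ eigS ρ D ∧ (∀ U ∈ eigS ρ D, ∃ f ∈ E, U = T.map (ρ f)) ∧
      ∀ (s : H) (c : K), ρ s r = c • r → s ∈ Subgroup.normalizer (D : Set H) := by
  have hpq : PQ 2 4 (-1) := Or.inl ⟨rfl, rfl, rfl⟩
  obtain ⟨hr1, hr2⟩ := (hT r).1 hr
  have hD : E ⊓ xsbbbR ρ r h0 ≤ E := inf_le_left
  have hL : L ≤ E ⊓ xsbbbR ρ r h0 := fun l hl => ⟨hH.le hl, 1, by rw [hr1 l hl, one_smul]⟩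
  have hZ : Z ∈ E ⊓ xsbbbR ρ r h0 := ⟨hH.mZ, ζ, hr2⟩
  have key : ∀ f ∈ E ⊓ xsbbbR ρ r h0, ∃ c : K, ∀ v ∈ T, ρ f v = c • v := by
    rintro f ⟨hf, c, hc⟩
    obtain ⟨d, a, b, -, ha, -, h, -⟩ := hs_cen ρ 2 4 (-1) hpq E hE ζ L X Z hH f hf
      (hs_comm ρ 2 4 (-1) hpq E hE ζ L X Z hH f hf r hr1 h0 (hc ▸ Submodule.smul_mem _ c hr1))
    have h1 : ∀ v ∈ T, ρ f v = (d * ζ ^ b) • (ρ X ^ a) v := fun v hv => by
      rw [h v ((hT v).1 hv).1, Module.End.mul_apply, ← map_pow ρ Z,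
        rho_pow_eig ρ Z v ζ ((hT v).1 hv).2, map_smul, smul_smul]
    obtain rfl | rfl : a = 0 ∨ a = 1 := by omega
    · exact ⟨_, h1⟩
    · have h2 := (p2_ind _ _ ζ r (hs_p2 ρ E hE ζ L X Z hH r h0 hr2) c (-(d * ζ ^ b)) (by
        rw [← hc, h1 r hr, pow_one, neg_smul, add_neg_cancel])).1
      exact absurd (by rw [hc, h2, zero_smul]) (xsbbb_ne ρ f h0)
  choose! χ hχ using key
  have hTD : T ∈ eigS ρ (E ⊓ xsbbbR ρ r h0) := by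
    refine ⟨(Submodule.ne_bot_iff T).2 ⟨r, hr, h0⟩, χ, fun v => ⟨fun hv b hb => hχ b hb v hv,
      fun h => (hT v).2 ⟨fun l hl => ?_, ?_⟩⟩⟩
    · rw [h l (hL hl), smul_left_injective K h0
        ((hχ l (hL hl) r hr).symm.trans ((hr1 l hl).trans (one_smul K r).symm)), one_smul]
    · rw [h Z hZ, smul_left_injective K h0 ((hχ Z hZ r hr).symm.trans hr2)]
  refine ⟨E ⊓ xsbbbR ρ r h0, ?_, fun b hb => ?_, hTD, fun U hU => ?_, fun s c hs => ?_⟩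
  · rintro a ⟨ha, c, hc⟩ b ⟨hb, d, hd⟩
    obtain ⟨k, -, hk⟩ := eh_rel ρ 2 4 (-1) hpq E hE a b ha hb
    have h1 : ρ a (ρ b r) = ρ b (ρ a r) := by
      rw [hd, hc, map_smul, map_smul, hc, hd, smul_comm]
    have h2 : (-1 : K) ^ k = 1 := smul_left_injective K (xsbbb_ne ρ b (xsbbb_ne ρ a h0))
      ((hk r).symm.trans (h1.trans (one_smul K _).symm))
    exact hE.inj (LinearMap.ext fun v => by rw [rho_mul, rho_mul, hk, h2, one_smul])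
  · rw [show 12 = 4 * 3 from rfl, pow_mul, hE.pw b hb.1, one_pow]
  · obtain ⟨v, hv, hv0⟩ := (Submodule.ne_bot_iff U).1 hU.1
    obtain ⟨f, hf, hw⟩ := hH.tr v fun l hl => hU.2.elim fun ψ hψ => ⟨ψ l, (hψ v).1 hv l (hL hl)⟩
    obtain ⟨-, ψ, hψ⟩ := xsbbb_map hpq hE hD hf hU
    have h1 := (hψ _).1 ⟨v, hv, rfl⟩ Z hZ
    obtain ⟨d, -, hd⟩ := hE.pp Z hH.mZ
    have h2 : ψ Z ^ 2 = ζ ^ 2 :=
      (smul_left_injective K (xsbbb_ne ρ f hv0)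
        ((rho_pow_eig ρ Z _ _ h1 2).symm.trans (hd _))).trans
      (smul_left_injective K h0 ((hd r).symm.trans (rho_pow_eig ρ Z _ _ hr2 2)))
    rcases sq_eq_sq_iff_eq_or_eq_neg.1 h2 with h3 | h3
    · exact xsbbb_tr hpq hE hD hf hTD hU hv hv0 ((hT _).2 ⟨hw, h3 ▸ h1⟩)
    · refine xsbbb_tr hpq hE hD (E.mul_mem hH.mX hf) hTD hU hv hv0 ((hT _).2 ?_)
      rw [rho_mul, hH.zx, h1, h3, map_smul, smul_smul, neg_mul_neg, one_mul]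
      exact ⟨(hs_fix ρ 2 4 (-1) hpq E hE ζ L X Z hH _ hw).1, rfl⟩
  · have h1 : s ∈ xsbbbR ρ r h0 := ⟨c, hs⟩
    refine Subgroup.mem_normalizer_iff.2 fun b => and_congr
      ⟨fun h => hE.nE.conj_mem b h s, fun h => by simpa [mul_assoc] using hE.nE.conj_mem _ h s⁻¹⟩ ?_
    change b ∈ xsbbbR ρ r h0 ↔ s * b * s⁻¹ ∈ xsbbbR ρ r h0
    rw [mul_mem_cancel_right (inv_mem h1), mul_mem_cancel_left h1]

theorem bb_trL {V : Type} [AddCommGroup V] [Module K V] [Module.Finite K V]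
    {H : Type} [Group H] [Finite H] (ρ : Representation K H V) (p q : ℕ) (ν : K) (hpq : PQ p q ν) (E : Subgroup H) (hE : EH ρ p q E)
    (ζ : K) (L : Subgroup H) (X Z : H) (hH : HS ρ p ν ζ E L X Z) : fixS ρ L ∈ eigS ρ L ∧
    ∀ U ∈ eigS ρ L, ∃ f ∈ E, U = (fixS ρ L).map (ρ f) := by
  obtain ⟨m, h0, hm, -⟩ := hH.ex
  have h1 := fix_eigS ρ L ((Submodule.ne_bot_iff _).2 ⟨m, hm, h0⟩)
  refine ⟨h1, fun U hU => ?_⟩
  obtain ⟨v, hv, hv0⟩ := (Submodule.ne_bot_iff U).1 hU.1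
  obtain ⟨f, hf, hw⟩ := hH.tr v fun l hl => hU.2.elim fun ψ hψ => ⟨ψ l, (hψ v).1 hv l hl⟩
  exact xsbbb_tr hpq hE hH.le hf h1 hU hv hv0 hw

theorem bb_main {V : Type} [AddCommGroup V] [Module K V] [Module.Finite K V]
    {H : Type} [Group H] [Finite H] (ρ : Representation K H V) (E : Subgroup H) (hE : EH ρ 2 4 E) (ζ : K) (L : Subgroup H) (X Z : H)
    (hH : HS ρ 2 (-1) ζ E L X Z) (T : Submodule K V)
    (hT : ∀ v, v ∈ T ↔ v ∈ fixS ρ L ∧ ρ Z v = ζ • v) (r : V) (hr : r ∈ T) (h0 : r ≠ 0)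
    (h1 : Th ρ T r) (T' : Submodule K V) (hle : T' ≤ fixS ρ L)
    (hk : Module.finrank K T' = Module.finrank K T) (h2 : Th ρ T' (wv ρ X r)) : PB1 ρ := by
  have hpq : PQ 2 4 (-1) := Or.inl ⟨rfl, rfl, rfl⟩
  obtain ⟨hr1, hr2⟩ := (hT r).1 hr
  obtain ⟨D, d1, d2, d3, d4, d5⟩ := bb_hat ρ E hE ζ L X Z hH T hT r hr h0
  obtain ⟨l1, l2⟩ := bb_trL ρ 2 4 (-1) hpq E hE ζ L X Z hH
  obtain ⟨w1, w2, w3⟩ := hs_sl2 ρ E hE ζ L X Z hH r hr1 h0 hr2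
  have hp : 0 < Module.finrank K T := pos_iff_ne_zero.2 (mt Submodule.finrank_eq_zero.1 d3.1)
  refine ⟨r, wv ρ X r, _, h0, hp,
    fun k => hs_nc ρ 2 4 (-1) hpq E hE ζ L X Z hH _ w1 w2 w3 r hr1 ζ hr2 k 3, fun s n hn hs => ?_,
    fun s n hn hs => ?_,
    fun s n hn hs => (xsbbb_cyc hE d1 d2 d3 d4 (d5 s 3 hs) hn hr h0 hs).2 (h1 s n hn hs)⟩
  · obtain ⟨c, k, hk, e3, e9⟩ := (xsbbb_cyc hE d1 d2 d3 d4 (d5 s 3 hs) hn hr h0 hs).1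
    have a1 := xsbbb_le le_rfl (h1 s n hn hs)
    have a2 := ed_two T (ρ s) 3 9 (by decide)
    have a3 := Nat.le_mul_of_pos_left (edOn T (ρ s) 3) hk
    rw [e3, e9, show edOn T (ρ s) 9 = 0 by omega]
    omega
  · obtain ⟨c, k, hk, e3, e9⟩ := (xsbbb_cyc hE hH.cL
      (fun l hl => by rw [show 12 = 2 * 6 from rfl, pow_mul, hH.pL l hl, one_pow]) l1 l2
      (hs_norm ρ 2 4 (-1) hpq E hE ζ L X Z hH _ w1 w2 w3 s 3 hs) hn w1 w2 hs).1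
    have a1 := xsbbb_le hle (h2 s n hn hs)
    have a2 := ed_two (fixS ρ L) (ρ s) 3 9 (by decide)
    have a3 := (hs_dbl ρ E hE ζ L X Z hH (fixS ρ L) T
      (fun v hv => (hs_fix ρ 2 4 (-1) hpq E hE ζ L X Z hH v hv).1)
      (fun v hv => (hs_fix ρ 2 4 (-1) hpq E hE ζ L X Z hH v hv).2) hT).2.2
    have a4 := Nat.mul_le_mul_left k
      (show edOn (fixS ρ L) (ρ s) 9 ≤ edOn (fixS ρ L) (ρ s) 3 by omega)
    omega

end Pool.Agent.N9181
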