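import Pool.Agent.MP_9181f8_al.Q.QBasic

/-! Definitions for the class of semi-rational groups. -/

namespace Pool.Agent.N9181

open scoped commutatorElement

/-- internal form of semi-rationality -/
def SP (G : Type) [Group G] (N : ℕ) : Prop :=
  Nat.card G ∣ N ∧ 0 < N ∧ ∀ (x : G) (j j' : ℕ), j.Coprime N → j'.Coprime N →
    IsConj x (x ^ j) ∨ IsConj x (x ^ j') ∨ IsConj x (x ^ (j * j'))

/-- `J` is maximal among the subgroups of `C` of order prime to `3` -/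
def M3 {H : Type} [Group H] (J C : Subgroup H) : Prop :=
  J ≤ C ∧ ¬ 3 ∣ Nat.card J ∧
    ∀ J' : Subgroup H, J ≤ J' → J' ≤ C → ¬ 3 ∣ Nat.card J' → J' = J

/-- numerical data attached to the cyclic normal subgroup `A` -/
def LamD {H : Type} [Group H] (A : Subgroup H) (d e g : ℕ) : Prop :=
  0 < g ∧ g * e ≤ d ∧ (Subgroup.centralizer (A : Set H)).index ∣ g ∧
    Nat.card A ≤ Nat.gcd (Nat.card A) 12 * g ^ 2 ∧ Nat.card A ∣ 13 ^ g - 1 ∧
    (g ≤ 2 → Nat.card A ∣ 24)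

section Lin

variable {V : Type} [AddCommGroup V] [Module K V] {H : Type} [Group H]

def fixS (ρ : Representation K H V) (J : Subgroup H) : Submodule K V where
  carrier := {v | ∀ y ∈ J, ρ y v = v}
  zero_mem' := fun _ _ => map_zero _
  add_mem' := fun {a b} ha hb y hy => by rw [map_add, ha y hy, hb y hy]
  smul_mem' := fun c a ha y hy => by rw [map_smul, ha y hy]

theorem mem_fixS (ρ : Representation K H V) (J : Subgroup H) (v : V) :
    v ∈ fixS ρ J ↔ ∀ y ∈ J, ρ y v = v := Iff.rfl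

theorem isFix_fixS (ρ : Representation K H V) (J : Subgroup H) : IsFix ρ J (fixS ρ J) :=
  fun _ => Iff.rfl

theorem rho_mul (ρ : Representation K H V) (a b : H) (v : V) : ρ (a * b) v = ρ a (ρ b v) := by
  rw [map_mul]; rfl

theorem rho_inv (ρ : Representation K H V) (a : H) (v : V) : ρ a⁻¹ (ρ a v) = v := by
  rw [← rho_mul, inv_mul_cancel, map_one]; rfl

theorem rho_inv' (ρ : Representation K H V) (a : H) (v : V) : ρ a (ρ a⁻¹ v) = v := by
  rw [← rho_mul, mul_inv_cancel, map_one]; rfl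

/-- the pointwise stabiliser of a subspace -/
def stabU (ρ : Representation K H V) (U : Submodule K V) : Subgroup H where
  carrier := {h | ∀ u ∈ U, ρ h u = u}
  one_mem' := fun u _ => by rw [map_one]; rfl
  mul_mem' := fun {a b} ha hb u hu => by rw [rho_mul, hb u hu, ha u hu]
  inv_mem' := fun {a} ha u hu => by
    have := rho_inv ρ a u
    rwa [ha u hu] at this

theorem mem_stabU (ρ : Representation K H V) (U : Submodule K V) (h : H) :
    h ∈ stabU ρ U ↔ ∀ u ∈ U, ρ h u = u := Iff.rfl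

/-- the stabiliser of a vector -/
def stabV (ρ : Representation K H V) (w : V) : Subgroup H where
  carrier := {h | ρ h w = w}
  one_mem' := by
    show ρ 1 w = w
    rw [map_one]; rfl
  mul_mem' := fun {a b} (ha : ρ a w = w) (hb : ρ b w = w) => by
    show ρ (a * b) w = w
    rw [rho_mul, hb, ha]
  inv_mem' := fun {a} (ha : ρ a w = w) => by
    have := rho_inv ρ a w
    rwa [ha] at this

theorem mem_stabV (ρ : Representation K H V) (w : V) (h : H) : h ∈ stabV ρ w ↔ ρ h w = w :=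
  Iff.rfl

/-- the elements acting as scalars -/
def scal (ρ : Representation K H V) : Subgroup H where
  carrier := {h | ∃ c : K, c ≠ 0 ∧ ∀ v, ρ h v = c • v}
  one_mem' := ⟨1, one_ne_zero, fun v => by rw [map_one, one_smul]; rfl⟩
  mul_mem' := by
    rintro a b ⟨c, hc, ha⟩ ⟨d, hd, hb⟩
    exact ⟨d * c, mul_ne_zero hd hc, fun v => by rw [rho_mul, hb, map_smul, ha, smul_smul]⟩
  inv_mem' := by
    rintro a ⟨c, hc, ha⟩
    refine ⟨c⁻¹, inv_ne_zero hc, fun v => ?_⟩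
    rw [eq_inv_smul_iff₀ hc, ← map_smul, ← ha, rho_inv]

theorem mem_scal (ρ : Representation K H V) (h : H) :
    h ∈ scal ρ ↔ ∃ c : K, c ≠ 0 ∧ ∀ v, ρ h v = c • v := Iff.rfl

def HSq (ρ : Representation K H V) (N : ℕ) : Prop :=
  ∀ (h : H) (j : ℕ), j.Coprime N → ∀ M, bt (ρ (h ^ (j * j))) M = bt (ρ h) M

/-- `s` is the restriction of `a` to `W` -/
def Rs (W : Submodule K V) (a : Module.End K V) (s : Module.End K W) : Prop :=
  ∀ w : W, (s w : V) = a w

def HSqOn (ρ : Representation K H V) (N : ℕ) (W : Submodule K V) : Prop :=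
  ∀ (h : H) (j : ℕ), j.Coprime N → ∀ s s' : Module.End K W, Rs W (ρ h) s →
    Rs W (ρ (h ^ (j * j))) s' → ∀ M, bt s' M = bt s M

def HBal3 (ρ : Representation K H V) : Prop :=
  ∀ (h : H) (a : ℕ) (v : V), h ^ (3 ^ a) = 1 → v ≠ 0 → ρ h v = v → ed (ρ h) 3 = ed (ρ h) 9

def Sim (ρ : Representation K H V) (a b : H) : Prop := ∀ c : K, ed (ρ a) c = ed (ρ b) c

/-- a `2`-element normalising `J` and multiplying `w` by the fourth root of unity `5` -/
def Val (ρ : Representation K H V) (J : Subgroup H) (w : V) (y : H) : Prop :=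
  y ∈ Subgroup.normalizer (J : Set H) ∧ (∃ a : ℕ, y ^ (2 ^ a) = 1) ∧ ρ y w = (5 : K) • w

def BalJ (ρ : Representation K H V) : Prop :=
  ∀ (w : V) (J : Subgroup H) (y : H), w ≠ 0 → M3 J (stabV ρ w) → Val ρ J w y →
    edOn (fixS ρ J) (ρ y) 5 = edOn (fixS ρ J) (ρ y) 8

def DK (ρ : Representation K H V) : Prop :=
  ∀ (w : V) (J : Subgroup H) (y : H), w ≠ 0 → M3 J (stabV ρ w) → Val ρ J w y →
    (∀ w' ∈ fixS ρ J, w' ≠ 0 → ρ y w' = (5 : K) • w' → ∃ k, ρ k w = w') ∨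
      edOn (fixS ρ J) (ρ y) 5 ≤ edOn (fixS ρ J) (ρ y) 8

/-- the class of pairs carried through the induction of theorem D -/
structure ClB (ρ : Representation K H V) (N : ℕ) : Prop where
  dvd : Nat.card H ∣ N
  pos : 0 < N
  cop : ¬ 13 ∣ Nat.card H
  ep : HEP ρ 5
  sq : HSq ρ N
  bal : BalJ ρ

def Par (ρ : Representation K H V) : Prop :=
  ∀ (T : Subgroup H) (y : H) (e : V), IsPGroup 3 T → y ∈ Subgroup.normalizer (T : Set H) →
    e ≠ 0 → fixS ρ T = Submodule.span K {e} → ρ y e ≠ (5 : K) • e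

def Rel (ρ : Representation K H V) (W W' : Submodule K V) : Prop :=
  ∀ w ∈ W, ∀ u ∈ W', w ≠ 0 → u ≠ 0 → ∀ γ : H, ρ γ w = (5 : K) • w → ρ γ u ≠ (5 : K) • u

def Mono (ρ : Representation K H V) : Prop :=
  ∃ (I : Type) (_ : Fintype I) (_ : MulAction H I) (W : I → Submodule K V), BD ρ I W ∧
    (∀ i, Module.finrank K (W i) = 1) ∧ ∀ i, ∃ k, k ≠ i ∧ Rel ρ (W i) (W k)

/-- lines with their partner map -/
structure LP (ρ : Representation K H V) (I : Type) [MulAction H I] (W : I → Submodule K V)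
    (π : I → I) : Prop where
  bd : BD ρ I W
  one : ∀ i, Module.finrank K (W i) = 1
  ne : ∀ i, π i ≠ i
  inv : ∀ i, π (π i) = i
  act : ∀ (h : H) (i : I), π (h • i) = h • π i
  rel : ∀ i, Rel ρ (W i) (W (π i))

/-- `h` fixes all blocks and acts on each of them by a cube root of unity -/
def DiagE (ρ : Representation K H V) {I : Type} [MulAction H I] (W : I → Submodule K V)
    (h : H) : Prop :=
  ∀ i, h • i = i ∧ ∃ c : K, c ^ 3 = 1 ∧ ∀ w ∈ W i, ρ h w = c • w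

/-- a set of subspaces which is a system of blocks -/
structure SBD (ρ : Representation K H V) (S : Set (Submodule K V)) : Prop where
  map : ∀ (h : H), ∀ W ∈ S, W.map (ρ h) ∈ S
  ind : sSupIndep S
  top : sSup S = ⊤
  ne : ⊥ ∉ S

def Term (ρ : Representation K H V) (N : ℕ) : Prop :=
  ∀ S : Set (Submodule K V), SBD ρ S → (∀ W ∈ S, HSqOn ρ N W) → S = {⊤}

/-- the simultaneous eigenspaces of `B` -/
def eigS (ρ : Representation K H V) (B : Subgroup H) : Set (Submodule K V) :=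
  {W | W ≠ ⊥ ∧ ∃ χ : H → K, ∀ v, v ∈ W ↔ ∀ b ∈ B, ρ b v = χ b • v}

/-- `σ` is the faithful form of the action of the stabiliser of the block `i` -/
structure FB (ρ : Representation K H V) {I : Type} [MulAction H I] (W : I → Submodule K V)
    (i : I) {H' : Type} [Group H'] (π : MulAction.stabilizer H i →* H')
    (σ : Representation K H' (W i)) : Prop where
  surj : Function.Surjective π
  res : ∀ (h : MulAction.stabilizer H i) (w : W i), (σ (π h) w : V) = ρ h w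

/-- a good block -/
structure GB (ρ : Representation K H V) (N : ℕ) (A F : Subgroup H) : Prop where
  inj : Function.Injective ρ
  ne : ∃ v : V, v ≠ 0
  dvd : Nat.card H ∣ N
  pos : 0 < N
  cop : ¬ 13 ∣ Nat.card H
  sq : HSq ρ N
  sd : SD A F
  mx : ∀ B : Subgroup H, B.Normal → (∀ a ∈ B, ∀ b ∈ B, a * b = b * a) → A ≤ B → B = A
  free : FreeOn ρ A
  sc : ∀ a ∈ A, a ^ 12 = 1 → a ∈ scal ρ

/-- a normal subgroup of Heisenberg type; `(p, q)` is `(2, 4)` or `(3, 3)` -/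
structure EH (ρ : Representation K H V) (p q : ℕ) (E : Subgroup H) : Prop where
  inj : Function.Injective ρ
  ne : ∃ v : V, v ≠ 0
  nE : E.Normal
  pw : ∀ f ∈ E, f ^ q = 1
  pp : ∀ f ∈ E, f ^ p ∈ scal ρ
  sc : ∀ f ∈ E, ∀ g ∈ E, ⁅f, g⁆ ∈ scal ρ
  mx : ∀ B : Subgroup H, B.Normal → B ≤ E → (∀ a ∈ B, ∀ b ∈ B, a * b = b * a) → B ≤ scal ρ

/-- an almost maximal isotropic subgroup `L` and a Heisenberg pair `X`, `Z` -/
structure HS (ρ : Representation K H V) (p : ℕ) (ν ζ : K) (E L : Subgroup H) (X Z : H) :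
    Prop where
  le : L ≤ E
  mX : X ∈ E
  mZ : Z ∈ E
  cL : ∀ l ∈ L, ∀ l' ∈ L, l * l' = l' * l
  cX : ∀ l ∈ L, l * X = X * l
  cZ : ∀ l ∈ L, l * Z = Z * l
  pL : ∀ l ∈ L, l ^ p = 1
  zx : ∀ v, ρ Z (ρ X v) = ν • ρ X (ρ Z v)
  cen : ∀ f ∈ E, (∀ l ∈ L, f * l = l * f) → ∃ (c : K) (l : H) (a b : ℕ),
    l ∈ L ∧ a < p ∧ b < p ∧ ∀ v, ρ f v = c • ρ (l * X ^ a * Z ^ b) v
  tr : ∀ v, (∀ l ∈ L, ∃ c : K, ρ l v = c • v) → ∃ f ∈ E, ρ f v ∈ fixS ρ L
  ex : ∃ m, m ≠ 0 ∧ m ∈ fixS ρ L ∧ ρ Z m = ζ • m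
  sz : (scal ρ).relIndex E = p ^ 2 * Nat.card L ^ 2
  dim : Module.finrank K V = Nat.card L * Module.finrank K (fixS ρ L)

/-- the elements of `E` having `w` as an eigenvector are scalar multiples of elements of `L` -/
def SL (ρ : Representation K H V) (E L : Subgroup H) (w : V) : Prop :=
  ∀ f ∈ E, ∀ c : K, ρ f w = c • w → ∃ l ∈ L, ∃ c' : K, ∀ v, ρ f v = c' • ρ l v

/-- the two admissible choices of the parameters -/
def PQ (p q : ℕ) (ν : K) : Prop := (p = 2 ∧ q = 4 ∧ ν = -1) ∨ (p = 3 ∧ q = 3 ∧ ν = 3)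

/-- twice the coefficient of the fourth root of unity in the Brauer character -/
noncomputable def kap (a : Module.End K V) : ℤ :=
  2 * (ed a 5 : ℤ) - 2 * (ed a 8 : ℤ) - (ed a 2 : ℤ) - (ed a 6 : ℤ) + (ed a 11 : ℤ) + (ed a 7 : ℤ)

/-- the vector `m + 3 X m` -/
def wv (ρ : Representation K H V) (X : H) (m : V) : V := m + (3 : K) • ρ X m

/-- the vector `m + X m + 2 X ^ 2 m` -/
def av (ρ : Representation K H V) (X : H) (m : V) : V :=
  m + ρ X m + (2 : K) • ρ X (ρ X m)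

/-- the data of the smaller pair in the case of even degree -/
structure H2D (ρ : Representation K H V) (ζ : K) (L : Subgroup H) (X Z : H) (J B : Subgroup H)
    (C : Submodule K V) : Prop where
  lJ : L ≤ J
  nX : X ∈ Subgroup.normalizer (J : Set H)
  nZ : Z ∈ Subgroup.normalizer (J : Set H)
  memB : ∀ b, b ∈ B ↔ b ∈ Subgroup.normalizer (J : Set H) ∧
    ∀ v ∈ fixS ρ J, ρ b (ρ X v) = ρ X (ρ b v) ∧ ρ b (ρ Z v) = ρ Z (ρ b v)
  memC : ∀ v, v ∈ C ↔ v ∈ fixS ρ J ∧ ρ Z v = ζ • v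
  ne : C ≠ ⊥
  mx : ∀ m ∈ C, m ≠ 0 → M3 J (stabV ρ (wv ρ X m))

def FFE (ρ : Representation K H V) (E : Subgroup H) : Prop :=
  ∀ k : H, (∀ f ∈ E, ⁅k, f⁆ ∈ scal ρ) → ∃ f ∈ E, ∃ c : K, ∀ v, ρ k v = c • ρ f v

/-- every `3`-element multiplying `a` by `3` multiplies all of `T` by `3` -/
def Th (ρ : Representation K H V) (T : Submodule K V) (a : V) : Prop :=
  ∀ (s : H) (n : ℕ), s ^ (3 ^ n) = 1 → ρ s a = (3 : K) • a → ∀ w ∈ T, ρ s w = (3 : K) • w

def Pos (ρ : Representation K H V) (r : V) (p : ℕ) : Prop :=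
  ∀ (s : H) (n : ℕ), s ^ (3 ^ n) = 1 → ρ s r = (3 : K) • r → ed (ρ s) 9 + p ≤ ed (ρ s) 3

def PosW (ρ : Representation K H V) (r : V) (p : ℕ) : Prop :=
  ∀ (s : H) (n : ℕ), s ^ (3 ^ n) = 1 → ρ s r = (3 : K) • r → ed (ρ s) 9 < ed (ρ s) 3 + 2 * p

def RegF (ρ : Representation K H V) (r : V) : Prop :=
  ∀ (s : H) (n : ℕ), s ^ (3 ^ n) = 1 → ρ s r = (3 : K) • r → (∀ v, ρ s v = v → v = 0) →
    ∀ v, ρ s v = (3 : K) • v

def PB1 (ρ : Representation K H V) : Prop :=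
  ∃ (r r' : V) (p : ℕ), r ≠ 0 ∧ 0 < p ∧ (∀ k, ρ k r' ≠ (3 : K) • r) ∧ Pos ρ r p ∧
    PosW ρ r' p ∧ RegF ρ r

def PP2 (ρ : Representation K H V) : Prop :=
  ∃ r r' : V, r ≠ 0 ∧ r' ≠ 0 ∧ (∀ k, ρ k r' ≠ (3 : K) • r) ∧ Pos ρ r 1 ∧ Pos ρ r' 1

def PB2 (ρ : Representation K H V) : Prop :=
  PP2 ρ ∧ ∃ E : Subgroup H, EH ρ 3 3 E ∧ FFE ρ E

def BPos (ρ : Representation K H V) {I : Type} [MulAction H I] (W : I → Submodule K V)
    (r : I → V) (p : ℕ) : Prop :=
  ∀ (i : I) (h : H) (n : ℕ), h ^ (3 ^ n) = 1 → h • i = i → ρ h (r i) = (3 : K) • r i →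
    edOn (W i) (ρ h) 9 + p ≤ edOn (W i) (ρ h) 3

def BPosW (ρ : Representation K H V) {I : Type} [MulAction H I] (W : I → Submodule K V)
    (r : I → V) (p : ℕ) : Prop :=
  ∀ (i : I) (h : H) (n : ℕ), h ^ (3 ^ n) = 1 → h • i = i → ρ h (r i) = (3 : K) • r i →
    edOn (W i) (ρ h) 9 < edOn (W i) (ρ h) 3 + 2 * p

def BRegF (ρ : Representation K H V) {I : Type} [MulAction H I] (W : I → Submodule K V)
    (r : I → V) : Prop :=
  ∀ (i : I) (h : H) (n : ℕ), h ^ (3 ^ n) = 1 → h • i = i → ρ h (r i) = (3 : K) • r i →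
    (∀ v, ρ h v = v → v = 0) → ∀ w ∈ W i, ρ h w = (3 : K) • w

/-- the vector `m + 2 X m` -/
def w3 (ρ : Representation K H V) (X : H) (m : V) : V := m + (2 : K) • ρ X m

/-- the vector `a + x Y a` -/
def r9 (ρ : Representation K H V) (Y : H) (a : V) (x : K) : V := a + x • ρ Y a

def T2 (X : Module.End K V) (m : V) : Submodule K V := Submodule.span K {m, X m}

def T3 (X : Module.End K V) (m : V) : Submodule K V := Submodule.span K {m, X m, X (X m)}

def U4 (X : Module.End K V) (a b : V) : Submodule K V := Submodule.span K {a, b, X a, X b}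

/-- `S` normalises the group generated by `X`, `Z` and the scalars, on `T` -/
def PN (p : ℕ) (T : Submodule K V) (X Z S : Module.End K V) : Prop :=
  (∃ (c : K) (a b : ℕ), a < p ∧ b < p ∧ ∀ v ∈ T, S (X v) = c • (X ^ a * Z ^ b) (S v)) ∧
    ∃ (c : K) (a b : ℕ), a < p ∧ b < p ∧ ∀ v ∈ T, S (Z v) = c • (X ^ a * Z ^ b) (S v)

structure P2 (X Z : Module.End K V) (ζ : K) (m : V) : Prop where
  ne : m ≠ 0
  z4 : ζ ^ 4 = 1
  xx : X (X m) = m ∨ X (X m) = -m
  zm : Z m = ζ • m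
  zx : Z (X m) = (-ζ) • X m

structure P3 (X Z : Module.End K V) (m : V) : Prop where
  ne : m ≠ 0
  xx : X (X (X m)) = m
  zm : Z m = m
  z1 : Z (X m) = (3 : K) • X m
  z2 : Z (X (X m)) = (9 : K) • X (X m)

/-- the sum of the blocks in the orbit of `k` under `J` -/
def OrbS {I : Type} [MulAction H I] (W : I → Submodule K V) (J : Subgroup H) (k : I) :
    Submodule K V := ⨆ (l : I) (_ : ∃ j ∈ J, j • k = l), W l

def Tri (ρ : Representation K H V) (N : ℕ) : Prop :=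
  ∀ (h : H) (j j' : ℕ), j.Coprime N → j'.Coprime N →
    Sim ρ h (h ^ j) ∨ Sim ρ h (h ^ j') ∨ Sim ρ h (h ^ (j * j'))

end Lin

/-- a colouring preserved by no `3`-element acting non-trivially -/
def Rig (H : Type) [Group H] {Ω : Type} [MulAction H Ω] (c : Ω → Fin 3) : Prop :=
  ∀ (t : H) (n : ℕ), t ^ (3 ^ n) = 1 → (∀ x, c (t • x) = c x) → ∀ x : Ω, t • x = x

/-- `A` is maximal among the abelian normal subgroups -/
def MxA {H : Type} [Group H] (A : Subgroup H) : Prop :=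
  ∀ B : Subgroup H, B.Normal → (∀ a ∈ B, ∀ b ∈ B, a * b = b * a) → A ≤ B → B = A

/-- theorem D below dimension `n` -/
def DIH (n N : ℕ) : Prop :=
  ∀ (V : Type) [AddCommGroup V] [Module K V] [Module.Finite K V] (H : Type) [Group H] [Finite H]
    [Group.IsSolvable H] (ρ : Representation K H V), Module.finrank K V < n → ClB ρ N →
      (∃ v : V, v ≠ 0) → Mono ρ

end Pool.Agent.N9181
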