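import Pool.Agent.MP_9181f8_al.S.Partner
import Pool.Agent.MP_9181f8_al.S.Proj

namespace Pool.Agent.N9181

open scoped commutatorElement

theorem xsdka_pow {G : Type} [Group G] (J : Subgroup G) (y j : G)
    (hy : y ∈ Subgroup.normalizer (J : Set G)) (hj : j ∈ J) (e : ℕ) :
    ∃ j' ∈ J, (y * j) ^ e = y ^ e * j' := by
  induction e with
  | zero => exact ⟨1, one_mem _, by simp⟩
  | succ e ih =>
    obtain ⟨k, hk, h⟩ := ih
    refine ⟨y⁻¹ * k * y * j, mul_mem ?_ hj, ?_⟩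
    · have := (Subgroup.mem_normalizer_iff.1 (inv_mem hy) k).1 hk
      rwa [inv_inv] at this
    · rw [pow_succ, h, pow_succ]
      group

theorem xsdka_ed {V : Type} [AddCommGroup V] [Module K V] (U : Submodule K V)
    (a b : Module.End K V) (h : ∀ v ∈ U, a v = b v) (c : K) : edOn U a c = edOn U b c := by
  have : U ⊓ a.eigenspace c = U ⊓ b.eigenspace c := by
    ext v
    simp only [Submodule.mem_inf, Module.End.mem_eigenspace_iff]
    exact and_congr_right fun hv => by rw [h v hv]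
  rw [edOn, edOn, this]

theorem fb_ep {V : Type} [AddCommGroup V] [Module K V] [Module.Finite K V]
    {H : Type} [Group H] [Finite H] (ρ : Representation K H V) {I : Type} [Fintype I] [MulAction H I] (W : I → Submodule K V) (hB : BD ρ I W) (i : I) {H' : Type} [Group H'] [Finite H'] (π : MulAction.stabilizer H i →* H')
    (σ : Representation K H' (W i)) (hF : FB ρ W i π σ) (c : K) (hc : c ≠ 0) (hE : HEP ρ c) : HEP σ c := by
  intro v
  by_cases hv : v = 0
  · exact ⟨1, by rw [hv, map_zero, smul_zero]⟩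
  obtain ⟨h, hh⟩ := hE v
  have hi : h • i = i := blk_eq ρ W hB i i h v v.2 (fun e => hv (Subtype.ext e))
    (by rw [hh]; exact (W i).smul_mem c v.2)
  exact ⟨π ⟨h, hi⟩, Subtype.ext ((hF.res ⟨h, hi⟩ v).trans hh)⟩

theorem val_lift {V : Type} [AddCommGroup V] [Module K V] [Module.Finite K V]
    {H : Type} [Group H] [Finite H] [Group.IsSolvable H] (ρ : Representation K H V) {I : Type} [Fintype I] [MulAction H I] (W : I → Submodule K V) (hB : BD ρ I W) (i : I) {H' : Type} [Group H'] [Finite H'] (π : MulAction.stabilizer H i →* H')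
    (σ : Representation K H' (W i)) (hF : FB ρ W i π σ) (w : W i) (h0 : w ≠ 0) (J' : Subgroup H')
    (hJ' : M3 J' (stabV σ w)) (y' : H') (hy' : Val σ J' w y') :
    ∃ (J : Subgroup H) (y : H), M3 J (stabV ρ (w : V)) ∧ Val ρ J (w : V) y ∧
      (∀ j ∈ J, j • i = i) ∧ y • i = i ∧
      (∀ v : W i, v ∈ fixS σ J' ↔ (v : V) ∈ fixS ρ J) ∧
      (∀ v ∈ fixS σ J', (σ y' v : V) = ρ y v) ∧
      ∀ c : K, edOn (fixS ρ J ⊓ W i) (ρ y) c = edOn (fixS σ J') (σ y') c := by
  obtain ⟨J0, h1, h2, h3⟩ := m3_lift π hF.surj J' (stabV σ w) hJ'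
  have hmap : ((stabV σ w).comap π).map (MulAction.stabilizer H i).subtype = stabV ρ (w : V) := by
    ext h
    constructor
    · rintro ⟨t, ht, rfl⟩
      have ht' : σ (π t) w = w := ht
      exact (hF.res t w).symm.trans (congrArg Subtype.val ht')
    · intro hh
      have hh' : ρ h w = w := hh
      have hi : h • i = i := blk_eq ρ W hB i i h w w.2 (fun e => h0 (Subtype.ext e))
        (by rw [hh']; exact w.2)
      exact ⟨⟨h, hi⟩, Subtype.ext ((hF.res ⟨h, hi⟩ w).trans hh'), rfl⟩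
  obtain ⟨t, rfl⟩ := hF.surj y'
  obtain ⟨hn, ⟨a', ha'⟩, hw5⟩ := hy'
  have ht : t ∈ Subgroup.normalizer ((J'.comap π : Subgroup _) : Set (MulAction.stabilizer H i)) :=
    Subgroup.le_normalizer_comap π hn
  obtain ⟨c, hc, htc⟩ := m3_frat J0 _ h2 t ht
  obtain ⟨e, a, he1, he2, -⟩ := p_part 2 Nat.prime_two (t * c)
  obtain ⟨j', hj', hpow⟩ := xsdka_pow J' (π t) (π c) hn hc e
  have hy : π t ^ e = π t := by
    obtain ⟨b, -, hb⟩ := (Nat.dvd_prime_pow Nat.prime_two).1 (orderOf_dvd_of_pow_eq_one ha')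
    refine xbasic_pow _ (2 ^ b) _ (by rw [← hb, pow_orderOf_eq_one]) (he2 b ?_)
    rw [← hb]
    exact (orderOf_dvd_natCard _).trans (Subgroup.card_dvd_of_surjective π hF.surj)
  have hact : ∀ v ∈ fixS σ J', σ (π ((t * c) ^ e)) v = σ (π t) v := fun v hv => by
    rw [map_pow, map_mul, hpow, hy, rho_mul, hv j' hj']
  have hact' : ∀ v ∈ fixS σ J', (σ (π t) v : V) = ρ ((t * c) ^ e : MulAction.stabilizer H i) v :=
    fun v hv => by rw [← hact v hv, hF.res]
  have hfix : ∀ v : W i, v ∈ fixS σ J' ↔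
      (v : V) ∈ fixS ρ (J0.map (MulAction.stabilizer H i).subtype) := fun v => by
    rw [← h3]
    constructor
    · rintro hv _ ⟨j, hj, rfl⟩
      exact (hF.res j v).symm.trans (congrArg Subtype.val (hv _ ⟨j, hj, rfl⟩))
    · rintro hv _ ⟨j, hj, rfl⟩
      exact Subtype.ext ((hF.res j v).trans (hv _ ⟨j, hj, rfl⟩))
  refine ⟨J0.map (MulAction.stabilizer H i).subtype,
    ((t * c) ^ e : MulAction.stabilizer H i), ?_, ⟨?_, ⟨a, ?_⟩, ?_⟩, ?_, ((t * c) ^ e).2, hfix,
    hact', fun d => ?_⟩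
  · rw [← hmap]
    exact (m3_inj _ (Subgroup.subtype_injective _) _ _).2 h1
  · exact Subgroup.le_normalizer_map _ ⟨_, pow_mem htc e, rfl⟩
  · exact congrArg Subtype.val he1
  · rw [← hact' w fun j hj => hJ'.1 hj, hw5]
    rfl
  · rintro _ ⟨j, -, rfl⟩
    exact j.2
  · rw [← xsdka_ed _ _ _ hact d, edOn_res (W i) _ _ (hF.res ((t * c) ^ e)) _ d]
    congr 1
    ext v
    constructor
    · rintro ⟨h4, h5⟩
      exact ⟨⟨v, h5⟩, (hfix _).2 h4, rfl⟩
    · rintro ⟨u, hu, rfl⟩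
      exact ⟨(hfix u).1 hu, u.2⟩

end Pool.Agent.N9181
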