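import Pool.Agent.MP_9181f8_al.S.Partner
import Pool.Agent.MP_9181f8_al.S.Proj

namespace Pool.Agent.N9181

open scoped commutatorElement

theorem ext_partner {V : Type} [AddCommGroup V] [Module K V] [Module.Finite K V]
    {H : Type} [Group H] [Finite H] [Group.IsSolvable H] (ρ : Representation K H V) (hE5 : HEP ρ 5) {I : Type} [Fintype I] [MulAction H I] (W : I → Submodule K V) (hB : BD ρ I W) (i : I) (w : V) (J : Subgroup H) (hJ : M3 J (stabV ρ w)) (y : H) (hy : Val ρ J w y) (hw : w ∈ W i) (hw0 : w ≠ 0)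
    (k : I) (hk : k ≠ i) (u : V) (h0 : u ≠ 0) (hu : u ∈ fixS ρ J) (hyu : ρ y u = (8 : K) • u)
    (ho : u ∈ OrbS W J k) :
    ∃ (l : I) (g : H), l ≠ i ∧ u ∈ W l ∧ ρ g w = (5 : K) • u ∧ ρ g u = (5 : K) • w := by
  obtain ⟨P, p1, p2, p3, p4, p5⟩ := exists_proj ρ W hB
  have hJw : ∀ j ∈ J, ρ j w = w := fun j hj => hJ.1 hj
  have hJv : ∀ j ∈ J, ρ j (w + u) = w + u := fun j hj => by rw [map_add, hJw j hj, hu j hj]
  have tr : ∀ l l', (∃ j ∈ J, j • k = l) → (∃ j ∈ J, j • k = l') → ∃ j ∈ J, j • l = l' := by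
    rintro _ _ ⟨j, hj, rfl⟩ ⟨j', hj', rfl⟩
    exact ⟨j' * j⁻¹, J.mul_mem hj' (J.inv_mem hj), by rw [mul_smul, inv_smul_smul]⟩
  have hiO : ¬ ∃ j ∈ J, j • k = i := fun h => by
    obtain ⟨j, hj, e⟩ := tr i k h ⟨1, J.one_mem, one_smul _ _⟩
    exact hk (e.symm.trans (blk_eq ρ W hB i i j w hw hw0 ((hJw j hj).symm ▸ hw)))
  have hP0 : ∀ l, (¬ ∃ j ∈ J, j • k = l) → P l u = 0 := fun l hl =>
    (show OrbS W J k ≤ LinearMap.ker (P l) from
      iSup₂_le fun l' hl' x hx => p4 l l' (fun e => hl (e ▸ hl')) x hx) ho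
  have hP1 : ∀ l, (∃ j ∈ J, j • k = l) → P l u ≠ 0 := fun l hl e => h0 (by
    rw [← p2 u]
    refine Finset.sum_eq_zero fun l' _ => by_contra fun h => ?_
    obtain ⟨j, hj, rfl⟩ := tr l l' hl (by_contra fun h' => h (hP0 l' h'))
    exact h (by rw [← hu j hj, p5, e, map_zero]))
  have hPi : P i (w + u) = w := by rw [map_add, p3 i w hw, hP0 i hiO, add_zero]
  have hPl : ∀ l, l ≠ i → P l (w + u) = P l u := fun l hl => by
    rw [map_add, p4 l i hl w hw, zero_add]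
  have hfix : ∀ (n : H) (c : K), ρ n (w + u) = c • (w + u) → n • i = i →
      ρ n w = c • w ∧ ρ n u = c • u := fun n c hn hi => by
    have h1 := p5 n i (w + u)
    rw [hi, hn, map_smul, hPi] at h1
    rw [map_add, smul_add, ← h1] at hn
    exact ⟨h1.symm, add_left_cancel hn⟩
  obtain ⟨g, hg⟩ := hE5 (w + u)
  have hgi : g • i ≠ i := fun e =>
    partner ρ w J hJ y hy u hu h0 hyu g (hfix g 5 hg e).1 (hfix g 5 hg e).2
  have hs : ∀ l, P (g • l) (w + u) = 0 ↔ P l (w + u) = 0 := fun l => by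
    have h1 := p5 g l (w + u)
    rw [hg, map_smul] at h1
    refine ⟨fun e => ?_, fun e => ?_⟩
    · rw [← rho_inv ρ g (P l (w + u)), ← h1, e, smul_zero, map_zero]
    · rw [e, map_zero] at h1
      exact (smul_eq_zero.1 h1).resolve_left (by decide)
  have hO : ∀ l, l ≠ i → P l (w + u) ≠ 0 → ∃ j ∈ J, j • k = l := fun l hl h =>
    by_contra fun h' => h ((hPl l hl).trans (hP0 l h'))
  have hk0 : g⁻¹ • i ≠ i := fun e => hgi (inv_smul_eq_iff.1 e).symm
  have o1 := hO _ hgi (mt (hs i).1 (hPi.symm ▸ hw0))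
  have o0 := hO _ hk0 (mt (hs _).2 (by rw [smul_inv_smul, hPi]; exact hw0))
  have huq : ∀ l, (∃ j ∈ J, j • k = l) → l = g⁻¹ • i := fun l hl => by_contra fun hne => by
    have h1 : l ≠ i := fun e => hiO (e ▸ hl)
    obtain ⟨j, hj, e⟩ := tr _ _ o1 hl
    obtain ⟨j', hj', e'⟩ := tr _ _ (hO (g • l) (fun e => hne (eq_inv_smul_iff.2 e))
      (mt (hs l).1 ((hPl l h1).symm ▸ hP1 l hl))) o0
    obtain ⟨h2, h3⟩ := hfix (g * j' * g * j * g) (5 * 5 * 5)
      (by simp only [rho_mul, hg, map_smul, hJv j hj, hJv j' hj', smul_smul, mul_assoc (5 : K)])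
      (by simp only [mul_smul, e, e', smul_inv_smul])
    have h4 : (5 * 5 * 5 : K) ^ 3 = 5 := by decide
    exact partner ρ w J hJ y hy u hu h0 hyu _ (h4 ▸ rho_pow_eig ρ _ w _ h2 3)
      (h4 ▸ rho_pow_eig ρ _ u _ h3 3)
  have hu0 : u ∈ W (g⁻¹ • i) := by
    rw [← p2 u, Finset.sum_eq_single (g⁻¹ • i) (fun l _ hl => hP0 l fun h => hl (huq l h))
      fun h => absurd (Finset.mem_univ _) h]
    exact p1 _ _
  rcases pair_act ρ W hB i _ hk0.symm w u _ _ hw hu0 (Submodule.smul_mem _ 5 hw)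
    (Submodule.smul_mem _ 5 hu0) hw0 h0 g (hg.trans (smul_add _ _ _)) with h | h
  · exact absurd h.1 hgi
  · exact ⟨_, g, hk0, hu0, h.2.2⟩

end Pool.Agent.N9181
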