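import Pool.Agent.MP_9181f8_al.S.PoSign
import Pool.Agent.MP_9181f8_al.S.Proj

namespace Pool.Agent.N9181

open scoped commutatorElement

theorem xspo_act {V : Type} [AddCommGroup V] [Module K V] {H : Type} [Group H]
    (ρ : Representation K H V) {I : Type} [Fintype I] [MulAction H I] (P : I → V →ₗ[K] V)
    (hP : ∀ (h : H) (i : I) (v : V), P (h • i) (ρ h v) = ρ h (P i v)) (f : I → K) (g : H) (u : V)
    (c c' : K) (hu : ρ g u = c' • u)
    (hf : ∀ l, (f l * c') • P (g • l) u = (c * f (g • l)) • P (g • l) u) :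
    ρ g (∑ l, f l • P l u) = c • ∑ l, f l • P l u := by
  rw [map_sum, Finset.smul_sum]
  refine Fintype.sum_equiv (MulAction.toPerm g) _ _ fun l => ?_
  rw [map_smul, ← hP, hu, map_smul, smul_smul, hf, MulAction.toPerm_apply, smul_smul]

theorem xspo_comp {V : Type} [AddCommGroup V] [Module K V] {I : Type} [Fintype I]
    (W : I → Submodule K V) (P : I → V →ₗ[K] V) (h1 : ∀ i v, P i v ∈ W i)
    (h3 : ∀ i, ∀ w ∈ W i, P i w = w) (h4 : ∀ i j, i ≠ j → ∀ w ∈ W j, P i w = 0) (f : I → K)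
    (u : V) (k : I) : P k (∑ l, f l • P l u) = f k • P k u := by
  rw [map_sum, Finset.sum_eq_single k]
  · rw [map_smul, h3 k _ (h1 k u)]
  · intro l _ hl
    rw [map_smul, h4 k l hl.symm _ (h1 l u), smul_zero]
  · intro h
    exact absurd (Finset.mem_univ k) h

theorem xspo_zero {V : Type} [AddCommGroup V] [Module K V] {H : Type} [Group H]
    (ρ : Representation K H V) {I : Type} [Fintype I] [MulAction H I] (W : I → Submodule K V)
    (P : I → V →ₗ[K] V) (h1 : ∀ i v, P i v ∈ W i)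
    (h3 : ∀ i, ∀ w ∈ W i, P i w = w) (h4 : ∀ i j, i ≠ j → ∀ w ∈ W j, P i w = 0)
    (hP : ∀ (h : H) (i : I) (v : V), P (h • i) (ρ h v) = ρ h (P i v)) (J : Subgroup H) (y : H)
    (hn : y ∈ Subgroup.normalizer (J : Set H)) (l : I)
    (hc : ∀ u : V, u ∈ fixS ρ J → ρ y u = (8 : K) • u → u ∈ OrbS W J l → u = 0)
    (hl : ∃ j ∈ J, j • l = y • l) (u : V) (hu : u ∈ fixS ρ J) (hy : ρ y u = (8 : K) • u) :
    P l u = 0 := by
  classical
  obtain ⟨j0, hj0, e0⟩ := hl
  have hn' := Subgroup.mem_normalizer_iff.1 hn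
  let f : I → K := fun m => if ∃ j ∈ J, j • l = m then 1 else 0
  have fJ : ∀ j ∈ J, ∀ m, f (j • m) = f m := by
    intro j hj m
    refine if_congr ⟨?_, ?_⟩ rfl rfl
    · rintro ⟨j', hj', e⟩
      exact ⟨j⁻¹ * j', J.mul_mem (J.inv_mem hj) hj', by rw [mul_smul, e, inv_smul_smul]⟩
    · rintro ⟨j', hj', e⟩
      exact ⟨j * j', J.mul_mem hj hj', by rw [mul_smul, e]⟩
  have fy : ∀ m, f (y • m) = f m := by
    intro m
    refine if_congr ⟨?_, ?_⟩ rfl rfl
    · rintro ⟨j', hj', e⟩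
      refine ⟨y⁻¹ * (j' * j0⁻¹) * y, (hn' _).2 ?_, ?_⟩
      · rw [show y * (y⁻¹ * (j' * j0⁻¹) * y) * y⁻¹ = j' * j0⁻¹ by group]
        exact J.mul_mem hj' (J.inv_mem hj0)
      · rw [mul_smul, ← e0, mul_smul, mul_smul, inv_smul_smul, e, inv_smul_smul]
    · rintro ⟨j', hj', e⟩
      refine ⟨y * j' * y⁻¹ * j0, J.mul_mem ((hn' _).1 hj') hj0, ?_⟩
      rw [mul_smul, e0, mul_smul, inv_smul_smul, mul_smul, e]
  have hv := hc (∑ m, f m • P m u) (fun j hj => by
      have := xspo_act ρ P hP f j u 1 1 (by rw [one_smul]; exact hu j hj)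
        (fun m => by rw [fJ j hj, mul_comm])
      rwa [one_smul] at this)
    (xspo_act ρ P hP f y u 8 8 hy fun m => by rw [fy, mul_comm])
    (Submodule.sum_mem _ fun m _ => by
      by_cases hm : ∃ j ∈ J, j • l = m
      · exact Submodule.smul_mem _ _ (Submodule.mem_iSup_of_mem m
          (Submodule.mem_iSup_of_mem hm (h1 m u)))
      · rw [show f m = 0 from if_neg hm, zero_smul]
        exact Submodule.zero_mem _)
  have := xspo_comp W P h1 h3 h4 f u l
  rw [hv, map_zero, show f l = 1 from if_pos ⟨1, J.one_mem, one_smul _ _⟩, one_smul] at this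
  exact this.symm

theorem po {V : Type} [AddCommGroup V] [Module K V] [Module.Finite K V]
    {H : Type} [Group H] [Finite H] (ρ : Representation K H V) {I : Type} [Fintype I] [MulAction H I] (W : I → Submodule K V) (hB : BD ρ I W) (J : Subgroup H) (y : H) (hn : y ∈ Subgroup.normalizer (J : Set H)) (h4 : y ^ 4 ∈ J) (i : I)
    (hJi : ∀ j ∈ J, j • i = i) (hyi : y • i = i)
    (h1 : edOn (fixS ρ J) (ρ y) 5 ≤ edOn (fixS ρ J) (ρ y) 8)
    (h2 : edOn (fixS ρ J ⊓ W i) (ρ y) 8 < edOn (fixS ρ J ⊓ W i) (ρ y) 5) :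
    ∃ (k : I) (u : V), k ≠ i ∧ u ≠ 0 ∧ u ∈ fixS ρ J ∧ ρ y u = (8 : K) • u ∧ u ∈ OrbS W J k := by
  classical
  by_contra hcon
  obtain ⟨P, p1, p2, p3, p4, p5⟩ := exists_proj ρ W hB
  obtain ⟨s, s1, s2, s3⟩ := po_sign (I := I) J y hn h4
  have hz : ∀ l, l ≠ i → (∃ j ∈ J, j • l = y • l) → ∀ u ∈ fixS ρ J, ρ y u = (8 : K) • u →
      P l u = 0 := fun l hl hj u hu hy =>
    xspo_zero ρ W P p1 p3 p4 p5 J y hn l
      (fun v a b c => by_contra fun h0 => hcon ⟨l, v, hl, h0, a, b, c⟩) hj u hu hy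
  let f : I → K := fun l => if l = i then 0 else s l
  have hfix : ∀ g : H, g • i = i → ∀ l : I, g • l = i ↔ l = i := fun g hg l =>
    ⟨fun e => MulAction.injective g (e.trans hg.symm), fun e => by rw [e, hg]⟩
  let φ : V →ₗ[K] V := ∑ l, f l • P l
  have hφ : ∀ u, φ u = ∑ l, f l • P l u := fun u => by
    simp only [φ, LinearMap.sum_apply, LinearMap.smul_apply]
  have φ5 : ∀ u ∈ fixS ρ J ⊓ Module.End.eigenspace (ρ y) 8, φ u ∈ fixS ρ J ⊓ Module.End.eigenspace (ρ y) 5 := by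
    rintro u ⟨hu, hy⟩
    have hy := Module.End.mem_eigenspace_iff.1 hy
    rw [hφ]
    refine ⟨fun j hj => ?_, Module.End.mem_eigenspace_iff.2 ?_⟩
    · have := xspo_act ρ P p5 f j u 1 1 (by rw [one_smul]; exact hu j hj) (fun m => by
        rw [show f (j • m) = f m from if_congr (hfix j (hJi j hj) m) rfl (s2 j hj m), mul_comm])
      rwa [one_smul] at this
    · refine xspo_act ρ P p5 f y u 5 8 hy fun m => ?_
      by_cases hm : m = i
      · rw [show f m = 0 from if_pos hm, show f (y • m) = 0 from if_pos ((hfix y hyi m).2 hm),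
          zero_mul, mul_zero]
      by_cases hj : ∃ j ∈ J, j • m = y • m
      · have e := p5 y m u
        rw [hz m hm hj u hu hy, map_zero, hy, map_smul] at e
        rw [(smul_eq_zero.1 e).resolve_left (by decide), smul_zero, smul_zero]
      · rw [show f m = s m from if_neg hm,
          show f (y • m) = s (y • m) from if_neg fun e => hm ((hfix y hyi m).1 e), s3 m hj,
          show (8 : K) = -5 by decide]
        congr 1
        ring
  have P8 : ∀ u ∈ fixS ρ J ⊓ Module.End.eigenspace (ρ y) 8,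
      P i u ∈ (fixS ρ J ⊓ W i) ⊓ Module.End.eigenspace (ρ y) 8 := by
    rintro u ⟨hu, hy⟩
    have hy := Module.End.mem_eigenspace_iff.1 hy
    refine ⟨⟨fun j hj => ?_, p1 i u⟩, Module.End.mem_eigenspace_iff.2 ?_⟩
    · rw [← p5, hJi j hj, hu j hj]
    · rw [← p5, hyi, hy, map_smul]
  let A5 : Submodule K V := (fixS ρ J ⊓ W i) ⊓ Module.End.eigenspace (ρ y) 5
  let A8 : Submodule K V := (fixS ρ J ⊓ W i) ⊓ Module.End.eigenspace (ρ y) 8
  let B5 : Submodule K V := fixS ρ J ⊓ Module.End.eigenspace (ρ y) 5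
  let B8 : Submodule K V := fixS ρ J ⊓ Module.End.eigenspace (ρ y) 8
  let T1 : (A5 × B8) →ₗ[K] B5 := LinearMap.codRestrict B5
    (A5.subtype ∘ₗ LinearMap.fst K A5 B8 + φ ∘ₗ B8.subtype ∘ₗ LinearMap.snd K A5 B8)
    fun x => B5.add_mem ⟨x.1.2.1.1, x.1.2.2⟩ (φ5 _ x.2.2)
  let T2 : (A5 × B8) →ₗ[K] A8 := LinearMap.codRestrict A8
    (P i ∘ₗ B8.subtype ∘ₗ LinearMap.snd K A5 B8) fun x => P8 _ x.2.2
  have hinj : Function.Injective (T1.prod T2) := by
    rw [injective_iff_map_eq_zero]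
    rintro ⟨a, u⟩ h
    have e1 : (a : V) + φ u = 0 := congrArg (fun z : B5 × A8 => (z.1 : V)) h
    have e2 : P i u = 0 := congrArg (fun z : B5 × A8 => (z.2 : V)) h
    have ea : (a : V) = 0 := by
      have := congrArg (P i) e1
      rwa [map_add, map_zero, p3 i _ a.2.1.2, hφ, xspo_comp W P p1 p3 p4,
        show f i = 0 from if_pos rfl, zero_smul, add_zero] at this
    rw [ea, zero_add] at e1
    have eu : ∀ l, P l u = 0 := by
      intro l
      by_cases hl : l = i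
      · rw [hl, e2]
      have := congrArg (P l) e1
      rw [map_zero, hφ, xspo_comp W P p1 p3 p4, show f l = s l from if_neg hl] at this
      refine (smul_eq_zero.1 this).resolve_left ?_
      rcases s1 l with e | e <;> rw [e] <;> decide
    have eu' : (u : V) = 0 := by
      rw [← p2 u]
      exact Finset.sum_eq_zero fun l _ => eu l
    exact Prod.ext (Subtype.ext ea) (Subtype.ext eu')
  have hd := LinearMap.finrank_le_finrank_of_injective hinj
  rw [Module.finrank_prod, Module.finrank_prod] at hd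
  have h1' : Module.finrank K B5 ≤ Module.finrank K B8 := h1
  have h2' : Module.finrank K A8 < Module.finrank K A5 := h2
  omega

theorem po_comp {V : Type} [AddCommGroup V] [Module K V] [Module.Finite K V]
    {H : Type} [Group H] [Finite H] (ρ : Representation K H V) {I : Type} [Fintype I] [MulAction H I] (W : I → Submodule K V) (hB : BD ρ I W) (J : Subgroup H) (y : H) (k : I) (u : V) (h0 : u ≠ 0)
    (hu : u ∈ fixS ρ J) (hyu : ρ y u = (8 : K) • u) (hk : u ∈ OrbS W J k) :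
    ∃ (l : I) (j : H) (u' : V), j ∈ J ∧ u' ∈ W l ∧ u' ≠ 0 ∧ ρ (y * j) u' = (8 : K) • u' := by
  obtain ⟨P, p1, p2, -, p4, p5⟩ := exists_proj ρ W hB
  have hA : ∀ l, P l u ≠ 0 → ∃ j ∈ J, j • k = l := by
    intro l hl
    by_contra hc
    have : OrbS W J k ≤ LinearMap.ker (P l) :=
      iSup_le fun m => iSup_le fun hm w hw => p4 l m (fun e => hc (e ▸ hm)) w hw
    exact hl (this hk)
  obtain ⟨l, hl⟩ : ∃ l, P l u ≠ 0 := by
    by_contra hc
    apply h0
    rw [← p2 u]
    exact Finset.sum_eq_zero fun l _ => by_contra fun h => hc ⟨l, h⟩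
  have e : ρ y (P (y⁻¹ • l) u) = (8 : K) • P l u := by
    rw [← p5, smul_inv_smul, hyu, map_smul]
  obtain ⟨j1, hj1, e1⟩ := hA l hl
  obtain ⟨j2, hj2, e2⟩ := hA (y⁻¹ • l) fun h => by
    rw [h, map_zero] at e
    exact hl ((smul_eq_zero.1 e.symm).resolve_left (by decide))
  have hj := J.mul_mem hj2 (J.inv_mem hj1)
  refine ⟨l, j2 * j1⁻¹, P l u, hj, p1 l u, hl, ?_⟩
  rw [rho_mul, ← p5 (j2 * j1⁻¹), hu _ hj, ← e, ← e2, ← e1, mul_smul, inv_smul_smul]

end Pool.Agent.N9181
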