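import Pool.Agent.MP_9181f8_al.S.DkA
import Pool.Agent.MP_9181f8_al.S.PO
import Pool.Agent.MP_9181f8_al.S.Ext

namespace Pool.Agent.N9181

open scoped commutatorElement

theorem xsdkb_cancel {V : Type} [AddCommGroup V] [Module K V] (a : Module.End K V) (w : V)
    (c d : K) (h0 : c • w ≠ 0) (h : a (c • w) = d • c • w) : a w = d • w := by
  rw [map_smul, smul_comm d c] at h
  exact smul_right_injective V (left_ne_zero_of_smul h0) h

theorem dk {V : Type} [AddCommGroup V] [Module K V] [Module.Finite K V]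
    {H : Type} [Group H] [Finite H] [Group.IsSolvable H] (ρ : Representation K H V) (N : ℕ) (hC : ClB ρ N) {I : Type} [Fintype I] [MulAction H I] (W : I → Submodule K V) (hB : BD ρ I W) (i : I) {H' : Type} [Group H'] [Finite H'] (π : MulAction.stabilizer H i →* H')
    (σ : Representation K H' (W i)) (hF : FB ρ W i π σ) : HEP σ 5 ∧ DK σ := by
  refine ⟨fb_ep ρ W hB i π σ hF 5 (by decide) hC.ep, fun w J' y' h0 hJ' hy' => ?_⟩
  obtain ⟨J, y, hJ, hy, hJi, hyi, hfix, hact, hed⟩ := val_lift ρ W hB i π σ hF w h0 J' hJ' y' hy'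
  refine or_iff_not_imp_right.2 fun hlt w' hw' hw0' hy5 => ?_
  have hw0 : (w : V) ≠ 0 := fun h => h0 (Subtype.ext h)
  have hw1 : (w' : V) ≠ 0 := fun h => hw0' (Subtype.ext h)
  obtain ⟨k, u, hk, hu0, hu, hyu, ho⟩ := po ρ W hB J y hy.1 (val_pow4 ρ w J hJ y hy) i hJi hyi
    (hC.bal w J y hw0 hJ hy).le (by rw [hed, hed]; exact not_le.1 hlt)
  obtain ⟨l, g, hl, hul, hg, -⟩ := ext_partner ρ hC.ep W hB i w J hJ y hy w.2 hw0 k hk u hu0 hu hyu ho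
  have hJu := m3_move ρ w J hJ u hu g 5 (by decide) hg
  have hy3 : Val ρ J u (y ^ 3) := by
    obtain ⟨a, ha⟩ := hy.2.1
    refine ⟨Subgroup.pow_mem _ hy.1 3, ⟨a, by rw [pow_right_comm, ha, one_pow]⟩, ?_⟩
    rw [rho_pow_eig ρ y u 8 hyu 3, show (8 : K) ^ 3 = 5 by decide]
  have hyw' : ρ y (w' : V) = (5 : K) • (w' : V) := by
    rw [← hact w' hw', hy5]
    rfl
  have hyw3 : ρ (y ^ 3) (w' : V) = (8 : K) • (w' : V) := by
    rw [rho_pow_eig ρ y _ 5 hyw' 3, show (5 : K) ^ 3 = 8 by decide]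
  obtain ⟨g', hg'⟩ := hC.ep (u + w')
  rw [smul_add] at hg'
  rcases pair_act ρ W hB l i hl u w' _ _ hul w'.2 ((W l).smul_mem _ hul) ((W i).smul_mem _ w'.2)
    hu0 hw1 g' hg' with ⟨-, -, h1, h2⟩ | ⟨-, -, h1, -⟩
  · exact absurd h2 (partner ρ u J hJu _ hy3 w' ((hfix w').1 hw') hw1 hyw3 g' h1)
  · have h3 : ρ (g' * g * y ^ 2) (w : V) = w' := by
      rw [rho_mul, rho_pow_eig ρ y _ 5 hy.2.2 2, map_smul, rho_mul, hg, map_smul, h1, smul_smul,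
        smul_smul, show (5 : K) ^ 2 * 5 * 5 = 1 by decide, one_smul]
    have h4 := blk_eq ρ W hB i i _ w w.2 hw0 (h3 ▸ w'.2)
    exact ⟨π ⟨_, h4⟩, Subtype.ext ((hF.res ⟨_, h4⟩ w).trans h3)⟩

theorem line_rel {V : Type} [AddCommGroup V] [Module K V] [Module.Finite K V]
    {H : Type} [Group H] [Finite H] [Group.IsSolvable H] (ρ : Representation K H V) (N : ℕ) (hC : ClB ρ N) {I : Type} [Fintype I] [MulAction H I] (W : I → Submodule K V) (hB : BD ρ I W) (h1 : ∀ i, Module.finrank K (W i) = 1) (i : I) :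
    ∃ k, k ≠ i ∧ Rel ρ (W i) (W k) := by
  obtain ⟨w, hw, hw0⟩ := (Submodule.ne_bot_iff _).1 (hB.ne i)
  obtain ⟨J, -, hJ⟩ := m3_exists ⊥ (stabV ρ w) bot_le (by simp)
  obtain ⟨y, hy⟩ := exists_val ρ hC.ep w J hJ
  have hwJ : w ∈ fixS ρ J := fun j hj => hJ.1 hj
  have h8 : edOn (fixS ρ J ⊓ W i) (ρ y) 8 = 0 := by
    by_contra h
    obtain ⟨v, hv, hv0, h8⟩ := (edOn_pos _ _ _).1 (Nat.pos_of_ne_zero h)
    obtain ⟨c, rfl⟩ := line_ext (W i) (h1 i) w hw hw0 v hv.2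
    have h2 := xsdkb_cancel _ w c 8 hv0 h8
    rw [hy.2.2, ← sub_eq_zero, ← sub_smul] at h2
    exact hw0 ((smul_eq_zero.1 h2).resolve_left (by decide))
  obtain ⟨k, u, hk, hu0, hu, hyu, ho⟩ := po ρ W hB J y hy.1 (val_pow4 ρ w J hJ y hy) i
    (fun j hj => blk_eq ρ W hB i i j w hw hw0 (by rw [hwJ j hj]; exact hw))
    (blk_eq ρ W hB i i y w hw hw0 (by rw [hy.2.2]; exact (W i).smul_mem _ hw))
    (hC.bal w J y hw0 hJ hy).le
    (by rw [h8]; exact (edOn_pos _ _ _).2 ⟨w, ⟨hwJ, hw⟩, hw0, hy.2.2⟩)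
  obtain ⟨l, g, hl, hul, -, -⟩ := ext_partner ρ hC.ep W hB i w J hJ y hy hw hw0 k hk u hu0 hu hyu ho
  refine ⟨l, hl, fun w₁ hw₁ u₁ hu₁ h2 h3 γ h4 h5 => ?_⟩
  obtain ⟨c, rfl⟩ := line_ext (W i) (h1 i) w hw hw0 w₁ hw₁
  obtain ⟨d, rfl⟩ := line_ext (W l) (h1 l) u hul hu0 u₁ hu₁
  exact partner ρ w J hJ y hy u hu hu0 hyu γ (xsdkb_cancel _ w c 5 h2 h4)
    (xsdkb_cancel _ u d 5 h3 h5)

end Pool.Agent.N9181
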