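import Pool.Agent.MP_9181f8_al.S.Defs
import Pool.Agent.MP_9181f8_al.N.SDPair

namespace Pool.Agent.N9181

open scoped commutatorElement

theorem xseha_mx {H : Type} [Group H] {A F : Subgroup H} (hS : SD A F) (hM : MxA A) (T : Set H)
    (hT : ∀ x ∈ T, x ∈ F) (hn : ∀ x ∈ T, ∀ g, g * x * g⁻¹ ∈ T)
    (hc : ∀ x ∈ T, ∀ y ∈ T, x * y = y * x) : ∀ x ∈ T, x ∈ A := by
  have hX : ∀ x ∈ Group.conjugatesOfSet (T ∪ A), x ∈ T ∪ A := fun x hx => by
    obtain ⟨a, ha, h⟩ := Group.mem_conjugatesOfSet_iff.1 hx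
    obtain ⟨c, rfl⟩ := isConj_iff.1 h
    exact ha.imp (hn a · c) (hS.nA.conj_mem a · c)
  have hc' : ∀ x ∈ T ∪ A, ∀ y ∈ T ∪ A, x * y = y * x := by
    rintro x (hx | hx) y (hy | hy)
    exacts [hc x hx y hy, (hS.cen y hy x (hT x hx)).symm, hS.cen x hx y (hT y hy),
      hS.cen x hx y (hS.le hy)]
  have h1 : Subgroup.normalClosure (T ∪ A) ≤
      Subgroup.centralizer (Subgroup.normalClosure (T ∪ A) : Set H) := by
    rw [Subgroup.normalClosure, Subgroup.centralizer_closure, Subgroup.closure_le]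
    exact fun x hx y hy => hc' y (hX y hy) x (hX x hx)
  have h2 := hM (Subgroup.normalClosure (T ∪ A)) inferInstance (fun a ha b hb => h1 hb a ha)
    fun a ha => Subgroup.subset_normalClosure (Or.inr ha)
  exact fun x hx => h2.le (Subgroup.subset_normalClosure (Or.inl hx))

theorem xseha_conj {H : Type} [Group H] {A : Subgroup H} (hA : A.Normal) {x : H} {n : ℕ}
    (h : x ^ n ∈ A) (g : H) : (g * x * g⁻¹) ^ n ∈ A := by
  rw [conj_pow]
  exact hA.conj_mem _ h g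

theorem xseha_pow {H : Type} [Group H] {f g c : H} (h : g * f = c * f * g) (hf : Commute c f)
    (hg : Commute c g) (n : ℕ) : (f * g) ^ n = c ^ n.choose 2 * (f ^ n * g ^ n) := by
  have h1 : ∀ n : ℕ, g ^ n * f = c ^ n * f * g ^ n := fun n => by
    induction n with
    | zero => simp
    | succ n ih =>
      rw [pow_succ, mul_assoc, h, ← mul_assoc, ← mul_assoc, ← (hg.pow_right n).eq,
        mul_assoc c, ih, pow_succ']
      simp only [mul_assoc]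
  induction n with
  | zero => simp
  | succ n ih =>
    rw [pow_succ, ih, Nat.choose_succ_succ', Nat.choose_one_right, add_comm n (Nat.choose n _),
      pow_add, pow_succ f, pow_succ g]
    calc _ = c ^ n.choose 2 * (f ^ n * (g ^ n * f) * g) := by simp only [mul_assoc]
      _ = c ^ n.choose 2 * (f ^ n * c ^ n * f * g ^ n * g) := by simp only [h1, mul_assoc]
      _ = _ := by simp only [← (hf.pow_pow n n).eq, mul_assoc]

theorem u_elem {H : Type} [Group H] [Finite H] (A F : Subgroup H) (hS : SD A F) (hM : MxA A) (p : ℕ) (f : H) (hf : f ∈ F) (h : f ^ (p * p) ∈ A) :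
    f ^ p ∈ A := by
  obtain ⟨U, Z, _, _, _, _, _, π, ζ, B, -, h2, -, -, -, h6, -, -⟩ := pd_pair A F hS.toPD
  refine xseha_mx hS hM {y | ∃ x ∈ F, x ^ (p * p) ∈ A ∧ x ^ p = y} ?_ ?_ ?_ _ ⟨f, hf, h, rfl⟩
  · rintro _ ⟨x, hx, -, rfl⟩
    exact F.pow_mem hx p
  · rintro _ ⟨x, hx, h1, rfl⟩ g
    exact ⟨g * x * g⁻¹, hS.nF.conj_mem x hx g, xseha_conj hS.nA h1 g, conj_pow⟩
  · rintro _ ⟨x, hx, h1, rfl⟩ _ ⟨y, hy, -, rfl⟩
    have h3 := h6 (⟨x, hx⟩ ^ p) (⟨y, hy⟩ ^ p)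
    rw [map_pow π ⟨y, hy⟩, map_pow, ← MonoidHom.pow_apply, ← map_pow, ← map_pow, ← pow_mul,
      (h2 _).2 h1, map_one, MonoidHom.one_apply, map_one] at h3
    exact commutatorElement_eq_one_iff_mul_comm.1 h3.symm

theorem u_lift {H : Type} [Group H] [Finite H] (A F : Subgroup H) (hS : SD A F) (hM : MxA A) (p q : ℕ) (hpq : (p = 2 ∧ q = 4) ∨ (p = 3 ∧ q = 3)) (f : H) (hf : f ∈ F) (h : f ^ p ∈ A) :
    ∃ a ∈ A, (f * a) ^ q = 1 := by
  obtain ⟨U, Z, _, _, _, _, _, π, ζ, B, h1, h2, -, h4, h5, h6, -, -⟩ := pd_pair A F hS.toPD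
  obtain ⟨hp, ⟨r, hr⟩, ⟨s, hs⟩, hk⟩ : p.Prime ∧ p ∣ q ∧ p ∣ q.choose 2 ∧
      ∀ i j : ℕ, p ∣ i + 0 * j ∨ ∃ k, p ∣ j + k * i := by
    rcases hpq with ⟨rfl, rfl⟩ | ⟨rfl, rfl⟩ <;>
      refine ⟨by norm_num, by norm_num, by decide, fun i j => or_iff_not_imp_right.2 fun h => ?_⟩ <;>
      have h0 := not_exists.1 h 0 <;> have h1 := not_exists.1 h 1 <;>
      have h2 := not_exists.1 h 2 <;>
      have h3 : i % 3 = 0 ∨ i % 3 = 1 ∨ i % 3 = 2 := by omega
    all_goals omega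
  have hO : ∀ x : F, (x : H) ^ p ∈ A ↔ π x ^ p = 1 := fun x => by
    rw [← map_pow, h2]
    rfl
  have hmul : ∀ x y : F, (x : H) ^ p ∈ A → ((x : H) * y) ^ q = (x : H) ^ q * (y : H) ^ q := by
    intro x y hx
    have hc := hS.comm y y.2 x x.2
    rw [xseha_pow (c := ⁅(y : H), (x : H)⁆) (by group) (hS.cen _ hc x x.2) (hS.cen _ hc y y.2), hs,
      pow_mul, ← h6, ← map_pow ζ, ← map_pow (B _), (hO x).1 hx, map_one, map_one, one_pow, one_mul]
  have key : ∀ (g g' : F) (a : H) (k : ℕ), (g : H) ^ p ∈ A → (g' : H) ^ p ∈ A → a ∈ A →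
      (g' : H) ^ p * ((g : H) ^ p) ^ k = a ^ p →
      (∀ e ∈ F, e ^ p ∈ A → e ^ q = 1 → g * e = e * g) → Commute (g : H) g' := by
    intro g g' a k hg hg' ha e hD
    have ca : Commute ((g' : H) * g ^ k) a := (hS.cen a ha (g' * g ^ k : F) (g' * g ^ k).2).symm
    have e1 : ((g' : H) * g ^ k) ^ q = a ^ q := by
      refine (hmul g' (g ^ k) hg').trans ?_
      rw [hr, pow_mul, pow_mul a, ← e, Commute.mul_pow (hS.cen _ hg' _ (hS.le (A.pow_mem hg k))),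
        Subgroup.coe_pow, ← pow_mul, ← pow_mul, ← pow_mul, ← pow_mul]
      congr 2
      ring
    have e2 : ((g' : H) * g ^ k) ^ p ∈ A := (hO (g' * g ^ k)).2 (by
      rw [map_mul, map_pow, mul_pow, (hO g').1 hg', pow_right_comm, (hO g).1 hg, one_pow, one_mul])
    have e3 : Commute (g : H) (g' * g ^ k * a⁻¹) :=
      hD _ (F.mul_mem (g' * g ^ k).2 (F.inv_mem (hS.le ha)))
        (ca.inv_right.mul_pow p ▸ A.mul_mem e2 (A.pow_mem (A.inv_mem ha) p))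
        (by rw [ca.inv_right.mul_pow, e1, inv_pow, mul_inv_cancel])
    simpa using (e3.mul_right (hS.cen a ha g g.2).symm).mul_right
      ((Commute.refl (g : H)).pow_right k).inv_right
  have hD := xseha_mx hS hM
    {g | g ∈ F ∧ g ^ p ∈ A ∧ ∀ e ∈ F, e ^ p ∈ A → e ^ q = 1 → g * e = e * g} (fun x hx => hx.1)
    (fun x hx g => ⟨hS.nF.conj_mem x hx.1 g, xseha_conj hS.nA hx.2.1 g,
      fun e he e1 e2 => by
        have e3 := hx.2.2 (g⁻¹ * e * g⁻¹⁻¹) (hS.nF.conj_mem e he _)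
          (xseha_conj hS.nA e1 _) (by rw [conj_pow, e2, mul_one, mul_inv_cancel])
        calc g * x * g⁻¹ * e = g * (x * (g⁻¹ * e * g⁻¹⁻¹)) * g⁻¹ := by group
          _ = _ := by rw [e3]; group⟩)
    (fun x hx y hy => by
      obtain ⟨z, hz⟩ := IsCyclic.exists_monoid_generator (α := Z)
      obtain ⟨u, hu⟩ := (h4 _).1 hx.2.1
      obtain ⟨v, hv⟩ := (h4 _).1 hy.2.1
      obtain ⟨i, rfl⟩ := hz u
      obtain ⟨j, rfl⟩ := hz v
      have e : ∀ i j k l : ℕ, j + k * i = p * l → ζ (z ^ j) * ζ (z ^ i) ^ k = ζ (z ^ l) ^ p :=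
        fun i j k l e => by
          rw [← map_pow, ← map_pow, ← map_mul, ← pow_mul, ← pow_mul, ← pow_add, mul_comm i, e,
            mul_comm]
      rcases hk i j with ⟨l, hl⟩ | ⟨k, l, hl⟩
      · exact (key ⟨y, hy.1⟩ ⟨x, hx.1⟩ _ 0 hy.2.1 hx.2.1 ((h4 _).2 ⟨_, rfl⟩)
          (hu ▸ hv ▸ e j i 0 l hl) hy.2.2).symm
      · exact key ⟨x, hx.1⟩ ⟨y, hy.1⟩ _ k hx.2.1 hy.2.1 ((h4 _).2 ⟨_, rfl⟩)
          (hu ▸ hv ▸ e i j k l hl) hx.2.2)
  let P0 : Subgroup U :=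
    { carrier := {u | ∃ g : F, π g = u ∧ (g : H) ^ p ∈ A ∧ (g : H) ^ q = 1}
      one_mem' := ⟨1, map_one π, by simp, by simp⟩
      mul_mem' := by
        rintro _ _ ⟨x, rfl, x1, x2⟩ ⟨y, rfl, y1, y2⟩
        refine ⟨x * y, map_mul π x y, (hO _).2 ?_, (hmul x y x1).trans ?_⟩
        · rw [map_mul, mul_pow, (hO x).1 x1, (hO y).1 y1, one_mul]
        · rw [x2, y2, one_mul]
      inv_mem' := by
        rintro _ ⟨x, rfl, x1, x2⟩
        exact ⟨x⁻¹, map_inv π x, by simpa using x1, by simpa using x2⟩ }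
  have hle : P0 ≤ (powMonoidHom p : U →* U).ker := by
    rintro _ ⟨x, rfl, x1, -⟩
    exact (hO x).1 x1
  have hel : ∀ (a : ℕ) (u : U), u ^ p ^ a = 1 → u ^ p = 1 := fun a => by
    induction a with
    | zero => exact fun u hu => by rw [show u = 1 by simpa using hu, one_pow]
    | succ a ih =>
      intro u hu
      obtain ⟨x, rfl⟩ := h1 u
      rw [pow_succ', pow_mul] at hu
      have e := ih _ hu
      rw [← pow_mul, ← map_pow, h2] at e
      exact (hO x).1 (u_elem A F hS hM p x x.2 e)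
  have hperp : perp B P0 = perp B (powMonoidHom p : U →* U).ker := by
    refine le_antisymm (fun y hy u hu => ?_) fun y hy u hu => hy u (hle hu)
    obtain ⟨e, a, e1, -, e2⟩ := p_part p hp y
    obtain ⟨g, hg⟩ := h1 (y ^ e)
    have e3 : (g : H) ∈ A := hD g ⟨g.2, (hO g).2 (hg ▸ hel a _ e1), fun w hw w1 w2 => by
      have e4 := h6 ⟨w, hw⟩ g
      rw [hg, map_pow, hy _ ⟨⟨w, hw⟩, rfl, w1, w2⟩, one_pow, map_one] at e4
      exact (commutatorElement_eq_one_iff_mul_comm.1 e4.symm).symm⟩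
    rw [← e2 Z (B u) 1 (by
      rw [pow_one, ← MonoidHom.pow_apply, ← map_pow, show u ^ p = 1 from hu, map_one,
        MonoidHom.one_apply]), ← hg, (h2 g).2 e3, map_one]
  have hc := card_perp B h5 P0
  rw [hperp, ← card_perp B h5 (powMonoidHom p : U →* U).ker] at hc
  obtain ⟨g, g1, -, g2⟩ := (Subgroup.eq_of_le_of_card_ge hle
    (Nat.eq_of_mul_eq_mul_right Nat.card_pos hc).ge).ge ((hO ⟨f, hf⟩).1 h)
  refine ⟨f⁻¹ * g, (h2 (⟨f, hf⟩⁻¹ * g)).1 ?_, by rwa [mul_inv_cancel_left]⟩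
  rw [map_mul, map_inv, g1, inv_mul_cancel]

end Pool.Agent.N9181
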