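import Pool.Agent.MP_9181f8_al.S.SBasic
import Pool.Agent.MP_9181f8_al.S.Proj

namespace Pool.Agent.N9181

open scoped commutatorElement

open scoped Pointwise in
theorem xsefin_frat {H : Type} [Group H] [Finite H] (p : ℕ) [Fact p.Prime] (Y : Subgroup H)
    (y : H) (hy : y ∈ Subgroup.normalizer (Y : Set H)) :
    ∃ T : Subgroup H, IsPGroup p T ∧ T ≤ Y ∧ (∃ c ∈ Y, y * c ∈ Subgroup.normalizer (T : Set H)) ∧
      ∀ g ∈ Y, ∀ a : ℕ, g ^ (p ^ a) = 1 → ∃ d ∈ Y, d * g * d⁻¹ ∈ T := by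
  obtain ⟨S⟩ : Nonempty (Sylow p Y) := inferInstance
  refine ⟨(S : Subgroup Y).map Y.subtype, S.isPGroup'.map _, Subgroup.map_subtype_le _, ?_, ?_⟩
  · let α : MulAut Y := Y.normalizerMonoidHom ⟨y, hy⟩
    have hα : ∀ x : Y, ((α x : Y) : H) = y * x * y⁻¹ := fun x => rfl
    obtain ⟨c, hc⟩ := MulAction.exists_smul_eq Y S (α⁻¹ • S)
    refine ⟨c, c.2, Subgroup.mem_normalizer_fintype ?_⟩
    rintro _ ⟨s, hs, rfl⟩
    have h1 : MulAut.conj c • s ∈ ((c • S : Sylow p Y) : Subgroup Y) := by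
      rw [Sylow.coe_subgroup_smul]
      exact Subgroup.smul_mem_pointwise_smul _ _ _ hs
    rw [hc, Sylow.pointwise_smul_def, Subgroup.mem_pointwise_smul_iff_inv_smul_mem,
      inv_inv] at h1
    refine ⟨_, h1, ?_⟩
    show ((α (c * s * c⁻¹) : Y) : H) = _
    rw [hα]
    simp only [Subgroup.coe_mul, Subgroup.coe_inv, Subgroup.subtype_apply]
    group
  · intro g hg a ha
    have h1 : IsPGroup p (Subgroup.zpowers (⟨g, hg⟩ : Y)) := by
      rintro ⟨_, n, rfl⟩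
      refine ⟨a, Subtype.ext (Subtype.ext ?_)⟩
      show (g ^ n) ^ (p ^ a) = 1
      rw [← zpow_natCast, ← zpow_mul, mul_comm, zpow_mul, zpow_natCast, ha, one_zpow]
    obtain ⟨Q, hQ⟩ := h1.exists_le_sylow
    obtain ⟨d, hd⟩ := MulAction.exists_smul_eq Y Q S
    refine ⟨d, d.2, MulAut.conj d • (⟨g, hg⟩ : Y), ?_, rfl⟩
    rw [← hd]
    show _ ∈ ((d • Q : Sylow p Y) : Subgroup Y)
    rw [Sylow.coe_subgroup_smul]
    exact Subgroup.smul_mem_pointwise_smul _ _ _ (hQ (Subgroup.mem_zpowers _))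

theorem xsefin_grp {V : Type} [AddCommGroup V] [Module K V]
    {H : Type} [Group H] (ρ : Representation K H V) {I : Type} [MulAction H I]
    (W : I → Submodule K V) (i : I) :
    ∃ Y : Subgroup H, ∀ g, g ∈ Y ↔ DiagE ρ W g ∧ ∀ w ∈ W i, ρ g w = w := by
  refine ⟨⟨⟨⟨{g | DiagE ρ W g ∧ ∀ w ∈ W i, ρ g w = w}, ?_⟩, ?_⟩, ?_⟩, fun g => Iff.rfl⟩
  · rintro a b ⟨ha, ha'⟩ ⟨hb, hb'⟩
    refine ⟨fun k => ?_, fun w hw => by rw [rho_mul, hb' w hw, ha' w hw]⟩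
    obtain ⟨h1, c, hc, h2⟩ := ha k
    obtain ⟨h3, d, hd, h4⟩ := hb k
    refine ⟨by rw [mul_smul, h3, h1], d * c, by rw [mul_pow, hc, hd, one_mul], fun w hw => ?_⟩
    rw [rho_mul, h4 w hw, map_smul, h2 w hw, smul_smul]
  · refine ⟨fun k => ⟨one_smul _ _, 1, one_pow _, fun w _ => ?_⟩, fun w _ => ?_⟩
    · rw [map_one, one_smul]; rfl
    · rw [map_one]; rfl
  · rintro a ⟨ha, ha'⟩
    refine ⟨fun k => ?_, fun w hw => ?_⟩
    · obtain ⟨h1, c, hc, h2⟩ := ha k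
      have hc0 : c ≠ 0 := by
        rintro rfl
        rw [zero_pow (by norm_num)] at hc
        exact zero_ne_one hc
      refine ⟨inv_smul_eq_iff.2 h1.symm, c⁻¹, by rw [inv_pow, hc, inv_one], fun w hw => ?_⟩
      rw [eq_inv_smul_iff₀ hc0, ← map_smul, ← h2 w hw, rho_inv]
    · have := rho_inv ρ a w
      rwa [ha' w hw] at this

theorem efin {V : Type} [AddCommGroup V] [Module K V] [Module.Finite K V]
    {H : Type} [Group H] [Finite H] (ρ : Representation K H V) (hE5 : HEP ρ 5) (hP : Par ρ) {I : Type} [Fintype I] [MulAction H I] (W : I → Submodule K V) (hB : BD ρ I W) (h1 : ∀ i, Module.finrank K (W i) = 1) (i : I)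
    (h : ∀ k, k ≠ i → ∃ (g : H) (c : K), DiagE ρ W g ∧ (∀ w ∈ W i, ρ g w = w) ∧ c ≠ 1 ∧
      ∀ u ∈ W k, ρ g u = c • u) : False := by
  classical
  have : Fact (Nat.Prime 3) := ⟨by norm_num⟩
  obtain ⟨e, he, he0⟩ := (Submodule.ne_bot_iff _).1 (hB.ne i)
  obtain ⟨y, hy⟩ := hE5 e
  have hyi : y • i = i := blk_eq ρ W hB i i y e he he0 (by rw [hy]; exact (W i).smul_mem _ he)
  obtain ⟨Y, hY⟩ := xsefin_grp ρ W i
  have hconj : ∀ (d g : H) (k : I) (c : K), (∀ u ∈ W (d⁻¹ • k), ρ g u = c • u) →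
      ∀ u ∈ W k, ρ (d * g * d⁻¹) u = c • u := by
    intro d g k c hg u hu
    rw [rho_mul, rho_mul, hg _ (hB.map d⁻¹ k u hu), map_smul, rho_inv']
  have hyY : y ∈ Subgroup.normalizer (Y : Set H) := by
    refine Subgroup.mem_normalizer_fintype ?_
    intro g hg
    obtain ⟨hg1, hg2⟩ := (hY g).1 hg
    refine (hY _).2 ⟨fun k => ?_, fun w hw => ?_⟩
    · obtain ⟨h2, c, hc, h3⟩ := hg1 (y⁻¹ • k)
      exact ⟨by rw [mul_smul, mul_smul, h2, smul_inv_smul], c, hc, hconj y g k c h3⟩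
    · have h2 := hconj y g i 1 (by
        rw [inv_smul_eq_iff.2 hyi.symm]
        intro u hu
        rw [one_smul, hg2 u hu]) w hw
      rwa [one_smul] at h2
  obtain ⟨T, hT, hTY, ⟨c, hc, hcn⟩, hT2⟩ := xsefin_frat 3 Y y hyY
  obtain ⟨P, hP1, hP2, -, -, hP5⟩ := exists_proj ρ W hB
  refine hP T (y * c) e hT hcn he0 (le_antisymm ?_ ?_) ?_
  · intro v hv
    have hk : ∀ k, k ≠ i → P k v = 0 := by
      intro k hki
      obtain ⟨g, x, hg1, hg2, hx, hg3⟩ := h k hki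
      have hx3 : x ^ (3 ^ 1) = 1 := by
        obtain ⟨-, x', hx', hg4⟩ := hg1 k
        obtain ⟨u, hu, hu0⟩ := (Submodule.ne_bot_iff _).1 (hB.ne k)
        have h2 : x = x' := smul_left_injective K hu0 ((hg3 u hu).symm.trans (hg4 u hu))
        rw [pow_one, h2, hx']
      obtain ⟨n, a, hn1, hn2⟩ := eig_ppart ρ 3 (by norm_num) g
      obtain ⟨d, hd, hdT⟩ := hT2 (g ^ n) (Y.pow_mem ((hY g).2 ⟨hg1, hg2⟩) n) a hn1
      have hdk : d⁻¹ • k = k := (((hY _).1 (Y.inv_mem hd)).1 k).1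
      have h3 := hconj d (g ^ n) k x (by
        rw [hdk]
        exact fun u hu => hn2 u x 1 (hg3 u hu) hx3) _ (hP1 k v)
      have h4 := hP5 (d * g ^ n * d⁻¹) k v
      rw [(((hY _).1 (hTY hdT)).1 k).1, hv _ hdT, h3] at h4
      have h5 : (1 - x) • P k v = 0 := by rw [sub_smul, one_smul, ← h4, sub_self]
      exact (smul_eq_zero.1 h5).resolve_left fun h6 => hx (sub_eq_zero.1 h6).symm
    have h2 := hP2 v
    rw [Finset.sum_eq_single i (fun k _ hki => hk k hki) (fun hi => absurd (Finset.mem_univ i) hi)]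
      at h2
    obtain ⟨x, hx⟩ := line_ext (W i) (h1 i) e he he0 v (h2 ▸ hP1 i v)
    exact Submodule.mem_span_singleton.2 ⟨x, hx.symm⟩
  · rw [Submodule.span_singleton_le_iff_mem]
    exact fun t ht => ((hY t).1 (hTY ht)).2 e he
  · rw [rho_mul, ((hY c).1 hc).2 e he, hy]

end Pool.Agent.N9181
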