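import Pool.Agent.MP_9181f8_al.S.SBasic
import Pool.Agent.MP_9181f8_al.N.SDPair

namespace Pool.Agent.N9181

open scoped commutatorElement

theorem xseiga_inj {V : Type} [AddCommGroup V] [Module K V] {H : Type} [Group H]
    (ρ : Representation K H V) (x : H) : Function.Injective (ρ x) :=
  Function.LeftInverse.injective (rho_inv ρ x)

theorem xseiga_fix {V : Type} [AddCommGroup V] [Module K V] {H : Type} [Group H]
    (ρ : Representation K H V) (h x : H) (c : K) (v : V) (h1 : ρ h v = c • v)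
    (h2 : ρ (x * h * x⁻¹) v = c • v) : ρ ⁅x, h⁆ v = v := by
  rcases eq_or_ne c 0 with rfl | hc
  · rw [zero_smul, ← map_zero (ρ h)] at h1
    rw [xseiga_inj ρ h h1, map_zero]
  · have e : ρ ⁅x, h⁆ (ρ h v) = c • v := by
      rw [← rho_mul, commutatorElement_def, inv_mul_cancel_right, h2]
    rw [h1, map_smul] at e
    exact smul_right_injective V hc e

theorem xseiga_zero {V : Type} [AddCommGroup V] [Module K V] {H : Type} [Group H]
    (ρ : Representation K H V) (A : Subgroup H) (hA : FreeOn ρ A) (g g' : H)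
    (ha : g⁻¹ * g' ∈ A) (hn : g ≠ g') (v : V) (hv : ρ g v = ρ g' v) : v = 0 := by
  by_contra h0
  refine hn (inv_mul_eq_one.1 (hA _ ha v h0 ?_))
  rw [rho_mul, ← hv, rho_inv]

theorem eb_gen {V : Type} [AddCommGroup V] [Module K V] [Module.Finite K V]
    {H : Type} [Group H] [Finite H] (ρ : Representation K H V) (h x : H) (c : K) (U : Submodule K V)
    (hU : ∀ v, ρ h v = c • v → ρ (x * h * x⁻¹) v = c • v → v ∈ U) :
    2 * ed (ρ h) c ≤ Module.finrank K V + Module.finrank K U := by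
  have h1 := Submodule.finrank_sup_add_finrank_inf_eq (Module.End.eigenspace (ρ h) c)
    ((Module.End.eigenspace (ρ h) c).map (ρ x))
  have h2 := (Submodule.equivMapOfInjective (ρ x) (xseiga_inj ρ x)
    (Module.End.eigenspace (ρ h) c)).finrank_eq
  have h3 : Module.End.eigenspace (ρ h) c ⊓ (Module.End.eigenspace (ρ h) c).map (ρ x) ≤ U := by
    rintro v ⟨a1, w, a2, rfl⟩
    refine hU _ (Module.End.mem_eigenspace_iff.1 a1) ?_
    rw [rho_mul, rho_inv, rho_mul, Module.End.mem_eigenspace_iff.1 a2, map_smul]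
  have h4 := Submodule.finrank_mono h3
  have h5 := Submodule.finrank_le (Module.End.eigenspace (ρ h) c ⊔ (Module.End.eigenspace (ρ h) c).map (ρ x))
  unfold ed
  omega

theorem eb_half {V : Type} [AddCommGroup V] [Module K V] [Module.Finite K V]
    {H : Type} [Group H] [Finite H] (ρ : Representation K H V) (A F : Subgroup H) (hS : SD A F) (hA : FreeOn ρ A) (h : H) (hh : h ∉ A) (h2 : h ∉ Subgroup.centralizer (A : Set H) ∨ h ∈ F) (c : K) :
    2 * ed (ρ h) c ≤ Module.finrank K V := by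
  have key : ∃ x : H, ⁅x, h⁆ ∈ A ∧ ⁅x, h⁆ ≠ 1 := by
    rcases h2 with h2 | h2
    · rw [Subgroup.mem_centralizer_iff] at h2
      push Not at h2
      obtain ⟨x, hx, hne⟩ := h2
      refine ⟨x, ?_, fun e => hne (commutatorElement_eq_one_iff_mul_comm.1 e)⟩
      have := A.mul_mem hx (hS.nA.conj_mem _ (A.inv_mem hx) h)
      rwa [commutatorElement_def, mul_assoc, mul_assoc, ← mul_assoc h]
    · by_contra hc
      push Not at hc
      exact hh (hS.nd h h2 fun y hy =>
        (commutatorElement_eq_one_iff_mul_comm.1 (hc y (hS.comm y hy h h2))).symm)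
  obtain ⟨x, hx, hne⟩ := key
  have := eb_gen ρ h x c ⊥ fun v a1 a2 => by
    by_contra h0
    exact hne (hA _ hx v h0 (xseiga_fix ρ h x c v a1 a2))
  simpa using this

theorem tri {V : Type} [AddCommGroup V] [Module K V] [Module.Finite K V]
    {H : Type} [Group H] [Finite H] (ρ : Representation K H V) (A : Subgroup H) (hA : FreeOn ρ A) (s f f1 f2 : H) (e1 : f1 = s * f * s⁻¹)
    (e2 : f2 = s * f1 * s⁻¹) (c1 : Commute f f1) (c2 : Commute f f2) (c3 : Commute f1 f2)
    (a1 : f⁻¹ * f1 ∈ A) (a2 : f⁻¹ * f2 ∈ A) (n1 : f ≠ f1) (n2 : f ≠ f2) (n3 : f1 ≠ f2) (c : K) :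
    3 * ed (ρ s) c ≤ Module.finrank K V := by
  rcases eq_or_ne c 0 with rfl | hc
  · have : Module.End.eigenspace (ρ s) 0 = ⊥ := by
      rw [eq_bot_iff]
      intro v hv
      rw [Module.End.mem_eigenspace_iff, zero_smul, ← map_zero (ρ s)] at hv
      exact xseiga_inj ρ s hv
    rw [ed, this, finrank_bot]
    exact Nat.zero_le _
  set U := Module.End.eigenspace (ρ s) c with hU
  have step : ∀ (g : H) (u0 u1 u2 : U), (u0 : V) + ρ g u1 + ρ g (ρ g u2) = 0 →
      (u0 : V) + ρ (s * g * s⁻¹) u1 + ρ (s * g * s⁻¹) (ρ (s * g * s⁻¹) u2) = 0 := by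
    intro g u0 u1 u2 h0
    have e : ∀ v, ρ s (ρ g v) = ρ (s * g * s⁻¹) (ρ s v) := fun v => by
      rw [rho_mul, rho_inv, rho_mul]
    have h1 := congrArg (ρ s) h0
    rw [map_add, map_add, e, e, e, Module.End.mem_eigenspace_iff.1 u0.2,
      Module.End.mem_eigenspace_iff.1 u1.2, Module.End.mem_eigenspace_iff.1 u2.2, map_smul,
      map_smul, map_smul, ← smul_add, ← smul_add, map_zero] at h1
    exact (smul_eq_zero.1 h1).resolve_left hc
  have red2 : ∀ (g : H) (u0 u1 u2 : V), Commute f g → f⁻¹ * g ∈ A → f ≠ g →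
      u0 + ρ f u1 + ρ f (ρ f u2) = 0 → u0 + ρ g u1 + ρ g (ρ g u2) = 0 →
      u1 + ρ f u2 + ρ g u2 = 0 := by
    intro g u0 u1 u2 hc ha hn h0 h1
    refine xseiga_zero ρ A hA f g ha hn _ ?_
    have e : ρ f (ρ g u2) = ρ g (ρ f u2) := by rw [← rho_mul, hc.eq, rho_mul]
    simp only [map_add, e]
    rw [← sub_eq_zero, ← sub_self (0 : V)]
    nth_rw 1 [← h0]
    rw [← h1]
    abel
  let L : (U × U × U) →ₗ[K] V := U.subtype.coprod
    (((ρ f).comp U.subtype).coprod ((ρ f).comp ((ρ f).comp U.subtype)))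
  have hL : Function.Injective L := by
    rw [injective_iff_map_eq_zero]
    rintro ⟨u0, u1, u2⟩ h0
    have h0' : (u0 : V) + ρ f u1 + ρ f (ρ f u2) = 0 := by rw [add_assoc]; exact h0
    have h1 := step f _ _ _ h0'
    rw [← e1] at h1
    have h2 := step f1 _ _ _ h1
    rw [← e2] at h2
    have h3 := red2 f1 _ _ _ c1 a1 n1 h0' h1
    have h4 := red2 f2 _ _ _ c2 a2 n2 h0' h2
    have a3 : f1⁻¹ * f2 ∈ A := by
      have := A.mul_mem (A.inv_mem a1) a2
      rwa [mul_inv_rev, inv_inv, mul_assoc, mul_inv_cancel_left] at this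
    have z2 : (u2 : V) = 0 :=
      xseiga_zero ρ A hA f1 f2 a3 n3 _ (add_left_cancel (h3.trans h4.symm))
    have z1 : (u1 : V) = 0 := by simpa [z2] using h3
    have z0 : (u0 : V) = 0 := by simpa [z1, z2] using h0'
    exact Prod.ext (Subtype.ext z0) (Prod.ext (Subtype.ext z1) (Subtype.ext z2))
  have := LinearMap.finrank_le_finrank_of_injective hL
  rw [Module.finrank_prod, Module.finrank_prod] at this
  unfold ed
  rw [← hU]
  omega

theorem eb_F3 {V : Type} [AddCommGroup V] [Module K V] [Module.Finite K V]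
    {H : Type} [Group H] [Finite H] (ρ : Representation K H V) (A F : Subgroup H) (hS : SD A F) (hA : FreeOn ρ A) (y : H) (hy : y ∈ F) (hyA : y ∉ A) (n : ℕ) (hn : Odd n)
    (hyn : y ^ n ∈ A) (c : K) : 3 * ed (ρ y) c ≤ Module.finrank K V := by
  obtain ⟨f, hf, hne⟩ : ∃ f ∈ F, y * f ≠ f * y := by
    by_contra hc
    push Not at hc
    exact hyA (hS.nd y hy hc)
  have ha : ⁅y, f⁆ ∈ A := hS.comm y hy f hf
  have h1 : ⁅y, f⁆ ≠ 1 := fun e => hne (commutatorElement_eq_one_iff_mul_comm.1 e)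
  have e1 : y * f = ⁅y, f⁆ * f * y := by rw [commutatorElement_def]; group
  generalize ⁅y, f⁆ = a at ha h1 e1
  have cy : Commute a y := hS.cen a ha y hy
  have cf : Commute a f := hS.cen a ha f hf
  have e2 : ∀ k : ℕ, y ^ k * f = a ^ k * f * y ^ k := by
    intro k
    induction k with
    | zero => simp
    | succ k ih =>
      rw [pow_succ' y, mul_assoc, ih, ← mul_assoc, ← mul_assoc, ← (cy.pow_left k).eq, mul_assoc _ y,
        e1, pow_succ a]
      simp only [mul_assoc]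
  have h2 : a ^ n = 1 := by
    have := e2 n
    rw [hS.cen _ hyn f hf] at this
    exact mul_eq_right.1 (mul_right_cancel this).symm
  have h3 : a * a ≠ 1 := fun e => h1 (by
    obtain ⟨k, rfl⟩ := hn
    rwa [pow_succ, pow_mul, sq, e, one_pow, one_mul] at h2)
  have hm : ∀ b ∈ A, f⁻¹ * (b * f) ∈ A := fun b hb => by
    rwa [hS.cen b hb f hf, inv_mul_cancel_left]
  refine tri ρ A hA y f (a * f) (a * a * f) (by rw [e1, mul_inv_cancel_right]) ?_
    (cf.symm.mul_right (Commute.refl f)) ((cf.symm.mul_right cf.symm).mul_right (Commute.refl f))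
    ?_ (hm _ ha) (hm _ (A.mul_mem ha ha)) (fun e => h1 (mul_eq_right.1 e.symm))
    (fun e => h3 (mul_eq_right.1 e.symm))
    (fun e => h1 (mul_eq_right.1 (mul_right_cancel e).symm)) c
  · rw [← mul_assoc, ← cy.eq, mul_assoc a y, e1]
    group
  · have c1 : Commute (a * f) a := (Commute.refl a).mul_left cf.symm
    exact (c1.mul_right c1).mul_right (cf.mul_left (Commute.refl f))

theorem eb_out3 {V : Type} [AddCommGroup V] [Module K V] [Module.Finite K V]
    {H : Type} [Group H] [Finite H] (ρ : Representation K H V) (A F : Subgroup H) (hS : SD A F) (hA : FreeOn ρ A) (s : H) (hs : s ^ 3 = 1) (hC : s ∉ Subgroup.centralizer (A : Set H)) (c : K) :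
    3 * ed (ρ s) c ≤ Module.finrank K V := by
  rw [Subgroup.mem_centralizer_iff] at hC
  push Not at hC
  obtain ⟨f, hf, hne⟩ := hC
  have hf : f ∈ A := hf
  have h1 := hS.nA.conj_mem f hf s
  have h2 := hS.nA.conj_mem _ h1 s
  have cm : ∀ a ∈ A, ∀ b ∈ A, Commute a b := fun a ha b hb => hS.cen a ha b (hS.le hb)
  have n1 : f ≠ s * f * s⁻¹ := fun e => hne (eq_mul_inv_iff_mul_eq.1 e)
  refine tri ρ A hA s f _ _ rfl rfl (cm _ hf _ h1) (cm _ hf _ h2) (cm _ h1 _ h2)
    (A.mul_mem (A.inv_mem hf) h1) (A.mul_mem (A.inv_mem hf) h2) n1 (fun e => n1 ?_)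
    (fun e => n1 (mul_left_cancel (mul_right_cancel e))) c
  calc f = s ^ 3 * f * (s ^ 3)⁻¹ := by rw [hs]; group
    _ = s * (s * (s * f * s⁻¹) * s⁻¹) * s⁻¹ := by rw [pow_three]; group
    _ = s * f * s⁻¹ := by rw [← e]

theorem eb_23 {V : Type} [AddCommGroup V] [Module K V] [Module.Finite K V]
    {H : Type} [Group H] [Finite H] (ρ : Representation K H V) (A F : Subgroup H) (hS : SD A F) (hA : FreeOn ρ A) (h f : H) (hf : f ∈ F) (hx : ⁅f, h⁆ ∉ A) (n : ℕ) (hn : Odd n)
    (hxn : ⁅f, h⁆ ^ n ∈ A) (c : K) : 3 * ed (ρ h) c ≤ 2 * Module.finrank K V := by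
  have hF : ⁅f, h⁆ ∈ F := by
    have := F.mul_mem hf (hS.nF.conj_mem _ (F.inv_mem hf) h)
    rwa [commutatorElement_def, mul_assoc, mul_assoc, ← mul_assoc h]
  have h1 := eb_F3 ρ A F hS hA _ hF hx n hn hxn 1
  have h2 := eb_gen ρ h f c (Module.End.eigenspace (ρ ⁅f, h⁆) 1) fun v a1 a2 => by
    rw [Module.End.mem_eigenspace_iff, one_smul]
    exact xseiga_fix ρ h f c v a1 a2
  unfold ed at h1 h2 ⊢
  omega

end Pool.Agent.N9181
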