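import Pool.Agent.MP_9181f8_al.S.Proj
import Pool.Agent.MP_9181f8_al.N.StepA

namespace Pool.Agent.N9181

open scoped commutatorElement

section Aux

variable {V : Type} [AddCommGroup V] [Module K V] [Module.Finite K V]
  {H : Type} [Group H] [Finite H] (ρ : Representation K H V) {I : Type} [Fintype I]
  [MulAction H I] (W : I → Submodule K V)

theorem xsfin1_bal0 [DecidableEq I] (hB : BD ρ I W) (hbal : HBal3 ρ) (t : H) (a : ℕ)
    (ht : t ^ (3 ^ a) = 1) (hv : ∃ v, v ≠ 0 ∧ ρ t v = v) :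
    ∑ i ∈ Finset.univ.filter (fun i : I => t • i = i), edOn (W i) (ρ t) 3 =
      ∑ i ∈ Finset.univ.filter (fun i : I => t • i = i), edOn (W i) (ρ t) 9 := by
  obtain ⟨c, hc, -⟩ := cyc ρ W hB t a ht
  obtain ⟨v, hv0, hv⟩ := hv
  have := hbal t a v ht hv0 hv
  rw [hc 3 (by decide), hc 9 (by decide)] at this
  omega

theorem xsfin1_bal (hB : BD ρ I W) (hbal : HBal3 ρ) (g : H) (b : ℕ)
    (hg : (ρ g) ^ (3 ^ b) = 1) (hf : ∀ i : I, g • i = i) (hv : ∃ v, v ≠ 0 ∧ ρ g v = v) :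
    ∑ i, edOn (W i) (ρ g) 3 = ∑ i, edOn (W i) (ρ g) 9 := by
  classical
  obtain ⟨e, a, h1, -, h2⟩ := p_part 3 Nat.prime_three g
  have h3 : ρ (g ^ e) = ρ g := h2 _ ρ b hg
  have h4 : ∀ i : I, (g ^ e) • i = i := fun i =>
    (MulAction.stabilizer H i).pow_mem (show g ∈ MulAction.stabilizer H i from hf i) e
  have := xsfin1_bal0 ρ W hB hbal (g ^ e) a h1 (by rw [h3]; exact hv)
  rwa [Finset.filter_true_of_mem fun i _ => h4 i, h3] at this

theorem xsfin1_pair (hB : BD ρ I W) (hbal : HBal3 ρ) (t x h : H) (a : ℕ) (i1 : I) (s : K)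
    (hs : s ≠ 0) (h12 : i1 ≠ h • i1) (ht : t ^ (3 ^ a) = 1) (hx : x ^ (3 ^ a) = 1)
    (ft : ∀ i : I, t • i = i) (fx : ∀ i : I, x • i = i)
    (st : ∀ i, i ≠ i1 → ∀ w ∈ W i, ρ t w = (3 : K) • w)
    (sx : ∀ i, i ≠ i1 → ∀ w ∈ W i, ρ x w = s • w) (hv : 0 < edOn (W i1) (ρ x) 9) :
    ∃ E : I → K → ℕ, ∑ i, E i 3 = ∑ i, E i 9 ∧ (∀ ν, E i1 (3 * ν) = edOn (W i1) (ρ x) ν) ∧
      (∀ ν, E (h • i1) (s * ν) = edOn (W i1) (ρ t) ν) ∧
      ∀ i, i ≠ i1 → i ≠ h • i1 →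
        E i (3 * s) = Module.finrank K (W i) ∧ ∀ ν, 3 * s ≠ ν → E i ν = 0 := by
  have f2 : ∀ i : I, (h * t * h⁻¹) • i = i := fun i => by
    rw [mul_smul, mul_smul, ft, smul_inv_smul]
  have s2 : ∀ i, i ≠ h • i1 → ∀ w ∈ W i, ρ (h * t * h⁻¹) w = (3 : K) • w := by
    intro i hi w hw
    have h1 : h⁻¹ • i ≠ i1 := fun e => hi (by rw [← e, smul_inv_smul])
    rw [map_mul, map_mul, Module.End.mul_apply, Module.End.mul_apply,
      st _ h1 _ (hB.map h⁻¹ i w hw), map_smul, ← Module.End.mul_apply, ← map_mul,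
      mul_inv_cancel, map_one, Module.End.one_apply]
  have o2 : (h * t * h⁻¹) ^ (3 ^ a) = 1 := by rw [conj_pow, ht, mul_one, mul_inv_cancel]
  have d2 := fun c => (dim_eq ρ W hB h t i1 c).2
  generalize h * t * h⁻¹ = u at f2 s2 o2 d2
  generalize h • i1 = i2 at h12 s2 d2
  have mx : ∀ i, ∀ w ∈ W i, ρ x w ∈ W i := fun i w hw => by
    have := hB.map x i w hw
    rwa [fx] at this
  have mu : ∀ i, ∀ w ∈ W i, ρ u w ∈ W i := fun i w hw => by
    have := hB.map u i w hw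
    rwa [f2] at this
  have hc : Commute (ρ u) (ρ x) := by
    refine ext_blocks ρ W hB _ _ fun i w hw => ?_
    rw [Module.End.mul_apply, Module.End.mul_apply]
    by_cases hi : i = i1
    · have hi2 : i ≠ i2 := hi ▸ h12
      rw [s2 i hi2 _ (mx i w hw), s2 i hi2 w hw, map_smul]
    · rw [sx i hi _ (mu i w hw), sx i hi w hw, map_smul]
  have ho : (ρ (u * x)) ^ (3 ^ a) = 1 := by
    rw [map_mul, hc.mul_pow, ← map_pow, ← map_pow, o2, hx, map_one, mul_one]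
  have e1 : ∀ w ∈ W i1, ρ (u * x) w = (3 : K) • ρ x w := fun w hw => by
    rw [map_mul, Module.End.mul_apply, s2 i1 h12 _ (mx i1 w hw)]
  have e2 : ∀ w ∈ W i2, ρ (u * x) w = s • ρ u w := fun w hw => by
    rw [map_mul, Module.End.mul_apply, sx i2 h12.symm w hw, map_smul]
  have e3 : ∀ i, i ≠ i1 → i ≠ i2 → ∀ w ∈ W i, ρ (u * x) w = (3 * s) • w := fun i a1 a2 w hw => by
    rw [map_mul, Module.End.mul_apply, sx i a1 w hw, map_smul, s2 i a2 w hw, smul_smul, mul_comm]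
  refine ⟨fun i ν => edOn (W i) (ρ (u * x)) ν, ?_, fun ν => ?_, fun ν => ?_, fun i a1 a2 => ?_⟩
  · refine xsfin1_bal ρ W hB hbal _ a ho (fun i => by rw [mul_smul, fx, f2]) ?_
    obtain ⟨w, hw, hw0, e⟩ := (edOn_pos _ _ _).1 hv
    refine ⟨w, hw0, ?_⟩
    rw [e1 w hw, e, smul_smul, show (3 * 9 : K) = 1 by decide, one_smul]
  · exact xstepa_mul _ _ _ _ _ (by decide) e1
  · exact (xstepa_mul _ _ _ _ _ hs e2).trans (d2 ν)
  · exact ⟨xstepa_full _ _ _ (e3 i a1 a2), fun ν hν => xstepa_zero _ _ _ _ (e3 i a1 a2) hν⟩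

theorem xsfin1_cube [MulAction.IsPretransitive H I] (hB : BD ρ I W) (hbal : HBal3 ρ)
    (t : H) (a : ℕ) (i1 i2 i3 : I) (h12 : i1 ≠ i2)
    (h13 : i1 ≠ i3) (h23 : i2 ≠ i3) (ht : t ^ (3 ^ a) = 1) (ft : ∀ i : I, t • i = i)
    (st : ∀ i, i ≠ i1 → ∀ w ∈ W i, ρ t w = (3 : K) • w) : (ρ t) ^ 3 = 1 := by
  by_contra hne
  obtain ⟨k, k1, k2⟩ : ∃ k, ρ (t ^ (3 ^ (k + 1))) ≠ 1 ∧ ρ (t ^ (3 ^ (k + 1 + 1))) = 1 := by
    by_contra hn
    have h1 : ∀ k, ρ (t ^ (3 ^ (k + 1))) ≠ 1 := by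
      intro k
      induction k with
      | zero => rw [map_pow]; exact hne
      | succ k ih => exact fun e => hn ⟨k, ih, e⟩
    refine h1 a ?_
    rw [pow_succ, pow_mul, ht, one_pow, map_one]
  have oy : (t ^ (3 ^ (k + 1))) ^ (3 ^ a) = 1 := by
    rw [← pow_mul, mul_comm, pow_mul, ht, one_pow]
  have fy : ∀ i : I, (t ^ (3 ^ (k + 1))) • i = i := fun i =>
    (MulAction.stabilizer H i).pow_mem (show t ∈ MulAction.stabilizer H i from ft i) _
  have sy : ∀ i, i ≠ i1 → ∀ w ∈ W i, ρ (t ^ (3 ^ (k + 1))) w = (1 : K) • w := by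
    intro i hi w hw
    rw [map_pow, xstepa_pow _ _ _ (st i hi) _ w hw, pow_succ', pow_mul,
      show (3 : K) ^ 3 = 1 by decide, one_pow]
  have b9 : edOn (W i1) (ρ t) 9 ≤ edOn (W i1) (ρ (t ^ (3 ^ (k + 1)))) 1 := by
    refine Submodule.finrank_mono fun w hw => ⟨hw.1, Module.End.mem_eigenspace_iff.2 ?_⟩
    rw [rho_pow_eig ρ t w 9 (Module.End.mem_eigenspace_iff.1 hw.2), pow_succ', pow_mul,
      show (9 : K) ^ 3 = 1 by decide, one_pow]
  rw [pow_succ _ (k + 1), pow_mul, map_pow] at k2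
  generalize t ^ (3 ^ (k + 1)) = y at k1 k2 oy fy sy b9
  have my : ∀ w ∈ W i1, ρ y w ∈ W i1 := fun w hw => by
    have := hB.map y i1 w hw
    rwa [fy] at this
  have b1 : ∑ i, edOn (W i) (ρ y) 3 = ∑ i, edOn (W i) (ρ y) 9 := by
    refine xsfin1_bal ρ W hB hbal y a (by rw [← map_pow, oy, map_one]) fy ?_
    obtain ⟨w, hw, hw0⟩ := Submodule.exists_mem_ne_zero_of_ne_bot (hB.ne i2)
    exact ⟨w, hw0, by rw [sy i2 h12.symm w hw, one_smul]⟩
  rw [Finset.sum_eq_single i1 (fun i _ hi => xstepa_zero _ _ _ _ (sy i hi) (by decide))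
      (fun h => (h (Finset.mem_univ _)).elim),
    Finset.sum_eq_single i1 (fun i _ hi => xstepa_zero _ _ _ _ (sy i hi) (by decide))
      (fun h => (h (Finset.mem_univ _)).elim)] at b1
  have b2 := split3 (W i1) (ρ y) my fun w _ => by rw [k2, Module.End.one_apply]
  have b3 : 0 < edOn (W i1) (ρ y) 3 := by
    refine Nat.pos_of_ne_zero fun e => k1 (ext_blocks ρ W hB _ _ fun i w hw => ?_)
    rw [Module.End.one_apply]
    by_cases hi : i = i1
    · subst hi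
      rw [xstepa_of_full (W i) (ρ y) 1 (by omega) w hw, one_smul]
    · rw [sy i hi w hw, one_smul]
  obtain ⟨h, rfl⟩ := MulAction.exists_smul_eq H i1 i2
  obtain ⟨E, c1, c2, c3, c4⟩ :=
    xsfin1_pair ρ W hB hbal t y h a i1 1 one_ne_zero h12 ht oy ft fy st sy (by omega)
  have c5 := xstepa_sum Finset.univ (fun i => E i 3) (fun i => E i 9) i1 (h • i1) i3
    (Finset.mem_univ _) (Finset.mem_univ _) (Finset.mem_univ _) h12 h13 h23
    (fun i _ a1 a2 => (c4 i a1 a2).2 9 (by decide)) c1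
  have c6 := c2 1
  have c7 := c2 3
  have c8 := c3 9
  have c9 := (c4 i3 h13.symm h23.symm).1
  rw [mul_one] at c6 c9
  rw [show (3 * 3 : K) = 9 by decide] at c7
  rw [one_mul] at c8
  have c10 := (xstepa_dim ρ W hB i1 i3).1
  omega

theorem xsfin1_fin [MulAction.IsPretransitive H I] (hB : BD ρ I W) (hbal : HBal3 ρ)
    (t : H) (a : ℕ) (i1 i2 i3 : I) (h12 : i1 ≠ i2)
    (h13 : i1 ≠ i3) (h23 : i2 ≠ i3) (ht : t ^ (3 ^ a) = 1) (ft : ∀ i : I, t • i = i)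
    (st : ∀ i, i ≠ i1 → ∀ w ∈ W i, ρ t w = (3 : K) • w) : ∀ w ∈ W i1, ρ t w = (3 : K) • w := by
  have h3 := xsfin1_cube ρ W hB hbal t a i1 i2 i3 h12 h13 h23 ht ft st
  have mt : ∀ w ∈ W i1, ρ t w ∈ W i1 := fun w hw => by
    have := hB.map t i1 w hw
    rwa [ft] at this
  have b2 := split3 (W i1) (ρ t) mt fun w _ => by rw [h3, Module.End.one_apply]
  obtain ⟨d2, d0⟩ := xstepa_dim ρ W hB i1 i2
  have d3 := (xstepa_dim ρ W hB i1 i3).1
  have p0 : edOn (W i1) (ρ t) 1 = 0 := by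
    by_contra e
    obtain ⟨w, -, hw0, hw⟩ := (edOn_pos _ _ _).1 (Nat.pos_of_ne_zero e)
    have b1 := xsfin1_bal ρ W hB hbal t a (by rw [← map_pow, ht, map_one]) ft
      ⟨w, hw0, by rw [hw, one_smul]⟩
    have c5 := xstepa_sum Finset.univ _ _ i1 i2 i3
      (Finset.mem_univ _) (Finset.mem_univ _) (Finset.mem_univ _) h12 h13 h23
      (fun i _ a1 _ => xstepa_zero _ _ _ _ (st i a1) (by decide)) b1
    rw [xstepa_full _ _ _ (st i2 h12.symm), xstepa_full _ _ _ (st i3 h13.symm),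
      xstepa_zero _ _ _ 9 (st i2 h12.symm) (by decide)] at c5
    omega
  have p2 : edOn (W i1) (ρ t) 9 = 0 := by
    by_contra e
    obtain ⟨h, rfl⟩ := MulAction.exists_smul_eq H i1 i2
    obtain ⟨E, c1, c2, c3, c4⟩ := xsfin1_pair ρ W hB hbal t t h a i1 3 (by decide) h12 ht ht
      ft ft st st (Nat.pos_of_ne_zero e)
    have c5 := xstepa_sum Finset.univ (fun i => E i 9) (fun i => E i 3) i1 (h • i1) i3
      (Finset.mem_univ _) (Finset.mem_univ _) (Finset.mem_univ _) h12 h13 h23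
      (fun i _ a1 a2 => (c4 i a1 a2).2 3 (by decide)) c1.symm
    have c6 := c2 1
    have c8 := c3 1
    have c9 := (c4 i3 h13.symm h23.symm).1
    rw [mul_one] at c6 c8
    rw [show (3 * 3 : K) = 9 by decide] at c9
    omega
  exact xstepa_of_full _ _ _ (by omega)

end Aux

theorem bal3_all {V : Type} [AddCommGroup V] [Module K V] [Module.Finite K V]
    {H : Type} [Group H] [Finite H] (ρ : Representation K H V) {I : Type} [Fintype I] [MulAction H I] (W : I → Submodule K V) (hB : BD ρ I W) (hb : HBal3 ρ) (g : H) (b : ℕ) (hg : (ρ g) ^ (3 ^ b) = 1)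
    (hf : ∀ i : I, g • i = i) (hv : ∃ v, v ≠ 0 ∧ ρ g v = v) :
    ∑ i, edOn (W i) (ρ g) 3 = ∑ i, edOn (W i) (ρ g) 9 := by
  exact xsfin1_bal ρ W hB hb g b hg hf hv

theorem fin1 {V : Type} [AddCommGroup V] [Module K V] [Module.Finite K V]
    {H : Type} [Group H] [Finite H] (ρ : Representation K H V) {I : Type} [Fintype I] [MulAction H I] [MulAction.IsPretransitive H I]
    (W : I → Submodule K V) (hB : BD ρ I W) (hb : HBal3 ρ) (t : H) (a : ℕ) (i1 i2 i3 : I) (h12 : i1 ≠ i2)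
    (h13 : i1 ≠ i3) (h23 : i2 ≠ i3) (ht : t ^ (3 ^ a) = 1) (ft : ∀ i : I, t • i = i)
    (st : ∀ i, i ≠ i1 → ∀ w ∈ W i, ρ t w = (3 : K) • w) : ∀ w ∈ W i1, ρ t w = (3 : K) • w := by
  exact xsfin1_fin ρ W hB hb t a i1 i2 i3 h12 h13 h23 ht ft st

end Pool.Agent.N9181
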