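import Pool.Agent.MP_9181f8_al.S.Lines

namespace Pool.Agent.N9181

open scoped commutatorElement

theorem gchoice {V : Type} [AddCommGroup V] [Module K V] [Module.Finite K V]
    {H : Type} [Group H] [Finite H] (ρ : Representation K H V) (hE5 : HEP ρ 5) {I : Type} [Fintype I] [MulAction H I] (W : I → Submodule K V) (π : I → I)
    (hL : LP ρ I W π) (k : I) :
    ∃ r : I → V, (∀ l, r l ∈ W l ∧ r l ≠ 0) ∧ ∀ (h : H) (l : I) (x : K), l ≠ k → l ≠ π k →
      (x = 1 ∨ x = 3) → ρ h (r k + x • r (π k)) ≠ (5 : K) • (r l + r (π l)) := by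
  classical
  have hb : ∀ l, ∃ w ∈ W l, w ≠ 0 := fun l => (Submodule.ne_bot_iff _).1 (hL.bd.ne l)
  choose b hb hb0 using hb
  obtain ⟨D, hD1, hD2⟩ := l_diag ρ hE5 W hL.bd k (π k) (hL.ne k).symm (hL.rel k) (b k) (b (π k))
    (hb _) (hb _) (hb0 _) (hb0 _) 10 (by decide)
  have red1 : ∀ (h : H) (x : K) (v : V), (x = 1 ∨ x = 3) →
      ρ h (b k + x • b (π k)) = (5 : K) • v →
      ∃ (g : H) (c : K), c ≠ 0 ∧ ρ g (b k + b (π k)) = c • v := by
    rintro h x v (rfl | rfl) e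
    · exact ⟨h, 5, by decide, by rwa [one_smul] at e⟩
    · refine ⟨h * D, 10 * 5, by decide, ?_⟩
      have e1 : ρ D (b k + b (π k)) = (10 : K) • (b k + (3 : K) • b (π k)) := by
        rw [map_add, hD1, hD2, smul_add, smul_smul,
          show (10 : K)⁻¹ = 10 * 3 from inv_eq_of_mul_eq_one_right (by decide)]
      rw [rho_mul, e1, map_smul, e, smul_smul]
  have hy : ∀ l, ∃ y : K, y ≠ 0 ∧ ∀ (h : H) (x : K), (x = 1 ∨ x = 3) →
      ρ h (b k + x • b (π k)) ≠ (5 : K) • (b l + y • b (π l)) := fun l => by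
    by_contra hc
    push Not at hc
    obtain ⟨h1, x1, hx1, e1⟩ := hc 1 one_ne_zero
    obtain ⟨h2, x2, hx2, e2⟩ := hc 2 (by decide)
    obtain ⟨g1, c1, hc1, f1⟩ := red1 h1 x1 _ hx1 e1
    obtain ⟨g2, c2, -, f2⟩ := red1 h2 x2 _ hx2 e2
    have f3 : ρ (g2 * g1⁻¹) (b l + (1 : K) • b (π l)) =
        (c1⁻¹ * c2) • (b l + (2 : K) • b (π l)) := by
      rw [← smul_smul, eq_inv_smul_iff₀ hc1, ← map_smul, ← f1, rho_mul, rho_inv, f2]
    have := l_ng ρ hE5 W hL.bd l (π l) (hL.ne l).symm (hL.rel l) (b l) (b (π l))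
      (hb _) (hb _) (hb0 _) (hb0 _) _ 1 2 _ one_ne_zero f3
    revert this
    decide
  choose y hy0 hy using hy
  let f := Fintype.equivFin I
  refine ⟨fun l => if l = k ∨ l = π k ∨ f l < f (π l) then b l else y (π l) • b l,
    fun l => ?_, fun h l x h1 h2 hx => ?_⟩
  · beta_reduce
    split_ifs
    · exact ⟨hb l, hb0 l⟩
    · exact ⟨(W l).smul_mem _ (hb l), smul_ne_zero (hy0 _) (hb0 l)⟩
  · have h3 : π l ≠ k := fun e => h2 (by rw [← e, hL.inv])
    have h4 : π l ≠ π k := fun e => h1 (by rw [← hL.inv l, e, hL.inv])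
    beta_reduce
    rw [if_pos (Or.inl rfl), if_pos (Or.inr (Or.inl rfl)), hL.inv]
    rcases lt_or_gt_of_ne (f.injective.ne (hL.ne l)) with h5 | h5
    · rw [if_neg (by simp [h1, h2, h5.le]), if_pos (Or.inr (Or.inr h5)), add_comm (y (π l) • b l)]
      have := hy (π l) h x hx
      rwa [hL.inv] at this
    · rw [if_pos (Or.inr (Or.inr h5)), if_neg (by simp [h3, h4, h5.le])]
      exact hy l h x hx

end Pool.Agent.N9181
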