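import Pool.Agent.MP_9181f8_al.S.Refine
import Pool.Agent.MP_9181f8_al.S.HSqI
import Pool.Agent.MP_9181f8_al.S.Sbd
import Pool.Agent.MP_9181f8_al.S.Proj

namespace Pool.Agent.N9181

open scoped commutatorElement

theorem xsgbd_sup {V W : Type} [AddCommGroup V] [Module K V] [AddCommGroup W] [Module K W]
    (f : W →ₗ[K] V) (T : Set (Submodule K W)) :
    sSup ((fun U : Submodule K W => U.map f) '' T) = (sSup T).map f := by
  rw [sSup_image, (Submodule.gc_map_comap f).l_sSup]

theorem xsgbd_ind {V W : Type} [AddCommGroup V] [Module K V] [AddCommGroup W] [Module K W]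
    (f : W →ₗ[K] V) (hf : Function.Injective f) (T : Set (Submodule K W)) (h : sSupIndep T) :
    sSupIndep ((fun U : Submodule K W => U.map f) '' T) := by
  rintro _ ⟨U, hU, rfl⟩
  have e : ((fun U : Submodule K W => U.map f) '' T) \ {U.map f} =
      (fun U : Submodule K W => U.map f) '' (T \ {U}) := by
    rw [Set.image_sdiff (Submodule.map_injective_of_injective hf), Set.image_singleton]
  show Disjoint (U.map f) (sSup (((fun U : Submodule K W => U.map f) '' T) \ {U.map f}))
  rw [e, xsgbd_sup, disjoint_iff, ← Submodule.map_inf f hf, disjoint_iff.1 (h hU),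
    Submodule.map_bot]

theorem xsgbd_top {V : Type} [AddCommGroup V] [Module K V]
    {H : Type} [Group H] (ρ : Representation K H V) (hV : ∃ v : V, v ≠ 0) :
    SBD ρ {⊤} := by
  refine ⟨?_, sSupIndep_singleton _, sSup_singleton, ?_⟩
  · intro h W hW
    rw [Set.mem_singleton_iff] at hW ⊢
    subst hW
    rw [eq_top_iff]
    intro v _
    exact ⟨ρ h⁻¹ v, trivial, rho_inv' ρ h v⟩
  · intro hb
    rw [Set.mem_singleton_iff] at hb
    obtain ⟨v, hv⟩ := hV
    have : v ∈ (⊥ : Submodule K V) := by rw [hb]; trivial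
    exact hv ((Submodule.mem_bot K).1 this)

theorem xsgbd_max {V : Type} [AddCommGroup V] [Module K V] [Module.Finite K V]
    {H : Type} [Group H] [Finite H] (ρ : Representation K H V) (N : ℕ) (hV : ∃ v : V, v ≠ 0)
    (hS : HSq ρ N) : ∃ S : Set (Submodule K V), SBD ρ S ∧ (∀ W ∈ S, HSqOn ρ N W) ∧
      ∀ T : Set (Submodule K V), SBD ρ T → (∀ W ∈ T, HSqOn ρ N W) → T.ncard ≤ S.ncard := by
  have : Finite V := Module.finite_of_finite K
  have : Finite (Submodule K V) := Finite.of_injective _ SetLike.coe_injective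
  have hne : ({S : Set (Submodule K V) | SBD ρ S ∧ ∀ W ∈ S, HSqOn ρ N W}).Nonempty := by
    refine ⟨{⊤}, xsgbd_top ρ hV, ?_⟩
    intro W hW
    rw [Set.mem_singleton_iff] at hW
    subst hW
    exact hsq_top ρ N hS
  obtain ⟨S, hS1, hS2⟩ := Set.exists_max_image _ Set.ncard (Set.toFinite _) hne
  exact ⟨S, hS1.1, hS1.2, fun T h1 h2 => hS2 T ⟨h1, h2⟩⟩

theorem xsgbd_on {V : Type} [AddCommGroup V] [Module K V] [Module.Finite K V]
    {H : Type} [Group H] [Finite H] (ρ : Representation K H V) (N : ℕ) {I : Type} [Fintype I]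
    [MulAction H I] (W : I → Submodule K V) (hB : BD ρ I W) (i : I) {H' : Type} [Group H']
    (π : MulAction.stabilizer H i →* H') (σ : Representation K H' (W i)) (hF : FB ρ W i π σ)
    (U : Submodule K (W i)) (hU : U ≠ ⊥) (hq : HSqOn σ N U) :
    HSqOn ρ N (U.map (W i).subtype) := by
  intro h j hj s s' hs hs' M
  obtain ⟨u, hu, hu0⟩ := (Submodule.ne_bot_iff U).1 hU
  have hle : U.map (W i).subtype ≤ W i := Submodule.map_subtype_le _ _
  have hfix : h • i = i := by
    refine blk_eq ρ W hB i i h (u : V) u.2 (fun h0 => hu0 (Subtype.ext h0)) ?_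
    have := hs ⟨(u : V), Submodule.mem_map_of_mem (f := (W i).subtype) hu⟩
    rw [← this]
    exact hle (Subtype.property _)
  let h0 : MulAction.stabilizer H i := ⟨h, hfix⟩
  let e : U ≃ₗ[K] U.map (W i).subtype :=
    Submodule.equivMapOfInjective (W i).subtype (W i).injective_subtype U
  have he : ∀ w : U, ((e w : U.map (W i).subtype) : V) = ((w : W i) : V) := fun _ => rfl
  have key : ∀ (g : MulAction.stabilizer H i) (a : Module.End K (U.map (W i).subtype)),
      Rs (U.map (W i).subtype) (ρ g) a →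
      Rs U (σ (π g)) (e.symm.toLinearMap ∘ₗ a ∘ₗ e.toLinearMap) := by
    intro g a ha w
    apply Subtype.ext
    rw [hF.res, ← he, ← he, ← ha]
    simp
  have cj : ∀ (a : Module.End K (U.map (W i).subtype)),
      bt (e.symm.toLinearMap ∘ₗ a ∘ₗ e.toLinearMap) M = bt a M := by
    intro a
    refine bt_conj e _ a ?_ M
    intro v
    simp
  rw [← cj s, ← cj s']
  refine hq (π h0) j hj _ _ (key h0 s hs) ?_ M
  rw [← map_pow]
  exact key (h0 ^ (j * j)) s' hs'

theorem gbd {V : Type} [AddCommGroup V] [Module K V] [Module.Finite K V]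
    {H : Type} [Group H] [Finite H] (ρ : Representation K H V) (N : ℕ) (hV : ∃ v : V, v ≠ 0) (hS : HSq ρ N) :
    ∃ (I : Type) (_ : Fintype I) (_ : MulAction H I) (W : I → Submodule K V), BD ρ I W ∧
      ∀ (i : I) (H' : Type) [Group H'] [Finite H'] (π : MulAction.stabilizer H i →* H')
        (σ : Representation K H' (W i)), FB ρ W i π σ → HSq σ N ∧ Term σ N := by
  obtain ⟨S, hS1, hS2, hS3⟩ := xsgbd_max ρ N hV hS
  obtain ⟨iF, iA, hact, hB⟩ := sbd_bd ρ S hS1
  refine ⟨S, iF, iA, fun U => (U : Submodule K V), hB, ?_⟩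
  intro i H' _ _ π σ hF
  constructor
  · intro h j hj M
    obtain ⟨g, rfl⟩ := hF.surj h
    refine hS2 i i.2 g j hj _ _ (hF.res g) ?_ M
    rw [← map_pow]
    exact hF.res (g ^ (j * j))
  · intro T hT1 hT2
    have hinj := (i : Submodule K V).injective_subtype
    have hmi := Submodule.map_injective_of_injective hinj
    have h1 : ⊥ ∉ (fun U : Submodule K (i : Submodule K V) =>
        U.map (i : Submodule K V).subtype) '' T := by
      rintro ⟨U, hU, hb⟩
      have : U = ⊥ := hmi (by rw [Submodule.map_bot]; exact hb)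
      exact hT1.ne (this ▸ hU)
    have h3 : sSup ((fun U : Submodule K (i : Submodule K V) =>
        U.map (i : Submodule K V).subtype) '' T) = (i : Submodule K V) := by
      rw [xsgbd_sup, hT1.top, Submodule.map_subtype_top]
    have h4 : ∀ h : H, (i : Submodule K V).map (ρ h) = i →
        ∀ U ∈ (fun U : Submodule K (i : Submodule K V) =>
          U.map (i : Submodule K V).subtype) '' T, U.map (ρ h) ∈
          (fun U : Submodule K (i : Submodule K V) =>
            U.map (i : Submodule K V).subtype) '' T := by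
      rintro h hh _ ⟨U, hU, rfl⟩
      have hfix : h • i = i := Subtype.ext ((hact h i).trans hh)
      refine ⟨U.map (σ (π ⟨h, hfix⟩)), hT1.map _ U hU, ?_⟩
      show (U.map (σ (π ⟨h, hfix⟩))).map (i : Submodule K V).subtype =
        (U.map (i : Submodule K V).subtype).map (ρ h)
      rw [← Submodule.map_comp, ← Submodule.map_comp]
      congr 1
      ext w
      exact hF.res ⟨h, hfix⟩ w
    obtain ⟨r1, r2⟩ := refine_a ρ S hS1 i i.2 _ h1 (xsgbd_ind _ hinj T hT1.ind) h3 h4
    have hle := hS3 _ r1 (by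
      rintro U (⟨hU, _⟩ | ⟨h, _, ⟨U', hU', rfl⟩, rfl⟩)
      · exact hS2 U hU
      · refine hsq_map ρ N _ ?_ h
        exact xsgbd_on ρ N (fun U : S => (U : Submodule K V)) hB i π σ hF U'
          (fun hb => hT1.ne (hb ▸ hU')) (hT2 U' hU'))
    have hE : (fun U : Submodule K (i : Submodule K V) =>
        U.map (i : Submodule K V).subtype) '' T = {(i : Submodule K V)} := by
      by_contra hne
      exact absurd (r2 hne) (not_lt.2 hle)
    apply Set.image_injective.2 hmi
    rw [Set.image_singleton, Submodule.map_subtype_top]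
    exact hE

end Pool.Agent.N9181
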