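import Pool.Agent.MP_9181f8_al.S.Hall3b

namespace Pool.Agent.N9181

open scoped commutatorElement

theorem xsm3a_card {H : Type} [Group H] {J C : Subgroup H} (h : J ≤ C) :
    Nat.card J * J.relIndex C = Nat.card C := by
  rw [← Nat.card_congr (Subgroup.subgroupOfEquivOfLe h).toEquiv]
  exact (J.subgroupOf C).card_mul_index

theorem xsm3a_mem {H : Type} [Group H] (J : Subgroup H) (c y : H) :
    y ∈ J.map (MulAut.conj c⁻¹).toMonoidHom ↔ c * y * c⁻¹ ∈ J := by
  rw [Subgroup.mem_map_equiv, MulAut.conj_symm_apply, inv_inv]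

theorem xsm3a_core {H : Type} [Group H] [Finite H] [Group.IsSolvable H] {J C : Subgroup H}
    (h : M3 J C) : (∃ a : ℕ, Nat.card J * 3 ^ a = Nat.card C) ∧
      ∀ J' : Subgroup H, J' ≤ C → ¬ 3 ∣ Nat.card J' → ∃ c ∈ C, ∀ y ∈ J', c * y * c⁻¹ ∈ J := by
  obtain ⟨J1, h1, ⟨a, ha⟩, h2⟩ := hall3 C
  have e1 : Nat.card (J1.map C.subtype) = Nat.card J1 :=
    Subgroup.card_map_of_injective C.subtype_injective
  have h3 : ∀ J' : Subgroup H, J' ≤ C → ¬ 3 ∣ Nat.card J' →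
      ∃ c ∈ C, ∀ y ∈ J', c * y * c⁻¹ ∈ J1.map C.subtype := by
    intro J' l n
    obtain ⟨x, hx⟩ := h2 (J'.subgroupOf C)
      (by rwa [Nat.card_congr (Subgroup.subgroupOfEquivOfLe l).toEquiv])
    exact ⟨x, x.2, fun y hy => ⟨_, hx ⟨y, l hy⟩ hy, rfl⟩⟩
  obtain ⟨c, hc, h4⟩ := h3 J h.1 h.2.1
  have e2 : Nat.card ((J1.map C.subtype).map (MulAut.conj c⁻¹).toMonoidHom) = Nat.card J1 :=
    (Subgroup.card_map_of_injective (MulAut.conj c⁻¹).injective).trans e1
  have e3 : (J1.map C.subtype).map (MulAut.conj c⁻¹).toMonoidHom = J := by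
    refine h.2.2 _ (fun y hy => (xsm3a_mem _ c y).2 (h4 y hy)) (fun y hy => ?_) (by rwa [e2])
    have := C.mul_mem (C.mul_mem (C.inv_mem hc)
      (Subgroup.map_subtype_le J1 ((xsm3a_mem _ c y).1 hy))) hc
    simpa [mul_assoc] using this
  refine ⟨⟨a, by rw [← e3, e2, ← ha, J1.card_mul_index]⟩, fun J' l n => ?_⟩
  obtain ⟨c', hc', h5⟩ := h3 J' l n
  refine ⟨c⁻¹ * c', C.mul_mem (C.inv_mem hc) hc', fun y hy => ?_⟩
  rw [← e3, xsm3a_mem]
  simpa [mul_assoc] using h5 y hy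

theorem sup_three {H : Type} [Group H] [Finite H] (J J0 : Subgroup H) (h : ¬ 3 ∣ Nat.card J) (h0 : ¬ 3 ∣ Nat.card J0)
    (hn : J0 ≤ Subgroup.normalizer (J : Set H)) : ¬ 3 ∣ Nat.card (J ⊔ J0 : Subgroup H) := by
  have hN : (J.subgroupOf (J ⊔ J0)).Normal :=
    (Subgroup.normal_subgroupOf_iff_le_normalizer le_sup_left).2
      (sup_le Subgroup.le_normalizer hn)
  have e : J.relIndex (J ⊔ J0) = J.relIndex J0 := by
    rw [← Subgroup.relIndex_subgroupOf (le_refl (J ⊔ J0)),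
      Subgroup.subgroupOf_sup le_sup_left le_sup_right, Subgroup.relIndex_sup_left,
      Subgroup.relIndex_subgroupOf le_sup_right]
  rw [← xsm3a_card (le_sup_left : J ≤ J ⊔ J0), e, Nat.Prime.dvd_mul Nat.prime_three]
  rintro (a | a)
  · exact h a
  · exact h0 (a.trans (J.relIndex_dvd_card J0))

theorem m3_exists {H : Type} [Group H] [Finite H] (J0 C : Subgroup H) (hle : J0 ≤ C) (h3 : ¬ 3 ∣ Nat.card J0) :
    ∃ J : Subgroup H, J0 ≤ J ∧ M3 J C := by
  obtain ⟨J, h1, h2⟩ := Finite.exists_le_maximal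
    (p := fun J : Subgroup H => J ≤ C ∧ ¬ 3 ∣ Nat.card J) ⟨hle, h3⟩
  exact ⟨J, h1, h2.1.1, h2.1.2, fun J' a b c => le_antisymm (h2.2 ⟨b, c⟩ a) a⟩

theorem m3_sub {H : Type} [Group H] [Finite H] (J C C' : Subgroup H) (h : M3 J C) (h1 : J ≤ C') (h2 : C' ≤ C) :
    M3 J C' := by
  exact ⟨h1, h.2.1, fun J' a b c => h.2.2 J' a (b.trans h2) c⟩

theorem m3_inj {H : Type} [Group H] [Finite H] {H' : Type} [Group H'] [Finite H'] (f : H →* H')
    (hf : Function.Injective f) (J C : Subgroup H) : M3 (J.map f) (C.map f) ↔ M3 J C := by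
  constructor
  · rintro ⟨h1, h2, h3⟩
    rw [Subgroup.card_map_of_injective hf] at h2
    refine ⟨(Subgroup.map_le_map_iff_of_injective hf).1 h1, h2, fun J' a b c => ?_⟩
    exact Subgroup.map_injective hf (h3 _ (Subgroup.map_mono a) (Subgroup.map_mono b)
      (by rwa [Subgroup.card_map_of_injective hf]))
  · rintro ⟨h1, h2, h3⟩
    refine ⟨Subgroup.map_mono h1, by rwa [Subgroup.card_map_of_injective hf],
      fun J' a b c => ?_⟩
    have e : (J'.comap f).map f = J' :=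
      Subgroup.map_comap_eq_self (b.trans (Subgroup.map_le_range f C))
    rw [← e] at b c ⊢
    rw [Subgroup.card_map_of_injective hf] at c
    rw [h3 _ (Subgroup.map_le_iff_le_comap.1 a)
      ((Subgroup.map_le_map_iff_of_injective hf).1 b) c]

theorem m3_conj {H : Type} [Group H] [Finite H] (J C : Subgroup H) (h : M3 J C) (g : H) :
    M3 (J.map (MulAut.conj g).toMonoidHom) (C.map (MulAut.conj g).toMonoidHom) := by
  exact (m3_inj _ (MulAut.conj g).injective J C).2 h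

theorem m3_cc {H : Type} [Group H] [Finite H] [Group.IsSolvable H] (J J' C : Subgroup H) (h : M3 J C) (h1 : J' ≤ C)
    (h3 : ¬ 3 ∣ Nat.card J') : ∃ c ∈ C, ∀ y ∈ J', c * y * c⁻¹ ∈ J := by
  exact (xsm3a_core h).2 J' h1 h3

theorem m3_index {H : Type} [Group H] [Finite H] [Group.IsSolvable H] (J C : Subgroup H) (h : M3 J C) : ∃ a : ℕ, J.relIndex C = 3 ^ a := by
  obtain ⟨a, ha⟩ := (xsm3a_core h).1
  exact ⟨a, Nat.eq_of_mul_eq_mul_left Nat.card_pos ((xsm3a_card h.1).trans ha.symm)⟩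

theorem m3_le_card {H : Type} [Group H] [Finite H] [Group.IsSolvable H] (J J' C : Subgroup H) (h : M3 J C) (h1 : J' ≤ C)
    (h3 : ¬ 3 ∣ Nat.card J') : Nat.card J' ≤ Nat.card J := by
  obtain ⟨c, -, hc⟩ := m3_cc J J' C h h1 h3
  refine Nat.card_le_card_of_injective (fun y : J' => (⟨c * y * c⁻¹, hc y y.2⟩ : J))
    fun y y' e => Subtype.ext ?_
  simpa using e

theorem m3_of_card {H : Type} [Group H] [Finite H] [Group.IsSolvable H] (J J' C : Subgroup H) (h : M3 J C) (h1 : J' ≤ C)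
    (h3 : ¬ 3 ∣ Nat.card J') (hc : Nat.card J ≤ Nat.card J') : M3 J' C := by
  exact ⟨h1, h3, fun J'' a b c =>
    (Subgroup.eq_of_le_of_card_ge a ((m3_le_card J J'' C h b c).trans hc)).symm⟩

theorem m3_normal {H : Type} [Group H] [Finite H] (J J0 C : Subgroup H) (h : M3 J C) (h1 : J0 ≤ C)
    (h3 : ¬ 3 ∣ Nat.card J0) (hn : J ≤ Subgroup.normalizer (J0 : Set H) ∨ J0 ≤ Subgroup.normalizer (J : Set H)) : J0 ≤ J := by
  have : ¬ 3 ∣ Nat.card (J ⊔ J0 : Subgroup H) := by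
    rcases hn with hn | hn
    · rw [sup_comm]
      exact sup_three J0 J h3 h.2.1 hn
    · exact sup_three J J0 h.2.1 h3 hn
  exact le_sup_right.trans (h.2.2 _ le_sup_left (sup_le h.1 h1) this).le

theorem m3_norm {H : Type} [Group H] [Finite H] (J C : Subgroup H) (h : M3 J C) (y : H) (hy : y ∈ C)
    (hn : y ∈ Subgroup.normalizer (J : Set H)) (h3 : ¬ 3 ∣ orderOf y) : y ∈ J := by
  exact m3_normal J (Subgroup.zpowers y) C h (Subgroup.zpowers_le.2 hy)
    (by rwa [Nat.card_zpowers]) (Or.inr (Subgroup.zpowers_le.2 hn)) (Subgroup.mem_zpowers y)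

theorem m3_frat {H : Type} [Group H] [Finite H] [Group.IsSolvable H] (J C : Subgroup H) (h : M3 J C) (g : H) (hg : g ∈ Subgroup.normalizer (C : Set H)) :
    ∃ c ∈ C, g * c ∈ Subgroup.normalizer (J : Set H) := by
  have h1 := m3_conj J C h g⁻¹
  have e : C.map (MulAut.conj g⁻¹).toMonoidHom = C := by
    ext y
    rw [xsm3a_mem]
    exact (Subgroup.mem_normalizer_iff.1 hg y).symm
  rw [e] at h1
  obtain ⟨c, hc, h2⟩ := m3_cc _ J C h1 h.1 h.2.1
  refine ⟨c, hc, Subgroup.mem_normalizer_fintype fun y hy => ?_⟩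
  have := (xsm3a_mem _ _ _).1 (h2 y hy)
  simpa [mul_assoc] using this

theorem m3_lift {H : Type} [Group H] [Finite H] [Group.IsSolvable H] {H' : Type} [Group H'] [Finite H'] (π : H →* H')
    (hπ : Function.Surjective π) (J' C' : Subgroup H') (h : M3 J' C') :
    ∃ J : Subgroup H, M3 J (C'.comap π) ∧ M3 J (J'.comap π) ∧ J.map π = J' := by
  obtain ⟨J, -, hJ⟩ := m3_exists ⊥ (J'.comap π) bot_le (by simp)
  obtain ⟨a, ha⟩ := m3_index J _ hJ
  have e : J.map π = J' := by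
    refine le_antisymm (Subgroup.map_le_iff_le_comap.2 hJ.1) (Subgroup.relIndex_eq_one.1 ?_)
    have d1 : (J.map π).relIndex J' ∣ 3 ^ a := by
      conv_lhs => rw [← Subgroup.map_comap_eq_self_of_surjective hπ J']
      rw [Subgroup.relIndex_map_map, sup_eq_left.2 (Subgroup.ker_le_comap π J'), ← ha]
      exact Subgroup.relIndex_dvd_of_le_left _ le_sup_left
    exact Nat.eq_one_of_dvd_coprimes
      (((Nat.Prime.coprime_iff_not_dvd Nat.prime_three).2 h.2.1).pow_left a) d1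
      (Subgroup.relIndex_dvd_card _ _)
  refine ⟨J, ⟨hJ.1.trans (Subgroup.comap_mono h.1), hJ.2.1, fun J1 b c d => ?_⟩, hJ, e⟩
  refine hJ.2.2 J1 b (Subgroup.map_le_iff_le_comap.1 (h.2.2 _ ?_ ?_ ?_).le) d
  · rw [← e]
    exact Subgroup.map_mono b
  · exact Subgroup.map_le_iff_le_comap.2 c
  · exact fun x => d (x.trans (J1.card_map_dvd π))

end Pool.Agent.N9181
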