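import Pool.Agent.MP_9181f8_al.S.HSv
import Pool.Agent.MP_9181f8_al.S.M3a

namespace Pool.Agent.N9181

open scoped commutatorElement

theorem xsh2b_norm {V : Type} [AddCommGroup V] [Module K V] {H : Type} [Group H] [Finite H]
    (ρ : Representation K H V) (hinj : Function.Injective ρ) (E L J : Subgroup H) (hE : E.Normal)
    (hL : L ≤ J) (w : V) (h0 : w ≠ 0) (hJ : J ≤ stabV ρ w) (hs : SL ρ E L w) (Y : H) (hY : Y ∈ E)
    (h : ∀ j ∈ J, ρ j (ρ Y w) = ρ Y w) : Y ∈ Subgroup.normalizer (J : Set H) := by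
  rw [← inv_mem_iff]
  refine Subgroup.mem_normalizer_fintype fun j hj => ?_
  have h1 : j⁻¹ * (Y⁻¹ * j * Y) ∈ E := by
    have := E.mul_mem (hE.conj_mem _ (E.inv_mem hY) j⁻¹) hY
    simpa only [inv_inv, mul_assoc] using this
  have h2 : ρ (j⁻¹ * (Y⁻¹ * j * Y)) w = w := by
    rw [rho_mul, rho_mul, rho_mul, h j hj, rho_inv]
    exact hJ (J.inv_mem hj)
  obtain ⟨l, hl, c, hc⟩ := hs _ h1 1 (by rw [h2, one_smul])
  have h3 : c = 1 := by
    have h4 := hc w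
    rw [h2, show ρ l w = w from hJ (hL hl)] at h4
    have h5 : (c - 1) • w = 0 := by rw [sub_smul, ← h4, one_smul, sub_self]
    exact sub_eq_zero.1 ((smul_eq_zero.1 h5).resolve_right h0)
  have h4 : j⁻¹ * (Y⁻¹ * j * Y) = l := hinj (LinearMap.ext fun v => by rw [hc, h3, one_smul])
  rw [inv_inv, inv_mul_eq_iff_eq_mul.1 h4]
  exact J.mul_mem hj (hL hl)

/-- the elements normalising `J` and commuting with `X`, `Z` on the fixed space -/
def xsh2bB {V : Type} [AddCommGroup V] [Module K V] [Module.Finite K V]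
    {H : Type} [Group H] [Finite H] (ρ : Representation K H V) (J : Subgroup H) (X Z : H) :
    Subgroup H where
  carrier := {b | b ∈ Subgroup.normalizer (J : Set H) ∧
    ∀ v ∈ fixS ρ J, ρ b (ρ X v) = ρ X (ρ b v) ∧ ρ b (ρ Z v) = ρ Z (ρ b v)}
  one_mem' := ⟨one_mem _, fun v _ => by simp⟩
  mul_mem' := by
    rintro a b ⟨ha, ha'⟩ ⟨hb, hb'⟩
    refine ⟨mul_mem ha hb, fun v hv => ?_⟩
    have h1 := ha' _ (fix_norm ρ J b hb v hv)
    rw [rho_mul, rho_mul, rho_mul, (hb' v hv).1, (hb' v hv).2]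
    exact h1
  inv_mem' := by
    rintro b ⟨hb, hb'⟩
    refine ⟨inv_mem hb, fun v hv => ?_⟩
    have h1 := hb' _ (fix_norm ρ J b⁻¹ (inv_mem hb) v hv)
    rw [rho_inv'] at h1
    rw [← h1.1, ← h1.2, rho_inv, rho_inv]
    exact ⟨rfl, rfl⟩

theorem h2_data {V : Type} [AddCommGroup V] [Module K V] [Module.Finite K V]
    {H : Type} [Group H] [Finite H] [Group.IsSolvable H] (ρ : Representation K H V) (E : Subgroup H) (hE : EH ρ 2 4 E) (ζ : K) (L : Subgroup H) (X Z : H)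
    (hH : HS ρ 2 (-1) ζ E L X Z) :
    ∃ (J B : Subgroup H) (C : Submodule K V), H2D ρ ζ L X Z J B C := by
  have hL3 : ¬ 3 ∣ Nat.card L := fun h => by
    have := Fact.mk Nat.prime_three
    obtain ⟨x, hx⟩ := exists_prime_orderOf_dvd_card' 3 h
    have h1 : orderOf x ∣ 2 := orderOf_dvd_of_pow_eq_one (Subtype.ext (hH.pL x x.2))
    rw [hx] at h1
    omega
  let S : Set (Subgroup H) := {J | L ≤ J ∧ ∃ m, m ≠ 0 ∧ m ∈ fixS ρ L ∧ ρ Z m = ζ • m ∧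
    M3 J (stabV ρ (wv ρ X m))}
  have hne : S.Nonempty := by
    obtain ⟨m, h0, hm, hZ⟩ := hH.ex
    obtain ⟨J, h1, h2⟩ := m3_exists L (stabV ρ (wv ρ X m))
      (fun l hl => (hs_sl2 ρ E hE ζ L X Z hH m hm h0 hZ).1 l hl) hL3
    exact ⟨J, h1, m, h0, hm, hZ, h2⟩
  obtain ⟨J, ⟨hLJ, m, h0, hm, hZ, hJ⟩, hmax⟩ :=
    Set.exists_max_image S (fun J => Nat.card J) (Set.toFinite _) hne
  obtain ⟨hw, hw0, hs⟩ := hs_sl2 ρ E hE ζ L X Z hH m hm h0 hZ
  have hc := fun j (hj : j ∈ J) => h2_cen ρ E hE ζ L X Z hH m hm h0 hZ j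
    (fun h => hJ.2.1 (h.trans (Subgroup.orderOf_dvd_natCard J hj))) 1
    (by rw [one_smul]; exact hJ.1 hj)
  refine ⟨J, xsh2bB ρ J X Z, fixS ρ J ⊓ Module.End.eigenspace (ρ Z) ζ, hLJ, ?_, ?_,
    fun _ => Iff.rfl, fun v => ?_, ?_, fun m' hm' h0' => ?_⟩
  · exact xsh2b_norm ρ hE.inj E L J hE.nE hLJ _ hw0 hJ.1 hs X hH.mX fun j hj => by
      rw [((hc j hj).2.2 _ hw).1, show ρ j (wv ρ X m) = wv ρ X m from hJ.1 hj]
  · exact xsh2b_norm ρ hE.inj E L J hE.nE hLJ _ hw0 hJ.1 hs Z hH.mZ fun j hj => by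
      rw [((hc j hj).2.2 _ hw).2, show ρ j (wv ρ X m) = wv ρ X m from hJ.1 hj]
  · rw [Submodule.mem_inf, Module.End.mem_eigenspace_iff]
  · exact (Submodule.ne_bot_iff _).2 ⟨m, ⟨fun j hj => by rw [(hc j hj).2.1, one_smul],
      Module.End.mem_eigenspace_iff.2 hZ⟩, h0⟩
  · have h1 : m' ∈ fixS ρ L := fun l hl => hm'.1 l (hLJ hl)
    obtain ⟨J', h2, h3⟩ := m3_exists J (stabV ρ (wv ρ X m')) (fun j hj => by
      rw [mem_stabV, wv, map_add, map_smul, ((hc j hj).2.2 _ h1).1, hm'.1 j hj]) hJ.2.1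
    have h4 := hmax J' ⟨hLJ.trans h2, m', h0', h1, Module.End.mem_eigenspace_iff.1 hm'.2, h3⟩
    rwa [Subgroup.eq_of_le_of_card_ge h2 h4]

end Pool.Agent.N9181
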