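import Pool.Agent.MP_9181f8_al.S.SBasic
import Pool.Agent.MP_9181f8_al.S.M3a

namespace Pool.Agent.N9181

open scoped commutatorElement

theorem fratU {V : Type} [AddCommGroup V] [Module K V] [Module.Finite K V]
    {H : Type} [Group H] [Finite H] [Group.IsSolvable H] (ρ : Representation K H V) (w : V) (J : Subgroup H) (hJ : M3 J (stabV ρ w)) (U : Submodule K V) (hw : w ∈ U) (hU : U ≤ fixS ρ J) (g : H)
    (hg : ∀ u ∈ U, ρ g u ∈ U) : ∃ y ∈ Subgroup.normalizer (J : Set H), ∀ u ∈ U, ρ y u = ρ g u := by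
  have h1 : J ≤ stabU ρ U := fun y hy u hu => hU hu y hy
  have h2 : g⁻¹ ∈ Subgroup.normalizer (stabU ρ U : Set H) :=
    Subgroup.mem_normalizer_fintype fun n hn => show _ ∈ stabU ρ U from fun u hu => by
      rw [inv_inv, rho_mul, rho_mul, hn _ (hg u hu), rho_inv]
  obtain ⟨c, hc, h3⟩ := m3_frat J (stabU ρ U) (m3_sub J _ _ hJ h1 fun y hy => hy w hw) g
    (inv_mem_iff.1 h2)
  exact ⟨g * c, h3, fun u hu => by rw [rho_mul, hc u hu]⟩

theorem exists_val {V : Type} [AddCommGroup V] [Module K V] [Module.Finite K V]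
    {H : Type} [Group H] [Finite H] [Group.IsSolvable H] (ρ : Representation K H V) (hE5 : HEP ρ 5) (w : V) (J : Subgroup H) (hJ : M3 J (stabV ρ w)) : ∃ y : H, Val ρ J w y := by
  obtain ⟨g, hg⟩ := hE5 w
  have hw := Submodule.mem_span_singleton_self (R := K) w
  obtain ⟨y, hy, h⟩ := fratU ρ w J hJ (Submodule.span K {w}) hw
    ((Submodule.span_singleton_le_iff_mem _ _).2 fun y hy => hJ.1 hy) g
    ((Submodule.span_singleton_le_iff_mem w ((Submodule.span K {w}).comap (ρ g))).2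
      (show ρ g w ∈ _ from hg ▸ Submodule.smul_mem _ _ hw))
  obtain ⟨e, a, h1, h2⟩ := eig_ppart ρ 2 Nat.prime_two y
  exact ⟨y ^ e, pow_mem hy e, ⟨a, h1⟩, h2 w 5 2 (by rw [h w hw, hg]) (by decide)⟩

theorem val_pow4 {V : Type} [AddCommGroup V] [Module K V] [Module.Finite K V]
    {H : Type} [Group H] [Finite H] (ρ : Representation K H V) (w : V) (J : Subgroup H) (hJ : M3 J (stabV ρ w)) (y : H) (hy : Val ρ J w y) : y ^ 4 ∈ J := by
  obtain ⟨h1, ⟨a, h2⟩, h3⟩ := hy
  refine m3_norm J _ hJ _ ?_ (pow_mem h1 4) fun h => ?_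
  · rw [mem_stabV, rho_pow_eig ρ y w 5 h3, show (5 : K) ^ 4 = 1 by decide, one_smul]
  · have h4 : orderOf (y ^ 4) ∣ 2 ^ a := (orderOf_pow_dvd 4).trans (orderOf_dvd_of_pow_eq_one h2)
    exact absurd (Nat.prime_three.dvd_of_dvd_pow (h.trans h4)) (by decide)

theorem partner {V : Type} [AddCommGroup V] [Module K V] [Module.Finite K V]
    {H : Type} [Group H] [Finite H] [Group.IsSolvable H] (ρ : Representation K H V) (w : V) (J : Subgroup H) (hJ : M3 J (stabV ρ w)) (y : H) (hy : Val ρ J w y) (u : V) (hu : u ∈ fixS ρ J) (h0 : u ≠ 0)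
    (hyu : ρ y u = (8 : K) • u) (g : H) (hg : ρ g w = (5 : K) • w) : ρ g u ≠ (5 : K) • u := by
  intro hgu
  have hw : w ∈ Submodule.span K {w, u} := Submodule.subset_span (by simp)
  have hu' : u ∈ Submodule.span K {w, u} := Submodule.subset_span (by simp)
  have ule : ∀ P : Submodule K V, w ∈ P → u ∈ P → Submodule.span K {w, u} ≤ P := by
    intro P h1 h2
    refine Submodule.span_le.2 ?_
    rintro _ (rfl | rfl) <;> assumption
  obtain ⟨y', hy', h⟩ := fratU ρ w J hJ _ hw (ule _ (fun y hy => hJ.1 hy) hu) g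
    (ule ((Submodule.span K {w, u}).comap (ρ g))
      (show ρ g w ∈ _ from hg ▸ Submodule.smul_mem _ _ hw)
      (show ρ g u ∈ _ from hgu ▸ Submodule.smul_mem _ _ hu'))
  obtain ⟨h1, -, h3⟩ := hy
  have xw : ρ (y⁻¹ * y') w = (1 : K) • w := by
    rw [rho_mul, h w hw, hg, ← h3, rho_inv, one_smul]
  have xu : ρ (y⁻¹ * y') u = (-1 : K) • u := by
    rw [rho_mul, h u hu', hgu, show (5 : K) = -1 * 8 by decide, mul_smul, ← hyu, map_smul,
      rho_inv]
  obtain ⟨e, h4, h5⟩ := eig_qpart ρ 3 Nat.prime_three (y⁻¹ * y')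
  have h6 := m3_norm J _ hJ ((y⁻¹ * y') ^ e)
    (by rw [mem_stabV, h5 w 1 1 xw (by decide) (by decide), one_smul])
    (pow_mem (mul_mem (inv_mem h1) hy') e) h4
  have h7 := h5 u (-1) 2 xu (by decide) (by decide)
  rw [hu _ h6] at h7
  have h8 : (2 : K) • u = 0 := by linear_combination (norm := module) h7
  exact h0 ((smul_eq_zero.1 h8).resolve_left (by decide))

theorem m3_move {V : Type} [AddCommGroup V] [Module K V] [Module.Finite K V]
    {H : Type} [Group H] [Finite H] [Group.IsSolvable H] (ρ : Representation K H V) (w : V) (J : Subgroup H) (hJ : M3 J (stabV ρ w)) (u : V) (hu : u ∈ fixS ρ J) (g : H) (c : K) (hc : c ≠ 0)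
    (hg : ρ g w = c • u) : M3 J (stabV ρ u) := by
  have h1 : (stabV ρ w).map (MulAut.conj g).toMonoidHom = stabV ρ u := by
    ext x
    rw [Subgroup.mem_map_equiv, MulAut.conj_symm_apply, mem_stabV, mem_stabV, rho_mul, rho_mul,
      hg, map_smul]
    constructor
    · intro h
      have := congrArg (ρ g) h
      rw [rho_inv', hg] at this
      exact smul_right_injective V hc this
    · intro h
      rw [h, ← hg, rho_inv]
  have h2 := m3_conj J _ hJ g
  rw [h1] at h2
  refine m3_of_card _ J _ h2 (fun y hy => hu y hy) hJ.2.1 (le_of_eq ?_)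
  exact Subgroup.card_map_of_injective (MulAut.conj g).injective

end Pool.Agent.N9181
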