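import Pool.Agent.MP_9181f8_al.S.HSv
import Pool.Agent.MP_9181f8_al.S.Partner
import Pool.Agent.MP_9181f8_al.S.HSqI

namespace Pool.Agent.N9181

open scoped commutatorElement

theorem xsh2c_ord {H : Type} [Group H] (y : H) (a : ℕ) (ha : y ^ (2 ^ a) = 1) :
    ¬ 3 ∣ orderOf y := fun h => by
  have := Nat.prime_three.dvd_of_dvd_pow (h.trans (orderOf_dvd_of_pow_eq_one ha))
  omega

theorem h2_inv {V : Type} [AddCommGroup V] [Module K V] [Module.Finite K V]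
    {H : Type} [Group H] [Finite H] (ρ : Representation K H V) (E : Subgroup H) (hE : EH ρ 2 4 E) (ζ : K) (L : Subgroup H) (X Z : H)
    (hH : HS ρ 2 (-1) ζ E L X Z)
    (J B : Subgroup H) (C : Submodule K V) (hD : H2D ρ ζ L X Z J B C) (b : H) (hb : b ∈ B) (v : V) (hv : v ∈ C) : ρ b v ∈ C := by
  obtain ⟨hn, hc⟩ := (hD.memB b).1 hb
  obtain ⟨h1, h2⟩ := (hD.memC v).1 hv
  refine (hD.memC _).2 ⟨fix_norm ρ J b hn v h1, ?_⟩
  rw [← (hc v h1).2, h2, map_smul]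

theorem h2_JB {V : Type} [AddCommGroup V] [Module K V] [Module.Finite K V]
    {H : Type} [Group H] [Finite H] (ρ : Representation K H V) (E : Subgroup H) (hE : EH ρ 2 4 E) (ζ : K) (L : Subgroup H) (X Z : H)
    (hH : HS ρ 2 (-1) ζ E L X Z)
    (J B : Subgroup H) (C : Submodule K V) (hD : H2D ρ ζ L X Z J B C) : J ≤ B := by
  intro j hj
  refine (hD.memB j).2 ⟨Subgroup.le_normalizer hj, fun v hv => ⟨?_, ?_⟩⟩
  · rw [fix_norm ρ J X hD.nX v hv j hj, hv j hj]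
  · rw [fix_norm ρ J Z hD.nZ v hv j hj, hv j hj]

theorem h2_lt {V : Type} [AddCommGroup V] [Module K V] [Module.Finite K V]
    {H : Type} [Group H] [Finite H] (ρ : Representation K H V) (E : Subgroup H) (hE : EH ρ 2 4 E) (ζ : K) (L : Subgroup H) (X Z : H)
    (hH : HS ρ 2 (-1) ζ E L X Z)
    (J B : Subgroup H) (C : Submodule K V) (hD : H2D ρ ζ L X Z J B C) : Module.finrank K C < Module.finrank K V := by
  have h1 := (hs_dbl ρ E hE ζ L X Z hH (fixS ρ J) C (fix_norm ρ J X hD.nX) (fix_norm ρ J Z hD.nZ)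
    hD.memC).2.2
  have h2 : Module.finrank K C ≠ 0 := fun h => hD.ne (Submodule.finrank_eq_zero.1 h)
  have h3 := Submodule.finrank_le (fixS ρ J)
  omega

theorem h2_dbl {V : Type} [AddCommGroup V] [Module K V] [Module.Finite K V]
    {H : Type} [Group H] [Finite H] (ρ : Representation K H V) (E : Subgroup H) (hE : EH ρ 2 4 E) (ζ : K) (L : Subgroup H) (X Z : H)
    (hH : HS ρ 2 (-1) ζ E L X Z)
    (J B : Subgroup H) (C : Submodule K V) (hD : H2D ρ ζ L X Z J B C) (b : H) (hb : b ∈ B) (c : K) :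
    edOn (fixS ρ J) (ρ b) c = 2 * edOn C (ρ b) c := by
  obtain ⟨-, hc⟩ := (hD.memB b).1 hb
  refine (hs_dbl ρ E hE ζ L X Z hH (fixS ρ J ⊓ Module.End.eigenspace (ρ b) c)
    (C ⊓ Module.End.eigenspace (ρ b) c) ?_ ?_ ?_).2.2
  · rintro v ⟨h1, h2⟩
    refine ⟨fix_norm ρ J X hD.nX v h1, Module.End.mem_eigenspace_iff.2 ?_⟩
    rw [(hc v h1).1, Module.End.mem_eigenspace_iff.1 h2, map_smul]
  · rintro v ⟨h1, h2⟩
    refine ⟨fix_norm ρ J Z hD.nZ v h1, Module.End.mem_eigenspace_iff.2 ?_⟩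
    rw [(hc v h1).2, Module.End.mem_eigenspace_iff.1 h2, map_smul]
  · intro v
    rw [Submodule.mem_inf, Submodule.mem_inf, hD.memC]
    tauto

theorem h2_memB {V : Type} [AddCommGroup V] [Module K V] [Module.Finite K V]
    {H : Type} [Group H] [Finite H] (ρ : Representation K H V) (E : Subgroup H) (hE : EH ρ 2 4 E) (ζ : K) (L : Subgroup H) (X Z : H)
    (hH : HS ρ 2 (-1) ζ E L X Z)
    (J B : Subgroup H) (C : Submodule K V) (hD : H2D ρ ζ L X Z J B C) (m : V) (hm : m ∈ C) (h0 : m ≠ 0) (y : H)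
    (hn : y ∈ Subgroup.normalizer (J : Set H)) (h3 : ¬ 3 ∣ orderOf y) (c : K) (hy : ρ y (wv ρ X m) = c • wv ρ X m) :
    y ∈ B ∧ ρ y m = c • m := by
  obtain ⟨h1, h2⟩ := (hD.memC m).1 hm
  have hle : ∀ v ∈ fixS ρ J, v ∈ fixS ρ L := fun v hv l hl => hv l (hD.lJ hl)
  obtain ⟨-, h4, h5⟩ := h2_cen ρ E hE ζ L X Z hH m (hle m h1) h0 h2 y h3 c hy
  exact ⟨(hD.memB y).2 ⟨hn, fun v hv => h5 v (hle v hv)⟩, h4⟩

theorem h2_ep {V : Type} [AddCommGroup V] [Module K V] [Module.Finite K V]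
    {H : Type} [Group H] [Finite H] [Group.IsSolvable H] (ρ : Representation K H V) (hE5 : HEP ρ 5) (E : Subgroup H) (hE : EH ρ 2 4 E) (ζ : K) (L : Subgroup H) (X Z : H)
    (hH : HS ρ 2 (-1) ζ E L X Z)
    (J B : Subgroup H) (C : Submodule K V) (hD : H2D ρ ζ L X Z J B C) (τ : Representation K B C) (hτ : ∀ (b : B) (v : C), (τ b v : V) = ρ b v) : HEP τ 5 := by
  intro v
  by_cases h0 : (v : V) = 0
  · refine ⟨1, ?_⟩
    rw [show v = 0 from Subtype.ext h0, map_zero, smul_zero]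
  obtain ⟨y, hn, ⟨a, ha⟩, hy⟩ := exists_val ρ hE5 _ J (hD.mx v v.2 h0)
  obtain ⟨h1, h2⟩ := h2_memB ρ E hE ζ L X Z hH J B C hD v v.2 h0 y hn (xsh2c_ord y a ha) 5 hy
  exact ⟨⟨y, h1⟩, Subtype.ext ((hτ _ _).trans h2)⟩

theorem h2_sq {V : Type} [AddCommGroup V] [Module K V] [Module.Finite K V]
    {H : Type} [Group H] [Finite H] (ρ : Representation K H V) (h13 : ¬ 13 ∣ Nat.card H) (N : ℕ) (hd : Nat.card H ∣ N) (hS : HSq ρ N)
    (E : Subgroup H) (hE : EH ρ 2 4 E) (ζ : K) (L : Subgroup H) (X Z : H)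
    (hH : HS ρ 2 (-1) ζ E L X Z)
    (J B : Subgroup H) (C : Submodule K V) (hD : H2D ρ ζ L X Z J B C) (τ : Representation K B C) (hτ : ∀ (b : B) (v : C), (τ b v : V) = ρ b v) : HSq τ N := by
  intro b j hj M
  obtain ⟨m, hm, h0⟩ := (Submodule.ne_bot_iff C).1 hD.ne
  have hmx := hD.mx m hm h0
  obtain ⟨hn, hc⟩ := (hD.memB b).1 b.2
  have hζ : ζ ≠ 0 := by
    intro h
    have := rho_inv ρ Z m
    rw [((hD.memC m).1 hm).2, h, zero_smul, map_zero] at this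
    exact h0 this.symm
  let S : Subgroup H :=
    { carrier := {h | ∃ c : K, c ≠ 0 ∧ ∀ v ∈ C, ρ h v = c • v}
      one_mem' := ⟨1, one_ne_zero, fun v _ => by rw [map_one, one_smul]; rfl⟩
      mul_mem' := by
        rintro x y ⟨c, hc, hx⟩ ⟨d, hd, hy⟩
        exact ⟨d * c, mul_ne_zero hd hc, fun v hv => by
          rw [rho_mul, hy v hv, map_smul, hx v hv, smul_smul]⟩
      inv_mem' := by
        rintro x ⟨c, hc, hx⟩
        refine ⟨c⁻¹, inv_ne_zero hc, fun v hv => ?_⟩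
        rw [eq_inv_smul_iff₀ hc, ← map_smul, ← hx v hv, rho_inv] }
  have hPS : J ⊔ Subgroup.zpowers Z ≤ S :=
    sup_le (fun y hy => ⟨1, one_ne_zero, fun v hv => by
        rw [one_smul]; exact ((hD.memC v).1 hv).1 y hy⟩)
      (Subgroup.zpowers_le.2 ⟨ζ, hζ, fun v hv => ((hD.memC v).1 hv).2⟩)
  let χ : H → K := fun h => Classical.epsilon fun c : K => c ≠ 0 ∧ ∀ v ∈ C, ρ h v = c • v
  have hχ : ∀ y ∈ J ⊔ Subgroup.zpowers Z, ∀ v ∈ C, ρ y v = χ y • v :=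
    fun y hy => (Classical.epsilon_spec (hPS hy)).2
  have hZP : Z ∈ J ⊔ Subgroup.zpowers Z := Subgroup.mem_sup_right (Subgroup.mem_zpowers Z)
  have hU : ∀ v, v ∈ C ↔ ∀ y ∈ J ⊔ Subgroup.zpowers Z, ρ y v = χ y • v := by
    refine fun v => ⟨fun hv y hy => hχ y hy v hv, fun h => (hD.memC v).2 ⟨fun y hy => ?_, ?_⟩⟩
    · have h1 := hχ y (Subgroup.mem_sup_left hy) m hm
      rw [((hD.memC m).1 hm).1 y hy] at h1
      have h2 : χ y = 1 := smul_left_injective K h0 (h1.symm.trans (one_smul K m).symm)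
      rw [h y (Subgroup.mem_sup_left hy), h2, one_smul]
    · have h1 := hχ Z hZP m hm
      rw [((hD.memC m).1 hm).2] at h1
      rw [h Z hZP, ← smul_left_injective K h0 h1]
  have hk : (b : H) * Z * (b : H)⁻¹ * Z⁻¹ ∈ J := by
    have hkE : (b : H) * Z * (b : H)⁻¹ * Z⁻¹ ∈ E :=
      mul_mem (hE.nE.conj_mem Z hH.mZ b) (inv_mem hH.mZ)
    refine m3_norm J _ hmx _ ?_ (mul_mem (mul_mem (mul_mem hn hD.nZ) (inv_mem hn)) (inv_mem hD.nZ))
      (xsh2c_ord _ 2 (hE.pw _ hkE))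
    have hw : wv ρ X m ∈ fixS ρ J := fun y hy => hmx.1 hy
    have hu := fix_norm ρ J _ (inv_mem hn) _ (fix_norm ρ J _ (inv_mem hD.nZ) _ hw)
    rw [mem_stabV, rho_mul, rho_mul, rho_mul, (hc _ hu).2, rho_inv', rho_inv']
  have hb : (b : H) ∈ Subgroup.normalizer ((J ⊔ Subgroup.zpowers Z : Subgroup H) : Set H) := by
    refine Subgroup.mem_normalizer_fintype fun y hy => ?_
    have hle : J ⊔ Subgroup.zpowers Z ≤
        (J ⊔ Subgroup.zpowers Z).comap (MulAut.conj (b : H)).toMonoidHom := by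
      refine sup_le (fun y hy => Subgroup.mem_sup_left ((hn y).1 hy)) (Subgroup.zpowers_le.2 ?_)
      have := mul_mem (Subgroup.mem_sup_left (T := Subgroup.zpowers Z) hk) hZP
      rwa [inv_mul_cancel_right] at this
    exact hle hy
  exact hsq_tw ρ h13 N hd hS _ χ C hU b hb j hj (τ b) (τ (b ^ (j * j))) (hτ b)
    (hτ (b ^ (j * j))) M

end Pool.Agent.N9181
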