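import Pool.Agent.MP_9181f8_al.S.H2c

namespace Pool.Agent.N9181

open scoped commutatorElement

theorem xsh2d_ne {V : Type} [AddCommGroup V] [Module K V] {a b : V}
    (hab : ∀ x y : K, x • a + y • b = 0 → x = 0 ∧ y = 0) : a ≠ 0 := fun h =>
  one_ne_zero (hab 1 0 (by simp [h])).1

theorem xsh2d_xx {V : Type} [AddCommGroup V] [Module K V] {H : Type} [Group H]
    (ρ : Representation K H V) (E : Subgroup H) (hE : EH ρ 2 4 E) (X : H) (hX : X ∈ E) :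
    ∃ c : K, c ≠ 0 ∧ ∀ v, ρ X (ρ X v) = c • v := by
  obtain ⟨c, hc, h⟩ := hE.pp X hX
  exact ⟨c, hc, fun v => by rw [← rho_mul, ← pow_two, h]⟩

theorem h2_u4 {V : Type} [AddCommGroup V] [Module K V] [Module.Finite K V]
    {H : Type} [Group H] [Finite H] (ρ : Representation K H V) (E : Subgroup H) (hE : EH ρ 2 4 E) (ζ : K) (L : Subgroup H) (X Z : H)
    (hH : HS ρ 2 (-1) ζ E L X Z)
    (J B : Subgroup H) (C : Submodule K V) (hD : H2D ρ ζ L X Z J B C) (a b : V) (ha : a ∈ C) (hb : b ∈ C)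
    (hab : ∀ x y : K, x • a + y • b = 0 → x = 0 ∧ y = 0) (x y z t : K)
    (h : x • a + y • b + z • ρ X a + t • ρ X b = 0) : x = 0 ∧ y = 0 ∧ z = 0 ∧ t = 0 := by
  have hz := (hs_p2 ρ E hE ζ L X Z hH a (xsh2d_ne hab) ((hD.memC a).1 ha).2).z4
  have hζ : ζ ≠ 0 := fun h0 => by rw [h0] at hz; exact absurd hz (by decide)
  have za := ((hD.memC a).1 ha).2
  have zb := ((hD.memC b).1 hb).2
  have h2 := congrArg (ρ Z) h
  simp only [map_add, map_smul, map_zero, hH.zx, za, zb] at h2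
  have h3 : (2 * ζ) • (x • a + y • b) = 0 := by
    linear_combination (norm := module) ζ • h + h2
  have h4 : x • a + y • b = 0 :=
    (smul_eq_zero.1 h3).resolve_left (mul_ne_zero (by decide) hζ)
  have h5 : ρ X (z • a + t • b) = 0 := by
    rw [map_add, map_smul, map_smul]
    linear_combination (norm := module) h - h4
  have h6 : z • a + t • b = 0 := by
    rw [← rho_inv ρ X (z • a + t • b), h5, map_zero]
  exact ⟨(hab x y h4).1, (hab x y h4).2, hab z t h6⟩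

theorem xsh2d_fix {V : Type} [AddCommGroup V] [Module K V] [Module.Finite K V]
    {H : Type} [Group H] [Finite H] (ρ : Representation K H V) (E : Subgroup H) (hE : EH ρ 2 4 E)
    (ζ : K) (L : Subgroup H) (X Z : H) (hH : HS ρ 2 (-1) ζ E L X Z)
    (J B : Subgroup H) (C : Submodule K V) (hD : H2D ρ ζ L X Z J B C) (a b : V) (ha : a ∈ C)
    (hb : b ∈ C) (hab : ∀ x y : K, x • a + y • b = 0 → x = 0 ∧ y = 0) :
    wv ρ X a + b ∈ fixS ρ J ∧ wv ρ X a + b ∈ fixS ρ L ∧ wv ρ X a + b ≠ 0 := by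
  have fa := ((hD.memC a).1 ha).1
  have fb := ((hD.memC b).1 hb).1
  have h1 : wv ρ X a + b ∈ fixS ρ J :=
    add_mem (add_mem fa (Submodule.smul_mem _ _ (fix_norm ρ J X hD.nX a fa))) fb
  refine ⟨h1, fun y hy => h1 y (hD.lJ hy), fun h0 => ?_⟩
  refine one_ne_zero (h2_u4 ρ E hE ζ L X Z hH J B C hD a b ha hb hab 1 1 3 0 ?_).1
  unfold wv at h0
  linear_combination (norm := module) h0

theorem h2_slv {V : Type} [AddCommGroup V] [Module K V] [Module.Finite K V]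
    {H : Type} [Group H] [Finite H] (ρ : Representation K H V) (E : Subgroup H) (hE : EH ρ 2 4 E) (ζ : K) (L : Subgroup H) (X Z : H)
    (hH : HS ρ 2 (-1) ζ E L X Z)
    (J B : Subgroup H) (C : Submodule K V) (hD : H2D ρ ζ L X Z J B C) (a b : V) (ha : a ∈ C) (hb : b ∈ C)
    (hab : ∀ x y : K, x • a + y • b = 0 → x = 0 ∧ y = 0) : SL ρ E L (wv ρ X a + b) := by
  intro f hf c hc
  have hpq : PQ 2 4 (-1) := Or.inl ⟨rfl, rfl, rfl⟩
  obtain ⟨-, fL, h0⟩ := xsh2d_fix ρ E hE ζ L X Z hH J B C hD a b ha hb hab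
  have hz := (hs_p2 ρ E hE ζ L X Z hH a (xsh2d_ne hab) ((hD.memC a).1 ha).2).z4
  have hζ : ζ ≠ 0 := fun h0 => by rw [h0] at hz; exact absurd hz (by decide)
  have za := ((hD.memC a).1 ha).2
  have zb := ((hD.memC b).1 hb).2
  obtain ⟨e, -, xx⟩ := xsh2d_xx ρ E hE X hH.mX
  have u4 := h2_u4 ρ E hE ζ L X Z hH J B C hD a b ha hb hab
  obtain ⟨c0, i, j, hc0, hi, hj, h1, h2⟩ := hs_cen ρ 2 4 (-1) hpq E hE ζ L X Z hH f hf
    (hs_comm ρ 2 4 (-1) hpq E hE ζ L X Z hH f hf _ fL h0 (hc ▸ Submodule.smul_mem _ _ fL))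
  have h3 := h1 _ fL
  rw [hc] at h3
  unfold wv at h3
  interval_cases i <;> interval_cases j
  · obtain ⟨l, hl, h⟩ := h2 rfl rfl
    exact ⟨l, hl, c0, h⟩
  · exfalso
    simp only [pow_zero, pow_one, one_mul, map_add, map_smul, hH.zx, za, zb] at h3
    obtain ⟨e1, -, e3, -⟩ := u4 (c - c0 * ζ) (c - c0 * ζ) (3 * c + 3 * (c0 * ζ)) 0
      (by linear_combination (norm := module) h3)
    have : (6 : K) * (c0 * ζ) = 0 := by linear_combination e3 - 3 * e1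
    exact mul_ne_zero (by decide) (mul_ne_zero hc0 hζ) this
  · exfalso
    simp only [pow_zero, pow_one, mul_one, map_add, map_smul, xx] at h3
    obtain ⟨-, -, -, e4⟩ := u4 (c - 3 * c0 * e) c (3 * c - c0) (-c0)
      (by linear_combination (norm := module) h3)
    exact hc0 (neg_eq_zero.1 e4)
  · exfalso
    simp only [pow_one, Module.End.mul_apply, map_add, map_smul, hH.zx, za, zb, xx] at h3
    obtain ⟨-, -, -, e4⟩ := u4 (c + 3 * c0 * ζ * e) c (3 * c - c0 * ζ) (-(c0 * ζ))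
      (by linear_combination (norm := module) h3)
    exact mul_ne_zero hc0 hζ (neg_eq_zero.1 e4)

theorem h2_gam {V : Type} [AddCommGroup V] [Module K V] [Module.Finite K V]
    {H : Type} [Group H] [Finite H] [Group.IsSolvable H] (ρ : Representation K H V) (hE5 : HEP ρ 5) (E : Subgroup H) (hE : EH ρ 2 4 E) (ζ : K) (L : Subgroup H) (X Z : H)
    (hH : HS ρ 2 (-1) ζ E L X Z)
    (J B : Subgroup H) (C : Submodule K V) (hD : H2D ρ ζ L X Z J B C) (a b : V) (ha : a ∈ C) (hb : b ∈ C)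
    (hab : ∀ x y : K, x • a + y • b = 0 → x = 0 ∧ y = 0) :
    ∃ (g : H) (n : ℕ), g ∈ Subgroup.normalizer (J : Set H) ∧ g ∈ Subgroup.normalizer (L : Set H) ∧ g ^ (2 ^ n) = 1 ∧
      ρ g (wv ρ X a + b) = (5 : K) • (wv ρ X a + b) ∧
      ∀ u ∈ U4 (ρ X) a b, ρ g u ∈ U4 (ρ X) a b := by
  have hpq : PQ 2 4 (-1) := Or.inl ⟨rfl, rfl, rfl⟩
  obtain ⟨-, fL, h0⟩ := xsh2d_fix ρ E hE ζ L X Z hH J B C hD a b ha hb hab
  have sl := h2_slv ρ E hE ζ L X Z hH J B C hD a b ha hb hab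
  have hz := (hs_p2 ρ E hE ζ L X Z hH a (xsh2d_ne hab) ((hD.memC a).1 ha).2).z4
  have hζ : ζ ≠ 0 := fun h0 => by rw [h0] at hz; exact absurd hz (by decide)
  obtain ⟨fa, za⟩ := (hD.memC a).1 ha
  obtain ⟨fb, zb⟩ := (hD.memC b).1 hb
  obtain ⟨e, he, xx⟩ := xsh2d_xx ρ E hE X hH.mX
  obtain ⟨g0, hg0⟩ := hE5 (wv ρ X a + b)
  set U := U4 (ρ X) a b with hU
  have ua : a ∈ U := Submodule.subset_span (by simp)
  have ub : b ∈ U := Submodule.subset_span (by simp)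
  have uxa : ρ X a ∈ U := Submodule.subset_span (by simp)
  have uxb : ρ X b ∈ U := Submodule.subset_span (by simp)
  have ule : ∀ P : Submodule K V, a ∈ P → b ∈ P → ρ X a ∈ P → ρ X b ∈ P → U ≤ P := by
    intro P h1 h2 h3 h4
    refine Submodule.span_le.2 ?_
    rintro _ (rfl | rfl | rfl | rfl) <;> assumption
  have uw : wv ρ X a ∈ U := add_mem ua (U.smul_mem _ uxa)
  have uv : wv ρ X a + b ∈ U := add_mem uw ub
  have uX : ∀ u ∈ U, ρ X u ∈ U := ule (U.comap (ρ X)) uxa uxb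
    (show ρ X (ρ X a) ∈ U from xx a ▸ U.smul_mem _ ua)
    (show ρ X (ρ X b) ∈ U from xx b ▸ U.smul_mem _ ub)
  have uZ : ∀ u ∈ U, ρ Z u ∈ U := ule (U.comap (ρ Z))
    (show ρ Z a ∈ U from za ▸ U.smul_mem _ ua) (show ρ Z b ∈ U from zb ▸ U.smul_mem _ ub)
    (show ρ Z (ρ X a) ∈ U by rw [hH.zx, za, map_smul]; exact U.smul_mem _ (U.smul_mem _ uxa))
    (show ρ Z (ρ X b) ∈ U by rw [hH.zx, zb, map_smul]; exact U.smul_mem _ (U.smul_mem _ uxb))
  have uP : ∀ (T : Module.End K V), (∀ u ∈ U, T u ∈ U) → ∀ n : ℕ, ∀ u ∈ U, (T ^ n) u ∈ U := by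
    intro T hT n
    induction n with
    | zero => exact fun u hu => hu
    | succ n ih => exact fun u hu => by rw [pow_succ', Module.End.mul_apply]; exact hT _ (ih u hu)
  have uJ : U ≤ fixS ρ J := ule _ fa fb (fix_norm ρ J X hD.nX a fa) (fix_norm ρ J X hD.nX b fb)
  obtain ⟨⟨c1, i1, j1, -, -, p1⟩, c2, i2, j2, -, -, p2⟩ := hs_conj ρ 2 4 (-1) hpq E hE ζ L X Z hH g0
    (hs_norm ρ 2 4 (-1) hpq E hE ζ L X Z hH _ fL h0 sl g0 5 hg0)
  set P : Submodule K V := fixS ρ L ⊓ U.comap (ρ g0) with hP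
  have pX : ∀ w ∈ P, ρ X w ∈ P := fun w hw =>
    ⟨(hs_fix ρ 2 4 (-1) hpq E hE ζ L X Z hH w hw.1).1, show ρ g0 (ρ X w) ∈ U by
      rw [p1 w hw.1, Module.End.mul_apply]
      exact U.smul_mem _ (uP _ uX _ _ (uP _ uZ _ _ hw.2))⟩
  have pZ : ∀ w ∈ P, ρ Z w ∈ P := fun w hw =>
    ⟨(hs_fix ρ 2 4 (-1) hpq E hE ζ L X Z hH w hw.1).2, show ρ g0 (ρ Z w) ∈ U by
      rw [p2 w hw.1, Module.End.mul_apply]
      exact U.smul_mem _ (uP _ uX _ _ (uP _ uZ _ _ hw.2))⟩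
  have pv : wv ρ X a + b ∈ P := ⟨fL, show ρ g0 _ ∈ U from hg0 ▸ U.smul_mem _ uv⟩
  have pxa : ρ X a ∈ P := by
    have h1 : (6 * ζ) • ρ X a = ζ • (wv ρ X a + b) - ρ Z (wv ρ X a + b) := by
      simp only [wv, map_add, map_smul, hH.zx, za, zb]
      module
    rw [← P.smul_mem_iff (mul_ne_zero (show (6 : K) ≠ 0 by decide) hζ), h1]
    exact sub_mem (P.smul_mem _ pv) (pZ _ pv)
  have pa : a ∈ P := by
    rw [← P.smul_mem_iff he, ← xx]
    exact pX _ pxa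
  have pb : b ∈ P := by
    have := sub_mem pv (show wv ρ X a ∈ P from add_mem pa (P.smul_mem _ pxa))
    rwa [add_sub_cancel_left] at this
  have ug : ∀ u ∈ U, ρ g0 u ∈ U := fun u hu => (ule P pa pb pxa (pX _ pb) hu).2
  obtain ⟨y, hy, hyu⟩ := fratU ρ (wv ρ X a) J (hD.mx a ha (xsh2d_ne hab)) U uw uJ g0 ug
  obtain ⟨m, n, h1, h2⟩ := eig_ppart ρ 2 Nat.prime_two y
  have h3 := h2 (wv ρ X a + b) 5 2 (by rw [hyu _ uv, hg0]) (by decide)
  refine ⟨y ^ m, n, pow_mem hy m, hs_norm ρ 2 4 (-1) hpq E hE ζ L X Z hH _ fL h0 sl _ 5 h3, h1, h3,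
    fun u hu => ?_⟩
  rw [map_pow]
  exact uP _ (fun u hu => by rw [hyu u hu]; exact ug u hu) m u hu

end Pool.Agent.N9181
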