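import Pool.Agent.MP_9181f8_al.S.H2c

namespace Pool.Agent.N9181

open scoped commutatorElement

theorem xsh2e_le {V : Type} [AddCommGroup V] [Module K V] [Module.Finite K V]
    {H : Type} [Group H] [Finite H] (ρ : Representation K H V) (hK : DK ρ) (E : Subgroup H)
    (hE : EH ρ 2 4 E) (ζ : K) (L : Subgroup H) (X Z : H) (hH : HS ρ 2 (-1) ζ E L X Z)
    (J B : Subgroup H) (C : Submodule K V) (hD : H2D ρ ζ L X Z J B C) (y : H) (hy : y ∈ B) (a : ℕ)
    (ha : y ^ (2 ^ a) = 1) (m : V) (hm : m ∈ C) (h0 : m ≠ 0) (he : ρ y m = (5 : K) • m) :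
    edOn C (ρ y) 5 ≤ edOn C (ρ y) 8 := by
  obtain ⟨hJ, hZ⟩ := (hD.memC m).1 hm
  have hL : m ∈ fixS ρ L := fun l hl => hJ l (hD.lJ hl)
  obtain ⟨w1, w2, w3⟩ := hs_sl2 ρ E hE ζ L X Z hH m hL h0 hZ
  obtain ⟨hn, hc⟩ := (hD.memB y).1 hy
  have hv : Val ρ J (wv ρ X m) y := by
    refine ⟨hn, ⟨a, ha⟩, ?_⟩
    rw [wv, map_add, map_smul, (hc m hJ).1, he, map_smul, smul_add, smul_comm]
  rcases hK _ J y w2 (hD.mx m hm h0) hv with h | h
  · obtain ⟨k, hk⟩ := h m hJ h0 he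
    exact absurd (hk.trans (one_smul K m).symm)
      (hs_nc ρ 2 4 (-1) (Or.inl ⟨rfl, rfl, rfl⟩) E hE ζ L X Z hH _ w1 w2 w3 m hL ζ hZ k 1)
  · rw [h2_dbl ρ E hE ζ L X Z hH J B C hD y hy, h2_dbl ρ E hE ζ L X Z hH J B C hD y hy] at h
    omega

theorem xsh2e_top {V : Type} [AddCommGroup V] [Module K V] [Module.Finite K V]
    {H : Type} [Group H] [Finite H] (ρ : Representation K H V) (E : Subgroup H)
    (hE : EH ρ 2 4 E) (ζ : K) (L : Subgroup H) (X Z : H) (hH : HS ρ 2 (-1) ζ E L X Z)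
    (J B : Subgroup H) (C : Submodule K V) (hD : H2D ρ ζ L X Z J B C) (τ : Representation K B C)
    (hτ : ∀ (b : B) (v : C), (τ b v : V) = ρ b v) (w : C) (h0 : w ≠ 0) (J1 : Subgroup B)
    (hJ : M3 J1 (stabV τ w)) : fixS τ J1 = ⊤ := by
  have hw : (w : V) ≠ 0 := fun h => h0 (Subtype.ext h)
  have hM := hD.mx w w.2 hw
  have hwJ := ((hD.memC w).1 w.2).1
  have hle := h2_JB ρ E hE ζ L X Z hH J B C hD
  have h1 : J.subgroupOf B ≤ J1 := by
    refine m3_normal J1 _ _ hJ (fun j hj => Subtype.ext ?_) ?_ (Or.inl fun b _ => ?_)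
    · rw [hτ]
      exact hwJ _ hj
    · rw [Nat.card_congr (Subgroup.subgroupOfEquivOfLe hle).toEquiv]
      exact hM.2.1
    · have hb := ((hD.memB b).1 b.2).1
      rw [Subgroup.mem_normalizer_iff] at hb ⊢
      exact fun h => hb h
  have h2 : J1.map B.subtype = J := by
    refine hM.2.2 _ (fun j hj => ⟨⟨j, hle hj⟩, h1 hj, rfl⟩) ?_ ?_
    · rintro _ ⟨j, hj, rfl⟩
      have e : ρ j w = w := by
        rw [← hτ]
        exact congrArg Subtype.val (hJ.1 hj)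
      show ρ j (wv ρ X w) = wv ρ X w
      rw [wv, map_add, map_smul, (((hD.memB j).1 j.2).2 w hwJ).1, e]
    · rw [Subgroup.card_map_of_injective B.subtype_injective]
      exact hJ.2.1
  rw [eq_top_iff]
  intro v _ j hj
  refine Subtype.ext ?_
  rw [hτ]
  exact ((hD.memC v).1 v.2).1 _ (h2 ▸ ⟨j, hj, rfl⟩)

theorem h2_bal {V : Type} [AddCommGroup V] [Module K V] [Module.Finite K V]
    {H : Type} [Group H] [Finite H] [Group.IsSolvable H] (ρ : Representation K H V) (hK : DK ρ) (E : Subgroup H) (hE : EH ρ 2 4 E) (ζ : K) (L : Subgroup H) (X Z : H)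
    (hH : HS ρ 2 (-1) ζ E L X Z)
    (J B : Subgroup H) (C : Submodule K V) (hD : H2D ρ ζ L X Z J B C) (τ : Representation K B C) (hτ : ∀ (b : B) (v : C), (τ b v : V) = ρ b v) : BalJ τ := by
  intro w J1 y h0 hJ hv
  obtain ⟨-, ⟨a, ha⟩, he⟩ := hv
  rw [xsh2e_top ρ E hE ζ L X Z hH J B C hD τ hτ w h0 J1 hJ, edOn_top, edOn_top,
    ed_res C (ρ y) _ (hτ y), ed_res C (ρ y) _ (hτ y)]
  have ha' : (y : H) ^ (2 ^ a) = 1 := congrArg Subtype.val ha
  have he' : ρ y w = (5 : K) • (w : V) := by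
    rw [← hτ, he]
    rfl
  refine le_antisymm (xsh2e_le ρ hK E hE ζ L X Z hH J B C hD y y.2 a ha' w w.2
    (fun h => h0 (Subtype.ext h)) he') ?_
  rcases Nat.eq_zero_or_pos (edOn C (ρ y) 8) with h | h
  · omega
  · obtain ⟨u, hu, u0, ue⟩ := (edOn_pos C _ _).1 h
    have ui : ρ (y : H)⁻¹ u = (5 : K) • u := by
      have h1 : u = (5 : K) • (8 : K) • u := by
        rw [smul_smul, show (5 : K) * 8 = 1 by decide, one_smul]
      nth_rewrite 1 [h1]
      rw [map_smul, ← ue, rho_inv]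
    have h2 := xsh2e_le ρ hK E hE ζ L X Z hH J B C hD (y : H)⁻¹ (B.inv_mem y.2) a
      (by rw [inv_pow, ha', inv_one]) u hu u0 ui
    have h5 := ed_inv ρ C y 5 (by decide)
    have h8 := ed_inv ρ C y 8 (by decide)
    rw [show (5 : K)⁻¹ = 8 from inv_eq_of_mul_eq_one_right (by decide)] at h5
    rw [show (8 : K)⁻¹ = 5 from inv_eq_of_mul_eq_one_right (by decide)] at h8
    omega

theorem h2_clb {V : Type} [AddCommGroup V] [Module K V] [Module.Finite K V]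
    {H : Type} [Group H] [Finite H] [Group.IsSolvable H] (ρ : Representation K H V) (h13 : ¬ 13 ∣ Nat.card H) (N : ℕ) (hd : Nat.card H ∣ N) (hN : 0 < N)
    (hS : HSq ρ N) (hE5 : HEP ρ 5) (hK : DK ρ) (E : Subgroup H) (hE : EH ρ 2 4 E) (ζ : K) (L : Subgroup H) (X Z : H)
    (hH : HS ρ 2 (-1) ζ E L X Z)
    (J B : Subgroup H) (C : Submodule K V) (hD : H2D ρ ζ L X Z J B C) (τ : Representation K B C) (hτ : ∀ (b : B) (v : C), (τ b v : V) = ρ b v) : ClB τ N := by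
  have hB : Nat.card B ∣ Nat.card H := Subgroup.card_subgroup_dvd_card B
  exact ⟨hB.trans hd, hN, fun h => h13 (h.trans hB), h2_ep ρ hE5 E hE ζ L X Z hH J B C hD τ hτ,
    h2_sq ρ h13 N hd hS E hE ζ L X Z hH J B C hD τ hτ, h2_bal ρ hK E hE ζ L X Z hH J B C hD τ hτ⟩

end Pool.Agent.N9181
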