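import Pool.Agent.MP_9181f8_al.S.H2d

namespace Pool.Agent.N9181

open scoped commutatorElement

theorem xsh2f_mem {V : Type} [AddCommGroup V] [Module K V] (X : Module.End K V) (a b u : V) :
    u ∈ U4 X a b ↔ ∃ x y z t : K, u = x • a + y • b + z • X a + t • X b := by
  unfold U4
  constructor
  · intro h
    obtain ⟨x, u1, h1, rfl⟩ := Submodule.mem_span_insert.1 h
    obtain ⟨y, u2, h2, rfl⟩ := Submodule.mem_span_insert.1 h1
    obtain ⟨z, t, rfl⟩ := Submodule.mem_span_pair.1 h2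
    exact ⟨x, y, z, t, by module⟩
  · rintro ⟨x, y, z, t, rfl⟩
    refine add_mem (add_mem (add_mem ?_ ?_) ?_) ?_ <;>
      exact Submodule.smul_mem _ _ (Submodule.subset_span (by simp))

theorem xsh2f_pow {V : Type} [AddCommGroup V] [Module K V] (F : Submodule K V)
    (g X : Module.End K V) (hX : ∀ v ∈ F, X v ∈ F) (h : ∀ v ∈ F, g (X v) = X (g v)) (i : ℕ) :
    ∀ v ∈ F, (X ^ i) v ∈ F ∧ g ((X ^ i) v) = (X ^ i) (g v) := by
  induction i with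
  | zero => exact fun v hv => ⟨hv, rfl⟩
  | succ i ih =>
    intro v hv
    simp only [pow_succ', Module.End.mul_apply]
    exact ⟨hX _ (ih v hv).1, by rw [h _ (ih v hv).1, (ih v hv).2]⟩

theorem xsh2f_conj {V : Type} [AddCommGroup V] [Module K V] {H : Type} [Group H]
    (ρ : Representation K H V) (F : Submodule K V) (g γ : H) (X Z Y : Module.End K V)
    (hX : ∀ v ∈ F, X v ∈ F) (hZ : ∀ v ∈ F, Z v ∈ F) (hγ : ∀ v ∈ F, ρ γ v ∈ F)
    (hg' : ∀ v ∈ F, ρ (γ⁻¹ * g * γ) v ∈ F)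
    (h : ∀ v ∈ F, ρ g (X v) = X (ρ g v) ∧ ρ g (Z v) = Z (ρ g v)) (c : K) (i j : ℕ)
    (hY : ∀ v ∈ F, ρ γ (Y v) = c • (X ^ i * Z ^ j) (ρ γ v)) (v : V) (hv : v ∈ F) :
    ρ (γ⁻¹ * g * γ) (Y v) = Y (ρ (γ⁻¹ * g * γ) v) := by
  have h1 := xsh2f_pow F (ρ g) Z hZ (fun v hv => (h v hv).2) j _ (hγ v hv)
  have h2 := xsh2f_pow F (ρ g) X hX (fun v hv => (h v hv).1) i _ h1.1
  have h3 := hY _ (hg' v hv)
  rw [← rho_inv ρ γ (Y (ρ (γ⁻¹ * g * γ) v)), h3, rho_mul, rho_mul, rho_mul, rho_mul, rho_inv',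
    hY v hv, map_smul, Module.End.mul_apply, Module.End.mul_apply, h2.2, h1.2]

theorem xsh2f_num (x y p1 p2 p3 p4 : K) (h1 : (2 - x) * p1 = 0) (h2 : (7 - x) * p2 = 0)
    (h3 : (2 - x) * p3 = 0) (h4 : (7 - x) * p4 = 0) (k1 : (2 - y) * (5 - p1) = 0)
    (k2 : (7 - y) * (5 - p2) = 0) (k3 : (2 - y) * (15 - p3) = 0) (k4 : (7 - y) * (-p4) = 0) :
    (p1 = 5 ∧ p2 = 0 ∧ p3 = 15 ∧ p4 = 0) ∨ (p1 = 0 ∧ p2 = 5 ∧ p3 = 0 ∧ p4 = 0) := by
  have n5 : (5 : K) ≠ 0 := by decide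
  have n72 : (7 : K) - 2 ≠ 0 := by decide
  have n27 : (2 : K) - 7 ≠ 0 := by decide
  by_cases hx : x = 2
  · subst hx
    have e2 := (mul_eq_zero.1 h2).resolve_left n72
    have e4 := (mul_eq_zero.1 h4).resolve_left n72
    rw [e2, sub_zero] at k2
    have ey : y = 7 := (sub_eq_zero.1 ((mul_eq_zero.1 k2).resolve_right n5)).symm
    subst ey
    exact Or.inl ⟨(sub_eq_zero.1 ((mul_eq_zero.1 k1).resolve_left n27)).symm, e2,
      (sub_eq_zero.1 ((mul_eq_zero.1 k3).resolve_left n27)).symm, e4⟩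
  · have hx' : 2 - x ≠ 0 := fun h => hx (sub_eq_zero.1 h).symm
    have e1 := (mul_eq_zero.1 h1).resolve_left hx'
    have e3 := (mul_eq_zero.1 h3).resolve_left hx'
    rw [e1, sub_zero] at k1
    have ey : y = 2 := (sub_eq_zero.1 ((mul_eq_zero.1 k1).resolve_right n5)).symm
    subst ey
    exact Or.inr ⟨e1, (sub_eq_zero.1 ((mul_eq_zero.1 k2).resolve_left n72)).symm, e3,
      neg_eq_zero.1 ((mul_eq_zero.1 k4).resolve_left n72)⟩

theorem h2_fin {V : Type} [AddCommGroup V] [Module K V] [Module.Finite K V]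
    {H : Type} [Group H] [Finite H] [Group.IsSolvable H] (ρ : Representation K H V) (hE5 : HEP ρ 5) (E : Subgroup H) (hE : EH ρ 2 4 E) (ζ : K) (L : Subgroup H) (X Z : H)
    (hH : HS ρ 2 (-1) ζ E L X Z)
    (J B : Subgroup H) (C : Submodule K V) (hD : H2D ρ ζ L X Z J B C) (a b : V) (ha : a ∈ C) (hb : b ∈ C)
    (hab : ∀ x y : K, x • a + y • b = 0 → x = 0 ∧ y = 0) (g : H) (hg : g ∈ B)
    (hga : ρ g a = (2 : K) • a) (hgb : ρ g b = (7 : K) • b)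
    (hr : ∀ h ∈ B, ρ h a = (5 : K) • a → ρ h b ≠ (5 : K) • b)
    (hm : ∀ h ∈ B, ρ h a ∈ Submodule.span K {a, b} → ρ h b ∈ Submodule.span K {a, b} →
      (∃ x y : K, ρ h a = x • a ∧ ρ h b = y • b) ∨ ∃ x y : K, ρ h a = x • b ∧ ρ h b = y • a) :
    False := by
  obtain ⟨γ, n, hγJ, hγL, hγn, hγv, hγU⟩ := h2_gam ρ hE5 E hE ζ L X Z hH J B C hD a b ha hb hab
  have hpq : PQ 2 4 (-1) := Or.inl ⟨rfl, rfl, rfl⟩
  have hu4 := h2_u4 ρ E hE ζ L X Z hH J B C hD a b ha hb hab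
  have hFL : ∀ v ∈ fixS ρ J, v ∈ fixS ρ L := fun v hv l hl => hv l (hD.lJ hl)
  obtain ⟨haF, haZ⟩ := (hD.memC a).1 ha
  obtain ⟨hbF, hbZ⟩ := (hD.memC b).1 hb
  have ha0 : a ≠ 0 := fun h => one_ne_zero (hab 1 0 (by rw [h]; simp)).1
  have hb0 : b ≠ 0 := fun h => one_ne_zero (hab 0 1 (by rw [h]; simp)).2
  have hζ : ζ ≠ 0 := fun h => by
    have := (hs_p2 ρ E hE ζ L X Z hH a ha0 haZ).z4
    rw [h] at this
    exact absurd this (by decide)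
  obtain ⟨hgJ, hgc⟩ := (hD.memB g).1 hg
  have hg'J : γ⁻¹ * g * γ ∈ Subgroup.normalizer (J : Set H) :=
    mul_mem (mul_mem (inv_mem hγJ) hgJ) hγJ
  have hg' : γ⁻¹ * g * γ ∈ B := by
    obtain ⟨⟨c, i, j, -, -, h1⟩, c', i', j', -, -, h2⟩ :=
      hs_conj ρ 2 4 (-1) hpq E hE ζ L X Z hH γ hγL
    refine (hD.memB _).2 ⟨hg'J, fun v hv => ⟨?_, ?_⟩⟩
    · exact xsh2f_conj ρ (fixS ρ J) g γ (ρ X) (ρ Z) (ρ X) (fix_norm ρ J X hD.nX)
        (fix_norm ρ J Z hD.nZ) (fix_norm ρ J γ hγJ) (fix_norm ρ J _ hg'J) hgc c i j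
        (fun v hv => h1 v (hFL v hv)) v hv
    · exact xsh2f_conj ρ (fixS ρ J) g γ (ρ X) (ρ Z) (ρ Z) (fix_norm ρ J X hD.nX)
        (fix_norm ρ J Z hD.nZ) (fix_norm ρ J γ hγJ) (fix_norm ρ J _ hg'J) hgc c' i' j'
        (fun v hv => h2 v (hFL v hv)) v hv
  obtain ⟨-, hgc'⟩ := (hD.memB _).1 hg'
  have hgXa : ρ g (ρ X a) = (2 : K) • ρ X a := by rw [(hgc a haF).1, hga, map_smul]
  have hgXb : ρ g (ρ X b) = (7 : K) • ρ X b := by rw [(hgc b hbF).1, hgb, map_smul]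
  have hg4 : ∀ x y z t : K, ρ g (x • a + y • b + z • ρ X a + t • ρ X b) =
      (2 * x) • a + (7 * y) • b + (2 * z) • ρ X a + (7 * t) • ρ X b := fun x y z t => by
    simp only [map_add, map_smul, hga, hgb, hgXa, hgXb]
    module
  have hgU : ∀ u ∈ U4 (ρ X) a b, ρ g u ∈ U4 (ρ X) a b := fun u hu => by
    obtain ⟨x, y, z, t, rfl⟩ := (xsh2f_mem _ _ _ _).1 hu
    exact (xsh2f_mem _ _ _ _).2 ⟨_, _, _, _, hg4 x y z t⟩
  have hγk : ∀ k : ℕ, ∀ u ∈ U4 (ρ X) a b, ρ (γ ^ k) u ∈ U4 (ρ X) a b := fun k => by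
    induction k with
    | zero => intro u hu; rw [pow_zero, map_one]; exact hu
    | succ k ih => intro u hu; rw [pow_succ, rho_mul]; exact ih _ (hγU u hu)
  have hγi : ∀ u ∈ U4 (ρ X) a b, ρ γ⁻¹ u ∈ U4 (ρ X) a b := fun u hu => by
    have : γ⁻¹ = γ ^ (2 ^ n - 1) := by
      refine inv_eq_of_mul_eq_one_right ?_
      rw [← pow_succ', Nat.sub_add_cancel Nat.one_le_two_pow, hγn]
    rw [this]
    exact hγk _ u hu
  have hg'U : ∀ u ∈ U4 (ρ X) a b, ρ (γ⁻¹ * g * γ) u ∈ U4 (ρ X) a b := fun u hu => by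
    rw [rho_mul, rho_mul]
    exact hγi _ (hgU _ (hγU u hu))
  have hUC : ∀ u ∈ U4 (ρ X) a b, u ∈ C → u ∈ Submodule.span K {a, b} := fun u hu hC => by
    obtain ⟨x, y, z, t, rfl⟩ := (xsh2f_mem _ _ _ _).1 hu
    have h1 := ((hD.memC _).1 hC).2
    simp only [map_add, map_smul, hH.zx, haZ, hbZ] at h1
    obtain ⟨-, -, h2, h3⟩ := hu4 0 0 (2 * ζ * z) (2 * ζ * t)
      (by linear_combination (norm := module) (-1 : K) • h1)
    have n2 : (2 : K) * ζ ≠ 0 := mul_ne_zero (by decide) hζ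
    rw [(mul_eq_zero.1 h2).resolve_left n2, (mul_eq_zero.1 h3).resolve_left n2]
    exact Submodule.mem_span_pair.2 ⟨x, y, by simp⟩
  have haU : a ∈ U4 (ρ X) a b := (xsh2f_mem _ _ _ _).2 ⟨1, 0, 0, 0, by simp⟩
  have hbU : b ∈ U4 (ρ X) a b := (xsh2f_mem _ _ _ _).2 ⟨0, 1, 0, 0, by simp⟩
  have hwU : wv ρ X a ∈ U4 (ρ X) a b := (xsh2f_mem _ _ _ _).2 ⟨1, 0, 3, 0, by simp [wv]⟩
  have hrel : ∀ u, ρ g (ρ γ u) = ρ γ (ρ (γ⁻¹ * g * γ) u) := fun u => by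
    rw [rho_mul, rho_mul, rho_inv']
  rcases hm _ hg' (hUC _ (hg'U a haU) (h2_inv ρ E hE ζ L X Z hH J B C hD _ hg' a ha))
    (hUC _ (hg'U b hbU) (h2_inv ρ E hE ζ L X Z hH J B C hD _ hg' b hb)) with
    ⟨x, y, hx, hy⟩ | ⟨x, y, hx, hy⟩
  · have hp : ρ g (ρ γ (wv ρ X a)) = x • ρ γ (wv ρ X a) := by
      rw [hrel, ← map_smul]
      congr 1
      simp only [wv, map_add, map_smul, (hgc' a haF).1, hx]
      module
    have hq : ρ g (ρ γ b) = y • ρ γ b := by rw [hrel, hy, map_smul]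
    obtain ⟨p1, p2, p3, p4, hP⟩ := (xsh2f_mem _ _ _ _).1 (hγU _ hwU)
    have hQ : ρ γ b = (5 - p1) • a + (5 - p2) • b + (15 - p3) • ρ X a + (-p4) • ρ X b := by
      rw [map_add, hP] at hγv
      unfold wv at hγv
      linear_combination (norm := module) hγv
    rw [hP, hg4] at hp
    rw [hQ, hg4] at hq
    obtain ⟨h1, h2, h3, h4⟩ := hu4 ((2 - x) * p1) ((7 - x) * p2) ((2 - x) * p3) ((7 - x) * p4)
      (by linear_combination (norm := module) hp)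
    obtain ⟨k1, k2, k3, k4⟩ := hu4 ((2 - y) * (5 - p1)) ((7 - y) * (5 - p2))
      ((2 - y) * (15 - p3)) ((7 - y) * (-p4)) (by linear_combination (norm := module) hq)
    rcases xsh2f_num x y p1 p2 p3 p4 h1 h2 h3 h4 k1 k2 k3 k4 with
      ⟨rfl, rfl, rfl, rfl⟩ | ⟨rfl, rfl, rfl, rfl⟩
    · have h3 : ¬ 3 ∣ orderOf γ := fun h => by
        have := (Nat.Prime.dvd_of_dvd_pow Nat.prime_three
          (h.trans (orderOf_dvd_of_pow_eq_one hγn)))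
        omega
      obtain ⟨hB, h5⟩ := h2_memB ρ E hE ζ L X Z hH J B C hD a ha ha0 γ hγJ h3 5
        (by rw [hP]; unfold wv; module)
      exact hr γ hB h5 (by rw [hQ]; module)
    · obtain ⟨s1, s2, s3⟩ := hs_sl2 ρ E hE ζ L X Z hH a (hFL a haF) ha0 haZ
      exact hs_nc ρ 2 4 (-1) hpq E hE ζ L X Z hH _ s1 s2 s3 b (hFL b hbF) ζ hbZ γ 5
        (by rw [hP]; module)
  · have hsq : ∀ u ∈ U4 (ρ X) a b, ρ (γ⁻¹ * g * γ) (ρ (γ⁻¹ * g * γ) u) = (x * y) • u := by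
      intro u hu
      obtain ⟨p1, p2, p3, p4, rfl⟩ := (xsh2f_mem _ _ _ _).1 hu
      simp only [map_add, map_smul, (hgc' a haF).1, (hgc' b hbF).1, hx, hy]
      module
    have hgg : ∀ u ∈ U4 (ρ X) a b, ρ g (ρ g u) = (x * y) • u := fun u hu => by
      rw [← rho_inv' ρ γ u, hrel, hrel, hsq _ (hγi u hu), map_smul]
    have h1 := hgg a haU
    have h2 := hgg b hbU
    rw [hga, map_smul, hga] at h1
    rw [hgb, map_smul, hgb] at h2
    obtain ⟨e1, e2⟩ := hab (4 - x * y) (49 - x * y)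
      (by linear_combination (norm := module) h1 + h2)
    have : (45 : K) = 0 := by linear_combination e2 - e1
    exact absurd this (by decide)

end Pool.Agent.N9181
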