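import Pool.Agent.MP_9181f8_al.S.SBasic
import Pool.Agent.MP_9181f8_al.N.SDPair

namespace Pool.Agent.N9181

open scoped commutatorElement

theorem xshsa_rel {V : Type} [AddCommGroup V] [Module K V] {H : Type} [Group H]
    (ρ : Representation K H V) (f g : H) (h : ⁅f, g⁆ ∈ scal ρ) :
    ∃ c : K, c ≠ 0 ∧ ∀ v, ρ f (ρ g v) = c • ρ g (ρ f v) := by
  obtain ⟨c, h0, hc⟩ := h
  refine ⟨c, h0, fun v => ?_⟩
  rw [← hc, ← rho_mul, ← rho_mul, ← rho_mul, commutatorElement_def]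
  congr 2
  group

theorem xshsa_ne {V : Type} [AddCommGroup V] [Module K V] {H : Type} [Group H]
    (ρ : Representation K H V) (g : H) (v : V) (hv : v ≠ 0) : ρ g v ≠ 0 := fun e => hv (by
  rw [← rho_inv ρ g v, e, map_zero])

theorem xshsa_top {L Z : Type} [CommGroup L] [Finite L] [CommGroup Z] [Finite Z] [IsCyclic Z]
    (M : Subgroup (L →* Z)) (hM : ∀ l : L, (∀ φ ∈ M, φ l = 1) → l = 1) : M = ⊤ := by
  have := xpair_fin L Z
  have := xpair_fin M Z
  let ev : L →* M →* Z := M.subtype.flip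
  have h1 : Function.Injective ev := (injective_iff_map_eq_one ev).2 fun l hl =>
    hM l fun φ hφ => DFunLike.congr_fun hl ⟨φ, hφ⟩
  exact Subgroup.eq_top_of_le_card _ ((xpair_card L Z).trans
    ((Nat.card_le_card_of_injective _ h1).trans (xpair_card M Z)))

theorem xshsa_hom {L : Type} [Group L] (c : L → K) (h0 : ∀ l, c l ≠ 0)
    (hm : ∀ l l', c (l * l') = c l * c l') : ∃ φ : L →* Kˣ, ∀ l, (φ l : K) = c l :=
  ⟨MonoidHom.mk' (fun l => Units.mk0 (c l) (h0 l)) fun a b => Units.ext (hm a b), fun _ => rfl⟩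

theorem eh_pd {V : Type} [AddCommGroup V] [Module K V] [Module.Finite K V]
    {H : Type} [Group H] [Finite H] (ρ : Representation K H V) (p q : ℕ) (E : Subgroup H) (hE : EH ρ p q E) : PD (E ⊓ scal ρ) E := by
  obtain ⟨v, hv⟩ := hE.ne
  have := hE.nE
  refine ⟨?_, inf_le_left, fun a ha x _ => scal_central ρ hE.inj a ha.2 x, fun x hx y hy =>
    ⟨Subgroup.commutator_le_left E E (Subgroup.commutator_mem_commutator hx hy), hE.sc x hx y hy⟩,
    fun x hx h => ⟨hx, ?_⟩⟩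
  · choose c h0 hc using fun a : (E ⊓ scal ρ : Subgroup H) => (mem_scal ρ a).1 a.2.2
    obtain ⟨φ, hφ⟩ := xshsa_hom c h0 fun a b => smul_left_injective K hv (by
      beta_reduce
      rw [← hc, Subgroup.coe_mul, rho_mul, hc b, map_smul, hc a, smul_smul, mul_comm])
    refine isCyclic_of_injective φ ((injective_iff_map_eq_one φ).2 fun a ha => ?_)
    refine Subtype.ext (hE.inj (LinearMap.ext fun w => ?_))
    rw [hc, ← hφ, ha, Subgroup.coe_one, map_one, Units.val_one, one_smul]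
    rfl
  · refine hE.mx (E ⊓ Subgroup.centralizer (E : Set H)) inferInstance inf_le_left
      (fun a ha b hb => hb.2 a ha.1) ⟨hx, fun y hy => (h y hy).symm⟩

theorem eh_rel {V : Type} [AddCommGroup V] [Module K V] [Module.Finite K V]
    {H : Type} [Group H] [Finite H] (ρ : Representation K H V) (p q : ℕ) (ν : K) (hpq : PQ p q ν) (E : Subgroup H) (hE : EH ρ p q E) (f g : H) (hf : f ∈ E) (hg : g ∈ E) :
    ∃ k : ℕ, k < p ∧ ∀ v, ρ f (ρ g v) = ν ^ k • ρ g (ρ f v) := by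
  obtain ⟨v, hv⟩ := hE.ne
  obtain ⟨c, -, hc⟩ := xshsa_rel ρ f g (hE.sc f hf g hg)
  have h1 : ∀ k : ℕ, ρ (f ^ k) (ρ g v) = c ^ k • ρ g (ρ (f ^ k) v) := by
    intro k
    induction k with
    | zero => simp
    | succ k ih => rw [pow_succ', rho_mul, ih, map_smul, hc, rho_mul, smul_smul, pow_succ]
  obtain ⟨d, hd, h2⟩ := hE.pp f hf
  have h3 : c ^ p = 1 := by
    have := h1 p
    rw [h2, h2, map_smul, smul_comm] at this
    have h4 := smul_right_injective V hd this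
    exact smul_left_injective K (xshsa_ne ρ g v hv) (h4.symm.trans (one_smul K _).symm)
  suffices h : ∃ k : ℕ, k < p ∧ c = ν ^ k by
    obtain ⟨k, hk, rfl⟩ := h
    exact ⟨k, hk, hc⟩
  clear hc h1
  rcases hpq with ⟨rfl, -, rfl⟩ | ⟨rfl, -, rfl⟩ <;> revert c <;> decide

theorem hs_char {V : Type} [AddCommGroup V] [Module K V] [Module.Finite K V]
    {H : Type} [Group H] [Finite H] (ρ : Representation K H V) (p q : ℕ) (ν : K) (hpq : PQ p q ν) (E : Subgroup H) (hE : EH ρ p q E) (L : Subgroup H) (hle : L ≤ E)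
    (hd : ∀ l ∈ L, l ∈ scal ρ → l = 1) (χ : H → K) (hχ : ∀ l ∈ L, χ l ^ p = 1)
    (hm : ∀ l ∈ L, ∀ l' ∈ L, χ (l * l') = χ l * χ l')
    (hc : ∀ l ∈ L, ∀ l' ∈ L, l * l' = l' * l) :
    ∃ f ∈ E, ∀ l ∈ L, ∀ v, ρ l (ρ f v) = χ l • ρ f (ρ l v) := by
  obtain ⟨v, hv⟩ := hE.ne
  let iL : CommGroup L :=
    { (inferInstance : Group L) with mul_comm := fun a b => Subtype.ext (hc a a.2 b b.2) }
  let M : Subgroup (L →* Kˣ) :=
    { carrier := {φ | ∃ f ∈ E, ∀ (l : L) v, ρ l (ρ f v) = (φ l : K) • ρ f (ρ l v)}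
      one_mem' := ⟨1, E.one_mem, fun l v => by simp⟩
      mul_mem' := by
        rintro φ ψ ⟨f, hf, h1⟩ ⟨g, hg, h2⟩
        refine ⟨f * g, E.mul_mem hf hg, fun l v => ?_⟩
        rw [rho_mul, h1, h2, map_smul, smul_smul, rho_mul]
        rfl
      inv_mem' := by
        rintro φ ⟨f, hf, h1⟩
        refine ⟨f⁻¹, E.inv_mem hf, fun l v => ?_⟩
        have h2 := congrArg (ρ f⁻¹) (h1 l (ρ f⁻¹ v))
        rw [rho_inv', map_smul, rho_inv] at h2
        rw [h2, smul_smul, MonoidHom.inv_apply, Units.inv_mul, one_smul] }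
  have hM : M = ⊤ := xshsa_top M fun l hl => by
    refine Subtype.ext (hd l l.2 ((eh_pd ρ p q E hE).nd l (hle l.2) fun f hf => ?_).2)
    choose c h0 h1 using fun l : L => xshsa_rel ρ l f (hE.sc l (hle l.2) f hf)
    obtain ⟨φ, hφ⟩ := xshsa_hom c h0 fun a b =>
      smul_left_injective K (xshsa_ne ρ f _ (xshsa_ne ρ (a * b : L) v hv)) (by
        beta_reduce
        rw [← h1, Subgroup.coe_mul, rho_mul, h1 b, map_smul, h1 a, smul_smul, mul_comm, rho_mul])
    have h2 := hl φ ⟨f, hf, fun l w => by rw [hφ, h1]⟩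
    refine hE.inj (LinearMap.ext fun w => ?_)
    rw [rho_mul, rho_mul, h1, ← hφ, h2, Units.val_one, one_smul]
  have hp : p ≠ 0 := by rcases hpq with ⟨rfl, -⟩ | ⟨rfl, -⟩ <;> decide
  obtain ⟨φ, hφ⟩ := xshsa_hom (fun l : L => χ l)
    (fun l e => by simpa [e, hp] using hχ l l.2) fun a b => hm a a.2 b b.2
  obtain ⟨f, hf, h1⟩ : φ ∈ M := hM ▸ Subgroup.mem_top φ
  exact ⟨f, hf, fun l hl w => by rw [h1 ⟨l, hl⟩, hφ]⟩

end Pool.Agent.N9181
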