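import Pool.Agent.MP_9181f8_al.S.HSa

namespace Pool.Agent.N9181

open scoped commutatorElement

theorem xshsc_ext {E : Type} [Group E] (L : Subgroup E) (y : E)
    (hy : ∀ l ∈ L, l * y = y * l) :
    ∃ L' : Subgroup E, ∀ g, g ∈ L' ↔ ∃ l ∈ L, ∃ k : ℤ, g = l * y ^ k := by
  have hc : ∀ l ∈ L, ∀ k : ℤ, y ^ k * l = l * y ^ k := fun l hl k =>
    (Commute.zpow_right (hy l hl) k).eq.symm
  refine ⟨{ carrier := {g | ∃ l ∈ L, ∃ k : ℤ, g = l * y ^ k}
            one_mem' := ⟨1, L.one_mem, 0, by simp⟩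
            mul_mem' := ?_
            inv_mem' := ?_ }, fun g => Iff.rfl⟩
  · rintro _ _ ⟨l, hl, k, rfl⟩ ⟨l', hl', k', rfl⟩
    refine ⟨l * l', L.mul_mem hl hl', k + k', ?_⟩
    rw [mul_assoc, ← mul_assoc (y ^ k), hc l' hl', zpow_add, mul_assoc, mul_assoc]
  · rintro _ ⟨l, hl, k, rfl⟩
    exact ⟨l⁻¹, L.inv_mem hl, -k, by rw [mul_inv_rev, ← zpow_neg, hc _ (L.inv_mem hl)]⟩

theorem xshsc_step {E U : Type} [Group E] [CommGroup U] (π : E →* U) (p : ℕ) (hp : p.Prime)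
    (L : Subgroup E)
    (hL : Maximal (fun L : Subgroup E => (∀ l ∈ L, ∀ l' ∈ L, l * l' = l' * l) ∧
      (∀ l ∈ L, π l = 1 → l = 1) ∧ ∃ w, (∀ l ∈ L, l * w = w * l) ∧ ∀ l ∈ L, π w ≠ π l) L)
    (y w : E) (hyp : y ^ p = 1) (hy : ∀ l ∈ L, l * y = y * l) (hw : ∀ l ∈ L, l * w = w * l)
    (hyw : y * w = w * y) (hyS : ∀ l ∈ L, π y ≠ π l)
    (hwS : ∀ l ∈ L, ∀ k : ℤ, π w ≠ π l * π y ^ k) : False := by
  obtain ⟨L', hL'⟩ := xshsc_ext L y hy
  have hle : L ≤ L' := fun l hl => (hL' l).2 ⟨l, hl, 0, by simp⟩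
  refine hyS y (hL.2 ⟨?_, ?_, w, ?_, ?_⟩ hle ((hL' y).2 ⟨1, L.one_mem, 1, by simp⟩)) rfl
  · intro g hg g' hg'
    obtain ⟨l, hl, k, rfl⟩ := (hL' g).1 hg
    obtain ⟨l', hl', k', rfl⟩ := (hL' g').1 hg'
    have c1 : Commute l l' := hL.1.1 l hl l' hl'
    have c2 : Commute l y := hy l hl
    have c3 : Commute l' y := hy l' hl'
    exact ((c1.mul_right (c2.zpow_right k')).mul_left
      ((c3.symm.zpow_left k).mul_right ((Commute.refl y).zpow_zpow k k'))).eq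
  · intro g hg h1
    obtain ⟨l, hl, k, rfl⟩ := (hL' g).1 hg
    by_cases hk : (p : ℤ) ∣ k
    · obtain ⟨m, rfl⟩ := hk
      rw [zpow_mul, zpow_natCast, hyp, one_zpow, mul_one] at h1 ⊢
      exact hL.1.2.1 l hl h1
    · obtain ⟨a, b, hab⟩ :=
        (Nat.prime_iff_prime_int.1 hp).irreducible.coprime_iff_not_dvd.2 hk
      refine (hyS (l⁻¹ ^ b) (L.zpow_mem (L.inv_mem hl) b) ?_).elim
      rw [map_mul, map_zpow] at h1
      have h2 : π y ^ (p : ℤ) = 1 := by rw [zpow_natCast, ← map_pow, hyp, map_one]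
      have h3 : π y ^ (a * p + b * k) = π y ^ (k * b) := by
        rw [zpow_add, mul_comm a, zpow_mul, h2, one_zpow, one_mul, mul_comm]
      rw [map_zpow, map_inv, inv_eq_of_mul_eq_one_right h1, ← zpow_mul, ← h3, hab, zpow_one]
  · intro g hg
    obtain ⟨l, hl, k, rfl⟩ := (hL' g).1 hg
    exact (Commute.mul_left (hw l hl) (Commute.zpow_left hyw k)).eq
  · intro g hg
    obtain ⟨l, hl, k, rfl⟩ := (hL' g).1 hg
    rw [map_mul, map_zpow]
    exact hwS l hl k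

theorem xshsc_abs {E U C : Type} [Group E] [Finite E] [CommGroup U] [Finite U] [CommGroup C]
    [Finite C] [IsCyclic C] (π : E →* U) (hπ : Function.Surjective π) (B : U →* U →* C)
    (hB : Symp B) (p : ℕ) (hp : p.Prime) (hc : ∀ x y, B (π x) (π y) = 1 ↔ x * y = y * x)
    (hU : ∀ u : U, u ^ p = 1)
    (h3 : ∀ x y : E, x * y = y * x → x ^ p = 1 ∨ y ^ p = 1 ∨ (x * y) ^ p = 1)
    (hne : Nat.card U ≠ 1) :
    ∃ L : Subgroup E, (∀ l ∈ L, ∀ l' ∈ L, l * l' = l' * l) ∧ (∀ l ∈ L, π l = 1 → l = 1) ∧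
      (∃ X Z, (∀ l ∈ L, l * X = X * l) ∧ (∀ l ∈ L, l * Z = Z * l) ∧ Z * X ≠ X * Z) ∧
      ∀ X Z, (∀ l ∈ L, l * X = X * l) → (∀ l ∈ L, l * Z = Z * l) → Z * X ≠ X * Z →
        (∀ f g, ∃ k < p, B (π f) (π g) = B (π Z) (π X) ^ k) →
        (∀ f, (∀ l ∈ L, l * f = f * l) → ∃ l ∈ L, ∃ a < p, ∃ b < p,
          π f = π (l * X ^ a * Z ^ b)) ∧ Nat.card U = p ^ 2 * Nat.card L ^ 2 := by
  have h0 : (∀ l ∈ (⊥ : Subgroup E), ∀ l' ∈ (⊥ : Subgroup E), l * l' = l' * l) ∧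
      (∀ l ∈ (⊥ : Subgroup E), π l = 1 → l = 1) ∧
      ∃ w, (∀ l ∈ (⊥ : Subgroup E), l * w = w * l) ∧ ∀ l ∈ (⊥ : Subgroup E), π w ≠ π l := by
    have : Nontrivial U := Finite.one_lt_card_iff_nontrivial.1
      (lt_of_le_of_ne Nat.card_pos hne.symm)
    obtain ⟨u, hu⟩ := exists_ne (1 : U)
    obtain ⟨w, rfl⟩ := hπ u
    simp only [Subgroup.mem_bot, forall_eq, mul_one, one_mul, implies_true, map_one, true_and]
    exact ⟨w, hu⟩
  obtain ⟨L, -, hL⟩ := Finite.exists_le_maximal (p := fun L : Subgroup E =>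
    (∀ l ∈ L, ∀ l' ∈ L, l * l' = l' * l) ∧ (∀ l ∈ L, π l = 1 → l = 1) ∧
      ∃ w, (∀ l ∈ L, l * w = w * l) ∧ ∀ l ∈ L, π w ≠ π l) h0
  have hT : ∀ f, π f ∈ perp B (L.map π) ↔ ∀ l ∈ L, l * f = f * l := fun f =>
    ⟨fun h l hl => (hc l f).1 (h _ ⟨l, hl, rfl⟩), by
      rintro h _ ⟨l, hl, rfl⟩
      exact (hc l f).2 (h l hl)⟩
  have c1 := card_perp B hB (L.map π)
  refine ⟨L, hL.1.1, hL.1.2.1, ?_, fun X Z hX hZ hZX hω => ?_⟩
  · obtain ⟨Z, hZ, hZ'⟩ := hL.1.2.2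
    by_contra hn
    push Not at hn
    have c2 := card_perp B hB (perp B (L.map π))
    have h1 : L.map π ≤ perp B (perp B (L.map π)) := fun s hs t ht => by
      rw [symp_skew B hB, ht s hs, inv_one]
    have h2 : L.map π = perp B (perp B (L.map π)) := by
      refine Subgroup.eq_of_le_of_card_ge h1 (le_of_eq ?_)
      rw [← c1, mul_comm] at c2
      exact Nat.eq_of_mul_eq_mul_right Nat.card_pos c2
    have h4 : π Z ∈ L.map π := by
      rw [h2]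
      intro t ht
      obtain ⟨X, rfl⟩ := hπ t
      exact (hc X Z).2 (hn X Z ((hT X).1 ht) hZ).symm
    obtain ⟨l, hl, h5⟩ := h4
    exact hZ' l hl h5.symm
  have w1 : B (π Z) (π X) ≠ 1 := fun h => hZX ((hc Z X).1 h)
  have : Fact p.Prime := ⟨hp⟩
  have w2 : orderOf (B (π Z) (π X)) = p :=
    orderOf_eq_prime (by rw [← map_pow, hU, map_one]) w1
  have bX : ∀ l ∈ L, B (π l) (π X) = 1 := fun l hl => (hc l X).2 (hX l hl)
  have bZ : ∀ l ∈ L, B (π Z) (π l) = 1 := fun l hl => (hc Z l).2 (hZ l hl).symm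
  have eX : ∀ l ∈ L, ∀ a b : ℕ, B (π (l * X ^ a * Z ^ b)) (π X) = B (π Z) (π X) ^ b :=
    fun l hl a b => by
      simp only [map_mul, map_pow, MonoidHom.mul_apply, MonoidHom.pow_apply, bX l hl, hB.1,
        one_pow, one_mul]
  have eZ : ∀ l ∈ L, ∀ a b : ℕ, B (π Z) (π (l * X ^ a * Z ^ b)) = B (π Z) (π X) ^ a :=
    fun l hl a b => by
      simp only [map_mul, map_pow, bZ l hl, hB.1, one_pow, one_mul, mul_one]
  have cg : ∀ l ∈ L, ∀ a b : ℕ, ∀ l' ∈ L, Commute l' (l * X ^ a * Z ^ b) := fun l hl a b l' hl' =>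
    (Commute.mul_right (hL.1.1 l' hl' l hl) (Commute.pow_right (hX l' hl') a)).mul_right
      (Commute.pow_right (hZ l' hl') b)
  have main : ∀ f, (∀ l ∈ L, l * f = f * l) → ∃ l ∈ L, ∃ a < p, ∃ b < p,
      π f = π (l * X ^ a * Z ^ b) := by
    intro f hf
    obtain ⟨a, ha, ha'⟩ := hω Z f
    obtain ⟨b, hb, hb'⟩ := hω f X
    obtain ⟨F, hF⟩ : ∃ F, F = f * (1 * X ^ a * Z ^ b)⁻¹ := ⟨_, rfl⟩
    have f1 : ∀ l ∈ L, l * F = F * l := fun l hl =>
      hF ▸ (Commute.mul_right (hf l hl) (cg 1 L.one_mem a b l hl).inv_right).eq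
    have f2 : B (π Z) (π F) = 1 := by
      rw [hF, map_mul, map_inv, map_mul, map_inv, eZ 1 L.one_mem, ha', mul_inv_cancel]
    have f3 : B (π F) (π X) = 1 := by
      rw [hF, map_mul, map_inv, map_mul, map_inv, MonoidHom.mul_apply, MonoidHom.inv_apply,
        eX 1 L.one_mem, hb', mul_inv_cancel]
    have f4 : Z * F = F * Z := (hc Z F).1 f2
    by_cases hS : ∃ l ∈ L, π F = π l
    · obtain ⟨l, hl, h1⟩ := hS
      refine ⟨l, hl, a, ha, b, hb, ?_⟩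
      rw [hF, map_mul, map_inv, mul_inv_eq_iff_eq_mul, one_mul, ← map_mul, ← mul_assoc] at h1
      exact h1
    push Not at hS
    have aux : ∀ y, y ^ p = 1 → (∀ l ∈ L, l * y = y * l) → y * F = F * y →
        B (π y) (π X) = B (π Z) (π X) → False := fun y y1 y2 y3 y4 => by
      refine xshsc_step π p hp L hL y F y1 y2 f1 y3 (fun l hl h => w1 ?_) fun l hl k h => ?_
      · rw [← y4, h, bX l hl]
      · have h1 : B (π Z) (π X) ^ k = 1 := by
          rw [← f3, h, map_mul, map_zpow, MonoidHom.mul_apply, MonoidHom.zpow_apply, bX l hl,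
            one_mul, y4]
        rw [← orderOf_dvd_iff_zpow_eq_one, w2] at h1
        obtain ⟨m, rfl⟩ := h1
        rw [zpow_mul, zpow_natCast, hU, one_zpow, mul_one] at h
        exact hS l hl h
    rcases h3 F Z f4.symm with h | h | h
    · refine (xshsc_step π p hp L hL F Z h f1 hZ f4.symm hS fun l hl k h' => w1 ?_).elim
      rw [h', map_mul, map_zpow, MonoidHom.mul_apply, MonoidHom.zpow_apply, bX l hl, f3,
        one_zpow, one_mul]
    · exact (aux Z h hZ f4 rfl).elim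
    · refine (aux (F * Z) h (fun l hl => (Commute.mul_right (f1 l hl) (hZ l hl)).eq)
        (by rw [mul_assoc, f4]) ?_).elim
      rw [map_mul, map_mul, MonoidHom.mul_apply, f3, one_mul]
  refine ⟨main, ?_⟩
  have inj : ∀ l ∈ L, ∀ l' ∈ L, π l = π l' → l = l' := fun l hl l' hl' h =>
    mul_inv_eq_one.1 (hL.1.2.1 _ (L.mul_mem hl (L.inv_mem hl'))
      (by rw [map_mul, map_inv, h, mul_inv_cancel]))
  have c3 : Nat.card L = Nat.card (L.map π) := by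
    refine Nat.card_eq_of_bijective (fun l : L => (⟨π l, l, l.2, rfl⟩ : L.map π)) ⟨?_, ?_⟩
    · intro l l' h
      exact Subtype.ext (inj l l.2 l' l'.2 (congrArg Subtype.val h))
    · rintro ⟨_, l, hl, rfl⟩
      exact ⟨⟨l, hl⟩, rfl⟩
  have c4 : Nat.card (L × Fin p × Fin p) = Nat.card (perp B (L.map π)) := by
    refine Nat.card_eq_of_bijective (fun t : L × Fin p × Fin p =>
      (⟨π (t.1 * X ^ (t.2.1 : ℕ) * Z ^ (t.2.2 : ℕ)),
        (hT _).2 fun l hl => (cg _ t.1.2 _ _ l hl).eq⟩ : perp B (L.map π))) ⟨?_, ?_⟩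
    · rintro ⟨l, a, b⟩ ⟨l', a', b'⟩ h
      have h1 : π (l * X ^ (a : ℕ) * Z ^ (b : ℕ)) = π (l' * X ^ (a' : ℕ) * Z ^ (b' : ℕ)) :=
        congrArg Subtype.val h
      have h2 : a = a' := Fin.ext (pow_injOn_Iio_orderOf (x := B (π Z) (π X))
        (by rw [w2]; exact a.2) (by rw [w2]; exact a'.2)
        (by simp only; rw [← eZ l l.2 a b, h1, eZ l' l'.2]))
      have h4 : b = b' := Fin.ext (pow_injOn_Iio_orderOf (x := B (π Z) (π X))
        (by rw [w2]; exact b.2) (by rw [w2]; exact b'.2)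
        (by simp only; rw [← eX l l.2 a b, h1, eX l' l'.2]))
      subst h2 h4
      simp only [map_mul, mul_left_inj] at h1
      rw [Subtype.ext (inj l l.2 l' l'.2 h1)]
    · rintro ⟨t, ht⟩
      obtain ⟨f, rfl⟩ := hπ t
      obtain ⟨l, hl, a, ha, b, hb, h⟩ := main f ((hT f).1 ht)
      exact ⟨⟨⟨l, hl⟩, ⟨a, ha⟩, ⟨b, hb⟩⟩, Subtype.ext h.symm⟩
  rw [← c1, ← c3, ← c4, Nat.card_prod, Nat.card_prod, Nat.card_fin]
  ring

theorem xshsc_comm {V : Type} [AddCommGroup V] [Module K V] {H : Type} [Group H]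
    (ρ : Representation K H V) (f g : H) (c : K) (h : ∀ v, ρ f (ρ g v) = c • ρ g (ρ f v))
    (v : V) : ρ ⁅f, g⁆ v = c • v := by
  rw [commutatorElement_def, rho_mul, rho_mul, rho_mul, h, rho_inv', rho_inv']

theorem xshsc_sq {V : Type} [AddCommGroup V] [Module K V] {H : Type} [Group H]
    (ρ : Representation K H V) (E : Subgroup H) (hE : EH ρ 2 4 E) (f : H) (hf : f ∈ E)
    (h : f ^ 2 ≠ 1) (v : V) : ρ (f ^ 2) v = -v := by
  obtain ⟨c, -, hc⟩ := hE.pp f hf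
  obtain ⟨w, hw⟩ := hE.ne
  have h1 : (c * c - 1) • w = 0 := by
    have h2 : ρ (f ^ 2 * f ^ 2) w = w := by
      rw [← pow_add, hE.pw f hf, map_one]
      rfl
    rw [rho_mul, hc, hc, smul_smul] at h2
    rw [sub_smul, h2, one_smul, sub_self]
  rcases mul_self_eq_one_iff.1 (sub_eq_zero.1 ((smul_eq_zero.1 h1).resolve_right hw)) with h2 | h2
  · refine (h (hE.inj ?_)).elim
    ext u
    rw [hc, h2, one_smul, map_one]
    rfl
  · rw [hc, h2, neg_smul, one_smul]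

theorem hs_grp {V : Type} [AddCommGroup V] [Module K V] [Module.Finite K V]
    {H : Type} [Group H] [Finite H] (ρ : Representation K H V) (p q : ℕ) (ν : K) (hpq : PQ p q ν) (E : Subgroup H) (hE : EH ρ p q E) (hne : (scal ρ).relIndex E ≠ 1) :
    ∃ (L : Subgroup H) (X Z : H), L ≤ E ∧ X ∈ E ∧ Z ∈ E ∧
      (∀ l ∈ L, ∀ l' ∈ L, l * l' = l' * l) ∧ (∀ l ∈ L, l * X = X * l) ∧
      (∀ l ∈ L, l * Z = Z * l) ∧ (∀ l ∈ L, l ∈ scal ρ → l = 1) ∧
      (∀ v, ρ Z (ρ X v) = ν • ρ X (ρ Z v)) ∧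
      (∀ f ∈ E, (∀ l ∈ L, f * l = l * f) → ∃ (c : K) (l : H) (a b : ℕ),
        l ∈ L ∧ a < p ∧ b < p ∧ ∀ v, ρ f v = c • ρ (l * X ^ a * Z ^ b) v) ∧
      (scal ρ).relIndex E = p ^ 2 * Nat.card L ^ 2 := by
  obtain ⟨U, C, _, _, _, _, _, π, ζ, B, h1, h2, h3, -, h5, h6, h7, -⟩ :=
    pd_pair _ E (eh_pd ρ p q E hE)
  rw [Subgroup.inf_relIndex_left] at h7
  have hk : ∀ x : E, π x = 1 ↔ (x : H) ∈ scal ρ := fun x =>
    (h2 x).trans ⟨fun h => h.2, fun h => ⟨x.2, h⟩⟩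
  have hp : p.Prime := by
    rcases hpq with ⟨rfl, -⟩ | ⟨rfl, -⟩ <;> norm_num
  have hc : ∀ x y : E, B (π x) (π y) = 1 ↔ x * y = y * x := fun x y => by
    rw [← h3.eq_iff, h6, map_one, commutatorElement_eq_one_iff_mul_comm, Subtype.ext_iff]
    rfl
  obtain ⟨L, l1, l2, ⟨X₀, Z, l3, l4, l5⟩, l6⟩ := xshsc_abs π h1 B h5 p hp hc
    (fun u => by
      obtain ⟨x, rfl⟩ := h1 u
      rw [← map_pow, hk]
      exact hE.pp x x.2)
    (fun x y hxy => by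
      rcases hpq with ⟨rfl, rfl, -⟩ | ⟨rfl, rfl, -⟩
      · by_cases hx : x ^ 2 = 1
        · exact Or.inl hx
        by_cases hy : y ^ 2 = 1
        · exact Or.inr (Or.inl hy)
        refine Or.inr (Or.inr (Subtype.ext (hE.inj ?_)))
        ext v
        rw [Commute.mul_pow hxy, Subgroup.coe_mul, rho_mul, Subgroup.coe_pow, Subgroup.coe_pow,
          xshsc_sq ρ E hE x x.2 fun h => hx (Subtype.ext h),
          xshsc_sq ρ E hE y y.2 fun h => hy (Subtype.ext h), neg_neg, Subgroup.coe_one, map_one]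
        rfl
      · exact Or.inl (Subtype.ext (hE.pw x x.2)))
    (h7 ▸ hne)
  have hν : ν ≠ 1 := by
    rcases hpq with ⟨-, -, rfl⟩ | ⟨-, -, rfl⟩ <;> decide
  obtain ⟨X, x1, x2⟩ : ∃ X : E, (∀ l ∈ L, l * X = X * l) ∧
      ∀ v, ρ Z (ρ X v) = ν • ρ X (ρ Z v) := by
    obtain ⟨k, hk1, hk2⟩ := eh_rel ρ p q ν hpq E hE Z X₀ Z.2 X₀.2
    have hk0 : k ≠ 0 := by
      rintro rfl
      refine l5 (Subtype.ext (hE.inj ?_))
      ext v
      rw [Subgroup.coe_mul, Subgroup.coe_mul, rho_mul, rho_mul, hk2, pow_zero, one_smul]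
    by_cases hk3 : k = 1
    · subst hk3
      exact ⟨X₀, l3, fun v => by rw [hk2, pow_one]⟩
    rcases hpq with ⟨rfl, -⟩ | ⟨rfl, -, rfl⟩
    · omega
    obtain rfl : k = 2 := by omega
    refine ⟨X₀ * X₀, fun l hl => (Commute.mul_right (l3 l hl) (l3 l hl)).eq, fun v => ?_⟩
    rw [Subgroup.coe_mul, rho_mul, rho_mul, hk2, hk2, map_smul, smul_smul,
      show (3 : K) ^ 2 * 3 ^ 2 = 3 by decide]
  have x3 := xshsc_comm ρ Z X ν x2
  obtain ⟨m1, m2⟩ := l6 X Z x1 l4 (fun h => by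
      obtain ⟨w, hw⟩ := hE.ne
      have h8 := x3 w
      rw [commutatorElement_eq_one_iff_mul_comm.2 (congrArg Subtype.val h), map_one] at h8
      have h9 : (ν - 1) • w = 0 := by
        rw [sub_smul, ← h8, one_smul]
        exact sub_self w
      exact hν (sub_eq_zero.1 ((smul_eq_zero.1 h9).resolve_right hw)))
    (fun f g => by
      obtain ⟨k, hk1, hk2⟩ := eh_rel ρ p q ν hpq E hE f g f.2 g.2
      refine ⟨k, hk1, h3 (hE.inj ?_)⟩
      ext v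
      rw [map_pow, h6, h6, xshsc_comm ρ f g _ hk2, rho_pow_eig ρ _ v ν (x3 v)])
  refine ⟨L.map E.subtype, X, Z, Subgroup.map_subtype_le L, X.2, Z.2, ?_, ?_, ?_, ?_, x2, ?_, ?_⟩
  · rintro _ ⟨l, hl, rfl⟩ _ ⟨l', hl', rfl⟩
    exact congrArg Subtype.val (l1 l hl l' hl')
  · rintro _ ⟨l, hl, rfl⟩
    exact congrArg Subtype.val (x1 l hl)
  · rintro _ ⟨l, hl, rfl⟩
    exact congrArg Subtype.val (l4 l hl)
  · rintro _ ⟨l, hl, rfl⟩ h
    exact congrArg Subtype.val (l2 l hl ((hk l).2 h))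
  · intro f hf h
    obtain ⟨l, hl, a, ha, b, hb, h8⟩ := m1 ⟨f, hf⟩ fun l hl =>
      Subtype.ext (h l ⟨l, hl, rfl⟩).symm
    rw [← mul_inv_eq_one, ← map_inv, ← map_mul, hk] at h8
    obtain ⟨c, -, hc'⟩ := h8
    refine ⟨c, l, a, b, ⟨l, hl, rfl⟩, ha, hb, fun v => ?_⟩
    rw [← hc', ← rho_mul]
    congr 2
    push_cast
    group
  · rw [← h7, m2, Subgroup.card_map_of_injective E.subtype_injective]

end Pool.Agent.N9181
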