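import Pool.Agent.MP_9181f8_al.S.HSa

namespace Pool.Agent.N9181

open scoped commutatorElement

section

variable {V : Type} [AddCommGroup V] [Module K V] {H : Type} [Group H]

theorem xshsu_ne (ρ : Representation K H V) (f : H) {w : V} (h0 : w ≠ 0) : ρ f w ≠ 0 := fun h =>
  h0 (by rw [← rho_inv ρ f w, h, map_zero])

theorem xshsu_inj (ρ : Representation K H V) (f : H) : Function.Injective (ρ f) :=
  Function.LeftInverse.injective (rho_inv ρ f)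

theorem xshsu_fix (ρ : Representation K H V) {L : Subgroup H} {f : H}
    (h : ∀ l ∈ L, l * f = f * l) {v : V} (hv : v ∈ fixS ρ L) : ρ f v ∈ fixS ρ L := fun l hl => by
  rw [← rho_mul, h l hl, rho_mul, hv l hl]

theorem xshsu_one {c : K} {w : V} (h0 : w ≠ 0) (h : w = c • w) : c = 1 :=
  smul_left_injective K h0 (h.symm.trans (one_smul K w).symm)

theorem xshsu_sq (ρ : Representation K H V) {f : H} (h : f ^ 2 ∈ scal ρ) :
    ∃ c : K, c ≠ 0 ∧ ∀ v, ρ f (ρ f v) = c • v :=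
  let ⟨c, hc, h⟩ := h
  ⟨c, hc, fun v => by rw [← rho_mul, ← pow_two, h]⟩

end

theorem hs_fix {V : Type} [AddCommGroup V] [Module K V] [Module.Finite K V]
    {H : Type} [Group H] [Finite H] (ρ : Representation K H V) (p q : ℕ) (ν : K) (hpq : PQ p q ν) (E : Subgroup H) (hE : EH ρ p q E)
    (ζ : K) (L : Subgroup H) (X Z : H) (hH : HS ρ p ν ζ E L X Z) (v : V) (hv : v ∈ fixS ρ L) :
    ρ X v ∈ fixS ρ L ∧ ρ Z v ∈ fixS ρ L := by
  exact ⟨xshsu_fix ρ hH.cX hv, xshsu_fix ρ hH.cZ hv⟩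

theorem hs_comm {V : Type} [AddCommGroup V] [Module K V] [Module.Finite K V]
    {H : Type} [Group H] [Finite H] (ρ : Representation K H V) (p q : ℕ) (ν : K) (hpq : PQ p q ν) (E : Subgroup H) (hE : EH ρ p q E)
    (ζ : K) (L : Subgroup H) (X Z : H) (hH : HS ρ p ν ζ E L X Z) (f : H) (hf : f ∈ E) (w : V) (hw : w ∈ fixS ρ L) (h0 : w ≠ 0)
    (h : ρ f w ∈ fixS ρ L) : ∀ l ∈ L, f * l = l * f := by
  intro l hl
  obtain ⟨k, -, hk⟩ := eh_rel ρ p q ν hpq E hE l f (hH.le hl) hf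
  have h1 := hk w
  rw [h l hl, hw l hl] at h1
  have h2 := xshsu_one (xshsu_ne ρ f h0) h1
  refine hE.inj (LinearMap.ext fun v => ?_)
  rw [rho_mul, rho_mul, hk, h2, one_smul]

theorem hs_cen {V : Type} [AddCommGroup V] [Module K V] [Module.Finite K V]
    {H : Type} [Group H] [Finite H] (ρ : Representation K H V) (p q : ℕ) (ν : K) (hpq : PQ p q ν) (E : Subgroup H) (hE : EH ρ p q E)
    (ζ : K) (L : Subgroup H) (X Z : H) (hH : HS ρ p ν ζ E L X Z) (f : H) (hf : f ∈ E) (h : ∀ l ∈ L, f * l = l * f) :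
    ∃ (c : K) (a b : ℕ), c ≠ 0 ∧ a < p ∧ b < p ∧
      (∀ v ∈ fixS ρ L, ρ f v = c • (ρ X ^ a * ρ Z ^ b) v) ∧
      (a = 0 → b = 0 → ∃ l ∈ L, ∀ v, ρ f v = c • ρ l v) := by
  obtain ⟨c, l, a, b, hl, ha, hb, hc⟩ := hH.cen f hf h
  obtain ⟨v₀, hv₀⟩ := hE.ne
  refine ⟨c, a, b, fun h0 => xshsu_ne ρ f hv₀ (by rw [hc, h0, zero_smul]), ha, hb, fun v hv => ?_,
    fun ha0 hb0 => ⟨l, hl, fun v => by rw [hc, ha0, hb0, pow_zero, pow_zero, mul_one, mul_one]⟩⟩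
  have h1 : ρ (X ^ a * Z ^ b) v ∈ fixS ρ L := xshsu_fix ρ (fun l hl =>
    ((Commute.pow_right (hH.cX l hl) a).mul_right (Commute.pow_right (hH.cZ l hl) b)).eq) hv
  rw [hc, mul_assoc, rho_mul, h1 l hl, map_mul, map_pow, map_pow]

theorem hs_norm {V : Type} [AddCommGroup V] [Module K V] [Module.Finite K V]
    {H : Type} [Group H] [Finite H] (ρ : Representation K H V) (p q : ℕ) (ν : K) (hpq : PQ p q ν) (E : Subgroup H) (hE : EH ρ p q E)
    (ζ : K) (L : Subgroup H) (X Z : H) (hH : HS ρ p ν ζ E L X Z) (w : V) (hw : w ∈ fixS ρ L) (h0 : w ≠ 0) (hs : SL ρ E L w)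
    (h : H) (c : K) (hh : ρ h w = c • w) : h ∈ Subgroup.normalizer (L : Set H) := by
  have hc : c ≠ 0 := fun e => xshsu_ne ρ h h0 (by rw [hh, e, zero_smul])
  refine Subgroup.mem_normalizer_fintype fun l hl => ?_
  have h1 : ρ h⁻¹ w = c⁻¹ • w := by
    rw [eq_inv_smul_iff₀ hc, ← map_smul, ← hh, rho_inv]
  have h2 : ρ (h * l * h⁻¹) w = (1 : K) • w := by
    rw [rho_mul, rho_mul, h1, (fixS ρ L).smul_mem _ hw l hl, ← h1, rho_inv', one_smul]
  obtain ⟨l', hl', c', h3⟩ := hs _ (hE.nE.conj_mem l (hH.le hl) h) 1 h2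
  have h4 := h3 w
  rw [h2, one_smul, hw l' hl'] at h4
  have h5 : h * l * h⁻¹ = l' :=
    hE.inj (LinearMap.ext fun v => by rw [h3, xshsu_one h0 h4, one_smul])
  rw [h5]
  exact hl'

theorem hs_nc {V : Type} [AddCommGroup V] [Module K V] [Module.Finite K V]
    {H : Type} [Group H] [Finite H] (ρ : Representation K H V) (p q : ℕ) (ν : K) (hpq : PQ p q ν) (E : Subgroup H) (hE : EH ρ p q E)
    (ζ : K) (L : Subgroup H) (X Z : H) (hH : HS ρ p ν ζ E L X Z) (w : V) (hw : w ∈ fixS ρ L) (h0 : w ≠ 0) (hs : SL ρ E L w)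
    (m : V) (hm : m ∈ fixS ρ L) (c' : K) (hZ : ρ Z m = c' • m) (k : H) (c : K) :
    ρ k w ≠ c • m := by
  intro hk
  let Ev : V → Set H := fun v => {f | f ∈ E ∧ ∃ d : K, ρ f v = d • v}
  have h1 : Ev w ⊆ Ev m := by
    rintro f ⟨hf, d, hd⟩
    obtain ⟨l, hl, d', h⟩ := hs f hf d hd
    exact ⟨hf, d', by rw [h, hm l hl]⟩
  have h2 : (Ev m).ncard ≤ (Ev w).ncard := by
    refine Set.ncard_le_ncard_of_injOn (fun f => k⁻¹ * f * k) ?_ fun f _ g _ e => ?_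
    · rintro f ⟨hf, d, hd⟩
      refine ⟨hE.nE.conj_mem' f hf k, d, ?_⟩
      rw [rho_mul, rho_mul, hk, map_smul, hd, smul_comm, ← hk, map_smul, rho_inv]
    · exact mul_left_cancel (mul_right_cancel e)
  have h3 : Z ∈ Ev w := by
    rw [Set.eq_of_subset_of_ncard_le h1 h2]
    exact ⟨hH.mZ, c', hZ⟩
  obtain ⟨-, d, hd⟩ := h3
  obtain ⟨l, hl, d', h⟩ := hs Z hH.mZ d hd
  have h4 : ρ X (ρ Z w) = ν • ρ X (ρ Z w) := by
    rw [← hH.zx, h, h, ← rho_mul, hH.cX l hl, rho_mul, map_smul]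
  have h5 := xshsu_one (xshsu_ne ρ X (xshsu_ne ρ Z h0)) h4
  rcases hpq with ⟨-, -, rfl⟩ | ⟨-, -, rfl⟩ <;> exact absurd h5 (by decide)

theorem hs_conj {V : Type} [AddCommGroup V] [Module K V] [Module.Finite K V]
    {H : Type} [Group H] [Finite H] (ρ : Representation K H V) (p q : ℕ) (ν : K) (hpq : PQ p q ν) (E : Subgroup H) (hE : EH ρ p q E)
    (ζ : K) (L : Subgroup H) (X Z : H) (hH : HS ρ p ν ζ E L X Z) (h : H) (hh : h ∈ Subgroup.normalizer (L : Set H)) :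
    PN p (fixS ρ L) (ρ X) (ρ Z) (ρ h) := by
  have key : ∀ Y ∈ E, (∀ l ∈ L, l * Y = Y * l) → ∃ (c : K) (a b : ℕ), a < p ∧ b < p ∧
      ∀ v ∈ fixS ρ L, ρ h (ρ Y v) = c • (ρ X ^ a * ρ Z ^ b) (ρ h v) := by
    intro Y hY hc
    obtain ⟨c, a, b, -, ha, hb, h1, -⟩ := hs_cen ρ p q ν hpq E hE ζ L X Z hH (h * Y * h⁻¹)
      (hE.nE.conj_mem Y hY h) fun l hl => by
        have h2 := hc (h⁻¹ * l * h) ((Subgroup.mem_normalizer_iff''.1 hh l).1 hl)
        calc h * Y * h⁻¹ * l = h * (Y * (h⁻¹ * l * h)) * h⁻¹ := by group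
          _ = l * (h * Y * h⁻¹) := by rw [← h2]; group
    refine ⟨c, a, b, ha, hb, fun v hv => ?_⟩
    rw [← h1 _ (fix_norm ρ L h hh v hv), rho_mul, rho_mul, rho_inv]
  exact ⟨key X hH.mX hH.cX, key Z hH.mZ hH.cZ⟩

theorem pn_mono {V : Type} [AddCommGroup V] [Module K V] [Module.Finite K V] (p : ℕ) (T T' : Submodule K V) (hle : T' ≤ T) (X Z S : Module.End K V)
    (h : PN p T X Z S) : PN p T' X Z S := by
  obtain ⟨⟨c, a, b, ha, hb, h1⟩, c', a', b', ha', hb', h2⟩ := h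
  exact ⟨⟨c, a, b, ha, hb, fun v hv => h1 v (hle hv)⟩, c', a', b', ha', hb',
    fun v hv => h2 v (hle hv)⟩

theorem hs_p2 {V : Type} [AddCommGroup V] [Module K V] [Module.Finite K V]
    {H : Type} [Group H] [Finite H] (ρ : Representation K H V) (E : Subgroup H) (hE : EH ρ 2 4 E) (ζ : K) (L : Subgroup H) (X Z : H)
    (hH : HS ρ 2 (-1) ζ E L X Z) (m : V) (h0 : m ≠ 0) (hZ : ρ Z m = ζ • m) :
    P2 (ρ X) (ρ Z) ζ m := by
  refine ⟨h0, xshsu_one h0 ?_, ?_, hZ, ?_⟩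
  · rw [← rho_pow_eig ρ Z m ζ hZ, hE.pw Z hH.mZ, map_one, Module.End.one_apply]
  · obtain ⟨c, -, hc⟩ := xshsu_sq ρ (hE.pp X hH.mX)
    have h1 : ρ (X ^ 4) m = (c * c) • m := by
      rw [show X ^ 4 = X * X * (X * X) by rw [← pow_two X, ← pow_add], rho_mul, rho_mul, rho_mul, hc, hc, smul_smul]
    rw [hE.pw X hH.mX, map_one, Module.End.one_apply] at h1
    rcases mul_self_eq_one_iff.1 (xshsu_one h0 h1) with rfl | rfl
    · exact Or.inl (by rw [hc, one_smul])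
    · exact Or.inr (by rw [hc, neg_one_smul])
  · rw [hH.zx, hZ, map_smul, smul_smul, neg_one_mul]

theorem hs_p3 {V : Type} [AddCommGroup V] [Module K V] [Module.Finite K V]
    {H : Type} [Group H] [Finite H] (ρ : Representation K H V) (E : Subgroup H) (hE : EH ρ 3 3 E) (L : Subgroup H) (X Z : H)
    (hH : HS ρ 3 3 1 E L X Z) (m : V) (h0 : m ≠ 0) (hZ : ρ Z m = m) : P3 (ρ X) (ρ Z) m := by
  have h1 : ρ Z (ρ X m) = (3 : K) • ρ X m := by rw [hH.zx, hZ]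
  refine ⟨h0, ?_, hZ, h1, ?_⟩
  · rw [← rho_mul, ← rho_mul, ← pow_three', hE.pw X hH.mX, map_one, Module.End.one_apply]
  · rw [hH.zx, h1, map_smul, smul_smul]
    congr 1

theorem hs_dbl {V : Type} [AddCommGroup V] [Module K V] [Module.Finite K V]
    {H : Type} [Group H] [Finite H] (ρ : Representation K H V) (E : Subgroup H) (hE : EH ρ 2 4 E) (ζ : K) (L : Subgroup H) (X Z : H)
    (hH : HS ρ 2 (-1) ζ E L X Z) (U C : Submodule K V) (hX : ∀ v ∈ U, ρ X v ∈ U)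
    (hZ : ∀ v ∈ U, ρ Z v ∈ U) (hC : ∀ v, v ∈ C ↔ v ∈ U ∧ ρ Z v = ζ • v) :
    Disjoint C (C.map (ρ X)) ∧ C ⊔ C.map (ρ X) = U ∧
      Module.finrank K U = 2 * Module.finrank K C := by
  obtain ⟨ε, hε, hXX⟩ := xshsu_sq ρ (hE.pp X hH.mX)
  obtain ⟨d, -, hZZ⟩ := xshsu_sq ρ (hE.pp Z hH.mZ)
  obtain ⟨m, hm0, -, hm⟩ := hH.ex
  have hζ : ζ ≠ 0 := fun e => xshsu_ne ρ Z hm0 (by rw [hm, e, zero_smul])
  obtain rfl : ζ * ζ = d :=
    smul_left_injective K hm0 (by beta_reduce; rw [← hZZ, hm, map_smul, hm, smul_smul])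
  have hd : Disjoint C (C.map (ρ X)) := by
    rw [Submodule.disjoint_def]
    rintro _ hv ⟨u, hu, rfl⟩
    have h1 := ((hC _).1 hv).2
    rw [hH.zx, ((hC _).1 hu).2, map_smul, smul_comm] at h1
    by_contra h0
    exact absurd (xshsu_one h0 (smul_right_injective V hζ h1).symm) (by decide)
  have hs : C ⊔ C.map (ρ X) = U := by
    refine le_antisymm (sup_le (fun v hv => ((hC v).1 hv).1) ?_) fun v hv => ?_
    · rintro _ ⟨u, hu, rfl⟩
      exact hX u ((hC u).1 hu).1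
    · have h7 : (7 : K) + 7 = 1 := by decide
      have hi := inv_mul_cancel₀ hζ
      have h1 : ζ⁻¹ • ρ Z v ∈ U := U.smul_mem _ (hZ v hv)
      refine Submodule.mem_sup.2 ⟨(7 : K) • (v + ζ⁻¹ • ρ Z v), (hC _).2
        ⟨U.smul_mem _ (add_mem hv h1), ?_⟩, (7 : K) • (v - ζ⁻¹ • ρ Z v),
        ⟨ε⁻¹ • ρ X ((7 : K) • (v - ζ⁻¹ • ρ Z v)), (hC _).2
          ⟨U.smul_mem _ (hX _ (U.smul_mem _ (sub_mem hv h1))), ?_⟩, ?_⟩, ?_⟩
      · simp only [map_smul, map_add, hZZ]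
        linear_combination (norm := module) (7 * ζ * hi) • v - (7 * hi) • ρ Z v
      · simp only [map_smul, map_sub, hH.zx, hZZ]
        linear_combination (norm := module)
          (7 * ε⁻¹ * ζ * hi) • ρ X v + (7 * ε⁻¹ * hi) • ρ X (ρ Z v)
      · rw [map_smul, hXX, inv_smul_smul₀ hε]
      · linear_combination (norm := module) h7 • v
  refine ⟨hd, hs, ?_⟩
  have h1 := Submodule.finrank_sup_add_finrank_inf_eq C (C.map (ρ X))
  rw [hs, hd.eq_bot, finrank_bot,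
    ← (Submodule.equivMapOfInjective _ (xshsu_inj ρ X) C).finrank_eq] at h1
  omega

end Pool.Agent.N9181
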