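import Pool.Agent.MP_9181f8_al.S.Defs
import Pool.Agent.MP_9181f8_al.Q.HallA

namespace Pool.Agent.N9181

open scoped commutatorElement

theorem xshall3a_ab {G : Type} [Group G] [Finite G] (Z L H : Subgroup G) [hZ : Z.Normal]
    (hp : IsPGroup 3 Z) (hc : ∀ a ∈ Z, ∀ b ∈ Z, a * b = b * a) (hi : ∀ x ∈ L, x ∈ Z → x = 1)
    (hd : ∀ h ∈ H, ∃ z ∈ Z, z⁻¹ * h ∈ L) (hH : ¬ 3 ∣ Nat.card H) :
    ∃ x ∈ Z, ∀ h ∈ H, x * h * x⁻¹ ∈ L := by
  choose c c1 c2 using fun h : H => hd h h.2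
  have hu : ∀ (g : G), ∀ z ∈ Z, ∀ z' ∈ Z, z⁻¹ * g ∈ L → z'⁻¹ * g ∈ L → z = z' := by
    intro g z hz z' hz' h1 h2
    have h3 := L.mul_mem h1 (L.inv_mem h2)
    rw [mul_inv_rev, inv_inv, mul_assoc, mul_inv_cancel_left] at h3
    exact inv_mul_eq_one.1 (hi _ h3 (Z.mul_mem (Z.inv_mem hz) hz'))
  have : Fact (Nat.Prime 3) := ⟨Nat.prime_three⟩
  obtain ⟨k, hk⟩ := IsPGroup.iff_card.1 hp
  let _ : CommGroup Z := { (inferInstance : Group Z) with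
    mul_comm := fun a b => Subtype.ext (hc a a.2 b b.2) }
  obtain ⟨w, hw⟩ := xqhalla_coc (A := Z) (H := H)
    (fun h => (MulAut.conjNormal (h : G) : MulAut Z).toMonoidHom) (fun h => ⟨c h, c1 h⟩)
    (fun h h' => Subtype.ext (hu _ _ (c1 _) _ (Subtype.prop _) (c2 _) (by
      have h1 := L.mul_mem (c2 h) (c2 h')
      change ((h : G) * c h' * (h : G)⁻¹ * c h)⁻¹ * (h * h') ∈ L
      convert h1 using 1
      group)))
    (by rw [hk]; exact ((Nat.Prime.coprime_iff_not_dvd Nat.prime_three).2 hH).pow_left k)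
  refine ⟨w⁻¹, Z.inv_mem w.2, fun h hh => ?_⟩
  have h1 : h * w * h⁻¹ * c ⟨h, hh⟩ = w := congrArg Subtype.val (hw ⟨h, hh⟩)
  have h2 : (c ⟨h, hh⟩)⁻¹ * h ∈ L := c2 ⟨h, hh⟩
  rw [hc _ (hZ.conj_mem _ w.2 h) _ (c1 _)] at h1
  have h3 : c ⟨h, hh⟩ = w * (h * w * h⁻¹)⁻¹ := eq_mul_inv_of_mul_eq h1
  rw [h3, mul_inv_rev, inv_inv, hc _ (hZ.conj_mem _ w.2 h) _ (Z.inv_mem w.2)] at h2
  convert h2 using 1
  group

theorem xshall3a_ind (n : ℕ) : ∀ (G : Type) [Group G] [Finite G] (Q L H : Subgroup G),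
    Nat.card G = n → Q.Normal → IsPGroup 3 Q → (∀ x ∈ L, x ∈ Q → x = 1) →
    (∀ g : G, ∃ q ∈ Q, ∃ l ∈ L, g = q * l) → ¬ 3 ∣ Nat.card H →
    ∃ x ∈ Q, ∀ h ∈ H, x * h * x⁻¹ ∈ L := by
  induction n using Nat.strong_induction_on with
  | _ n ih =>
  intro G _ _ Q L H hn hQ hp hi hd hH
  rcases subsingleton_or_nontrivial Q with hs | hs
  · refine ⟨1, Q.one_mem, fun h _ => ?_⟩
    obtain ⟨q, hq, l, hl, e⟩ := hd h
    have h1 : q = 1 := congrArg Subtype.val (Subsingleton.elim (⟨q, hq⟩ : Q) 1)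
    rwa [e, h1, one_mul, one_mul, inv_one, mul_one]
  let Z : Subgroup G := (Subgroup.center Q).map Q.subtype
  have hZQ : Z ≤ Q := Subgroup.map_subtype_le _
  have hZ : 1 < Nat.card Z := by
    have : Fact (Nat.Prime 3) := ⟨Nat.prime_three⟩
    have := hp.center_nontrivial
    rw [Subgroup.card_map_of_injective Q.subtype_injective]
    exact Finite.one_lt_card
  let π := QuotientGroup.mk' Z
  have hπ : Function.Surjective π := QuotientGroup.mk'_surjective Z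
  obtain ⟨_, ⟨x, hx, rfl⟩, h1⟩ := ih (Nat.card (G ⧸ Z)) (by
      rw [← hn, Subgroup.card_eq_card_quotient_mul_card_subgroup Z]
      exact lt_mul_of_one_lt_right Nat.card_pos hZ) (G ⧸ Z) (Q.map π) (L.map π) (H.map π) rfl
    (hQ.map π hπ) (hp.map π) (by
      rintro _ ⟨l, hl, rfl⟩ ⟨q, hq, e⟩
      have h1 : q⁻¹ * l ∈ Z := QuotientGroup.eq.1 e
      have h2 := Q.mul_mem hq (hZQ h1)
      rw [mul_inv_cancel_left] at h2
      rw [hi l hl h2, map_one])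
    (fun g => by
      obtain ⟨g, rfl⟩ := hπ g
      obtain ⟨q, hq, l, hl, e⟩ := hd g
      exact ⟨π q, ⟨q, hq, rfl⟩, π l, ⟨l, hl, rfl⟩, by rw [e, map_mul]⟩)
    fun h => hH (h.trans (Subgroup.card_map_dvd H π))
  obtain ⟨y, hy, h2⟩ := xshall3a_ab Z L (H.map (MulAut.conj x).toMonoidHom) (hp.to_le hZQ)
    (by
      rintro _ ⟨a, ha, rfl⟩ _ ⟨b, -, rfl⟩
      exact congrArg Subtype.val (Subgroup.mem_center_iff.1 ha b).symm)
    (fun z hz hz' => hi z hz (hZQ hz'))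
    (by
      rintro _ ⟨h, hh, rfl⟩
      obtain ⟨l, hl, e⟩ := h1 (π h) ⟨h, hh, rfl⟩
      rw [← map_mul, ← map_inv, ← map_mul] at e
      refine ⟨x * h * x⁻¹ * l⁻¹, ?_, ?_⟩
      · rw [← QuotientGroup.eq_one_iff]
        change π _ = 1
        rw [map_mul, ← e, map_inv, mul_inv_cancel]
      · change (x * h * x⁻¹ * l⁻¹)⁻¹ * (x * h * x⁻¹) ∈ L
        rwa [mul_inv_rev, inv_inv, inv_mul_cancel_right])
    fun h => hH (h.trans (Subgroup.card_map_dvd H _))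
  refine ⟨y * x, Q.mul_mem (hZQ hy) hx, fun h hh => ?_⟩
  have h3 : y * (x * h * x⁻¹) * y⁻¹ ∈ L := h2 _ ⟨h, hh, rfl⟩
  convert h3 using 1
  group

theorem compl_conj3 {G : Type} [Group G] [Finite G] (Q L H : Subgroup G) (hQ : Q.Normal) (hp : IsPGroup 3 Q)
    (hi : ∀ x ∈ L, x ∈ Q → x = 1) (hd : ∀ g : G, ∃ q ∈ Q, ∃ l ∈ L, g = q * l)
    (hH : ¬ 3 ∣ Nat.card H) : ∃ x ∈ Q, ∀ h ∈ H, x * h * x⁻¹ ∈ L := by
  exact xshall3a_ind _ G Q L H rfl hQ hp hi hd hH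

end Pool.Agent.N9181
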