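import Pool.Agent.MP_9181f8_al.S.Hall3a
import Pool.Agent.MP_9181f8_al.N.Struct

namespace Pool.Agent.N9181

open scoped commutatorElement

theorem xshall3b_ind (n : ℕ) : ∀ (G : Type) [Group G] [Finite G] [Group.IsSolvable G],
    Nat.card G = n → ∃ J : Subgroup G, ¬ 3 ∣ Nat.card J ∧ (∃ a : ℕ, J.index = 3 ^ a) ∧
      ∀ H : Subgroup G, ¬ 3 ∣ Nat.card H → ∃ x : G, ∀ h ∈ H, x * h * x⁻¹ ∈ J := by
  induction n using Nat.strong_induction_on with
  | _ n ih =>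
  intro G _ _ _ hn
  by_cases h0 : (⊤ : Subgroup G) = ⊥
  · refine ⟨⊤, ?_, ⟨0, Subgroup.index_top⟩, fun _ _ => ⟨1, fun _ _ => trivial⟩⟩
    rw [h0, Subgroup.card_bot]
    norm_num
  obtain ⟨B, p, hB, -, hne, hp, -, hpw, -⟩ := exists_min (⊤ : Subgroup G) inferInstance h0
  have : Fact p.Prime := ⟨hp⟩
  let π := QuotientGroup.mk' B
  have hπ : Function.Surjective π := QuotientGroup.mk'_surjective B
  obtain ⟨J₀, j1, ⟨a, j2⟩, j3⟩ := ih (Nat.card (G ⧸ B)) (by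
      rw [← hn, Subgroup.card_eq_card_quotient_mul_card_subgroup B]
      exact lt_mul_of_one_lt_right Nat.card_pos (B.one_lt_card_iff_ne_bot.2 hne)) (G ⧸ B) rfl
  have i1 : (J₀.comap π).index = 3 ^ a := (J₀.index_comap_of_surjective hπ).trans j2
  have i2 : (B.subgroupOf (J₀.comap π)).index = Nat.card J₀ := by
    have h := Subgroup.relIndex_ker (J₀.comap π) π
    rwa [QuotientGroup.ker_mk', Subgroup.map_comap_eq_self_of_surjective hπ] at h
  have hP : IsPGroup p (B.subgroupOf (J₀.comap π)) := fun g =>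
    ⟨1, Subtype.ext (Subtype.ext (by rw [pow_one]; exact hpw _ g.2))⟩
  obtain ⟨k, hk⟩ := IsPGroup.iff_card.1 hP
  have i3 : ∀ H : Subgroup G, ¬ 3 ∣ Nat.card H → ∃ x : G, ∀ h ∈ H, x * h * x⁻¹ ∈ J₀.comap π := by
    intro H hH
    obtain ⟨y, hy⟩ := j3 (H.map π) fun h => hH (h.trans (Subgroup.card_map_dvd H π))
    obtain ⟨x, rfl⟩ := hπ y
    refine ⟨x, fun h hh => ?_⟩
    change π (x * h * x⁻¹) ∈ J₀
    rw [map_mul, map_mul, map_inv]
    exact hy _ ⟨h, hh, rfl⟩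
  by_cases h3 : p = 3
  swap
  · refine ⟨J₀.comap π, fun h => ?_, ⟨a, i1⟩, i3⟩
    rw [← (B.subgroupOf (J₀.comap π)).index_mul_card, i2, hk] at h
    rcases (Nat.Prime.dvd_mul Nat.prime_three).1 h with h | h
    · exact j1 h
    · exact h3 ((Nat.prime_dvd_prime_iff_eq Nat.prime_three hp).1
        (Nat.prime_three.dvd_of_dvd_pow h)).symm
  subst h3
  obtain ⟨L, hL⟩ := Subgroup.exists_right_complement'_of_coprime
    (N := B.subgroupOf (J₀.comap π)) (by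
      rw [hk, i2]
      exact Nat.Coprime.pow_left k ((Nat.Prime.coprime_iff_not_dvd hp).2 j1))
  refine ⟨L.map (J₀.comap π).subtype, ?_, ⟨k + a, ?_⟩, fun H hH => ?_⟩
  · rwa [Subgroup.card_map_of_injective (J₀.comap π).subtype_injective, ← hL.symm.index_eq_card,
      i2]
  · rw [Subgroup.index_map_subtype, hL.index_eq_card, hk, i1, pow_add]
  · obtain ⟨x, hx⟩ := i3 H hH
    obtain ⟨y, -, hy⟩ := compl_conj3 (B.subgroupOf (J₀.comap π)) L
      ((H.map (MulAut.conj x).toMonoidHom).subgroupOf (J₀.comap π)) inferInstance hP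
      (fun z h1 h2 => Subgroup.disjoint_def.1 hL.disjoint h2 h1)
      (fun g => by
        obtain ⟨⟨q, l⟩, e⟩ := hL.2 g
        exact ⟨q, q.2, l, l.2, e.symm⟩)
      fun h => hH ((h.trans (Subgroup.card_comap_dvd_of_injective _ _
        (J₀.comap π).subtype_injective)).trans (Subgroup.card_map_dvd H _))
    refine ⟨y * x, fun h hh => ⟨_, hy ⟨x * h * x⁻¹, hx h hh⟩ ⟨h, hh, rfl⟩, ?_⟩⟩
    change (y : G) * (x * h * x⁻¹) * (y : G)⁻¹ = _
    group

theorem hall3 (G : Type) [Group G] [Finite G] [Group.IsSolvable G] :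
    ∃ J : Subgroup G, ¬ 3 ∣ Nat.card J ∧ (∃ a : ℕ, J.index = 3 ^ a) ∧
      ∀ H : Subgroup G, ¬ 3 ∣ Nat.card H → ∃ x : G, ∀ h ∈ H, x * h * x⁻¹ ∈ J := by
  exact xshall3b_ind _ G rfl

end Pool.Agent.N9181
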