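import Pool.Agent.MP_9181f8_al.S.BtS
import Pool.Agent.MP_9181f8_al.N.BtTL
import Pool.Agent.MP_9181f8_al.N.BtEig

namespace Pool.Agent.N9181

open scoped commutatorElement

theorem xskapa_m (M : ℕ) (m : RM M) (h1 : red M m = -1) (h2 : m * m = 1) : m = -1 := by
  have hu : IsUnit (m - 1) := red_unit M _ (by rw [map_sub, h1, map_one]; decide)
  have h3 : (m - 1) * (m + 1) = 0 := by linear_combination h2
  have h4 : m + 1 = 0 := (hu.mul_right_eq_zero).1 h3
  linear_combination h4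

theorem xskapa_tcpow (M : ℕ) (tc : K → RM M) (h1 : tc 1 = 1)
    (hm : ∀ c c', tc (c * c') = tc c * tc c') (c : K) (k : ℕ) : tc (c ^ k) = tc c ^ k := by
  induction k with
  | zero => simpa using h1
  | succ k ih => rw [pow_succ, hm, ih, pow_succ (tc c) k]

theorem xskapa_coef {R : Type} [CommRing R] (i w : R) (hw : w ^ 3 = 1) (j : ℕ)
    (hj : 2 ∣ j ∨ 3 ∣ j) :
    2 * i ^ j - 2 * (-1 * i) ^ j - (i * w) ^ j - (i * (w * w)) ^ j + (-1 * (i * w)) ^ j
      + (-1 * (i * (w * w))) ^ j = 0 := by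
  simp only [mul_pow]
  rcases hj with ⟨l, rfl⟩ | ⟨l, rfl⟩
  · have : (-1 : R) ^ (2 * l) = 1 := by rw [pow_mul]; simp
    rw [this]; ring
  · have : w ^ (3 * l) = 1 := by rw [pow_mul, hw, one_pow]
    rw [this]; ring

theorem kap_bt (M n : ℕ) (hn : ¬ 13 ∣ n) : ∃ c : ℕ → RM M, (∀ k, ¬ k.Coprime 6 → c k = 0) ∧
    ∀ (V : Type) [AddCommGroup V] [Module K V] [Module.Finite K V] (a : Module.End K V),
      a ^ (12 * n) = 1 →
      ((12 * n : ℕ) : RM M) * (kap a : RM M) = ∑ k ∈ Finset.range (12 * n), c k * bt (a ^ k) M := by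
  obtain ⟨tc, hred, h1, hm, -⟩ := bt_smul M
  have hN : ¬ 13 ∣ 12 * n := by
    intro h
    rcases (Nat.Prime.dvd_mul (by norm_num : Nat.Prime 13)).1 h with h | h
    · norm_num at h
    · exact hn h
  have hpow : ∀ c : K, c ≠ 0 → tc c ^ (12 * n) = 1 := by
    intro c hc
    rw [pow_mul, ← xskapa_tcpow M tc h1 hm, k_twelve c hc, h1, one_pow]
  have hm1 : tc (-1) = -1 := xskapa_m M _ (hred _) (by rw [← hm, neg_mul_neg, one_mul, h1])
  have hw : tc 3 ^ 3 = 1 := by
    rw [← xskapa_tcpow M tc h1 hm, show (3 : K) ^ 3 = 1 by decide, h1]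
  have e8 : tc 8 = -1 * tc 5 := by rw [← hm1, ← hm]; congr 1
  have e2 : tc 2 = tc 5 * tc 3 := by rw [← hm]; congr 1
  have e6 : tc 6 = tc 5 * (tc 3 * tc 3) := by rw [← hm, ← hm]; congr 1
  have e11 : tc 11 = -1 * (tc 5 * tc 3) := by rw [← hm1, ← hm, ← hm]; congr 1
  have e7 : tc 7 = -1 * (tc 5 * (tc 3 * tc 3)) := by rw [← hm1, ← hm, ← hm, ← hm]; congr 1
  refine ⟨fun k => 2 * tc 5 ^ (12 * n - k) - 2 * tc 8 ^ (12 * n - k) - tc 2 ^ (12 * n - k)
    - tc 6 ^ (12 * n - k) + tc 11 ^ (12 * n - k) + tc 7 ^ (12 * n - k), ?_, ?_⟩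
  · intro k hk
    have hj : 2 ∣ 12 * n - k ∨ 3 ∣ 12 * n - k := by
      by_cases h2 : 2 ∣ k
      · exact Or.inl (Nat.dvd_sub (Dvd.intro (6 * n) (by ring)) h2)
      by_cases h3 : 3 ∣ k
      · exact Or.inr (Nat.dvd_sub (Dvd.intro (4 * n) (by ring)) h3)
      exfalso
      apply hk
      have c2 : k.Coprime 2 := ((Nat.Prime.coprime_iff_not_dvd Nat.prime_two).2 h2).symm
      have c3 : k.Coprime 3 := ((Nat.Prime.coprime_iff_not_dvd Nat.prime_three).2 h3).symm
      exact Nat.Coprime.mul_right c2 c3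
    show 2 * tc 5 ^ (12 * n - k) - 2 * tc 8 ^ (12 * n - k) - tc 2 ^ (12 * n - k)
      - tc 6 ^ (12 * n - k) + tc 11 ^ (12 * n - k) + tc 7 ^ (12 * n - k) = 0
    rw [e8, e2, e6, e11, e7]
    exact xskapa_coef (tc 5) (tc 3) hw _ hj
  · intro V _ _ _ a ha
    have E : ∀ c : K, c ≠ 0 → ∑ k ∈ Finset.range (12 * n), tc c ^ (12 * n - k) * bt (a ^ k) M
        = ((12 * n : ℕ) : RM M) * (ed a c : RM M) := by
      intro c hc
      have := bt_eig a (12 * n) hN ha M (tc c) (hpow c hc)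
      rwa [hred] at this
    have E5 := E 5 (by decide)
    have E8 := E 8 (by decide)
    have E2 := E 2 (by decide)
    have E6 := E 6 (by decide)
    have E11 := E 11 (by decide)
    have E7 := E 7 (by decide)
    simp only [add_mul, sub_mul, mul_assoc, Finset.sum_add_distrib, Finset.sum_sub_distrib,
      ← Finset.mul_sum]
    rw [E5, E8, E2, E6, E11, E7]
    unfold kap
    push_cast
    ring

theorem xskapa_mem {H : Type} [Group H] (T : Subgroup H) (y : H)
    (hn : y ∈ Subgroup.normalizer (T : Set H)) (t : H) (ht : t ∈ T) (k : ℕ) :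
    (y ^ k)⁻¹ * (y * t) ^ k ∈ T := by
  induction k with
  | zero => simp
  | succ k ih =>
    have h1 : y⁻¹ * ((y ^ k)⁻¹ * (y * t) ^ k) * y⁻¹⁻¹ ∈ T :=
      (Subgroup.mem_normalizer_iff.1 (Subgroup.inv_mem _ hn) _).1 ih
    have h2 : (y ^ (k + 1))⁻¹ * (y * t) ^ (k + 1)
        = (y⁻¹ * ((y ^ k)⁻¹ * (y * t) ^ k) * y⁻¹⁻¹) * t := by
      rw [pow_succ, pow_succ]; group
    rw [h2]
    exact T.mul_mem h1 ht

theorem xskapa_inj {H : Type} [Group H] (N k : ℕ) (hN : 1 < N) (hk : k.Coprime N) (x x' : H)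
    (hx : x ^ N = 1) (hx' : x' ^ N = 1) (h : x ^ k = x' ^ k) : x = x' := by
  obtain ⟨m, hm⟩ : ∃ m, k * m % N = 1 := by
    obtain ⟨m, -, hm⟩ := Nat.exists_mul_mod_eq_one_of_coprime hk hN
    exact ⟨m, hm⟩
  have he : k * m ≡ 1 [MOD N] := by
    unfold Nat.ModEq
    rw [hm, Nat.mod_eq_of_lt hN]
  rw [← xbasic_pow x N (k * m) hx he, ← xbasic_pow x' N (k * m) hx' he, pow_mul, pow_mul, h]

theorem xskapa_int (x y : ℤ) (h : ∀ M, (x : RM M) = (y : RM M)) : x = y := by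
  have h1 : ∀ M, ((13 ^ (M + 1) : ℕ) : ℤ) ∣ y - x := fun M =>
    (ZMod.intCast_eq_intCast_iff_dvd_sub x y _).1 (h M)
  have h2 := h1 (y - x).natAbs
  have hlt : (y - x).natAbs < 13 ^ ((y - x).natAbs + 1) :=
    lt_trans (Nat.lt_succ_self _) (Nat.lt_pow_self (by norm_num))
  have h3 : y - x = 0 := Int.eq_zero_of_dvd_of_natAbs_lt_natAbs h2 (by simpa using hlt)
  omega

theorem kap_avg {V : Type} [AddCommGroup V] [Module K V] [Module.Finite K V]
    {H : Type} [Group H] [Finite H] (ρ : Representation K H V) (h13 : ¬ 13 ∣ Nat.card H) (T : Subgroup H) (hT : IsPGroup 3 T) (y : H)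
    (a : ℕ) (hy : y ^ (2 ^ a) = 1) (hn : y ∈ Subgroup.normalizer (T : Set H)) (s : Module.End K (fixS ρ T))
    (hs : Rs (fixS ρ T) (ρ y) s) : ∑ᶠ t : T, kap (ρ (y * t)) = (Nat.card T : ℤ) * kap s := by
  classical
  have : Fintype T := Fintype.ofFinite T
  have : Fact (Nat.Prime 3) := ⟨Nat.prime_three⟩
  obtain ⟨b, hb⟩ := IsPGroup.iff_card.1 hT
  set n := 2 ^ a * Nat.card T with hn_def
  have hp : Nat.Prime 13 := by norm_num
  have hn13 : ¬ 13 ∣ n := by
    intro h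
    rcases (Nat.Prime.dvd_mul hp).1 h with h | h
    · have := Nat.Prime.dvd_of_dvd_pow hp h
      norm_num at this
    · exact h13 (h.trans (Subgroup.card_subgroup_dvd_card T))
  have hN13 : ¬ 13 ∣ 12 * n := by
    intro h
    rcases (Nat.Prime.dvd_mul hp).1 h with h | h
    · norm_num at h
    · exact hn13 h
  have hn0 : 0 < n := Nat.pos_of_ne_zero (fun h => hn13 (h ▸ dvd_zero 13))
  have hpow : ∀ t : T, (y * t) ^ (12 * n) = 1 := by
    intro t
    have h1 := xskapa_mem T y hn t t.2 (2 ^ a)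
    rw [hy, inv_one, one_mul] at h1
    have h2 : (⟨_, h1⟩ : T) ^ Nat.card T = 1 := pow_card_eq_one'
    have h3 : ((y * t) ^ (2 ^ a)) ^ Nat.card T = 1 := congrArg Subtype.val h2
    rw [mul_comm 12 n, pow_mul, hn_def, pow_mul, h3, one_pow]
  have hsk : ∀ (k : ℕ) (w : fixS ρ T), ((s ^ k) w : V) = ρ (y ^ k) w := by
    intro k
    induction k with
    | zero => intro w; simp
    | succ k ih =>
      intro w
      rw [pow_succ, Module.End.mul_apply, ih, hs w, pow_succ, rho_mul]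
  have hs1 : s ^ (12 * n) = 1 := by
    ext w
    have := hpow 1
    rw [Subgroup.coe_one, mul_one] at this
    rw [hsk, this, map_one]
    rfl
  have key : ∀ (k : ℕ), k.Coprime 6 → ∀ M,
      ∑ t : T, bt ((ρ (y * t)) ^ k) M = (Nat.card T : RM M) * bt (s ^ k) M := by
    intro k hk M
    have c2 : k.Coprime 2 := Nat.Coprime.coprime_dvd_right (by norm_num) hk
    have c3 : k.Coprime 3 := Nat.Coprime.coprime_dvd_right (by norm_num) hk
    have hkN : k.Coprime (12 * n) := by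
      rw [hn_def, hb]
      exact Nat.Coprime.mul_right (Nat.Coprime.mul_right c2 hk)
        (Nat.Coprime.mul_right (Nat.Coprime.pow_right a c2) (Nat.Coprime.pow_right b c3))
    have hyk : y ^ k ∈ Subgroup.normalizer (T : Set H) := Subgroup.pow_mem _ hn k
    have hW : ∀ v ∈ fixS ρ T, ρ (y ^ k) v ∈ fixS ρ T := fun v hv => fix_norm ρ T _ hyk v hv
    have h1 := bt_TL h13 ρ T (y ^ k) hyk (fixS ρ T) (isFix_fixS ρ T) hW M
    have h2 : (ρ (y ^ k)).restrict hW = s ^ k := by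
      ext w
      rw [hsk]
      rfl
    rw [h2, finsum_eq_sum_of_fintype] at h1
    rw [h1]
    let φ : T → T := fun t => ⟨(y ^ k)⁻¹ * (y * t) ^ k, xskapa_mem T y hn t t.2 k⟩
    have hφ : Function.Injective φ := by
      intro t t' h
      have h3 : (y ^ k)⁻¹ * (y * t) ^ k = (y ^ k)⁻¹ * (y * t') ^ k := congrArg Subtype.val h
      have h4 := xskapa_inj (12 * n) k (by omega) hkN _ _ (hpow t) (hpow t') (mul_left_cancel h3)
      exact Subtype.ext (mul_left_cancel h4)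
    refine Fintype.sum_bijective φ (Finite.injective_iff_bijective.1 hφ) _ _ (fun t => ?_)
    show bt ((ρ (y * t)) ^ k) M = bt (ρ (y ^ k * ((y ^ k)⁻¹ * (y * t) ^ k))) M
    rw [mul_inv_cancel_left, map_pow]
  apply xskapa_int
  intro M
  obtain ⟨c, hc0, hc⟩ := kap_bt M n hn13
  have hu : IsUnit ((12 * n : ℕ) : RM M) := red_unit M _ (by
    rw [map_natCast]
    exact fun h => hN13 ((ZMod.natCast_eq_zero_iff _ 13).1 h))
  apply hu.mul_left_cancel
  rw [finsum_eq_sum_of_fintype]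
  push_cast [Int.cast_sum]
  have h1 : ∀ t : T, ((12 * n : ℕ) : RM M) * (kap (ρ (y * t)) : RM M)
      = ∑ k ∈ Finset.range (12 * n), c k * bt ((ρ (y * t)) ^ k) M := fun t =>
    hc V _ (by rw [← map_pow, hpow, map_one])
  have h2 := hc _ s hs1
  push_cast at h1 h2
  rw [Finset.mul_sum, Finset.sum_congr rfl (fun t _ => h1 t), Finset.sum_comm,
    mul_left_comm _ (Nat.card T : RM M), h2, Finset.mul_sum]
  refine Finset.sum_congr rfl (fun k _ => ?_)
  rw [← Finset.mul_sum]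
  by_cases hk : k.Coprime 6
  · rw [key k hk M]; ring
  · rw [hc0 k hk]; simp

end Pool.Agent.N9181
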