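import Pool.Agent.MP_9181f8_al.S.KapA

namespace Pool.Agent.N9181

open scoped commutatorElement

theorem xskapb_pow {V : Type} [AddCommGroup V] [Module K V] (a : Module.End K V) (c : K) (v : V)
    (h : a v = c • v) (j : ℕ) : (a ^ j) v = c ^ j • v := by
  induction j with
  | zero => simp
  | succ j ih => rw [pow_succ', Module.End.mul_apply, ih, map_smul, h, smul_smul, pow_succ]

theorem ed_pow {V : Type} [AddCommGroup V] [Module K V] [Module.Finite K V] (a : Module.End K V) (n j : ℕ) (hn : 0 < n) (ha : a ^ n = 1)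
    (hj : j.Coprime (12 * n)) (c : K) (hc : c ≠ 0) : ed (a ^ j) (c ^ j) = ed a c := by
  obtain ⟨j', -, hj'⟩ := Nat.exists_mul_mod_eq_one_of_coprime hj (by omega)
  have h1 : j * j' ≡ 1 [MOD 12 * n] := by
    rw [Nat.ModEq, hj', Nat.mod_eq_of_lt (by omega)]
  have h2 : (a ^ j).eigenspace (c ^ j) = a.eigenspace c := by
    ext v
    rw [Module.End.mem_eigenspace_iff, Module.End.mem_eigenspace_iff]
    refine ⟨fun h => ?_, fun h => xskapb_pow a c v h j⟩
    have h3 := xskapb_pow _ _ v h j'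
    rwa [← pow_mul, ← pow_mul, xbasic_pow a n _ ha (h1.of_mul_left 12),
      xbasic_pow c 12 _ (ZMod.pow_card_sub_one_eq_one hc) (h1.of_mul_right n)] at h3
  unfold ed
  rw [h2]

theorem xskapb_ed {V : Type} [AddCommGroup V] [Module K V] [Module.Finite K V]
    (a : Module.End K V) (n j r : ℕ) (hn : 0 < n) (ha : a ^ n = 1) (hj : j.Coprime (12 * n))
    (hr : j ≡ r [MOD 12]) (c c' : K) (hc : c ≠ 0) (h : c ^ r = c') : ed (a ^ j) c' = ed a c := by
  rw [← ed_pow a n j hn ha hj c hc, ← h,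
    pow_eq_pow_of_modEq hr (ZMod.pow_card_sub_one_eq_one hc)]

theorem xskapb_five {V : Type} [AddCommGroup V] [Module K V] [Module.Finite K V]
    (a : Module.End K V) (n j : ℕ) (hn : 0 < n) (ha : a ^ n = 1) (hj : j.Coprime (12 * n))
    (hr : j ≡ 5 [MOD 12]) : kap (a ^ j) = kap a := by
  have h := xskapb_ed a n j 5 hn ha hj hr
  unfold kap
  rw [h 5 5 (by decide) (by decide), h 8 8 (by decide) (by decide), h 6 2 (by decide) (by decide),
    h 2 6 (by decide) (by decide), h 7 11 (by decide) (by decide), h 11 7 (by decide) (by decide)]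
  ring

theorem xskapb_seven {V : Type} [AddCommGroup V] [Module K V] [Module.Finite K V]
    (a : Module.End K V) (n j : ℕ) (hn : 0 < n) (ha : a ^ n = 1) (hj : j.Coprime (12 * n))
    (hr : j ≡ 7 [MOD 12]) : kap (a ^ j) = -kap a := by
  have h := xskapb_ed a n j 7 hn ha hj hr
  unfold kap
  rw [h 8 5 (by decide) (by decide), h 5 8 (by decide) (by decide), h 11 2 (by decide) (by decide),
    h 7 6 (by decide) (by decide), h 2 11 (by decide) (by decide), h 6 7 (by decide) (by decide)]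
  ring

theorem xskapb_eleven {V : Type} [AddCommGroup V] [Module K V] [Module.Finite K V]
    (a : Module.End K V) (n j : ℕ) (hn : 0 < n) (ha : a ^ n = 1) (hj : j.Coprime (12 * n))
    (hr : j ≡ 11 [MOD 12]) : kap (a ^ j) = -kap a := by
  have h := xskapb_ed a n j 11 hn ha hj hr
  unfold kap
  rw [h 8 5 (by decide) (by decide), h 5 8 (by decide) (by decide), h 7 2 (by decide) (by decide),
    h 11 6 (by decide) (by decide), h 6 11 (by decide) (by decide), h 2 7 (by decide) (by decide)]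
  ring

theorem xskapb_sim {V : Type} [AddCommGroup V] [Module K V] {H : Type} [Group H]
    {ρ : Representation K H V} {a b : H} (h : Sim ρ a b) : kap (ρ a) = kap (ρ b) := by
  unfold kap
  rw [h, h, h, h, h, h]

theorem xskapb_coset {H : Type} [Group H] (T : Subgroup H) (y : H)
    (hy : y ∈ Subgroup.normalizer (T : Set H)) (t : H) (ht : t ∈ T) (k : ℕ) :
    (y ^ k)⁻¹ * (y * t) ^ k ∈ T := by
  induction k with
  | zero => simp
  | succ k ih =>
    have h := T.mul_mem ((Subgroup.mem_normalizer_iff''.1 hy _).1 ih) ht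
    have e : (y ^ (k + 1))⁻¹ * (y * t) ^ (k + 1) = y⁻¹ * ((y ^ k)⁻¹ * (y * t) ^ k) * y * t := by
      rw [pow_succ, pow_succ]
      group
    rwa [e]

theorem xskapb_line {V : Type} [AddCommGroup V] [Module K V] [Module.Finite K V]
    (W : Submodule K V) (e : V) (he : e ≠ 0) (hW : W = Submodule.span K {e}) :
    kap ((5 : K) • (1 : Module.End K W)) = 2 := by
  have h1 : ed ((5 : K) • (1 : Module.End K W)) 5 = 1 := by
    have : ((5 : K) • (1 : Module.End K W)).eigenspace 5 = ⊤ :=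
      eq_top_iff.2 fun v _ => Module.End.mem_eigenspace_iff.2 rfl
    unfold ed
    rw [this, finrank_top, hW, finrank_span_singleton he]
  have h2 : ∀ c : K, 5 - c ≠ 0 → ed ((5 : K) • (1 : Module.End K W)) c = 0 := fun c hc => by
    have : ((5 : K) • (1 : Module.End K W)).eigenspace c = ⊥ := by
      refine eq_bot_iff.2 fun v hv => ?_
      have h3 : (5 : K) • v = c • v := Module.End.mem_eigenspace_iff.1 hv
      rw [← sub_eq_zero, ← sub_smul] at h3
      exact (smul_eq_zero.1 h3).resolve_left hc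
    unfold ed
    rw [this, finrank_bot]
  unfold kap
  rw [h1, h2 8 (by decide), h2 2 (by decide), h2 6 (by decide), h2 11 (by decide),
    h2 7 (by decide)]
  norm_num

theorem xskapb_u (a m N : ℕ) (hN : 0 < N) (hm : 0 < m) (h2 : (2 ^ (a + 2)).Coprime (3 * m)) :
    ∃ u : ℕ, u.Coprime (N * (2 ^ (a + 2) * (3 * m))) ∧ u ≡ 1 [MOD 2 ^ (a + 2)] ∧
      3 * m ∣ u + 1 := by
  obtain ⟨j, h3, h4⟩ := Nat.chineseRemainder h2 1 (3 * m - 1)
  have h5 : j.Coprime (2 ^ (a + 2) * (3 * m)) := by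
    refine Nat.Coprime.mul_right ?_ ?_
    · rw [Nat.Coprime, h3.gcd_eq]
      exact Nat.gcd_one_left _
    · rw [Nat.Coprime, h4.gcd_eq]
      exact (Nat.coprime_self_sub_left (by omega)).2 (Nat.coprime_one_left _)
  obtain ⟨u, hu, hu'⟩ := exists_j _ (N * (2 ^ (a + 2) * (3 * m))) j (Dvd.intro_left _ rfl)
    (by positivity) h5
  refine ⟨u, hu, (hu'.of_mul_right _).trans h3, ?_⟩
  have h6 := ((hu'.of_mul_left _).trans h4).add_right 1
  rw [Nat.sub_add_cancel (by omega)] at h6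
  exact (Nat.modEq_zero_iff_dvd).1 (h6.trans (Nat.modEq_zero_iff_dvd.2 dvd_rfl))

theorem kap_par {V : Type} [AddCommGroup V] [Module K V] [Module.Finite K V]
    {H : Type} [Group H] [Finite H] (ρ : Representation K H V) (h13 : ¬ 13 ∣ Nat.card H) (N : ℕ) (hN : 0 < N) (hT : Tri ρ N)
    (h2 : ∀ (h : H) (a : ℕ), h ^ (2 ^ a) = 1 → Sim ρ h h⁻¹) : Par ρ := by
  intro T y₀ e hT3 hy₀ he hfix h5
  obtain ⟨e₀, a, hya, hy5⟩ := eig_ppart ρ 2 Nat.prime_two y₀
  have hy5 := hy5 e 5 2 h5 (by decide)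
  have hy := Subgroup.pow_mem _ hy₀ e₀
  generalize y₀ ^ e₀ = y at hya hy5 hy
  have havg := kap_avg ρ h13 T hT3 y a hya hy ((5 : K) • 1) fun w => by
    obtain ⟨c, hc⟩ := Submodule.mem_span_singleton.1 (hfix.le w.2)
    change (5 : K) • (w : V) = _
    rw [← hc, map_smul, hy5, smul_comm]
  rw [xskapb_line _ e he hfix] at havg
  have : Fact (Nat.Prime 3) := ⟨Nat.prime_three⟩
  obtain ⟨b, hb⟩ := IsPGroup.iff_card.1 hT3
  have hm : 0 < Nat.card T := Nat.card_pos
  have hodd : Nat.Coprime 2 (3 * Nat.card T) := by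
    rw [hb, ← pow_succ']
    exact Nat.Coprime.pow_right _ (by norm_num)
  have hco : (2 ^ (a + 2)).Coprime (3 * Nat.card T) := Nat.Coprime.pow_left _ hodd
  obtain ⟨u, hu, hu1, hu2⟩ := xskapb_u a (Nat.card T) N hN hm hco
  have h12 : 12 ∣ 2 ^ (a + 2) * (3 * Nat.card T) := ⟨2 ^ a * Nat.card T, by ring⟩
  obtain ⟨u', hu', hu7⟩ := exists_j 12 (N * (2 ^ (a + 2) * (3 * Nat.card T))) 7
    (h12.mul_left N) (by positivity) (by norm_num)
  have hu5 : u ≡ 5 [MOD 12] := by
    have h3 : u ≡ 1 [MOD 4] := hu1.of_dvd ⟨2 ^ a, by ring⟩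
    have h4 : 3 ∣ u + 1 := (Dvd.intro _ rfl).trans hu2
    unfold Nat.ModEq at h3 ⊢
    omega
  have huu : u * u ≡ 1 [MOD 2 ^ (a + 2) * (3 * Nat.card T)] := by
    refine (Nat.modEq_and_modEq_iff_modEq_mul hco).1 ⟨by simpa using hu1.mul hu1, ?_⟩
    have h3 : u + 1 ≡ 0 [MOD 3 * Nat.card T] := Nat.modEq_zero_iff_dvd.2 hu2
    have h4 := (h3.mul_left u).trans (show u * 0 ≡ u + 1 [MOD _] from h3.symm)
    rw [mul_add, mul_one, add_comm u 1] at h4
    exact Nat.ModEq.add_right_cancel' u h4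
  have hord : ∀ t : T, (y * t) ^ (2 ^ (a + 2) * (3 * Nat.card T)) = 1 := fun t => by
    have h3 := xskapb_coset T y hy t t.2 (2 ^ a)
    rw [hya, inv_one, one_mul] at h3
    have h4 : ((y * t) ^ 2 ^ a) ^ Nat.card T = 1 :=
      congrArg Subtype.val (pow_card_eq_one' (G := T) (x := ⟨_, h3⟩))
    rw [show 2 ^ (a + 2) * (3 * Nat.card T) = 2 ^ a * Nat.card T * 12 by ring, pow_mul, pow_mul, h4,
      one_pow]
  have hyu : y ^ u = y := xbasic_pow y _ _ hya (hu1.of_dvd ⟨4, by ring⟩)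
  have hn : 0 < 2 ^ (a + 2) * (3 * Nat.card T) := by positivity
  have hfix2 : ∀ h : H, h ^ (2 ^ (a + 2) * (3 * Nat.card T)) = 1 → h ^ u = h →
      h ^ 2 ^ (a + 2) = 1 := fun h h3 h4 => by
    rw [pow_mul] at h3
    have h5 : (h ^ 2 ^ (a + 2)) ^ 2 = 1 := by
      obtain ⟨k, hk⟩ := hu2
      have h6 : (h ^ 2 ^ (a + 2)) ^ (u + 1) = 1 := by rw [hk, pow_mul, h3, one_pow]
      rwa [pow_succ, pow_right_comm, h4, ← pow_two] at h6
    have := pow_gcd_eq_one.2 ⟨h5, h3⟩
    rwa [hodd, pow_one] at this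
  generalize 2 ^ (a + 2) * (3 * Nat.card T) = n at hu hu' huu hord hn h12 hfix2
  have hc : ∀ j : ℕ, j.Coprime (N * n) → j.Coprime (12 * n) := fun j hj =>
    Nat.Coprime.mul_right (hj.coprime_dvd_right (h12.mul_left N)) hj.coprime_mul_left_right
  have hρ : ∀ t : T, ρ (y * t) ^ n = 1 := fun t => by rw [← map_pow, hord, map_one]
  have heven : ∀ t : T, ∃ k : ℤ, kap (ρ (y * t)) = 2 * k := fun t => by
    rcases hT (y * t) u u' hu.coprime_mul_right_right hu'.coprime_mul_right_right with h | h | h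
    · have h3 := xskapb_ed _ n u 5 hn (hρ t) (hc u hu) hu5
      have h4 := h3 2 6 (by decide) (by decide)
      have h5 := h3 11 7 (by decide) (by decide)
      rw [← map_pow, ← h] at h4 h5
      refine ⟨(ed (ρ (y * t)) 5 : ℤ) - ed (ρ (y * t)) 8 - ed (ρ (y * t)) 2 + ed (ρ (y * t)) 11, ?_⟩
      unfold kap
      rw [h4, h5]
      ring
    · have h3 := xskapb_sim h
      rw [map_pow, xskapb_seven _ n u' hn (hρ t) (hc u' hu') hu7] at h3
      exact ⟨0, by omega⟩
    · have h3 := xskapb_sim h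
      rw [map_pow, xskapb_eleven _ n _ hn (hρ t) (hc _ (Nat.Coprime.mul_left hu hu'))
        ((hu5.mul hu7).trans (by decide))] at h3
      exact ⟨0, by omega⟩
  have hmem : ∀ t : T, y⁻¹ * (y * t) ^ u ∈ T := fun t => by
    have h3 := xskapb_coset T y hy t t.2 u
    rwa [hyu] at h3
  have := Fintype.ofFinite T
  have hsum : ∑ t : T, ((kap (ρ (y * t)) : ℤ) : ZMod 4) = 0 := by
    refine Finset.sum_ninvolution (fun t : T => (⟨_, hmem t⟩ : T)) (fun t => ?_) (fun t h3 h4 => ?_)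
      (fun t => Finset.mem_univ _) fun t => Subtype.ext ?_
    · obtain ⟨k, hk⟩ := heven t
      rw [mul_inv_cancel_left, map_pow, xskapb_five _ n u hn (hρ t) (hc u hu) hu5, hk]
      push_cast
      have h4 : (4 : ZMod 4) = 0 := rfl
      linear_combination (k : ZMod 4) * h4
    · have h5 : y⁻¹ * (y * t) ^ u = t := congrArg Subtype.val h4
      have h6 := xskapb_sim (h2 _ _ (hfix2 _ (hord t) (inv_mul_eq_iff_eq_mul.1 h5)))
      have h7 : (y * t)⁻¹ = (y * t) ^ (n - 1) := by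
        rw [inv_eq_iff_mul_eq_one, ← pow_succ', Nat.sub_add_cancel hn, hord]
      have h8 : (n - 1).Coprime n := (Nat.coprime_self_sub_left hn).2 (Nat.coprime_one_left _)
      rw [h7, map_pow, xskapb_eleven _ n _ hn (hρ t)
        (Nat.Coprime.mul_right (h8.coprime_dvd_right h12) h8) (by
          unfold Nat.ModEq
          omega)] at h6
      exact h3 (by rw [show kap (ρ (y * t)) = 0 by omega, Int.cast_zero])
    · change y⁻¹ * (y * (y⁻¹ * (y * t) ^ u)) ^ u = t
      rw [mul_inv_cancel_left, ← pow_mul, xbasic_pow _ _ _ (hord t) huu, inv_mul_cancel_left]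
  rw [← Int.cast_sum, ← finsum_eq_sum_of_fintype, havg, ZMod.intCast_zmod_eq_zero_iff_dvd] at hsum
  have h3 : ¬ 2 ∣ 3 * Nat.card T := (Nat.Prime.coprime_iff_not_dvd Nat.prime_two).1 hodd
  omega

end Pool.Agent.N9181
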