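import Pool.Agent.MP_9181f8_al.S.HSv
import Pool.Agent.MP_9181f8_al.S.Partner
import Pool.Agent.MP_9181f8_al.S.PO
import Pool.Agent.MP_9181f8_al.S.Sbd

namespace Pool.Agent.N9181

open scoped commutatorElement

theorem xskill3_end {V : Type} [AddCommGroup V] [Module K V] [Module.Finite K V]
    {H : Type} [Group H] [Finite H] (ρ : Representation K H V) (E : Subgroup H) (hn : E.Normal)
    (h3 : ∀ f ∈ E, f ^ 3 = 1) (f h : H) (hf : f ∈ E) (u : V) (h0 : u ≠ 0)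
    (h8 : ρ h u = (8 : K) • u) (h5 : ρ h (ρ f u) = (5 : K) • ρ f u) : False := by
  have hg : f * (h * f⁻¹ * h⁻¹) ∈ E := mul_mem hf (hn.conj_mem _ (inv_mem hf) h)
  have e1 : ρ (f * (h * f⁻¹ * h⁻¹)) (ρ h (ρ f u)) = (8 : K) • ρ f u := by
    rw [rho_mul, rho_mul, rho_mul, rho_inv, rho_inv, h8, map_smul]
  have e2 : ρ (f * (h * f⁻¹ * h⁻¹)) (ρ f u) = (-1 : K) • ρ f u := by
    rw [h5, map_smul] at e1
    have e3 := congrArg (fun v => (8 : K) • v) e1
    simp only [smul_smul] at e3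
    rwa [show (8 : K) * 5 = 1 by decide, show (8 : K) * 8 = -1 by decide, one_smul] at e3
  have e4 := rho_pow_eig ρ _ _ _ e2 3
  rw [h3 _ hg, map_one, Module.End.one_apply] at e4
  have e5 : ((1 : K) - (-1) ^ 3) • ρ f u = 0 := by rw [sub_smul, one_smul, ← e4, sub_self]
  have e6 : ρ f u = 0 := (smul_eq_zero.1 e5).resolve_left (by decide)
  apply h0
  rw [← rho_inv ρ f u, e6, map_zero]

theorem xskill3_lt {V : Type} [AddCommGroup V] [Module K V] [Module.Finite K V]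
    (T : Submodule K V) (a : Module.End K V) (h : ∀ v ∈ T, a v = (5 : K) • v)
    (h3 : Module.finrank K T = 3) : edOn T a 8 < edOn T a 5 := by
  have e1 : T ⊓ a.eigenspace 5 = T :=
    inf_eq_left.2 fun v hv => Module.End.mem_eigenspace_iff.2 (h v hv)
  have e2 : T ⊓ a.eigenspace 8 = ⊥ := by
    rw [eq_bot_iff]
    rintro v ⟨hv, h8⟩
    have h8 := Module.End.mem_eigenspace_iff.1 h8
    have : ((8 : K) - 5) • v = 0 := by rw [sub_smul, ← h8, h v hv, sub_self]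
    exact (smul_eq_zero.1 this).resolve_left (by decide)
  rw [edOn, edOn, e1, e2, h3, finrank_bot]
  norm_num

theorem kill3 {V : Type} [AddCommGroup V] [Module K V] [Module.Finite K V]
    {H : Type} [Group H] [Finite H] [Group.IsSolvable H] (ρ : Representation K H V) (hE5 : HEP ρ 5) (hK : DK ρ) (E : Subgroup H) (hE : EH ρ 3 3 E) (L : Subgroup H) (X Z : H)
    (hH : HS ρ 3 3 1 E L X Z) (h3 : Module.finrank K (fixS ρ L) = 3) : False := by
  obtain ⟨m, h0, hm, hZ1⟩ := hH.ex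
  have hZ : ρ Z m = m := by rwa [one_smul] at hZ1
  obtain ⟨hw, hw0, hsl⟩ := hs_sl3 ρ E hE L X Z hH m hm h0 hZ
  have hT := (hs_t3 ρ E hE L X Z hH m hm h0 hZ).2 h3
  obtain ⟨J, -, hJ⟩ := m3_exists ⊥ (stabV ρ (w3 ρ X m)) bot_le (by simp)
  obtain ⟨y, hy⟩ := exists_val ρ hE5 _ J hJ
  have hJc : ∀ j ∈ J, j ∈ Subgroup.normalizer (L : Set H) ∧ ∀ v ∈ fixS ρ L, ρ j v = v :=
    fun j hj => by
    have := h3_cen ρ E hE L X Z hH m hm h0 hZ j
      (fun h => hJ.2.1 (h.trans (Subgroup.orderOf_dvd_natCard J hj))) 1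
      (by rw [one_smul]; exact hJ.1 hj)
    rw [hT] at this
    simpa only [one_smul] using this
  have hyc : y ∈ Subgroup.normalizer (L : Set H) ∧ ∀ v ∈ fixS ρ L, ρ y v = (5 : K) • v := by
    obtain ⟨a, ha⟩ := hy.2.1
    have := h3_cen ρ E hE L X Z hH m hm h0 hZ y (fun h => by
      have := Nat.prime_three.dvd_of_dvd_pow (h.trans (orderOf_dvd_of_pow_eq_one ha))
      omega) 5 hy.2.2
    rwa [hT] at this
  rcases hK _ J y hw0 hJ hy with h | h
  · obtain ⟨k, hk⟩ := h m (fun j hj => (hJc j hj).2 m hm) h0 (hyc.2 m hm)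
    exact hs_nc ρ 3 3 3 (Or.inr ⟨rfl, rfl, rfl⟩) E hE 1 L X Z hH _ hw hw0 hsl m hm 1 hZ1 k 1
      (by rw [one_smul]; exact hk)
  obtain ⟨_, _, -, hB⟩ := sbd_bd _ _ (eb ρ L (Subgroup.normalizer (L : Set H)) hH.cL
    (fun b hb => by rw [show 12 = 3 * 4 from rfl, pow_mul, hH.pL b hb, one_pow]) le_rfl)
  let i : eigS ρ L := ⟨fixS ρ L, fix_eigS ρ L fun e => h0 (by rwa [e] at hm)⟩
  have hi : ∀ g : Subgroup.normalizer (L : Set H), g • i = i := fun g =>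
    blk_eq _ _ hB i i g m hm h0 (fix_norm ρ L g g.2 m hm)
  have hfix : fixS (V := V) (ρ.comp (Subgroup.normalizer (L : Set H)).subtype)
      (J.subgroupOf (Subgroup.normalizer (L : Set H))) = fixS ρ J := by
    ext v
    exact ⟨fun hv j hj => hv ⟨j, (hJc j hj).1⟩ hj, fun hv j hj => hv j hj⟩
  have hinf : fixS ρ J ⊓ fixS ρ L = fixS ρ L :=
    inf_eq_right.2 fun v hv j hj => (hJc j hj).2 v hv
  obtain ⟨k, u, -, hu0, hu, hyu, hk⟩ := po _ _ hB
    (J.subgroupOf (Subgroup.normalizer (L : Set H))) ⟨y, hyc.1⟩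
    (Subgroup.le_normalizer_comap (Subgroup.normalizer (L : Set H)).subtype hy.1)
    (val_pow4 ρ _ J hJ y hy) i (fun j _ => hi j) (hi _) (by rw [hfix]; exact h)
    (by rw [hfix]; exact hinf.symm ▸ xskill3_lt _ _ hyc.2 h3)
  obtain ⟨l, j, u', hj, hl, hu', h8⟩ := po_comp _ _ hB _ _ k u hu0 hu hyu hk
  obtain ⟨χ, hχ⟩ := l.2.2
  obtain ⟨f, hf, hfu⟩ := hH.tr u' fun b hb => ⟨χ b, (hχ u').1 hl b hb⟩
  refine xskill3_end ρ E hE.nE hE.pw f (y * j) hf u' hu' h8 ?_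
  rw [rho_mul, (hJc j hj).2 _ hfu, hyc.2 _ hfu]

end Pool.Agent.N9181
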