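import Pool.Agent.MP_9181f8_al.S.Partner

namespace Pool.Agent.N9181

open scoped commutatorElement

theorem kill_cnt {V : Type} [AddCommGroup V] [Module K V] [Module.Finite K V]
    {H : Type} [Group H] [Finite H] [Group.IsSolvable H] (ρ : Representation K H V) (hinj : Function.Injective ρ) (hE5 : HEP ρ 5) (hK : DK ρ) (w : V) (h0 : w ≠ 0)
    (hr : ∀ (h : H) (c : K), ¬ 3 ∣ orderOf h → ρ h w = c • w → h ∈ scal ρ)
    (hc : Nat.card H < 13 ^ Module.finrank K V - 1) : False := by
  obtain ⟨J, -, hJ⟩ := m3_exists ⊥ (stabV ρ w) bot_le (by simp)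
  obtain ⟨y, hy⟩ := exists_val ρ hE5 w J hJ
  have hT : fixS ρ J = ⊤ := by
    refine eq_top_iff.2 fun v _ j hj => ?_
    have h1 : ρ j w = w := hJ.1 hj
    obtain ⟨c, -, hc⟩ := hr j 1 (fun h => hJ.2.1 (h.trans (J.orderOf_dvd_natCard hj)))
      (by rw [h1, one_smul])
    have h2 : c = 1 := smul_left_injective K h0 (by
      show c • w = (1 : K) • w
      rw [← hc, h1, one_smul])
    rw [hc, h2, one_smul]
  have hy5 : ∀ v, ρ y v = (5 : K) • v := by
    obtain ⟨a, ha⟩ := hy.2.1
    obtain ⟨c, -, hc⟩ := hr y 5 (fun h => by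
      have := Nat.prime_three.dvd_of_dvd_pow (h.trans (orderOf_dvd_of_pow_eq_one ha))
      omega) hy.2.2
    have h2 : c = 5 := smul_left_injective K h0 (by
      show c • w = (5 : K) • w
      rw [← hc, hy.2.2])
    intro v
    rw [hc, h2]
  rcases hK w J y h0 hJ hy with h | h
  · obtain ⟨hfin, hcard⟩ := card_sub (⊤ : Submodule K V)
    rw [finrank_top, Nat.card_congr Submodule.topEquiv.toEquiv] at hcard
    let f : H → {v : V // v ≠ 0} := fun k => ⟨ρ k w, fun e => h0 (by
      rw [← rho_inv ρ k w, e, map_zero])⟩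
    have hs : Function.Surjective f := fun v => by
      obtain ⟨k, hk⟩ := h v (hT ▸ Submodule.mem_top) v.2 (hy5 v)
      exact ⟨k, Subtype.ext hk⟩
    have h1 := Nat.card_le_card_of_surjective f hs
    have h2 : Nat.card {v : V // v ≠ 0} + 1 = Nat.card V := by
      classical
      have := Fintype.ofFinite V
      rw [Nat.card_eq_fintype_card, Nat.card_eq_fintype_card, Fintype.card_subtype_compl,
        Fintype.card_subtype_eq]
      have := Fintype.card_pos (α := V)
      omega
    omega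
  · have h1 : 0 < edOn (fixS ρ J) (ρ y) 5 :=
      (edOn_pos _ _ _).2 ⟨w, hT ▸ Submodule.mem_top, h0, hy5 w⟩
    obtain ⟨u, -, hu0, hu⟩ := (edOn_pos (fixS ρ J) (ρ y) 8).1 (by omega)
    rw [hy5] at hu
    exact absurd (smul_left_injective K hu0 hu) (by decide)

end Pool.Agent.N9181
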