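import Pool.Agent.MP_9181f8_al.S.Lines

namespace Pool.Agent.N9181

open scoped commutatorElement

theorem mono_pair {V : Type} [AddCommGroup V] [Module K V] [Module.Finite K V]
    {H : Type} [Group H] [Finite H] (ρ : Representation K H V) (hE5 : HEP ρ 5) (hV : ∃ v : V, v ≠ 0) (hM : Mono ρ) :
    ∃ (a b : V) (g : H), (∀ x y : K, x • a + y • b = 0 → x = 0 ∧ y = 0) ∧
      ρ g a = (2 : K) • a ∧ ρ g b = (7 : K) • b ∧
      (∀ h : H, ρ h a = (5 : K) • a → ρ h b ≠ (5 : K) • b) ∧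
      ∀ h : H, ρ h a ∈ Submodule.span K {a, b} → ρ h b ∈ Submodule.span K {a, b} →
        (∃ x y : K, ρ h a = x • a ∧ ρ h b = y • b) ∨ ∃ x y : K, ρ h a = x • b ∧ ρ h b = y • a := by
  obtain ⟨I, _, _, W, hB, h1, hR⟩ := hM
  have hI : Nonempty I := by
    by_contra hI
    rw [not_nonempty_iff] at hI
    have h1 := hB.top
    rw [iSup_of_empty] at h1
    obtain ⟨v, h0⟩ := hV
    have h2 : v ∈ (⊥ : Submodule K V) := h1 ▸ Submodule.mem_top
    exact h0 h2
  obtain ⟨i⟩ := hI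
  obtain ⟨k, hk, hr⟩ := hR i
  obtain ⟨a, ha, a0⟩ := Submodule.exists_mem_ne_zero_of_ne_bot (hB.ne i)
  obtain ⟨b, hb, b0⟩ := Submodule.exists_mem_ne_zero_of_ne_bot (hB.ne k)
  obtain ⟨g, g1, g2⟩ := l_diag ρ hE5 W hB i k hk.symm hr a b ha hb a0 b0 2 (by decide)
  obtain ⟨P, -, -, P3, P4, -⟩ := exists_proj ρ W hB
  have ind : ∀ x y : K, x • a + y • b = 0 → x = 0 ∧ y = 0 := fun x y h => by
    have e1 := congrArg (P i) h
    have e2 := congrArg (P k) h
    rw [map_add, map_smul, map_smul, map_zero] at e1 e2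
    rw [P3 i a ha, P4 i k hk.symm b hb, smul_zero, add_zero] at e1
    rw [P3 k b hb, P4 k i hk a ha, smul_zero, zero_add] at e2
    exact ⟨(smul_eq_zero.1 e1).resolve_right a0, (smul_eq_zero.1 e2).resolve_right b0⟩
  have key : ∀ (l : I) (v : V), v ∈ W l → v ≠ 0 → v ∈ Submodule.span K {a, b} →
      l = i ∨ l = k := fun l v hv v0 hs => by
    by_contra hn
    rw [not_or] at hn
    obtain ⟨x, y, e⟩ := Submodule.mem_span_pair.1 hs
    have e1 := congrArg (P l) e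
    rw [map_add, map_smul, map_smul, P4 l i hn.1 a ha, P4 l k hn.2 b hb, P3 l v hv, smul_zero,
      smul_zero, add_zero] at e1
    exact v0 e1.symm
  refine ⟨a, b, g, ind, g1, by rw [g2, show (2 : K)⁻¹ = 7 from inv_eq_of_mul_eq_one_right (by decide)], hr a ha b hb a0 b0,
    fun h p1 p2 => ?_⟩
  have n0 : ∀ v : V, v ≠ 0 → ρ h v ≠ 0 := fun v v0 e => v0 (by rw [← rho_inv ρ h v, e, map_zero])
  have m1 := hB.map h i a ha
  have m2 := hB.map h k b hb
  have hne : h • i ≠ h • k := fun e => hk (MulAction.injective h e).symm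
  rcases key _ _ m1 (n0 a a0) p1 with e1 | e1 <;> rcases key _ _ m2 (n0 b b0) p2 with e2 | e2
  · exact absurd (e1.trans e2.symm) hne
  · rw [e1] at m1
    rw [e2] at m2
    obtain ⟨x, hx⟩ := line_ext _ (h1 i) a ha a0 _ m1
    obtain ⟨y, hy⟩ := line_ext _ (h1 k) b hb b0 _ m2
    exact Or.inl ⟨x, y, hx, hy⟩
  · rw [e1] at m1
    rw [e2] at m2
    obtain ⟨x, hx⟩ := line_ext _ (h1 k) b hb b0 _ m1
    obtain ⟨y, hy⟩ := line_ext _ (h1 i) a ha a0 _ m2
    exact Or.inr ⟨x, y, hx, hy⟩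
  · exact absurd (e1.trans e2.symm) hne

end Pool.Agent.N9181
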