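import Pool.Agent.MP_9181f8_al.S.Defs
import Pool.Agent.MP_9181f8_al.N.NumB

namespace Pool.Agent.N9181

open scoped commutatorElement

theorem xsnumd_ch (u : ℕ) : ch 3 u ≤ ch 2 u := by
  induction u using Nat.strong_induction_on with
  | _ u ih =>
    rw [ch_eq 3 (by norm_num), ch_eq 2 le_rfl]
    split_ifs with hu
    · exact le_rfl
    · exact Nat.mul_le_mul_left _
        ((ih _ (by omega)).trans (ch_mono 2 le_rfl _ _ (by omega)))

theorem xsnumd_cube (g : ℕ) (hg : 3 ≤ g) : 2 * g ^ 3 ≤ 13 ^ ((g + 1) / 2) := by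
  have key : ∀ k, 2 ≤ k → 16 * k ^ 3 ≤ 13 ^ k := by
    intro k hk
    induction k, hk using Nat.le_induction with
    | base => norm_num
    | succ k hk ih =>
      have h : (2 * (k + 1)) ^ 3 ≤ (3 * k) ^ 3 := Nat.pow_le_pow_left (by omega) 3
      rw [mul_pow, mul_pow] at h
      rw [pow_succ 13]
      omega
  have h1 := key ((g + 1) / 2) (by omega)
  have h2 : g ^ 3 ≤ (2 * ((g + 1) / 2)) ^ 3 := Nat.pow_le_pow_left (by omega) 3
  rw [mul_pow] at h2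
  omega

theorem xsnumd_base (e : ℕ) (ho : e % 2 = 1) (he : 5 ≤ e) :
    8 * (e ^ 2 * ch 3 (e ^ 2)) * 13 ^ ((2 * e + 2) / 3) + e ^ 2 * ch 3 (e ^ 2) * 13 ^ e ≤
      13 ^ e * 13 ^ ((2 * e + 2) / 3) := by
  rcases lt_or_ge e 64 with h | h
  · revert ho he
    revert e
    decide +kernel
  · have h1 := xnumb_big e h
    have h2 := Nat.mul_le_mul_left (e ^ 2) (xsnumd_ch (e ^ 2))
    have h3 : 4 ^ e ≤ 13 ^ ((2 * e + 2) / 3) := by
      refine (Nat.pow_le_pow_iff_left (n := 3) (by norm_num)).1 ?_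
      calc (4 ^ e) ^ 3 = 64 ^ e := by rw [← pow_mul, mul_comm, pow_mul]; norm_num
        _ ≤ 169 ^ e := Nat.pow_le_pow_left (by norm_num) e
        _ = 13 ^ (2 * e) := by rw [pow_mul]; norm_num
        _ ≤ 13 ^ ((2 * e + 2) / 3 * 3) := Nat.pow_le_pow_right (by norm_num) (by omega)
        _ = _ := pow_mul _ _ _
    have h4 : 13 ^ ((2 * e + 2) / 3) ≤ 13 ^ e := Nat.pow_le_pow_right (by norm_num) (by omega)
    generalize e ^ 2 * ch 3 (e ^ 2) = X at *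
    generalize 13 ^ ((2 * e + 2) / 3) = β at *
    generalize 13 ^ e = α at *
    have h5 : 256 * X ≤ β := by omega
    have h6 := Nat.mul_le_mul_right α h5
    have h7 := Nat.mul_le_mul_right β (h5.trans h4)
    nlinarith

theorem xsnumd_scale {A A' B α β α' β' : ℕ} (h0 : A' * β' + B * α' ≤ α' * β')
    (h1 : A * α' ≤ A' * α) (h2 : β' ≤ β) (ha : 0 < α') (hb : 0 < β') :
    A * β + B * α ≤ α * β := by
  refine Nat.le_of_mul_le_mul_right (c := α' * β') ?_ (by positivity)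
  calc (A * β + B * α) * (α' * β') = A * α' * (β * β') + B * α * α' * β' := by ring
    _ ≤ A' * α * (β * β') + B * α * α' * β := by gcongr
    _ = α * β * (A' * β' + B * α') := by ring
    _ ≤ α * β * (α' * β') := by gcongr

theorem xsnumd_fin {A B α β x y z : ℕ} (h : A * β + B * α ≤ α * β) (hx : z = α * x)
    (hy : z = β * y) (ha : 2 ≤ α) (hb : 2 ≤ β) (hx0 : 0 < x) (hy0 : 0 < y) (hA : 2 ≤ A) :
    A * (x - 1) + B * (y - 1) < z - 1 := by
  have h1 : A * x + B * y ≤ z := by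
    refine Nat.le_of_mul_le_mul_right (c := α * β) ?_ (by positivity)
    calc (A * x + B * y) * (α * β) = A * β * (α * x) + B * α * (β * y) := by ring
      _ = z * (A * β + B * α) := by
        rw [← hx, ← hy]
        ring
      _ ≤ z * (α * β) := by gcongr
  obtain ⟨x, rfl⟩ : ∃ x', x = x' + 1 := ⟨x - 1, by omega⟩
  obtain ⟨y, rfl⟩ : ∃ y', y = y' + 1 := ⟨y - 1, by omega⟩
  rw [Nat.add_sub_cancel, Nat.add_sub_cancel]
  rw [mul_add, mul_add] at h1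
  omega

theorem xsnumd_key (d e g T M : ℕ) (ho : Odd e) (h2 : 2 * e ≤ d) (hge : g * e ≤ d)
    (hT : T = 4 ∨ 3 ≤ g ∧ T = g ^ 3) (hM : M < ch 3 (e ^ 2)) (h3 : e = 3 → M ≤ 1) :
    2 * T * (e ^ 2 * ch 3 (e ^ 2)) * 13 ^ (d - 2 * d / 3) + e ^ 2 * M * 13 ^ (d - d / 2) ≤
      13 ^ (d - d / 2) * 13 ^ (d - 2 * d / 3) := by
  have ho' : e % 2 = 1 := Nat.odd_iff.1 ho
  by_cases h1 : e = 1
  · subst h1
    have hc : ch 3 (1 ^ 2) = 1 := by decide
    rw [hc] at hM ⊢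
    obtain rfl : M = 0 := by omega
    have h4 : 2 * T ≤ 13 ^ (d - d / 2) := by
      rcases hT with rfl | ⟨hg, rfl⟩
      · exact le_trans (by norm_num) (Nat.pow_le_pow_right (by norm_num) (by omega : 1 ≤ _))
      · exact (xsnumd_cube g hg).trans (Nat.pow_le_pow_right (by norm_num) (by omega))
    simpa using Nat.mul_le_mul_right (13 ^ (d - 2 * d / 3)) h4
  have h4 : 2 * T * 13 ^ e ≤ 8 * 13 ^ (d - d / 2) := by
    rcases hT with rfl | ⟨hg, rfl⟩
    · exact Nat.mul_le_mul_left _ (Nat.pow_le_pow_right (by norm_num) (by omega))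
    · obtain ⟨k, rfl⟩ : ∃ k, g = k + 2 := ⟨g - 2, by omega⟩
      have h5 : k * 3 ≤ k * e := Nat.mul_le_mul_left k (by omega)
      rw [add_mul] at hge
      calc 2 * (k + 2) ^ 3 * 13 ^ e ≤ 13 ^ ((k + 2 + 1) / 2) * 13 ^ e :=
            Nat.mul_le_mul_right _ (xsnumd_cube _ hg)
        _ = 13 ^ ((k + 2 + 1) / 2 + e) := (pow_add _ _ _).symm
        _ ≤ 13 ^ (d - d / 2) := Nat.pow_le_pow_right (by norm_num) (by omega)
        _ ≤ 8 * 13 ^ (d - d / 2) := Nat.le_mul_of_pos_left _ (by norm_num)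
  refine xsnumd_scale (A' := 8 * (e ^ 2 * ch 3 (e ^ 2))) (α' := 13 ^ e)
    (β' := 13 ^ ((2 * e + 2) / 3)) ?_ ?_ (Nat.pow_le_pow_right (by norm_num) (by omega))
    (by positivity) (by positivity)
  · by_cases h5 : e = 3
    · have h6 := h3 h5
      subst h5
      have hc : ch 3 (3 ^ 2) = 27 := by decide
      rw [hc]
      omega
    · refine le_trans ?_ (xsnumd_base e ho' (by omega))
      gcongr
  · calc 2 * T * (e ^ 2 * ch 3 (e ^ 2)) * 13 ^ e
        = 2 * T * 13 ^ e * (e ^ 2 * ch 3 (e ^ 2)) := by ring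
      _ ≤ 8 * 13 ^ (d - d / 2) * (e ^ 2 * ch 3 (e ^ 2)) := by gcongr
      _ = _ := by ring

theorem numD (d e g I M r μ n : ℕ) (ho : Odd e) (hg : 0 < g) (h2 : 2 * e ≤ d) (hge : g * e ≤ d)
    (hI : I ≤ ch 3 (e ^ 2)) (hM : M < I) (h3 : e = 3 → M ≤ 1) (hμ : 0 < μ) (h12 : μ ≤ 12)
    (hr : r ≤ μ * g ^ 2) (hr2 : g ≤ 2 → r ≤ 2 * μ) (hn : n ≤ g * (r * e ^ 2 * I)) :
    2 * (n - r) * (13 ^ (d / 2) - 1) + μ * e ^ 2 * M * (13 ^ (2 * d / 3) - 1) <
      μ * (13 ^ d - 1) ∧ n < 13 ^ d - 1 := by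
  have he : 0 < e := ho.pos
  obtain ⟨T, hT, hgr⟩ : ∃ T, (T = 4 ∨ 3 ≤ g ∧ T = g ^ 3) ∧ g * r ≤ μ * T := by
    by_cases h : g ≤ 2
    · exact ⟨4, Or.inl rfl, (Nat.mul_le_mul h (hr2 h)).trans (by omega)⟩
    · exact ⟨g ^ 3, Or.inr ⟨by omega, rfl⟩,
        (Nat.mul_le_mul_left g hr).trans (le_of_eq (by ring))⟩
  have hT0 : 0 < T := by
    rcases hT with rfl | ⟨_, rfl⟩ <;> positivity
  have key := xsnumd_key d e g T M ho h2 hge hT (hM.trans_le hI) h3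
  have hX : 0 < e ^ 2 * ch 3 (e ^ 2) := Nat.mul_pos (by positivity) (by omega)
  have hn' : n ≤ μ * (T * (e ^ 2 * ch 3 (e ^ 2))) :=
    calc n ≤ g * (r * e ^ 2 * I) := hn
      _ = g * r * (e ^ 2 * I) := by ring
      _ ≤ μ * T * (e ^ 2 * ch 3 (e ^ 2)) := by gcongr
      _ = _ := by ring
  have hz : 13 ^ d = 13 ^ (d - d / 2) * 13 ^ (d / 2) := by
    rw [← pow_add]
    congr 1
    omega
  have hz' : 13 ^ d = 13 ^ (d - 2 * d / 3) * 13 ^ (2 * d / 3) := by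
    rw [← pow_add]
    congr 1
    omega
  have ha : 13 ^ 1 ≤ 13 ^ (d - d / 2) := Nat.pow_le_pow_right (by norm_num) (by omega)
  have hb : 13 ^ 1 ≤ 13 ^ (d - 2 * d / 3) := Nat.pow_le_pow_right (by norm_num) (by omega)
  have hx : 13 ^ 1 ≤ 13 ^ (d / 2) := Nat.pow_le_pow_right (by norm_num) (by omega)
  have hTX : 0 < T * (e ^ 2 * ch 3 (e ^ 2)) := Nat.mul_pos hT0 hX
  rw [mul_assoc 2 T] at key
  generalize T * (e ^ 2 * ch 3 (e ^ 2)) = Y at *
  constructor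
  · have h1 := xsnumd_fin key hz hz' (by omega) (by omega) (by positivity) (by positivity)
      (by omega)
    calc 2 * (n - r) * (13 ^ (d / 2) - 1) + μ * e ^ 2 * M * (13 ^ (2 * d / 3) - 1)
        ≤ 2 * (μ * Y) * (13 ^ (d / 2) - 1) + μ * e ^ 2 * M * (13 ^ (2 * d / 3) - 1) := by
          gcongr
          omega
      _ = μ * (2 * Y * (13 ^ (d / 2) - 1) + e ^ 2 * M * (13 ^ (2 * d / 3) - 1)) := by ring
      _ < μ * (13 ^ d - 1) := Nat.mul_lt_mul_of_pos_left h1 hμ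
  · have h1 : 2 * Y ≤ 13 ^ (d - d / 2) :=
      Nat.le_of_mul_le_mul_right ((Nat.le_add_right _ _).trans key) (by positivity)
    have h4 : μ * Y ≤ 12 * Y := Nat.mul_le_mul_right Y h12
    have h5 := Nat.mul_le_mul_left (13 ^ (d - d / 2)) hx
    omega

end Pool.Agent.N9181
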