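import Pool.Agent.MP_9181f8_al.S.Lam
import Pool.Agent.MP_9181f8_al.S.GBasic
import Pool.Agent.MP_9181f8_al.S.EigA
import Pool.Agent.MP_9181f8_al.S.CntA
import Pool.Agent.MP_9181f8_al.S.NumD
import Pool.Agent.MP_9181f8_al.S.Cover

namespace Pool.Agent.N9181

open scoped commutatorElement

theorem xsregd_pm (p : ℕ) (hp : p.Prime) (h3 : p ≠ 3) (c c1 : K) (h0 : c1 ≠ 0)
    (h : c ^ p = c1 ^ p) : c = c1 ∨ c = -c1 := by
  by_cases h2 : p = 2
  · subst h2
    exact sq_eq_sq_iff_eq_or_eq_neg.1 h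
  · left
    have hc : c ≠ 0 := by
      rintro rfl
      rw [zero_pow hp.ne_zero] at h
      exact pow_ne_zero p h0 h.symm
    have hco : Nat.gcd p 12 = 1 := by
      have a2 : Nat.Coprime p 2 := (Nat.coprime_primes hp Nat.prime_two).2 h2
      have a3 : Nat.Coprime p 3 := (Nat.coprime_primes hp Nat.prime_three).2 h3
      exact (a2.mul_right (a2.mul_right a3) : Nat.Coprime p (2 * (2 * 3)))
    have e1 : (c / c1) ^ p = 1 := by
      rw [div_pow, h, div_self (pow_ne_zero p h0)]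
    have e2 : (c / c1) ^ 12 = 1 := k_twelve _ (div_ne_zero hc h0)
    have e3 : (c / c1) ^ Nat.gcd p 12 = 1 := pow_gcd_eq_one.2 ⟨e1, e2⟩
    rw [hco, pow_one] at e3
    exact (div_eq_one_iff_eq h0).1 e3

theorem xsregd_24 (r : ℕ) (h : r ∣ 24) : r ≤ 2 * Nat.gcd r 12 := by
  have hle : r ≤ 24 := Nat.le_of_dvd (by norm_num) h
  interval_cases r <;> first | decide | (exfalso; revert h; decide)

section

variable {V : Type} [AddCommGroup V] [Module K V] [Module.Finite K V]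
  {H : Type} [Group H] [Finite H] (ρ : Representation K H V)

/-- the elements outside `A` of prime order different from `3` modulo the scalars -/
def xsregdT (A : Subgroup H) : Set H :=
  {h | h ∉ A ∧ ∃ p : ℕ, p.Prime ∧ p ≠ 3 ∧ h ^ p ∈ scal ρ}

/-- the eigenvectors -/
def xsregdS (h : H) : Set V := {v | v ≠ 0 ∧ ∃ c : K, ρ h v = c • v}

omit [Module.Finite K V] [Finite H] in
theorem xsregd_ne (h : H) (v : V) (c : K) (h0 : v ≠ 0) (hv : ρ h v = c • v) : c ≠ 0 := by
  rintro rfl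
  have := rho_inv ρ h v
  rw [hv, zero_smul, map_zero] at this
  exact h0 this.symm

theorem xsregd_pow (N : ℕ) (A F : Subgroup H) (hG : GB ρ N A F) (w : V) (h0 : w ≠ 0) (h : H)
    (c : K) (h3 : ¬ 3 ∣ orderOf h) (hw : ρ h w = c • w) (hn : h ∉ scal ρ) :
    ∃ t ∈ xsregdT ρ A, w ∈ xsregdS ρ t := by
  have := scal_normal ρ
  set x : H ⧸ scal ρ := QuotientGroup.mk' (scal ρ) h with hx
  have hm : orderOf x ∣ orderOf h := orderOf_map_dvd _ _
  have hiff : ∀ k : ℕ, h ^ k ∈ scal ρ ↔ orderOf x ∣ k := by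
    intro k
    rw [orderOf_dvd_iff_pow_eq_one, hx, ← map_pow, QuotientGroup.mk'_apply,
      QuotientGroup.eq_one_iff]
  have h1 : orderOf x ≠ 1 := by
    intro e
    apply hn
    have := (hiff 1).2 (by rw [e])
    rwa [pow_one] at this
  have hpos : 0 < orderOf x := orderOf_pos x
  obtain ⟨p, hp, k, hk⟩ := Nat.exists_prime_and_dvd h1
  have hk0 : 0 < k := by
    rcases Nat.eq_zero_or_pos k with e | e
    · rw [e, mul_zero] at hk
      omega
    · exact e
  have hev : ρ (h ^ k) w = c ^ k • w := rho_pow_eig ρ h w c hw k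
  refine ⟨h ^ k, ⟨fun hA => ?_, p, hp, ?_, ?_⟩, h0, _, hev⟩
  · have := (hiff k).1 (eb_A ρ N A F hG _ hA w h0 _ hev)
    have := Nat.le_of_dvd hk0 this
    have := hp.two_le
    nlinarith
  · rintro rfl
    exact h3 (dvd_trans ⟨k, hk⟩ hm)
  · rw [← pow_mul, hiff, hk, mul_comm]

theorem xsregd_mu (N : ℕ) (A F : Subgroup H) (hG : GB ρ N A F) (w : V) (t : H)
    (ht : t ∈ xsregdT ρ A) (hw : w ∈ xsregdS ρ t) :
    Nat.card (scal ρ) ≤ {s | s ∈ xsregdT ρ A ∧ w ∈ xsregdS ρ s}.ncard := by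
  obtain ⟨hA, p, hp, h3, hs⟩ := ht
  obtain ⟨h0, c, hc⟩ := hw
  have hle := (gb_scal ρ N A F hG).1
  have : Nat.card (scal ρ) = (scal ρ : Set H).ncard := rfl
  rw [this]
  refine Set.ncard_le_ncard_of_injOn (fun z => t * z) ?_ (fun a _ b _ e => mul_left_cancel e)
    (Set.toFinite _)
  intro z hz
  have hz' : z ∈ scal ρ := hz
  refine ⟨⟨fun hm => hA ?_, p, hp, h3, ?_⟩, h0, ?_⟩
  · have := A.mul_mem hm (A.inv_mem (hle hz'))
    rwa [mul_inv_cancel_right] at this
  · have hcm : Commute t z := (scal_central ρ hG.inj z hz' t).symm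
    rw [hcm.mul_pow]
    exact (scal ρ).mul_mem hs ((scal ρ).pow_mem hz' p)
  · obtain ⟨a, -, ha⟩ := hz'
    exact ⟨a * c, by rw [rho_mul, ha, map_smul, hc, smul_smul]⟩

theorem xsregd_cnt (A : Subgroup H) (t : H) (ht : t ∈ xsregdT ρ A) (k : ℕ)
    (hk : ∀ c, ed (ρ t) c ≤ k) :
    (xsregdS ρ t).ncard ≤ (13 ^ (Module.finrank K V / 2) - 1) + (13 ^ k - 1) := by
  obtain ⟨-, p, hp, h3, s, -, hs⟩ := ht
  rcases (xsregdS ρ t).eq_empty_or_nonempty with e | ⟨v1, h1, c1, hc1⟩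
  · rw [e, Set.ncard_empty]
    exact Nat.zero_le _
  have hev : ∀ (v : V) (c : K), v ≠ 0 → ρ t v = c • v → c ^ p = s := by
    intro v c h0 hv
    have := rho_pow_eig ρ t v c hv p
    rw [hs] at this
    exact (smul_left_injective K h0 this).symm
  have hc0 : c1 ≠ 0 := xsregd_ne ρ t v1 c1 h1 hc1
  have hsub : xsregdS ρ t ⊆
      {v : V | v ≠ 0 ∧ ρ t v = c1 • v} ∪ {v : V | v ≠ 0 ∧ ρ t v = (-c1) • v} := by
    rintro v ⟨h0, c, hc⟩
    rcases xsregd_pm p hp h3 c c1 hc0 ((hev v c h0 hc).trans (hev v1 c1 h1 hc1).symm) with e | e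
    · exact Or.inl ⟨h0, e ▸ hc⟩
    · exact Or.inr ⟨h0, e ▸ hc⟩
  have : Finite V := Module.finite_of_finite K
  have hne : c1 ≠ -c1 := by
    intro e
    have e2 : (2 : K) * c1 = 0 := by linear_combination e
    rcases mul_eq_zero.1 e2 with e3 | e3
    · exact absurd e3 (by decide)
    · exact hc0 e3
  have hsum := ed_two (⊤ : Submodule K V) (ρ t) c1 (-c1) hne
  rw [edOn_top, edOn_top, finrank_top] at hsum
  have hb := (Set.ncard_le_ncard hsub (Set.toFinite _)).trans (Set.ncard_union_le _ _)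
  by_cases hs1 : ed (ρ t) c1 ≤ Module.finrank K V / 2
  · exact hb.trans (add_le_add (ev_ncard (ρ t) c1 _ hs1) (ev_ncard (ρ t) (-c1) _ (hk _)))
  · have hs2 : ed (ρ t) (-c1) ≤ Module.finrank K V / 2 := by omega
    rw [add_comm]
    exact hb.trans (add_le_add (ev_ncard (ρ t) c1 _ (hk _)) (ev_ncard (ρ t) (-c1) _ hs2))

theorem xsregd_23 (A F : Subgroup H) (hS : SD A F) (hA : FreeOn ρ A) (e : ℕ)
    (he : A.relIndex F = e ^ 2) (ho : Odd e) (t : H)
    (hC : t ∈ Subgroup.centralizer (A : Set H)) (hF : t ∉ F) (c : K) :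
    ed (ρ t) c ≤ 2 * Module.finrank K V / 3 := by
  have : ∃ y ∈ F, ⁅t, y⁆ ∉ A := by
    by_contra hn
    exact hF (hS.ff t hC (fun y hy => by
      by_contra h
      exact hn ⟨y, hy, h⟩))
  obtain ⟨y, hy, hyA⟩ := this
  have h1 : ⁅y, t⁆ ∉ A := by
    intro h
    apply hyA
    rw [← commutatorElement_inv]
    exact A.inv_mem h
  have h2 : ⁅y, t⁆ ∈ F := by
    have : ⁅y, t⁆ = y * (t * y⁻¹ * t⁻¹) := by
      rw [commutatorElement_def]
      group
    rw [this]
    exact F.mul_mem hy (hS.nF.conj_mem _ (F.inv_mem hy) t)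
  have := eb_23 ρ A F hS hA t y hy h1 (e ^ 2) ho.pow (pow_e A F hS e he _ h2) c
  omega

theorem xsregd_coset (N : ℕ) (A F : Subgroup H) (hG : GB ρ N A F) (t s : H) (a b : K)
    (ha : Module.finrank K V < 2 * ed (ρ t) a) (hb : Module.finrank K V < 2 * ed (ρ s) b)
    (hA : t⁻¹ * s ∈ A) : t⁻¹ * s ∈ scal ρ := by
  have h1 := Submodule.finrank_sup_add_finrank_inf_eq
    (Module.End.eigenspace (ρ t) a) (Module.End.eigenspace (ρ s) b)
  have h2 := Submodule.finrank_le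
    (Module.End.eigenspace (ρ t) a ⊔ Module.End.eigenspace (ρ s) b)
  have h3 : Module.End.eigenspace (ρ t) a ⊓ Module.End.eigenspace (ρ s) b ≠ ⊥ := by
    intro e
    rw [e, finrank_bot] at h1
    unfold ed at ha hb
    omega
  obtain ⟨v, ⟨hv1, hv2⟩, h0⟩ := Submodule.exists_mem_ne_zero_of_ne_bot h3
  have e1 : ρ t v = a • v := Module.End.mem_eigenspace_iff.1 hv1
  have e2 : ρ s v = b • v := Module.End.mem_eigenspace_iff.1 hv2
  have a0 : a ≠ 0 := xsregd_ne ρ t v a h0 e1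
  have e3 : ρ t⁻¹ v = a⁻¹ • v := by
    rw [eq_inv_smul_iff₀ a0, ← map_smul, ← e1, rho_inv]
  refine eb_A ρ N A F hG _ hA v h0 (b * a⁻¹) ?_
  rw [rho_mul, e2, map_smul, e3, smul_smul]

end

theorem regD {V : Type} [AddCommGroup V] [Module K V] [Module.Finite K V]
    {H : Type} [Group H] [Finite H] (ρ : Representation K H V) (N : ℕ) (A F : Subgroup H) (hG : GB ρ N A F) (e : ℕ) (he : A.relIndex F = e ^ 2) (ho : Odd e) (h2 : 2 * e ≤ Module.finrank K V) :
    (∃ w : V, w ≠ 0 ∧ ∀ (h : H) (c : K), ¬ 3 ∣ orderOf h → ρ h w = c • w → h ∈ scal ρ) ∧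
      Nat.card H < 13 ^ Module.finrank K V - 1 := by
  classical
  obtain ⟨g, hg, hge, hidx, hr, -, hg2⟩ := lam ρ N A F hG e he
  obtain ⟨I, M, hI, hM, h3, hC, hcnt⟩ := cntA A F hG.sd e he ho
  obtain ⟨hle, hmu, -⟩ := gb_scal ρ N A F hG
  have hn : Nat.card H ≤ g * (Nat.card A * e ^ 2 * I) := by
    rw [← (Subgroup.centralizer (A : Set H)).index_mul_card]
    exact Nat.mul_le_mul (Nat.le_of_dvd hg hidx) hC
  obtain ⟨hnum, hlt⟩ := numD (Module.finrank K V) e g I M (Nat.card A) (Nat.gcd (Nat.card A) 12)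
    (Nat.card H) ho hg h2 hge hI hM h3 (Nat.gcd_pos_of_pos_right _ (by norm_num))
    (Nat.gcd_le_right _ (by norm_num)) hr (fun h => xsregd_24 _ (hg2 h)) hn
  refine ⟨?_, hlt⟩
  by_contra hno
  rw [← hmu] at hnum
  set T : Finset H := (Set.toFinite (xsregdT ρ A)).toFinset with hT
  have hmT : ∀ t, t ∈ T ↔ t ∈ xsregdT ρ A := fun t => Set.Finite.mem_toFinset _
  have hcov := cover T (xsregdS ρ) (Nat.card (scal ρ)) (by
    intro v h0
    have : ∃ (h : H) (c : K), ¬ 3 ∣ orderOf h ∧ ρ h v = c • v ∧ h ∉ scal ρ := by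
      by_contra hn
      refine hno ⟨v, h0, fun h c a b => ?_⟩
      by_contra hh
      exact hn ⟨h, c, a, b, hh⟩
    obtain ⟨h, c, a, b, hh⟩ := this
    obtain ⟨t, ht, hv⟩ := xsregd_pow ρ N A F hG v h0 h c a b hh
    simp only [hmT]
    exact xsregd_mu ρ N A F hG v t ht hv)
  set P : H → Prop := fun t => ∃ c, Module.finrank K V < 2 * ed (ρ t) c with hP
  have hbig : ∀ t ∈ xsregdT ρ A, P t → t ∈ Subgroup.centralizer (A : Set H) ∧ t ∉ F := by
    rintro t ht ⟨c, hc⟩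
    by_contra hn
    have := eb_half ρ A F hG.sd hG.free t ht.1 (by tauto) c
    omega
  have hB : (T.filter P).card ≤ Nat.card (scal ρ) * e ^ 2 * M := by
    rw [← Set.ncard_coe_finset]
    refine hcnt _ _ ?_ ?_
    · intro t ht
      obtain ⟨h1, h2⟩ := Finset.mem_filter.1 ht
      rw [hmT] at h1
      obtain ⟨a, b⟩ := hbig t h1 h2
      obtain ⟨-, p, hp, hp3, hs⟩ := h1
      exact ⟨a, b, p, hp, hp3, hle hs⟩
    · intro t ht
      obtain ⟨-, a, ha⟩ := Finset.mem_filter.1 ht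
      have : Nat.card (scal ρ) = (scal ρ : Set H).ncard := rfl
      rw [this]
      refine Set.ncard_le_ncard_of_injOn (fun s => t⁻¹ * s) ?_
        (fun a _ b _ e => mul_left_cancel e) (Set.toFinite _)
      rintro s ⟨hs, hsA⟩
      obtain ⟨-, b, hb⟩ := Finset.mem_filter.1 hs
      exact xsregd_coset ρ N A F hG t s a b ha hb hsA
  have hTc : T.card ≤ Nat.card H - Nat.card A := by
    have h1 := Set.ncard_add_ncard_compl (A : Set H) (Set.toFinite _) (Set.toFinite _)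
    have h2 : Nat.card A = (A : Set H).ncard := rfl
    have h4 : T.card ≤ (A : Set H)ᶜ.ncard := by
      rw [← Set.ncard_coe_finset]
      exact Set.ncard_le_ncard (fun t ht => ((hmT t).1 ht).1) (Set.toFinite _)
    omega
  have hsum : ∑ t ∈ T, (xsregdS ρ t).ncard ≤ ∑ t ∈ T, (2 * (13 ^ (Module.finrank K V / 2) - 1) +
      if P t then 13 ^ (2 * Module.finrank K V / 3) - 1 else 0) := by
    refine Finset.sum_le_sum fun t ht => ?_
    rw [hmT] at ht
    by_cases hp : P t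
    · obtain ⟨a, b⟩ := hbig t ht hp
      have := xsregd_cnt ρ A t ht _ (xsregd_23 ρ A F hG.sd hG.free e he ho t a b)
      rw [if_pos hp]
      omega
    · have := xsregd_cnt ρ A t ht (Module.finrank K V / 2) (fun c => by
        have : ¬ Module.finrank K V < 2 * ed (ρ t) c := fun h => hp ⟨c, h⟩
        omega)
      rw [if_neg hp]
      omega
  rw [Finset.sum_add_distrib, ← Finset.sum_filter, Finset.sum_const, Finset.sum_const,
    smul_eq_mul, smul_eq_mul] at hsum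
  have k1 := Nat.mul_le_mul_right (2 * (13 ^ (Module.finrank K V / 2) - 1)) hTc
  have k2 := Nat.mul_le_mul_right (13 ^ (2 * Module.finrank K V / 3) - 1) hB
  have k3 : (Nat.card H - Nat.card A) * (2 * (13 ^ (Module.finrank K V / 2) - 1)) =
      2 * (Nat.card H - Nat.card A) * (13 ^ (Module.finrank K V / 2) - 1) := by ring
  have k4 := hcov.trans (hsum.trans (add_le_add k1 k2))
  rw [k3] at k4
  exact absurd hnum (not_lt.2 k4)

end Pool.Agent.N9181
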