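import Pool.Agent.MP_9181f8_al.S.H2b
import Pool.Agent.MP_9181f8_al.S.H2e
import Pool.Agent.MP_9181f8_al.S.H2f
import Pool.Agent.MP_9181f8_al.S.MonoPair
import Pool.Agent.MP_9181f8_al.S.Kill3
import Pool.Agent.MP_9181f8_al.S.KillC
import Pool.Agent.MP_9181f8_al.S.RegD
import Pool.Agent.MP_9181f8_al.S.EHb
import Pool.Agent.MP_9181f8_al.S.HSb

namespace Pool.Agent.N9181

open scoped commutatorElement

theorem kill2 {V : Type} [AddCommGroup V] [Module K V] [Module.Finite K V]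
    {H : Type} [Group H] [Finite H] [Group.IsSolvable H] (ρ : Representation K H V) (N : ℕ) (A F : Subgroup H) (hG : GB ρ N A F) (e : ℕ) (he : A.relIndex F = e ^ 2) (h2 : 2 ∣ e) (hE5 : HEP ρ 5) (hK : DK ρ) (hI : DIH (Module.finrank K V) N) : False := by
  have he0 : e ≠ 0 := by
    rintro rfl
    exact Subgroup.FiniteIndex.index_ne_zero (H := A.subgroupOf F) (by
      simpa [Subgroup.relIndex] using he)
  obtain ⟨E, -, hE, hi⟩ := exists_EH ρ N A F hG e he 2 4 (Or.inl ⟨rfl, rfl⟩)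
  have hne : (scal ρ).relIndex E ≠ 1 := by
    rw [hi, Ne, Nat.pow_eq_one, Nat.pow_eq_one]
    have := Nat.prime_two.factorization_pos_of_dvd he0 h2
    omega
  obtain ⟨ζ, L, X, Z, hH, -⟩ := hs_rep ρ 2 4 (-1) (Or.inl ⟨rfl, rfl, rfl⟩) E hE hne
  obtain ⟨J, B, C, hD⟩ := h2_data ρ E hE ζ L X Z hH
  obtain ⟨τ, hτ⟩ := exists_res ρ B C (h2_inv ρ E hE ζ L X Z hH J B C hD)
  have hC := h2_clb ρ hG.cop N hG.dvd hG.pos hG.sq hE5 hK E hE ζ L X Z hH J B C hD τ hτ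
  have hC0 : ∃ v : C, v ≠ 0 := by
    obtain ⟨v, hv, h0⟩ := Submodule.exists_mem_ne_zero_of_ne_bot hD.ne
    exact ⟨⟨v, hv⟩, fun e => h0 (congrArg Subtype.val e)⟩
  obtain ⟨a, b, g, p1, p2, p3, p4, p5⟩ := mono_pair τ hC.ep hC0
    (hI C B τ (h2_lt ρ E hE ζ L X Z hH J B C hD) hC hC0)
  refine h2_fin ρ hE5 E hE ζ L X Z hH J B C hD a b a.2 b.2
    (fun x y h => p1 x y (Subtype.ext h)) g g.2 ?_ ?_ (fun h hh h1 h2 => ?_) fun h hh h1 h2 => ?_
  · rw [← hτ, p2]; rfl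
  · rw [← hτ, p3]; rfl
  · exact p4 ⟨h, hh⟩ (Subtype.ext ((hτ ⟨h, hh⟩ a).trans h1)) (Subtype.ext ((hτ ⟨h, hh⟩ b).trans h2))
  · have key : ∀ v : C, ρ h v ∈ Submodule.span K {(a : V), (b : V)} →
        τ ⟨h, hh⟩ v ∈ Submodule.span K {a, b} := fun v hv => by
      obtain ⟨x, y, e⟩ := Submodule.mem_span_pair.1 hv
      exact Submodule.mem_span_pair.2 ⟨x, y, Subtype.ext (e.trans (hτ ⟨h, hh⟩ v).symm)⟩
    rcases p5 ⟨h, hh⟩ (key a h1) (key b h2) with ⟨x, y, e1, e2⟩ | ⟨x, y, e1, e2⟩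
    · exact Or.inl ⟨x, y, (hτ ⟨h, hh⟩ a).symm.trans (congrArg Subtype.val e1),
        (hτ ⟨h, hh⟩ b).symm.trans (congrArg Subtype.val e2)⟩
    · exact Or.inr ⟨x, y, (hτ ⟨h, hh⟩ a).symm.trans (congrArg Subtype.val e1),
        (hτ ⟨h, hh⟩ b).symm.trans (congrArg Subtype.val e2)⟩

theorem kill {V : Type} [AddCommGroup V] [Module K V] [Module.Finite K V]
    {H : Type} [Group H] [Finite H] [Group.IsSolvable H] (ρ : Representation K H V) (N : ℕ) (A F : Subgroup H) (hG : GB ρ N A F) (hE5 : HEP ρ 5) (hK : DK ρ) (hI : DIH (Module.finrank K V) N) : Module.finrank K V = 1 := by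
  obtain ⟨e, he0, he, hed, hp⟩ := gb_e ρ N A F hG
  by_cases h2 : 2 ∣ e
  · exact (kill2 ρ N A F hG e he h2 hE5 hK hI).elim
  have ho : Odd e := Nat.odd_iff.2 (by omega)
  by_cases hd : 2 * e ≤ Module.finrank K V
  · obtain ⟨⟨w, w0, hw⟩, hc⟩ := regD ρ N A F hG e he ho hd
    exact (kill_cnt ρ hG.inj hE5 hK w w0 hw hc).elim
  have hd0 : 0 < Module.finrank K V := Module.finrank_pos_iff_exists_ne_zero.2 hG.ne
  have hde : Module.finrank K V = e := by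
    obtain ⟨c, hc⟩ := hed
    have h1 : c = 1 := by
      rcases c with _ | _ | c
      · omega
      · rfl
      · exact absurd (by rw [hc]; nlinarith) hd
    rw [hc, h1, mul_one]
  obtain ⟨g, hg⟩ := lam ρ N A F hG e he
  rw [hde] at hg
  obtain ⟨h12, -, -⟩ := gb_one ρ N A F hG e g he0 hg
  have h3 : e = 3 ^ e.primeFactorsList.length := by
    refine Nat.eq_prime_pow_of_unique_prime_dvd he0.ne' fun {p} pp hpe => ?_
    have h4 : p ∣ 2 ^ 2 * 3 := (hp p pp hpe).trans h12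
    rcases (Nat.Prime.dvd_mul pp).1 h4 with h | h
    · have := (Nat.prime_dvd_prime_iff_eq pp Nat.prime_two).1 (pp.dvd_of_dvd_pow h)
      exact absurd (this ▸ hpe) h2
    · exact (Nat.prime_dvd_prime_iff_eq pp Nat.prime_three).1 h
  generalize e.primeFactorsList.length = k at h3
  rcases k with _ | k
  · rw [hde, h3, pow_zero]
  exfalso
  obtain ⟨E, -, hE, hi⟩ := exists_EH ρ N A F hG e he 3 3 (Or.inr ⟨rfl, rfl⟩)
  rw [h3, Nat.Prime.factorization_pow Nat.prime_three, Finsupp.single_eq_same] at hi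
  obtain ⟨ζ, L, X, Z, hH, hζ⟩ := hs_rep ρ 3 3 3 (Or.inr ⟨rfl, rfl, rfl⟩) E hE (by
    rw [hi, Ne, Nat.pow_eq_one, Nat.pow_eq_one]
    omega)
  obtain rfl := hζ rfl
  have h5 : Nat.card L = 3 ^ k := by
    have h6 := hH.sz
    rw [hi, pow_succ' 3 k, mul_pow] at h6
    exact (Nat.pow_left_injective two_ne_zero (Nat.eq_of_mul_eq_mul_left (by norm_num) h6)).symm
  refine kill3 ρ hE5 hK E hE L X Z hH ?_
  have h7 := hH.dim
  rw [hde, h3, h5, pow_succ] at h7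
  exact (Nat.eq_of_mul_eq_mul_left (by positivity) h7).symm

end Pool.Agent.N9181
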