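import Pool.Agent.MP_9181f8_al.S.Proj

namespace Pool.Agent.N9181

open scoped commutatorElement

theorem xslines_ne {V : Type} [AddCommGroup V] [Module K V]
    {H : Type} [Group H] (ρ : Representation K H V) (h : H) (w : V) (a : K) (h0 : w ≠ 0)
    (ha : ρ h w = a • w) : a ≠ 0 := by
  rintro rfl
  apply h0
  rw [← rho_inv ρ h w, ha, zero_smul, map_zero]

theorem xslines_odd : ∀ t : K, t ≠ 0 → t ^ 1 ≠ 12 → t ^ 2 ≠ 12 → t ^ 3 ≠ 12 → t ^ 6 ≠ 12 →
    t ^ 3 = 1 := by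
  decide

theorem xslines_ar (d x x' : K) (hx : x ≠ 0) (h : (d * d * x' * x⁻¹) ^ 3 = 1) :
    x ^ 6 = x' ^ 6 := by
  have hd : d ≠ 0 := by
    rintro rfl
    simp at h
  have h1 : (d * d * x' * x⁻¹) * x = d * d * x' := inv_mul_cancel_right₀ hx _
  have h2 := k_twelve d hd
  calc x ^ 6 = ((d * d * x' * x⁻¹) ^ 3) ^ 2 * x ^ 6 := by rw [h, one_pow, one_mul]
    _ = ((d * d * x' * x⁻¹) * x) ^ 6 := by ring
    _ = d ^ 12 * x' ^ 6 := by rw [h1]; ring
    _ = x' ^ 6 := by rw [h2, one_mul]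

theorem l_swap {V : Type} [AddCommGroup V] [Module K V] [Module.Finite K V]
    {H : Type} [Group H] [Finite H] (ρ : Representation K H V) (hE5 : HEP ρ 5) {I : Type} [Fintype I] [MulAction H I] (W : I → Submodule K V) (hB : BD ρ I W) (i k : I) (hik : i ≠ k) (hR : Rel ρ (W i) (W k)) (w u : V)
    (hw : w ∈ W i) (hu : u ∈ W k) (h0 : w ≠ 0) (h0' : u ≠ 0) :
    ∃ g : H, ρ g w = (5 : K) • u ∧ ρ g u = (5 : K) • w := by
  obtain ⟨g, hg⟩ := hE5 (w + u)
  rw [smul_add] at hg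
  rcases pair_act ρ W hB i k hik w u _ _ hw hu ((W i).smul_mem 5 hw) ((W k).smul_mem 5 hu)
    h0 h0' g hg with ⟨-, -, h1, h2⟩ | ⟨-, -, h1, h2⟩
  · exact absurd h2 (hR w hw u hu h0 h0' g h1)
  · exact ⟨g, h1, h2⟩

theorem l_diag {V : Type} [AddCommGroup V] [Module K V] [Module.Finite K V]
    {H : Type} [Group H] [Finite H] (ρ : Representation K H V) (hE5 : HEP ρ 5) {I : Type} [Fintype I] [MulAction H I] (W : I → Submodule K V) (hB : BD ρ I W) (i k : I) (hik : i ≠ k) (hR : Rel ρ (W i) (W k)) (w u : V)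
    (hw : w ∈ W i) (hu : u ∈ W k) (h0 : w ≠ 0) (h0' : u ≠ 0) (x : K) (hx : x ≠ 0) :
    ∃ g : H, ρ g w = x • w ∧ ρ g u = x⁻¹ • u := by
  obtain ⟨g, h1, h2⟩ := l_swap ρ hE5 W hB i k hik hR w u hw hu h0 h0'
  obtain ⟨g', h3, h4⟩ := l_swap ρ hE5 W hB i k hik hR w (x • u) hw ((W k).smul_mem x hu) h0
    (smul_ne_zero hx h0')
  refine ⟨g⁻¹ * g', ?_, ?_⟩
  · rw [rho_mul, h3, smul_comm, map_smul, ← h1, rho_inv]
  · rw [eq_inv_smul_iff₀ hx, ← map_smul, rho_mul, h4, ← h2, rho_inv]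

theorem rel_mu3 {V : Type} [AddCommGroup V] [Module K V] [Module.Finite K V]
    {H : Type} [Group H] [Finite H] (ρ : Representation K H V) (hE5 : HEP ρ 5) {I : Type} [Fintype I] [MulAction H I] (W : I → Submodule K V) (hB : BD ρ I W) (i k : I) (hik : i ≠ k) (hR : Rel ρ (W i) (W k)) (w u : V)
    (hw : w ∈ W i) (hu : u ∈ W k) (h0 : w ≠ 0) (h0' : u ≠ 0) (h : H) (a b : K)
    (ha : ρ h w = a • w) (hb : ρ h u = b • u) : (a * b) ^ 3 = 1 := by
  have ha0 := xslines_ne ρ h w a h0 ha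
  have hb0 := xslines_ne ρ h u b h0' hb
  have key : ∀ j : ℕ, (a * b) ^ j ≠ 12 := by
    intro j hj
    have h5 : (5 : K) ≠ 0 := by decide
    have haj : a ^ j ≠ 0 := pow_ne_zero j ha0
    obtain ⟨g, h1, h2⟩ := l_diag ρ hE5 W hB i k hik hR w u hw hu h0 h0' (5 * (a ^ j)⁻¹)
      (mul_ne_zero h5 (inv_ne_zero haj))
    refine hR w hw u hu h0 h0' (h ^ j * g) ?_ ?_
    · rw [rho_mul, h1, map_smul, rho_pow_eig ρ h w a ha, smul_smul, inv_mul_cancel_right₀ haj]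
    · rw [rho_mul, h2, map_smul, rho_pow_eig ρ h u b hb, smul_smul, mul_inv, inv_inv, mul_assoc,
        ← mul_pow, hj]
      congr 1
      rw [inv_mul_eq_iff_eq_mul₀ h5]
      decide
  exact xslines_odd (a * b) (mul_ne_zero ha0 hb0) (key 1) (key 2) (key 3) (key 6)

theorem l_ng {V : Type} [AddCommGroup V] [Module K V] [Module.Finite K V]
    {H : Type} [Group H] [Finite H] (ρ : Representation K H V) (hE5 : HEP ρ 5) {I : Type} [Fintype I] [MulAction H I] (W : I → Submodule K V) (hB : BD ρ I W) (i k : I) (hik : i ≠ k) (hR : Rel ρ (W i) (W k)) (w u : V)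
    (hw : w ∈ W i) (hu : u ∈ W k) (h0 : w ≠ 0) (h0' : u ≠ 0) (h : H) (x x' c : K) (hx : x ≠ 0)
    (hh : ρ h (w + x • u) = c • (w + x' • u)) : x ^ 6 = x' ^ 6 := by
  rw [smul_add, smul_smul] at hh
  rcases pair_act ρ W hB i k hik w (x • u) _ _ hw ((W k).smul_mem x hu) ((W i).smul_mem c hw)
    ((W k).smul_mem (c * x') hu) h0 (smul_ne_zero hx h0') h hh with
    ⟨-, -, h1, h2⟩ | ⟨-, -, h1, h2⟩
  · have h3 : ρ h u = (x⁻¹ * (c * x')) • u := by
      rw [← smul_smul, eq_inv_smul_iff₀ hx, ← map_smul, h2]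
    have h4 := rel_mu3 ρ hE5 W hB i k hik hR w u hw hu h0 h0' h _ _ h1 h3
    refine xslines_ar c x x' hx ?_
    rw [← h4]
    ring
  · obtain ⟨g, h5, h6⟩ := l_swap ρ hE5 W hB i k hik hR w u hw hu h0 h0'
    have h3 : ρ h u = (x⁻¹ * c) • w := by
      rw [← smul_smul, eq_inv_smul_iff₀ hx, ← map_smul, h2]
    have h7 : ρ (g * h) w = (c * x' * 5) • w := by
      rw [rho_mul, h1, map_smul, h6, smul_smul]
    have h8 : ρ (g * h) u = (x⁻¹ * c * 5) • u := by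
      rw [rho_mul, h3, map_smul, h5, smul_smul]
    have h4 := rel_mu3 ρ hE5 W hB i k hik hR w u hw hu h0 h0' (g * h) _ _ h7 h8
    refine xslines_ar (5 * c) x x' hx ?_
    rw [← h4]
    ring

theorem rel_symm {V : Type} [AddCommGroup V] [Module K V] [Module.Finite K V]
    {H : Type} [Group H] [Finite H] (ρ : Representation K H V) (U U' : Submodule K V) (h : Rel ρ U U') : Rel ρ U' U := by
  intro w hw u hu h0 h0' γ h1 h2
  exact h u hu w hw h0' h0 γ h2 h1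

theorem rel_map {V : Type} [AddCommGroup V] [Module K V] [Module.Finite K V]
    {H : Type} [Group H] [Finite H] (ρ : Representation K H V) {I : Type} [Fintype I] [MulAction H I] (W : I → Submodule K V) (hB : BD ρ I W) (i k : I) (h : Rel ρ (W i) (W k)) (g : H) :
    Rel ρ (W (g • i)) (W (g • k)) := by
  intro w hw u hu h0 h0' γ h1 h2
  have hw' : ρ g⁻¹ w ∈ W i := by simpa using hB.map g⁻¹ _ w hw
  have hu' : ρ g⁻¹ u ∈ W k := by simpa using hB.map g⁻¹ _ u hu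
  have hne : ∀ v : V, v ≠ 0 → ρ g⁻¹ v ≠ 0 := fun v hv e => hv (by
    rw [← rho_inv' ρ g v, e, map_zero])
  refine h _ hw' _ hu' (hne w h0) (hne u h0') (g⁻¹ * γ * g) ?_ ?_
  · rw [rho_mul, rho_inv', rho_mul, h1, map_smul]
  · rw [rho_mul, rho_inv', rho_mul, h2, map_smul]

end Pool.Agent.N9181
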