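import Pool.Agent.MP_9181f8_al.S.Lines

namespace Pool.Agent.N9181

open scoped commutatorElement

theorem xsmonolp_cyc {H I : Type} [Group H] [MulAction H I] (n : ℕ) : ∀ (g : H) (i j k : I),
    g • i = j → g • j = k → g • k = i → i ≠ j → j ≠ k → k ≠ i → g ^ (2 ^ n) ≠ 1 := by
  induction n with
  | zero =>
    intro g i j k h _ _ hij _ _ e
    rw [pow_zero, pow_one] at e
    rw [e, one_smul] at h
    exact hij h
  | succ n ih =>
    intro g i j k h1 h2 h3 hij hjk hki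
    rw [pow_succ', pow_mul, pow_two]
    exact ih _ i k j (by rw [mul_smul, h1, h2]) (by rw [mul_smul, h3, h1])
      (by rw [mul_smul, h2, h3]) hki.symm hjk.symm hij.symm

theorem xsmonolp_num : ∀ a b c : K, ∃ x y : K, x ≠ 0 ∧ y ≠ 0 ∧ (5 * x) ^ 3 ≠ a ∧
    (5 * (y * x)) ^ 3 ≠ b ∧ (5 * y) ^ 3 ≠ c := by
  decide +kernel

section
variable {V : Type} [AddCommGroup V] [Module K V] [Module.Finite K V] {H : Type} [Group H]
  [Finite H] (ρ : Representation K H V) {I : Type} [Fintype I] [MulAction H I]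
  (W : I → Submodule K V)

theorem xsmonolp_tri (hB : BD ρ I W) {i j k : I} (hij : i ≠ j) (hjk : j ≠ k) (hki : k ≠ i)
    {a b c : V} (ha : a ∈ W i) (hb : b ∈ W j) (hc : c ∈ W k) (h0 : a ≠ 0) {g : H} {ν : K}
    (h : ρ g (a + b + c) = ν • (a + b + c)) :
    (g • i = i ∧ ρ g a = ν • a) ∨ (g • i = j ∧ ρ g a = ν • b) ∨ (g • i = k ∧ ρ g a = ν • c) := by
  obtain ⟨P, -, -, h1, h2, h3⟩ := exists_proj ρ W hB
  have h4 := h3 g i (a + b + c)
  rw [h, map_smul, map_add, map_add, map_add (P i), map_add (P i), h1 i a ha, h2 i j hij b hb,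
    h2 i k hki.symm c hc, add_zero, add_zero] at h4
  by_cases e1 : g • i = i
  · rw [e1, h1 i a ha, h2 i j hij b hb, h2 i k hki.symm c hc, add_zero, add_zero] at h4
    exact Or.inl ⟨e1, h4.symm⟩
  by_cases e2 : g • i = j
  · rw [e2, h1 j b hb, h2 j i hij.symm a ha, h2 j k hjk c hc, zero_add, add_zero] at h4
    exact Or.inr (Or.inl ⟨e2, h4.symm⟩)
  by_cases e3 : g • i = k
  · rw [e3, h1 k c hc, h2 k i hki a ha, h2 k j hjk.symm b hb, zero_add, zero_add] at h4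
    exact Or.inr (Or.inr ⟨e3, h4.symm⟩)
  rw [h2 _ i e1 a ha, h2 _ j e2 b hb, h2 _ k e3 c hc, add_zero, add_zero, smul_zero] at h4
  exact absurd h4.symm (xcomp_ne ρ g a h0)

theorem xsmonolp_cmp (hE5 : HEP ρ 5) (hB : BD ρ I W) {j l : I} (hjl : j ≠ l)
    (hR : Rel ρ (W j) (W l)) {w u : V} (hw : w ∈ W j) (hu : u ∈ W l) (h0 : w ≠ 0) (h0' : u ≠ 0)
    (t : V) : ∃ c : K, ∀ (α : K) (g : H), α ≠ 0 → ρ g w = (5 : K) • w → ρ g u = α • t →
      α ^ 3 = c := by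
  by_cases h : ∃ (β : K) (g : H), β ≠ 0 ∧ ρ g w = (5 : K) • w ∧ ρ g u = β • t
  · obtain ⟨β, g', hβ, h1, h2⟩ := h
    refine ⟨β ^ 3, fun α g _ h3 h4 => ?_⟩
    have h5 := rel_mu3 ρ hE5 W hB j l hjl hR w u hw hu h0 h0' (g'⁻¹ * g) 1 (α / β)
      (by rw [rho_mul, h3, ← h1, rho_inv, one_smul])
      (by rw [rho_mul, h4, ← div_mul_cancel₀ α hβ, mul_smul, ← h2, map_smul, rho_inv,
        mul_div_cancel_right₀ _ hβ])
    rwa [one_mul, div_pow, div_eq_one_iff_eq (pow_ne_zero 3 hβ)] at h5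
  · exact ⟨0, fun α g h1 h2 h3 => absurd ⟨α, g, h1, h2, h3⟩ h⟩

end

theorem rel_uniq {V : Type} [AddCommGroup V] [Module K V] [Module.Finite K V]
    {H : Type} [Group H] [Finite H] (ρ : Representation K H V) (hE5 : HEP ρ 5) {I : Type} [Fintype I] [MulAction H I] (W : I → Submodule K V) (hB : BD ρ I W) (h1 : ∀ i, Module.finrank K (W i) = 1) (i k k' : I) (hk : k ≠ i) (hk' : k' ≠ i)
    (hR : Rel ρ (W i) (W k)) (hR' : Rel ρ (W i) (W k')) : k = k' := by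
  by_contra hkk
  choose r hr hr0 using fun j => (Submodule.ne_bot_iff _).1 (hB.ne j)
  obtain ⟨c0, hA⟩ := xsmonolp_cmp ρ W hE5 hB hk.symm hR (hr i) (hr k) (hr0 i) (hr0 k) (r k')
  obtain ⟨a0, hB1⟩ := xsmonolp_cmp ρ W hE5 hB hk' (rel_symm ρ _ _ hR') (hr k') (hr i) (hr0 k')
    (hr0 i) (r k)
  obtain ⟨b0, hC⟩ := xsmonolp_cmp ρ W hE5 hB hk (rel_symm ρ _ _ hR) (hr k) (hr i) (hr0 k)
    (hr0 i) (r k')
  obtain ⟨x, y, hx, hy, n1, n2, n3⟩ := xsmonolp_num a0 b0 c0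
  have h5 : (5 : K) ≠ 0 := by decide
  have hyx := mul_ne_zero hy hx
  have mb := (W k).smul_mem x (hr k)
  have mc := (W k').smul_mem (y * x) (hr k')
  have zb := smul_ne_zero hx (hr0 k)
  have zc := smul_ne_zero hyx (hr0 k')
  obtain ⟨g, n, hg, hv⟩ := ep2 ρ hE5 (r i + x • r k + (y * x) • r k')
  have t1 := xsmonolp_tri ρ W hB hk.symm hkk hk' (hr i) mb mc (hr0 i) hv
  have t2 := xsmonolp_tri ρ W hB hk hk'.symm (Ne.symm hkk) mb (hr i) mc zb
    (by rwa [add_comm (x • r k)])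
  have t3 := xsmonolp_tri ρ W hB hk' hk.symm hkk mc (hr i) mb zc
    (by rwa [add_assoc, add_comm ((y * x) • r k')])
  have hi : ∀ {p q s : I}, g • p = s → g • q = s → p = q := fun e e' =>
    MulAction.injective g (e.trans e'.symm)
  have hs : ∀ {z : K} {v : V}, z ≠ 0 → ρ g (z • v) = (5 : K) • z • v → ρ g v = (5 : K) • v :=
    fun hz e => smul_right_injective V hz (by rwa [map_smul, smul_comm] at e)
  rcases t1 with ⟨e1, f1⟩ | ⟨e1, f1⟩ | ⟨e1, f1⟩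
  · rcases t2 with ⟨e2, f2⟩ | ⟨e2, f2⟩ | ⟨e2, f2⟩
    · exact hR _ (hr i) _ mb (hr0 i) zb g f1 f2
    · exact hk (hi e2 e1)
    · refine n3 (hA _ g (mul_ne_zero h5 hy) f1 (smul_right_injective V hx ?_))
      rw [map_smul, smul_smul, ← mul_assoc, mul_comm, mul_smul] at f2
      exact f2
  · rcases t3 with ⟨e3, f3⟩ | ⟨e3, f3⟩ | ⟨e3, f3⟩
    · exact n1 (hB1 _ g (mul_ne_zero h5 hx) (hs hyx f3) (by rw [f1, smul_smul]))
    · rcases t2 with ⟨e2, -⟩ | ⟨e2, -⟩ | ⟨e2, -⟩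
      · exact hk (hi e2 e1)
      · exact hkk (hi e2 e3)
      · exact xsmonolp_cyc n g i k k' e1 e2 e3 hk.symm hkk hk' hg
    · exact hk' (hi e3 e1)
  · rcases t2 with ⟨e2, f2⟩ | ⟨e2, f2⟩ | ⟨e2, f2⟩
    · exact n2 (hC _ g (mul_ne_zero h5 hyx) (hs hx f2) (by rw [f1, smul_smul]))
    · rcases t3 with ⟨e3, -⟩ | ⟨e3, -⟩ | ⟨e3, -⟩
      · exact hk' (hi e3 e1)
      · exact hkk (hi e2 e3)
      · exact xsmonolp_cyc n g i k' k e1 e3 e2 hk'.symm (Ne.symm hkk) hk hg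
    · exact hk (hi e2 e1)

theorem mono_lp {V : Type} [AddCommGroup V] [Module K V] [Module.Finite K V]
    {H : Type} [Group H] [Finite H] (ρ : Representation K H V) (hE5 : HEP ρ 5) (hM : Mono ρ) :
    ∃ (I : Type) (_ : Fintype I) (_ : MulAction H I) (W : I → Submodule K V) (π : I → I),
      LP ρ I W π := by
  obtain ⟨I, _, _, W, hB, h1, h2⟩ := hM
  choose π h3 h4 using h2
  exact ⟨I, inferInstance, _, W, π, hB, h1, h3,
    fun i => rel_uniq ρ hE5 W hB h1 (π i) _ _ (h3 _) (h3 i).symm (h4 _) (rel_symm ρ _ _ (h4 i)),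
    fun h i => rel_uniq ρ hE5 W hB h1 (h • i) _ _ (h3 _) ((MulAction.injective h).ne (h3 i))
      (h4 _) (rel_map ρ W hB _ _ (h4 i) h), h4⟩

end Pool.Agent.N9181
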