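import Pool.Agent.MP_9181f8_al.S.HSa

namespace Pool.Agent.N9181

open scoped commutatorElement

theorem xso3k_fix {Q : Type} [Group Q] [Finite Q] (P M : Subgroup Q) (hP : IsPGroup 3 P)
    (hM : M.Normal) (m : Q) (hm : m ∈ M) (h1 : m ≠ 1) (h3 : m ^ 3 = 1) :
    ∃ b ∈ M, b ≠ 1 ∧ ∀ x ∈ P, x * b * x⁻¹ = b := by
  let _ : MulAction P M :=
    { smul := fun x b => ⟨x * b * (x : Q)⁻¹, hM.conj_mem _ b.2 x⟩
      one_smul := fun b => Subtype.ext (by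
        show ((1 : P) : Q) * b * ((1 : P) : Q)⁻¹ = b
        simp)
      mul_smul := fun x y b => Subtype.ext (by
        show ((x * y : P) : Q) * b * ((x * y : P) : Q)⁻¹ = x * (y * b * (y : Q)⁻¹) * (x : Q)⁻¹
        simp [mul_assoc]) }
  have hd : 3 ∣ Nat.card M := by
    have ho : orderOf m = 3 := orderOf_eq_prime h3 h1
    rw [← ho]
    exact M.orderOf_dvd_natCard hm
  obtain ⟨b, hb, hne⟩ := hP.exists_fixed_point_of_prime_dvd_card_of_fixed_point M hd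
    (a := 1) (fun x => Subtype.ext (by
      show (x : Q) * ((1 : M) : Q) * (x : Q)⁻¹ = ((1 : M) : Q)
      simp))
  exact ⟨b, b.2, fun h => hne (Subtype.ext h.symm), fun x hx => congrArg Subtype.val (hb ⟨x, hx⟩)⟩

theorem xso3k_comm {H : Type} [Group H] (S : Subgroup H) [S.Normal] (a b : H) :
    ⁅a, b⁆ ∈ S ↔ Commute (QuotientGroup.mk' S a) (QuotientGroup.mk' S b) := by
  rw [← commutatorElement_eq_one_iff_commute, ← map_commutatorElement, QuotientGroup.mk'_apply,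
    QuotientGroup.eq_one_iff]

theorem xso3k_grp {H : Type} [Group H] [Finite H] (S E P : Subgroup H) [S.Normal]
    (hc : ∀ z ∈ S, ∀ h, z * h = h * z) (hE : E.Normal) (pw : ∀ f ∈ E, f ^ 3 = 1)
    (sc : ∀ f ∈ E, ∀ g ∈ E, ⁅f, g⁆ ∈ S)
    (mx : ∀ B : Subgroup H, B.Normal → B ≤ E → (∀ a ∈ B, ∀ b ∈ B, a * b = b * a) → B ≤ S)
    (hP : P.Normal) (h3 : ∀ x ∈ P, ∃ n : ℕ, x ^ (3 ^ n) ∈ S) :
    ∀ x ∈ P, ∀ f ∈ E, ⁅x, f⁆ ∈ S := by
  rw [← Subgroup.commutator_le]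
  by_contra hn
  obtain ⟨m, hm, hmS⟩ := SetLike.not_le_iff_exists.1 hn
  have hME : ⁅P, E⁆ ≤ E := Subgroup.commutator_le_right P E
  have hMn : (⁅P, E⁆ : Subgroup H).Normal := inferInstance
  let π := QuotientGroup.mk' S
  have hπ : Function.Surjective π := QuotientGroup.mk'_surjective S
  have hπ1 : ∀ a, π a = 1 ↔ a ∈ S := fun a => QuotientGroup.eq_one_iff a
  have hPp : IsPGroup 3 (P.map π) := by
    rintro ⟨_, x, hx, rfl⟩
    obtain ⟨n, hn⟩ := h3 x hx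
    exact ⟨n, Subtype.ext (by
      show (π x) ^ (3 ^ n) = 1
      rw [← map_pow, hπ1]; exact hn)⟩
  obtain ⟨_, ⟨b, hb, rfl⟩, hb1, hbP⟩ := xso3k_fix (P.map π) ((⁅P, E⁆ : Subgroup H).map π) hPp
    (hMn.map π hπ) (π m) ⟨m, hm, rfl⟩ (fun h => hmS ((hπ1 m).1 h))
    (by rw [← map_pow, pw m (hME hm), map_one])
  have hPn : (P.map π).Normal := hP.map π hπ
  let B : Subgroup H := ⁅P, E⁆ ⊓ (Subgroup.centralizer (P.map π : Set (H ⧸ S))).comap π
  have hBn : B.Normal := inferInstance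
  have key : ∀ c ∈ B, ∀ x ∈ P, ∀ f ∈ E, c * ⁅x, f⁆ = ⁅x, f⁆ * c := by
    intro c hcB x hx f hf
    have h1 : ⁅x⁻¹, c⁆ ∈ S := by
      rw [xso3k_comm]
      exact hcB.2 (π x⁻¹) ⟨x⁻¹, P.inv_mem hx, rfl⟩
    have h2 := sc c (hME hcB.1) f hf
    generalize hs : ⁅x⁻¹, c⁆ = s at h1
    generalize ht : ⁅c, f⁆ = t at h2
    have e1 : c * x = x * (s * c) := by rw [← hs, commutatorElement_def]; group
    have e2 : c * f = t * f * c := by rw [← ht, commutatorElement_def]; group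
    have e3 : c * x⁻¹ = s⁻¹ * x⁻¹ * c := by
      have : s * c * x⁻¹ = x⁻¹ * c := by
        rw [show s * c * x⁻¹ = x⁻¹ * (x * (s * c)) * x⁻¹ by group, ← e1]; group
      rw [mul_assoc s⁻¹, ← this]; group
    have e4 : c * f⁻¹ = f⁻¹ * t⁻¹ * c := by
      rw [show c * f⁻¹ = c * (c * f)⁻¹ * c by group, e2]; group
    have s1 := hc s h1
    have t1 := hc t h2
    calc c * ⁅x, f⁆ = (c * x) * f * x⁻¹ * f⁻¹ := by rw [commutatorElement_def]; group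
      _ = x * s * (c * f) * x⁻¹ * f⁻¹ := by rw [e1]; group
      _ = x * s * t * f * (c * x⁻¹) * f⁻¹ := by rw [e2]; group
      _ = x * s * t * f * s⁻¹ * x⁻¹ * (c * f⁻¹) := by rw [e3]; group
      _ = x * (s * (t * f)) * s⁻¹ * x⁻¹ * f⁻¹ * t⁻¹ * c := by rw [e4]; group
      _ = x * (t * (f * x⁻¹ * f⁻¹)) * t⁻¹ * c := by rw [s1]; group
      _ = ⁅x, f⁆ * c := by rw [t1, commutatorElement_def]; group
  have hab : ∀ a ∈ B, ∀ c ∈ B, a * c = c * a := by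
    intro a ha c hcB
    have : (⁅P, E⁆ : Subgroup H) ≤ Subgroup.centralizer {a} := by
      rw [Subgroup.commutator_le]
      intro x hx f hf
      rw [Subgroup.mem_centralizer_iff]
      rintro _ rfl
      exact key _ ha x hx f hf
    exact this hcB.1 a rfl
  refine hb1 ((hπ1 b).2 (mx B hBn (fun a ha => hME ha.1) hab ⟨hb, fun y hy => ?_⟩))
  have := hbP y hy
  rw [mul_inv_eq_iff_eq_mul] at this
  exact this

theorem xso3k_all {H : Type} [Group H] [Finite H] (S E R : Subgroup H) [S.Normal]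
    (hc : ∀ z ∈ S, ∀ h, z * h = h * z) (hE : E.Normal) (pw : ∀ f ∈ E, f ^ 3 = 1)
    (sc : ∀ f ∈ E, ∀ g ∈ E, ⁅f, g⁆ ∈ S)
    (mx : ∀ B : Subgroup H, B.Normal → B ≤ E → (∀ a ∈ B, ∀ b ∈ B, a * b = b * a) → B ≤ S)
    (hR : R.Normal) (hcR : ∀ a ∈ R, ∀ b ∈ R, ⁅a, b⁆ ∈ S) :
    ∀ k ∈ R, ∀ f ∈ E, ⁅k, f⁆ ∈ S := by
  let π := QuotientGroup.mk' S
  have hπ1 : ∀ a, π a = 1 ↔ a ∈ S := fun a => QuotientGroup.eq_one_iff a
  have hcm : ∀ a ∈ R, ∀ b ∈ R, Commute (π a) (π b) := fun a ha b hb =>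
    (xso3k_comm S a b).1 (hcR a ha b hb)
  let P : Subgroup H :=
    { carrier := {x | x ∈ R ∧ ∃ n : ℕ, (π x) ^ (3 ^ n) = 1}
      one_mem' := ⟨R.one_mem, 0, by simp⟩
      mul_mem' := by
        rintro a b ⟨ha, n, hn⟩ ⟨hb, m, hm⟩
        refine ⟨R.mul_mem ha hb, n + m, ?_⟩
        rw [map_mul, (hcm a ha b hb).mul_pow, pow_add, pow_mul, hn, one_pow, one_mul, mul_comm,
          pow_mul, hm, one_pow]
      inv_mem' := by
        rintro a ⟨ha, n, hn⟩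
        exact ⟨R.inv_mem ha, n, by rw [map_inv, inv_pow, hn, inv_one]⟩ }
  have hP : P.Normal := ⟨by
    rintro a ⟨ha, n, hn⟩ g
    exact ⟨hR.conj_mem a ha g, n, by
      rw [map_mul, map_mul, map_inv, conj_pow, hn, mul_one, mul_inv_cancel]⟩⟩
  have h3 := xso3k_grp S E P hc hE pw sc mx hP (by
    rintro x ⟨-, n, hn⟩
    exact ⟨n, (hπ1 _).1 (by rw [map_pow, hn])⟩)
  intro k hk f hf
  obtain ⟨e, he, -, -, u, ⟨a, ha⟩, hku, j, hj⟩ := q_part 3 (by norm_num) k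
  have h1 : ⁅u, f⁆ ∈ S := h3 u ⟨hj ▸ R.pow_mem hk j, a, by rw [← map_pow, ha, map_one]⟩ f hf
  have hk' : k ^ e ∈ R := R.pow_mem hk e
  generalize k ^ e = y at he hku hk'
  have h2 : ⁅y, f⁆ ∈ S := by
    have m1 : f * y⁻¹ * f⁻¹ ∈ R := hR.conj_mem _ (R.inv_mem hk') f
    have m2 : ⁅y, f⁆ ∈ E := by
      rw [commutatorElement_def]
      exact E.mul_mem (hE.conj_mem f hf y) (E.inv_mem hf)
    have e1 : ⁅y, f⁆ = y * (f * y⁻¹ * f⁻¹) := by rw [commutatorElement_def]; group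
    have p1 : (π ⁅y, f⁆) ^ orderOf y = 1 := by
      rw [e1, map_mul, (hcm _ hk' _ m1).mul_pow, ← map_pow, ← map_pow, conj_pow, inv_pow,
        pow_orderOf_eq_one]
      simp
    have p2 : (π ⁅y, f⁆) ^ 3 = 1 := by rw [← map_pow, pw _ m2, map_one]
    have hco : Nat.Coprime 3 (orderOf y) := (Nat.Prime.coprime_iff_not_dvd (by norm_num)).2 he
    rw [← hπ1, ← orderOf_eq_one_iff]
    exact Nat.eq_one_of_dvd_coprimes hco (orderOf_dvd_of_pow_eq_one p2)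
      (orderOf_dvd_of_pow_eq_one p1)
  rw [xso3k_comm] at h1 h2 ⊢
  rw [hku, map_mul]
  exact h2.mul_left h1

theorem o3k {V : Type} [AddCommGroup V] [Module K V] [Module.Finite K V]
    {H : Type} [Group H] [Finite H] (ρ : Representation K H V) (E : Subgroup H) (hE : EH ρ 3 3 E) (P : Subgroup H) (hP : P.Normal)
    (h3 : ∀ x ∈ P, ∃ n : ℕ, x ^ (3 ^ n) ∈ scal ρ) : ∀ x ∈ P, ∀ f ∈ E, ⁅x, f⁆ ∈ scal ρ := by
  have := scal_normal ρ
  exact xso3k_grp (scal ρ) E P (scal_central ρ hE.inj) hE.nE hE.pw hE.sc hE.mx hP h3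

theorem z4 {V : Type} [AddCommGroup V] [Module K V] [Module.Finite K V]
    {H : Type} [Group H] [Finite H] (ρ : Representation K H V) (E : Subgroup H) (hE : EH ρ 3 3 E) (hF : FFE ρ E) (R : Subgroup H)
    (hR : R.Normal) (hc : ∀ a ∈ R, ∀ b ∈ R, ⁅a, b⁆ ∈ scal ρ) (hn : ¬ R ≤ scal ρ) :
    (∀ a ∈ R, ∀ b ∈ R, ⁅a, b⁆ ^ 3 = 1) ∧ ∃ a ∈ R, ∃ b ∈ R, ⁅a, b⁆ ≠ 1 := by
  have hSn := scal_normal ρ
  have hcen := scal_central ρ hE.inj
  have hall := xso3k_all (scal ρ) E R hcen hE.nE hE.pw hE.sc hE.mx hR hc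
  have dec : ∀ a ∈ R, ∃ s ∈ scal ρ, ∃ f ∈ E, a = s * f := by
    intro a ha
    obtain ⟨f, hf, c, hcf⟩ := hF a (hall a ha)
    refine ⟨a * f⁻¹, ⟨c, ?_, fun v => by rw [rho_mul, hcf, rho_inv']⟩, f, hf, by group⟩
    rintro rfl
    obtain ⟨v, hv⟩ := hE.ne
    apply hv
    rw [← rho_inv ρ a v, hcf, zero_smul, map_zero]
  have cm : ∀ s ∈ scal ρ, ∀ t ∈ scal ρ, ∀ f g : H, ⁅s * f, t * g⁆ = ⁅f, g⁆ := by
    intro s hs t ht f g
    have s1 := hcen s hs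
    have t1 := hcen t ht
    calc ⁅s * f, t * g⁆ = (s * (f * t * g * f⁻¹)) * s⁻¹ * g⁻¹ * t⁻¹ := by
          rw [commutatorElement_def]; group
      _ = f * (t * (g * f⁻¹ * g⁻¹)) * t⁻¹ := by rw [s1]; group
      _ = ⁅f, g⁆ := by rw [t1, commutatorElement_def]; group
  refine ⟨fun a ha b hb => ?_, ?_⟩
  · obtain ⟨s, hs, f, hf, rfl⟩ := dec a ha
    obtain ⟨t, ht, g, hg, rfl⟩ := dec b hb
    rw [cm s hs t ht]
    refine hE.pw _ ?_
    rw [commutatorElement_def]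
    exact E.mul_mem (hE.nE.conj_mem g hg f) (E.inv_mem hg)
  · by_contra hab
    push Not at hab
    apply hn
    have hB : E ⊓ (scal ρ ⊔ R) ≤ scal ρ := by
      have := hE.nE
      refine hE.mx _ inferInstance inf_le_left ?_
      rintro x ⟨-, hx⟩ y ⟨-, hy⟩
      have hx' : x ∈ ((scal ρ ⊔ R : Subgroup H) : Set H) := hx
      have hy' : y ∈ ((scal ρ ⊔ R : Subgroup H) : Set H) := hy
      rw [Subgroup.normal_mul] at hx' hy'
      obtain ⟨s, hs, a, ha, rfl⟩ := hx'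
      obtain ⟨t, ht, b, hb, rfl⟩ := hy'
      rw [← commutatorElement_eq_one_iff_mul_comm]
      exact (cm s hs t ht a b).trans (hab a ha b hb)
    intro a ha
    obtain ⟨s, hs, f, hf, e⟩ := dec a ha
    have hf2 : f ∈ scal ρ ⊔ R := by
      rw [show f = s⁻¹ * a by rw [e]; group]
      exact Subgroup.mul_mem_sup ((scal ρ).inv_mem hs) ha
    rw [e]
    exact (scal ρ).mul_mem hs (hB ⟨hf, hf2⟩)

end Pool.Agent.N9181
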