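import Pool.Agent.MP_9181f8_al.S.HSv

namespace Pool.Agent.N9181

open scoped commutatorElement

theorem xsp9a_13 : (13 : K) = 0 := by decide

theorem xsp9a_ind {V : Type} [AddCommGroup V] [Module K V] (A : Module.End K V) (u0 u1 u2 : V)
    (h0 : A u0 = u0) (h1 : A u1 = (3 : K) • u1) (h2 : A u2 = (9 : K) • u2)
    (h : u0 + u1 + u2 = 0) : u0 = 0 ∧ u1 = 0 := by
  have e1 : u0 + (3 : K) • u1 + (9 : K) • u2 = 0 := by
    have := congrArg A h
    rwa [map_add, map_add, map_zero, h0, h1, h2] at this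
  have e2 : u0 + (3 : K) • (3 : K) • u1 + (9 : K) • (9 : K) • u2 = 0 := by
    have := congrArg A e1
    rwa [map_add, map_add, map_zero, map_smul, map_smul, h0, h1, h2] at this
  constructor
  · linear_combination (norm := module) (9 : K) • h + (9 : K) • e1 + (9 : K) • e2 -
      xsp9a_13 • ((2 : K) • u0 + (9 : K) • u1 + (63 : K) • u2)
  · linear_combination (norm := module) (9 : K) • h + (81 : K) • e1 + (27 : K) • e2 -
      xsp9a_13 • ((9 : K) • u0 + (38 : K) • u1 + (225 : K) • u2)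

theorem xsp9a_two {V : Type} [AddCommGroup V] [Module K V] (G : Module.End K V) (A B : V)
    (p q : K) (hA : G A = p • A) (hB : G B = q • B) (hpq : p ≠ q) (A0 : A ≠ 0) (B0 : B ≠ 0)
    (s t : K) (h : s • A + t • B = 0) : s = 0 ∧ t = 0 := by
  have e : s • p • A + t • q • B = 0 := by
    have := congrArg G h
    rwa [map_add, map_zero, map_smul, map_smul, hA, hB] at this
  have e1 : ((p - q) * s) • A = 0 := by linear_combination (norm := module) e - q • h
  have e2 : ((p - q) * t) • B = 0 := by linear_combination (norm := module) p • h - e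
  have n := sub_ne_zero.2 hpq
  exact ⟨(mul_eq_zero.1 ((smul_eq_zero.1 e1).resolve_right A0)).resolve_left n,
    (mul_eq_zero.1 ((smul_eq_zero.1 e2).resolve_right B0)).resolve_left n⟩

theorem xsp9a_match {V : Type} [AddCommGroup V] [Module K V] (G : Module.End K V) (u w A B : V)
    (p q : K) (hu : G u = u) (hw : G w = (3 : K) • w) (hA : G A = p • A) (hB : G B = q • B)
    (hpq : p ≠ q) (A0 : A ≠ 0) (B0 : B ≠ 0) (h : u + w = A + B) :
    (u = A ∧ w = B) ∨ (u = B ∧ w = A) := by
  have e : u + (3 : K) • w = p • A + q • B := by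
    have := congrArg G h
    rwa [map_add, map_add, hu, hw, hA, hB] at this
  have e1 : (2 : K) • u = (3 - p) • A + (3 - q) • B := by
    linear_combination (norm := module) (3 : K) • h - e
  have e2 : (2 : K) • u = (3 - p) • p • A + (3 - q) • q • B := by
    have := congrArg G e1
    rwa [map_add, map_smul, map_smul, map_smul, hu, hA, hB] at this
  obtain ⟨f1, f2⟩ := xsp9a_two G A B p q hA hB hpq A0 B0 ((p - 1) * (p - 3)) ((q - 1) * (q - 3))
    (by linear_combination (norm := module) e2 - e1)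
  have n2 : (2 : K) ≠ 0 := by decide
  rw [mul_eq_zero, sub_eq_zero, sub_eq_zero] at f1 f2
  rcases f1 with rfl | rfl <;> rcases f2 with rfl | rfl
  · exact absurd rfl hpq
  · have : u = A := smul_right_injective V n2 (by linear_combination (norm := module) e1)
    exact .inl ⟨this, by linear_combination (norm := module) h - this⟩
  · have : u = B := smul_right_injective V n2 (by linear_combination (norm := module) e1)
    exact .inr ⟨this, by linear_combination (norm := module) h - this⟩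
  · exact absurd rfl hpq

theorem xsp9a_cube {V : Type} [AddCommGroup V] [Module K V] (G : Module.End K V) (a : V)
    (a0 : a ≠ 0) (h3 : G (G (G a)) = a) (μ y : K) (h : μ • G a = y • a) : μ ^ 3 = y ^ 3 := by
  have e1 := congrArg G h
  have e2 := congrArg G e1
  simp only [map_smul, h3] at e1 e2
  have e : (μ ^ 3 - y ^ 3) • a = 0 := by
    linear_combination (norm := module) μ ^ 2 • e2 + (μ * y) • e1 + y ^ 2 • h
  exact sub_eq_zero.1 ((smul_eq_zero.1 e).resolve_right a0)

theorem xsp9a_pw {V : Type} [AddCommGroup V] [Module K V] {H : Type} [Group H]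
    (ρ : Representation K H V) (g : H) (h : g ^ 3 = 1) (v : V) : ρ g (ρ g (ρ g v)) = v := by
  rw [← rho_mul, ← rho_mul, ← pow_two, ← pow_succ, h, map_one]
  rfl

theorem p9_edge {V : Type} [AddCommGroup V] [Module K V] [Module.Finite K V]
    {H : Type} [Group H] [Finite H] (ρ : Representation K H V) (E : Subgroup H) (hE : EH ρ 3 3 E) (L : Subgroup H) (X Z : H)
    (hH : HS ρ 3 3 1 E L X Z) (l Y : H) (hl : l ∈ L) (hL : ∀ x ∈ L, x = 1 ∨ x = l ∨ x = l * l) (hY : Y ∈ E)
    (hlY : ∀ v, ρ l (ρ Y v) = (3 : K) • ρ Y (ρ l v)) (m : V) (hm : m ∈ fixS ρ L) (h0 : m ≠ 0) (hZ : ρ Z m = m) (x : K) (hx : x ≠ 0) (hx3 : x ^ 3 ≠ -1) (f : H) (hf : f ∈ E) (ν : K)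
    (h : r9 ρ Y (av ρ X m) x + ν • ρ f (r9 ρ Y (av ρ X m) x) +
      ν ^ 2 • ρ f (ρ f (r9 ρ Y (av ρ X m) x)) = 0) : ∃ l' ∈ L, ∃ c : K, ∀ v, ρ f v = c • ρ l' v := by
  obtain ⟨ha, a0, -⟩ := hs_sla ρ E hE L X Z hH m hm h0 hZ
  have hpq : PQ 3 3 (3 : K) := .inr ⟨rfl, rfl, rfl⟩
  obtain ⟨k, hk, hr⟩ := eh_rel ρ 3 3 3 hpq E hE l f (hH.le hl) hf
  have hP := hs_p3 ρ E hE L X Z hH m h0 hZ
  have hw : av ρ X m = m + ρ X m + (2 : K) • ρ X (ρ X m) := rfl
  generalize av ρ X m = a at *
  have la : ρ l a = a := ha l hl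
  have lb : ρ l (ρ Y a) = (3 : K) • ρ Y a := by rw [hlY, la]
  have f3 := xsp9a_pw ρ f (hE.pw f hf) a
  simp only [r9, map_add, map_smul] at h
  have hb : ρ Y⁻¹ (ρ Y a) = a := rho_inv ρ Y a
  generalize ρ Y a = b at *
  obtain rfl | rfl | rfl : k = 0 ∨ k = 1 ∨ k = 2 := by omega
  · simp only [pow_zero, one_smul] at hr
    have c1 : f * l = l * f := hE.inj (LinearMap.ext fun v => by rw [rho_mul, rho_mul, hr])
    have c2 : ∀ y ∈ L, f * y = y * f := by
      intro y hy
      rcases hL y hy with rfl | rfl | rfl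
      · rw [mul_one, one_mul]
      · exact c1
      · rw [← mul_assoc, c1, mul_assoc, c1, mul_assoc]
    obtain ⟨c, i, j, -, hi, hj, h1, h2⟩ := hs_cen ρ 3 3 3 hpq E hE 1 L X Z hH f hf c2
    have e := (xsp9a_ind (ρ l) (a + ν • ρ f a + ν ^ 2 • ρ f (ρ f a))
      (x • b + ν • x • ρ f b + ν ^ 2 • x • ρ f (ρ f b)) 0
      (by simp only [map_add, map_smul, hr, la])
      (by simp only [map_add, map_smul, hr, lb]; module) (by simp)
      (by linear_combination (norm := module) h)).1
    have fa : ρ f a ∈ fixS ρ L := fun y hy => by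
      rw [← rho_mul, ← c2 y hy, rho_mul, ha y hy]
    rw [h1 _ fa, h1 _ ha, map_smul] at e
    obtain ⟨i0, j0⟩ := ql_ne (ρ X) (ρ Z) m hP i j hi hj (ν * c) a hw
      (by linear_combination (norm := module) e)
    obtain ⟨l', hl', h3⟩ := h2 i0 j0
    exact ⟨l', hl', c, h3⟩
  · exfalso
    simp only [pow_one] at hr
    obtain ⟨e0, e1⟩ := xsp9a_ind (ρ l) (a + ν ^ 2 • x • ρ f (ρ f b)) (x • b + ν • ρ f a)
      (ν • x • ρ f b + ν ^ 2 • ρ f (ρ f a))
      (by
        simp only [map_add, map_smul, hr, la, lb]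
        linear_combination (norm := module) xsp9a_13 • ((2 * ν ^ 2 * x) • ρ f (ρ f b)))
      (by simp only [map_add, map_smul, hr, la, lb]; module)
      (by simp only [map_add, map_smul, hr, la, lb]; module)
      (by linear_combination (norm := module) h)
    have e2 := congrArg (fun v => ρ f (ρ f v)) e1
    simp only [map_add, map_smul, map_zero, f3] at e2
    have e3 : (1 - ν ^ 3) • a = 0 := by linear_combination (norm := module) e0 - ν ^ 2 • e2
    have e4 := congrArg (ρ Y⁻¹) e1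
    rw [map_add, map_smul, map_smul, map_zero, hb, ← rho_mul] at e4
    have e5 := xsp9a_cube (ρ (Y⁻¹ * f)) a a0
      (xsp9a_pw ρ _ (hE.pw _ (E.mul_mem (E.inv_mem hY) hf)) a) ν (-x)
      (by linear_combination (norm := module) e4)
    exact hx3 (by linear_combination e5 + (smul_eq_zero.1 e3).resolve_right a0)
  · exfalso
    obtain ⟨e0, e1⟩ := xsp9a_ind (ρ l) (a + ν • x • ρ f b) (x • b + ν ^ 2 • ρ f (ρ f a))
      (ν • ρ f a + ν ^ 2 • x • ρ f (ρ f b))
      (by
        simp only [map_add, map_smul, hr, la, lb]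
        linear_combination (norm := module) xsp9a_13 • ((2 * ν * x) • ρ f b))
      (by
        simp only [map_add, map_smul, hr, la, lb]
        linear_combination (norm := module) xsp9a_13 • ((6 * ν ^ 2) • ρ f (ρ f a)))
      (by
        simp only [map_add, map_smul, hr, la, lb]
        linear_combination (norm := module) xsp9a_13 • ((18 * ν ^ 2 * x) • ρ f (ρ f b)))
      (by linear_combination (norm := module) h)
    have e2 := congrArg (ρ f) e1
    simp only [map_add, map_smul, map_zero, f3] at e2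
    have e3 : (1 - ν ^ 3) • a = 0 := by linear_combination (norm := module) e0 - ν • e2
    have e4 := congrArg (ρ Y⁻¹) e1
    rw [map_add, map_smul, map_smul, map_zero, hb, ← rho_mul, ← rho_mul] at e4
    have e5 := xsp9a_cube (ρ (Y⁻¹ * f * f)) a a0
      (xsp9a_pw ρ _ (hE.pw _ (E.mul_mem (E.mul_mem (E.inv_mem hY) hf) hf)) a) (ν ^ 2) (-x)
      (by linear_combination (norm := module) e4)
    exact hx3 (by
      linear_combination e5 + (1 + ν ^ 3) * (smul_eq_zero.1 e3).resolve_right a0)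

theorem p9_act {V : Type} [AddCommGroup V] [Module K V] [Module.Finite K V]
    {H : Type} [Group H] [Finite H] (ρ : Representation K H V) (E : Subgroup H) (hE : EH ρ 3 3 E) (L : Subgroup H) (X Z : H)
    (hH : HS ρ 3 3 1 E L X Z) (l Y : H) (hl : l ∈ L) (hL : ∀ x ∈ L, x = 1 ∨ x = l ∨ x = l * l) (hY : Y ∈ E)
    (hlY : ∀ v, ρ l (ρ Y v) = (3 : K) • ρ Y (ρ l v)) (m : V) (hm : m ∈ fixS ρ L) (h0 : m ≠ 0) (hZ : ρ Z m = m) (x x' : K) (hx : x ≠ 0) (hx' : x' ≠ 0) (hx3 : x' ^ 3 ≠ -1) (k : H)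
    (c : K) (h : ρ k (r9 ρ Y (av ρ X m) x) = c • r9 ρ Y (av ρ X m) x') :
    (ρ k (av ρ X m) = c • av ρ X m ∧ x • ρ k (ρ Y (av ρ X m)) = (c * x') • ρ Y (av ρ X m)) ∨
      (ρ k (av ρ X m) = (c * x') • ρ Y (av ρ X m) ∧ x • ρ k (ρ Y (av ρ X m)) = c • av ρ X m) := by
  obtain ⟨ha, a0, -⟩ := hs_sla ρ E hE L X Z hH m hm h0 hZ
  have hf : k * l * k⁻¹ ∈ E := hE.nE.conj_mem l (hH.le hl) k
  have key := p9_edge ρ E hE L X Z hH l Y hl hL hY hlY m hm h0 hZ x' hx' hx3 _ hf 3
  generalize av ρ X m = a at *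
  have la : ρ l a = a := ha l hl
  have lb : ρ l (ρ Y a) = (3 : K) • ρ Y a := by rw [hlY, la]
  have inj : ∀ (g : H) (v : V), v ≠ 0 → ρ g v ≠ 0 := fun g v hv e =>
    hv (by rw [← rho_inv ρ g v, e, map_zero])
  have b0 := inj Y a a0
  have fk : ∀ v, ρ (k * l * k⁻¹) (ρ k v) = ρ k (ρ l v) := fun v => by
    rw [← rho_mul, inv_mul_cancel_right, rho_mul]
  simp only [r9] at h key
  generalize ρ Y a = b at *
  generalize k * l * k⁻¹ = f at *
  have n13 : (1 : K) ≠ 3 := by decide
  have c0 : c ≠ 0 := by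
    rintro rfl
    refine inj k (a + x • b) (fun e => ?_) (by rw [h, zero_smul])
    exact one_ne_zero (xsp9a_two (ρ l) a b 1 3 (by rw [la, one_smul]) lb n13 a0 b0 1 x
      (by rw [one_smul, e])).1
  have e0 : (a + x • b) + (3 : K) • ρ l (a + x • b) + (3 : K) ^ 2 • ρ l (ρ l (a + x • b)) = 0 := by
    simp only [map_add, map_smul, la, lb]
    linear_combination (norm := module) xsp9a_13 • (a + (7 * x) • b)
  have e1 := congrArg (ρ k) e0
  rw [map_add, map_add, map_smul, map_smul, map_zero, ← fk, ← fk, ← fk, h, map_smul,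
    map_smul] at e1
  obtain ⟨l', hl', d, hd⟩ := key (smul_right_injective V c0 (by linear_combination (norm := module) e1))
  have hu : ρ f (ρ k a) = ρ k a := by rw [fk, la]
  have hw : ρ f (x • ρ k b) = (3 : K) • x • ρ k b := by
    rw [map_smul, fk, lb, map_smul, smul_comm]
  have d0 : d ≠ 0 := by
    rintro rfl
    exact inj f a a0 (by rw [hd, zero_smul])
  have hs : ρ k a + x • ρ k b = c • a + (c * x') • b := by
    rw [map_add, map_smul] at h
    linear_combination (norm := module) h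
  have fin : ∀ t : K, t ≠ 1 → ρ l' a = a → ρ l' b = t • b → _ := fun t ht h1 h2 =>
    xsp9a_match (ρ f) (ρ k a) (x • ρ k b) (c • a) ((c * x') • b) d (d * t) hu hw
      (by rw [hd, map_smul, h1]) (by rw [hd, map_smul, h2]; module)
      (fun e => ht (mul_left_cancel₀ d0 (by rw [← e, mul_one]))) (smul_ne_zero c0 a0)
      (smul_ne_zero (mul_ne_zero c0 hx') b0) hs
  rcases hL l' hl' with rfl | rfl | rfl
  · exfalso
    have h1 : ∀ v, ρ f v = d • v := fun v => by rw [hd, map_one]; rfl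
    rw [h1] at hu hw
    have h2 : d = 1 := smul_left_injective K (inj k a a0) (by simpa using hu)
    have h3 : d = 3 := smul_left_injective K (smul_ne_zero hx (inj k b b0)) hw
    exact n13 (h2.symm.trans h3)
  · exact fin 3 n13.symm la lb
  · exact fin 9 (by decide) (by rw [rho_mul, la, la])
      (by rw [rho_mul, lb, map_smul, lb]; module)

end Pool.Agent.N9181
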