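import Pool.Agent.MP_9181f8_al.S.Defs

namespace Pool.Agent.N9181

open scoped commutatorElement

theorem xsposign_key {I Q : Type} [LinearOrder Q] (cl : I → Q) (t : I → I)
    (h1 : ∀ a b, cl a = cl b → cl (t a) = cl (t b)) (h4 : ∀ a, cl (t (t (t (t a)))) = cl a) :
    ∃ s : I → K, (∀ l, s l = 1 ∨ s l = -1) ∧ (∀ a b, cl a = cl b → s a = s b) ∧
      ∀ l, cl (t l) ≠ cl l → s (t l) = - s l := by
  refine ⟨fun l => if min (cl l) (cl (t (t l))) < min (cl (t l)) (cl (t (t (t l)))) then 1 else -1,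
    fun l => ?_, fun a b h => ?_, fun l hl => ?_⟩
  · dsimp only
    split_ifs
    · exact Or.inl rfl
    · exact Or.inr rfl
  · dsimp only
    rw [h, h1 _ _ h, h1 _ _ (h1 _ _ h), h1 _ _ (h1 _ _ (h1 _ _ h))]
  · dsimp only
    have hne : min (cl l) (cl (t (t l))) ≠ min (cl (t l)) (cl (t (t (t l)))) := by
      intro e
      apply hl
      rcases min_choice (cl l) (cl (t (t l))) with e1 | e1 <;>
        rcases min_choice (cl (t l)) (cl (t (t (t l)))) with e2 | e2 <;> rw [e1, e2] at e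
      · exact e.symm
      · exact (h1 _ _ e).trans (h4 l)
      · exact (h4 (t l)).symm.trans ((h1 _ _ (h1 _ _ (h1 _ _ e))).trans (h4 l))
      · exact (h4 (t l)).symm.trans ((h1 _ _ (h1 _ _ e)).symm.trans (h4 l))
    rw [h4, min_comm (cl (t (t l)))]
    rcases lt_or_gt_of_ne hne with e | e
    · rw [if_pos e, if_neg e.not_gt]
    · rw [if_pos e, if_neg e.not_gt, neg_neg]

theorem po_sign {H : Type} [Group H] [Finite H] {I : Type} [MulAction H I] (J : Subgroup H) (y : H)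
    (hn : y ∈ Subgroup.normalizer (J : Set H)) (h4 : y ^ 4 ∈ J) :
    ∃ s : I → K, (∀ l, s l = 1 ∨ s l = -1) ∧ (∀ j ∈ J, ∀ l, s (j • l) = s l) ∧
      ∀ l, (¬ ∃ j ∈ J, j • l = y • l) → s (y • l) = - s l := by
  obtain ⟨_, -⟩ := exists_wellFoundedLT (Quotient (MulAction.orbitRel J I))
  have hcl : ∀ a b : I, Quotient.mk (MulAction.orbitRel J I) a = Quotient.mk _ b ↔
      ∃ j ∈ J, j • b = a := fun a b => by
    rw [Quotient.eq]
    exact ⟨fun ⟨j, hj⟩ => ⟨j, j.2, hj⟩, fun ⟨j, hj, e⟩ => ⟨⟨j, hj⟩, e⟩⟩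
  obtain ⟨s, s1, s2, s3⟩ := xsposign_key (Quotient.mk (MulAction.orbitRel J I)) (fun l => y • l)
    (fun a b h => by
      obtain ⟨j, hj, rfl⟩ := (hcl a b).1 h
      refine (hcl _ _).2 ⟨y * j * y⁻¹, (Subgroup.mem_normalizer_iff.1 hn j).1 hj, ?_⟩
      rw [smul_smul, inv_mul_cancel_right, mul_smul])
    (fun a => (hcl _ _).2 ⟨y ^ 4, h4, by
      rw [smul_smul, smul_smul, smul_smul, pow_succ, pow_succ, pow_two]⟩)
  exact ⟨s, s1, fun j hj l => s2 _ _ ((hcl _ _).2 ⟨j, hj, rfl⟩),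
    fun l hl => s3 l fun e => hl ((hcl _ _).1 e)⟩

end Pool.Agent.N9181
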