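import Pool.Agent.MP_9181f8_al.S.SBasic

namespace Pool.Agent.N9181

open scoped commutatorElement

theorem xsqmb_li {V : Type} [AddCommGroup V] [Module K V] (X Z : Module.End K V) (m : V)
    (h : P3 X Z m) : LinearIndependent K ![m, X m, X (X m)] := by
  have h2 : X (X m) ≠ 0 := fun e => h.ne (by rw [← h.xx, e, map_zero])
  have h1 : X m ≠ 0 := fun e => h2 (by rw [e, map_zero])
  refine Module.End.eigenvectors_linearIndependent' Z ![(1 : K), 3, 9] (by decide) _ fun i => ?_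
  fin_cases i
  · exact ⟨Module.End.mem_eigenspace_iff.2 (h.zm.trans (one_smul K m).symm), h.ne⟩
  · exact ⟨Module.End.mem_eigenspace_iff.2 h.z1, h1⟩
  · exact ⟨Module.End.mem_eigenspace_iff.2 h.z2, h2⟩

theorem p3_ind {V : Type} [AddCommGroup V] [Module K V] [Module.Finite K V] (X Z : Module.End K V) (m : V) (h : P3 X Z m) (a b c : K)
    (hab : a • m + b • X m + c • X (X m) = 0) : a = 0 ∧ b = 0 ∧ c = 0 := by
  have h1 := Fintype.linearIndependent_iff.1 (xsqmb_li X Z m h) ![a, b, c]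
    (by rw [Fin.sum_univ_three]; exact hab)
  exact ⟨h1 0, h1 1, h1 2⟩

theorem p3_rank {V : Type} [AddCommGroup V] [Module K V] [Module.Finite K V] (X Z : Module.End K V) (m : V) (h : P3 X Z m) :
    Module.finrank K (T3 X m) = 3 := by
  have h1 := finrank_span_eq_card (xsqmb_li X Z m h)
  have h2 : Set.range ![m, X m, X (X m)] = {m, X m, X (X m)} := by
    simp only [Matrix.range_cons, Matrix.range_empty, Set.union_empty, Set.singleton_union]
  rw [h2, Fintype.card_fin] at h1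
  exact h1

/-- the vector with given coordinates -/
def xsqmbP {V : Type} [AddCommGroup V] [Module K V] (X : Module.End K V) (m : V)
    (t : K × K × K) : V := t.1 • m + t.2.1 • X m + t.2.2 • X (X m)

def xsqmbX (t : K × K × K) : K × K × K := (t.2.2, t.1, t.2.1)

def xsqmbZ (t : K × K × K) : K × K × K := (t.1, 3 * t.2.1, 9 * t.2.2)

def xsqmbM (a b : ℕ) (t : K × K × K) : K × K × K := xsqmbX^[a] (xsqmbZ^[b] t)

def xsqmbG (c : K) (a b : ℕ) (t : K × K × K) : K × K × K :=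
  (3 * t.1 + 12 * t.2.1 + 7 * t.2.2) • ((1, 2, 0) : K × K × K) +
    ((7 * t.1 + 3 * t.2.1 + 12 * t.2.2) * c) • xsqmbM a b (1, 2, 0) +
    ((12 * t.1 + 7 * t.2.1 + 3 * t.2.2) * (c * c)) • xsqmbM a b (xsqmbM a b (1, 2, 0))

theorem xsqmb_c1 : ∀ a < 3, ∀ b < 3, ∀ c : K,
    xsqmbM a b (1, 2, 0) = c • ((1, 2, 0) : K × K × K) → a = 0 ∧ b = 0 := by
  decide +kernel

def xsqmbR (g : K × K × K → K × K × K) : Prop := ∃ a' < 3, ∃ b' < 3, ∃ c' : K,
  g (xsqmbZ (1, 0, 0)) = c' • xsqmbM a' b' (g (1, 0, 0)) ∧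
    g (xsqmbZ (0, 1, 0)) = c' • xsqmbM a' b' (g (0, 1, 0))

instance xsqmbRd (g : K × K × K → K × K × K) : Decidable (xsqmbR g) := by
  unfold xsqmbR
  infer_instance

def xsqmbC (g : K × K × K → K × K × K) : Prop :=
  g (g (g (1, 0, 0))) = (1, 0, 0) ∧ g (g (g (0, 1, 0))) = (0, 1, 0) ∧
    g (g (g (0, 0, 1))) = (0, 0, 1)

instance xsqmbCd (g : K × K × K → K × K × K) : Decidable (xsqmbC g) := by
  unfold xsqmbC
  infer_instance

theorem xsqmb_c2 : ∀ a < 3, ∀ b < 3, ∀ c : K,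
    (1, 2, 0) = (c * c * c) • xsqmbM a b (xsqmbM a b (xsqmbM a b (1, 2, 0))) →
    xsqmbR (xsqmbG c a b) → xsqmbC (xsqmbG c a b) := by
  decide +kernel

section
variable {V : Type} [AddCommGroup V] [Module K V] {X Z : Module.End K V} {m : V}

theorem xsqmb_add (s t : K × K × K) : xsqmbP X m (s + t) = xsqmbP X m s + xsqmbP X m t := by
  simp only [xsqmbP, Prod.fst_add, Prod.snd_add]
  module

theorem xsqmb_smul (c : K) (t : K × K × K) : xsqmbP X m (c • t) = c • xsqmbP X m t := by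
  simp only [xsqmbP, Prod.smul_fst, Prod.smul_snd, smul_eq_mul]
  module

theorem xsqmb_w : xsqmbP X m (1, 2, 0) = m + (2 : K) • X m := by
  simp only [xsqmbP, one_smul, zero_smul, add_zero]

theorem xsqmb_mem (t : K × K × K) : xsqmbP X m t ∈ T3 X m :=
  add_mem (add_mem (Submodule.smul_mem _ _ (Submodule.subset_span (Or.inl rfl)))
    (Submodule.smul_mem _ _ (Submodule.subset_span (Or.inr (Or.inl rfl)))))
    (Submodule.smul_mem _ _ (Submodule.subset_span (Or.inr (Or.inr rfl))))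

theorem xsqmb_inj [Module.Finite K V] (h : P3 X Z m) {s t : K × K × K}
    (e : xsqmbP X m s = xsqmbP X m t) : s = t := by
  obtain ⟨h1, h2, h3⟩ := p3_ind X Z m h (s.1 - t.1) (s.2.1 - t.2.1) (s.2.2 - t.2.2) (by
    rw [← sub_eq_zero.2 e]
    simp only [xsqmbP]
    module)
  exact Prod.ext (sub_eq_zero.1 h1) (Prod.ext (sub_eq_zero.1 h2) (sub_eq_zero.1 h3))

theorem xsqmb_X (h : P3 X Z m) (t : K × K × K) : X (xsqmbP X m t) = xsqmbP X m (xsqmbX t) := by
  simp only [xsqmbP, xsqmbX, map_add, map_smul, h.xx]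
  module

theorem xsqmb_Z (h : P3 X Z m) (t : K × K × K) : Z (xsqmbP X m t) = xsqmbP X m (xsqmbZ t) := by
  simp only [xsqmbP, xsqmbZ, map_add, map_smul, h.zm, h.z1, h.z2]
  module

theorem xsqmb_M (h : P3 X Z m) (a b : ℕ) (t : K × K × K) :
    (X ^ a * Z ^ b) (xsqmbP X m t) = xsqmbP X m (xsqmbM a b t) := by
  have h1 : Function.Semiconj (xsqmbP X m) xsqmbX X := fun t => (xsqmb_X h t).symm
  have h2 : Function.Semiconj (xsqmbP X m) xsqmbZ Z := fun t => (xsqmb_Z h t).symm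
  rw [Module.End.mul_apply, Module.End.pow_apply, Module.End.pow_apply, xsqmbM,
    h1.iterate_right a, h2.iterate_right b]

theorem xsqmb_pow {S : Module.End K V} {c : K} {v : V} (h : S v = c • v) (k : ℕ) :
    (S ^ k) v = c ^ k • v := by
  induction k with
  | zero => rw [pow_zero, pow_zero, one_smul, Module.End.one_apply]
  | succ k ih => rw [pow_succ, Module.End.mul_apply, h, map_smul, ih, smul_smul, pow_succ']

end

theorem xsqmb_dec (t : K × K × K) :
    t = (3 * t.1 + 12 * t.2.1 + 7 * t.2.2) • ((1, 2, 0) : K × K × K) +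
      (7 * t.1 + 3 * t.2.1 + 12 * t.2.2) • xsqmbX (1, 2, 0) +
      (12 * t.1 + 7 * t.2.1 + 3 * t.2.2) • xsqmbX (xsqmbX (1, 2, 0)) := by
  have h13 : (13 : K) = 0 := by decide
  obtain ⟨x, y, z⟩ := t
  simp only [xsqmbX, Prod.smul_mk, Prod.mk_add_mk, smul_eq_mul, Prod.mk.injEq]
  refine ⟨?_, ?_, ?_⟩
  · linear_combination (-2 * x - 2 * y - z) * h13
  · linear_combination (-x - 2 * y - 2 * z) * h13
  · linear_combination (-2 * x - y - 2 * z) * h13

theorem q3_eig {V : Type} [AddCommGroup V] [Module K V] [Module.Finite K V] (X Z : Module.End K V) (m : V) (h : P3 X Z m) (a b : ℕ) (ha : a < 3)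
    (hb : b < 3) (c : K)
    (hc : (X ^ a * Z ^ b) (m + (2 : K) • X m) = c • (m + (2 : K) • X m)) : a = 0 ∧ b = 0 := by
  rw [← xsqmb_w, xsqmb_M h, ← xsqmb_smul] at hc
  exact xsqmb_c1 a ha b hb c (xsqmb_inj h hc)

theorem q3 {V : Type} [AddCommGroup V] [Module K V] [Module.Finite K V] (X Z S : Module.End K V) (m : V) (h : P3 X Z m)
    (hP : PN 3 (T3 X m) X Z S) (n : ℕ) (hn : ¬ 3 ∣ n) (hS : S ^ n = 1) (c : K)
    (hc : S (m + (2 : K) • X m) = c • (m + (2 : K) • X m)) : ∀ v ∈ T3 X m, S v = c • v := by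
  obtain ⟨⟨c1, a, b, ha, hb, h1⟩, c2, a', b', ha', hb', h2⟩ := hP
  rw [← xsqmb_w] at hc
  obtain ⟨k, hk⟩ : ∃ k, S ^ (3 * k + 1) = 1 := by
    obtain h3 | h3 : n % 3 = 1 ∨ n % 3 = 2 := by omega
    · exact ⟨n / 3, by rw [show 3 * (n / 3) + 1 = n by omega, hS]⟩
    · exact ⟨2 * (n / 3) + 1, by
        rw [show 3 * (2 * (n / 3) + 1) + 1 = n * 2 by omega, pow_mul, hS, one_pow]⟩
  have hck : c ^ (3 * k + 1) = 1 := by
    have h3 := xsqmb_pow hc (3 * k + 1)
    rw [hk, Module.End.one_apply, ← xsqmb_smul] at h3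
    have h4 := congrArg Prod.fst (xsqmb_inj h h3)
    rw [Prod.smul_fst, smul_eq_mul, mul_one] at h4
    exact h4.symm
  have hc0 : c ≠ 0 := by
    rintro rfl
    rw [zero_pow (Nat.succ_ne_zero _)] at hck
    exact zero_ne_one hck
  have st : ∀ (d : K) (s t : K × K × K), S (xsqmbP X m s) = d • xsqmbP X m t →
      S (xsqmbP X m (xsqmbX s)) = (d * c1) • xsqmbP X m (xsqmbM a b t) := by
    intro d s t e
    rw [← xsqmb_X h, h1 _ (xsqmb_mem s), e, map_smul, xsqmb_M h, smul_smul, mul_comm]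
  have s1 := st _ _ _ hc
  have s2 := st _ _ _ s1
  have s3 := st _ _ _ s2
  have e3 : (1, 2, 0) = (c1 * c1 * c1) • xsqmbM a b (xsqmbM a b (xsqmbM a b (1, 2, 0))) := by
    apply xsqmb_inj h
    apply smul_right_injective V hc0
    dsimp only
    rw [← hc, xsqmb_smul, smul_smul, ← mul_assoc, ← mul_assoc, ← s3]
    rfl
  have hG : ∀ t, S (xsqmbP X m t) = c • xsqmbP X m (xsqmbG c1 a b t) := by
    intro t
    conv_lhs => rw [xsqmb_dec t]
    simp only [xsqmbG, xsqmb_add, xsqmb_smul, map_add, map_smul, hc, s1, s2]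
    module
  have hR : ∀ t, xsqmbG c1 a b (xsqmbZ t) = c2 • xsqmbM a' b' (xsqmbG c1 a b t) := by
    intro t
    apply xsqmb_inj h
    apply smul_right_injective V hc0
    dsimp only
    rw [← hG, ← xsqmb_Z h, h2 _ (xsqmb_mem t), hG, map_smul, xsqmb_M h, xsqmb_smul, smul_comm]
  obtain ⟨g0, g1, g2⟩ := xsqmb_c2 a ha b hb c1 e3 ⟨a', ha', b', hb', c2, hR _, hR _⟩
  have h3 : ∀ t, xsqmbG c1 a b (xsqmbG c1 a b (xsqmbG c1 a b t)) = t →
      (S ^ 3) (xsqmbP X m t) = c ^ 3 • xsqmbP X m t := by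
    intro t e
    rw [pow_three, Module.End.mul_apply, Module.End.mul_apply, hG, map_smul, hG, map_smul,
      map_smul, hG, e, smul_smul, smul_smul, pow_three, mul_assoc]
  have h4 : ∀ v ∈ T3 X m, (S ^ 3) v = c ^ 3 • v := by
    intro v hv
    have b0 := h3 _ g0
    have b1 := h3 _ g1
    have b2 := h3 _ g2
    simp only [xsqmbP, one_smul, zero_smul, add_zero, zero_add] at b0 b1 b2
    refine LinearMap.eqOn_span (f := S ^ 3) (g := c ^ 3 • LinearMap.id) ?_ hv
    rintro x (rfl | rfl | rfl)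
    · exact b0
    · exact b1
    · exact b2
  intro v hv
  have h5 := xsqmb_pow (h4 v hv) k
  rw [← pow_mul, ← pow_mul] at h5
  have h6 : (S ^ (3 * k + 1)) v = v := by rw [hk, Module.End.one_apply]
  rw [pow_succ', Module.End.mul_apply, h5, map_smul] at h6
  rw [← h6, smul_smul, ← pow_succ', hck, one_smul, h6]

end Pool.Agent.N9181
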