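import Pool.Agent.MP_9181f8_al.S.Defs

namespace Pool.Agent.N9181

open scoped commutatorElement

theorem xsr3a_nat (b : ℕ) (g : ℕ → ℕ) (hr : ∀ j, j ≤ b + 1 → 1 ≤ g (j + 1) ∧ g (j + 1) ≤ b + 2)
    (hi : ∀ j, j + 1 ≤ b → g (j + 3) ≠ g (j + 1))
    (hs : ∀ j, j ≤ b → g (j + 2) = g (j + 1) + 1 ∨ g (j + 1) = g (j + 2) + 1) :
    (∀ j, j ≤ b + 1 → g (j + 1) = j + 1) ∨ ∀ j, j ≤ b + 1 → g (j + 1) + j = b + 2 := by
  have h0 := hr 0 (by omega)
  have h1 := hr (b + 1) le_rfl
  rcases hs 0 (by omega) with h | h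
  · have key : ∀ i, i ≤ b → g (i + 2) = g 1 + i + 1 ∧ g (i + 1) = g 1 + i := by
      intro i
      induction i with
      | zero => exact fun _ => ⟨h, rfl⟩
      | succ i ih =>
        intro hi'
        have h2 := ih (by omega)
        have h3 := hi i hi'
        have h4 := hs (i + 1) hi'
        simp only [add_assoc, Nat.reduceAdd] at *
        omega
    have h5 := key b le_rfl
    simp only [add_assoc, Nat.reduceAdd, zero_add] at h0 h1
    refine Or.inl fun j hj => ?_
    rcases hj.eq_or_lt with rfl | hj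
    · simp only [add_assoc, Nat.reduceAdd]
      omega
    · have := key j (by omega)
      omega
  · have key : ∀ i, i ≤ b → g (i + 2) + i + 1 = g 1 ∧ g (i + 1) + i = g 1 := by
      intro i
      induction i with
      | zero => exact fun _ => ⟨h.symm, rfl⟩
      | succ i ih =>
        intro hi'
        have h2 := ih (by omega)
        have h3 := hi i hi'
        have h4 := hs (i + 1) hi'
        simp only [add_assoc, Nat.reduceAdd] at *
        omega
    have h5 := key b le_rfl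
    simp only [add_assoc, Nat.reduceAdd, zero_add] at h0 h1
    refine Or.inr fun j hj => ?_
    rcases hj.eq_or_lt with rfl | hj
    · simp only [add_assoc, Nat.reduceAdd]
      omega
    · have := key j (by omega)
      omega

theorem xsr3a_big (b : ℕ) (σ : Equiv.Perm (Fin (b + 4 + 1)))
    (h : ∀ j j1 : Fin (b + 4 + 1), 1 ≤ j.val → j1.val = j.val + 1 →
      ∃ k k1 : Fin (b + 4 + 1), 1 ≤ k.val ∧ k1.val = k.val + 1 ∧
        ({σ 0, σ j, σ j1} : Finset (Fin (b + 4 + 1))) = {0, k, k1}) (x : Fin (b + 4 + 1)) :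
    σ (σ x) = x := by
  have hz : ∀ j (hj : j + 1 < b + 4 + 1), 1 ≤ j →
      (σ.symm 0).val = 0 ∨ (σ.symm 0).val = j ∨ (σ.symm 0).val = j + 1 := by
    intro j hj h1
    obtain ⟨k, k1, -, -, e⟩ := h ⟨j, by omega⟩ ⟨j + 1, hj⟩ h1 rfl
    have h2 := e.symm ▸ Finset.mem_insert_self 0 {k, k1}
    simpa only [Finset.mem_insert, Finset.mem_singleton, ← Equiv.symm_apply_eq, Fin.ext_iff,
      Fin.val_zero] using h2
  have h0 : σ 0 = 0 := by
    rw [← Equiv.eq_symm_apply, Fin.ext_iff, Fin.val_zero]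
    have h1 := hz 1 (by omega) le_rfl
    have h3 := hz 3 (by omega) (by omega)
    omega
  have hne : ∀ j : Fin (b + 4 + 1), 1 ≤ j.val → 1 ≤ (σ j).val := fun j hj => by
    by_contra h1
    have h2 : σ j = σ 0 := by rw [h0]; exact Fin.ext (by rw [Fin.val_zero]; omega)
    rw [σ.injective h2, Fin.val_zero] at hj
    omega
  let g : ℕ → ℕ := fun j => if hj : j < b + 4 + 1 then (σ ⟨j, hj⟩).val else 0
  have hg : ∀ j (hj : j < b + 4 + 1), g j = (σ ⟨j, hj⟩).val := fun j hj => dif_pos hj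
  have hinj : ∀ i j, i < b + 4 + 1 → j < b + 4 + 1 → g i = g j → i = j := fun i j hi hj e =>
    congrArg Fin.val (σ.injective (Fin.ext ((hg i hi).symm.trans (e.trans (hg j hj)))))
  have key := xsr3a_nat (b + 2) g (fun j hj => ?_)
    (fun j hj e => by have := hinj _ _ (by omega) (by omega) e; omega) (fun j hj => ?_)
  · by_cases hx : x = 0
    · rw [hx, h0, h0]
    have hx1 : 1 ≤ x.val := Nat.one_le_iff_ne_zero.2 fun e => hx (Fin.ext e)
    have hx2 := hne x hx1
    have e1 : g (x.val - 1 + 1) = (σ x).val := by rw [Nat.sub_add_cancel hx1, hg _ x.2]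
    have e2 : g ((σ x).val - 1 + 1) = (σ (σ x)).val := by
      rw [Nat.sub_add_cancel hx2, hg _ (σ x).2]
    have l1 := x.2
    have l2 := (σ x).2
    refine Fin.ext ?_
    rcases key with key | key <;>
    · have k1 := key (x.val - 1) (by omega)
      have k2 := key ((σ x).val - 1) (by omega)
      omega
  · rw [hg _ (by omega)]
    exact ⟨hne _ (Nat.le_add_left _ _), Nat.le_of_lt_succ (Fin.is_lt _)⟩
  · obtain ⟨k, k1, -, hk, e⟩ := h ⟨j + 1, by omega⟩ ⟨j + 2, by omega⟩ (Nat.le_add_left _ _) rfl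
    have h1 := e ▸ Finset.mem_insert_of_mem (Finset.mem_insert_self _ _)
    have h2 := e ▸ Finset.mem_insert_of_mem (Finset.mem_insert_of_mem (Finset.mem_singleton_self _))
    have h3 := hne ⟨j + 1, by omega⟩ (Nat.le_add_left _ _)
    have h4 := hne ⟨j + 2, by omega⟩ (Nat.le_add_left _ _)
    have h5 := hinj (j + 1) (j + 2) (by omega) (by omega)
    simp only [Finset.mem_insert, Finset.mem_singleton, Fin.ext_iff, Fin.val_zero, ← hg] at h1 h2 h3 h4
    omega

theorem r3_comb (a : ℕ) (ha : a ≠ 2) (σ : Equiv.Perm (Fin (a + 1))) (n : ℕ)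
    (hσ : σ ^ (3 ^ n) = 1)
    (h : ∀ j j1 : Fin (a + 1), 1 ≤ j.val → j1.val = j.val + 1 →
      ∃ k k1 : Fin (a + 1), 1 ≤ k.val ∧ k1.val = k.val + 1 ∧
        ({σ 0, σ j, σ j1} : Finset (Fin (a + 1))) = {0, k, k1}) : σ = 1 := by
  have h2 : ∀ x, σ (σ x) = x := by
    clear hσ
    match a, ha, σ, h with
    | 0, _, σ, _ => revert σ; decide
    | 1, _, σ, _ => revert σ; decide
    | 3, _, σ, h => revert σ; decide +kernel
    | b + 4, _, σ, h => exact xsr3a_big b σ h
  have h3 : σ ^ 2 = 1 := Equiv.ext h2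
  exact (pow_eq_one_iff_of_coprime (Nat.Coprime.pow_right n (by norm_num))).1 ⟨h3, hσ⟩

end Pool.Agent.N9181
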