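import Pool.Agent.MP_9181f8_al.S.R3a

namespace Pool.Agent.N9181

open scoped commutatorElement

section
variable {p : ℕ} [Fact p.Prime] {M : Type} [AddCommGroup M] [Module (ZMod p) M] {a : ℕ}

/-- the origin and the basis vectors -/
noncomputable def xsr3bP (b : Module.Basis (Fin a) (ZMod p) M) : Fin (a + 1) → M :=
  Fin.cons 0 b

/-- barycentric coordinates -/
noncomputable def xsr3bL (b : Module.Basis (Fin a) (ZMod p) M) (x : M) : Fin (a + 1) → ZMod p :=
  Fin.cons (1 - ∑ j, b.repr x j) (fun j => b.repr x j)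

theorem xsr3b_LP (b : Module.Basis (Fin a) (ZMod p) M) (i : Fin (a + 1)) :
    xsr3bL b (xsr3bP b i) = Pi.single i 1 := by
  funext m
  refine Fin.cases ?_ (fun i => ?_) i <;> refine Fin.cases ?_ (fun m => ?_) m
  · simp [xsr3bL, xsr3bP]
  · simp [xsr3bL, xsr3bP]
  · simp [xsr3bL, xsr3bP, Finsupp.single_apply]
  · simp [xsr3bL, xsr3bP, Finsupp.single_apply, Pi.single_apply, eq_comm]

theorem xsr3b_Laff (b : Module.Basis (Fin a) (ZMod p) M) (x y z : M) :
    xsr3bL b (x + y - z) = xsr3bL b x + xsr3bL b y - xsr3bL b z := by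
  funext m
  refine Fin.cases ?_ (fun m => ?_) m
  · simp only [xsr3bL, Fin.cons_zero, Pi.sub_apply, Pi.add_apply, map_sub, map_add,
      Finsupp.sub_apply, Finsupp.add_apply, Finset.sum_sub_distrib, Finset.sum_add_distrib]
    ring
  · simp [xsr3bL]

theorem xsr3b_inj (b : Module.Basis (Fin a) (ZMod p) M) : Function.Injective (xsr3bP b) := by
  intro i j h
  have h1 := congrFun (congrArg (xsr3bL b) h) i
  rw [xsr3b_LP, xsr3b_LP, Pi.single_eq_same] at h1
  by_contra hne
  rw [Pi.single_eq_of_ne hne] at h1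
  exact one_ne_zero h1

theorem xsr3b_supp (b : Module.Basis (Fin a) (ZMod p) M) {i j k : Fin (a + 1)} (hij : i ≠ j)
    (hik : i ≠ k) (hjk : j ≠ k) (m : Fin (a + 1)) :
    xsr3bL b (xsr3bP b j + xsr3bP b k - xsr3bP b i) m ≠ 0 ↔
      m ∈ ({i, j, k} : Finset (Fin (a + 1))) := by
  rw [xsr3b_Laff, xsr3b_LP, xsr3b_LP, xsr3b_LP]
  simp only [Pi.sub_apply, Pi.add_apply, Finset.mem_insert, Finset.mem_singleton]
  by_cases h1 : m = i
  · subst h1
    simp [Pi.single_eq_of_ne hij, Pi.single_eq_of_ne hik]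
  by_cases h2 : m = j
  · subst h2
    simp [Pi.single_eq_of_ne h1, Pi.single_eq_of_ne hjk]
  by_cases h3 : m = k
  · subst h3
    simp [Pi.single_eq_of_ne h1, Pi.single_eq_of_ne h2]
  · simp [h1, h2, h3]

theorem xsr3b_core (b : Module.Basis (Fin a) (ZMod p) M) (φ : M →+ M) (t : Equiv.Perm M) (n : ℕ)
    (ht : ∀ x, t x = φ x + t 0) (hn : t ^ (3 ^ n) = 1)
    (hP : ∀ i, ∃ i', t (xsr3bP b i) = xsr3bP b i') :
    ∃ σ : Equiv.Perm (Fin (a + 1)), σ ^ (3 ^ n) = 1 ∧ (∀ i, t (xsr3bP b i) = xsr3bP b (σ i)) ∧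
      (σ = 1 → t = 1) := by
  choose f hf using hP
  have hfi : Function.Injective f := fun i j h => xsr3b_inj b (t.injective (by rw [hf, hf, h]))
  have hpow : ∀ (m : ℕ) (i : Fin (a + 1)), (t ^ m) (xsr3bP b i) =
      xsr3bP b ((Equiv.ofBijective f hfi.bijective_of_finite ^ m) i) := by
    intro m
    induction m with
    | zero => intro i; rfl
    | succ m ih =>
      intro i
      rw [pow_succ, pow_succ, Equiv.Perm.mul_apply, Equiv.Perm.mul_apply, hf, ih]
      rfl
  refine ⟨Equiv.ofBijective f hfi.bijective_of_finite, ?_, hf, fun h => ?_⟩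
  · ext1 i
    apply xsr3b_inj b
    rw [← hpow, hn]
    rfl
  · have h1 : ∀ i, t (xsr3bP b i) = xsr3bP b i := fun i => by
      have := hpow 1 i
      rwa [pow_one, pow_one, h] at this
    have h0 : t 0 = 0 := h1 0
    have h2 : AddMonoidHom.toZModLinearMap p φ = LinearMap.id := by
      refine b.ext fun j => ?_
      have := h1 j.succ
      rw [ht, h0, add_zero] at this
      exact this
    ext1 x
    rw [ht, h0, add_zero]
    exact LinearMap.congr_fun h2 x

end

theorem xsr3b_three : ∀ σ : Equiv.Perm (Fin (2 + 1)), σ 2 = 2 → σ * σ = 1 := by decide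

theorem r3_lin (p : ℕ) [Fact p.Prime] (M : Type) [AddCommGroup M] [Module (ZMod p) M] [Finite M] :
    ∃ c : M → Fin 3, Nat.card {x // c x = 1} ≠ Nat.card {x // c x = 2} ∧
      ∀ (φ : M →+ M) (t : Equiv.Perm M) (n : ℕ), (∀ x, t x = φ x + t 0) → t ^ (3 ^ n) = 1 →
        (∀ x, c (t x) = c x) → t = 1 := by
  classical
  obtain ⟨a, ⟨b⟩⟩ : ∃ a, Nonempty (Module.Basis (Fin a) (ZMod p) M) :=
    ⟨_, ⟨Module.finBasis (ZMod p) M⟩⟩
  have hinj := xsr3b_inj b
  by_cases ha : a = 2
  · subst ha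
    obtain ⟨c, c1, c2⟩ : ∃ c : M → Fin 3,
        (∀ x, c x = 1 ↔ x ∈ ({xsr3bP b 0, xsr3bP b 1} : Set M)) ∧
        ∀ x, c x = 2 ↔ x ∈ ({xsr3bP b 2} : Set M) := by
      refine ⟨fun x => if x ∈ ({xsr3bP b 0, xsr3bP b 1} : Set M) then 1 else
        if x ∈ ({xsr3bP b 2} : Set M) then 2 else 0, fun x => ?_, fun x => ?_⟩
      · beta_reduce
        split_ifs with h1 h2
        · exact iff_of_true rfl h1
        · exact iff_of_false (by decide) h1
        · exact iff_of_false (by decide) h1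
      · beta_reduce
        split_ifs with h1 h2
        · refine iff_of_false (by decide) fun h2 => ?_
          rw [Set.mem_singleton_iff.1 h2] at h1
          rcases h1 with h1 | h1
          · exact absurd (hinj h1) (by decide)
          · exact absurd (hinj h1) (by decide)
        · exact iff_of_true rfl h2
        · exact iff_of_false (by decide) h2
    refine ⟨c, ?_, fun φ t n ht hn hc => ?_⟩
    · rw [Nat.card_congr (Equiv.subtypeEquivRight c1), Nat.card_congr (Equiv.subtypeEquivRight c2),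
        Nat.card_coe_set_eq, Nat.card_coe_set_eq, Set.ncard_singleton,
        Set.ncard_pair fun h => absurd (hinj h) (by decide)]
      decide
    · have h2 : t (xsr3bP b 2) = xsr3bP b 2 := (c2 _).1 (by rw [hc]; exact (c2 _).2 rfl)
      obtain ⟨σ, s1, s2, s3⟩ := xsr3b_core b φ t n ht hn (fun i => by
        have h01 : ∀ x ∈ ({xsr3bP b 0, xsr3bP b 1} : Set M), ∃ i', t x = xsr3bP b i' := by
          intro x hx
          rcases (c1 (t x)).1 (by rw [hc]; exact (c1 _).2 hx) with h | h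
          · exact ⟨0, h⟩
          · exact ⟨1, h⟩
        fin_cases i
        · exact h01 _ (Or.inl rfl)
        · exact h01 _ (Or.inr rfl)
        · exact ⟨2, h2⟩)
      refine s3 ?_
      have h3 := xsr3b_three σ (hinj ((s2 2).symm.trans h2))
      obtain ⟨k, hk⟩ : Odd (3 ^ n) := Odd.pow (by decide)
      rw [hk, pow_succ, pow_mul, pow_two, h3, one_pow, one_mul] at s1
      exact s1
  · have hq : ∀ j j1 : Fin (a + 1), 1 ≤ j.val → j1.val = j.val + 1 →
        (0 : Fin (a + 1)) ≠ j ∧ (0 : Fin (a + 1)) ≠ j1 ∧ j ≠ j1 := by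
      intro j j1 h1 h2
      refine ⟨fun h => ?_, fun h => ?_, fun h => ?_⟩
      · rw [← h] at h1; exact absurd h1 (by simp)
      · rw [← h] at h2; exact absurd h2 (by simp)
      · rw [← h] at h2; omega
    have hP0 : xsr3bP b 0 = 0 := rfl
    obtain ⟨c, c1, c2⟩ : ∃ c : M → Fin 3, (∀ x, c x = 1 ↔ x ∈ Set.range (xsr3bP b)) ∧
        ∀ x, c x = 2 ↔ x ∈ {x | ∃ j j1 : Fin (a + 1), 1 ≤ j.val ∧ j1.val = j.val + 1 ∧
          x = xsr3bP b j + xsr3bP b j1} := by
      refine ⟨fun x => if x ∈ Set.range (xsr3bP b) then 1 else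
        if x ∈ {x | ∃ j j1 : Fin (a + 1), 1 ≤ j.val ∧ j1.val = j.val + 1 ∧
          x = xsr3bP b j + xsr3bP b j1} then 2 else 0, fun x => ?_, fun x => ?_⟩
      · beta_reduce
        split_ifs with h1 h2
        · exact iff_of_true rfl h1
        · exact iff_of_false (by decide) h1
        · exact iff_of_false (by decide) h1
      · beta_reduce
        split_ifs with h1 h2
        · refine iff_of_false (by decide) ?_
          rintro ⟨j, j1, h2, h3, h4⟩
          obtain ⟨i, hi⟩ := h1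
          obtain ⟨e1, e2, e3⟩ := hq j j1 h2 h3
          have key : ∀ m ∈ ({0, j, j1} : Finset (Fin (a + 1))), m = i := by
            intro m hm
            have := (xsr3b_supp b e1 e2 e3 m).2 hm
            rw [hP0, sub_zero, ← h4, ← hi, xsr3b_LP] at this
            by_contra hne
            exact this (Pi.single_eq_of_ne hne _)
          exact e1 ((key 0 (by simp)).trans (key j (by simp)).symm)
        · exact iff_of_true rfl h2
        · exact iff_of_false (by decide) h2
    refine ⟨c, ?_, fun φ t n ht hn hc => ?_⟩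
    · rw [Nat.card_congr (Equiv.subtypeEquivRight c1), Nat.card_congr (Equiv.subtypeEquivRight c2),
        Nat.card_range_of_injective hinj, Nat.card_eq_fintype_card, Fintype.card_fin]
      refine ne_of_gt (Nat.lt_succ_of_le ?_)
      refine le_trans (Nat.card_mono (Set.toFinite _)
        (t := Set.range fun j : Fin a => xsr3bP b j.castSucc + xsr3bP b j.succ) ?_) ?_
      · rintro x ⟨j, j1, h1, h2, rfl⟩
        have hj : j.val < a := by have := j1.isLt; omega
        refine ⟨⟨j.val, hj⟩, ?_⟩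
        have e1 : (⟨j.val, hj⟩ : Fin a).castSucc = j := Fin.ext rfl
        have e2 : (⟨j.val, hj⟩ : Fin a).succ = j1 := Fin.ext h2.symm
        beta_reduce
        rw [e1, e2]
      · refine (Finite.card_range_le _).trans ?_
        rw [Nat.card_eq_fintype_card, Fintype.card_fin]
    · obtain ⟨σ, s1, s2, s3⟩ := xsr3b_core b φ t n ht hn (fun i => by
        obtain ⟨i', hi'⟩ := (c1 (t (xsr3bP b i))).1 (by rw [hc]; exact (c1 _).2 ⟨i, rfl⟩)
        exact ⟨i', hi'.symm⟩)
      refine s3 (r3_comb a ha σ n s1 fun j j1 h1 h2 => ?_)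
      obtain ⟨k, k1, h3, h4, h5⟩ := (c2 (t (xsr3bP b j + xsr3bP b j1))).1
        (by rw [hc]; exact (c2 _).2 ⟨j, j1, h1, h2, rfl⟩)
      refine ⟨k, k1, h3, h4, ?_⟩
      obtain ⟨e1, e2, e3⟩ := hq j j1 h1 h2
      obtain ⟨f1, f2, f3⟩ := hq k k1 h3 h4
      have h6 : xsr3bP b (σ j) + xsr3bP b (σ j1) - xsr3bP b (σ 0) =
          xsr3bP b k + xsr3bP b k1 - xsr3bP b 0 := by
        rw [← s2, ← s2, ← s2, hP0, sub_zero, ← h5, ht (xsr3bP b j), ht (xsr3bP b j1),
          ht (xsr3bP b j + xsr3bP b j1), map_add]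
        abel
      ext m
      rw [← xsr3b_supp b (σ.injective.ne e1) (σ.injective.ne e2) (σ.injective.ne e3), h6,
        xsr3b_supp b f1 f2 f3]

end Pool.Agent.N9181
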