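import Pool.Agent.MP_9181f8_al.S.R3b

namespace Pool.Agent.N9181

open scoped commutatorElement

theorem r3_aff {G : Type} [Group G] [Finite G] {Ω : Type} [Finite Ω] [MulAction G Ω] (B : Subgroup G) (hB : B.Normal)
    (p : ℕ) (hp : p.Prime) (hc : ∀ a ∈ B, ∀ b ∈ B, a * b = b * a) (hb : ∀ a ∈ B, a ^ p = 1)
    (x0 : Ω) (ht : ∀ x : Ω, ∃ b ∈ B, b • x0 = x) :
    ∃ c : Ω → Fin 3, Nat.card {x // c x = 1} ≠ Nat.card {x // c x = 2} ∧ Rig G c := by
  have := Fact.mk hp
  let π := MulAction.toPermHom G Ω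
  let Q : Subgroup (Equiv.Perm Ω) := B.map π
  let iQ : CommGroup Q :=
    { (inferInstance : Group Q) with
      mul_comm := by
        rintro ⟨_, a, ha, rfl⟩ ⟨_, b, hb, rfl⟩
        refine Subtype.ext ?_
        change π a * π b = π b * π a
        rw [← map_mul, hc a ha b hb, map_mul] }
  have hQ : ∀ x : Additive Q, p • x = 0 := by
    rintro ⟨_, a, ha, rfl⟩
    refine Subtype.ext ?_
    change π a ^ p = 1
    rw [← map_pow, hb a ha, map_one]
  let iM : Module (ZMod p) (Additive Q) := AddCommGroup.zmodModule hQ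
  have hbij : Function.Bijective fun x : Additive Q => (x.toMul : Equiv.Perm Ω) x0 := by
    constructor
    · rintro ⟨_, a, ha, rfl⟩ ⟨_, a', ha', rfl⟩ h
      replace h : a • x0 = a' • x0 := h
      refine Subtype.ext (Equiv.ext fun x => ?_)
      obtain ⟨b, hb, rfl⟩ := ht x
      change a • b • x0 = a' • b • x0
      rw [← mul_smul, hc a ha b hb, mul_smul, h, ← mul_smul, ← hc a' ha' b hb, mul_smul]
    · intro x
      obtain ⟨b, hb, rfl⟩ := ht x
      exact ⟨Additive.ofMul ⟨π b, b, hb, rfl⟩, rfl⟩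
  let e : Additive Q ≃ Ω := Equiv.ofBijective _ hbij
  have he : ∀ x, e x = (x.toMul : Equiv.Perm Ω) x0 := fun _ => rfl
  obtain ⟨c, h1, h2⟩ := r3_lin p (Additive Q)
  refine ⟨fun x => c (e.symm x), ?_, fun t n htn hcol x => ?_⟩
  · rwa [Nat.card_congr (e.symm.subtypeEquiv (q := fun x => c x = 1) fun _ => Iff.rfl),
      Nat.card_congr (e.symm.subtypeEquiv (q := fun x => c x = 2) fun _ => Iff.rfl)]
  have hm : ∀ q : Q, π t * q * (π t)⁻¹ ∈ Q := by
    rintro ⟨_, a, ha, rfl⟩
    exact ⟨t * a * t⁻¹, hB.conj_mem a ha t, by rw [map_mul, map_mul, map_inv]⟩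
  let φ : Additive Q →+ Additive Q := AddMonoidHom.mk'
    (fun x => Additive.ofMul ⟨_, hm x.toMul⟩) fun x y => Subtype.ext (by
      change π t * ((x.toMul : Equiv.Perm Ω) * y.toMul) * (π t)⁻¹ =
        π t * x.toMul * (π t)⁻¹ * (π t * y.toMul * (π t)⁻¹)
      group)
  have hT : ∀ y, e (e.symm.permCongrHom (π t) y) = t • e y := fun y => e.apply_symm_apply _
  have h3 := h2 φ (e.symm.permCongrHom (π t)) n (fun y => e.injective (by
      rw [hT, he, he]
      change _ = (π t * y.toMul * (π t)⁻¹) (e (e.symm.permCongrHom (π t) 0))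
      rw [hT]
      change _ = t • (y.toMul : Equiv.Perm Ω) ((π t)⁻¹ (π t x0))
      rw [← Equiv.Perm.mul_apply (π t)⁻¹, inv_mul_cancel, Equiv.Perm.one_apply]))
    (by rw [← map_pow, ← map_pow, htn, map_one, map_one]) fun y => by
      have := hcol (e y)
      simp only [Equiv.symm_apply_apply] at this
      exact this
  have h4 := hT (e.symm x)
  rw [h3, Equiv.Perm.one_apply, e.apply_symm_apply] at h4
  exact h4.symm

end Pool.Agent.N9181
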