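import Pool.Agent.MP_9181f8_al.S.Defs

namespace Pool.Agent.N9181

open scoped commutatorElement

theorem xsr3d_shift (n : Fin 3 → ℕ) (a b : Fin 3) (h : ∀ j, n (j - a) = n (j - b)) (hab : a ≠ b) :
    n 1 = n 2 := by
  have key : ∀ a b : Fin 3, a ≠ b →
      (∃ j, j - a = 1 ∧ j - b = 2) ∨ ∃ j, j - a = 2 ∧ j - b = 1 := by decide
  rcases key a b hab with ⟨j, h1, h2⟩ | ⟨j, h1, h2⟩
  · rw [← h1, ← h2, h j]
  · rw [← h1, ← h2, h j]

theorem xsr3d_card {G Ω : Type} [Group G] [MulAction G Ω] (g : G) (P Q : Ω → Prop)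
    (h : ∀ x, P x ↔ Q (g • x)) : Nat.card {x // P x} = Nat.card {x // Q x} :=
  Nat.card_congr ((MulAction.toPerm g).subtypeEquiv h)

theorem r3_step {G : Type} [Group G] [Finite G] {Ω Ω' : Type} [Finite Ω] [MulAction G Ω] [MulAction G Ω'] (f : Ω → Ω')
    (hs : Function.Surjective f) (hf : ∀ (g : G) (x : Ω), f (g • x) = g • f x) (c' : Ω' → Fin 3)
    (hc' : Rig G c')
    (h : ∀ y : Ω', ∃ c0 : Ω → Fin 3,
      Nat.card {x // f x = y ∧ c0 x = 1} ≠ Nat.card {x // f x = y ∧ c0 x = 2} ∧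
      ∀ (t : G) (n : ℕ), t ^ (3 ^ n) = 1 → t • y = y → (∀ x, f x = y → c0 (t • x) = c0 x) →
        ∀ x, f x = y → t • x = x) : ∃ c : Ω → Fin 3, Rig G c := by
  choose c0 h1 h2 using h
  obtain ⟨rep, hrep, hrt⟩ : ∃ rep : Ω' → Ω', (∀ y, ∃ k : G, k • y = rep y) ∧
      ∀ (t : G) y, rep (t • y) = rep y :=
    ⟨fun y => (Quotient.mk (MulAction.orbitRel G Ω') y).out,
      fun y => Quotient.mk_out (s := MulAction.orbitRel G Ω') y,
      fun t y => congrArg Quotient.out
        (Quotient.sound (s := MulAction.orbitRel G Ω') (MulAction.mem_orbit y t))⟩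
  choose k hk using hrep
  refine ⟨fun x => c0 (rep (f x)) (k (f x) • x) + c' (f x), fun t n ht hc => ?_⟩
  have hA : ∀ y j, Nat.card {x // f x = y ∧ c0 (rep (f x)) (k (f x) • x) + c' (f x) = j} =
      Nat.card {x // f x = rep y ∧ c0 (rep y) x = j - c' y} := fun y j => by
    refine xsr3d_card (k y) _ _ fun x => ?_
    rw [hf, ← hk y, smul_left_cancel_iff, hk y, eq_sub_iff_add_eq]
    refine and_congr_right fun hx => ?_
    rw [hx]
  have hct : ∀ y, c' (t • y) = c' y := fun y => by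
    by_contra hne
    refine h1 (rep y) (xsr3d_shift (fun j => Nat.card {x // f x = rep y ∧ c0 (rep y) x = j})
      _ _ (fun j => ?_) hne)
    have e1 := hA (t • y) j
    rw [hrt] at e1
    rw [← e1, ← hA y j]
    refine (xsr3d_card t _ _ fun x => ?_).symm
    have e2 := hc x
    beta_reduce at e2
    rw [e2, hf, smul_left_cancel_iff]
  have htr := hc' t n ht hct
  intro x
  have e := h2 (rep (f x)) (k (f x) * t * (k (f x))⁻¹) n
    (by rw [conj_pow, ht, mul_one, mul_inv_cancel])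
    (by rw [← hk, mul_smul, inv_smul_smul, mul_smul, htr])
    (fun x' hx' => by
      have e1 : f ((k (f x))⁻¹ • x') = f x := by rw [hf, hx', ← hk, inv_smul_smul]
      have e2 := hc ((k (f x))⁻¹ • x')
      beta_reduce at e2
      rw [hf t, htr, e1, add_left_inj, smul_inv_smul] at e2
      rw [mul_smul, mul_smul, e2])
    (k (f x) • x) (by rw [hf, hk])
  rwa [mul_smul, inv_smul_smul, mul_smul, smul_left_cancel_iff] at e

end Pool.Agent.N9181
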