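import Pool.Agent.MP_9181f8_al.S.R3c
import Pool.Agent.MP_9181f8_al.S.R3d
import Pool.Agent.MP_9181f8_al.N.Struct

namespace Pool.Agent.N9181

open scoped commutatorElement

theorem xsr3e_act {G Ω : Type} [Group G] [MulAction G Ω] (r : Setoid Ω)
    (hr : ∀ (g : G) x y, r x y → r (g • x) (g • y)) :
    ∃ _ : MulAction G (Quotient r), ∀ (g : G) (x : Ω),
      Quotient.mk r (g • x) = g • Quotient.mk r x :=
  ⟨{ smul := fun g => Quotient.map (g • ·) (hr g)
     one_smul := by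
      rintro ⟨x⟩
      exact congrArg (Quotient.mk r) (one_smul G x)
     mul_smul := by
      rintro g h ⟨x⟩
      exact congrArg (Quotient.mk r) (mul_smul g h x) }, fun _ _ => rfl⟩

theorem xsr3e_fib {G : Type} [Group G] [Finite G] {Ω Ω' : Type} [Finite Ω] [MulAction G Ω]
    [MulAction G Ω'] (f : Ω → Ω') (hf : ∀ (g : G) (x : Ω), f (g • x) = g • f x) (B : Subgroup G)
    (hB : B.Normal) (p : ℕ) (hp : p.Prime) (hc : ∀ a ∈ B, ∀ b ∈ B, a * b = b * a)
    (hb : ∀ a ∈ B, a ^ p = 1) (x0 : Ω) (ht : ∀ x, f x = f x0 → ∃ b ∈ B, b • x0 = x) :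
    ∃ c0 : Ω → Fin 3,
      Nat.card {x // f x = f x0 ∧ c0 x = 1} ≠ Nat.card {x // f x = f x0 ∧ c0 x = 2} ∧
      ∀ (t : G) (n : ℕ), t ^ (3 ^ n) = 1 → t • f x0 = f x0 →
        (∀ x, f x = f x0 → c0 (t • x) = c0 x) → ∀ x, f x = f x0 → t • x = x := by
  classical
  let _ : MulAction (MulAction.stabilizer G (f x0)) {x // f x = f x0} :=
    { smul := fun s x => ⟨s.1 • x.1, by rw [hf, x.2]; exact s.2⟩
      one_smul := fun x => Subtype.ext (one_smul G x.1)
      mul_smul := fun g h x => Subtype.ext (mul_smul g.1 h.1 x.1) }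
  obtain ⟨c, h1, h2⟩ := r3_aff (Ω := {x // f x = f x0})
    (B.subgroupOf (MulAction.stabilizer G (f x0))) (hB.subgroupOf _) p hp
    (fun a ha b hb => Subtype.ext (hc _ ha _ hb)) (fun a ha => Subtype.ext (hb _ ha)) ⟨x0, rfl⟩
    fun x => by
      obtain ⟨b, hb, e⟩ := ht x.1 x.2
      exact ⟨⟨b, by rw [MulAction.mem_stabilizer_iff, ← hf, e, x.2]⟩, hb, Subtype.ext e⟩
  have hc0 : ∀ x : {x // f x = f x0},
      (if h : f x.1 = f x0 then c ⟨x.1, h⟩ else 0) = c x := fun x => dif_pos x.2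
  have hcard : ∀ k : Fin 3, Nat.card {x // f x = f x0 ∧
      (if h : f x = f x0 then c ⟨x, h⟩ else 0) = k} = Nat.card {x // c x = k} := fun k =>
    Nat.card_congr
      { toFun := fun x => ⟨⟨x.1, x.2.1⟩, (hc0 ⟨x.1, x.2.1⟩).symm.trans x.2.2⟩
        invFun := fun x => ⟨x.1.1, x.1.2, (hc0 x.1).trans x.2⟩
        left_inv := fun _ => rfl
        right_inv := fun _ => rfl }
  refine ⟨fun x => if h : f x = f x0 then c ⟨x, h⟩ else 0, by rwa [hcard, hcard],
    fun t n h3 hy h x hx => ?_⟩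
  exact congrArg Subtype.val (h2 ⟨t, hy⟩ n (Subtype.ext h3)
    (fun z => (hc0 _).symm.trans ((h z.1 z.2).trans (hc0 z))) ⟨x, hx⟩)

theorem xsr3e_ind (k : ℕ) : ∀ (G : Type) [Group G] [Finite G] [Group.IsSolvable G] (Ω : Type)
    [Finite Ω] [MulAction G Ω], Nat.card Ω = k → ∃ c : Ω → Fin 3, Rig G c := by
  induction k using Nat.strong_induction_on with
  | h k ih =>
  intro G _ _ _ Ω _ _ hk
  let G' := (MulAction.toPermHom G Ω).range
  have : Group.IsSolvable G' :=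
    Group.isSolvable_of_surjective (MulAction.toPermHom G Ω).rangeRestrict_surjective
  suffices h : ∃ c : Ω → Fin 3, Rig G' c by
    obtain ⟨c, hc⟩ := h
    refine ⟨c, fun t n h3 h => hc ((MulAction.toPermHom G Ω).rangeRestrict t) n ?_ h⟩
    rw [← map_pow, h3, map_one]
  by_cases h0 : (⊤ : Subgroup G') = ⊥
  · refine ⟨fun _ => 0, fun t _ _ _ x => ?_⟩
    have : t = 1 := Subgroup.mem_bot.1 (h0 ▸ Subgroup.mem_top t)
    rw [this, one_smul]
  obtain ⟨B, p, hB, -, hne, hp, hc, hb, -⟩ := exists_min ⊤ inferInstance h0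
  obtain ⟨_, hf⟩ := xsr3e_act (G := G') (MulAction.orbitRel B Ω) (by
    rintro g x y ⟨b, rfl⟩
    refine ⟨⟨g * b * g⁻¹, hB.conj_mem _ b.2 g⟩, ?_⟩
    change (g * b * g⁻¹ : G') • g • y = g • (b : G') • y
    rw [mul_smul, inv_smul_smul, mul_smul])
  have hlt : Nat.card (Quotient (MulAction.orbitRel B Ω)) < k := by
    have := Fintype.ofFinite Ω
    have := Fintype.ofFinite (Quotient (MulAction.orbitRel B Ω))
    rw [← hk, Nat.card_eq_fintype_card, Nat.card_eq_fintype_card]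
    refine Fintype.card_lt_of_surjective_not_injective _ Quotient.mk_surjective fun hi => hne ?_
    rw [eq_bot_iff]
    intro b hb
    exact Subgroup.mem_bot.2 (Subtype.ext (Equiv.ext fun x =>
      hi (Quotient.sound ⟨⟨b, hb⟩, rfl⟩)))
  obtain ⟨c', hc'⟩ := ih _ hlt G' _ rfl
  refine r3_step _ Quotient.mk_surjective hf c' hc' fun y => ?_
  obtain ⟨x0, rfl⟩ := Quotient.mk_surjective y
  refine xsr3e_fib _ hf B hB p hp hc hb x0 fun x hx => ?_
  obtain ⟨b, e⟩ := Quotient.exact hx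
  exact ⟨b, b.2, e⟩

theorem r3 (G : Type) [Group G] [Finite G] [Group.IsSolvable G] (Ω : Type) [Finite Ω]
    [MulAction G Ω] : ∃ c : Ω → Fin 3, Rig G c := by
  exact xsr3e_ind _ G Ω rfl

theorem r3_pi {G : Type} [Group G] [Finite G] [Group.IsSolvable G] {I : Type} [Finite I] [MulAction G I] (π : I → I)
    (h1 : ∀ i, π (π i) = i) (h2 : ∀ (g : G) (i : I), π (g • i) = g • π i) :
    ∃ c : I → Fin 3, (∀ i, c (π i) = c i) ∧ Rig G c := by
  let r : Setoid I := ⟨fun i j => i = j ∨ i = π j, fun _ => Or.inl rfl, by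
    rintro i j (rfl | rfl)
    · exact Or.inl rfl
    · exact Or.inr (h1 _).symm, by
    rintro i j k (rfl | rfl) (rfl | rfl)
    · exact Or.inl rfl
    · exact Or.inr rfl
    · exact Or.inr rfl
    · exact Or.inl (h1 _)⟩
  obtain ⟨_, hf⟩ := xsr3e_act (G := G) r (by
    rintro g i j (rfl | rfl)
    · exact Or.inl rfl
    · exact Or.inr (h2 _ _).symm)
  obtain ⟨c', hc'⟩ := r3 G (Quotient r)
  refine ⟨fun i => c' (Quotient.mk r i), fun i => congrArg c' (Quotient.sound (Or.inr rfl)),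
    fun t n h3 h i => ?_⟩
  have e := hc' t n h3 (fun y => by
    obtain ⟨x, rfl⟩ := Quotient.mk_surjective y
    rw [← hf]
    exact h x) (Quotient.mk r i)
  rw [← hf] at e
  rcases Quotient.exact e with e | e
  · exact e
  have e2 : t ^ 2 ∈ MulAction.stabilizer G i := by
    rw [MulAction.mem_stabilizer_iff, pow_two, mul_smul, e, ← h2, e, h1]
  obtain ⟨k, hk⟩ : Odd (3 ^ n) := Odd.pow (by decide)
  have e3 : (t ^ 2) ^ k • i = i := pow_mem e2 k
  conv_lhs => rw [← e3, ← mul_smul, ← pow_mul, ← pow_succ', ← hk, h3, one_smul]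

end Pool.Agent.N9181
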