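import Pool.Agent.MP_9181f8_al.S.Defs

namespace Pool.Agent.N9181

open scoped commutatorElement

/-- the number of squares in a commutative group -/
noncomputable def xsrbaS (G : Type) [CommGroup G] : ℕ :=
  Nat.card (powMonoidHom 2 : G →* G).range

theorem xsrba_prod {G A B : Type} [CommGroup G] [CommGroup A] [CommGroup B] (e : G ≃* A × B) :
    xsrbaS G = xsrbaS A * xsrbaS B := by
  have h : (powMonoidHom 2 : G →* G).range.map e.toMonoidHom =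
      (powMonoidHom 2 : A →* A).range.prod (powMonoidHom 2 : B →* B).range := by
    ext x
    rw [Subgroup.mem_map, Subgroup.mem_prod]
    constructor
    · rintro ⟨_, ⟨y, rfl⟩, rfl⟩
      exact ⟨⟨(e y).1, by simp⟩, ⟨(e y).2, by simp⟩⟩
    · rintro ⟨⟨a, ha⟩, ⟨b, hb⟩⟩
      refine ⟨_, ⟨e.symm (a, b), rfl⟩, ?_⟩
      rw [powMonoidHom_apply] at ha hb ⊢
      rw [map_pow]
      exact Prod.ext (by simpa using ha) (by simpa using hb)
  rw [xsrbaS, xsrbaS, xsrbaS, ← Nat.card_prod, ← Nat.card_congr (Subgroup.prodEquiv _ _).toEquiv,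
    ← h]
  exact Nat.card_congr (Subgroup.equivMapOfInjective _ e.toMonoidHom e.injective).toEquiv

theorem xsrba_mul {a b : ℕ} (h : a.Coprime b) :
    xsrbaS (ZMod (a * b))ˣ = xsrbaS (ZMod a)ˣ * xsrbaS (ZMod b)ˣ :=
  xsrba_prod ((Units.mapEquiv (ZMod.chineseRemainder h).toMulEquiv).trans MulEquiv.prodUnits)

theorem xsrba_pos (r : ℕ) (hr : 0 < r) : 1 ≤ xsrbaS (ZMod r)ˣ := by
  have : NeZero r := ⟨hr.ne'⟩
  exact Nat.card_pos

theorem xsrba_odd {p m : ℕ} (hp : p.Prime) (hm : p = 2 * m + 1) (k : ℕ) :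
    xsrbaS (ZMod (p ^ (k + 1)))ˣ = p ^ k * m := by
  have : NeZero (p ^ (k + 1)) := ⟨pow_ne_zero _ hp.ne_zero⟩
  have := ZMod.isCyclic_units_of_prime_pow p hp (by omega) (k + 1)
  have hc : Nat.card (ZMod (p ^ (k + 1)))ˣ = 2 * (p ^ k * m) := by
    rw [Nat.card_eq_fintype_card, ZMod.card_units_eq_totient, Nat.totient_prime_pow_succ hp,
      show p - 1 = 2 * m by omega]
    ring
  rw [xsrbaS, IsCyclic.card_powMonoidHom_range, hc, Nat.gcd_eq_right (dvd_mul_right _ _),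
    Nat.mul_div_cancel_left _ two_pos]

theorem xsrba_two (k : ℕ) : 2 ^ k ≤ xsrbaS (ZMod (2 ^ (k + 3)))ˣ := by
  have : NeZero (2 ^ (k + 3)) := ⟨pow_ne_zero _ two_ne_zero⟩
  let u : (ZMod (2 ^ (k + 3)))ˣ :=
    ZMod.unitOfCoprime 5 (Nat.Coprime.pow_right _ (by norm_num))
  have h1 : orderOf u = 2 ^ (k + 1) := by
    rw [← orderOf_units, ZMod.coe_unitOfCoprime, Nat.cast_ofNat]
    exact ZMod.orderOf_five (k + 1)
  have h2 : orderOf (u ^ 2) = 2 ^ k := by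
    rw [orderOf_pow' _ two_ne_zero, h1, pow_succ, Nat.gcd_eq_right (dvd_mul_left _ _),
      Nat.mul_div_cancel _ two_pos]
  rw [← h2]
  exact Nat.le_of_dvd Nat.card_pos (Subgroup.orderOf_dvd_natCard _ ⟨u, rfl⟩)

theorem xsrba_if {q : ℕ} (c d : ℕ) {a b : ℕ} (h1 : q ∣ a * b ↔ q ∣ a ∨ q ∣ b)
    (h2 : ¬ (q ∣ a ∧ q ∣ b)) :
    (if q ∣ a then c else d) * (if q ∣ b then c else d) = d * if q ∣ a * b then c else d := by
  by_cases ha : q ∣ a <;> by_cases hb : q ∣ b <;> simp_all [mul_comm]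

theorem xsrba_pp (p k : ℕ) (hp : p.Prime) :
    8 * p ^ (k + 1) ≤ (if 5 ∣ p ^ (k + 1) then 5 else 4) * (if 8 ∣ p ^ (k + 1) then 4 else 2) *
      Nat.gcd (p ^ (k + 1)) 12 * xsrbaS (ZMod (p ^ (k + 1)))ˣ ^ 2 := by
  have h5 : 4 ≤ (if 5 ∣ p ^ (k + 1) then 5 else 4) := by split_ifs <;> omega
  have h8 : 2 ≤ (if 8 ∣ p ^ (k + 1) then 4 else 2) := by split_ifs <;> omega
  have hg : ∀ d, d ∣ p ^ (k + 1) → d ∣ 12 → d ≤ Nat.gcd (p ^ (k + 1)) 12 := fun d h1 h2 =>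
    Nat.le_of_dvd (Nat.gcd_pos_of_pos_right _ (by norm_num)) (Nat.dvd_gcd h1 h2)
  have hs := xsrba_pos _ (pow_pos hp.pos (k + 1))
  rcases hp.eq_two_or_odd' with rfl | ⟨m, hm⟩
  · rcases k with _ | _ | k
    · calc 8 * 2 ^ (0 + 1) = 4 * 2 * 2 * 1 ^ 2 := by norm_num
        _ ≤ _ := by gcongr; exact hg 2 (by norm_num) (by norm_num)
    · calc 8 * 2 ^ (0 + 1 + 1) = 4 * 2 * 4 * 1 ^ 2 := by norm_num
        _ ≤ _ := by gcongr; exact hg 4 (by norm_num) (by norm_num)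
    · have h9 : 8 ∣ 2 ^ (k + 1 + 1 + 1) := ⟨2 ^ k, by ring⟩
      have h1 : 1 ≤ 2 ^ k := Nat.one_le_two_pow
      rw [if_pos h9]
      calc 8 * 2 ^ (k + 1 + 1 + 1) = 4 * 4 * 4 * (2 ^ k * 1) := by ring
        _ ≤ 4 * 4 * 4 * (2 ^ k * 2 ^ k) := by gcongr
        _ = 4 * 4 * 4 * (2 ^ k) ^ 2 := by ring
        _ ≤ _ := by
          gcongr
          · exact hg 4 (Dvd.dvd.trans (by norm_num) h9) (by norm_num)
          · exact xsrba_two k
  · rw [xsrba_odd hp hm]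
    have h1 : 1 ≤ p ^ k := Nat.one_le_pow _ _ hp.pos
    have key : ∀ c g : ℕ, 8 * p ≤ c * 2 * g * m ^ 2 → c ≤ (if 5 ∣ p ^ (k + 1) then 5 else 4) →
        g ≤ Nat.gcd (p ^ (k + 1)) 12 →
        8 * p ^ (k + 1) ≤ (if 5 ∣ p ^ (k + 1) then 5 else 4) *
          (if 8 ∣ p ^ (k + 1) then 4 else 2) * Nat.gcd (p ^ (k + 1)) 12 * (p ^ k * m) ^ 2 := by
      intro c g h hc hg'
      calc 8 * p ^ (k + 1) = 8 * p * (p ^ k * 1) := by ring
        _ ≤ c * 2 * g * m ^ 2 * (p ^ k * p ^ k) := by gcongr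
        _ = c * 2 * g * (p ^ k * m) ^ 2 := by ring
        _ ≤ _ := by gcongr
    have hd : p ∣ p ^ (k + 1) := dvd_pow_self _ (Nat.succ_ne_zero _)
    have h2 := hp.two_le
    by_cases m1 : m = 1
    · subst m1
      subst hm
      exact key 4 3 (by norm_num) h5 (hg 3 hd (by norm_num))
    by_cases m2 : m = 2
    · subst m2
      subst hm
      exact key 5 1 (by norm_num) (if_pos hd).ge (hg 1 (one_dvd _) (one_dvd _))
    · have m3 : 3 ≤ m := by omega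
      exact key 4 1 (by nlinarith) h5 (hg 1 (one_dvd _) (one_dvd _))

theorem sq_count (r : ℕ) (hr : 0 < r) :
    8 * r ≤ (if 5 ∣ r then 5 else 4) * (if 8 ∣ r then 4 else 2) * Nat.gcd r 12 *
      Nat.card (powMonoidHom 2 : (ZMod r)ˣ →* (ZMod r)ˣ).range ^ 2 := by
  change 8 * r ≤ _ * xsrbaS (ZMod r)ˣ ^ 2
  induction r using Nat.recOnPosPrimePosCoprime with
  | prime_pow p n hp hn =>
    obtain ⟨k, rfl⟩ : ∃ k, n = k + 1 := ⟨n - 1, by omega⟩
    exact xsrba_pp p k hp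
  | zero => omega
  | one =>
    have := xsrba_pos 1 one_pos
    norm_num
    exact Nat.one_le_pow _ _ this
  | coprime a b ha hb hab iha ihb =>
    have h1 := Nat.mul_le_mul (iha (by omega)) (ihb (by omega))
    have nb : ∀ q, 1 < q → ¬ (q ∣ a ∧ q ∣ b) := fun q hq h =>
      hq.ne' (Nat.eq_one_of_dvd_coprimes hab h.1 h.2)
    have e5 := xsrba_if 5 4 (Nat.Prime.dvd_mul (by norm_num : Nat.Prime 5)) (nb 5 (by norm_num))
    have e8 := xsrba_if (q := 8) 4 2 (a := a) (b := b)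
      (hab.isPrimePow_dvd_mul (n := 8) ((isPrimePow_nat_iff 8).2 ⟨2, 3, by norm_num⟩))
      (nb 8 (by norm_num))
    rw [xsrba_mul hab, hab.mul_gcd]
    refine Nat.le_of_mul_le_mul_left (c := 4 * 2) ?_ (by norm_num)
    generalize (if 5 ∣ a * b then 5 else 4) = x, (if 8 ∣ a * b then 4 else 2) = y,
      (if 5 ∣ a then 5 else 4) = x1, (if 8 ∣ a then 4 else 2) = y1,
      (if 5 ∣ b then 5 else 4) = x2, (if 8 ∣ b then 4 else 2) = y2 at *
    calc 4 * 2 * (8 * (a * b)) = 8 * a * (8 * b) := by ring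
      _ ≤ _ := h1
      _ = (x1 * x2) * (y1 * y2) * (a.gcd 12 * b.gcd 12 *
          (xsrbaS (ZMod a)ˣ * xsrbaS (ZMod b)ˣ) ^ 2) := by ring
      _ = _ := by rw [e5, e8]; ring

end Pool.Agent.N9181
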