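import Pool.Agent.MP_9181f8_al.S.RBa

namespace Pool.Agent.N9181

open scoped commutatorElement

theorem xsrbound_ns {r d : ℕ} (h13 : Nat.Coprime 13 r) (hd : d ∣ r)
    (h : ∀ x : ZMod d, x ^ 2 ≠ (13 : ℕ)) :
    ZMod.unitOfCoprime 13 h13 ∉ (powMonoidHom 2 : (ZMod r)ˣ →* (ZMod r)ˣ).range := by
  rintro ⟨u, hu⟩
  have h1 := congrArg (fun x : (ZMod r)ˣ => ZMod.castHom hd (ZMod d) x) hu
  simp only [powMonoidHom_apply, Units.val_pow_eq_pow_val, map_pow, ZMod.coe_unitOfCoprime,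
    map_natCast] at h1
  exact h _ h1

theorem rbound (r : ℕ) (hr : 0 < r) (h13 : Nat.Coprime 13 r) (G : Subgroup (ZMod r)ˣ)
    (hsq : ∀ u : (ZMod r)ˣ, u * u ∈ G) (h : ZMod.unitOfCoprime 13 h13 ∈ G) :
    r ≤ Nat.gcd r 12 * Nat.card G ^ 2 ∧ r ∣ 13 ^ Nat.card G - 1 ∧ (Nat.card G ≤ 2 → r ∣ 24) := by
  have : NeZero r := ⟨hr.ne'⟩
  have hpow : ∀ u ∈ G, u ^ Nat.card G = 1 := fun u hu =>
    congrArg Subtype.val (pow_card_eq_one' (x := (⟨u, hu⟩ : G)))
  have h2 : r ∣ 13 ^ Nat.card G - 1 := by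
    refine (Nat.modEq_iff_dvd' (Nat.one_le_pow _ _ (by norm_num))).1
      ((ZMod.natCast_eq_natCast_iff _ _ _).1 ?_)
    simpa using congrArg Units.val (hpow _ h).symm
  refine ⟨?_, h2, fun hc => ?_⟩
  · have h1 := sq_count r hr
    have hle : (powMonoidHom 2 : (ZMod r)ˣ →* (ZMod r)ˣ).range ≤ G := by
      rintro _ ⟨u, rfl⟩
      simpa [sq] using hsq u
    obtain ⟨k, hk⟩ := Subgroup.card_dvd_of_le hle
    have h0 : k ≠ 0 := by
      rintro rfl
      exact Nat.card_pos.ne' hk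
    have h3 : 5 ∣ r ∨ 8 ∣ r → k ≠ 1 := by
      rintro h3 rfl
      rw [← Subgroup.eq_of_le_of_card_ge hle (by rw [hk, mul_one])] at h
      rcases h3 with h3 | h3
      · exact xsrbound_ns h13 h3 (by decide) h
      · exact xsrbound_ns h13 h3 (by decide) h
    have h4 : (if 5 ∣ r then 5 else 4) * (if 8 ∣ r then 4 else 2) ≤ 8 * k ^ 2 := by
      have h5 : 2 ≤ k → 4 ≤ k ^ 2 := fun h => by nlinarith
      have h6 : 0 < k ^ 2 := by positivity
      split_ifs <;> omega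
    rw [hk, mul_pow]
    generalize Nat.card (powMonoidHom 2 : (ZMod r)ˣ →* (ZMod r)ˣ).range ^ 2 = s at h1
    have h5 := Nat.mul_le_mul_right (Nat.gcd r 12 * s) h4
    nlinarith
  · have h0 : 0 < Nat.card G := Nat.card_pos
    have h7 : ¬ 7 ∣ r := fun h7 => by
      obtain ⟨u, hu⟩ := ZMod.unitsMap_surjective h7 (ZMod.unitOfCoprime 3 (by norm_num))
      have h1 := congrArg (fun x => (ZMod.unitsMap h7 x : ZMod 7)) (hpow _ (hsq u))
      simp only [map_pow, map_mul, map_one, hu, Units.val_pow_eq_pow_val, Units.val_mul,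
        ZMod.coe_unitOfCoprime, Units.val_one] at h1
      revert h1
      interval_cases Nat.card G <;> decide
    refine ((Nat.Prime.coprime_iff_not_dvd (by norm_num)).2 h7).symm.dvd_of_dvd_mul_left
      (h2.trans ?_)
    interval_cases Nat.card G <;> norm_num

end Pool.Agent.N9181
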