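import Pool.Agent.MP_9181f8_al.S.SBasic

namespace Pool.Agent.N9181

open scoped commutatorElement

section

variable {V : Type} [AddCommGroup V] [Module K V] {H : Type} [Group H]

theorem xsrefine_mul (ρ : Representation K H V) (a b : H) (U : Submodule K V) :
    U.map (ρ (a * b)) = (U.map (ρ b)).map (ρ a) := by
  rw [map_mul, Module.End.mul_eq_comp, Submodule.map_comp]

theorem xsrefine_one (ρ : Representation K H V) (U : Submodule K V) : U.map (ρ 1) = U := by
  rw [map_one, Module.End.one_eq_id, Submodule.map_id]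

theorem xsrefine_inv (ρ : Representation K H V) (a : H) (U : Submodule K V) :
    (U.map (ρ a)).map (ρ a⁻¹) = U := by
  rw [← xsrefine_mul, inv_mul_cancel, xsrefine_one]

theorem xsrefine_inv' (ρ : Representation K H V) (a : H) (U : Submodule K V) :
    (U.map (ρ a⁻¹)).map (ρ a) = U := by
  rw [← xsrefine_mul, mul_inv_cancel, xsrefine_one]

theorem xsrefine_bot (ρ : Representation K H V) (a : H) (U : Submodule K V)
    (h : U.map (ρ a) = ⊥) : U = ⊥ := by
  rw [← xsrefine_inv ρ a U, h, Submodule.map_bot]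

theorem xsrefine_sSup (ρ : Representation K H V) (a : H) (S : Set (Submodule K V)) :
    sSup ((fun U => U.map (ρ a)) '' S) = (sSup S).map (ρ a) := by
  rw [sSup_image, sSup_eq_iSup, Submodule.map_iSup]
  refine iSup_congr fun U => ?_
  rw [Submodule.map_iSup]

theorem xsrefine_ind (ρ : Representation K H V) (a : H) (S : Set (Submodule K V))
    (hS : sSupIndep S) : sSupIndep ((fun U => U.map (ρ a)) '' S) := by
  rintro _ ⟨U, hU, rfl⟩
  have h1 : sSup ((fun U : Submodule K V => U.map (ρ a)) '' S \ {U.map (ρ a)}) ≤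
      (sSup (S \ {U})).map (ρ a) := by
    rw [← xsrefine_sSup]
    refine sSup_le_sSup ?_
    rintro _ ⟨⟨U', hU', rfl⟩, hne⟩
    refine ⟨U', ⟨hU', ?_⟩, rfl⟩
    rintro rfl
    exact hne rfl
  refine Disjoint.mono_right h1 ?_
  rw [Submodule.disjoint_def]
  rintro _ ⟨x, hx, rfl⟩ ⟨y, hy, hxy⟩
  have hyx : y = x := by
    have := congrArg (ρ a⁻¹) hxy
    rwa [rho_inv, rho_inv] at this
  subst hyx
  rw [Submodule.disjoint_def.1 (hS hU) y hx hy, map_zero]

theorem xsrefine_eq (S : Set (Submodule K V)) (hS : sSupIndep S) (U U1 U2 : Submodule K V)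
    (h1 : U1 ∈ S) (h2 : U2 ∈ S) (hU : U ≠ ⊥) (l1 : U ≤ U1) (l2 : U ≤ U2) : U1 = U2 := by
  by_contra hne
  have hd : Disjoint U1 U2 := hS.pairwiseDisjoint h1 h2 hne
  exact hU (le_bot_iff.1 (hd l1 l2))

theorem xsrefine_glue (S T : Set (Submodule K V)) (hS : sSupIndep S)
    (hT : ∀ U ∈ T, ∃ U1 ∈ S, U ≤ U1)
    (hC : ∀ U1 ∈ S, sSupIndep {U | U ∈ T ∧ U ≤ U1}) : sSupIndep T := by
  intro U hU
  obtain ⟨U1, hU1, hle⟩ := hT U hU
  have h1 : sSup (T \ {U}) ≤ sSup ({U | U ∈ T ∧ U ≤ U1} \ {U}) ⊔ sSup (S \ {U1}) := by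
    refine sSup_le ?_
    rintro U' ⟨hU', hne⟩
    obtain ⟨U2, hU2, hle2⟩ := hT U' hU'
    by_cases h : U2 = U1
    · subst h
      exact le_sup_of_le_left (le_sSup ⟨⟨hU', hle2⟩, hne⟩)
    · exact le_sup_of_le_right (hle2.trans (le_sSup ⟨hU2, h⟩))
  refine Disjoint.mono_right h1 ?_
  rw [Submodule.disjoint_def]
  intro x hx hx'
  obtain ⟨a, ha, b, hb, rfl⟩ := Submodule.mem_sup.1 hx'
  have hA : sSup ({U | U ∈ T ∧ U ≤ U1} \ {U}) ≤ U1 := sSup_le fun U' hU' => hU'.1.2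
  have hb1 : b ∈ U1 := by
    have := U1.sub_mem (hle hx) (hA ha)
    rwa [add_sub_cancel_left] at this
  have hb0 : b = 0 := Submodule.disjoint_def.1 (hS hU1) b hb1 hb
  subst hb0
  rw [add_zero] at hx ⊢
  exact Submodule.disjoint_def.1 (hC U1 hU1 ⟨hU, hle⟩) a hx ha

end

theorem refine_a {V : Type} [AddCommGroup V] [Module K V] [Module.Finite K V]
    {H : Type} [Group H] [Finite H] (ρ : Representation K H V) (S : Set (Submodule K V)) (hS : SBD ρ S) (U0 : Submodule K V)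
    (hU0 : U0 ∈ S) (S' : Set (Submodule K V)) (h1 : ⊥ ∉ S') (h2 : sSupIndep S')
    (h3 : sSup S' = U0) (h4 : ∀ h : H, U0.map (ρ h) = U0 → ∀ U ∈ S', U.map (ρ h) ∈ S') :
    SBD ρ ({U | U ∈ S ∧ ∀ h : H, U ≠ U0.map (ρ h)} ∪ {U | ∃ h : H, ∃ U' ∈ S', U = U'.map (ρ h)}) ∧
      (S' ≠ {U0} → S.ncard <
        ({U | U ∈ S ∧ ∀ h : H, U ≠ U0.map (ρ h)} ∪
          {U | ∃ h : H, ∃ U' ∈ S', U = U'.map (ρ h)}).ncard) := by
  classical
  set T : Set (Submodule K V) := {U | U ∈ S ∧ ∀ h : H, U ≠ U0.map (ρ h)} ∪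
    {U | ∃ h : H, ∃ U' ∈ S', U = U'.map (ρ h)} with hTdef
  have hle0 : ∀ U' ∈ S', U' ≤ U0 := fun U' hU' => h3 ▸ le_sSup hU'
  have hne : ∀ U ∈ T, U ≠ ⊥ := by
    rintro U (⟨hU, -⟩ | ⟨h, U', hU', rfl⟩) hb
    · exact hS.ne (hb ▸ hU)
    · exact h1 (xsrefine_bot ρ h U' hb ▸ hU')
  have hT : ∀ U ∈ T, ∃ U1 ∈ S, U ≤ U1 := by
    rintro U (⟨hU, -⟩ | ⟨h, U', hU', rfl⟩)
    · exact ⟨U, hU, le_rfl⟩
    · exact ⟨_, hS.map h U0 hU0, Submodule.map_mono (hle0 U' hU')⟩
  have hC : ∀ U1 ∈ S, sSupIndep {U | U ∈ T ∧ U ≤ U1} ∧ sSup {U | U ∈ T ∧ U ≤ U1} = U1 := by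
    intro U1 hU1
    by_cases hc : ∀ h : H, U1 ≠ U0.map (ρ h)
    · have e : {U | U ∈ T ∧ U ≤ U1} = {U1} := by
        ext U
        constructor
        · rintro ⟨hU, hle⟩
          have hb := hne U hU
          rcases hU with ⟨hU, -⟩ | ⟨h, U', hU', rfl⟩
          · exact xsrefine_eq S hS.ind U U U1 hU hU1 hb le_rfl hle
          · exact absurd (xsrefine_eq S hS.ind _ _ _ hU1 (hS.map h U0 hU0) hb hle
              (Submodule.map_mono (hle0 U' hU'))) (hc h)
        · rintro rfl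
          exact ⟨Or.inl ⟨hU1, hc⟩, le_rfl⟩
      rw [e]
      exact ⟨sSupIndep_singleton _, sSup_singleton⟩
    · push Not at hc
      obtain ⟨h, rfl⟩ := hc
      have e : {U | U ∈ T ∧ U ≤ U0.map (ρ h)} = (fun U => U.map (ρ h)) '' S' := by
        ext U
        constructor
        · rintro ⟨hU, hle⟩
          have hb := hne U hU
          rcases hU with ⟨hU, hn⟩ | ⟨k, U', hU', rfl⟩
          · exact absurd (xsrefine_eq S hS.ind U U _ hU hU1 hb le_rfl hle) (hn h)
          · have e1 := xsrefine_eq S hS.ind _ _ _ (hS.map k U0 hU0) hU1 hb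
              (Submodule.map_mono (hle0 U' hU')) hle
            refine ⟨U'.map (ρ (h⁻¹ * k)), h4 _ ?_ U' hU', ?_⟩
            · rw [xsrefine_mul, e1, xsrefine_inv]
            · show (U'.map (ρ (h⁻¹ * k))).map (ρ h) = _
              rw [xsrefine_mul, xsrefine_inv']
        · rintro ⟨U', hU', rfl⟩
          exact ⟨Or.inr ⟨h, U', hU', rfl⟩, Submodule.map_mono (hle0 U' hU')⟩
      rw [e]
      exact ⟨xsrefine_ind ρ h S' h2, by rw [xsrefine_sSup, h3]⟩
  refine ⟨⟨?_, xsrefine_glue S T hS.ind hT fun U1 hU1 => (hC U1 hU1).1, ?_,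
    fun hb => hne _ hb rfl⟩, fun hS' => ?_⟩
  · rintro h W (⟨hW, hn⟩ | ⟨k, U', hU', rfl⟩)
    · refine Or.inl ⟨hS.map h W hW, fun k hk => hn (h⁻¹ * k) ?_⟩
      rw [xsrefine_mul, ← hk, xsrefine_inv]
    · exact Or.inr ⟨h * k, U', hU', (xsrefine_mul ρ h k U').symm⟩
  · rw [eq_top_iff, ← hS.top]
    refine sSup_le fun U1 hU1 => ?_
    rw [← (hC U1 hU1).2]
    exact sSup_le_sSup fun U hU => hU.1
  · have : Finite V := Module.finite_of_finite K
    have : Finite (Submodule K V) :=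
      Finite.of_injective (fun U : Submodule K V => (U : Set V)) SetLike.coe_injective
    choose! f hf using hT
    have hfe : ∀ U ∈ T, ∀ U1 ∈ S, U ≤ U1 → f U = U1 := fun U hU U1 hU1 hle =>
      xsrefine_eq S hS.ind U _ _ (hf U hU).1 hU1 (hne U hU) (hf U hU).2 hle
    have him : f '' T = S := by
      ext U1
      constructor
      · rintro ⟨U, hU, rfl⟩
        exact (hf U hU).1
      · intro hU1
        have hn : {U | U ∈ T ∧ U ≤ U1}.Nonempty := by
          rw [Set.nonempty_iff_ne_empty]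
          intro he
          have := (hC U1 hU1).2
          rw [he, sSup_empty] at this
          exact hS.ne (this ▸ hU1)
        obtain ⟨U, hU, hle⟩ := hn
        exact ⟨U, hU, hfe U hU U1 hU1 hle⟩
    have hmem : ∀ U' ∈ S', U' ∈ T := fun U' hU' =>
      Or.inr ⟨1, U', hU', (xsrefine_one ρ U').symm⟩
    have hni : ¬ Set.InjOn f T := by
      intro hi
      apply hS'
      have hn : S'.Nonempty := by
        rw [Set.nonempty_iff_ne_empty]
        intro he
        rw [he, sSup_empty] at h3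
        exact hS.ne (h3 ▸ hU0)
      obtain ⟨U', hU'⟩ := hn
      have e : S' = {U'} := by
        refine Set.eq_singleton_iff_unique_mem.2 ⟨hU', fun U'' hU'' => ?_⟩
        refine hi (hmem _ hU'') (hmem _ hU') ?_
        rw [hfe _ (hmem _ hU'') U0 hU0 (hle0 _ hU''), hfe _ (hmem _ hU') U0 hU0 (hle0 _ hU')]
      rw [e, sSup_singleton] at h3
      rw [e, h3]
    rw [← him]
    refine lt_of_le_of_ne (Set.ncard_image_le (Set.toFinite T)) fun he => hni ?_
    exact (Set.ncard_image_iff (Set.toFinite T)).1 he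

end Pool.Agent.N9181
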