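import Pool.Agent.MP_9181f8_al.S.SBasic
import Pool.Agent.MP_9181f8_al.N.PBasic
import Pool.Agent.MP_9181f8_al.N.Rmod

namespace Pool.Agent.N9181

open scoped commutatorElement

theorem xsspb_parts {G : Type} [Group G] {u c g : G} (huc : Commute u c)
    (cop : Nat.Coprime (orderOf u) (orderOf c)) {b : ℕ} (h : g * (u * c) * g⁻¹ = (u * c) ^ b) :
    g * u * g⁻¹ = u ^ b ∧ g * c * g⁻¹ = c ^ b := by
  obtain ⟨e1, h11, h12⟩ := Nat.chineseRemainder cop 1 0
  obtain ⟨e2, h21, h22⟩ := Nat.chineseRemainder cop 0 1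
  have k1 : (u * c) ^ e1 = u := by
    rw [huc.mul_pow, pow_eq_pow_iff_modEq.2 h11, pow_eq_pow_iff_modEq.2 h12, pow_one, pow_zero,
      mul_one]
  have k2 : (u * c) ^ e2 = c := by
    rw [huc.mul_pow, pow_eq_pow_iff_modEq.2 h21, pow_eq_pow_iff_modEq.2 h22, pow_one, pow_zero,
      one_mul]
  have key : ∀ e : ℕ, g * (u * c) ^ e * g⁻¹ = ((u * c) ^ e) ^ b := by
    intro e
    rw [← pow_mul, mul_comm e b, pow_mul, ← h, conj_pow]
  exact ⟨by simpa only [k1] using key e1, by simpa only [k2] using key e2⟩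

theorem xsspb_crt {a b N j j' : ℕ} (hab : a.Coprime b) (ha : a ∣ N) (hb : b ∣ N) (hN : 0 < N)
    (hj : j.Coprime N) (hj' : j'.Coprime N) :
    ∃ k : ℕ, k.Coprime N ∧ k ≡ j [MOD a] ∧ k ≡ j' [MOD b] := by
  obtain ⟨k, h1, h2⟩ := Nat.chineseRemainder hab j j'
  have c1 : k.Coprime a := by
    rw [Nat.Coprime, h1.gcd_eq]
    exact hj.coprime_dvd_right ha
  have c2 : k.Coprime b := by
    rw [Nat.Coprime, h2.gcd_eq]
    exact hj'.coprime_dvd_right hb
  obtain ⟨l, hl, h⟩ := exists_j (a * b) N k (hab.mul_dvd_of_dvd_of_dvd ha hb) hN (c1.mul_right c2)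
  exact ⟨l, hl, (h.of_mul_right _).trans h1, (h.of_mul_left _).trans h2⟩

theorem sp_of_sr {G : Type} [Group G] [Finite G] (h : Pool.Agent.MP_9181f8_al.IsSR G) : SP G (Nat.card G) := by
  refine ⟨dvd_rfl, Nat.card_pos, fun x j j' hj hj' => ?_⟩
  obtain ⟨m, hm⟩ := h x
  have hm' : ∀ i : ℕ, i.Coprime (orderOf x) → IsConj (x ^ i) x ∨ IsConj (x ^ i) (x ^ m) :=
    fun i hi => by simpa only [zpow_natCast] using hm i (by simpa using hi)
  rcases hm' j (hj.coprime_dvd_right (orderOf_dvd_natCard x)) with a | a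
  · exact Or.inl a.symm
  obtain ⟨k, hk⟩ := exists_pow_eq_self_of_coprime (x := x)
    (hj'.coprime_dvd_right (orderOf_dvd_natCard x))
  rw [← pow_mul, mul_comm] at hk
  have hk' : k.Coprime (orderOf x) := Nat.coprime_of_mul_modEq_one j'
    (pow_eq_pow_iff_modEq.1 (hk.trans (pow_one x).symm))
  rcases hm' k hk' with b | b
  · have c := b.pow j'
    rw [← pow_mul, hk] at c
    exact Or.inr (Or.inl c)
  · have c := (b.trans a.symm).pow j'
    rw [← pow_mul, ← pow_mul, hk] at c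
    exact Or.inr (Or.inr c)

theorem sp_surj {G : Type} [Group G] [Finite G] {G' : Type} [Group G'] (f : G →* G') (hf : Function.Surjective f)
    (N : ℕ) (hP : SP G N) : SP G' N := by
  obtain ⟨hc, hN, h⟩ := hP
  refine ⟨(Subgroup.card_dvd_of_surjective f hf).trans hc, hN, fun y j j' hj hj' => ?_⟩
  obtain ⟨x, rfl⟩ := hf y
  rw [← map_pow, ← map_pow, ← map_pow]
  exact (h x j j' hj hj').imp f.map_isConj (Or.imp f.map_isConj f.map_isConj)

theorem sp_sq {G : Type} [Group G] [Finite G] (N : ℕ) (hP : SP G N) (x : G) (j : ℕ) (hj : j.Coprime N) :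
    IsConj x (x ^ (j * j)) := by
  have key : IsConj x (x ^ j) → IsConj x (x ^ (j * j)) := fun a => by
    have b := a.pow j
    rw [← pow_mul] at b
    exact a.trans b
  exact (hP.2.2 x j j hj hj).elim key fun a => a.elim key id

theorem sp_cop {G : Type} [Group G] [Finite G] (N : ℕ) (hP : SP G N) (x t : G) (hc : Commute x t)
    (ho : Nat.Coprime (orderOf x) (orderOf t)) (hn : Nonrat N t) (j : ℕ) (hj : j.Coprime N) :
    ∃ g : G, g * t = t * g ∧ g * x * g⁻¹ = x ^ j := by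
  obtain ⟨j0, hj0, hn⟩ := hn
  have hx := (orderOf_dvd_natCard x).trans hP.1
  have ht := (orderOf_dvd_natCard t).trans hP.1
  obtain ⟨j1, c1, h11, h12⟩ := xsspb_crt ho hx ht hP.2.1 hj (Nat.coprime_one_left N)
  obtain ⟨j2, c2, -, h22⟩ := xsspb_crt ho hx ht hP.2.1 hj hj0
  rcases hP.2.2 (x * t) j1 j2 c1 c2 with a | a | a <;> obtain ⟨g, hg⟩ := isConj_iff.1 a <;>
    obtain ⟨k1, k2⟩ := xsspb_parts hc ho hg
  · rw [pow_eq_pow_iff_modEq.2 h11] at k1
    rw [pow_eq_pow_iff_modEq.2 h12, pow_one] at k2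
    exact ⟨g, mul_inv_eq_iff_eq_mul.1 k2, k1⟩
  · rw [pow_eq_pow_iff_modEq.2 h22] at k2
    exact absurd (isConj_iff.2 ⟨g, k2⟩) hn
  · rw [pow_eq_pow_iff_modEq.2 (h12.mul h22), one_mul] at k2
    exact absurd (isConj_iff.2 ⟨g, k2⟩) hn

theorem sp_eig {V : Type} [AddCommGroup V] [Module K V] [Module.Finite K V]
    {G : Type} [Group G] [Finite G] (ρ : Representation K G V) (ι : V → G) (hι : Emb ρ ι) (N : ℕ) (hP : SP G N) (c : G)
    (hc : ¬ 13 ∣ orderOf c) (hn : Nonrat N c) (v : V) (hv : ρ c v = v) (l : K) (hl : l ≠ 0) :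
    ∃ g : G, g * c = c * g ∧ ρ g v = l • v := by
  by_cases hv0 : v = 0
  · exact ⟨1, by simp, by simp [hv0]⟩
  obtain ⟨h0, hsm, h13, -⟩ := emb_basic ρ ι hι
  have ho : orderOf (ι v) = 13 :=
    orderOf_eq_prime (h13 v) fun h => hv0 (hι.inj (h.trans h0.symm))
  obtain ⟨j, hjN, hj⟩ := exists_j 13 N l.val ((ho ▸ orderOf_dvd_natCard (ι v)).trans hP.1) hP.2.1
    (Nat.coprime_of_lt_prime (fun h => hl ((ZMod.val_eq_zero l).1 h)) (ZMod.val_lt l)
      (by norm_num)).symm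
  have hjl : (j : K) = l := by
    rw [(ZMod.natCast_eq_natCast_iff j l.val 13).2 hj, ZMod.natCast_zmod_val]
  have huc : Commute (ι v) c := by
    have h := hι.act c v
    rw [hv] at h
    exact (mul_inv_eq_iff_eq_mul.1 h.symm).symm
  obtain ⟨g, h1, h2⟩ := sp_cop N hP (ι v) c huc
    (by rw [ho]; exact (Nat.Prime.coprime_iff_not_dvd (by norm_num)).2 hc) hn j hjN
  exact ⟨g, h1, hι.inj (by rw [hι.act, h2, ← hjl, hsm])⟩

end Pool.Agent.N9181
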