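import Pool.Agent.MP_9181f8_al.S.BtS
import Pool.Agent.MP_9181f8_al.S.SPb

namespace Pool.Agent.N9181

open scoped commutatorElement

theorem xssphu_inv {G : Type} [Group G] {x y : G} (h : IsConj x y) : IsConj x⁻¹ y⁻¹ := by
  obtain ⟨c, rfl⟩ := isConj_iff.1 h
  exact isConj_iff.2 ⟨c, by group⟩

theorem xssphu_step {G R : Type} [Group G] [CommRing R] (β : G → R)
    (hβ : ∀ x y, IsConj x y → β x = β y) (t : G) (u : R) (j : ℕ) (hc : ∀ x, Commute x t)
    (h3 : t ^ 3 = 1) (hj : j % 3 = 1) (hu : u ^ 3 = 1) (ht : ∀ x, β (x * t) = u * β x) (h : G)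
    (hx : IsConj (h * t) ((h * t) ^ j) ∨ IsConj (h * t) (h * t)⁻¹ ∨
      IsConj (h * t) ((h * t) ^ j)⁻¹) :
    (β h = β (h ^ j) ∧ β h⁻¹ = β (h ^ j)⁻¹) ∨
      (β h = u * β h⁻¹ ∧ β (h ^ j) = u * β (h ^ j)⁻¹) ∨
      (β h = u * β (h ^ j)⁻¹ ∧ β (h ^ j) = u * β h⁻¹) := by
  have tj : t ^ j = t := by
    rw [← Nat.div_add_mod j 3, pow_add, pow_mul, h3, one_pow, one_mul, hj, pow_one]
  have ti : t⁻¹ = t * t := by
    rw [inv_eq_iff_mul_eq_one, ← h3, pow_succ, pow_two, mul_assoc]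
  have e1 : (h * t) ^ j = h ^ j * t := by rw [(hc h).mul_pow, tj]
  have e2 : ∀ y : G, β (y * t)⁻¹ = u * (u * β y⁻¹) := by
    intro y
    rw [(hc y).eq, mul_inv_rev, ti, ← mul_assoc, ht, ht]
  have can : ∀ a b : R, u * a = u * b → a = b := by
    intro a b e
    linear_combination u ^ 2 * e - (a - b) * hu
  rcases hx with hx | hx | hx
  · have a1 := hβ _ _ hx
    have a2 := hβ _ _ (xssphu_inv hx)
    rw [e1] at a1 a2
    rw [ht, ht] at a1
    rw [e2, e2] at a2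
    exact Or.inl ⟨can _ _ a1, can _ _ (can _ _ a2)⟩
  · have a1 := hβ _ _ hx
    have a2 := hβ _ _ (hx.pow j)
    rw [inv_pow, e1] at a2
    rw [ht, e2] at a1 a2
    exact Or.inr (Or.inl ⟨can _ _ a1, can _ _ a2⟩)
  · have a1 := hβ _ _ hx
    have a2 := hβ _ _ (xssphu_inv hx)
    rw [inv_inv] at a2
    rw [e1] at a1 a2
    rw [ht, e2] at a1 a2
    exact Or.inr (Or.inr ⟨can _ _ a1, can _ _ a2.symm⟩)

theorem xssphu_two {R : Type} [CommRing R] (a a' b b' u u' : R) (hu : IsUnit (u - u'))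
    (h1 : a = u * a') (h2 : b = u * b') (h3 : a = u' * a') (h4 : b = u' * b') :
    a = 0 ∧ a' = 0 ∧ b = 0 ∧ b' = 0 := by
  have e1 : a' = 0 := hu.mul_right_eq_zero.1 (by linear_combination h3 - h1)
  have e2 : b' = 0 := hu.mul_right_eq_zero.1 (by linear_combination h4 - h2)
  exact ⟨by rw [h1, e1, mul_zero], e1, by rw [h2, e2, mul_zero], e2⟩

theorem xssphu_main {G R : Type} [Group G] [CommRing R] (β : G → R)
    (hβ : ∀ x y, IsConj x y → β x = β y) (z : G) (w : R) (j : ℕ) (hc : ∀ x, Commute x z)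
    (h3 : z ^ 3 = 1) (hj : j % 3 = 1) (hw : w ^ 3 = 1) (hz : ∀ x, β (x * z) = w * β x)
    (u1 : IsUnit (w - w ^ 2))
    (hx : ∀ x : G, IsConj x (x ^ j) ∨ IsConj x x⁻¹ ∨ IsConj x (x ^ j)⁻¹) (h : G) :
    β (h ^ j) + β (h ^ j)⁻¹ = β h + β h⁻¹ := by
  have s0 := xssphu_step β hβ 1 1 j (fun x => Commute.one_right x) (one_pow 3) hj (one_pow 3)
    (fun x => by rw [mul_one, one_mul]) h (hx _)
  have s1 := xssphu_step β hβ z w j hc h3 hj hw hz h (hx _)
  have s2 := xssphu_step β hβ (z ^ 2) (w ^ 2) j (fun x => (hc x).pow_right 2)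
    (by rw [← pow_mul, mul_comm, pow_mul, h3, one_pow]) hj
    (by rw [← pow_mul, mul_comm, pow_mul, hw, one_pow])
    (fun x => by rw [pow_two, ← mul_assoc, hz, hz]; ring) h (hx _)
  have uw : IsUnit w := IsUnit.of_pow_eq_one hw (by norm_num)
  have u2 : IsUnit (1 - w) := by
    have : 1 - w = w ^ 2 * (w - w ^ 2) := by linear_combination (w - 1) * hw
    rw [this]
    exact (uw.pow 2).mul u1
  have u3 : IsUnit (1 - w ^ 2) := by
    have : 1 - w ^ 2 = -(w * (w - w ^ 2)) := by linear_combination (-1 : R) * hw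
    rw [this]
    exact (uw.mul u1).neg
  rcases s0 with ⟨a, b⟩ | ⟨a0, b0⟩ | ⟨a, b⟩
  · rw [a, b]
  · rcases s1 with ⟨a, b⟩ | ⟨a1, b1⟩ | ⟨a1, b1⟩
    · rw [a, b]
    · obtain ⟨c1, c2, c3, c4⟩ := xssphu_two _ _ _ _ _ _ u2 a0 b0 a1 b1
      rw [c1, c2, c3, c4]
    · rcases s2 with ⟨a, b⟩ | ⟨a2, b2⟩ | ⟨a2, b2⟩
      · rw [a, b]
      · obtain ⟨c1, c2, c3, c4⟩ := xssphu_two _ _ _ _ _ _ u3 a0 b0 a2 b2
        rw [c1, c2, c3, c4]
      · obtain ⟨c1, c2, c3, c4⟩ := xssphu_two _ _ _ _ _ _ u1 a1 b1 a2 b2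
        rw [c1, c2, c3, c4]
  · linear_combination b - a

theorem sp_HU {V : Type} [AddCommGroup V] [Module K V] [Module.Finite K V]
    {H : Type} [Group H] [Finite H] (ρ : Representation K H V) (h13 : ¬ 13 ∣ Nat.card H) (hinj : Function.Injective ρ) (N : ℕ)
    (hP : SP H N) (hz : Scal ρ) : HU ρ N (N - 1) := by
  intro h j hj M
  obtain ⟨z, hz⟩ := hz
  obtain ⟨hd, hN, hS⟩ := hP
  by_cases h1 : z = 1
  · have h0 : ∀ v : V, v = 0 := by
      intro v
      have e := hz v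
      rw [h1, map_one, Module.End.one_apply] at e
      have e2 : ((3 : K) - 1) • v = 0 := by rw [sub_smul, one_smul, ← e, sub_self]
      exact (smul_eq_zero.1 e2).resolve_left (by decide)
    have e : ∀ x y : H, ρ x = ρ y := fun x y => LinearMap.ext fun v => by
      rw [h0 (ρ x v), h0 (ρ y v)]
    rw [e (h ^ j) h, e (h ^ (j * (N - 1))) (h ^ (N - 1))]
  have h3 : z ^ 3 = 1 := by
    apply hinj
    refine LinearMap.ext fun v => ?_
    rw [rho_pow_eig ρ z v 3 (hz v) 3, map_one, Module.End.one_apply,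
      show (3 : K) ^ 3 = 1 by decide, one_smul]
  have hN3 : 3 ∣ N := by
    have : Fact (Nat.Prime 3) := ⟨Nat.prime_three⟩
    rw [← orderOf_eq_prime h3 h1]
    exact (orderOf_dvd_natCard z).trans hd
  have hinv : ∀ x : H, x ^ (N - 1) = x⁻¹ := by
    intro x
    rw [eq_inv_iff_mul_eq_one, ← pow_succ, Nat.sub_add_cancel hN,
      ← orderOf_dvd_iff_pow_eq_one]
    exact (orderOf_dvd_natCard x).trans hd
  have hco : (N - 1).Coprime N := by
    obtain ⟨n, rfl⟩ : ∃ n, N = n + 1 := ⟨N - 1, by omega⟩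
    simp
  obtain ⟨tc, t1, t2, t3, t4⟩ := bt_smul M
  have hw : tc 3 ^ 3 = 1 := by
    rw [pow_succ, pow_two, ← t3, ← t3, show (3 : K) * 3 * 3 = 1 by decide, t2]
  have hc : ∀ x, Commute x z := fun x =>
    (scal_central ρ hinj z ⟨3, by decide, hz⟩ x).symm
  have hb : ∀ x, bt (ρ (x * z)) M = tc 3 * bt (ρ x) M := by
    intro x
    have e : ρ (x * z) = (3 : K) • ρ x := LinearMap.ext fun v => by
      rw [rho_mul, hz, map_smul, LinearMap.smul_apply]
    rw [e]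
    exact t4 V (ρ x) (Nat.card H) h13 (by rw [← map_pow, pow_card_eq_one', map_one]) 3
      (by decide)
  have hu : IsUnit (tc 3 - tc 3 ^ 2) := by
    apply red_unit
    rw [map_sub, map_pow, t1]
    decide
  have key : ∀ i : ℕ, i.Coprime N → i % 3 = 1 →
      bt (ρ (h ^ i)) M + bt (ρ (h ^ i)⁻¹) M = bt (ρ h) M + bt (ρ h⁻¹) M := by
    intro i hi hi3
    refine xssphu_main (fun x => bt (ρ x) M) (fun x y e => bt_isConj ρ x y e M) z (tc 3) i hc h3
      hi3 hw hb hu (fun x => ?_) h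
    have := hS x i (N - 1) hi hco
    rw [pow_mul, hinv, hinv] at this
    exact this
  rw [pow_mul, hinv, hinv]
  have hj3 : ¬ 3 ∣ j := by
    intro e
    have := Nat.dvd_gcd e hN3
    rw [hj] at this
    omega
  by_cases e : j % 3 = 1
  · exact key j hj e
  · have e2 : j % 3 = 2 := by omega
    have e3 : (N - 1) % 3 = 2 := by omega
    have := key (j * (N - 1)) (Nat.Coprime.mul_left hj hco) (by rw [Nat.mul_mod, e2, e3])
    rw [pow_mul, hinv, inv_inv, add_comm] at this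
    exact this

end Pool.Agent.N9181
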