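import Pool.Agent.MP_9181f8_al.S.WrapB
import Pool.Agent.MP_9181f8_al.S.SPb

namespace Pool.Agent.N9181

open scoped commutatorElement

theorem thmEG {V : Type} [AddCommGroup V] [Module K V] [Module.Finite K V]
    {G : Type} [Group G] [Finite G] [Group.IsSolvable G] (ρ : Representation K G V) (ι : V → G) (hι : Emb ρ ι) (N : ℕ) (hP : SP G N) (t : G)
    (a : ℕ) (ht : t ^ (3 ^ a) = 1) (hn : Nonrat N t)
    (h13 : ∀ (g : G) (b : ℕ), g * t = t * g → g ^ (13 ^ b) = 1 → ρ g = 1) :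
    ∀ v, ρ t v = v → v = 0 := by
  let C : Subgroup G := Subgroup.centralizer {t}
  have hC : ∀ g : G, g ∈ C ↔ g * t = t * g := fun g => by
    simp only [C, Subgroup.mem_centralizer_iff, Set.mem_singleton_iff, forall_eq]
    exact eq_comm
  let σ : Representation K C V := ρ.comp C.subtype
  have hσ : ∀ h : C, σ h = ρ (h : G) := fun _ => rfl
  obtain ⟨H', _, _, π, ρ', hπ, -, hρ', hcard, h13'⟩ := exists_faithful σ
  have : Group.IsSolvable H' := Group.isSolvable_of_surjective hπ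
  have hH : ¬ 13 ∣ Nat.card H' := h13' fun h a ha => by
    rw [hσ]
    exact h13 h a ((hC h).1 h.2) (by simpa using congrArg Subtype.val ha)
  have hd : Nat.card H' ∣ N := (hcard.trans (Subgroup.card_subgroup_dvd_card C)).trans hP.1
  have hpw : ∀ (h : C) (j : ℕ), ρ' (π h ^ j) = ρ ((h : G) ^ j) := fun h j => by
    rw [← map_pow, hρ', hσ, Subgroup.coe_pow]
  have hp1 : ∀ h : C, ρ' (π h) = ρ (h : G) := hρ'
  have hto : orderOf t ∣ 3 ^ a := orderOf_dvd_of_pow_eq_one ht
  have ht13 : ¬ 13 ∣ orderOf t := fun h => by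
    have h1 := (by norm_num : Nat.Prime 13).dvd_of_dvd_pow (h.trans hto)
    omega
  let c0 : C := ⟨t, (hC t).2 rfl⟩
  have hcc : ρ' (π c0) = ρ t := hρ' c0
  have key := eg_core ρ' hH N hd hP.2.1 (π c0) a (by
    rw [← map_pow, show c0 ^ 3 ^ a = 1 from Subtype.ext ht, map_one]) (fun g => by
    obtain ⟨h, rfl⟩ := hπ g
    rw [← map_mul, ← map_mul]
    congr 1
    exact Subtype.ext ((hC h).1 h.2)) (fun h' j hj M => by
    obtain ⟨h, rfl⟩ := hπ h'
    rw [hpw, hp1]
    exact (bt_isConj ρ _ _ (sp_sq N hP (h : G) j hj) M).symm) (fun h' j j' hj hj' => by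
    obtain ⟨h, rfl⟩ := hπ h'
    simp only [Sim, hpw, hp1]
    exact (hP.2.2 h j j' hj hj').imp (sim_conj ρ _ _) (Or.imp (sim_conj ρ _ _) (sim_conj ρ _ _)))
    (fun h' h3 => by
      obtain ⟨h, rfl⟩ := hπ h'
      obtain ⟨e, he, -, he', -⟩ := q_part 3 (by norm_num) h
      rw [← he' H' π _ h3 (pow_orderOf_eq_one _)]
      generalize h ^ e = x at he
      have hN := hP.2.1
      obtain ⟨g, hg, hx⟩ := sp_cop N hP (x : G) t ((hC x).1 x.2) (by
        rw [Subgroup.orderOf_coe]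
        exact (((Nat.Prime.coprime_iff_not_dvd (by norm_num)).2 he).symm.pow_right
          a).coprime_dvd_right hto) hn (N - 1) ((Nat.coprime_self_sub_left hN).2 (by simp))
      have hxN : (x : G) ^ N = 1 := orderOf_dvd_iff_pow_eq_one.1 ((orderOf_dvd_natCard _).trans hP.1)
      have hx' : (x : G) ^ (N - 1) = (x : G)⁻¹ :=
        eq_inv_of_mul_eq_one_left (by rw [← pow_succ, Nat.sub_add_cancel hN, hxN])
      rw [← map_inv]
      exact π.map_isConj (isConj_iff.2 ⟨⟨g, (hC g).2 hg⟩, Subtype.ext (hx.trans hx')⟩))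
    (fun v hv l hl => by
      rw [hcc] at hv
      obtain ⟨g, hg, hgv⟩ := sp_eig ρ ι hι N hP t ht13 hn v hv l hl
      exact ⟨π ⟨g, (hC g).2 hg⟩, by rw [hρ']; exact hgv⟩)
  intro v hv
  exact key v (by rw [hcc]; exact hv)

end Pool.Agent.N9181
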