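import Pool.Agent.MP_9181f8_al.S.ThmM2
import Pool.Agent.MP_9181f8_al.S.WrapC
import Pool.Agent.MP_9181f8_al.S.SpHU
import Pool.Agent.MP_9181f8_al.Q.QAP

namespace Pool.Agent.N9181

open scoped commutatorElement

theorem xssap_cop (N : ℕ) (hN : 0 < N) : (N - 1).Coprime N := by
  obtain ⟨k, rfl⟩ := Nat.exists_eq_add_one_of_ne_zero hN.ne'
  simp

theorem xssap_inv {G : Type} [Group G] [Finite G] (N : ℕ) (hd : Nat.card G ∣ N) (hN : 0 < N)
    (c : G) : c ^ (N - 1) = c⁻¹ := by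
  rw [eq_inv_iff_mul_eq_one, ← pow_succ, Nat.sub_add_cancel hN]
  exact orderOf_dvd_iff_pow_eq_one.1 ((orderOf_dvd_natCard c).trans hd)

theorem xssap_rm2 {V : Type} [AddCommGroup V] [Module K V] [Module.Finite K V]
    {G : Type} [Group G] [Finite G] [Group.IsSolvable G] (ρ : Representation K G V) (ι : V → G)
    (hι : Emb ρ ι) (N : ℕ) (hP : SP G N) (B R Q : Subgroup G) (z : G)
    (hB : ∀ g, g ∈ B ↔ ∃ v, ι v = g) (hD : GD B R Q z) (t : G) (a : ℕ) (ht : t ^ (3 ^ a) = 1)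
    (hf : ∀ x ∈ Q, ⁅x, t⁆ ∈ R → x ∈ R) (hn : Nonrat N t) : ∀ v, ρ t v = v → v = 0 := by
  have hB1 : ∀ b ∈ B, ρ b = 1 := fun b hb => by
    obtain ⟨y, rfl⟩ := (hB b).1 hb
    exact (emb_basic ρ ι hι).2.2.2 y
  have hBn : B.Normal := ⟨fun x hx y => by
    obtain ⟨c, rfl⟩ := (hB x).1 hx
    exact (hB _).2 ⟨_, hι.act y c⟩⟩
  refine thmEG ρ ι hι N hP t a ht hn fun g b hg hb => ?_
  have h1 : g ∈ Q := xrmod_mem Q hD.nQ hD.idx g b hb
  have h2 : g ∈ R := hf g h1 (by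
    rw [commutatorElement_eq_one_iff_mul_comm.2 hg]; exact R.one_mem)
  have h4 : (⟨g, h2⟩ : R) ∈ B.subgroupOf R :=
    xmodc_mem _ (hBn.subgroupOf R) hD.cop _ b (by
      rw [Subgroup.mem_subgroupOf, SubmonoidClass.coe_pow, hb]; exact B.one_mem)
  exact hB1 g h4

theorem xssap_faith {V : Type} [AddCommGroup V] [Module K V] [Module.Finite K V]
    {G : Type} [Group G] [Finite G] [Group.IsSolvable G] (ρ : Representation K G V) (ι : V → G)
    (hι : Emb ρ ι) (N : ℕ) (hP : SP G N) (hirr : Irr ρ) (h13 : T13 ρ) :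
    ∃ (H : Type) (_ : Group H) (_ : Finite H) (_ : Group.IsSolvable H) (π : G →* H)
      (σ : Representation K H V), Function.Surjective π ∧ (∀ h, σ (π h) = ρ h) ∧
      ¬ 13 ∣ Nat.card H ∧ Irr σ ∧ NM H N (N - 1) ∧ HU σ N (N - 1) ∧ HEP σ 3 := by
  obtain ⟨H, _, _, π, σ, hs, hinj, he, hd, hc⟩ := exists_faithful ρ
  have hsol : Group.IsSolvable H := Group.isSolvable_of_surjective hs
  have hP' : SP H N := sp_surj π hs N hP
  have hirr' : Irr σ := ⟨hirr.1, fun W hW => hirr.2 W fun h w hw => he h ▸ hW (π h) w hw⟩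
  have hE : HEP σ 3 := fun v => by
    obtain ⟨g, hg⟩ := ep_of_sq ρ ι hι N hP.1 hP.2.1 (sp_sq N hP) v
    exact ⟨π g, by rw [he, hg]⟩
  have hS : HSq σ N := fun h j hj M => (bt_isConj σ _ _ (sp_sq N hP' h j hj) M).symm
  have hb : HBal3 σ := by
    intro h a v hh hv0 hv
    obtain ⟨g, rfl⟩ := hs h
    obtain ⟨e, b, h1, -, h2⟩ := p_part 3 (by norm_num) g
    rw [← h2 H π a hh, he] at hv ⊢
    generalize g ^ e = t at h1 hv
    have h5 : IsConj t (t ^ (N - 1)) := by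
      by_contra hn
      exact hv0 (thmEG ρ ι hι N hP t b h1 ⟨N - 1, xssap_cop N hP.2.1, hn⟩
        (fun g c _ hg => h13 g c hg) v hv)
    rw [xssap_inv N hP.1 hP.2.1] at h5
    have h6 := ed_inv ρ ⊤ t 9 (by decide)
    rw [edOn_top, edOn_top, show (9 : K)⁻¹ = 3 from inv_eq_of_mul_eq_one_right (by decide)] at h6
    rw [sim_conj ρ _ _ h5 3, h6]
  have hz : Scal σ := thmM2 σ (hc h13) N hP'.1 hP'.2.1 hirr' hS hb hE
  exact ⟨H, _, inferInstance, hsol, π, σ, hs, he, hc h13, hirr',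
    ⟨hP'.1, hP'.2.1, xssap_cop N hP.2.1⟩, sp_HU σ (hc h13) hinj N hP' hz, hE⟩

theorem xssap_rm1 {V : Type} [AddCommGroup V] [Module K V] [Module.Finite K V]
    {G : Type} [Group G] [Finite G] [Group.IsSolvable G] (ρ : Representation K G V) (ι : V → G)
    (hι : Emb ρ ι) (N : ℕ) (hP : SP G N) (hirr : Irr ρ) (h13 : T13 ρ) (c : G)
    (hc : ¬ 13 ∣ orderOf c) (hn : Nonrat N c) : ∀ v, ρ c v = v → v = 0 := by
  obtain ⟨H, _, _, _, π, σ, -, he, hH, -, hNM, hU, -⟩ := xssap_faith ρ ι hι N hP hirr h13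
  have key := atomN hH σ N (N - 1) hNM hU (π c) fun v hv l hl => by
    rw [he] at hv
    obtain ⟨g, -, hg⟩ := sp_eig ρ ι hι N hP c hc hn v hv l hl
    exact ⟨π g, by rw [he, hg]⟩
  intro v hv
  exact key v (by rw [he]; exact hv)

theorem xssap_cm {V : Type} [AddCommGroup V] [Module K V] [Module.Finite K V]
    {G : Type} [Group G] [Finite G] [Group.IsSolvable G] (ρ : Representation K G V) (ι : V → G)
    (hι : Emb ρ ι) (N : ℕ) (hP : SP G N) (hirr : Irr ρ) (h13 : T13 ρ) :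
    Scal ρ ∧ ∃ v, Reg ρ v := by
  have hR : HReal ρ := fun h v hv hh M => by
    obtain ⟨c, h1, h2, h3⟩ := xcopm_part ρ h13 h
    have h5 : IsConj c (c ^ (N - 1)) := by
      by_contra hn
      exact hv (xssap_rm1 ρ ι hι N hP hirr h13 c h1 ⟨N - 1, xssap_cop N hP.2.1, hn⟩ v
        (by rw [h2, hh]))
    rw [← h2, ← h3, ← xssap_inv N hP.1 hP.2.1]
    exact bt_isConj ρ _ _ h5 M
  obtain ⟨H, _, _, _, π, σ, hs, he, hH, hirr', hNM, hU, hE⟩ := xssap_faith ρ ι hι N hP hirr h13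
  obtain ⟨⟨z, hz⟩, v, hv, hv'⟩ := thmM hH σ hirr' N (N - 1) hNM hU
    (fun h v hv hh M => by
      obtain ⟨g, rfl⟩ := hs h
      rw [← map_inv, he, he]
      exact hR g v hv (he g ▸ hh) M) hE
  obtain ⟨g, rfl⟩ := hs z
  refine ⟨⟨g, fun w => by rw [← he, hz]⟩, v, hv, fun h a h1 h2 => ?_⟩
  rw [← he] at h1 h2 ⊢
  exact hv' _ a h1 h2

theorem ap_of_sp {G : Type} [Group G] [Finite G] [Group.IsSolvable G] (N : ℕ) (hP : SP G N) : AP G N := by
  intro G' _ _ f hf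
  have : Group.IsSolvable G' := Group.isSolvable_of_surjective hf
  have hP' := sp_surj f hf N hP
  exact ⟨hP'.1, hP'.2.1, sp_sq N hP',
    fun V _ _ _ ρ ι hι hirr h13 c hc hn => xssap_rm1 ρ ι hι N hP' hirr h13 c hc hn,
    fun V _ _ _ ρ ι hι _ B R Q z hB hD t a ht hf hn =>
      xssap_rm2 ρ ι hι N hP' B R Q z hB hD t a ht hf hn,
    fun V _ _ _ ρ ι hι hirr h13 => xssap_cm ρ ι hι N hP' hirr h13⟩

end Pool.Agent.N9181
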