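import Pool.Agent.MP_9181f8_al.S.Defs
import Pool.Agent.MP_9181f8_al.N.BtBasic

namespace Pool.Agent.N9181

open scoped commutatorElement

theorem fix_norm {V : Type} [AddCommGroup V] [Module K V] [Module.Finite K V]
    {H : Type} [Group H] [Finite H] (ρ : Representation K H V) (J : Subgroup H) (k : H) (hk : k ∈ Subgroup.normalizer (J : Set H))
    (v : V) (hv : v ∈ fixS ρ J) : ρ k v ∈ fixS ρ J := by
  intro y hy
  have h1 := (Subgroup.mem_normalizer_iff''.1 hk y).1 hy
  rw [← rho_mul, show y * k = k * (k⁻¹ * y * k) by group, rho_mul, hv _ h1]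

theorem rho_pow_eig {V : Type} [AddCommGroup V] [Module K V] [Module.Finite K V]
    {H : Type} [Group H] [Finite H] (ρ : Representation K H V) (h : H) (v : V) (c : K) (hv : ρ h v = c • v) (n : ℕ) :
    ρ (h ^ n) v = c ^ n • v := by
  induction n with
  | zero => simp
  | succ k ih => rw [pow_succ', rho_mul, ih, map_smul, hv, smul_smul, pow_succ]

theorem xssbasic_key {V : Type} [AddCommGroup V] [Module K V] [Module.Finite K V]
    {H : Type} [Group H] [Finite H] (ρ : Representation K H V) (h : H) (v : V) (c : K)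
    (hv : ρ h v = c • v) {b e : ℕ} (hc : c ^ b = 1)
    (he : b.gcd (Nat.card H) ∣ Nat.card H → e ≡ 1 [MOD b.gcd (Nat.card H)]) :
    ρ (h ^ e) v = c • v := by
  rcases eq_or_ne v 0 with rfl | h0
  · simp
  have h1 : c ^ Nat.card H = 1 := smul_left_injective K h0 (by
    simp only [← rho_pow_eig ρ h v c hv, pow_card_eq_one', map_one, one_smul,
      Module.End.one_apply])
  rw [rho_pow_eig ρ h v c hv,
    xbasic_pow c _ e (pow_gcd_eq_one.2 ⟨hc, h1⟩) (he (Nat.gcd_dvd_right _ _))]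

theorem eig_ppart {V : Type} [AddCommGroup V] [Module K V] [Module.Finite K V]
    {H : Type} [Group H] [Finite H] (ρ : Representation K H V) (p : ℕ) (hp : p.Prime) (h : H) :
    ∃ e a : ℕ, (h ^ e) ^ (p ^ a) = 1 ∧ ∀ (v : V) (c : K) (b : ℕ), ρ h v = c • v →
      c ^ (p ^ b) = 1 → ρ (h ^ e) v = c • v := by
  obtain ⟨e, a, h1, h2, -⟩ := p_part p hp h
  refine ⟨e, a, h1, fun v c b hv hc => xssbasic_key ρ h v c hv hc fun hd => ?_⟩
  obtain ⟨k, -, hk⟩ := (Nat.dvd_prime_pow hp).1 (Nat.gcd_dvd_left (p ^ b) (Nat.card H))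
  rw [hk] at hd ⊢
  exact h2 k hd

theorem eig_qpart {V : Type} [AddCommGroup V] [Module K V] [Module.Finite K V]
    {H : Type} [Group H] [Finite H] (ρ : Representation K H V) (p : ℕ) (hp : p.Prime) (h : H) :
    ∃ e : ℕ, ¬ p ∣ orderOf (h ^ e) ∧ ∀ (v : V) (c : K) (b : ℕ), ρ h v = c • v → ¬ p ∣ b →
      c ^ b = 1 → ρ (h ^ e) v = c • v := by
  obtain ⟨e, h1, h2, -⟩ := q_part p hp h
  exact ⟨e, h1, fun v c b hv hb hc => xssbasic_key ρ h v c hv hc fun hd =>
    h2 _ hd fun h3 => hb (h3.trans (Nat.gcd_dvd_left _ _))⟩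

theorem ep2 {V : Type} [AddCommGroup V] [Module K V] [Module.Finite K V]
    {H : Type} [Group H] [Finite H] (ρ : Representation K H V) (hE : HEP ρ 5) (v : V) :
    ∃ (t : H) (a : ℕ), t ^ (2 ^ a) = 1 ∧ ρ t v = (5 : K) • v := by
  obtain ⟨h, hh⟩ := hE v
  obtain ⟨e, a, h1, h2⟩ := eig_ppart ρ 2 Nat.prime_two h
  exact ⟨_, a, h1, h2 v 5 2 hh (by decide)⟩

theorem scal_normal {V : Type} [AddCommGroup V] [Module K V] [Module.Finite K V]
    {H : Type} [Group H] [Finite H] (ρ : Representation K H V) : (scal ρ).Normal := by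
  refine ⟨fun z ⟨c, hc, hz⟩ g => ⟨c, hc, fun v => ?_⟩⟩
  rw [rho_mul, rho_mul, hz, map_smul, rho_inv']

theorem scal_central {V : Type} [AddCommGroup V] [Module K V] [Module.Finite K V]
    {H : Type} [Group H] [Finite H] (ρ : Representation K H V) (hinj : Function.Injective ρ) (z : H) (hz : z ∈ scal ρ)
    (h : H) : z * h = h * z := by
  obtain ⟨c, -, hc⟩ := hz
  refine hinj (LinearMap.ext fun v => ?_)
  rw [rho_mul, rho_mul, hc, hc, map_smul]

theorem k_twelve (c : K) (h : c ≠ 0) : c ^ 12 = 1 := by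
  exact ZMod.pow_card_sub_one_eq_one h

theorem xssbasic_gcd (c : K) (m : ℕ) (hm : m ≠ 0) (h : c ^ m = 1) : c ^ m.gcd 12 = 1 :=
  pow_gcd_eq_one.2 ⟨h, k_twelve c (by
    rintro rfl
    rw [zero_pow hm] at h
    exact zero_ne_one h)⟩

theorem k_cube (c : K) (n : ℕ) (h : c ^ (3 ^ n) = 1) : c ^ 3 = 1 := by
  have h1 := xssbasic_gcd c _ (pow_ne_zero n three_ne_zero) h
  obtain ⟨k, -, hk⟩ := (Nat.dvd_prime_pow Nat.prime_three).1 (Nat.gcd_dvd_left (3 ^ n) 12)
  have h2 := Nat.gcd_dvd_right (3 ^ n) 12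
  rw [hk] at h1 h2
  rcases k with _ | _ | k
  · rw [show c = 1 by simpa using h1, one_pow]
  · simpa using h1
  · exact absurd ((pow_dvd_pow 3 (Nat.le_add_left 2 k)).trans h2) (by decide)

theorem k_four (c : K) (n : ℕ) (h : c ^ (2 ^ n) = 1) : c ^ 4 = 1 := by
  have h1 := xssbasic_gcd c _ (pow_ne_zero n two_ne_zero) h
  obtain ⟨k, -, hk⟩ := (Nat.dvd_prime_pow Nat.prime_two).1 (Nat.gcd_dvd_left (2 ^ n) 12)
  have h2 := Nat.gcd_dvd_right (2 ^ n) 12
  rw [hk] at h1 h2
  rcases le_or_gt k 2 with h3 | h3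
  · exact orderOf_dvd_iff_pow_eq_one.1
      ((orderOf_dvd_of_pow_eq_one h1).trans (pow_dvd_pow 2 h3))
  · exact absurd ((pow_dvd_pow 2 h3).trans h2) (by decide)

theorem ev_card {V : Type} [AddCommGroup V] [Module K V] [Module.Finite K V] (a : Module.End K V) (c : K) :
    Nat.card {v : V // v ≠ 0 ∧ a v = c • v} + 1 = 13 ^ ed a c := by
  have := (card_sub (a.eigenspace c)).1
  rw [ed, ← (card_sub _).2, ← Finite.card_option]
  classical
  refine Nat.card_congr (Equiv.trans (Equiv.optionCongr ?_)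
    (Equiv.optionSubtypeNe (0 : a.eigenspace c)))
  exact ⟨fun v => ⟨⟨v.1, Module.End.mem_eigenspace_iff.2 v.2.2⟩, fun e => v.2.1 (congrArg Subtype.val e)⟩,
    fun v => ⟨v.1.1, fun e => v.2 (Subtype.ext e), Module.End.mem_eigenspace_iff.1 v.1.2⟩,
    fun _ => rfl, fun _ => rfl⟩

theorem ed_two {V : Type} [AddCommGroup V] [Module K V] [Module.Finite K V] (U : Submodule K V) (a : Module.End K V) (c c' : K) (h : c ≠ c') :
    edOn U a c + edOn U a c' ≤ Module.finrank K U := by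
  have h1 : (U ⊓ a.eigenspace c) ⊓ (U ⊓ a.eigenspace c') = ⊥ := by
    rw [eq_bot_iff]
    rintro v ⟨⟨-, h1⟩, -, h3⟩
    have : (c - c') • v = 0 := by
      rw [sub_smul, ← Module.End.mem_eigenspace_iff.1 h1, ← Module.End.mem_eigenspace_iff.1 h3,
        sub_self]
    exact (smul_eq_zero.1 this).resolve_left (sub_ne_zero.2 h)
  have a1 := Submodule.finrank_sup_add_finrank_inf_eq (U ⊓ a.eigenspace c) (U ⊓ a.eigenspace c')
  rw [h1, finrank_bot, add_zero] at a1
  rw [edOn, edOn, ← a1]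
  exact Submodule.finrank_mono (sup_le inf_le_left inf_le_left)

theorem edOn_res {V : Type} [AddCommGroup V] [Module K V] [Module.Finite K V] (U : Submodule K V) (a : Module.End K V) (s : Module.End K U)
    (hs : Rs U a s) (U' : Submodule K U) (c : K) : edOn U' s c = edOn (U'.map U.subtype) a c := by
  unfold edOn
  rw [← Submodule.finrank_map_subtype_eq]
  suffices h : Submodule.map U.subtype (U' ⊓ s.eigenspace c) =
      U'.map U.subtype ⊓ a.eigenspace c by rw [h]
  ext v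
  simp only [Submodule.mem_map, Module.End.mem_eigenspace_iff, Submodule.mem_inf,
    Submodule.subtype_apply]
  constructor
  · rintro ⟨w, ⟨h1, h2⟩, rfl⟩
    exact ⟨⟨w, h1, rfl⟩, by rw [← hs, h2]; rfl⟩
  · rintro ⟨⟨w, h1, rfl⟩, h2⟩
    exact ⟨w, ⟨h1, Subtype.ext (by rw [hs]; exact h2)⟩, rfl⟩

theorem edOn_conj {V : Type} [AddCommGroup V] [Module K V] [Module.Finite K V]
    {H : Type} [Group H] [Finite H] (ρ : Representation K H V) (U : Submodule K V) (g h : H) (c : K) :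
    edOn (U.map (ρ g)) (ρ (g * h * g⁻¹)) c = edOn U (ρ h) c := by
  have hi : Function.Injective (ρ g) := Function.LeftInverse.injective (rho_inv ρ g)
  unfold edOn
  rw [(Submodule.equivMapOfInjective _ hi (U ⊓ Module.End.eigenspace (ρ h) c)).finrank_eq]
  suffices e : U.map (ρ g) ⊓ Module.End.eigenspace (ρ (g * h * g⁻¹)) c =
      (U ⊓ Module.End.eigenspace (ρ h) c).map (ρ g) by rw [e]
  ext v
  simp only [Submodule.mem_map, Module.End.mem_eigenspace_iff, Submodule.mem_inf]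
  constructor
  · rintro ⟨⟨w, h1, rfl⟩, h2⟩
    rw [rho_mul, rho_inv, rho_mul, ← map_smul] at h2
    exact ⟨w, ⟨h1, hi h2⟩, rfl⟩
  · rintro ⟨w, ⟨h1, h2⟩, rfl⟩
    exact ⟨⟨w, h1, rfl⟩, by rw [rho_mul, rho_inv, rho_mul, h2, map_smul]⟩

theorem sim_conj {V : Type} [AddCommGroup V] [Module K V] [Module.Finite K V]
    {H : Type} [Group H] [Finite H] (ρ : Representation K H V) (a b : H) (h : IsConj a b) : Sim ρ a b := by
  obtain ⟨g, rfl⟩ := isConj_iff.1 h
  intro c
  rw [← edOn_top, ← edOn_top, ← edOn_conj ρ ⊤ g a c, Submodule.map_top, LinearMap.range_eq_top.2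
    (Function.RightInverse.surjective (rho_inv' ρ g))]

theorem ed_inv {V : Type} [AddCommGroup V] [Module K V] [Module.Finite K V]
    {H : Type} [Group H] [Finite H] (ρ : Representation K H V) (U : Submodule K V) (h : H) (c : K) (hc : c ≠ 0) :
    edOn U (ρ h⁻¹) c⁻¹ = edOn U (ρ h) c := by
  suffices e : Module.End.eigenspace (ρ h⁻¹) c⁻¹ = Module.End.eigenspace (ρ h) c by
    rw [edOn, edOn, e]
  ext v
  simp only [Module.End.mem_eigenspace_iff]
  rw [eq_inv_smul_iff₀ hc, ← map_smul]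
  exact ⟨fun e => by rw [← rho_inv' ρ h (c • v), e], fun e => by rw [← e, rho_inv]⟩

theorem line_ext {V : Type} [AddCommGroup V] [Module K V] [Module.Finite K V] (U : Submodule K V) (h1 : Module.finrank K U = 1) (w : V) (hw : w ∈ U)
    (h0 : w ≠ 0) : ∀ u ∈ U, ∃ c : K, u = c • w := by
  intro u hu
  obtain ⟨c, hc⟩ := (finrank_eq_one_iff_of_nonzero' (⟨w, hw⟩ : U)
    fun e => h0 (congrArg Subtype.val e)).1 h1 ⟨u, hu⟩
  exact ⟨c, (congrArg Subtype.val hc).symm⟩

theorem diagE_of {V : Type} [AddCommGroup V] [Module K V] [Module.Finite K V]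
    {H : Type} [Group H] [Finite H] (ρ : Representation K H V) {I : Type} [Fintype I] [MulAction H I] (W : I → Submodule K V) (hB : BD ρ I W)
    (h1 : ∀ i, Module.finrank K (W i) = 1) (t : H) (n : ℕ) (ht : t ^ (3 ^ n) = 1)
    (hf : ∀ i : I, t • i = i) : DiagE ρ W t := by
  intro i
  obtain ⟨w, hw, h0⟩ := (Submodule.ne_bot_iff _).1 (hB.ne i)
  obtain ⟨c, hc⟩ := line_ext _ (h1 i) w hw h0 _ (hf i ▸ hB.map t i w hw)
  refine ⟨hf i, c, k_cube c n (smul_left_injective K h0 ?_), fun u hu => ?_⟩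
  · simp only [← rho_pow_eig ρ t w c hc, ht, map_one, one_smul, Module.End.one_apply]
  · obtain ⟨d, rfl⟩ := line_ext _ (h1 i) w hw h0 u hu
    rw [map_smul, hc, smul_comm]

theorem exists_fb {V : Type} [AddCommGroup V] [Module K V] [Module.Finite K V]
    {H : Type} [Group H] [Finite H] (ρ : Representation K H V) {I : Type} [Fintype I] [MulAction H I] (W : I → Submodule K V) (hB : BD ρ I W) (i : I) :
    ∃ (H' : Type) (_ : Group H') (_ : Finite H') (π : MulAction.stabilizer H i →* H')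
      (σ : Representation K H' (W i)), FB ρ W i π σ ∧ Function.Injective σ ∧
      Nat.card H' ∣ Nat.card H := by
  obtain ⟨σ, hσ⟩ := exists_res ρ (MulAction.stabilizer H i) (W i) fun h hh w hw =>
    (show h • i = i from hh) ▸ hB.map h i w hw
  obtain ⟨H', _, _, π, σ', h1, h2, h3, h4, -⟩ := exists_faithful σ
  exact ⟨H', inferInstance, inferInstance, π, σ', ⟨h1, fun h w => by rw [h3, hσ]⟩, h2,
    h4.trans (Subgroup.card_subgroup_dvd_card _)⟩

end Pool.Agent.N9181
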