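import Pool.Agent.MP_9181f8_al.S.SAP
import Pool.Agent.MP_9181f8_al.Q.TMain

namespace Pool.Agent.N9181

open scoped commutatorElement

theorem sylowSR (P : Type) [Group P] [Finite P] (hP : IsPGroup 13 P)
    {G : Type} [Group G] [Finite G] [Group.IsSolvable G] (hG : Pool.Agent.MP_9181f8_al.IsSR G) (f : P →* G) (hf : Function.Injective f) :
    (∀ g : P, g ^ 13 = 1) ∧ commutator P ≤ Subgroup.center P :=
  sylowQ P hP (Nat.card G) (ap_of_sp _ (sp_of_sr hG)) f hf

end Pool.Agent.N9181
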