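import Pool.Agent.MP_9181f8_al.S.Proj
import Pool.Agent.MP_9181f8_al.N.StepA

namespace Pool.Agent.N9181

open scoped commutatorElement

theorem xsstepp_bal {V : Type} [AddCommGroup V] [Module K V] [Module.Finite K V]
    {H : Type} [Group H] [Finite H] (ρ : Representation K H V) {I : Type} [Fintype I]
    [DecidableEq I] [MulAction H I] (W : I → Submodule K V) (hB : BD ρ I W) (hb : HBal3 ρ)
    (t : H) (a : ℕ) (ht : t ^ (3 ^ a) = 1) (v : V) (h0 : v ≠ 0) (hv : ρ t v = v) :
    ∑ i ∈ Finset.univ.filter (fun i : I => t • i = i), edOn (W i) (ρ t) 3 =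
      ∑ i ∈ Finset.univ.filter (fun i : I => t • i = i), edOn (W i) (ρ t) 9 := by
  obtain ⟨c, hc, -⟩ := cyc ρ W hB t a ht
  have := hb t a v ht h0 hv
  rw [hc 3 (by decide), hc 9 (by decide)] at this
  omega

theorem xsstepp_sum {I : Type} (S : Finset I) (f g : I → ℕ) (p : ℕ)
    (h : ∀ i ∈ S, f i + p ≤ g i) : ∑ i ∈ S, f i + S.card * p ≤ ∑ i ∈ S, g i := by
  have := Finset.sum_le_sum h
  rwa [Finset.sum_add_distrib, Finset.sum_const, smul_eq_mul] at this

theorem stepP {V : Type} [AddCommGroup V] [Module K V] [Module.Finite K V]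
    {H : Type} [Group H] [Finite H] (ρ : Representation K H V) {I : Type} [Fintype I] [MulAction H I] (W : I → Submodule K V) (hB : BD ρ I W) (hb : HBal3 ρ) (hE : HEP ρ 3) (r r' : I → V) (hr : ∀ i, r i ∈ W i ∧ r i ≠ 0) (hr' : ∀ i, r' i ∈ W i)
    (p : ℕ) (hp : 0 < p) (hn : ∀ (h : H) (i j : I), ρ h (r' i) ≠ (3 : K) • r j)
    (h1 : BPos ρ W r p) (h2 : BPosW ρ W r' p) :
    ∃ (t : H) (a : ℕ), t ^ (3 ^ a) = 1 ∧ (∀ i : I, t • i = i) ∧ (∀ v, ρ t v = v → v = 0) ∧
      ((∀ i, ρ t (r i) = (3 : K) • r i) ∨ ∃ i1 i2 i3 : I, i1 ≠ i2 ∧ i1 ≠ i3 ∧ i2 ≠ i3 ∧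
        ρ t (r' i1) = (3 : K) • r' i1 ∧ ∀ i, i ≠ i1 → ρ t (r i) = (3 : K) • r i) := by
  classical
  obtain ⟨t, a, ht, h⟩ := ep3 ρ hE (∑ i, r i)
  have c1 := comp0 ρ W hB r r (fun i => (hr i).1) (fun i => (hr i).1) t 3 h
  have k1 : ∀ v, v ≠ 0 → ρ t v = v → Finset.univ.filter (fun i : I => t • i = i) = ∅ := by
    intro v h0 hv
    have b1 := xsstepp_bal ρ W hB hb t a ht v h0 hv
    have b2 := xsstepp_sum (Finset.univ.filter (fun i : I => t • i = i)) _ _ p fun i hi =>
      h1 i t a ht (Finset.mem_filter.1 hi).2 (by rw [c1 i, (Finset.mem_filter.1 hi).2])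
    rw [← Finset.card_eq_zero]
    exact (Nat.mul_eq_zero.1 (by omega : _ * p = 0)).resolve_right hp.ne'
  by_cases hall : ∀ i : I, t • i = i
  · refine ⟨t, a, ht, hall, fun v hv => ?_, Or.inl fun i => by rw [c1 i, hall i]⟩
    by_contra h0
    have b1 := k1 v h0 hv
    have b2 : iSup W ≤ ⊥ := iSup_le fun i =>
      (Finset.filter_eq_empty_iff.1 b1 (Finset.mem_univ i) (hall i)).elim
    rw [hB.top] at b2
    exact h0 (b2 Submodule.mem_top)
  obtain ⟨i1, hi1⟩ := not_forall.1 hall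
  obtain ⟨v, h0, hv⟩ := xstepa_mov ρ W hB t a ht _ h
    (sum_not_mem ρ W hB Finset.univ r (fun i _ => hr i) (fun i => t • i = i) i1
      (Finset.mem_univ _) hi1)
  have k6 := card_fix (I := I) t a ht
  rw [k1 v h0 hv, Finset.card_empty] at k6
  clear hv h0 v hi1 hall k1 c1 h ht t a
  have hs : ∀ i, Function.update r i1 (r' i1) i ∈ W i := by
    intro i
    by_cases e : i = i1
    · rw [e, Function.update_self]; exact hr' i1
    · rw [Function.update_of_ne e]; exact (hr i).1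
  obtain ⟨t, a, ht, h⟩ := ep3 ρ hE (∑ i, Function.update r i1 (r' i1) i)
  have c1 := comp0 ρ W hB _ _ hs hs t 3 h
  have f1 : t • i1 = i1 := by
    by_contra e
    have := c1 i1
    rw [Function.update_self, Function.update_of_ne e] at this
    exact hn _ _ _ this
  have c2 : ρ t (r' i1) = (3 : K) • r' i1 := by
    have := c1 i1
    rwa [f1, Function.update_self] at this
  have c3 : ∀ i, i ≠ i1 → t • i = i → ρ t (r i) = (3 : K) • r i := by
    intro i e hi
    have := c1 i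
    rwa [hi, Function.update_of_ne e] at this
  have m1 : i1 ∈ Finset.univ.filter (fun i : I => t • i = i) :=
    Finset.mem_filter.2 ⟨Finset.mem_univ _, f1⟩
  have k7 : 1 < ((Finset.univ.filter (fun i : I => t • i = i)).erase i1).card := by
    have h1 := (card_fix (I := I) t a ht).trans k6.symm
    have h2 := Finset.card_pos.2 ⟨i1, m1⟩
    rw [Finset.card_erase_of_mem m1]
    unfold Nat.ModEq at h1
    omega
  have k8 : ∀ v, ρ t v = v → v = 0 := by
    intro v hv
    by_contra h0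
    have b1 := xsstepp_bal ρ W hB hb t a ht v h0 hv
    rw [← Finset.add_sum_erase _ _ m1, ← Finset.add_sum_erase _ _ m1] at b1
    have b2 := xsstepp_sum ((Finset.univ.filter (fun i : I => t • i = i)).erase i1) _ _ p
      fun i hi => h1 i t a ht (Finset.mem_filter.1 (Finset.mem_erase.1 hi).2).2
        (c3 i (Finset.mem_erase.1 hi).1 (Finset.mem_filter.1 (Finset.mem_erase.1 hi).2).2)
    have b3 := h2 i1 t a ht f1 c2
    have b4 := Nat.mul_le_mul_right p (show 2 ≤ _ from k7)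
    omega
  have ft : ∀ i : I, t • i = i := by
    intro j
    by_contra e
    have hj : j ≠ i1 := fun e' => e (e' ▸ f1)
    obtain ⟨v, h0, hv⟩ := xstepa_mov ρ W hB t a ht _ h (by
      intro hm
      rw [Finset.sum_update_of_mem (Finset.mem_univ _), Finset.sdiff_singleton_eq_erase] at hm
      refine sum_not_mem ρ W hB (Finset.univ.erase i1) r (fun i _ => hr i) (fun i => t • i = i) j
        (Finset.mem_erase.2 ⟨hj, Finset.mem_univ _⟩) e ?_
      exact (Submodule.add_mem_iff_right _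
        (le_iSup₂ (f := fun (i : I) (_ : t • i = i) => W i) i1 f1 (hr' i1))).1 hm)
    exact h0 (k8 v hv)
  obtain ⟨i2, m2, i3, m3, h23⟩ := Finset.one_lt_card.1 k7
  exact ⟨t, a, ht, ft, k8, Or.inr ⟨i1, i2, i3, (Finset.mem_erase.1 m2).1.symm,
    (Finset.mem_erase.1 m3).1.symm, h23, c2, fun i e => c3 i e (ft i)⟩⟩

end Pool.Agent.N9181
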