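import Pool.Agent.MP_9181f8_al.S.GCh
import Pool.Agent.MP_9181f8_al.S.R3e

namespace Pool.Agent.N9181

open scoped commutatorElement

theorem xstau_zero {V : Type} [AddCommGroup V] [Module K V] {H : Type} [Group H]
    (ρ : Representation K H V) (h : H) (ν : K) (hν : ν ≠ 0) (a b : V) (e : ρ h a = ν • b) :
    a = 0 ↔ b = 0 := by
  constructor
  · intro h0
    rw [h0, map_zero] at e
    exact (smul_eq_zero.1 e.symm).resolve_left hν
  · intro h0
    rw [← rho_inv ρ h a, e, h0, smul_zero, map_zero]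

theorem xstau_line {V : Type} [AddCommGroup V] [Module K V] [Module.Finite K V]
    (U : Submodule K V) (h1 : Module.finrank K U = 1) (a : Module.End K V) (ν : K) (w : V)
    (hw : w ∈ U) (h0 : w ≠ 0) (e : a w = ν • w) : ∀ u ∈ U, a u = ν • u := by
  intro u hu
  obtain ⟨c, rfl⟩ := line_ext U h1 w hw h0 u hu
  rw [map_smul, e, smul_comm]

theorem xstau_swap {V : Type} [AddCommGroup V] [Module K V] [Module.Finite K V]
    {H : Type} [Group H] [Finite H] (ρ : Representation K H V) (hE5 : HEP ρ 5) {I : Type}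
    [Fintype I] [MulAction H I] (W : I → Submodule K V) (π : I → I) (hL : LP ρ I W π) (k : I)
    (r q : I → V) (hr : ∀ l, r l ∈ W l ∧ r l ≠ 0) (hq : ∀ l, q l = r l ∨ q l = 0) (x : K)
    (hx : x ≠ 0) (hg : ∀ (h : H) (l : I), l ≠ k → l ≠ π k →
      ρ h (r k + x • r (π k)) ≠ (5 : K) • (r l + r (π l))) :
    ∃ g : H, g • k = π k ∧ ρ g (r k) = (5 : K) • x • r (π k) ∧
      ρ g (x • r (π k)) = (5 : K) • r k ∧
      ∀ l, l ≠ k → l ≠ π k → ρ g (q l) = (5 : K) • q (g • l) := by
  classical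
  have h5 : (5 : K) ≠ 0 := by decide
  let Q : I → V := fun l => if l = k then r k else if l = π k then x • r (π k) else q l
  have Qk : Q k = r k := if_pos rfl
  have Qp : Q (π k) = x • r (π k) := by
    simp only [Q]
    rw [if_neg (hL.ne k), if_pos trivial]
  have Ql : ∀ l, l ≠ k → l ≠ π k → Q l = q l := fun l h1 h2 => by
    simp only [Q]
    rw [if_neg h1, if_neg h2]
  have hQ : ∀ l, Q l ∈ W l := fun l => by
    by_cases h1 : l = k
    · rw [h1, Qk]
      exact (hr k).1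
    by_cases h2 : l = π k
    · rw [h2, Qp]
      exact (W _).smul_mem _ (hr _).1
    rw [Ql l h1 h2]
    rcases hq l with h | h
    · rw [h]
      exact (hr l).1
    · rw [h]
      exact (W l).zero_mem
  obtain ⟨g, hgs⟩ := hE5 (∑ l, Q l)
  have hc := comp0 ρ W hL.bd Q Q hQ hQ g 5 hgs
  have e1 := hc k
  have e2 := hc (π k)
  rw [Qk] at e1
  rw [Qp, ← hL.act] at e2
  have hk : g • k = π k := by
    by_contra h2
    by_cases h1 : g • k = k
    · rw [h1, Qk] at e1
      rw [h1, Qp, map_smul, smul_comm] at e2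
      exact hL.rel k _ (hr k).1 _ (hr _).1 (hr k).2 (hr _).2 g e1
        (smul_right_injective V hx e2)
    · have h3 : π (g • k) ≠ k := fun h => h2 (by rw [← hL.inv (g • k), h])
      have h4 : π (g • k) ≠ π k := fun h => h1 (by rw [← hL.inv (g • k), h, hL.inv])
      rw [Ql _ h1 h2] at e1
      rw [Ql _ h3 h4] at e2
      have n1 := (xstau_zero ρ g 5 h5 _ _ e1).not.1 (hr k).2
      have n2 := (xstau_zero ρ g 5 h5 _ _ e2).not.1 (smul_ne_zero hx (hr _).2)
      rw [(hq _).resolve_right n1] at e1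
      rw [(hq _).resolve_right n2] at e2
      exact hg g _ h1 h2 (by rw [map_add, e1, e2, smul_add])
  have hk' : g • π k = k := by rw [← hL.act, hk, hL.inv]
  rw [hk, Qp] at e1
  rw [hk, hL.inv, Qk] at e2
  refine ⟨g, hk, e1, e2, fun l h1 h2 => ?_⟩
  have h3 : g • l ≠ k := fun h => h2 (MulAction.injective g (h.trans hk'.symm))
  have h4 : g • l ≠ π k := fun h => h1 (MulAction.injective g (h.trans hk.symm))
  have := hc l
  rwa [Ql l h1 h2, Ql _ h3 h4] at this

theorem col {V : Type} [AddCommGroup V] [Module K V] [Module.Finite K V]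
    {H : Type} [Group H] [Finite H] (ρ : Representation K H V) {I : Type} [Fintype I] [MulAction H I] (W : I → Submodule K V) (π : I → I)
    (hL : LP ρ I W π) (r : I → V) (hr : ∀ l, r l ≠ 0) (c : I → Fin 3)
    (hc : ∀ l, c (π l) = c l) (i : I) :
    ∃ q : I → V, (∀ l, q l = r l ∨ q l = 0) ∧ q i = r i ∧ q (π i) = r (π i) ∧
      ∀ l l', (q l = 0 ↔ q l' = 0) → (q (π l) = 0 ↔ q (π l') = 0) → c l = c l' := by
  classical
  let f := Fintype.equivFin I
  let A : I → Prop := fun l => c l = c i ∨ (c l = c i + 1 ∧ f l < f (π l))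
  have hz : ∀ l, (if A l then r l else 0) = 0 ↔ ¬ A l := fun l => by
    by_cases h : A l
    · simp [h, hr l]
    · simp [h]
  refine ⟨fun l => if A l then r l else 0, fun l => ?_, if_pos (Or.inl rfl),
    if_pos (Or.inl (hc i)), fun l l' h1 h2 => ?_⟩
  · by_cases h : A l
    · exact Or.inl (if_pos h)
    · exact Or.inr (if_neg h)
  · rw [hz, hz] at h1 h2
    simp only [A, hc, hL.inv] at h1 h2
    have n1 : f l ≠ f (π l) := fun h => hL.ne l (f.injective h).symm
    have n2 : f l' ≠ f (π l') := fun h => hL.ne l' (f.injective h).symm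
    have t1 : (f l < f (π l)) ↔ ¬ (f (π l) < f l) := by omega
    have t2 : (f l' < f (π l')) ↔ ¬ (f (π l') < f l') := by omega
    rw [t1, t2] at h1
    generalize (f (π l) < f l) = a at h1 h2
    generalize (f (π l') < f l') = b at h1 h2
    generalize c l = u at h1 h2 ⊢
    generalize c l' = v at h1 h2 ⊢
    generalize c i = w at h1 h2 ⊢
    by_cases ha : a <;> by_cases hb : b <;> simp only [ha, hb] at h1 h2 <;> revert u v w <;> decide

theorem tt {V : Type} [AddCommGroup V] [Module K V] [Module.Finite K V]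
    {H : Type} [Group H] [Finite H] [Group.IsSolvable H] (ρ : Representation K H V) (hE3 : HEP ρ 3) {I : Type} [Fintype I] [MulAction H I] (W : I → Submodule K V) (π : I → I)
    (hL : LP ρ I W π) (k : I) :
    ∃ t : H, DiagE ρ W t ∧ (∀ w ∈ W k, ρ t w = (3 : K) • w) ∧
      ∀ w ∈ W (π k), ρ t w = (3 : K) • w := by
  obtain ⟨c, hc, hR⟩ := r3_pi (G := H) π hL.inv hL.act
  have hex : ∀ i, ∃ x, x ∈ W i ∧ x ≠ 0 := fun i => (Submodule.ne_bot_iff _).1 (hL.bd.ne i)
  choose r hr using hex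
  obtain ⟨q, hq, q1, q2, hcol⟩ := col ρ W π hL r (fun l => (hr l).2) c hc k
  have hQ : ∀ l, q l ∈ W l := fun l => by
    rcases hq l with h | h
    · rw [h]
      exact (hr l).1
    · rw [h]
      exact (W l).zero_mem
  obtain ⟨t, a, ht, hts⟩ := ep3 ρ hE3 (∑ l, q l)
  have h0 := comp0 ρ W hL.bd q q hQ hQ t 3 hts
  have h3 : (3 : K) ≠ 0 := by decide
  have hf : ∀ l : I, t • l = l := hR t a ht fun l =>
    (hcol l (t • l) (xstau_zero ρ t 3 h3 _ _ (h0 l))
      (by rw [hL.act]; exact xstau_zero ρ t 3 h3 _ _ (h0 (π l)))).symm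
  refine ⟨t, diagE_of ρ W hL.bd hL.one t a ht hf,
    xstau_line _ (hL.one _) _ _ (r k) (hr k).1 (hr k).2 ?_,
    xstau_line _ (hL.one _) _ _ (r (π k)) (hr _).1 (hr _).2 ?_⟩
  · have := h0 k
    rwa [hf, q1] at this
  · have := h0 (π k)
    rwa [hf, q2] at this

theorem tau {V : Type} [AddCommGroup V] [Module K V] [Module.Finite K V]
    {H : Type} [Group H] [Finite H] [Group.IsSolvable H] (ρ : Representation K H V) (hE5 : HEP ρ 5) {I : Type} [Fintype I] [MulAction H I] (W : I → Submodule K V) (π : I → I)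
    (hL : LP ρ I W π) (k i : I) :
    ∃ t : H, DiagE ρ W t ∧ (∀ w ∈ W k, ρ t w = (3 : K) • w) ∧
      (∀ w ∈ W (π k), ρ t w = (9 : K) • w) ∧ (i ≠ k → i ≠ π k → ∀ w ∈ W i, ρ t w = w) := by
  obtain ⟨c, hc, hR⟩ := r3_pi (G := H) π hL.inv hL.act
  obtain ⟨r, hr, hg⟩ := gchoice ρ hE5 W π hL k
  obtain ⟨q, hq, q1, -, hcol⟩ := col ρ W π hL r (fun l => (hr l).2) c hc i
  obtain ⟨g1, a1, b1, c1, d1⟩ := xstau_swap ρ hE5 W π hL k r q hr hq 1 one_ne_zero
    fun h l h1 h2 => hg h l 1 h1 h2 (Or.inl rfl)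
  obtain ⟨g3, a3, b3, c3, d3⟩ := xstau_swap ρ hE5 W π hL k r q hr hq 3 (by decide)
    fun h l h1 h2 => hg h l 3 h1 h2 (Or.inr rfl)
  rw [one_smul] at b1 c1
  have dk : (g1⁻¹ * g3) • k = k := by rw [mul_smul, a3, ← a1, inv_smul_smul]
  have dp : (g1⁻¹ * g3) • π k = π k := by rw [← hL.act, dk]
  have ek : ρ (g1⁻¹ * g3) (r k) = (3 : K) • r k := by
    rw [rho_mul, b3, smul_comm, ← b1, map_smul, rho_inv]
  have ep : ρ (g1⁻¹ * g3) (r (π k)) = (9 : K) • r (π k) := by
    have h1 : r (π k) = (9 : K) • (3 : K) • r (π k) := by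
      rw [smul_smul, show (9 : K) * 3 = 1 by decide, one_smul]
    nth_rewrite 1 [h1]
    rw [map_smul, rho_mul, c3, ← c1, rho_inv]
  generalize hd : g1⁻¹ * g3 = d at dk dp ek ep
  have out : ∀ (h : H), h • k = k → ∀ l, l ≠ k → l ≠ π k → h • l ≠ k ∧ h • l ≠ π k :=
    fun h hk l h1 h2 => ⟨fun e => h1 (MulAction.injective h (e.trans hk.symm)),
      fun e => h2 (MulAction.injective h (by
        show h • l = h • π k
        rw [e, ← hL.act, hk]))⟩
  have el : ∀ l, l ≠ k → l ≠ π k → ρ d (q l) = q (d • l) := fun l h1 h2 => by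
    have h3 := d1 (d • l) (out d dk l h1 h2).1 (out d dk l h1 h2).2
    have h4 : g1 • d • l = g3 • l := by rw [← hd, mul_smul, smul_inv_smul]
    rw [h4, ← d3 l h1 h2] at h3
    rw [← rho_inv ρ g1 (q (d • l)), h3, ← hd, rho_mul]
  have pk : ∀ n : ℕ, (d ^ n) • k = k := fun n => by
    induction n with
    | zero => rw [pow_zero, one_smul]
    | succ n ih => rw [pow_succ, mul_smul, dk, ih]
  have pl : ∀ n : ℕ, ∀ l, l ≠ k → l ≠ π k → ρ (d ^ n) (q l) = q ((d ^ n) • l) := fun n => by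
    induction n with
    | zero =>
      intro l _ _
      rw [pow_zero, one_smul, map_one]
      rfl
    | succ n ih =>
      intro l h1 h2
      rw [pow_succ, rho_mul, el l h1 h2, ih _ (out d dk l h1 h2).1 (out d dk l h1 h2).2, mul_smul]
  obtain ⟨e, a, ht, he⟩ := eig_ppart ρ 3 (by norm_num) d
  have hf : ∀ l : I, (d ^ e) • l = l := hR _ a ht fun l => by
    by_cases h1 : l = k
    · rw [h1, pk]
    by_cases h2 : l = π k
    · rw [h2, ← hL.act, pk]
    have h3 : π l ≠ k := fun h => h2 (by rw [← hL.inv l, h])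
    have h4 : π l ≠ π k := fun h => h1 (by rw [← hL.inv l, h, hL.inv])
    refine (hcol l _ (xstau_zero ρ (d ^ e) 1 one_ne_zero _ _ ?_) ?_).symm
    · rw [one_smul, pl e l h1 h2]
    · rw [hL.act]
      refine xstau_zero ρ (d ^ e) 1 one_ne_zero _ _ ?_
      rw [one_smul, pl e _ h3 h4]
  refine ⟨d ^ e, diagE_of ρ W hL.bd hL.one _ a ht hf,
    xstau_line _ (hL.one _) _ _ (r k) (hr k).1 (hr k).2 (he _ _ 1 ek (by decide)),
    xstau_line _ (hL.one _) _ _ (r (π k)) (hr _).1 (hr _).2 (he _ _ 1 ep (by decide)),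
    fun h1 h2 w hw => ?_⟩
  have h3 := pl e i h1 h2
  rw [hf, q1] at h3
  have := xstau_line _ (hL.one _) (ρ (d ^ e)) 1 (r i) (hr i).1 (hr i).2 (by rw [h3, one_smul]) w hw
  rwa [one_smul] at this

end Pool.Agent.N9181
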