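import Pool.Agent.MP_9181f8_al.S.HSqI
import Pool.Agent.MP_9181f8_al.S.Sbd

namespace Pool.Agent.N9181

open scoped commutatorElement

theorem xsterma_map {V : Type} [AddCommGroup V] [Module K V] {H : Type} [Group H]
    (ρ : Representation K H V) (U : Submodule K V) (hU : ∀ h, ∀ w ∈ U, ρ h w ∈ U) (h : H) :
    U.map (ρ h) = U := by
  refine le_antisymm ?_ fun w hw => ⟨ρ h⁻¹ w, hU _ _ hw, rho_inv' ρ h w⟩
  rintro _ ⟨w, hw, rfl⟩
  exact hU h w hw

theorem term_fix {V : Type} [AddCommGroup V] [Module K V] [Module.Finite K V]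
    {H : Type} [Group H] [Finite H] (ρ : Representation K H V) (h13 : ¬ 13 ∣ Nat.card H) (N : ℕ) (hd : Nat.card H ∣ N) (hinj : Function.Injective ρ)
    (hS : HSq ρ N) (hT : Term ρ N) (B : Subgroup H) (hB : B.Normal) (hne : B ≠ ⊥) :
    fixS ρ B = ⊥ := by
  have hn : ∀ h : H, h ∈ Subgroup.normalizer (B : Set H) := fun h => by
    rw [Subgroup.normalizer_eq_top B]
    trivial
  have h0 : ∀ h, ∀ w ∈ fixS ρ B, ρ h w ∈ fixS ρ B := fun h => fix_norm ρ B h (hn h)
  have hc : (Nat.card H : K) ≠ 0 := fun h => h13 ((ZMod.natCast_eq_zero_iff _ 13).1 h)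
  obtain ⟨U, hU, hcp⟩ := exists_compl hc ρ (fixS ρ B) h0
  by_contra hb
  have hUb : U ≠ ⊥ := by
    rintro rfl
    have ht : fixS ρ B = ⊤ := by simpa using hcp.sup_eq_top
    refine hne (eq_bot_iff.2 fun b hb => Subgroup.mem_bot.2 (hinj ?_))
    rw [map_one]
    ext v
    exact (show v ∈ fixS ρ B from ht ▸ Submodule.mem_top) b hb
  have hne' : fixS ρ B ≠ U := fun h => hb (by
    have := hcp.disjoint
    rw [← h] at this
    exact disjoint_self.1 this)
  have hq0 : HSqOn ρ N (fixS ρ B) := fun h j hj s s' hs hs' M =>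
    hsq_tw ρ h13 N hd hS B (fun _ => 1) (fixS ρ B) (fun v => by simp [mem_fixS]) h (hn h) j hj
      s s' hs hs' M
  have hq1 : HSqOn ρ N U := fun h j hj s s' hs hs' M => by
    have hp : ∀ g : H, (ρ g) ^ Nat.card H = 1 := fun g => by
      rw [← map_pow, pow_card_eq_one', map_one]
    have e1 := bt_add (ρ h) _ h13 (hp h) _ _ hcp ((ρ h).restrict (h0 h)) s (fun _ => rfl) hs M
    have e2 := bt_add (ρ (h ^ (j * j))) _ h13 (hp _) _ _ hcp
      ((ρ (h ^ (j * j))).restrict (h0 _)) s' (fun _ => rfl) hs' M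
    have e3 := hq0 h j hj ((ρ h).restrict (h0 h)) ((ρ (h ^ (j * j))).restrict (h0 _))
      (fun _ => rfl) (fun _ => rfl) M
    have e4 := hS h j hj M
    linear_combination e4 - e2 + e1 - e3
  have hs : ({fixS ρ B, U} : Set (Submodule K V)) = {⊤} := by
    refine hT _ ⟨?_, (sSupIndep_pair hne').2 hcp.disjoint, ?_, ?_⟩ ?_
    · rintro h W (rfl | rfl)
      · exact Or.inl (xsterma_map ρ _ h0 h)
      · exact Or.inr (xsterma_map ρ _ hU h)
    · rw [sSup_pair, hcp.sup_eq_top]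
    · rintro (h | h)
      · exact hb h.symm
      · exact hUb h.symm
    · rintro W (rfl | rfl)
      · exact hq0
      · exact hq1
  have e1 : fixS ρ B ∈ ({⊤} : Set (Submodule K V)) := hs ▸ Or.inl rfl
  have e2 : U ∈ ({⊤} : Set (Submodule K V)) := hs ▸ Or.inr rfl
  exact hne' (e1.trans e2.symm)

theorem term_sc {V : Type} [AddCommGroup V] [Module K V] [Module.Finite K V]
    {H : Type} [Group H] [Finite H] (ρ : Representation K H V) (h13 : ¬ 13 ∣ Nat.card H) (N : ℕ) (hd : Nat.card H ∣ N) (hinj : Function.Injective ρ)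
    (hS : HSq ρ N) (hT : Term ρ N) (B : Subgroup H) (hB : B.Normal)
    (hc : ∀ a ∈ B, ∀ b ∈ B, a * b = b * a) (h12 : ∀ b ∈ B, b ^ 12 = 1) : B ≤ scal ρ := by
  have hn : ∀ h : H, h ∈ Subgroup.normalizer (B : Set H) := fun h => by
    rw [Subgroup.normalizer_eq_top B]
    trivial
  have h1 := eb ρ B ⊤ hc h12 fun h _ => hn h
  have hs : eigS ρ B = {⊤} := by
    refine hT _ ⟨fun h W hW => h1.map ⟨h, trivial⟩ W hW, h1.ind, h1.top, h1.ne⟩ ?_
    rintro W ⟨-, χ, hχ⟩ h j hj s s' hs hs' M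
    exact hsq_tw ρ h13 N hd hS B χ W hχ h (hn h) j hj s s' hs hs' M
  obtain ⟨ht, χ, hχ⟩ : (⊤ : Submodule K V) ∈ eigS ρ B := hs ▸ rfl
  intro b hb
  have hv : ∀ v, ρ b v = χ b • v := fun v => (hχ v).1 trivial b hb
  refine ⟨χ b, fun h => ht (eq_bot_iff.2 fun v _ => ?_), hv⟩
  rw [Submodule.mem_bot, ← rho_inv ρ b v, hv, h, zero_smul, map_zero]

end Pool.Agent.N9181
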