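import Pool.Agent.MP_9181f8_al.S.TermA
import Pool.Agent.MP_9181f8_al.N.Blocks

namespace Pool.Agent.N9181

open scoped commutatorElement

section

variable {V : Type} [AddCommGroup V] [Module K V] {H : Type} [Group H]

/-- `J` is maximal among the subgroups of `B` with a fixed vector in `U` -/
def xstermbM (ρ : Representation K H V) (B : Subgroup H) (U : Submodule K V) (J : Subgroup H) :
    Prop :=
  J ≤ B ∧ fixS ρ J ⊓ U ≠ ⊥ ∧ ∀ y ∈ B, ∀ v ∈ fixS ρ J ⊓ U, v ≠ 0 → ρ y v = v → y ∈ J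

theorem xstermb_max [Finite H] (ρ : Representation K H V) (B : Subgroup H) (U : Submodule K V)
    {v₀ : V} (h0 : v₀ ≠ 0) (hU : v₀ ∈ U) : ∃ J, B ⊓ stabV ρ v₀ ≤ J ∧ xstermbM ρ B U J := by
  obtain ⟨J, h4, ⟨h1, h2⟩, h3⟩ := (Set.toFinite {J | J ≤ B ∧ fixS ρ J ⊓ U ≠ ⊥}).exists_le_maximal
    (a := B ⊓ stabV ρ v₀) ⟨inf_le_left, (Submodule.ne_bot_iff _).2 ⟨v₀, ⟨fun _ hy => hy.2, hU⟩, h0⟩⟩
  exact ⟨J, h4, h1, h2, fun y hy v hv h0 e => h3 (y := B ⊓ stabV ρ v) ⟨inf_le_left,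
    (Submodule.ne_bot_iff _).2 ⟨v, ⟨fun _ hz => hz.2, hv.2⟩, h0⟩⟩ (le_inf h1 hv.1) ⟨hy, e⟩⟩

theorem xstermb_inv {ρ : Representation K H V} {B J : Subgroup H}
    (hc : ∀ a ∈ B, ∀ b ∈ B, a * b = b * a) (hJ : J ≤ B) {y : H} (hy : y ∈ B) {w : V}
    (hw : w ∈ fixS ρ J) : ρ y w ∈ fixS ρ J := fun z hz => by
  rw [← rho_mul, hc z (hJ hz) y hy, rho_mul, hw z hz]

theorem xstermb_up [Finite H] [Module.Finite K V] {ρ : Representation K H V} {B J : Subgroup H}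
    (hc : ∀ a ∈ B, ∀ b ∈ B, a * b = b * a) {p : ℕ} (hp : p.Prime) (hB : ∀ b ∈ B, b ^ p = 1)
    (h0 : fixS ρ B = ⊥) {U : Submodule K V} (hU : ∀ b ∈ B, ∀ u ∈ U, ρ b u ∈ U)
    (hJ : xstermbM ρ B U J) : xstermbM ρ B ⊤ J := by
  have := Fact.mk hp
  refine ⟨hJ.1, fun e => hJ.2.1 (eq_bot_mono (inf_le_inf_left _ le_top) e),
    fun y hy v hv hv0 e => by_contra fun hn => hv0 ?_⟩
  obtain ⟨σ, hσ⟩ := exists_res ρ B (fixS ρ J ⊓ U) fun b hb w hw =>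
    ⟨xstermb_inv hc hJ.1 hb hw.1, hU b hb w hw.2⟩
  obtain ⟨H', _, _, π, ρ', h1, h2, h3, -⟩ := exists_faithful σ
  obtain ⟨u, hu, hu0⟩ := (Submodule.ne_bot_iff _).1 hJ.2.1
  have hk : ∀ z : B, π z = 1 → z.1 ∈ J := fun z hz => hJ.2.2 z z.2 u hu hu0 (by
    rw [← hσ z ⟨u, hu⟩, ← h3, hz, map_one, Module.End.one_apply])
  have hcy := freeCyc ρ' ⊤ (fun a _ w hw ea => by
    obtain ⟨z, rfl⟩ := h1 a
    have hz := hJ.2.2 z z.2 w w.2 (fun e => hw (Subtype.ext e)) (by rw [← hσ, ← h3, ea])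
    refine h2 (LinearMap.ext fun w' => Subtype.ext ?_)
    rw [h3, hσ, map_one, Module.End.one_apply, w'.2.1 _ hz])
    ⟨⟨u, hu⟩, fun e => hu0 (congrArg Subtype.val e)⟩ (fun a _ b _ => by
      obtain ⟨z, rfl⟩ := h1 a
      obtain ⟨z', rfl⟩ := h1 b
      rw [← map_mul, ← map_mul]
      exact congrArg π (Subtype.ext (hc _ z.2 _ z'.2)))
  have hcy' : IsCyclic H' := isCyclic_of_surjective _ Subgroup.topEquiv.surjective
  have hy1 : π ⟨y, hy⟩ ≠ 1 := fun e => hn (hk _ e)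
  have hcard : Nat.card H' = p := by
    have : Nontrivial H' := ⟨_, _, hy1⟩
    rw [← IsCyclic.exponent_eq_card]
    refine (Monoid.exponent_eq_prime_iff hp).2 fun g hg => orderOf_eq_prime ?_ hg
    obtain ⟨z, rfl⟩ := h1 g
    rw [← map_pow, show z ^ p = 1 from Subtype.ext (hB z z.2), map_one]
  rw [← Submodule.mem_bot K, ← h0]
  intro z hz
  obtain ⟨k, hk'⟩ := mem_zpowers_of_prime_card hcard hy1 (g' := π ⟨z, hz⟩)
  have h4 := hk ((⟨y, hy⟩ ^ k)⁻¹ * ⟨z, hz⟩) (by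
    rw [map_mul, map_inv, map_zpow, ← hk', inv_mul_cancel])
  have h5 : y ^ k * ((y ^ k)⁻¹ * z) ∈ stabV ρ v :=
    mul_mem (zpow_mem (show y ∈ stabV ρ v from e) k) (hv.1 _ h4)
  rwa [mul_inv_cancel_left] at h5

theorem xstermb_sbd [Finite H] [Module.Finite K V] {ρ : Representation K H V}
    (h13 : ¬ 13 ∣ Nat.card H) {B : Subgroup H} (hN : B.Normal)
    (hc : ∀ a ∈ B, ∀ b ∈ B, a * b = b * a) {p : ℕ} (hp : p.Prime) (hB : ∀ b ∈ B, b ^ p = 1)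
    (h0 : fixS ρ B = ⊥) : SBD ρ {W | ∃ J, xstermbM ρ B ⊤ J ∧ fixS ρ J = W} := by
  have hmap : ∀ h : H, ∀ W ∈ {W | ∃ J, xstermbM ρ B ⊤ J ∧ fixS ρ J = W},
      W.map (ρ h) ∈ {W | ∃ J, xstermbM ρ B ⊤ J ∧ fixS ρ J = W} := by
    rintro h _ ⟨J, hJ, rfl⟩
    have hm : ∀ v, v ∈ fixS ρ (J.comap (MulAut.conj h⁻¹).toMonoidHom) ↔ ρ h⁻¹ v ∈ fixS ρ J :=
      fun v => ⟨fun hv y hy => by
        have h1 := hv (h * y * h⁻¹) (by simpa [Subgroup.mem_comap, mul_assoc] using hy)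
        conv_rhs => rw [← h1, rho_mul, rho_mul, rho_inv], fun hv y hy => by
        have h1 := congrArg (ρ h) (hv (h⁻¹ * y * h) (by simpa [Subgroup.mem_comap] using hy))
        rwa [rho_mul, rho_mul, rho_inv', rho_inv'] at h1⟩
    have hi : ∀ (g : H) {v}, v ≠ 0 → ρ g v ≠ 0 := fun g v hv e => hv (by
      rw [← rho_inv ρ g v, e, map_zero])
    refine ⟨J.comap (MulAut.conj h⁻¹).toMonoidHom, ⟨fun y hy => ?_, ?_, fun y hy v hv hv0 e => ?_⟩,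
      Submodule.ext fun v => (hm v).trans ⟨fun hv => ⟨_, hv, rho_inv' ρ h v⟩, ?_⟩⟩
    · simpa [mul_assoc] using hN.conj_mem _ (hJ.1 hy) h
    · obtain ⟨v, hv, hv0⟩ := (Submodule.ne_bot_iff _).1 hJ.2.1
      exact (Submodule.ne_bot_iff _).2 ⟨ρ h v, ⟨(hm _).2 (by rw [rho_inv]; exact hv.1), trivial⟩,
        hi h hv0⟩
    · refine hJ.2.2 _ (hN.conj_mem y hy h⁻¹) _ ⟨(hm v).1 hv.1, trivial⟩ (hi _ hv0) ?_
      change ρ (h⁻¹ * y * h⁻¹⁻¹) _ = _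
      rw [rho_mul, rho_mul, rho_inv, e]
    · rintro ⟨w, hw, rfl⟩
      rwa [rho_inv]
  refine ⟨hmap, (sSupIndep_iff _).2 (xblocks_ind _ ?_), ?_, ?_⟩
  · rintro ⟨_, J, hJ, rfl⟩ ⟨_, J', hJ', rfl⟩ hne
    obtain ⟨y, hy, hy'⟩ := SetLike.not_le_iff_exists.1 fun h : J' ≤ J => by
      obtain ⟨v, hv, hv0⟩ := (Submodule.ne_bot_iff _).1 hJ.2.1
      obtain rfl : J = J' := le_antisymm (fun y hy => hJ'.2.2 y (hJ.1 hy) v
        ⟨fun z hz => hv.1 z (h hz), trivial⟩ hv0 (hv.1 y hy)) h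
      exact hne rfl
    refine ⟨ρ y - 1, ?_, fun w hw => sub_eq_zero.2 (hw y hy), fun w hw e => by_contra fun h1 =>
      hy' (hJ.2.2 y (hJ'.1 hy) w ⟨hw, trivial⟩ h1 (sub_eq_zero.1 e))⟩
    rintro ⟨_, J₀, hJ₀, rfl⟩ w hw
    exact sub_mem (xstermb_inv hc hJ₀.1 (hJ'.1 hy) hw) hw
  · obtain ⟨U, hU, hco⟩ := exists_compl (fun e => h13 ((ZMod.natCast_eq_zero_iff _ _).1 e)) ρ
      (sSup {W | ∃ J, xstermbM ρ B ⊤ J ∧ fixS ρ J = W}) fun h =>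
        (sSup_le fun W hW w hw => le_sSup (hmap h W hW) ⟨w, hw, rfl⟩ :
          sSup _ ≤ Submodule.comap (ρ h) (sSup {W | ∃ J, xstermbM ρ B ⊤ J ∧ fixS ρ J = W}))
    refine eq_top_of_isCompl_bot ((?_ : U = ⊥) ▸ hco)
    by_contra hne
    obtain ⟨u, hu, hu0⟩ := (Submodule.ne_bot_iff _).1 hne
    obtain ⟨J, -, hJ⟩ := xstermb_max ρ B U hu0 hu
    refine hJ.2.1 (hco.disjoint.mono_left (le_sSup ?_)).eq_bot
    exact ⟨J, xstermb_up hc hp hB h0 (fun b _ => hU b) hJ, rfl⟩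
  · rintro ⟨J, hJ, e⟩
    exact hJ.2.1 (by rw [e, bot_inf_eq])

end

theorem term_cyc {V : Type} [AddCommGroup V] [Module K V] [Module.Finite K V]
    {H : Type} [Group H] [Finite H] (ρ : Representation K H V) (h13 : ¬ 13 ∣ Nat.card H) (N : ℕ) (hd : Nat.card H ∣ N) (hinj : Function.Injective ρ)
    (hS : HSq ρ N) (hT : Term ρ N) (hV : ∃ v : V, v ≠ 0) (B : Subgroup H) (hB : B.Normal)
    (hc : ∀ a ∈ B, ∀ b ∈ B, a * b = b * a) : IsCyclic B := by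
  refine freeCyc ρ B (fun a ha v hv e => by_contra fun h1 => ?_) hV hc
  obtain ⟨p, hp, hpa⟩ := Nat.exists_prime_and_dvd (fun e => h1 (orderOf_eq_one_iff.1 e))
  have h2 := orderOf_pow_orderOf_div (orderOf_pos a).ne' hpa
  let B₀ : Subgroup H :=
    { carrier := {b | b ∈ B ∧ b ^ p = 1}
      one_mem' := ⟨one_mem _, one_pow _⟩
      mul_mem' := fun {x y} hx hy => ⟨mul_mem hx.1 hy.1, by
        rw [Commute.mul_pow (hc x hx.1 y hy.1), hx.2, hy.2, one_mul]⟩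
      inv_mem' := fun {x} hx => ⟨inv_mem hx.1, by rw [inv_pow, hx.2, inv_one]⟩ }
  have hN : B₀.Normal := ⟨fun x hx g => ⟨hB.conj_mem x hx.1 g, by
    rw [conj_pow, hx.2, mul_one, mul_inv_cancel]⟩⟩
  have h3 : a ^ (orderOf a / p) ∈ B₀ :=
    ⟨pow_mem ha _, orderOf_dvd_iff_pow_eq_one.1 h2.dvd⟩
  have h4 : a ^ (orderOf a / p) ≠ 1 := fun e => hp.ne_one (by rw [← h2, e, orderOf_one])
  have h5 := hT _ (xstermb_sbd h13 hN (fun x hx y hy => hc x hx.1 y hy.1) hp (fun _ hb => hb.2)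
    (term_fix ρ h13 N hd hinj hS hT B₀ hN fun e => h4 (Subgroup.mem_bot.1 (e ▸ h3)))) (by
      rintro _ ⟨J, hJ, rfl⟩ h j hj s s' hs hs'
      refine hsq_tw ρ h13 N hd hS J (fun _ => 1) _ (fun v => by simp [mem_fixS]) h ?_ j hj s s'
        hs hs'
      obtain ⟨u, hu, hu0⟩ := (Submodule.ne_bot_iff _).1 hJ.2.1
      refine (inv_mem_iff).1 (Subgroup.mem_normalizer_fintype fun y hy =>
        hJ.2.2 _ (hN.conj_mem y (hJ.1 hy) _) u hu hu0 ?_)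
      have h6 := (s ⟨u, hu.1⟩).2 y hy
      rw [hs] at h6
      rw [rho_mul, rho_mul, inv_inv, h6, rho_inv])
  obtain ⟨J, h6, hJ⟩ := xstermb_max ρ B₀ ⊤ hv trivial
  have h7 : fixS ρ J = ⊤ := h5.le ⟨J, hJ, rfl⟩
  refine h4 (hinj (LinearMap.ext fun w => ?_))
  rw [map_one]
  exact h7.ge trivial _ (h6 ⟨h3, pow_mem (show a ∈ stabV ρ v from e) _⟩)

end Pool.Agent.N9181
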