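import Pool.Agent.MP_9181f8_al.S.TermB
import Pool.Agent.MP_9181f8_al.S.Gbd
import Pool.Agent.MP_9181f8_al.N.Struct

namespace Pool.Agent.N9181

open scoped commutatorElement

theorem xstermc_normal {H : Type} [Group H] (A : Subgroup H) (hA : A.Normal) (hc : IsCyclic A) :
    ∀ a ∈ A, (Subgroup.zpowers a).Normal := by
  obtain ⟨⟨g, hg⟩, hgen⟩ := hc.exists_generator
  intro a ha
  obtain ⟨k, hk⟩ := hgen ⟨a, ha⟩
  have hk' : g ^ k = a := by simpa using congrArg Subtype.val hk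
  refine ⟨?_⟩
  rintro _ ⟨l, rfl⟩ h
  obtain ⟨m, hm⟩ := hgen ⟨h * g * h⁻¹, hA.conj_mem g hg h⟩
  have hm' : g ^ m = h * g * h⁻¹ := by simpa using congrArg Subtype.val hm
  refine ⟨l * m, ?_⟩
  show a ^ (l * m) = h * a ^ l * h⁻¹
  rw [← hk', ← zpow_mul, ← zpow_mul, ← conj_zpow, ← hm', ← zpow_mul]
  congr 1
  ring

theorem exists_sd2 {H : Type} [Group H] [Finite H] [Group.IsSolvable H]
    (h : ∀ B : Subgroup H, B.Normal → (∀ a ∈ B, ∀ b ∈ B, a * b = b * a) → IsCyclic B) :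
    ∃ A F : Subgroup H, SD A F ∧ MxA A := by
  obtain ⟨A, hA⟩ := exists_maximal_of_wellFoundedGT
    (fun A : Subgroup H => A.Normal ∧ ∀ a ∈ A, ∀ b ∈ A, a * b = b * a)
    ⟨⊥, inferInstance, fun a ha b _ => by rw [Subgroup.mem_bot.1 ha, one_mul, mul_one]⟩
  obtain ⟨hn, hc⟩ := hA.prop
  obtain ⟨F, hF⟩ := exists_maximal_of_wellFoundedGT
    (fun F : Subgroup H => F.Normal ∧ A ≤ F ∧ F ≤ Subgroup.centralizer (A : Set H) ∧
      ∀ x ∈ F, ∀ y ∈ F, ⁅x, y⁆ ∈ A)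
    ⟨A, hn, le_rfl, fun x hx a ha => hc a ha x hx, fun x hx y hy =>
      A.mul_mem (A.mul_mem (A.mul_mem hx hy) (A.inv_mem hx)) (A.inv_mem hy)⟩
  obtain ⟨hFn, hle, hcen, hcm⟩ := hF.prop
  have hP : PD A F := ⟨h A hn hc, hle, fun a ha x hx => hcen hx a ha, hcm, fun x hx hx' =>
    hA.le_of_ge (y := F ⊓ Subgroup.centralizer (F : Set H))
      ⟨inferInstance, fun a ha b hb => hb.2 a ha.1⟩
      (fun a ha => ⟨hle ha, fun y hy => (hcen hy a ha).symm⟩) ⟨hx, fun y hy => (hx' y hy).symm⟩⟩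
  have hC := xstruct_cent hP fun F' h1 h2 h3 h4 => hF.le_of_ge ⟨h1, hle.trans h2, h3, h4⟩ h2
  refine ⟨A, F, ⟨hP, hn, hFn, fun c hc hy => ?_⟩,
    fun B h1 h2 h3 => le_antisymm (hA.le_of_ge ⟨h1, h2⟩ h3) h3⟩
  obtain ⟨x, hx, hx'⟩ := xstruct_ff hP hc hy
  simpa using F.mul_mem hx (hle (hC hx'))

theorem gb_of_term {V : Type} [AddCommGroup V] [Module K V] [Module.Finite K V]
    {H : Type} [Group H] [Finite H] [Group.IsSolvable H] (ρ : Representation K H V) (h13 : ¬ 13 ∣ Nat.card H) (N : ℕ) (hd : Nat.card H ∣ N) (hinj : Function.Injective ρ)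
    (hS : HSq ρ N) (hT : Term ρ N) (hN : 0 < N) (hV : ∃ v : V, v ≠ 0) :
    ∃ A F : Subgroup H, GB ρ N A F := by
  obtain ⟨A, F, hSD, hM⟩ := exists_sd2 (term_cyc ρ h13 N hd hinj hS hT hV)
  have hn : ∀ a ∈ A, (Subgroup.zpowers a).Normal := xstermc_normal A hSD.nA hSD.cyc
  refine ⟨A, F, hinj, hV, hd, hN, h13, hS, hSD, hM, fun a ha v h0 hv => ?_, fun a ha h12 => ?_⟩
  · by_contra hne
    have h1 := term_fix ρ h13 N hd hinj hS hT _ (hn a ha) (Subgroup.zpowers_ne_bot.2 hne)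
    have h2 : v ∈ fixS ρ (Subgroup.zpowers a) := fun y hy =>
      (Subgroup.zpowers_le (H := stabV ρ v)).2 hv hy
    rw [h1] at h2
    exact h0 h2
  · refine term_sc ρ h13 N hd hinj hS hT _ (hn a ha) ?_ ?_ (Subgroup.mem_zpowers a)
    · rintro _ ⟨k, rfl⟩ _ ⟨l, rfl⟩
      exact zpow_mul_comm a k l
    · rintro _ ⟨k, rfl⟩
      show (a ^ k) ^ 12 = 1
      rw [← zpow_natCast, ← zpow_mul, mul_comm, zpow_mul, zpow_natCast, h12, one_zpow]

theorem gblocks {V : Type} [AddCommGroup V] [Module K V] [Module.Finite K V]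
    {H : Type} [Group H] [Finite H] [Group.IsSolvable H] (ρ : Representation K H V) (h13 : ¬ 13 ∣ Nat.card H) (N : ℕ) (hd : Nat.card H ∣ N) (hN : 0 < N)
    (hV : ∃ v : V, v ≠ 0) (hS : HSq ρ N) :
    ∃ (I : Type) (_ : Fintype I) (_ : MulAction H I) (W : I → Submodule K V), BD ρ I W ∧
      ∀ i : I, ∃ (H' : Type) (_ : Group H') (_ : Finite H') (_ : Group.IsSolvable H')
        (π : MulAction.stabilizer H i →* H') (σ : Representation K H' (W i))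
        (A F : Subgroup H'), FB ρ W i π σ ∧ GB σ N A F := by
  obtain ⟨I, _, _, W, hB, hW⟩ := gbd ρ N hV hS
  refine ⟨I, inferInstance, inferInstance, W, hB, fun i => ?_⟩
  obtain ⟨H', _, _, π, σ, hF, hinj, hc⟩ := exists_fb ρ W hB i
  have hs : Group.IsSolvable H' := Group.isSolvable_of_surjective hF.surj
  obtain ⟨h1, h2⟩ := hW i H' π σ hF
  obtain ⟨v, hv, h0⟩ := Submodule.exists_mem_ne_zero_of_ne_bot (hB.ne i)
  obtain ⟨A, F, hG⟩ := gb_of_term σ (fun h => h13 (h.trans hc)) N (hc.trans hd) hinj h1 h2 hN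
    ⟨⟨v, hv⟩, fun e => h0 (congrArg Subtype.val e)⟩
  exact ⟨H', inferInstance, inferInstance, hs, π, σ, A, F, hF, hG⟩

end Pool.Agent.N9181
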