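import Pool.Agent.MP_9181f8_al.S.Kill
import Pool.Agent.MP_9181f8_al.S.DkB
import Pool.Agent.MP_9181f8_al.S.TermC

namespace Pool.Agent.N9181

open scoped commutatorElement

theorem thmD (n N : ℕ) : DIH n N := by
  induction n with
  | zero => intro V _ _ _ H _ _ _ ρ h; exact absurd h (Nat.not_lt_zero _)
  | succ n ih =>
  intro V _ _ _ H _ _ _ ρ hn hC hV
  obtain ⟨I, _, _, W, hB, hW⟩ := gblocks ρ hC.cop N hC.dvd hC.pos hV hC.sq
  have h1 : ∀ i, Module.finrank K (W i) = 1 := fun i => by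
    obtain ⟨H', _, _, _, π, σ, A, F, hF, hG⟩ := hW i
    obtain ⟨e5, hK⟩ := dk ρ N hC W hB i π σ hF
    have hle : Module.finrank K (W i) ≤ n :=
      Nat.lt_succ_iff.1 (lt_of_le_of_lt (Submodule.finrank_le _) hn)
    exact kill σ N A F hG e5 hK fun V' _ _ _ H'' _ _ _ τ h => ih V' H'' τ (h.trans_le hle)
  exact ⟨I, inferInstance, inferInstance, W, hB, h1, line_rel ρ N hC W hB h1⟩

end Pool.Agent.N9181
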