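import Pool.Agent.MP_9181f8_al.S.ThmD
import Pool.Agent.MP_9181f8_al.S.MonoLP
import Pool.Agent.MP_9181f8_al.S.Tau
import Pool.Agent.MP_9181f8_al.S.Efin

namespace Pool.Agent.N9181

open scoped commutatorElement

theorem xsthme_mul {V : Type} [AddCommGroup V] [Module K V] {H : Type} [Group H]
    (ρ : Representation K H V) {I : Type} [MulAction H I] (W : I → Submodule K V) (a b : H)
    (ha : DiagE ρ W a) (hb : DiagE ρ W b) : DiagE ρ W (a * b) := fun i => by
  obtain ⟨a1, c, hc, a2⟩ := ha i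
  obtain ⟨b1, d, hd, b2⟩ := hb i
  refine ⟨by rw [mul_smul, b1, a1], d * c, by rw [mul_pow, hc, hd, one_mul], fun w hw => ?_⟩
  rw [rho_mul, b2 w hw, map_smul, a2 w hw, smul_smul]

theorem thmE {V : Type} [AddCommGroup V] [Module K V] [Module.Finite K V]
    {H : Type} [Group H] [Finite H] [Group.IsSolvable H] (ρ : Representation K H V) (N : ℕ) (hC : ClB ρ N) (hE3 : HEP ρ 3) (hP : Par ρ) (v : V) : v = 0 := by
  by_contra h0
  obtain ⟨I, _, _, W, π, hL⟩ :=
    mono_lp ρ hC.ep (thmD (Module.finrank K V + 1) N V H ρ (Nat.lt_succ_self _) hC ⟨v, h0⟩)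
  have hI : Nonempty I := by
    by_contra hI
    rw [not_nonempty_iff] at hI
    have h1 := hL.bd.top
    rw [iSup_of_empty] at h1
    have h2 : v ∈ (⊥ : Submodule K V) := h1 ▸ Submodule.mem_top
    exact h0 h2
  obtain ⟨i⟩ := hI
  refine efin ρ hC.ep hP W hL.bd hL.one i fun k hk => ?_
  by_cases e : k = π i
  · subst e
    obtain ⟨t, t1, t2, t3⟩ := tt ρ hE3 W π hL i
    obtain ⟨s, s1, s2, s3, -⟩ := tau ρ hC.ep W π hL i i
    refine ⟨t * (s * s), 9, xsthme_mul ρ W t _ t1 (xsthme_mul ρ W s s s1 s1), fun w hw => ?_,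
      by decide, fun u hu => ?_⟩
    · rw [rho_mul, rho_mul, s2 w hw, map_smul, s2 w hw, map_smul, map_smul, t2 w hw, smul_smul,
        smul_smul, show (3 * 3 * 3 : K) = 1 by decide, one_smul]
    · rw [rho_mul, rho_mul, s3 u hu, map_smul, s3 u hu, map_smul, map_smul, t3 u hu, smul_smul,
        smul_smul, show (9 * 9 * 3 : K) = 9 by decide]
  · obtain ⟨s, s1, s2, -, s4⟩ := tau ρ hC.ep W π hL k i
    exact ⟨s, 3, s1, s4 hk.symm fun e' => e (by rw [e', hL.inv]), by decide, s2⟩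

end Pool.Agent.N9181
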