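import Pool.Agent.MP_9181f8_al.S.Proj

namespace Pool.Agent.N9181

open scoped commutatorElement

theorem xstrans_key {V : Type} [AddCommGroup V] [Module K V] [Module.Finite K V]
    {H : Type} [Group H] (ρ : Representation K H V) {I : Type} [MulAction H I]
    (W : I → Submodule K V) (hB : BD ρ I W) (i : I) {H' : Type} [Group H']
    (π : MulAction.stabilizer H i →* H') (σ : Representation K H' (W i)) (hF : FB ρ W i π σ)
    (g h : H) (n : ℕ) (hn : h ^ (3 ^ n) = 1) (hj : h • g • i = g • i) :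
    ∃ s : H', s ^ (3 ^ n) = 1 ∧ (∀ w : W i, (σ s w : V) = ρ g⁻¹ (ρ h (ρ g w))) ∧
      ∀ c, ed (σ s) c = edOn (W (g • i)) (ρ h) c := by
  have hm : g⁻¹ * h * g ∈ MulAction.stabilizer H i := by
    rw [MulAction.mem_stabilizer_iff, mul_smul, mul_smul, hj, inv_smul_smul]
  refine ⟨π ⟨_, hm⟩, ?_, fun w => ?_, fun c => ?_⟩
  · rw [← map_pow]
    have h1 : (⟨_, hm⟩ : MulAction.stabilizer H i) ^ (3 ^ n) = 1 := by
      apply Subtype.ext
      have h2 := conj_pow (a := g⁻¹) (b := h) (i := 3 ^ n)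
      rw [inv_inv, hn, mul_one, inv_mul_cancel] at h2
      exact h2
    rw [h1, map_one]
  · rw [hF.res, rho_mul, rho_mul]
  · rw [ed_res (W i) (ρ (g⁻¹ * h * g)) _ (fun w => hF.res ⟨_, hm⟩ w) c,
      ← (dim_eq ρ W hB g (g⁻¹ * h * g) i c).2]
    congr 2
    group

theorem xstrans_eig {V : Type} [AddCommGroup V] [Module K V]
    {H : Type} [Group H] (ρ : Representation K H V) (U : Submodule K V) (s : Module.End K U)
    (g h : H) (hs : ∀ w : U, (s w : V) = ρ g⁻¹ (ρ h (ρ g w))) (r : U) (c : K)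
    (hr : ρ h (ρ g r) = c • ρ g r) : s r = c • r := by
  apply Subtype.ext
  rw [hs, hr, map_smul, rho_inv]
  rfl

theorem trans_pb {V : Type} [AddCommGroup V] [Module K V] [Module.Finite K V]
    {H : Type} [Group H] [Finite H] (ρ : Representation K H V) {I : Type} [Fintype I] [MulAction H I] (W : I → Submodule K V) (hB : BD ρ I W) (i : I) {H' : Type} [Group H'] [Finite H'] (π : MulAction.stabilizer H i →* H')
    (σ : Representation K H' (W i)) (hF : FB ρ W i π σ) (g : I → H) (hg : ∀ j, g j • i = j) :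
    (∀ (r : W i) (p : ℕ), Pos σ r p → BPos ρ W (fun j => ρ (g j) r) p) ∧
      (∀ (r : W i) (p : ℕ), PosW σ r p → BPosW ρ W (fun j => ρ (g j) r) p) ∧
      (∀ r : W i, RegF σ r → BRegF ρ W (fun j => ρ (g j) r)) ∧
      ∀ r r' : W i, r ≠ 0 → (∀ k, σ k r' ≠ (3 : K) • r) →
        ∀ (h : H) (j j' : I), ρ h (ρ (g j) r') ≠ (3 : K) • ρ (g j') r := by
  refine ⟨fun r p hP j h n hn hj hr => ?_, fun r p hP j h n hn hj hr => ?_,
    fun r hP j h n hn hj hr hf w hw => ?_, fun r r' h0 hk h j j' he => ?_⟩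
  · obtain ⟨s, h1, h2, h3⟩ := xstrans_key ρ W hB i π σ hF (g j) h n hn (by rw [hg, hj])
    have h4 := hP s n h1 (xstrans_eig ρ _ _ _ _ h2 r 3 hr)
    rwa [h3, h3, hg] at h4
  · obtain ⟨s, h1, h2, h3⟩ := xstrans_key ρ W hB i π σ hF (g j) h n hn (by rw [hg, hj])
    have h4 := hP s n h1 (xstrans_eig ρ _ _ _ _ h2 r 3 hr)
    rwa [h3, h3, hg] at h4
  · obtain ⟨s, h1, h2, -⟩ := xstrans_key ρ W hB i π σ hF (g j) h n hn (by rw [hg, hj])
    have h4 := hP s n h1 (xstrans_eig ρ _ _ _ _ h2 r 3 hr) (fun v hv => by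
      have h5 := h2 v
      rw [hv] at h5
      have h6 : ρ h (ρ (g j) v) = ρ (g j) v := by
        conv_rhs => rw [h5, rho_inv']
      have h7 := hf _ h6
      by_contra h8
      exact xcomp_ne ρ (g j) v (fun e => h8 (Subtype.ext e)) h7)
    have hw' : ρ (g j)⁻¹ w ∈ W i := by
      have h5 := hB.map (g j)⁻¹ j w hw
      rwa [show (g j)⁻¹ • j = i by rw [inv_smul_eq_iff, hg]] at h5
    have h5 := h2 ⟨_, hw'⟩
    rw [h4] at h5
    have h6 := congrArg (ρ (g j)) h5
    simp only [SetLike.val_smul, map_smul, rho_inv'] at h6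
    exact h6.symm
  · have h1 : ρ ((g j')⁻¹ * h * g j) r' = (3 : K) • (r : V) := by
      rw [rho_mul, rho_mul, he, map_smul, rho_inv]
    have h2 : (3 : K) • (r : V) ≠ 0 :=
      smul_ne_zero (by decide) (fun e => h0 (Subtype.ext e))
    have hm : (g j')⁻¹ * h * g j ∈ MulAction.stabilizer H i := by
      rw [MulAction.mem_stabilizer_iff]
      by_contra hne
      have h3 : Disjoint (W (((g j')⁻¹ * h * g j) • i)) (W i) := hB.ind.pairwiseDisjoint hne
      refine h2 (Submodule.disjoint_def.1 h3 _ ?_ ((W i).smul_mem _ r.2))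
      rw [← h1]
      exact hB.map _ i _ r'.2
    exact hk (π ⟨_, hm⟩) (Subtype.ext (by rw [hF.res]; exact h1))

end Pool.Agent.N9181
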