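import Pool.Agent.MP_9181f8_al.S.O3K
import Pool.Agent.MP_9181f8_al.S.Proj

namespace Pool.Agent.N9181

open scoped commutatorElement

theorem xsz1_step {H : Type} [Group H] [Group.IsSolvable H] (D : Subgroup H) (hD : D.Normal)
    (P : H → Prop) (h1 : P 1) (hn : ¬ ∀ y ∈ D, P y) :
    ∃ Y : Subgroup H, Y.Normal ∧ Y ≤ D ∧ (¬ ∀ y ∈ Y, P y) ∧ ∀ a ∈ Y, ∀ b ∈ Y, P ⁅a, b⁆ := by
  let Y : ℕ → Subgroup H := fun n => Nat.rec D (fun _ Z => ⁅Z, Z⁆) n
  have key : ∀ n, (Y n).Normal ∧ Y n ≤ D ∧ Y n ≤ derivedSeries H n := by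
    intro n
    induction n with
    | zero => exact ⟨hD, le_rfl, le_top⟩
    | succ n ih =>
      obtain ⟨a1, a2, a3⟩ := ih
      exact ⟨Subgroup.commutator_normal _ _, (Subgroup.commutator_le_left _ _).trans a2,
        Subgroup.commutator_mono a3 a3⟩
  obtain ⟨m, hm⟩ := (Group.isSolvable_def H).1 inferInstance
  obtain ⟨n, a1, a2⟩ := Nat.exists_not_and_succ_of_not_zero_of_exists
    (p := fun n => ∀ y ∈ Y n, P y) hn ⟨m, fun y hy => by
      have := (key m).2.2 hy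
      rw [hm, Subgroup.mem_bot] at this
      rwa [this]⟩
  exact ⟨Y n, (key n).1, (key n).2.1, a1, fun a ha b hb =>
    a2 _ (Subgroup.commutator_mem_commutator ha hb)⟩

theorem xsz1_tr {V : Type} [AddCommGroup V] [Module K V] {H : Type} [Group H]
    (ρ : Representation K H V) {I : Type} [MulAction H I] (W : I → Submodule K V) (hB : BD ρ I W)
    (i : I) (g h : H) (c : K) (hc : ∀ w ∈ W i, ρ h w = c • w) :
    ∀ w ∈ W (g • i), ρ (g * h * g⁻¹) w = c • w := by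
  intro w hw
  have h1 := hB.map g⁻¹ _ w hw
  rw [inv_smul_smul] at h1
  rw [rho_mul, rho_mul, hc _ h1, map_smul, rho_inv']

theorem z1 {V : Type} [AddCommGroup V] [Module K V] [Module.Finite K V]
    {H : Type} [Group H] [Finite H] [Group.IsSolvable H] (ρ : Representation K H V) {I : Type} [Fintype I] [MulAction H I] [MulAction.IsPretransitive H I]
    (W : I → Submodule K V) (hB : BD ρ I W) (i : I) {H' : Type} [Group H'] [Finite H'] (π : MulAction.stabilizer H i →* H')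
    (σ : Representation K H' (W i)) (hF : FB ρ W i π σ) (E : Subgroup H') (hE : EH σ 3 3 E) (hFF : FFE σ E)
    (t : H) (ht : ∀ j : I, t • j = j)
    (hn : ¬ ∀ j : I, ∃ c : K, ∀ w ∈ W j, ρ t w = c • w) :
    ∀ j : I, ∃ z : H, DiagE ρ W z ∧ ∀ w ∈ W j, ρ z w = (3 : K) • w := by
  let D : Subgroup H := (MulAction.toPermHom H I).ker
  have mD : ∀ h, h ∈ D ↔ ∀ j : I, h • j = j := fun h => by
    rw [MonoidHom.mem_ker, Equiv.ext_iff]
    rfl
  obtain ⟨Y, hY, hYD, hnY, hcY⟩ := xsz1_step D inferInstance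
    (fun h => ∀ j : I, ∃ c : K, ∀ w ∈ W j, ρ h w = c • w)
    (fun j => ⟨1, fun w _ => by rw [map_one, one_smul]; rfl⟩)
    (fun h => hn (h t ((mD t).2 ht)))
  have st : ∀ y ∈ Y, y ∈ MulAction.stabilizer H i := fun y hy => (mD y).1 (hYD hy) i
  obtain ⟨v, hv⟩ := hE.ne
  let R : Subgroup H' := (Y.subgroupOf (MulAction.stabilizer H i)).map π
  have mR : ∀ y (hy : y ∈ Y), π ⟨y, st y hy⟩ ∈ R := fun y hy => ⟨⟨y, st y hy⟩, hy, rfl⟩
  have cR : ∀ a (ha : a ∈ Y) b (hb : b ∈ Y) (c : K), (∀ w ∈ W i, ρ ⁅a, b⁆ w = c • w) →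
      ∀ w, σ ⁅π ⟨a, st a ha⟩, π ⟨b, st b hb⟩⁆ w = c • w := fun a ha b hb c hc w => by
    rw [← map_commutatorElement]
    exact Subtype.ext ((hF.res _ w).trans (hc w w.2))
  obtain ⟨h3, _, ⟨⟨a, _⟩, ha, rfl⟩, _, ⟨⟨b, _⟩, hb, rfl⟩, hab⟩ :=
    z4 σ E hE hFF R (Subgroup.Normal.map inferInstance π hF.surj) (by
      rintro _ ⟨⟨a, _⟩, ha, rfl⟩ _ ⟨⟨b, _⟩, hb, rfl⟩
      obtain ⟨c, hc⟩ := hcY a ha b hb i
      have h1 := cR a ha b hb c hc
      refine ⟨c, fun h0 => hv ?_, h1⟩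
      have h2 := rho_inv σ ⁅π ⟨a, st a ha⟩, π ⟨b, st b hb⟩⁆ v
      rw [h1, h0, zero_smul, map_zero] at h2
      exact h2.symm) (fun hR => hnY fun y hy j => by
      obtain ⟨g, rfl⟩ := MulAction.exists_smul_eq H i j
      have hy' := hY.conj_mem' y hy g
      obtain ⟨c, -, hc⟩ := hR (mR _ hy')
      refine ⟨c, ?_⟩
      have := xsz1_tr ρ W hB i g (g⁻¹ * y * g) c fun w hw =>
        (hF.res ⟨_, st _ hy'⟩ ⟨w, hw⟩).symm.trans (congrArg Subtype.val (hc ⟨w, hw⟩))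
      rwa [show g * (g⁻¹ * y * g) * g⁻¹ = y by group] at this)
  have cube : ∀ a ∈ Y, ∀ b ∈ Y, ∃ c : K, c ^ 3 = 1 ∧ ∀ w ∈ W i, ρ ⁅a, b⁆ w = c • w := by
    intro a ha b hb
    obtain ⟨c, hc⟩ := hcY a ha b hb i
    refine ⟨c, ?_, hc⟩
    have h1 := rho_pow_eig σ _ v c (cR a ha b hb c hc v) 3
    rw [h3 _ (mR a ha) _ (mR b hb), map_one] at h1
    exact (smul_left_injective K hv (h1.symm.trans (one_smul K v).symm))
  have diag : ∀ a ∈ Y, ∀ b ∈ Y, DiagE ρ W ⁅a, b⁆ := by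
    intro a ha b hb j
    refine ⟨(mD _).1 (hYD (Subgroup.commutator_le_left Y Y
      (Subgroup.commutator_mem_commutator ha hb))) j, ?_⟩
    obtain ⟨g, rfl⟩ := MulAction.exists_smul_eq H i j
    obtain ⟨c, h1, h2⟩ := cube _ (hY.conj_mem' a ha g) _ (hY.conj_mem' b hb g)
    refine ⟨c, h1, ?_⟩
    have := xsz1_tr ρ W hB i g _ c h2
    rwa [show g * ⁅g⁻¹ * a * g, g⁻¹ * b * g⁆ * g⁻¹ = ⁅a, b⁆ by
      simp only [commutatorElement_def]; group] at this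
  obtain ⟨c, h1, h2⟩ := cube a ha b hb
  have h0 : c ≠ 1 := by
    rintro rfl
    refine hab (hE.inj (LinearMap.ext fun w => ?_))
    rw [cR a ha b hb 1 h2, one_smul, map_one]
    rfl
  intro j
  obtain ⟨g, rfl⟩ := MulAction.exists_smul_eq H i j
  have h4 := xsz1_tr ρ W hB i g _ c h2
  have h5 := diag _ (hY.conj_mem a ha g) _ (hY.conj_mem b hb g)
  rw [← conjugate_commutatorElement] at h5
  generalize g * ⁅a, b⁆ * g⁻¹ = z at h4 h5
  have h6 : c = 3 ∨ c = 9 := by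
    revert h0 h1
    generalize c = x
    revert x
    decide
  rcases h6 with rfl | rfl
  · exact ⟨z, h5, h4⟩
  · refine ⟨z * z, fun k => ?_, fun w hw => ?_⟩
    · obtain ⟨a1, d, a2, a3⟩ := h5 k
      refine ⟨by rw [mul_smul, a1, a1], d * d, by rw [mul_pow, a2, one_mul], fun w hw => ?_⟩
      rw [rho_mul, a3 w hw, map_smul, a3 w hw, smul_smul]
    · rw [rho_mul, h4 w hw, map_smul, h4 w hw, smul_smul]
      rfl

end Pool.Agent.N9181
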