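import Pool.Agent.MP_9181f8_al.S.Fin1

namespace Pool.Agent.N9181

open scoped commutatorElement

theorem z2 {V : Type} [AddCommGroup V] [Module K V] [Module.Finite K V]
    {H : Type} [Group H] [Finite H] (ρ : Representation K H V) {I : Type} [Fintype I] [MulAction H I] (W : I → Submodule K V) (hB : BD ρ I W) [Nonempty I] (hb : HBal3 ρ) (t : H) (a : ℕ) (ht : t ^ (3 ^ a) = 1)
    (ft : ∀ i : I, t • i = i) (hf : ∀ v, ρ t v = v → v = 0)
    (hp : ∀ i, edOn (W i) (ρ t) 9 < edOn (W i) (ρ t) 3)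
    (hz : ∀ i : I, ∃ z : H, DiagE ρ W z ∧ ∀ w ∈ W i, ρ z w = (3 : K) • w) : Scal ρ := by
  classical
  have := Fintype.ofFinite H
  by_contra hS
  have ext : ∀ f g : Module.End K V, (∀ i, ∀ w ∈ W i, f w = g w) → f = g := fun f g h =>
    LinearMap.eqLocus_eq_top.1 (top_le_iff.1 (hB.top ▸ iSup_le h))
  obtain ⟨dl, hd⟩ : ∃ dl : H → I → ℤ, ∀ z i,
    dl z i = edOn (W i) (ρ (t * z)) 3 - edOn (W i) (ρ (t * z)) 9 := ⟨_, fun _ _ => rfl⟩
  have n1 : ∀ i, edOn (W i) (ρ t) 1 = 0 := fun i => Nat.eq_zero_of_not_pos fun h => by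
    obtain ⟨w, -, h1, h2⟩ := (edOn_pos _ _ _).1 h
    exact h1 (hf w (by rwa [one_smul] at h2))
  have key : ∀ {z i} {c : K} (ν μ : K), (∀ w ∈ W i, ρ z w = c • w) → c ≠ 0 → c * ν = μ →
      edOn (W i) (ρ (t * z)) μ = edOn (W i) (ρ t) ν := fun ν μ h hc e =>
    e ▸ xstepa_mul _ _ _ _ _ hc fun w hw => by rw [rho_mul, h w hw, map_smul]
  have d1 : ∀ {z i}, (∀ w ∈ W i, ρ z w = (1 : K) • w) →
      dl z i = edOn (W i) (ρ t) 3 - edOn (W i) (ρ t) 9 := fun h => by
    rw [hd, key 3 3 h (by decide) (by decide), key 9 9 h (by decide) (by decide)]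
  have d3 : ∀ {z i}, (∀ w ∈ W i, ρ z w = (3 : K) • w) → dl z i = -edOn (W i) (ρ t) 3 := fun h => by
    rw [hd, key 1 3 h (by decide) (by decide), key 3 9 h (by decide) (by decide), n1]
    simp
  have d9 : ∀ {z i}, (∀ w ∈ W i, ρ z w = (9 : K) • w) → dl z i = edOn (W i) (ρ t) 9 := fun h => by
    rw [hd, key 9 3 h (by decide) (by decide), key 1 9 h (by decide) (by decide), n1]
    simp
  have mul : ∀ {z z' i} {c c' : K} (d : K), (∀ w ∈ W i, ρ z w = c • w) →
      (∀ w ∈ W i, ρ z' w = c' • w) → c' * c = d → ∀ w ∈ W i, ρ (z * z') w = d • w :=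
    fun d h h' e w hw => by rw [rho_mul, h' w hw, map_smul, h w hw, smul_smul, e]
  have mulD : ∀ {z z'}, DiagE ρ W z → DiagE ρ W z' → DiagE ρ W (z * z') := fun h h' i => by
    obtain ⟨e1, c, e2, e3⟩ := h i
    obtain ⟨e4, c', e5, e6⟩ := h' i
    exact ⟨by rw [mul_smul, e4, e1], _, by rw [mul_pow, e5, e2, one_mul], mul _ e3 e6 rfl⟩
  have tri : ∀ {z}, DiagE ρ W z → ∀ i, (∀ w ∈ W i, ρ z w = (1 : K) • w) ∨
      (∀ w ∈ W i, ρ z w = (3 : K) • w) ∨ ∀ w ∈ W i, ρ z w = (9 : K) • w := fun h i => by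
    obtain ⟨-, c, e2, e3⟩ := h i
    have : ∀ c : K, c ^ 3 = 1 → c = 1 ∨ c = 3 ∨ c = 9 := by decide
    rcases this c e2 with rfl | rfl | rfl
    exacts [.inl e3, .inr (.inl e3), .inr (.inr e3)]
  have pos : ∀ {z i}, (∀ w ∈ W i, ρ z w = (1 : K) • w) → 0 < dl z i := fun h => by
    rw [d1 h, sub_pos]
    exact_mod_cast hp _
  have hA : ∀ {z i}, DiagE ρ W z → (∀ w ∈ W i, ρ z w = (9 : K) • w) → ∑ i, dl z i = 0 := by
    intro z i hD h9
    have e1 : Commute (ρ t) (ρ z) := ext _ _ fun i w hw => by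
      obtain ⟨-, c, -, e⟩ := hD i
      rw [Module.End.mul_apply, Module.End.mul_apply, e w hw, e _ (ft i ▸ hB.map t i w hw), map_smul]
    have e2 : ρ z ^ 3 = 1 := ext _ _ fun i w hw => by
      obtain ⟨-, c, e', e⟩ := hD i
      rw [xstepa_pow _ _ c e 3 w hw, e', one_smul, Module.End.one_apply]
    obtain ⟨w, -, e3, e4⟩ := (edOn_pos (W i) (ρ (t * z)) 1).1 (by
      rw [key 3 1 h9 (by decide) (by decide)]
      exact (Nat.zero_le _).trans_lt (hp i))
    have := bal3_all ρ W hB hb (t * z) (a + 1) (by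
      rw [map_mul, e1.mul_pow, ← map_pow, pow_succ, pow_mul, ht, one_pow, map_one, pow_mul', e2,
        one_pow, one_mul]) (fun i => by rw [mul_smul, (hD i).1, ft]) ⟨w, e3, by rwa [one_smul] at e4⟩
    simp only [hd, Finset.sum_sub_distrib, ← Nat.cast_sum, this, sub_self]
  have hC : ∀ z : {z // DiagE ρ W z}, 0 ≤ ∑ i, dl z i := fun ⟨z, hD⟩ => by
    by_cases h9 : ∃ i, ∀ w ∈ W i, ρ z w = (9 : K) • w
    · exact (hA hD h9.choose_spec).ge
    have h13 := fun i => (or_assoc.2 (tri hD i)).resolve_right fun h => h9 ⟨i, h⟩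
    by_cases h3 : ∃ i, ∀ w ∈ W i, ρ z w = (3 : K) • w
    · obtain ⟨i, h3⟩ := h3
      have e := (Finset.sum_eq_zero_iff_of_nonneg fun j _ => (h13 j).elim
        (fun h => (pos (mul 1 h h (by decide))).le) fun h =>
          (d9 (mul 9 h h (by decide))).symm ▸ Nat.cast_nonneg _).1
        (hA (mulD hD hD) (mul 9 h3 h3 (by decide)))
      refine (hS ⟨z, fun v => ?_⟩).elim
      rw [ext (ρ z) ((3 : K) • 1) fun j => (h13 j).resolve_left fun h =>
        (pos (mul 1 h h (by decide))).ne' (e j (Finset.mem_univ j))]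
      rfl
    · exact Finset.sum_nonneg fun j _ => (pos ((h13 j).resolve_right fun h => h3 ⟨j, h⟩)).le
  have h1 : ∀ i, ∀ w ∈ W i, ρ 1 w = (1 : K) • w := fun i w _ => by simp
  have hE : ∀ i, ∑ z : {z // DiagE ρ W z}, dl z i = 0 := fun i => by
    obtain ⟨y, hy, h3⟩ := hz i
    have hb : Function.Bijective fun z : {z // DiagE ρ W z} =>
        (⟨z * y, mulD z.2 hy⟩ : {z // DiagE ρ W z}) :=
      Finite.injective_iff_bijective.1 fun z z' e =>
        Subtype.ext (mul_right_cancel (congrArg Subtype.val e))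
    have e1 := hb.sum_comp fun z => dl z i
    have e2 := hb.sum_comp fun z => dl (z * y) i
    have e3 : ∑ z : {z // DiagE ρ W z}, (dl z i + dl (z * y) i + dl (z * y * y) i) = 0 :=
      Finset.sum_eq_zero fun z _ => by
        rcases tri z.2 i with h | h | h
        · have h' := mul 3 h h3 (by decide)
          rw [d1 h, d3 h', d9 (mul 9 h' h3 (by decide))]
          ring
        · have h' := mul 9 h h3 (by decide)
          rw [d3 h, d9 h', d1 (mul 1 h' h3 (by decide))]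
          ring
        · have h' := mul 1 h h3 (by decide)
          rw [d9 h, d1 h', d3 (mul 3 h' h3 (by decide))]
          ring
    rw [Finset.sum_add_distrib, Finset.sum_add_distrib] at e3
    linarith
  have := Finset.sum_pos' (fun z _ => hC z) ⟨⟨1, fun i => ⟨one_smul _ _, 1, one_pow _, h1 i⟩⟩,
    Finset.mem_univ _, Finset.sum_pos (fun i _ => pos (h1 i)) Finset.univ_nonempty⟩
  rw [Finset.sum_comm, Finset.sum_eq_zero fun i _ => hE i] at this
  exact this.false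

end Pool.Agent.N9181
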