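import Pool.Agent.MP_9181f8_al.S.BaseM
import Pool.Agent.MP_9181f8_al.S.Trans
import Pool.Agent.MP_9181f8_al.S.StepP
import Pool.Agent.MP_9181f8_al.S.Z1
import Pool.Agent.MP_9181f8_al.S.Z2
import Pool.Agent.MP_9181f8_al.S.TermC

namespace Pool.Agent.N9181

open scoped commutatorElement

theorem thmM2 {V : Type} [AddCommGroup V] [Module K V] [Module.Finite K V]
    {H : Type} [Group H] [Finite H] [Group.IsSolvable H] (ρ : Representation K H V) (h13 : ¬ 13 ∣ Nat.card H) (N : ℕ) (hd : Nat.card H ∣ N) (hN : 0 < N)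
    (hirr : Irr ρ) (hS : HSq ρ N) (hb : HBal3 ρ) (hE : HEP ρ 3) : Scal ρ := by
  obtain ⟨I, _, _, W, hB, hW⟩ := gblocks ρ h13 N hd hN hirr.1 hS
  have htr := trans_of_irr ρ W hB hirr
  have hI : Nonempty I := by
    by_contra hI
    rw [not_nonempty_iff] at hI
    have h1 := hB.top
    rw [iSup_of_empty] at h1
    obtain ⟨v, h0⟩ := hirr.1
    have h2 : v ∈ (⊥ : Submodule K V) := h1 ▸ Submodule.mem_top
    exact h0 h2
  obtain ⟨i⟩ := id hI
  obtain ⟨H', _, _, _, π, σ, A, F, hF, hG⟩ := hW i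
  choose g hg using fun j => MulAction.exists_smul_eq H i j
  obtain ⟨t1, t2, t3, t4⟩ := trans_pb ρ W hB i π σ hF g hg
  have hm : ∀ (r : W i) (j : I), ρ (g j) r ∈ W j := fun r j => by
    have := hB.map (g j) i r r.2
    rwa [hg j] at this
  have hm0 : ∀ r : W i, r ≠ 0 → ∀ j : I, ρ (g j) r ∈ W j ∧ ρ (g j) r ≠ 0 := fun r h0 j =>
    ⟨hm r j, fun e => h0 (Subtype.ext (by
      rw [← rho_inv ρ (g j) r, e, map_zero]; rfl))⟩
  have fin : ∀ t : H, (∀ i, ∀ w ∈ W i, ρ t w = (3 : K) • w) → Scal ρ := by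
    intro t h
    refine ⟨t, fun v => ?_⟩
    rw [ext_blocks ρ W hB (ρ t) ((3 : K) • LinearMap.id) h]
    rfl
  rcases baseM σ N A F hG with ⟨r, r', p, r0, hp, hn, p1, p2, p3⟩ | ⟨⟨r, r', r0, r0', hn, p1, p2⟩,
    E, hE', hFF⟩
  · obtain ⟨t, a, ht, ft, hf, h⟩ := stepP ρ W hB hb hE _ _ (hm0 r r0) (hm r') p hp (t4 r r' r0 hn)
      (t1 r p p1) (t2 r' p p2)
    rcases h with h | ⟨i1, i2, i3, h12, h13', h23, -, h⟩
    · exact fin t fun j => t3 r p3 j t a ht (ft j) (h j) hf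
    · have st : ∀ j, j ≠ i1 → ∀ w ∈ W j, ρ t w = (3 : K) • w := fun j hj =>
        t3 r p3 j t a ht (ft j) (h j hj) hf
      refine fin t fun j => ?_
      by_cases e : j = i1
      · subst e
        exact fin1 ρ W hB hb t a j i2 i3 h12 h13' h23 ht ft st
      · exact st j e
  · obtain ⟨t, a, ht, ft, hf, h⟩ := stepP ρ W hB hb hE _ _ (hm0 r r0) (hm r') 1 one_pos
      (t4 r r' r0 hn) (t1 r 1 p1) (t2 r' 1 fun s n h1 h2 => by
        have := p2 s n h1 h2
        omega)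
    have hpos : ∀ j, edOn (W j) (ρ t) 9 < edOn (W j) (ρ t) 3 := fun j => by
      rcases h with h | ⟨i1, -, -, -, -, -, h1, h⟩
      · exact t1 r 1 p1 j t a ht (ft j) (h j)
      · by_cases e : j = i1
        · subst e
          exact t1 r' 1 p2 j t a ht (ft j) h1
        · exact t1 r 1 p1 j t a ht (ft j) (h j e)
    by_cases hsc : ∀ j : I, ∃ c : K, ∀ w ∈ W j, ρ t w = c • w
    · refine fin t fun j => ?_
      obtain ⟨c, hc⟩ := hsc j
      obtain ⟨u, hu, u0, e⟩ := (edOn_pos (W j) (ρ t) 3).1 (by have := hpos j; omega)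
      rw [hc u hu] at e
      rwa [smul_left_injective K u0 e] at hc
    · exact z2 ρ W hB hb t a ht ft hf hpos (z1 ρ W hB i π σ hF E hE' hFF t ft hsc)

end Pool.Agent.N9181
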