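import Pool.Agent.MP_9181f8_al.S.SBasic
import Pool.Agent.MP_9181f8_al.S.M3a
import Pool.Agent.MP_9181f8_al.N.BtTL
import Pool.Agent.MP_9181f8_al.N.BtEig
import Pool.Agent.MP_9181f8_al.N.BtUse

namespace Pool.Agent.N9181

open scoped commutatorElement

theorem xswrapa_res {V : Type} [AddCommGroup V] [Module K V] [Module.Finite K V]
    {H : Type} [Group H] [Finite H] (ρ : Representation K H V) (J : Subgroup H) (y : H)
    (hy : y ∈ Subgroup.normalizer (J : Set H)) (n : ℕ) (hn : y ^ n = 1) :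
    ∃ s : Module.End K (fixS ρ J), (∀ w : fixS ρ J, (s w : V) = ρ y w) ∧
      (∀ (k : ℕ) (w : fixS ρ J), ((s ^ k) w : V) = ρ (y ^ k) w) ∧ s ^ n = 1 := by
  have hbW : ∀ v ∈ fixS ρ J, ρ y v ∈ fixS ρ J := fun v hv => fix_norm ρ J y hy v hv
  have hs : ∀ (k : ℕ) (w : fixS ρ J), ((((ρ y).restrict hbW) ^ k) w : V) = ρ (y ^ k) w :=
    fun k w => by
      rw [Module.End.pow_restrict, map_pow]
      rfl
  refine ⟨(ρ y).restrict hbW, fun _ => rfl, hs, LinearMap.ext fun w => Subtype.ext ?_⟩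
  rw [hs, hn, map_one]
  rfl

theorem xswrapa_ord {H : Type} [Group H] [Finite H] (J : Subgroup H) (h3 : ¬ 3 ∣ Nat.card J)
    (b : H) (hb : b ∈ Subgroup.normalizer (J : Set H)) (a : ℕ) (ha : b ^ (2 ^ a) = 1)
    (j : H) (hj : j ∈ J) : ¬ 3 ∣ orderOf (b * j) := by
  intro h
  have h1 : (b * j) ^ (2 ^ a) ∈ J := by
    have := xbtuse_mem hb hj (2 ^ a)
    rwa [ha, inv_one, one_mul] at this
  have h2 : (b * j) ^ (2 ^ a * Nat.card J) = 1 := by
    rw [pow_mul]
    exact congrArg Subtype.val (pow_card_eq_one' (x := (⟨_, h1⟩ : J)))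
  have h4 := h.trans (orderOf_dvd_of_pow_eq_one h2)
  rcases (Nat.Prime.dvd_mul Nat.prime_three).1 h4 with h5 | h5
  · have := Nat.prime_three.dvd_of_dvd_pow h5
    omega
  · exact h3 h5

theorem bal_of_real {V : Type} [AddCommGroup V] [Module K V] [Module.Finite K V]
    {H : Type} [Group H] [Finite H] (ρ : Representation K H V) (h13 : ¬ 13 ∣ Nat.card H)
    (hr : ∀ h : H, ¬ 3 ∣ orderOf h → IsConj h h⁻¹) : BalJ ρ := by
  rintro w J y - hM ⟨hy, ⟨a, ha⟩, -⟩
  have := Fintype.ofFinite J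
  have hu := fun M => xbtuse_unit M fun h => h13 (h.trans (Subgroup.card_subgroup_dvd_card J))
  have ha' : y⁻¹ ^ (2 ^ a) = 1 := by rw [inv_pow, ha, inv_one]
  obtain ⟨s, hs1, hs2, hs3⟩ := xswrapa_res ρ J y hy _ ha
  obtain ⟨s', hs1', hs2', hs3'⟩ := xswrapa_res ρ J y⁻¹ (inv_mem hy) _ ha'
  have h2 : ¬ 13 ∣ 2 ^ a := fun h => by
    have := Nat.Prime.dvd_of_dvd_pow fact13.out h
    omega
  have key : ∀ (k M : ℕ), bt (s ^ k) M = bt (s' ^ k) M := by
    intro k M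
    refine (hu M).mul_left_cancel ?_
    have hk := pow_mem hy k
    rw [xbtuse_TL h13 ρ hk (isFix_fixS ρ J) _ (hs2 k),
      xbtuse_TL h13 ρ (pow_mem (inv_mem hy) k) (isFix_fixS ρ J) _ (hs2' k), inv_pow,
      ← xbtuse_sum (fun x => bt (ρ x) M) (y ^ k)⁻¹ (fun j : J => (y ^ k * j)⁻¹)
        (fun j => by
          have := (Subgroup.mem_normalizer_iff.1 hk _).1 (inv_mem j.2)
          simpa [mul_assoc] using this)
        fun j j' e => Subtype.ext (mul_left_cancel (inv_injective e))]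
    refine Finset.sum_congr rfl fun j _ => bt_isConj ρ _ _ (hr _ ?_) M
    exact xswrapa_ord J hM.2.1 _ hk a (by rw [pow_right_comm, ha, one_pow]) j j.2
  have h3 : ed s 5 = ed s' 5 := by
    simp only [xbteig_ed]
    refine eq_of_cast _ _ fun M => ?_
    obtain ⟨c, hc⟩ := bt_ker (Polynomial.X - Polynomial.C 5) (2 ^ a) h2 M
    rw [hc _ _ hs3, hc _ _ hs3']
    exact Finset.sum_congr rfl fun k _ => by rw [key]
  have h8 : (8 : K)⁻¹ = 5 := by
    refine inv_eq_of_mul_eq_one_right ?_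
    decide
  rw [← ed_inv ρ (fixS ρ J) y 8 (by decide), h8, ← ed_res _ _ s hs1, ← ed_res _ _ s' hs1', h3]

end Pool.Agent.N9181
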