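import Pool.Agent.MP_9181f8_al.S.ThmE
import Pool.Agent.MP_9181f8_al.S.KapB
import Pool.Agent.MP_9181f8_al.S.WrapA
import Pool.Agent.MP_9181f8_al.S.HSqI

namespace Pool.Agent.N9181

open scoped commutatorElement

theorem eg_core {V : Type} [AddCommGroup V] [Module K V] [Module.Finite K V]
    {H : Type} [Group H] [Finite H] [Group.IsSolvable H] (ρ : Representation K H V) (h13 : ¬ 13 ∣ Nat.card H) (N : ℕ) (hd : Nat.card H ∣ N) (hN : 0 < N)
    (t : H) (a : ℕ) (ht : t ^ (3 ^ a) = 1) (hc : ∀ g : H, g * t = t * g) (hS : HSq ρ N)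
    (hT : Tri ρ N) (hr : ∀ h : H, ¬ 3 ∣ orderOf h → IsConj h h⁻¹)
    (hE : ∀ v, ρ t v = v → ∀ l : K, l ≠ 0 → ∃ h, ρ h v = l • v) : ∀ v, ρ t v = v → v = 0 := by
  have hn : (Subgroup.zpowers t).Normal := by
    refine ⟨fun y hy g => ?_⟩
    obtain ⟨k, rfl⟩ := Subgroup.mem_zpowers_iff.1 hy
    rwa [(Commute.zpow_right (hc g) k).eq, mul_inv_cancel_right]
  have hU : ∀ v, v ∈ fixS ρ (Subgroup.zpowers t) ↔ ρ t v = v := fun v =>
    ⟨fun h => h t (Subgroup.mem_zpowers t),
      fun h _ hy => (Subgroup.zpowers_le (H := stabV ρ v)).2 h hy⟩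
  have hno : ∀ h : H, h ∈ Subgroup.normalizer ((Subgroup.zpowers t : Subgroup H) : Set H) :=
    fun h => by
      rw [Subgroup.normalizer_eq_top]
      exact Subgroup.mem_top h
  obtain ⟨σ, hσ⟩ : ∃ σ : Representation K H (fixS ρ (Subgroup.zpowers t)),
      ∀ h w, (σ h w : V) = ρ h w :=
    ⟨ρ.subrepresentation _ fun g v hv => fix_norm ρ _ g (hno g) v hv, fun _ _ => rfl⟩
  have hep : ∀ l : K, l ≠ 0 → HEP σ l := fun l hl w => by
    obtain ⟨h, hh⟩ := hE w ((hU w).1 w.2) l hl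
    exact ⟨h, Subtype.ext ((hσ h w).trans hh)⟩
  have hP : Par ρ := by
    refine kap_par ρ h13 N hN hT fun h b hb => sim_conj ρ _ _ (hr h fun h3 => ?_)
    have := Nat.prime_three.dvd_of_dvd_pow (h3.trans (orderOf_dvd_of_pow_eq_one hb))
    omega
  have hPσ : Par σ := by
    intro T y e hT3 hy he hf h5
    have hz : IsPGroup 3 (Subgroup.zpowers t) := by
      rintro ⟨g, hg⟩
      obtain ⟨k, rfl⟩ := Subgroup.mem_zpowers_iff.1 hg
      refine ⟨a, Subtype.ext ?_⟩
      change (t ^ k) ^ 3 ^ a = 1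
      rw [← zpow_natCast, ← zpow_mul, mul_comm, zpow_mul, zpow_natCast, ht, one_zpow]
    refine hP (T ⊔ Subgroup.zpowers t) y e (hT3.to_sup_of_normal_right hz)
      (Subgroup.normalizer_le_normalizer_sup_normal hy) (fun h => he (Subtype.ext h))
      (le_antisymm (fun v hv => ?_) ?_) ((hσ y e).symm.trans (congrArg Subtype.val h5))
    · have h1 : v ∈ fixS ρ (Subgroup.zpowers t) := fun g hg => hv g (Subgroup.mem_sup_right hg)
      have h2 : (⟨v, h1⟩ : fixS ρ (Subgroup.zpowers t)) ∈ fixS σ T := fun g hg =>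
        Subtype.ext ((hσ g _).trans (hv g (Subgroup.mem_sup_left hg)))
      rw [hf, Submodule.mem_span_singleton] at h2
      obtain ⟨c, hc'⟩ := h2
      exact Submodule.mem_span_singleton.2 ⟨c, congrArg Subtype.val hc'⟩
    · rw [Submodule.span_singleton_le_iff_mem]
      have h1 : e ∈ fixS σ T := hf ▸ Submodule.mem_span_singleton_self e
      have h2 : T ⊔ Subgroup.zpowers t ≤ stabV ρ (e : V) :=
        sup_le (fun g hg => (hσ g e).symm.trans (congrArg Subtype.val (h1 g hg))) e.2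
      exact h2
  intro v hv
  have hC : ClB σ N := ⟨hd, hN, h13, hep 5 (by decide), fun h j hj M =>
    hsq_tw ρ h13 N hd hS (Subgroup.zpowers t) (fun _ => 1) _
      (fun v => by simp only [one_smul, mem_fixS]) h (hno h) j hj _ _ (hσ _) (hσ _) M,
    bal_of_real σ h13 hr⟩
  exact congrArg Subtype.val (thmE σ N hC (hep 3 (by decide)) hPσ ⟨v, (hU v).2 hv⟩)

end Pool.Agent.N9181
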